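import Pool.Agent.Lib.MP_a3f657_nt.BK.APf

/-!
Counting alternating forms by the size of the radical.
-/

set_option linter.unusedSectionVars false

namespace Pool.Agent.Lib.MP_788af2_nt.AS

open Pool.Agent.Lib.MP_a3f657_nt.Two Matrix

section

variable {V U : Type} [AddCommGroup V] [AddCommGroup U]

lemma aalt_sym {ψ : V →+ V →+ ZMod 2} (hψ : ∀ v, ψ v v = 0) (v w : V) : ψ v w = ψ w v := by
  have := hψ (v + w)
  simp only [map_add, AddMonoidHom.add_apply, hψ] at this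
  rcases z2_cases (ψ v w) with h | h <;> rcases z2_cases (ψ w v) with h' | h' <;> simp_all

lemma aalt_smul (h2 : ∀ x : V, x + x = 0) (τ : V) (a b : ZMod 2) :
    (a + b).val • τ = a.val • τ + b.val • τ := by
  have e1 : (1 : ZMod 2).val = 1 := rfl
  have e2 : (1 + 1 : ZMod 2).val = 0 := rfl
  rcases z2_cases a with rfl | rfl <;> rcases z2_cases b with rfl | rfl <;> simp [e1, e2, h2]

lemma aalt_split (h2 : ∀ x : V, x + x = 0) {τ : V} (hτ : τ ≠ 0) :
    ∃ (S : AddSubgroup V) (e : V ≃+ S × ZMod 2), e τ = (0, 1) := by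
  obtain ⟨χ, h1, -⟩ := exists_sep_hom h2 ⊥ (v := τ) (by simpa using hτ)
  have h1' : χ τ = 1 := (z2_cases _).resolve_left h1
  have hm : ∀ v, v + (χ v).val • τ ∈ χ.ker := fun v => by
    simp [AddMonoidHom.mem_ker, h1', z2_add_self]
  refine ⟨χ.ker, ⟨⟨fun v => (⟨v + (χ v).val • τ, hm v⟩, χ v),
    fun q => q.1.1 + q.2.val • τ, fun v => ?_, fun q => ?_⟩, fun v w => ?_⟩, ?_⟩
  · simp only [add_assoc, h2, add_zero]
  · have : χ (q.1.1 + q.2.val • τ) = q.2 := by
      have := q.1.2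
      rw [AddMonoidHom.mem_ker] at this
      simp [this, h1']
    ext
    · simp only [this, add_assoc, h2, add_zero]
    · simp only [this]
  · ext
    · simp only [map_add, aalt_smul h2, Prod.fst_add, AddSubgroup.coe_add]
      abel
    · simp
  · ext
    · have e1 : (1 : ZMod 2).val = 1 := rfl
      simp [h1', e1, h2]
    · simp [h1']

/-- The form with one more row and column. -/
def aaltF (e : V ≃+ U × ZMod 2) (q : (U →+ U →+ ZMod 2) × (U →+ ZMod 2)) :
    V →+ V →+ ZMod 2 :=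
  AddMonoidHom.mk' (fun v => AddMonoidHom.mk'
    (fun w => q.1 (e v).1 (e w).1 + (e v).2 * q.2 (e w).1 + (e w).2 * q.2 (e v).1)
    (fun a b => by simp only [map_add, Prod.fst_add, Prod.snd_add]; ring))
    (fun a b => by
      ext w
      simp only [map_add, Prod.fst_add, Prod.snd_add, AddMonoidHom.mk'_apply,
        AddMonoidHom.add_apply]
      ring)

lemma aaltF_apply (e : V ≃+ U × ZMod 2) (q : (U →+ U →+ ZMod 2) × (U →+ ZMod 2)) (v w : V) :
    aaltF e q v w = q.1 (e v).1 (e w).1 + (e v).2 * q.2 (e w).1 + (e w).2 * q.2 (e v).1 := rfl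

lemma aaltF_inj (e : V ≃+ U × ZMod 2) : Function.Injective (aaltF e) := by
  intro q q' h
  have h' : ∀ v w, aaltF e q v w = aaltF e q' v w := fun v w => by rw [h]
  ext u w
  · simpa [aaltF_apply] using h' (e.symm (u, 0)) (e.symm (w, 0))
  · simpa [aaltF_apply] using h' (e.symm (0, 1)) (e.symm (u, 0))

lemma aaltF_alt (e : V ≃+ U × ZMod 2) (q : (U →+ U →+ ZMod 2) × (U →+ ZMod 2)) :
    (∀ v, aaltF e q v v = 0) ↔ ∀ u, q.1 u u = 0 := by
  refine ⟨fun h u => by simpa [aaltF_apply] using h (e.symm (u, 0)), fun h v => ?_⟩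
  rw [aaltF_apply, h, zero_add, z2_add_self]

lemma aaltF_surj (e : V ≃+ U × ZMod 2) {ψ : V →+ V →+ ZMod 2} (hψ : ∀ v, ψ v v = 0) :
    ∃ q, aaltF e q = ψ := by
  let ι : U →+ V := e.symm.toAddMonoidHom.comp (AddMonoidHom.inl U (ZMod 2))
  have hd : ∀ v, v = ι (e v).1 + (e v).2.val • e.symm (0, 1) := fun v => by
    apply e.injective
    ext <;> simp [ι]
  refine ⟨((ψ.comp ι).compl₂ ι, (ψ (e.symm (0, 1))).comp ι), ?_⟩
  ext v w
  conv_rhs => rw [hd v, hd w]
  simp [aaltF_apply, hψ, aalt_sym hψ (ι (e v).1) (e.symm (0, 1))]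
  ring

lemma aaltF_mem (e : V ≃+ U × ZMod 2) (q : (U →+ U →+ ZMod 2) × (U →+ ZMod 2)) (v : V) :
    v ∈ rad (aaltF e q) ⊤ ↔ q.2 (e v).1 = 0 ∧ ∀ w, q.1 (e v).1 w = (e v).2 * q.2 w := by
  constructor
  · rintro ⟨-, h⟩
    refine ⟨by simpa [aaltF_apply] using h (e.symm (0, 1)) trivial, fun w => ?_⟩
    have := h (e.symm (w, 0)) trivial
    simp only [aaltF_apply, AddEquiv.apply_symm_apply, zero_mul, add_zero] at this
    rw [← add_left_inj ((e v).2 * q.2 w), this, z2_add_self]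
  · rintro ⟨h1, h3⟩
    refine ⟨trivial, fun w _ => ?_⟩
    rw [aaltF_apply, h1, h3, mul_zero, add_zero, z2_add_self]

lemma aalt_range (h2 : ∀ x : U, x + x = 0) [Finite U] {ψ : U →+ U →+ ZMod 2}
    (hψ : ∀ v, ψ v v = 0) :
    Nat.card ψ.range * Nat.card (rad ψ ⊤) = Nat.card U ∧ ψ.range = ann (rad ψ ⊤) := by
  have : Finite (U →+ ZMod 2) := DFunLike.finite _
  have h1 : rad ψ ⊤ = ψ.ker := by
    ext v
    exact ⟨fun h => AddMonoidHom.ext fun w => h.2 w trivial,
      fun h => ⟨trivial, fun w _ => DFunLike.congr_fun h w⟩⟩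
  have h3 : Nat.card ψ.range * Nat.card (rad ψ ⊤) = Nat.card U := by
    rw [h1, ← AddSubgroup.index_ker, AddSubgroup.index_mul_card]
  refine ⟨h3, AddSubgroup.eq_of_le_of_card_ge ?_ ?_⟩
  · rintro _ ⟨x, rfl⟩ u hu
    rw [aalt_sym hψ]
    exact hu.2 x trivial
  · have h4 := card_ann h2 (rad ψ ⊤)
    have h5 : 0 < Nat.card (rad ψ ⊤) := Nat.card_pos
    exact (Nat.eq_of_mul_eq_mul_right h5 (h4.trans h3.symm)).le

lemma aaltF_card_in (h2 : ∀ x : U, x + x = 0) (e : V ≃+ U × ZMod 2)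
    {q : (U →+ U →+ ZMod 2) × (U →+ ZMod 2)} (hq : ∀ u, q.1 u u = 0) (h : q.2 ∈ q.1.range) :
    Nat.card (rad (aaltF e q) ⊤) = Nat.card (rad q.1 ⊤) * 2 := by
  obtain ⟨x, hx⟩ := h
  rw [show Nat.card (rad q.1 ⊤) * 2 = Nat.card (rad q.1 ⊤ × ZMod 2) by
    rw [Nat.card_prod, Nat.card_zmod]]
  refine Nat.card_congr ⟨fun v => (⟨(e v.1).1 + (e v.1).2.val • x, trivial, fun w _ => ?_⟩,
    (e v.1).2), fun r => ⟨e.symm (r.1.1 + r.2.val • x, r.2), ?_⟩, fun v => ?_, fun r => ?_⟩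
  · simp [((aaltF_mem e q v.1).1 v.2).2 w, hx, z2_add_self]
  · rw [aaltF_mem]
    refine ⟨?_, fun w => ?_⟩
    · simp [← hx, hq, aalt_sym hq x r.1.1, r.1.2.2 x trivial]
    · simp [hx, r.1.2.2 w trivial]
  · ext
    simp [add_assoc, h2]
  · ext <;> simp [add_assoc, h2]

lemma aaltF_card_out (h2 : ∀ x : U, x + x = 0) [Finite U] (e : V ≃+ U × ZMod 2)
    {q : (U →+ U →+ ZMod 2) × (U →+ ZMod 2)} (hq : ∀ u, q.1 u u = 0) (h : q.2 ∉ q.1.range) :
    Nat.card (rad (aaltF e q) ⊤) * 2 = Nat.card (rad q.1 ⊤) := by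
  have h1 : (rad q.1 ⊤).map q.2 = ⊤ := by
    rw [(aalt_range h2 hq).2] at h
    obtain ⟨u, hu, hu'⟩ : ∃ u ∈ rad q.1 ⊤, q.2 u ≠ 0 := by
      by_contra hc
      push Not at hc
      exact h hc
    rw [eq_top_iff]
    intro a _
    rcases z2_cases a with rfl | rfl
    · exact zero_mem _
    · exact ⟨u, hu, (z2_cases _).resolve_left hu'⟩
  have e2 : q.2.ker.relIndex (rad q.1 ⊤) = 2 := by
    rw [AddSubgroup.relIndex_ker, h1]; simp
  have e3 : Nat.card (q.2.ker ⊓ rad q.1 ⊤ : AddSubgroup U) * 2 = Nat.card (rad q.1 ⊤) := by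
    refine (congrArg _ e2.symm).trans ?_
    rw [← AddSubgroup.inf_relIndex_right, AddSubgroup.relIndex,
      ← Nat.card_congr (AddSubgroup.addSubgroupOfEquivOfLe (inf_le_right (a := q.2.ker))).toEquiv,
      AddSubgroup.card_mul_index]
  rw [← e3]
  congr 1
  have h0 : ∀ v ∈ rad (aaltF e q) ⊤, (e v).2 = 0 := fun v hv => by
    refine (z2_cases _).resolve_right fun h1 => h ⟨(e v).1, ?_⟩
    ext w
    rw [((aaltF_mem e q v).1 hv).2 w, h1, one_mul]
  refine Nat.card_congr ⟨fun v => ⟨(e v.1).1, ((aaltF_mem e q v.1).1 v.2).1, trivial,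
    fun w _ => ?_⟩, fun r => ⟨e.symm (r.1, 0), ?_⟩, fun v => ?_, fun r => ?_⟩
  · rw [((aaltF_mem e q v.1).1 v.2).2 w, h0 v.1 v.2, zero_mul]
  · rw [aaltF_mem]
    refine ⟨by simpa using r.2.1, fun w => ?_⟩
    simp [r.2.2.2 w trivial]
  · ext
    simp only
    rw [← h0 v.1 v.2]
    simp
  · ext
    simp

open scoped Classical in
lemma aalt_ncard {X : Type} [Fintype X] (P : X → Prop) :
    ({x | P x}.ncard : ℝ) = ∑ x, if P x then 1 else 0 := by
  rw [Finset.sum_boole, ← Set.ncard_coe_finset]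
  simp

open scoped Classical in
lemma aaltF_ncard (e : V ≃+ U × ZMod 2) [Fintype (U →+ U →+ ZMod 2)] [Fintype (U →+ ZMod 2)]
    (P : (V →+ V →+ ZMod 2) → Prop) :
    ({ψ : V →+ V →+ ZMod 2 | (∀ v, ψ v v = 0) ∧ P ψ}.ncard : ℝ) =
      ∑ φ : U →+ U →+ ZMod 2, if (∀ u, φ u u = 0) then
        ({f : U →+ ZMod 2 | P (aaltF e (φ, f))}.ncard : ℝ) else 0 := by
  have : {ψ : V →+ V →+ ZMod 2 | (∀ v, ψ v v = 0) ∧ P ψ} =
      aaltF e '' {q | (∀ u, q.1 u u = 0) ∧ P (aaltF e q)} := by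
    ext ψ
    constructor
    · rintro ⟨h1, h3⟩
      obtain ⟨q, rfl⟩ := aaltF_surj e h1
      exact ⟨q, ⟨(aaltF_alt e q).1 h1, h3⟩, rfl⟩
    · rintro ⟨q, ⟨h1, h3⟩, rfl⟩
      exact ⟨(aaltF_alt e q).2 h1, h3⟩
  rw [this, Set.ncard_image_of_injective _ (aaltF_inj e), aalt_ncard, Fintype.sum_prod_type]
  refine Finset.sum_congr rfl fun φ _ => ?_
  split_ifs with h
  · rw [aalt_ncard]
    refine Finset.sum_congr rfl fun f _ => ?_
    simp [h]
  · simp [h]

open scoped Classical in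
lemma aaltF_inner (h2 : ∀ x : U, x + x = 0) [Finite U] (e : V ≃+ U × ZMod 2)
    {φ : U →+ U →+ ZMod 2} (hφ : ∀ u, φ u u = 0) (k : ℕ) :
    ({f : U →+ ZMod 2 | Nat.card (rad (aaltF e (φ, f)) ⊤) = k}.ncard : ℝ) =
      (if Nat.card (rad φ ⊤) * 2 = k then (Nat.card φ.range : ℝ) else 0) +
      (if k * 2 = Nat.card (rad φ ⊤) then (Nat.card U - Nat.card φ.range : ℝ) else 0) := by
  have : Finite (U →+ ZMod 2) := DFunLike.finite _
  have := Fintype.ofFinite (U →+ ZMod 2)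
  have h1 : (Nat.card φ.range : ℝ) = ∑ f : U →+ ZMod 2, if f ∈ φ.range then 1 else 0 := by
    rw [← aalt_ncard, ← Nat.card_coe_set_eq]
    rfl
  have h3 : (Nat.card U - Nat.card φ.range : ℝ) =
      ∑ f : U →+ ZMod 2, if f ∈ φ.range then 0 else 1 := by
    rw [h1, ← card_hom h2, Nat.card_eq_fintype_card, sub_eq_iff_eq_add, ← Finset.sum_add_distrib]
    rw [Finset.sum_congr rfl (g := fun _ => (1 : ℝ)) fun f _ => by split_ifs <;> simp]
    simp
  rw [h3, h1, aalt_ncard, Finset.ite_sum_zero, Finset.ite_sum_zero, ← Finset.sum_add_distrib]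
  refine Finset.sum_congr rfl fun f _ => ?_
  by_cases hf : f ∈ φ.range
  · simp [hf, aaltF_card_in h2 e (q := (φ, f)) hφ hf]
  · have := aaltF_card_out h2 e (q := (φ, f)) hφ hf
    simp only at this
    simp only [hf, if_false, ite_self, zero_add, ← this]
    congr 1
    apply propext
    omega

open scoped Classical in
lemma aaltF_total (h2 : ∀ x : U, x + x = 0) [Finite U] (e : V ≃+ U × ZMod 2) :
    ({ψ : V →+ V →+ ZMod 2 | ∀ v, ψ v v = 0}.ncard : ℝ) =
      Nat.card U * {φ : U →+ U →+ ZMod 2 | ∀ u, φ u u = 0}.ncard := by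
  have : Finite (U →+ ZMod 2) := DFunLike.finite _
  have : Finite (U →+ U →+ ZMod 2) := DFunLike.finite _
  have := Fintype.ofFinite (U →+ ZMod 2)
  have := Fintype.ofFinite (U →+ U →+ ZMod 2)
  have h := aaltF_ncard e fun _ => True
  simp only [and_true] at h
  rw [h, aalt_ncard (X := U →+ U →+ ZMod 2), Finset.mul_sum]
  refine Finset.sum_congr rfl fun φ _ => ?_
  split_ifs
  · simp [← card_hom h2]
  · simp

lemma aalt_card_split [Finite V] (e : V ≃+ U × ZMod 2) {l : ℕ} (hV : Nat.card V = 2 ^ (l + 1)) :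
    Nat.card U = 2 ^ l := by
  rw [Nat.card_congr e.toEquiv, Nat.card_prod, Nat.card_zmod, pow_succ] at hV
  omega

end

theorem alt_count (V : Type) [AddCommGroup V] [Finite V] (h2 : ∀ x : V, x + x = 0) {l : ℕ}
    (hV : Nat.card V = 2 ^ l) (x : ℕ) :
    ({ψ : V →+ V →+ ZMod 2 | (∀ v, ψ v v = 0) ∧ Nat.card (rad ψ ⊤) = 2 ^ x}.ncard : ℝ) =
      Pa l x * {ψ : V →+ V →+ ZMod 2 | ∀ v, ψ v v = 0}.ncard := by
  classical
  induction l generalizing V x with
  | zero =>
    have : Subsingleton V := (Nat.card_eq_one_iff_unique.1 hV).1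
    have h1 : ∀ ψ : V →+ V →+ ZMod 2, Nat.card (rad ψ ⊤) = 1 := fun ψ => Nat.card_unique
    rcases Nat.eq_zero_or_pos x with rfl | hx
    · simp [h1, Pa_zero_zero]
    · have : (1 : ℕ) ≠ 2 ^ x := (Nat.one_lt_two_pow hx.ne').ne
      simp [h1, Pa_of_lt hx, this]
  | succ l ih =>
    have : Nontrivial V := Finite.one_lt_card_iff_nontrivial.1 (by
      rw [hV]; exact Nat.one_lt_two_pow (by omega))
    obtain ⟨τ, hτ⟩ := exists_ne (0 : V)
    obtain ⟨S, e, -⟩ := aalt_split h2 hτ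
    have h2S : ∀ y : S, y + y = 0 := fun y => Subtype.ext (h2 y)
    have hS := aalt_card_split e hV
    have : Finite (S →+ ZMod 2) := DFunLike.finite _
    have : Finite (S →+ S →+ ZMod 2) := DFunLike.finite _
    have := Fintype.ofFinite (S →+ ZMod 2)
    have := Fintype.ofFinite (S →+ S →+ ZMod 2)
    have hr : ∀ (φ : S →+ S →+ ZMod 2) (m : ℕ), (∀ u, φ u u = 0) → Nat.card (rad φ ⊤) = 2 ^ m →
        (Nat.card φ.range : ℝ) = 2 ^ l * (2 : ℝ)⁻¹ ^ m := fun φ m hφ hm => by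
      have := (aalt_range h2S hφ).1
      rw [hm, hS] at this
      have : (Nat.card φ.range : ℝ) * 2 ^ m = 2 ^ l := by exact_mod_cast this
      rw [← this, inv_pow]
      field_simp
    rw [aaltF_ncard e, aaltF_total h2S e, hS]
    rcases x with _ | x
    · have h := ih S h2S hS 1
      rw [Pa_bd0, show ∀ a b c d : ℝ, a * b * (c * d) = c * b * (a * d) from
        fun a b c d => by ring, ← h, aalt_ncard, Finset.mul_sum]
      refine Finset.sum_congr rfl fun φ _ => ?_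
      by_cases hφ : ∀ u, φ u u = 0
      · rw [if_pos hφ, aaltF_inner h2S e hφ, if_neg (by omega), hS]
        by_cases hm : Nat.card (rad φ ⊤) = 2 ^ 1
        · rw [if_pos (by omega), if_pos ⟨hφ, hm⟩, hr φ 1 hφ hm]
          push_cast
          ring
        · rw [if_neg (by omega), if_neg (by tauto)]
          simp
      · simp only [hφ, false_and, if_false, mul_zero, add_zero]
    · have h := ih S h2S hS x
      have h' := ih S h2S hS (x + 2)
      rw [Pa_bd, show ∀ a b a' b' c d : ℝ, (a * b + a' * b') * (c * d) =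
        c * b * (a * d) + c * b' * (a' * d) from fun a b a' b' c d => by ring, ← h, ← h',
        aalt_ncard, aalt_ncard, Finset.mul_sum, Finset.mul_sum, ← Finset.sum_add_distrib]
      refine Finset.sum_congr rfl fun φ _ => ?_
      by_cases hφ : ∀ u, φ u u = 0
      · rw [if_pos hφ, aaltF_inner h2S e hφ, hS]
        congr 1
        · by_cases hm : Nat.card (rad φ ⊤) = 2 ^ x
          · rw [if_pos (by rw [hm, pow_succ]), if_pos ⟨hφ, hm⟩, hr φ x hφ hm]
            push_cast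
            ring
          · rw [if_neg (by rw [pow_succ]; omega), if_neg (by tauto)]
            simp
        · by_cases hm : Nat.card (rad φ ⊤) = 2 ^ (x + 2)
          · rw [if_pos (by rw [hm]; ring), if_pos ⟨hφ, hm⟩, hr φ (x + 2) hφ hm]
            push_cast
            ring
          · rw [if_neg (fun h => hm (by rw [← h]; ring)), if_neg (by tauto)]
            simp
      · simp only [hφ, false_and, if_false, mul_zero, add_zero]

theorem alt_count' (V : Type) [AddCommGroup V] [Finite V] (h2 : ∀ x : V, x + x = 0) {l : ℕ}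
    (hV : Nat.card V = 2 ^ (l + 1)) {τ : V} (hτ : τ ≠ 0) (x : ℕ) :
    ({ψ : V →+ V →+ ZMod 2 | (∀ v, ψ v v = 0) ∧ ψ τ = 0 ∧
      Nat.card (rad ψ ⊤) = 2 ^ (x + 1)}.ncard : ℝ) =
      (2 : ℝ)⁻¹ ^ l * Pa l x * {ψ : V →+ V →+ ZMod 2 | ∀ v, ψ v v = 0}.ncard := by
  classical
  obtain ⟨S, e, he⟩ := aalt_split h2 hτ
  have h2S : ∀ y : S, y + y = 0 := fun y => Subtype.ext (h2 y)
  have hS := aalt_card_split e hV
  have : Finite (S →+ ZMod 2) := DFunLike.finite _
  have : Finite (S →+ S →+ ZMod 2) := DFunLike.finite _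
  have := Fintype.ofFinite (S →+ ZMod 2)
  have := Fintype.ofFinite (S →+ S →+ ZMod 2)
  have h := alt_count S h2S hS x
  have e0 : (2 : ℝ)⁻¹ ^ l * ((2 ^ l : ℕ) : ℝ) = 1 := by
    push_cast
    rw [← mul_pow]
    norm_num
  rw [aaltF_ncard e, aaltF_total h2S e, hS, show ∀ a b c d : ℝ, a * b * (c * d) =
    a * c * (b * d) from fun a b c d => by ring, e0, one_mul, ← h, aalt_ncard]
  refine Finset.sum_congr rfl fun φ _ => ?_
  by_cases hφ : ∀ u, φ u u = 0
  · have h0 : ∀ f : S →+ ZMod 2, aaltF e (φ, f) τ = 0 ↔ f = 0 := fun f => by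
      refine ⟨fun h => ?_, fun h => ?_⟩
      · ext u
        simpa [aaltF_apply, he] using DFunLike.congr_fun h (e.symm (u, 0))
      · ext w
        simp [aaltF_apply, he, h]
    have h1 := aaltF_card_in h2S e (q := (φ, 0)) hφ (zero_mem _)
    simp only at h1
    rw [if_pos hφ]
    by_cases hm : Nat.card (rad φ ⊤) = 2 ^ x
    · rw [if_pos ⟨hφ, hm⟩, show {f : S →+ ZMod 2 | aaltF e (φ, f) τ = 0 ∧
        Nat.card (rad (aaltF e (φ, f)) ⊤) = 2 ^ (x + 1)} = {0} from ?_]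
      · simp
      · ext f
        simp only [h0, Set.mem_ofPred_eq, Set.mem_singleton_iff, and_iff_left_iff_imp]
        rintro rfl
        rw [h1, hm, pow_succ]
    · rw [if_neg (by tauto), show {f : S →+ ZMod 2 | aaltF e (φ, f) τ = 0 ∧
        Nat.card (rad (aaltF e (φ, f)) ⊤) = 2 ^ (x + 1)} = ∅ from ?_]
      · simp
      · ext f
        simp only [h0, Set.mem_ofPred_eq, Set.mem_empty_iff_false, iff_false, not_and]
        rintro rfl
        rw [h1, pow_succ]
        omega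
  · simp only [hφ, false_and, if_false]

end Pool.Agent.Lib.MP_788af2_nt.AS
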