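import Pool.Agent.Lib.MP_a3f657_nt.BK.AAlt

/-!
Averages over alternating shifts of a form on a subspace.
-/

set_option linter.unusedSectionVars false

namespace Pool.Agent.Lib.MP_788af2_nt.AS

open Pool.Agent.Lib.MP_a3f657_nt.Two Matrix

variable {W : Type} [Fintype W] [DecidableEq W] {U : AddSubgroup (W → ZMod 2)}
  {b : (W → ZMod 2) → (W → ZMod 2) → ZMod 2} {l : ℕ} {τ : W → ZMod 2}

lemma mem_AltS {t : Matrix W W (ZMod 2)} : t ∈ AltS W ↔ Alt t := by
  simp [AltS]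

lemma AltS_pos : 0 < (AltS W).card :=
  Finset.card_pos.2 ⟨0, mem_AltS.2 ⟨fun _ => rfl, fun _ _ => rfl⟩⟩

lemma Alt.quad {t : Matrix W W (ZMod 2)} (h : Alt t) (u : W → ZMod 2) : u ⬝ᵥ t *ᵥ u = 0 := by
  have e : u ⬝ᵥ t *ᵥ u = ∑ p : W × W, u p.1 * (t p.1 p.2 * u p.2) := by
    rw [Fintype.sum_prod_type]
    simp only [dotProduct, mulVec, Finset.mul_sum]
  rw [e]
  refine Finset.sum_involution (fun p _ => p.swap) (fun p _ => ?_) (fun p _ hp hs => hp ?_)
    (fun _ _ => Finset.mem_univ _) (fun p _ => Prod.swap_swap p)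
  · have : u p.swap.1 * (t p.swap.1 p.swap.2 * u p.swap.2) = u p.1 * (t p.1 p.2 * u p.2) := by
      rw [Prod.fst_swap, Prod.snd_swap, h.2 p.2 p.1]; ring
    rw [this, z2_add_self]
  · have : p.2 = p.1 := congrArg Prod.fst hs
    rw [this, h.1]; ring

private lemma aavg_exp (f : (W → ZMod 2) →+ ZMod 2) (u : W → ZMod 2) :
    f u = ∑ i, u i * f (Pi.single i 1) := by
  conv_lhs => rw [← Finset.univ_sum_single u, map_sum]
  refine Finset.sum_congr rfl fun i _ => ?_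
  rcases z2_cases (u i) with h | h <;> simp [h]

private lemma aavg_mat (B : (W → ZMod 2) →+ (W → ZMod 2) →+ ZMod 2) (u w : W → ZMod 2) :
    u ⬝ᵥ (Matrix.of fun i j => B (Pi.single i 1) (Pi.single j 1)) *ᵥ w = B u w := by
  have h1 : B u w = ∑ i, u i * B (Pi.single i 1) w := aavg_exp (B.flip w) u
  rw [h1]
  simp only [dotProduct, mulVec, Matrix.of_apply]
  refine Finset.sum_congr rfl fun i _ => ?_
  rw [aavg_exp (B (Pi.single i 1)) w]
  congr 1
  exact Finset.sum_congr rfl fun j _ => mul_comm _ _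

private lemma aavg_sym {V : Type} [AddCommGroup V] (ψ : V →+ V →+ ZMod 2) (hψ : ∀ v, ψ v v = 0)
    (v w : V) : ψ v w = ψ w v := by
  have := hψ (v + w)
  simp only [map_add, AddMonoidHom.add_apply, hψ] at this
  rcases z2_cases (ψ v w) with h | h <;> rcases z2_cases (ψ w v) with h' | h' <;> simp_all

private lemma aavg_alt (B : (W → ZMod 2) →+ (W → ZMod 2) →+ ZMod 2) (hB : ∀ v, B v v = 0) :
    Alt (Matrix.of fun i j => B (Pi.single i 1) (Pi.single j 1)) :=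
  ⟨fun _ => hB _, fun _ _ => aavg_sym B hB _ _⟩

private lemma aavg_two (x : W → ZMod 2) : x + x = 0 := funext fun i => z2_add_self (x i)

private lemma aavg_sep {u v : W → ZMod 2} (hu : u ≠ 0) (h : u ≠ v) :
    ∃ χ : (W → ZMod 2) →+ ZMod 2, χ u = 1 ∧ χ v = 0 := by
  let S : AddSubgroup (W → ZMod 2) :=
    { carrier := {x | x = 0 ∨ x = v}
      zero_mem' := Or.inl rfl
      add_mem' := by
        rintro x y (rfl | rfl) (rfl | rfl)
        · exact Or.inl (add_zero _)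
        · exact Or.inr (zero_add _)
        · exact Or.inr (add_zero _)
        · exact Or.inl (aavg_two _)
      neg_mem' := by
        rintro x (rfl | rfl)
        · exact Or.inl neg_zero
        · exact Or.inr (neg_eq_of_add_eq_zero_left (aavg_two _)) }
  obtain ⟨χ, h1, h2⟩ := exists_sep_hom aavg_two S (v := u) (by
    rintro (h' | h')
    · exact hu h'
    · exact h h')
  exact ⟨χ, (z2_cases _).resolve_left h1, h2 v (Or.inr rfl)⟩

lemma exists_alt {u : W → ZMod 2} (hu : u ≠ 0) (hτ : τ ≠ 0) (h : u ≠ τ) :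
    ∃ t : Matrix W W (ZMod 2), Alt t ∧ u ⬝ᵥ t *ᵥ τ = 1 := by
  obtain ⟨α, a1, a0⟩ := aavg_sep hu h
  obtain ⟨β, b1, b0⟩ := aavg_sep hτ h.symm
  let B : (W → ZMod 2) →+ (W → ZMod 2) →+ ZMod 2 :=
    (AddMonoidHom.mul.comp α).compl₂ β + (AddMonoidHom.mul.comp β).compl₂ α
  have hB : ∀ x y, B x y = α x * β y + β x * α y := fun x y => rfl
  refine ⟨_, aavg_alt B fun v => ?_, ?_⟩
  · rw [hB, mul_comm, z2_add_self]
  · rw [aavg_mat, hB, a1, b1, a0, b0]; simp

/-- The form on `U` given by a matrix. -/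
private def aavgRes (U : AddSubgroup (W → ZMod 2)) (t : Matrix W W (ZMod 2)) :
    U →+ U →+ ZMod 2 :=
  AddMonoidHom.mk' (fun u => AddMonoidHom.mk' (fun w => u.1 ⬝ᵥ t *ᵥ w.1) fun w w' => by
    rw [AddSubgroup.coe_add, mulVec_add, dotProduct_add]) fun u u' => by
    ext w
    simp only [AddMonoidHom.mk'_apply, AddMonoidHom.add_apply]
    rw [AddSubgroup.coe_add, add_dotProduct]

private lemma aavgRes_apply (t : Matrix W W (ZMod 2)) (u w : U) :
    aavgRes U t u w = u.1 ⬝ᵥ t *ᵥ w.1 := rfl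

private lemma aavgRes_add (t t' : Matrix W W (ZMod 2)) :
    aavgRes U (t + t') = aavgRes U t + aavgRes U t' := by
  ext u w
  simp only [AddMonoidHom.add_apply, aavgRes_apply]
  rw [add_mulVec, dotProduct_add]

/-- The form on `U` given by `b`. -/
private def aavgB (hb : AltOn U b) : U →+ U →+ ZMod 2 :=
  AddMonoidHom.mk' (fun u => AddMonoidHom.mk' (fun w => b u.1 w.1) fun w w' =>
    hb.add₂ _ u.2 _ w.2 _ w'.2) fun u u' => by
    ext w
    exact hb.add₁ _ u.2 _ u'.2 _ w.2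

private lemma aavgB_apply (hb : AltOn U b) (u w : U) : aavgB hb u w = b u.1 w.1 := rfl

private lemma aavg_surj (ψ : U →+ U →+ ZMod 2) (hψ : ∀ v, ψ v v = 0) :
    ∃ t, Alt t ∧ aavgRes U t = ψ := by
  obtain ⟨g, hg⟩ := LinearMap.exists_leftInverse_of_injective
    (AddSubgroup.toZModSubmodule 2 U).subtype (Submodule.ker_subtype _)
  let p : (W → ZMod 2) →+ U := AddMonoidHom.mk' (fun x => ⟨(g x).1, (g x).2⟩) fun x y => by
    apply Subtype.ext
    simp
  have hp : ∀ u : U, p u.1 = u := fun u => by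
    apply Subtype.ext
    exact congrArg Subtype.val (LinearMap.congr_fun hg ⟨u.1, u.2⟩)
  let B : (W → ZMod 2) →+ (W → ZMod 2) →+ ZMod 2 := (ψ.comp p).compl₂ p
  have hB : ∀ x y, B x y = ψ (p x) (p y) := fun x y => rfl
  refine ⟨_, aavg_alt B fun v => by rw [hB, hψ], ?_⟩
  ext u w
  rw [aavgRes_apply, aavg_mat, hB, hp, hp]

private lemma aavg_add {t t' : Matrix W W (ZMod 2)} (h : Alt t) (h' : Alt t') : Alt (t + t') :=
  ⟨fun i => by rw [Matrix.add_apply, h.1, h'.1, add_zero],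
    fun i j => by rw [Matrix.add_apply, Matrix.add_apply, h.2, h'.2 i]⟩

private lemma aavg_mtwo (t : Matrix W W (ZMod 2)) : t + t = 0 := by
  ext i j
  exact z2_add_self _

private lemma aavg_ftwo (ψ : U →+ U →+ ZMod 2) : ψ + ψ = 0 := by
  ext u w
  exact z2_add_self _

private instance aavgFin : Finite (U →+ U →+ ZMod 2) :=
  Finite.of_injective (fun ψ : U →+ U →+ ZMod 2 => fun u w => ψ u w) fun _ _ h => by
    ext u w
    exact congrFun (congrFun h u) w

/-- The alternating forms on `U`. -/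
private noncomputable def aavgF (U : AddSubgroup (W → ZMod 2)) : Finset (U →+ U →+ ZMod 2) :=
  (Set.toFinite {ψ : U →+ U →+ ZMod 2 | ∀ v, ψ v v = 0}).toFinset

private lemma mem_aavgF {ψ : U →+ U →+ ZMod 2} : ψ ∈ aavgF U ↔ ∀ v, ψ v v = 0 := by
  simp [aavgF]

private lemma aavg_fib (hb : AltOn U b) : ∃ k : ℕ, ∀ H : (U →+ U →+ ZMod 2) → ℝ,
    ∑ t ∈ AltS W, H (aavgB hb + aavgRes U t) = k * ∑ ψ ∈ aavgF U, H ψ := by
  classical
  refine ⟨((AltS W).filter fun t => aavgRes U t = 0).card, fun H => ?_⟩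
  have hm : ∀ t ∈ AltS W, aavgB hb + aavgRes U t ∈ aavgF U := fun t ht => mem_aavgF.2 fun v => by
    rw [AddMonoidHom.add_apply, AddMonoidHom.add_apply, aavgB_apply, aavgRes_apply,
      hb.alt _ v.2, (mem_AltS.1 ht).quad, add_zero]
  rw [← Finset.sum_fiberwise_of_maps_to hm, Finset.mul_sum]
  refine Finset.sum_congr rfl fun ψ hψ => ?_
  rw [Finset.sum_congr rfl (g := fun _ => H ψ) fun t ht => by rw [(Finset.mem_filter.1 ht).2],
    Finset.sum_const, nsmul_eq_mul]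
  congr 2
  obtain ⟨t0, a0, h0⟩ := aavg_surj (aavgB hb + ψ) fun v => by
    rw [AddMonoidHom.add_apply, AddMonoidHom.add_apply, aavgB_apply, hb.alt _ v.2,
      mem_aavgF.1 hψ, add_zero]
  refine Finset.card_nbij' (fun t => t + t0) (fun t => t + t0) (fun t ht => ?_) (fun t ht => ?_)
    (fun t _ => ?_) (fun t _ => ?_)
  · have ht' := Finset.mem_filter.1 ht
    refine Finset.mem_filter.2 ⟨mem_AltS.2 (aavg_add (mem_AltS.1 ht'.1) a0), ?_⟩
    rw [aavgRes_add, h0, ← add_assoc, add_comm (aavgRes U t), ht'.2, aavg_ftwo]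
  · have ht' := Finset.mem_filter.1 ht
    refine Finset.mem_filter.2 ⟨mem_AltS.2 (aavg_add (mem_AltS.1 ht'.1) a0), ?_⟩
    rw [aavgRes_add, h0, ht'.2, zero_add, ← add_assoc, aavg_ftwo, zero_add]
  · show t + t0 + t0 = t
    rw [add_assoc, aavg_mtwo, add_zero]
  · show t + t0 + t0 = t
    rw [add_assoc, aavg_mtwo, add_zero]

private lemma aavg_main (hb : AltOn U b) (H : (U →+ U →+ ZMod 2) → ℝ) (z : ℝ)
    (h : ∑ ψ ∈ aavgF U, H ψ = (aavgF U).card * z) :
    ∑ t ∈ AltS W, H (aavgB hb + aavgRes U t) = (AltS W).card * z := by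
  obtain ⟨k, hk⟩ := aavg_fib hb
  have h1 := hk fun _ => 1
  simp only [Finset.sum_const, nsmul_eq_mul, mul_one] at h1
  rw [hk, h, h1, mul_assoc]

private lemma aavg_rad (hb : AltOn U b) (t : Matrix W W (ZMod 2)) :
    radT U b t = Subtype.val '' (rad (aavgB hb + aavgRes U t) ⊤ : Set U) := by
  ext u
  constructor
  · rintro ⟨hu, h⟩
    exact ⟨⟨u, hu⟩, ⟨trivial, fun w _ => h w.1 w.2⟩, rfl⟩
  · rintro ⟨u, hu, rfl⟩
    exact ⟨u.2, fun w hw => hu.2 ⟨w, hw⟩ trivial⟩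

private lemma aavg_ncard (hb : AltOn U b) (t : Matrix W W (ZMod 2)) :
    (radT U b t).ncard = Nat.card (rad (aavgB hb + aavgRes U t) ⊤) := by
  rw [aavg_rad hb, Set.ncard_image_of_injective _ Subtype.val_injective]
  rfl

private lemma aavg_utwo (x : U) : x + x = 0 := Subtype.ext (aavg_two _)

private lemma aavg_pow (hU : Nat.card U = 2 ^ l) (S : AddSubgroup U) :
    ∃ x ≤ l, Nat.card S = 2 ^ x := by
  obtain ⟨x, hx⟩ := card_two_pow (V := S) fun y => Subtype.ext (aavg_utwo _)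
  refine ⟨x, ?_, hx⟩
  have := S.card_le_card_addGroup
  rw [hx, hU] at this
  exact (Nat.pow_le_pow_iff_right (by norm_num)).1 this

private lemma aavg_card : ((aavgF U).card : ℝ) =
    {ψ : U →+ U →+ ZMod 2 | ∀ v, ψ v v = 0}.ncard := by
  rw [Set.ncard_eq_toFinset_card _ (Set.toFinite _)]
  rfl

theorem alt_avg (hb : AltOn U b) (hU : Nat.card U = 2 ^ l) (F : ℕ → ℝ) :
    ∑ t ∈ AltS W, F (Nat.log 2 (radT U b t).ncard) =
      (AltS W).card * ∑ x ∈ Finset.range (l + 1), Pa l x * F x := by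
  classical
  simp only [aavg_ncard hb]
  refine aavg_main hb (fun ψ => F (Nat.log 2 (Nat.card (rad ψ ⊤)))) _ ?_
  have hm : ∀ ψ ∈ aavgF U, Nat.log 2 (Nat.card (rad ψ ⊤)) ∈ Finset.range (l + 1) := fun ψ _ => by
    obtain ⟨x, hx, e⟩ := aavg_pow hU (rad ψ ⊤)
    rw [e, Nat.log_pow (by norm_num)]
    exact Finset.mem_range.2 (by omega)
  rw [← Finset.sum_fiberwise_of_maps_to hm, Finset.mul_sum]
  refine Finset.sum_congr rfl fun x _ => ?_
  rw [Finset.sum_congr rfl (g := fun _ => F x) fun t ht => by rw [(Finset.mem_filter.1 ht).2],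
    Finset.sum_const, nsmul_eq_mul, aavg_card, ← mul_assoc, mul_comm _ (Pa l x),
    ← alt_count U aavg_utwo hU x]
  congr 2
  rw [← Set.ncard_coe_finset]
  congr 1
  ext ψ
  simp only [Finset.coe_filter, mem_aavgF, Set.mem_ofPred_eq]
  refine and_congr_right fun _ => ?_
  obtain ⟨y, -, e⟩ := aavg_pow hU (rad ψ ⊤)
  rw [e, Nat.log_pow (by norm_num)]
  exact (Nat.pow_right_inj (by norm_num)).symm

private lemma aavg_mem (hb : AltOn U b) (hτ : τ ∈ U) (t : Matrix W W (ZMod 2)) :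
    τ ∈ radT U b t ↔ (aavgB hb + aavgRes U t) ⟨τ, hτ⟩ = 0 :=
  ⟨fun h => AddMonoidHom.ext fun w => h.2 w.1 w.2,
    fun h => ⟨hτ, fun w hw => DFunLike.congr_fun h ⟨w, hw⟩⟩⟩

open Classical in
theorem alt_avg_in (hb : AltOn U b) (hU : Nat.card U = 2 ^ (l + 1)) (hτ : τ ∈ U) (h0 : τ ≠ 0)
    (F : ℕ → ℝ) :
    ∑ t ∈ AltS W, (if τ ∈ radT U b t then F (Nat.log 2 (radT U b t).ncard) else 0) =
      (AltS W).card * ((2 : ℝ)⁻¹ ^ l * ∑ x ∈ Finset.range (l + 1), Pa l x * F (x + 1)) := by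
  simp only [aavg_ncard hb, aavg_mem hb hτ]
  refine aavg_main hb
    (fun ψ => if ψ ⟨τ, hτ⟩ = 0 then F (Nat.log 2 (Nat.card (rad ψ ⊤))) else 0) _ ?_
  have h0' : (⟨τ, hτ⟩ : U) ≠ 0 := fun h => h0 (congrArg Subtype.val h)
  have hy : ∀ ψ : U →+ U →+ ZMod 2, ψ ⟨τ, hτ⟩ = 0 →
      ∃ x ≤ l, Nat.card (rad ψ ⊤) = 2 ^ (x + 1) := fun ψ hψ => by
    obtain ⟨x, hx, e⟩ := aavg_pow hU (rad ψ ⊤)
    rcases x with _ | x
    · rw [pow_zero, AddSubgroup.card_eq_one] at e
      have : (⟨τ, hτ⟩ : U) ∈ rad ψ ⊤ := ⟨trivial, fun w _ => by rw [hψ]; rfl⟩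
      rw [e] at this
      exact absurd this h0'
    · exact ⟨x, by omega, e⟩
  rw [← Finset.sum_filter]
  have hm : ∀ ψ ∈ (aavgF U).filter fun ψ => ψ ⟨τ, hτ⟩ = 0,
      Nat.log 2 (Nat.card (rad ψ ⊤)) - 1 ∈ Finset.range (l + 1) := fun ψ hψ => by
    obtain ⟨x, hx, e⟩ := hy ψ (Finset.mem_filter.1 hψ).2
    rw [e, Nat.log_pow (by norm_num)]
    exact Finset.mem_range.2 (by omega)
  rw [← Finset.sum_fiberwise_of_maps_to hm, Finset.mul_sum, Finset.mul_sum]
  refine Finset.sum_congr rfl fun x _ => ?_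
  rw [Finset.sum_congr rfl (g := fun _ => F (x + 1)) fun ψ hψ => by
      obtain ⟨h1, h2⟩ := Finset.mem_filter.1 hψ
      obtain ⟨y, -, e⟩ := hy ψ (Finset.mem_filter.1 h1).2
      rw [e, Nat.log_pow (by norm_num)] at h2 ⊢
      rw [← h2]
      rfl,
    Finset.sum_const, nsmul_eq_mul, aavg_card, ← mul_assoc ((2 : ℝ)⁻¹ ^ l), ← mul_assoc,
    mul_comm _ (_ * Pa l x), ← alt_count' U aavg_utwo hU h0' x]
  congr 2
  rw [← Set.ncard_coe_finset]
  congr 1
  ext ψ
  simp only [Finset.coe_filter, Finset.mem_filter, mem_aavgF, Set.mem_ofPred_eq, and_assoc]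
  refine and_congr_right fun _ => and_congr_right fun hψ => ?_
  obtain ⟨y, -, e⟩ := hy ψ hψ
  rw [e, Nat.log_pow (by norm_num), Nat.pow_right_inj (by norm_num)]
  omega

open Classical in
theorem alt_avg_out (hb : AltOn U b) (hU : Nat.card U = 2 ^ (l + 1)) (hτ : τ ∈ U) (h0 : τ ≠ 0)
    (F : ℕ → ℝ) :
    ∑ t ∈ AltS W, (if τ ∈ radT U b t then 0 else F (Nat.log 2 (radT U b t).ncard)) =
      (AltS W).card * ((1 - (2 : ℝ)⁻¹ ^ l) * ∑ x ∈ Finset.range l, Pa (l - 1) x * F x) := by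
  have e : ∀ t ∈ AltS W, (if τ ∈ radT U b t then 0 else F (Nat.log 2 (radT U b t).ncard)) =
      F (Nat.log 2 (radT U b t).ncard) -
        (if τ ∈ radT U b t then F (Nat.log 2 (radT U b t).ncard) else 0) := fun t _ => by
    split_ifs <;> simp
  rw [Finset.sum_congr rfl e, Finset.sum_sub_distrib, alt_avg hb hU, alt_avg_in hb hU hτ h0,
    ← mul_sub]
  congr 1
  rcases l with _ | n
  · have h10 : Pa 1 0 = 0 := by simp [Pa]
    have h11 : Pa 1 1 = 1 := by simp [Pa_self]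
    simp [Finset.sum_range_succ, h10, h11, Pa_zero_zero]
  · have e1 : ∑ x ∈ Finset.range (n + 1), Pa n x * F x =
        ∑ x ∈ Finset.range (n + 1 + 1 + 1), Pa n x * F x := by
      rw [Finset.sum_range_succ _ (n + 1 + 1), Finset.sum_range_succ _ (n + 1),
        Pa_of_lt (by omega : n < n + 1), Pa_of_lt (by omega : n < n + 1 + 1)]
      ring
    rw [Nat.add_sub_cancel, e1, Finset.sum_range_succ' _ (n + 1 + 1),
      Finset.sum_range_succ' (fun x => Pa n x * F x) (n + 1 + 1), Pa_mv0, mul_add,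
      Finset.mul_sum, Finset.mul_sum]
    simp only [show n + 1 + 1 = n + 2 from rfl, Pa_mv, add_mul, Finset.sum_add_distrib, mul_assoc]
    ring

end Pool.Agent.Lib.MP_788af2_nt.AS
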