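import Pool.Agent.Lib.MP_788af2_nt.TT.ADefs

/-!
The matrix model of the higher Selmer groups: definitions.
-/

set_option linter.unusedSectionVars false

namespace Pool.Agent.Lib.MP_788af2_nt.AS

open Pool.Agent.Lib.MP_a3f657_nt.Two Matrix

open scoped Classical

/-- The number of elements of order at most two that are divisible by `2 ^ j`. -/
noncomputable def tj (S : Type) [AddCommGroup S] (j : ℕ) : ℕ :=
  Nat.card {c : S // 2 • c = 0 ∧ ∃ c', 2 ^ j • c' = c}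

/-- The product of the `1 - 2 ^ (-i)`, `1 ≤ i ≤ n`. -/
noncomputable def et1 (n : ℕ) : ℝ := ∏ i ∈ Finset.range n, (1 - (2 : ℝ)⁻¹ ^ (i + 1))

/-- The product of the `1 - 4 ^ (-i)`, `1 ≤ i ≤ n`. -/
noncomputable def et2 (n : ℕ) : ℝ := ∏ i ∈ Finset.range n, (1 - (4 : ℝ)⁻¹ ^ (i + 1))

/-- The probability that an alternating matrix of size `n` has corank `m`. -/
noncomputable def Pa (n m : ℕ) : ℝ :=
  if m ≤ n ∧ (n + m) % 2 = 0 then (2 : ℝ)⁻¹ ^ m.choose 2 * et1 n / (et1 m * et2 ((n - m) / 2))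
  else 0

/-- The value of a state of the chain: `j` levels remain, the current level is `m`. -/
noncomputable def pv (e : ℕ → ℕ) : ℕ → ℕ → ℕ → ℝ
  | 0, _, _ => 1
  | j + 1, m, l => if l = e m then ∑ x ∈ Finset.range (l + 1), Pa l x * pv e j (m + 1) x else 0

/-- The value of a state containing the marked vector. -/
noncomputable def gv (e : ℕ → ℕ) (j m l : ℕ) : ℝ :=
  (1 - 2 / 2 ^ l) * pv e j m (l - 2) + 2 / 2 ^ l * pv e j m l

section

variable {W : Type} [Fintype W]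

/-- Reduction modulo two. -/
def red (v : W → ℤ) : W → ZMod 2 := fun i => (v i : ZMod 2)

/-- The integer lift of a vector. -/
def lft (u : W → ZMod 2) : W → ℤ := fun i => ((u i).val : ℤ)

/-- The integer lift of a matrix. -/
def lftM (t : Matrix W W (ZMod 2)) : Matrix W W ℤ := t.map fun x => (x.val : ℤ)

/-- Reduction of a matrix modulo two. -/
def redM (c : Matrix W W ℤ) : Matrix W W (ZMod 2) := c.map (Int.cast : ℤ → ZMod 2)

/-- Congruence of matrices modulo `2 ^ m`. -/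
def Cg (m : ℕ) (x y : Matrix W W ℤ) : Prop := ∀ i j, (2 : ℤ) ^ m ∣ x i j - y i j

/-- The left kernel modulo `2 ^ m`. -/
def Km (c : Matrix W W ℤ) (m : ℕ) : AddSubgroup (W → ℤ) where
  carrier := {v | ∀ j, (2 : ℤ) ^ m ∣ (v ᵥ* c) j}
  zero_mem' j := by simp
  add_mem' hx hy j := by rw [add_vecMul]; exact dvd_add (hx j) (hy j)
  neg_mem' hx j := by rw [neg_vecMul]; exact (dvd_neg).2 (hx j)

/-- The part of the left kernel orthogonal to the marked vector. -/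
def Kq (c : Matrix W W ℤ) (τ : W → ZMod 2) (m : ℕ) : AddSubgroup (W → ℤ) where
  carrier := {v | v ∈ Km c m ∧ (2 : ℤ) ^ (m + 1) ∣ (v ᵥ* c) ⬝ᵥ lft τ}
  zero_mem' := ⟨zero_mem _, by simp⟩
  add_mem' hx hy := ⟨add_mem hx.1 hy.1, by
    rw [add_vecMul, add_dotProduct]; exact dvd_add hx.2 hy.2⟩
  neg_mem' hx := ⟨neg_mem hx.1, by rw [neg_vecMul, neg_dotProduct]; exact (dvd_neg).2 hx.2⟩

/-- Reduction modulo two as an additive map. -/
def redH : (W → ℤ) →+ (W → ZMod 2) where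
  toFun := red
  map_zero' := funext fun i => by simp [red]
  map_add' x y := funext fun i => by simp [red]

/-- The reduction of the left kernel. -/
def Lm (c : Matrix W W ℤ) (m : ℕ) : AddSubgroup (W → ZMod 2) := (Km c m).map redH

/-- The reduction of the restricted left kernel. -/
def Lq (c : Matrix W W ℤ) (τ : W → ZMod 2) (m : ℕ) : AddSubgroup (W → ZMod 2) :=
  (Kq c τ m).map redH

/-- The relation between the matrix `c` and the orders `d m` of the Selmer groups. -/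
structure Itf (c : Matrix W W ℤ) (τ : W → ZMod 2) (d : ℕ → ℕ) (J : ℕ) : Prop where
  alt : ∀ m ≤ J, ∀ v ∈ Kq c τ m, (2 : ℤ) ^ (m + 1) ∣ (v ᵥ* c) ⬝ᵥ v
  tau : ∀ m ≤ J, 1 ≤ m → ∀ v ∈ Km c m, red v = τ → v ∈ Kq c τ m
  cnt : ∀ m < J, d m * (if τ ∈ Lq c τ m then 2 else 1) =
    Nat.card (Lq c τ m) * if τ ∈ Lq c τ (m + 1) then 2 else 1

/-- Symmetric matrices with characteristic vector `τ`. -/
def St (τ : W → ZMod 2) (C : Matrix W W (ZMod 2)) : Prop :=
  Cᵀ = C ∧ ∀ v, v ⬝ᵥ C *ᵥ v = τ ⬝ᵥ C *ᵥ v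

/-- The pairing at level `m` is alternating. -/
def Good (c : Matrix W W ℤ) (m : ℕ) : Prop :=
  Lm c m = Lm cᵀ m ∧ ∀ v ∈ Km c m, (2 : ℤ) ^ (m + 1) ∣ (v ᵥ* c) ⬝ᵥ v

/-- The dimension of the kernel at level `m`. -/
noncomputable def lgm (c : Matrix W W ℤ) (m : ℕ) : ℕ := Nat.log 2 (Nat.card (Lm c m))

/-- The rank at level `m` is the prescribed one. -/
def Mt (e : ℕ → ℕ) (τ : W → ZMod 2) (c : Matrix W W ℤ) (m : ℕ) : Prop :=
  lgm c m = e m + if τ ∈ Lm c m ∧ τ ∉ Lm c (m + 1) then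
    (if m = 0 ∧ τ ⬝ᵥ redM c *ᵥ τ ≠ 0 then 1 else 2) else 0

/-- The value of the state of `c` at level `m`. -/
noncomputable def Vl (e : ℕ → ℕ) (τ : W → ZMod 2) (j m : ℕ) (c : Matrix W W ℤ) : ℝ :=
  if τ ∈ Lm c m then gv e j m (lgm c m) else pv e j m (lgm c m)

variable (W) in
/-- The alternating matrices. -/
noncomputable def AltS : Finset (Matrix W W (ZMod 2)) := Finset.univ.filter Alt

/-- The radical of `b + t` on `U`. -/
def radT (U : AddSubgroup (W → ZMod 2)) (b : (W → ZMod 2) → (W → ZMod 2) → ZMod 2)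
    (t : Matrix W W (ZMod 2)) : Set (W → ZMod 2) :=
  {u | u ∈ U ∧ ∀ w ∈ U, b u w + u ⬝ᵥ t *ᵥ w = 0}

/-- An alternating form on `U`. -/
structure AltOn {V : Type} [AddCommGroup V] (U : AddSubgroup V) (b : V → V → ZMod 2) : Prop where
  add₁ : ∀ x ∈ U, ∀ y ∈ U, ∀ z ∈ U, b (x + y) z = b x z + b y z
  add₂ : ∀ x ∈ U, ∀ y ∈ U, ∀ z ∈ U, b x (y + z) = b x y + b x z
  alt : ∀ x ∈ U, b x x = 0

variable {I : Type} [Fintype I] [DecidableEq I]

/-- The first derivatives fill the space of symmetric matrices with characteristic vector `τ`. -/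
def Ont (B : G I → Matrix W W (ZMod 2)) (τ : W → ZMod 2) : Prop :=
  (∀ ξ, St τ (D1 B ξ)) ∧ ∀ C, St τ C → ∃ ξ, D1 B ξ = C

/-- Approximate invariance of the law of `c` under alternating shifts. -/
def Inv (c : G I → Matrix W W ℤ) (J : ℕ) (η : ℝ) : Prop :=
  ∀ m, 1 ≤ m → m ≤ J → ∀ t, Alt t → ∀ φ : Matrix W W ℤ → ℝ, (∀ x, |φ x| ≤ 1) →
    (∀ x y, Cg (m + 1) x y → φ x = φ y) →
    |∑ ξ, φ (c ξ + (2 : ℤ) ^ m • lftM t) - ∑ ξ, φ (c ξ)| ≤ η * Fintype.card (G I)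

end

/-- The conclusion of the algebraic part. -/
def AlgB (e : ℕ → ℕ) (J : ℕ) (η : ℝ) (r R : ℕ) : Prop :=
  ∀ (I : Type) [Fintype I] [DecidableEq I] (W : Type) [Fintype W] [DecidableEq W]
    (A c : G I → Matrix W W ℤ) (τ : W → ZMod 2) (d : G I → ℕ → ℕ), Fintype.card W ≤ r →
    (∀ ξ, Ach A ξ = 2 • c ξ) → τ ≠ 0 → Ont (fun g => redM (A g)) τ →
    Clq (fun g => redM (A g)) r R → (∀ ξ, Itf (c ξ) τ (d ξ) (J + 1)) →
    |({ξ | ∀ m ≤ J, d ξ m = 2 ^ e m}.ncard : ℝ) -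
      (∏ m ∈ Finset.range J, Pa (e m) (e (m + 1))) * {ξ | d ξ 0 = 2 ^ e 0}.ncard| ≤
      η * Fintype.card (G I)

end Pool.Agent.Lib.MP_788af2_nt.AS
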