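import Pool.Agent.Lib.MP_a3f657_nt.BK.AInv2

/-!
Invariance of the law of the matrices under alternating shifts.
-/

set_option linter.unusedSectionVars false

namespace Pool.Agent.Lib.MP_788af2_nt.AS

open Pool.Agent.Lib.MP_a3f657_nt.Two Matrix

private lemma sg_add_AInv3 (x y : ZMod 2) : sg (x + y) = sg x * sg y := by
  revert x y
  unfold sg
  decide

private lemma sg_eq_AInv3 (x : ZMod 2) : sg x = 1 + -2 * (x.val : ℤ) := by
  revert x
  unfold sg
  decide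

private lemma cast_sg_AInv3 (x : ZMod 2) : ((sg x : ℤ) : ZMod 2) = 1 := by
  revert x
  unfold sg
  decide

private lemma sg_sum_AInv3 {α : Type} (C : Finset α) (x : α → ZMod 2) :
    sg (∑ l ∈ C, x l) = ∑ S ∈ C.powerset, (-2) ^ S.card * ∏ l ∈ S, ((x l).val : ℤ) := by
  classical
  have h : sg (∑ l ∈ C, x l) = ∏ l ∈ C, (1 + -2 * ((x l).val : ℤ)) := by
    induction C using Finset.induction_on with
    | empty => simp [sg]
    | insert a s ha ih =>
      rw [Finset.sum_insert ha, Finset.prod_insert ha, sg_add_AInv3, ih, sg_eq_AInv3]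
  rw [h, Finset.prod_one_add]
  refine Finset.sum_congr rfl fun S _ => ?_
  rw [Finset.prod_mul_distrib, Finset.prod_const]

/-- The coefficients of the expansion on the cube. -/
private def al_AInv3 {I W : Type} [Fintype I] [DecidableEq I] {R : ℕ}
    (A : G I → Matrix W W ℤ) (ξ : Fin R → G I) (ξ₀ : G I) (S : Finset (Fin R)) : Matrix W W ℤ :=
  ∑ g, ((-1) ^ S.card * sg (ξ₀ ⬝ᵥ g) * ∏ l ∈ S, ((ξ l ⬝ᵥ g).val : ℤ)) • A g

private lemma sum_al_AInv3 {I W : Type} [Fintype I] [DecidableEq I] [Fintype W] {R : ℕ}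
    (A : G I → Matrix W W ℤ) (ξ : Fin R → G I) (ξ₀ : G I) (C : Finset (Fin R)) :
    Ach A (ξ₀ + ∑ l ∈ C, ξ l) = ∑ S ∈ C.powerset, (2 : ℤ) ^ S.card • al_AInv3 A ξ ξ₀ S := by
  have h : ∀ g : G I, sg ((ξ₀ + ∑ l ∈ C, ξ l) ⬝ᵥ g) = ∑ S ∈ C.powerset, (2 : ℤ) ^ S.card *
      ((-1) ^ S.card * sg (ξ₀ ⬝ᵥ g) * ∏ l ∈ S, ((ξ l ⬝ᵥ g).val : ℤ)) := by
    intro g
    rw [add_dotProduct, sum_dotProduct, sg_add_AInv3, sg_sum_AInv3, Finset.mul_sum]
    refine Finset.sum_congr rfl fun S _ => ?_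
    rw [neg_pow]
    ring
  simp only [Ach, h, Finset.sum_smul, mul_smul ((2 : ℤ) ^ _)]
  rw [Finset.sum_comm]
  refine Finset.sum_congr rfl fun S _ => ?_
  rw [← Finset.smul_sum, al_AInv3]

private lemma map_al_AInv3 {I W : Type} [Fintype I] [DecidableEq I] [Fintype W] {R : ℕ}
    (A : G I → Matrix W W ℤ) (ξ : Fin R → G I) (ξ₀ : G I) (S : Finset (Fin R)) :
    redM (al_AInv3 A ξ ξ₀ S) = ∑ g, (∏ l ∈ S, ξ l ⬝ᵥ g) • redM (A g) := by
  have h1 : (-1 : ZMod 2) = 1 := by decide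
  ext i j
  simp only [redM, al_AInv3, Matrix.sum_apply, Matrix.smul_apply, map_apply, smul_eq_mul]
  push_cast
  simp only [cast_sg_AInv3, h1, one_pow, one_mul, ZMod.natCast_val, ZMod.cast_id', id_eq]

private lemma two_inj_AInv3 {W : Type} {x y : Matrix W W ℤ} (h : 2 • x = 2 • y) : x = y := by
  ext i j
  have := congrFun (congrFun h i) j
  simp only [Matrix.smul_apply, nsmul_eq_mul, Nat.cast_ofNat] at this
  omega

private lemma lift_AInv3 {W : Type} [Fintype W] {x : Matrix W W ℤ} {t : Matrix W W (ZMod 2)}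
    (h : redM x = t) : ∃ y : Matrix W W ℤ, x = lftM t + 2 • y := by
  have h2 : ∀ i j, ∃ z : ℤ, x i j = ((t i j).val : ℤ) + 2 * z := by
    intro i j
    have e : ((x i j - ((t i j).val : ℤ) : ℤ) : ZMod 2) = 0 := by
      have := congrFun (congrFun h i) j
      simp only [redM, map_apply] at this
      push_cast
      simp [this]
    obtain ⟨z, hz⟩ := (ZMod.intCast_zmod_eq_zero_iff_dvd _ 2).1 e
    exact ⟨z, by push_cast at hz; omega⟩
  choose z hz using h2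
  refine ⟨Matrix.of z, ?_⟩
  ext i j
  simp [lftM, hz i j]

lemma redM_half {I : Type} [Fintype I] [DecidableEq I] {W : Type} [Fintype W]
    {A c : G I → Matrix W W ℤ} (h : ∀ ξ, Ach A ξ = 2 • c ξ) (ξ : G I) :
    redM (c ξ) = redM (c 0) + D1 (fun g => redM (A g)) ξ := by
  have h1 : c ξ = c 0 + ∑ g, (-((ξ ⬝ᵥ g).val : ℤ)) • A g := by
    apply two_inj_AInv3
    rw [smul_add, ← h, ← h, Ach, Ach, Finset.smul_sum, ← Finset.sum_add_distrib]
    refine Finset.sum_congr rfl fun g _ => ?_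
    rw [zero_dotProduct, sg_eq_AInv3 (ξ ⬝ᵥ g), two_nsmul, ← add_smul, ← add_smul]
    congr 1
    simp [sg]
    ring
  have h2 : (-1 : ZMod 2) = 1 := by decide
  rw [h1]
  ext i j
  simp only [redM, D1, Matrix.add_apply, Matrix.sum_apply, Matrix.smul_apply, map_apply,
    smul_eq_mul]
  push_cast
  simp only [ZMod.natCast_val, ZMod.cast_id', id_eq]
  congr 1
  refine Finset.sum_congr rfl fun g _ => ?_
  rw [neg_eq_neg_one_mul, h2, one_mul]

/-- The halved coefficients. -/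
private def hf_AInv3 {I W : Type} [Fintype I] [DecidableEq I] {R : ℕ}
    (A c : G I → Matrix W W ℤ) (ξ : Fin R → G I) (ξ₀ : G I) (S : Finset (Fin R)) :
    Matrix W W ℤ :=
  if S = ∅ then c ξ₀ else 2 ^ (S.card - 1) • al_AInv3 A ξ ξ₀ S

private lemma sum_hf_AInv3 {I W : Type} [Fintype I] [DecidableEq I] [Fintype W] {R : ℕ}
    {A c : G I → Matrix W W ℤ} (h : ∀ ξ, Ach A ξ = 2 • c ξ) (ξ : Fin R → G I) (ξ₀ : G I)
    (C : Finset (Fin R)) :
    c (ξ₀ + ∑ l ∈ C, ξ l) = ∑ S ∈ C.powerset, hf_AInv3 A c ξ ξ₀ S := by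
  apply two_inj_AInv3
  rw [← h, sum_al_AInv3, Finset.smul_sum]
  refine Finset.sum_congr rfl fun S _ => ?_
  unfold hf_AInv3
  split_ifs with hS
  · subst hS
    rw [← h]
    simp [al_AInv3, Ach]
  · obtain ⟨n, hn⟩ : ∃ n, S.card = n + 1 :=
      Nat.exists_eq_succ_of_ne_zero (by rwa [Ne, Finset.card_eq_zero])
    rw [hn, Nat.add_sub_cancel, smul_smul, ← pow_succ', ← natCast_zsmul]
    push_cast
    rfl

private lemma avg_AInv3 {Γ : Type} [AddCommGroup Γ] [Fintype Γ] {R : ℕ} (ξ : Fin R → Γ)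
    (f : Γ → ℝ) :
    ∑ ξ₀, ∑ S : Finset (Fin R), f (ξ₀ + ∑ l ∈ S, ξ l) = 2 ^ R * ∑ x, f x := by
  rw [Finset.sum_comm]
  have h : ∀ S : Finset (Fin R), ∑ ξ₀, f (ξ₀ + ∑ l ∈ S, ξ l) = ∑ x, f x := fun S =>
    Fintype.sum_equiv (Equiv.addRight _) _ _ fun _ => rfl
  simp [h]

private lemma clq_AInv3 {I W : Type} [Fintype I] [DecidableEq I] [Fintype W] [DecidableEq W]
    {B : G I → Matrix W W (ZMod 2)} {r R R' : ℕ} (hW : Fintype.card W ≤ r) (hR : R' ≤ R)
    (hC : Clq B r R) {t : Matrix W W (ZMod 2)} (ht : Alt t) :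
    ∃ ξ : Fin R' → G I, (∀ l, D1 B (ξ l) = 0) ∧ ∀ l l', l ≠ l' → D2 B (ξ l) (ξ l') = t := by
  classical
  obtain ⟨e⟩ : Nonempty (W ↪ Fin r) := Function.Embedding.nonempty_of_card_le (by simpa using hW)
  obtain ⟨ξ, h1, h2⟩ := hC (fun a w => if e w = a then 1 else 0) t ht
  refine ⟨fun l => ξ (Fin.castLE hR l), fun l => h1 _, fun l l' hl => ?_⟩
  ext i j
  have h3 := congrFun (h2 (Fin.castLE hR l) (Fin.castLE hR l')
    (fun h => hl (Fin.castLE_injective hR h)) (e i)) j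
  simpa [vecMul, dotProduct, e.injective.eq_iff] using h3

theorem exists_inv (J r : ℕ) (η : ℝ) (hη : 0 < η) : ∃ R : ℕ, ∀ (I : Type) [Fintype I]
    [DecidableEq I] (W : Type) [Fintype W] [DecidableEq W] (A c : G I → Matrix W W ℤ),
    Fintype.card W ≤ r → (∀ ξ, Ach A ξ = 2 • c ξ) → Clq (fun g => redM (A g)) r R →
    Inv c J η := by
  have H := fun m : ℕ => rinv ((2 ^ (m + 1 + 1)) ^ (r * r)) (m + 1) (by omega) η hη
  choose Rm hRm using H
  refine ⟨(Finset.range J).sup Rm, ?_⟩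
  intro I _ _ W _ _ A c hW hA hC m hm1 hmJ t ht φ hφ hφc
  obtain ⟨m, rfl⟩ : ∃ m', m = m' + 1 := ⟨m - 1, by omega⟩
  have hR : Rm m ≤ (Finset.range J).sup Rm := Finset.le_sup (Finset.mem_range.2 (by omega))
  obtain ⟨ξ, h1, h2⟩ := clq_AInv3 hW hR hC ht
  set N : ℕ := 2 ^ (m + 1 + 1) with hN
  have : NeZero N := ⟨by positivity⟩
  let π : Matrix W W ℤ →+ Matrix W W (ZMod N) :=
    (Int.castAddHom (ZMod N)).mapMatrix
  let ψ : Matrix W W (ZMod N) → ℝ := fun x => φ (x.map fun z => (z.val : ℤ))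
  have hψ : ∀ y, ψ (π y) = φ y := by
    intro y
    refine hφc _ _ fun i j => ?_
    have e : ((((((y i j : ℤ) : ZMod N)).val : ℤ) - y i j : ℤ) : ZMod N) = 0 := by
      push_cast
      simp
    have := (ZMod.intCast_zmod_eq_zero_iff_dvd _ N).1 e
    rw [hN] at this
    push_cast at this
    exact this
  have hcard : Nat.card (Matrix W W (ZMod N)) ≤ N ^ (r * r) := by
    have e : Nat.card (Matrix W W (ZMod N)) = N ^ (Fintype.card W * Fintype.card W) := by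
      rw [show Nat.card (Matrix W W (ZMod N)) = Nat.card (W → W → ZMod N) from rfl,
        Nat.card_eq_fintype_card, Fintype.card_fun, Fintype.card_fun, ZMod.card, ← pow_mul]
    rw [e]
    exact Nat.pow_le_pow_right (by positivity) (Nat.mul_le_mul hW hW)
  have hkill : ∀ x : Matrix W W (ZMod N), 2 ^ (m + 1 + 1) • x = 0 := by
    intro x
    ext i j
    rw [Matrix.smul_apply, nsmul_eq_mul, ← hN, ZMod.natCast_self, zero_mul, Matrix.zero_apply]
  have key : ∀ ξ₀ : G I,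
      |∑ S : Finset (Fin (Rm m)), φ (c (ξ₀ + ∑ l ∈ S, ξ l) + (2 : ℤ) ^ (m + 1) • lftM t) -
        ∑ S : Finset (Fin (Rm m)), φ (c (ξ₀ + ∑ l ∈ S, ξ l))| ≤ η * 2 ^ Rm m := by
    intro ξ₀
    have K := hRm m (Matrix W W (ZMod N)) hcard hkill (fun S => π (hf_AInv3 A c ξ ξ₀ S))
      (π (lftM t)) ?_ ?_ ?_ ψ (fun x => hφ _)
    · have e1 : ∀ S : Finset (Fin (Rm m)), ψ (∑ U ∈ S.powerset, π (hf_AInv3 A c ξ ξ₀ U)) =
          φ (c (ξ₀ + ∑ l ∈ S, ξ l)) := by
        intro S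
        rw [← map_sum, ← sum_hf_AInv3 hA, hψ]
      have e2 : ∀ S : Finset (Fin (Rm m)), ψ (∑ U ∈ S.powerset, π (hf_AInv3 A c ξ ξ₀ U) +
          2 ^ (m + 1) • π (lftM t)) =
          φ (c (ξ₀ + ∑ l ∈ S, ξ l) + (2 : ℤ) ^ (m + 1) • lftM t) := by
        intro S
        rw [← map_sum, ← sum_hf_AInv3 hA, ← map_nsmul, ← map_add, hψ, ← natCast_zsmul]
        push_cast
        rfl
      simpa only [e1, e2] using K
    · intro S
      unfold hf_AInv3
      split_ifs with hS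
      · subst hS
        exact ⟨π (c ξ₀), by simp⟩
      · exact ⟨π (al_AInv3 A ξ ξ₀ S), by rw [map_nsmul]⟩
    · intro l
      have e : redM (al_AInv3 A ξ ξ₀ {l}) = 0 := by
        rw [map_al_AInv3, ← h1 l, D1]
        simp
      obtain ⟨y, hy⟩ := lift_AInv3 e
      refine ⟨π y, ?_⟩
      have e0 : lftM (0 : Matrix W W (ZMod 2)) = 0 := by
        ext i j
        simp [lftM]
      simp only [hf_AInv3, Finset.singleton_ne_empty, if_false, Finset.card_singleton,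
        Nat.sub_self, pow_zero, one_smul]
      rw [hy, e0, zero_add, map_nsmul]
    · intro l l' hl
      have e : redM (al_AInv3 A ξ ξ₀ {l, l'}) = t := by
        rw [map_al_AInv3, ← h2 l l' hl, D2]
        simp [Finset.prod_pair hl]
      obtain ⟨y, hy⟩ := lift_AInv3 e
      refine ⟨π y, ?_⟩
      simp only [hf_AInv3, Finset.insert_ne_empty, if_false, Finset.card_pair hl]
      rw [hy, map_nsmul, map_add, map_nsmul, smul_add, smul_smul]
      norm_num
  have hp : (0 : ℝ) < 2 ^ Rm m := by positivity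
  have e1 := avg_AInv3 ξ fun x => φ (c x + (2 : ℤ) ^ (m + 1) • lftM t)
  have e2 := avg_AInv3 ξ fun x => φ (c x)
  refine le_of_mul_le_mul_left ?_ hp
  calc 2 ^ Rm m * |∑ x, φ (c x + (2 : ℤ) ^ (m + 1) • lftM t) - ∑ x, φ (c x)|
      = |2 ^ Rm m * ∑ x, φ (c x + (2 : ℤ) ^ (m + 1) • lftM t) - 2 ^ Rm m * ∑ x, φ (c x)| := by
        rw [← mul_sub, abs_mul, abs_of_pos hp]
    _ ≤ ∑ _ξ₀ : G I, η * 2 ^ Rm m := by
        rw [← e1, ← e2, ← Finset.sum_sub_distrib]
        exact (Finset.abs_sum_le_sum_abs _ _).trans (Finset.sum_le_sum fun ξ₀ _ => key ξ₀)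
    _ = 2 ^ Rm m * (η * Fintype.card (G I)) := by
        rw [Finset.sum_const, Finset.card_univ, nsmul_eq_mul]
        ring

end Pool.Agent.Lib.MP_788af2_nt.AS
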