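import Pool.Agent.Lib.MP_a3f657_nt.BK.ALat
import Pool.Agent.Lib.MP_a3f657_nt.BK.AAvg
import Pool.Agent.Lib.MP_a3f657_nt.BK.AInv3

/-!
The orders of the Selmer groups in terms of the kernels.
-/

set_option linter.unusedSectionVars false

namespace Pool.Agent.Lib.MP_788af2_nt.AS

open Pool.Agent.Lib.MP_a3f657_nt.Two Matrix

variable {W : Type} [Fintype W] [DecidableEq W] {τ : W → ZMod 2} {c : Matrix W W ℤ}
  {d : ℕ → ℕ} {J m : ℕ}

private lemma adet_cast (v w : W → ℤ) (c : Matrix W W ℤ) :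
    (((v ᵥ* c) ⬝ᵥ w : ℤ) : ZMod 2) = red v ⬝ᵥ redM c *ᵥ red w := by
  rw [dotProduct_mulVec]
  simp [dotProduct, vecMul, red, redM]

private lemma adet_two (v w : W → ℤ) (c : Matrix W W ℤ) :
    (2 : ℤ) ∣ (v ᵥ* c) ⬝ᵥ w ↔ red v ⬝ᵥ redM c *ᵥ red w = 0 := by
  rw [← adet_cast]
  exact (ZMod.intCast_zmod_eq_zero_iff_dvd _ 2).symm

private lemma adet_half {V : Type} [AddCommGroup V] {L Q : AddSubgroup V} (hle : Q ≤ L) {a : V}
    (ha : a ∈ L) (ha' : a ∉ Q) (h : ∀ u ∈ L, u ∉ Q → u + a ∈ Q) :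
    Nat.card L = Nat.card Q * 2 := by
  have h2 : (Q.addSubgroupOf L).index = 2 := by
    refine AddSubgroup.index_eq_two_iff.2 ⟨⟨a, ha⟩, fun b => ?_⟩
    simp only [AddSubgroup.mem_addSubgroupOf, AddSubgroup.coe_add]
    by_cases hb : (b : V) ∈ Q
    · exact Or.inr ⟨hb, fun h' => ha' ((Q.add_mem_cancel_left hb).1 h')⟩
    · exact Or.inl ⟨h _ b.2 hb, hb⟩
  rw [← (Q.addSubgroupOf L).card_mul_index, h2,
    Nat.card_congr (AddSubgroup.addSubgroupOfEquivOfLe hle).toEquiv]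

private lemma adet_odd {a b : ℤ} (ha : 2 ^ m ∣ a) (hb : 2 ^ m ∣ b) (ha' : ¬ 2 ^ (m + 1) ∣ a)
    (hb' : ¬ 2 ^ (m + 1) ∣ b) : 2 ^ (m + 1) ∣ a + b := by
  obtain ⟨x, rfl⟩ := ha
  obtain ⟨y, rfl⟩ := hb
  rw [pow_succ] at *
  rw [← mul_add]
  refine mul_dvd_mul_left _ ?_
  have h1 : ¬ 2 ∣ x := fun h => ha' (mul_dvd_mul_left _ h)
  have h2 : ¬ 2 ∣ y := fun h => hb' (mul_dvd_mul_left _ h)
  omega

private lemma adet_dvd {v : W → ℤ} (hv : v ∈ Km c m) (w : W → ℤ) :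
    (2 : ℤ) ^ m ∣ (v ᵥ* c) ⬝ᵥ w :=
  Finset.dvd_sum fun j _ => (hv j).mul_right _

private lemma adet_red {v w w' : W → ℤ} (hv : v ∈ Km c m) (h : red w = red w') :
    (2 : ℤ) ^ (m + 1) ∣ (v ᵥ* c) ⬝ᵥ w ↔ (2 : ℤ) ^ (m + 1) ∣ (v ᵥ* c) ⬝ᵥ w' := by
  obtain ⟨z, rfl⟩ := red_eq_iff.1 h
  rw [dotProduct_add, dotProduct_smul, nsmul_eq_mul]
  refine (dvd_add_left ?_).symm
  rw [pow_succ, mul_comm]
  exact mul_dvd_mul (by simp) (adet_dvd hv z)

private lemma adet_tr (v w : W → ℤ) : (w ᵥ* cᵀ) ⬝ᵥ v = (v ᵥ* c) ⬝ᵥ w := by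
  rw [vecMul_transpose, ← dotProduct_mulVec, dotProduct_comm]

private lemma adet_le (c : Matrix W W ℤ) (τ : W → ZMod 2) (m : ℕ) : Lq c τ m ≤ Lm c m :=
  AddSubgroup.map_mono fun _ h => h.1

private lemma adet_tau (h : Itf c τ d J) (h1 : 1 ≤ m) (h2 : m ≤ J) : τ ∈ Lq c τ m ↔ τ ∈ Lm c m :=
  ⟨fun h' => adet_le c τ m h', fun ⟨v, hv, e⟩ => ⟨v, h.tau m h2 h1 v hv e, e⟩⟩

private lemma adet_ex (h : τ ∈ Lm cᵀ m) (h' : τ ∉ Lm cᵀ (m + 1)) :
    ∃ v ∈ Km c m, ¬ (2 : ℤ) ^ (m + 1) ∣ (v ᵥ* c) ⬝ᵥ lft τ := by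
  obtain ⟨w, hw, e⟩ := mem_Lm.1 h
  by_contra hc
  push Not at hc
  refine h' (e ▸ lat_succ hw fun v hv => ?_)
  rw [transpose_transpose] at hv
  rw [adet_tr, adet_red hv (e.trans (red_lft τ).symm)]
  exact hc v hv

private lemma adet_out (h : τ ∉ Lm cᵀ m) : Lq c τ m = Lm c m := by
  classical
  refine le_antisymm (adet_le c τ m) fun u hu => ?_
  obtain ⟨v, hv, rfl⟩ := mem_Lm.1 hu
  by_cases hq : (2 : ℤ) ^ (m + 1) ∣ (v ᵥ* c) ⬝ᵥ lft τ
  · exact ⟨v, ⟨hv, hq⟩, rfl⟩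
  have hex : ∃ j, τ ∉ Lm cᵀ j := ⟨m, h⟩
  have h0 : Nat.find hex ≠ 0 := fun e => Nat.find_spec hex (by rw [e, Lm_zero]; trivial)
  obtain ⟨j, hj⟩ := Nat.exists_eq_add_one_of_ne_zero h0
  have hm : j + 1 ≤ m := hj ▸ Nat.find_min' hex h
  obtain ⟨k, rfl⟩ := Nat.exists_eq_add_of_le hm
  obtain ⟨z, hz, hz'⟩ := adet_ex (not_not.1 (Nat.find_min hex (show j < _ by omega)))
    (hj ▸ Nat.find_spec hex)
  have e : (2 : ℤ) ^ (j + 1 + k) = 2 ^ (k + 1) * 2 ^ j := by ring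
  have hk : ((2 : ℤ) ^ (k + 1) • z) ∈ Km c (j + 1 + k) := fun i => by
    rw [smul_vecMul, Pi.smul_apply, smul_eq_mul, e]
    exact mul_dvd_mul_left _ (hz i)
  refine ⟨v + (2 : ℤ) ^ (k + 1) • z, ⟨add_mem hv hk, ?_⟩, ?_⟩
  · rw [add_vecMul, add_dotProduct]
    refine adet_odd (adet_dvd hv _) (adet_dvd hk _) hq fun h' => hz' ?_
    rw [smul_vecMul, smul_dotProduct, smul_eq_mul, pow_succ, e, mul_assoc, ← pow_succ] at h'
    exact (mul_dvd_mul_iff_left (by positivity)).1 h'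
  · refine (red_eq_iff.2 ⟨(2 : ℤ) ^ k • z, ?_⟩).symm
    ext i
    simp [pow_succ]
    ring

private lemma adet_pow {a s e k : ℕ} (h : a * 2 ^ k = 2 ^ s) : a = 2 ^ e ↔ s = e + k := by
  constructor
  · rintro rfl
    rw [← pow_add] at h
    exact (Nat.pow_right_injective le_rfl h).symm
  · rintro rfl
    rw [pow_add] at h
    exact Nat.eq_of_mul_eq_mul_right (by positivity) h

theorem Itf.mt_zero (e : ℕ → ℕ) (h : Itf c τ d (J + 1)) (hτ : τ ≠ 0) (hS : St τ (redM c)) :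
    d 0 = 2 ^ e 0 ↔ Mt e τ c 0 := by
  have hq : ∀ u, u ∈ Lq c τ 0 ↔ u ⬝ᵥ redM c *ᵥ τ = 0 := fun u => by
    constructor
    · rintro ⟨v, hv, rfl⟩
      have := (adet_two _ _ _).1 hv.2
      rwa [red_lft] at this
    · intro hu
      refine ⟨lft u, ⟨fun j => by simp, (adet_two _ _ _).2 ?_⟩, red_lft u⟩
      rwa [red_lft, red_lft]
  have h0 : τ ∈ Lm c 0 := by rw [Lm_zero]; trivial
  have h1 : τ ∈ Lm c 1 ↔ redM c *ᵥ τ = 0 := by rw [mem_Lm_one, ← mulVec_transpose, hS.1]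
  have hc := h.cnt 0 (by omega)
  have hk := card_Lm c 0
  rw [adet_tau h (m := 0 + 1) le_rfl (by omega), zero_add] at hc
  unfold Mt
  by_cases h2 : τ ∈ Lm c 1
  · have e1 : Lq c τ 0 = Lm c 0 := by
      rw [Lm_zero, eq_top_iff]
      intro u _
      rw [hq, h1.1 h2, dotProduct_zero]
    rw [e1, if_pos h0, if_pos h2, hk] at hc
    rw [if_neg (fun h => h.2 h2)]
    exact adet_pow (by omega)
  · obtain ⟨i, hi⟩ := Function.ne_iff.1 (mt h1.2 h2)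
    have e1 := adet_half (adet_le c τ 0) (a := Pi.single i 1) (by rw [Lm_zero]; trivial)
      (by rw [hq, single_one_dotProduct]; exact hi) fun u _ hu => by
        rw [hq] at hu ⊢
        rw [add_dotProduct, single_one_dotProduct, (z2_cases _).resolve_left hu,
          (z2_cases _).resolve_left hi]
        rfl
    rw [if_neg h2] at hc
    rw [if_pos ⟨h0, h2⟩]
    by_cases h3 : τ ⬝ᵥ redM c *ᵥ τ = 0
    · rw [if_pos ((hq τ).2 h3)] at hc
      rw [if_neg (fun h => h.2 h3)]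
      exact adet_pow (by omega)
    · rw [if_neg (mt (hq τ).1 h3)] at hc
      rw [if_pos ⟨rfl, h3⟩]
      exact adet_pow (by omega)

theorem Itf.mt_pos (e : ℕ → ℕ) (h : Itf c τ d (J + 1)) (hτ : τ ≠ 0) (h1 : 1 ≤ m) (h2 : m ≤ J)
    (hg : Good c m) : d m = 2 ^ e m ↔ Mt e τ c m := by
  have hc := h.cnt m (by omega)
  have hk := card_Lm c m
  rw [adet_tau h h1 (by omega), adet_tau h (m := m + 1) (by omega) (by omega)] at hc
  unfold Mt
  by_cases h3 : τ ∈ Lm c (m + 1)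
  · have e1 : Lq c τ m = Lm c m := by
      refine le_antisymm (adet_le c τ m) fun u hu => ?_
      obtain ⟨v, hv, rfl⟩ := mem_Lm.1 hu
      obtain ⟨w, hw, e⟩ := mem_Lm.1 (hg.succ ▸ h3)
      refine ⟨v, ⟨hv, ?_⟩, rfl⟩
      rw [← adet_red hv (e.trans (red_lft τ).symm), ← adet_tr]
      exact adet_dvd hw v
    rw [e1, if_pos (Lm_anti c m h3), if_pos h3, hk] at hc
    rw [if_neg (fun h => h.2 h3)]
    exact adet_pow (by omega)
  rw [if_neg h3] at hc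
  by_cases h4 : τ ∈ Lm c m
  · obtain ⟨z, hz, hz'⟩ := adet_ex (hg.1 ▸ h4) (hg.succ ▸ h3)
    obtain ⟨w, hw, e⟩ := mem_Lm.1 (hg.1 ▸ h4)
    have e' := e.trans (red_lft τ).symm
    have e1 := adet_half (adet_le c τ m) (a := red z) ⟨z, hz, rfl⟩
      (fun ⟨v, hv, e2⟩ => hz' ((adet_red hz e').1
        ((dvd_iff_dvd_of_dvd_sub (lat_wd hz hw hv.1 e2.symm e')).2 hv.2)))
      fun u hu hu' => by
        obtain ⟨v, hv, rfl⟩ := mem_Lm.1 hu
        refine ⟨v + z, ⟨add_mem hv hz, ?_⟩, redH.map_add v z⟩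
        rw [add_vecMul, add_dotProduct]
        exact adet_odd (adet_dvd hv _) (adet_dvd hz _) (fun h' => hu' ⟨v, ⟨hv, h'⟩, rfl⟩) hz'
    rw [if_pos h4] at hc
    rw [if_pos ⟨h4, h3⟩, if_neg (fun h => by omega)]
    exact adet_pow (by omega)
  · rw [if_neg h4, adet_out (hg.1 ▸ h4), hk] at hc
    rw [if_neg (fun h => h4 h.1)]
    exact adet_pow (by omega)

variable {I : Type} [Fintype I] [DecidableEq I]

private lemma adet_add (B : G I → Matrix W W (ZMod 2)) (ξ ξ' : G I) :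
    D1 B (ξ + ξ') = D1 B ξ + D1 B ξ' := by
  simp only [D1, add_dotProduct, add_smul, Finset.sum_add_distrib]

private lemma adet_lam {u : W → ZMod 2} (hu : u ≠ 0) (hτ : τ ≠ 0) :
    ∃ l : W → ZMod 2, u ⬝ᵥ l = 1 ∧ τ ⬝ᵥ l = 1 := by
  obtain ⟨i, hi⟩ := Function.ne_iff.1 hu
  obtain ⟨j, hj⟩ := Function.ne_iff.1 hτ
  replace hi := (z2_cases _).resolve_left hi
  replace hj := (z2_cases _).resolve_left hj
  rcases z2_cases (τ i) with h1 | h1
  · rcases z2_cases (u j) with h2 | h2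
    · exact ⟨Pi.single i 1 + Pi.single j 1, by simp [*], by simp [*]⟩
    · exact ⟨Pi.single j 1, by simp [*], by simp [*]⟩
  · exact ⟨Pi.single i 1, by simp [*], by simp [*]⟩

private lemma adet_st {C C' : Matrix W W (ZMod 2)} (h : St τ C) (h' : St τ C') : St τ (C + C') :=
  ⟨by rw [transpose_add, h.1, h'.1], fun v => by
    rw [add_mulVec, dotProduct_add, dotProduct_add, h.2, h'.2]⟩

theorem st_of_itf {A c : G I → Matrix W W ℤ} {d : G I → ℕ → ℕ} (h : ∀ ξ, Ach A ξ = 2 • c ξ)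
    (hτ : τ ≠ 0) (hO : Ont (fun g => redM (A g)) τ) (hI : ∀ ξ, Itf (c ξ) τ (d ξ) J) (ξ : G I) :
    St τ (redM (c ξ)) := by
  have h0 : ∀ ξ u, u ⬝ᵥ redM (c ξ) *ᵥ τ = 0 → u ⬝ᵥ redM (c ξ) *ᵥ u = 0 := fun ξ u hu => by
    have := (adet_two _ _ _).1 ((hI ξ).alt 0 (Nat.zero_le _) (lft u)
      ⟨fun j => by simp, (adet_two _ _ _).2 (by rwa [red_lft, red_lft])⟩)
    rwa [red_lft] at this
  have h1 : ∀ u, u ⬝ᵥ redM (c ξ) *ᵥ u = u ⬝ᵥ redM (c ξ) *ᵥ τ := fun u => by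
    rcases z2_cases (u ⬝ᵥ redM (c ξ) *ᵥ τ) with hu | hu
    · rw [hu, h0 ξ u hu]
    obtain ⟨l, l1, l2⟩ := adet_lam (u := u) (fun e => by simp [e] at hu) hτ
    have e : ∀ x y, x ⬝ᵥ vecMulVec l l *ᵥ y = x ⬝ᵥ l * (y ⬝ᵥ l) := fun x y => by
      rw [vecMulVec_mulVec, op_smul_eq_smul, dotProduct_smul, smul_eq_mul, mul_comm,
        dotProduct_comm l]
    obtain ⟨ξ', e'⟩ := hO.2 (vecMulVec l l) ⟨transpose_vecMulVec l l, fun v => by
      rw [e, e, l2, one_mul]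
      rcases z2_cases (v ⬝ᵥ l) with h | h <;> simp [h]⟩
    have := h0 (ξ + ξ') u
    rw [redM_half h, adet_add, ← add_assoc, ← redM_half h, e', add_mulVec, add_mulVec,
      dotProduct_add, dotProduct_add, e, e, l1, l2, hu] at this
    rw [hu]
    exact (eq_neg_of_add_eq_zero_left (this rfl)).trans rfl
  have h2 : (redM (c ξ))ᵀ = redM (c ξ) := by
    ext i j
    have a := h1 (Pi.single i 1 + Pi.single j 1)
    rw [add_dotProduct _ _ (_ *ᵥ τ), ← h1, ← h1] at a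
    simp only [mulVec_add, add_dotProduct, dotProduct_add, mulVec_single_one,
      single_one_dotProduct, col_apply] at a
    rw [transpose_apply]
    linear_combination a - z2_add_self (redM (c ξ) i j)
  refine ⟨h2, fun v => ?_⟩
  rw [h1, dotProduct_mulVec, ← mulVec_transpose, h2, dotProduct_comm]

open Classical in
theorem sum_lev0 {A c : G I → Matrix W W ℤ} (h : ∀ ξ, Ach A ξ = 2 • c ξ)
    (hO : Ont (fun g => redM (A g)) τ) (hS : St τ (redM (c 0))) (F : Matrix W W (ZMod 2) → ℝ) :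
    (∑ ξ, F (redM (c ξ))) * ((Finset.univ.filter (St τ)).card : ℝ) =
      Fintype.card (G I) * ∑ C ∈ Finset.univ.filter (St τ), F C := by
  have h1 : ∀ C ∈ Finset.univ.filter (St τ),
      ∑ ξ, F (redM (c ξ)) = ∑ ξ, F (redM (c ξ) + C) := fun C hC => by
    obtain ⟨ξ', e⟩ := hO.2 C (Finset.mem_filter.1 hC).2
    refine (Fintype.sum_equiv (Equiv.addRight ξ') _ _ fun ξ => ?_).symm
    rw [Equiv.coe_addRight, redM_half h (ξ + ξ'), adet_add, ← add_assoc, ← redM_half h, e]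
  have h2 : ∀ ξ, ∑ C ∈ Finset.univ.filter (St τ), F (redM (c ξ) + C) =
      ∑ C ∈ Finset.univ.filter (St τ), F C := fun ξ => by
    have hs : St τ (redM (c ξ)) := redM_half h ξ ▸ adet_st hS (hO.1 ξ)
    have e : ∀ C, redM (c ξ) + (redM (c ξ) + C) = C := fun C => by
      ext i j
      rw [Matrix.add_apply, Matrix.add_apply, ← add_assoc, z2_add_self, zero_add]
    have k : ∀ C ∈ Finset.univ.filter (St τ), redM (c ξ) + C ∈ Finset.univ.filter (St τ) :=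
      fun C hC => Finset.mem_filter.2 ⟨Finset.mem_univ _, adet_st hs (Finset.mem_filter.1 hC).2⟩
    exact Finset.sum_nbij' (fun C => redM (c ξ) + C) (fun C => redM (c ξ) + C) k k
      (fun C _ => e C) (fun C _ => e C) fun _ _ => rfl
  rw [mul_comm, ← nsmul_eq_mul, ← Finset.sum_const, Finset.sum_congr rfl h1, Finset.sum_comm,
    Finset.sum_congr rfl fun ξ _ => h2 ξ, Finset.sum_const, nsmul_eq_mul, Finset.card_univ]

private lemma adet_cg {x y : Matrix W W ℤ} (h : Cg m x y) (v w : W → ℤ) :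
    (2 : ℤ) ^ m ∣ (v ᵥ* x) ⬝ᵥ w ↔ (2 : ℤ) ^ m ∣ (v ᵥ* y) ⬝ᵥ w := by
  refine dvd_iff_dvd_of_dvd_sub ?_
  rw [← sub_dotProduct, ← vecMul_sub]
  exact adet_dvd (c := x - y) (fun j => Finset.dvd_sum fun i _ => (h i j).mul_left _) w

theorem few_bad {c : G I → Matrix W W ℤ} {d : G I → ℕ → ℕ} {η : ℝ} (hτ : τ ≠ 0)
    (hI : ∀ ξ, Itf (c ξ) τ (d ξ) (J + 1)) (hV : Inv c J η) (h1 : 1 ≤ m) (h2 : m ≤ J) :
    ({ξ | Lm (c ξ) m = Lm (c ξ)ᵀ m ∧ ¬ Good (c ξ) m}.ncard : ℝ) ≤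
      2 ^ Fintype.card W * η * Fintype.card (G I) := by
  classical
  let P : (W → ZMod 2) → Matrix W W ℤ → Prop := fun u x => u ≠ 0 ∧ u ≠ τ ∧
    ∃ v ∈ Km x m, red v = u ∧ ¬ (2 : ℤ) ^ (m + 1) ∣ (v ᵥ* x) ⬝ᵥ v ∧
      ¬ (2 : ℤ) ^ (m + 1) ∣ (v ᵥ* x) ⬝ᵥ lft τ
  have hP : ∀ u, ((Finset.univ.filter fun ξ => P u (c ξ)).card : ℝ) ≤
      η * Fintype.card (G I) := fun u => by
    obtain ⟨t, t1, t2⟩ : ∃ t, Alt t ∧ (u ≠ 0 → u ≠ τ → u ⬝ᵥ t *ᵥ τ = 1) := by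
      by_cases hu : u ≠ 0 ∧ u ≠ τ
      · obtain ⟨t, t1, t2⟩ := exists_alt hu.1 hτ hu.2
        exact ⟨t, t1, fun _ _ => t2⟩
      · exact ⟨0, ⟨fun _ => rfl, fun _ _ => rfl⟩, fun a b => absurd ⟨a, b⟩ hu⟩
    have a := hV m h1 h2 t t1 (fun x => if P u x then 1 else 0)
      (fun x => by split_ifs <;> simp) fun x y hxy => by
        simp only [P, hxy.km (Nat.le_succ m), adet_cg hxy]
    have b : ∀ ξ, ¬ P u (c ξ + (2 : ℤ) ^ m • lftM t) := fun ξ ⟨u0, u1, v, hv, e, v1, v2⟩ => by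
      rw [(cg_shift (c ξ) m (lftM t)).km le_rfl] at hv
      rw [vecMul_add, add_dotProduct, vecMul_smul, smul_dotProduct, smul_eq_mul] at v1 v2
      refine v1 (dvd_add ((hI ξ).alt m (by omega) v ⟨hv, ?_⟩) ?_)
      · by_contra v3
        refine v2 (adet_odd (adet_dvd hv _) (dvd_mul_right _ _) v3 fun v4 => ?_)
        rw [pow_succ, mul_dvd_mul_iff_left (by positivity), adet_two, redM_lftM, red_lft, e,
          t2 u0 u1] at v4
        exact one_ne_zero v4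
      · rw [pow_succ, mul_dvd_mul_iff_left (by positivity), adet_two, redM_lftM]
        exact t1.quad _
    simp only [b, if_false, Finset.sum_const_zero, zero_sub, abs_neg] at a
    rw [Finset.card_filter]
    push_cast
    exact (le_abs_self _).trans a
  have hs : {ξ | Lm (c ξ) m = Lm (c ξ)ᵀ m ∧ ¬ Good (c ξ) m} ⊆
      (Finset.univ.biUnion fun u => Finset.univ.filter fun ξ => P u (c ξ) : Finset _) := by
    rintro ξ ⟨a, b⟩
    obtain ⟨v, hv, v1⟩ : ∃ v ∈ Km (c ξ) m, ¬ (2 : ℤ) ^ (m + 1) ∣ (v ᵥ* c ξ) ⬝ᵥ v := by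
      by_contra hc
      push Not at hc
      exact b ⟨a, hc⟩
    have v2 : v ∉ Kq (c ξ) τ m := fun h => v1 ((hI ξ).alt m (by omega) v h)
    refine Finset.mem_coe.2 (Finset.mem_biUnion.2 ⟨red v, Finset.mem_univ _,
      Finset.mem_filter.2 ⟨Finset.mem_univ _, fun e => v1 ?_,
        fun e => v2 ((hI ξ).tau m (by omega) h1 v hv e), v, hv, rfl, v1, fun h => v2 ⟨hv, h⟩⟩⟩)
    rw [adet_red hv (e.trans redH.map_zero.symm)]
    simp
  have h3 := (Set.ncard_le_ncard hs (Finset.finite_toSet _)).trans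
    ((Set.ncard_coe_finset _).le.trans Finset.card_biUnion_le)
  refine (Nat.cast_le.2 h3).trans ?_
  push_cast
  refine (Finset.sum_le_sum fun u _ => hP u).trans ?_
  simp [mul_assoc, ZMod.card]

end Pool.Agent.Lib.MP_788af2_nt.AS
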