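import Pool.Agent.Lib.MP_a3f657_nt.BK.ADefs

/-!
The symmetric case of the invariance lemma.
-/

set_option linter.unusedSectionVars false

namespace Pool.Agent.Lib.MP_788af2_nt.AS

open Pool.Agent.Lib.MP_a3f657_nt.Two Matrix

theorem ainv1_lt_pow (s : ℕ) : s + 3 < 2 ^ (s + 2) := by
  induction s with
  | zero => norm_num
  | succ s ih => rw [pow_succ]; omega

theorem ainv1_dvd {m j s : ℕ} (hj : 1 ≤ j) (hjs : j ≤ s + 3) :
    2 ^ (m + 1) ∣ (2 ^ m).choose j * 2 ^ (s + 2) := by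
  obtain ⟨v, o, ho, rfl⟩ := Nat.exists_eq_two_pow_mul_odd (n := j) (by omega)
  have hq : 1 ≤ 2 ^ m := Nat.one_le_two_pow
  have h1 : 2 ^ m ∣ (2 ^ m).choose (2 ^ v * o) * (2 ^ v * o) := by
    have := Nat.add_one_mul_choose_eq (2 ^ m - 1) (2 ^ v * o - 1)
    rw [Nat.sub_add_cancel hq, Nat.sub_add_cancel hj] at this
    exact ⟨_, this.symm⟩
  have h2 : 2 ^ m ∣ (2 ^ m).choose (2 ^ v * o) * 2 ^ v := by
    rw [← mul_assoc] at h1
    refine Nat.Coprime.dvd_of_dvd_mul_right ?_ h1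
    exact Nat.Coprime.pow_left _ (Nat.coprime_two_left.mpr ho)
  have hv : v < s + 2 := by
    have h3 : 2 ^ v ≤ 2 ^ v * o := Nat.le_mul_of_pos_right _ ho.pos
    have h4 := ainv1_lt_pow s
    exact (Nat.pow_lt_pow_iff_right (by norm_num : 1 < 2)).mp (by omega)
  obtain ⟨w, hw⟩ : ∃ w, s + 2 = v + 1 + w := ⟨s + 2 - (v + 1), by omega⟩
  obtain ⟨c, hc⟩ := h2
  refine ⟨c * 2 ^ w, ?_⟩
  rw [hw]
  calc (2 ^ m).choose (2 ^ v * o) * 2 ^ (v + 1 + w)
      = ((2 ^ m).choose (2 ^ v * o) * 2 ^ v) * (2 * 2 ^ w) := by ring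
    _ = 2 ^ (m + 1) * (c * 2 ^ w) := by rw [hc]; ring

theorem ainv1_big (m n s : ℕ) : ∃ D, (n + 2 ^ m).choose (s + 3) = n.choose (s + 3) + D ∧
    2 ^ (m + 1) ∣ D * 2 ^ (s + 2) := by
  rw [add_comm n, Nat.add_choose_eq, Finset.Nat.antidiagonal_succ, Finset.sum_cons]
  refine ⟨_, by simp only [Nat.choose_zero_right, one_mul]; rfl, ?_⟩
  rw [Finset.sum_mul]
  refine Finset.dvd_sum fun p hp => ?_
  obtain ⟨⟨i, j⟩, hij, rfl⟩ := Finset.mem_map.mp hp
  have hij' : i + j = s + 2 := by simpa using hij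
  have := ainv1_dvd (m := m) (j := i + 1) (s := s) (by omega) (by omega)
  show 2 ^ (m + 1) ∣ (2 ^ m).choose (i + 1) * n.choose j * 2 ^ (s + 2)
  rw [mul_right_comm]
  exact Dvd.dvd.mul_right this _

theorem ainv1_two (n r : ℕ) :
    (n + 2 * (r + 1)).choose 2 = n.choose 2 + (r + 1) * (2 * n + 2 * r + 1) := by
  induction r with
  | zero =>
    have e : n + 2 * (0 + 1) = n + 1 + 1 := by ring
    rw [e, Nat.choose_succ_succ' (n + 1) 1, Nat.choose_succ_succ' n 1]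
    simp only [Nat.choose_one_right]
    ring
  | succ r ih =>
    have e : n + 2 * (r + 1 + 1) = n + 2 * (r + 1) + 1 + 1 := by ring
    rw [e, Nat.choose_succ_succ' (n + 2 * (r + 1) + 1) 1,
      Nat.choose_succ_succ' (n + 2 * (r + 1)) 1]
    simp only [Nat.choose_one_right]
    rw [ih]
    ring

theorem ainv_shift {M : Type} [AddCommGroup M] {m : ℕ} (hm : 1 ≤ m)
    (hM : ∀ x : M, 2 ^ (m + 1) • x = 0) (α : ℕ → M) (t : M)
    (h0 : ∀ s, ∃ y, α s = 2 ^ (s - 1) • y) (h1 : ∃ y, α 1 = 2 • y)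
    (h2 : ∃ y, α 2 = 2 • t + 4 • y) (n : ℕ) :
    ∑ s ∈ Finset.range (n + 2 ^ m + 1), (n + 2 ^ m).choose s • α s =
      ∑ s ∈ Finset.range (n + 1), n.choose s • α s + 2 ^ m • t := by
  have hM' : ∀ (k : ℕ) (x : M), 2 ^ (m + 1) ∣ k → k • x = 0 := by
    rintro k x ⟨c, rfl⟩
    rw [mul_smul, hM]
  obtain ⟨k, rfl⟩ : ∃ k, m = k + 1 := ⟨m - 1, by omega⟩
  obtain ⟨r, hr⟩ : ∃ r, 2 ^ k = r + 1 := ⟨2 ^ k - 1, by have := Nat.one_le_two_pow (n := k); omega⟩
  have hq : 2 ^ (k + 1) = 2 * (r + 1) := by rw [pow_succ, hr]; ring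
  have hq' : 2 ^ (k + 1 + 1) = 4 * (r + 1) := by rw [pow_succ, hq]; ring
  have key : ∀ s, (n + 2 ^ (k + 1)).choose s • α s =
      n.choose s • α s + if s = 2 then 2 ^ (k + 1) • t else 0 := by
    intro s
    match s with
    | 0 => simp
    | 1 =>
      obtain ⟨y, hy⟩ := h1
      rw [if_neg (by norm_num), add_zero, Nat.choose_one_right, Nat.choose_one_right, add_smul,
        hy, smul_smul (2 ^ (k + 1)), hM' (2 ^ (k + 1) * 2) y (by rw [pow_succ 2 (k + 1)]), add_zero]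
    | 2 =>
      obtain ⟨y, hy⟩ := h2
      rw [if_pos rfl, hq, ainv1_two, add_smul]
      congr 1
      rw [hy, smul_add, smul_smul, smul_smul, hM' _ y (by rw [hq']; exact ⟨2 * n + 2 * r + 1, by ring⟩),
        add_zero]
      have e : (r + 1) * (2 * n + 2 * r + 1) * 2 = 2 * (r + 1) + 4 * (r + 1) * (n + r) := by ring
      rw [e, add_smul, hM' (4 * (r + 1) * (n + r)) t (by rw [hq']; exact ⟨_, rfl⟩), add_zero]
    | s + 3 =>
      obtain ⟨D, hD, hd⟩ := ainv1_big (k + 1) n s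
      obtain ⟨y, hy⟩ := h0 (s + 3)
      rw [if_neg (by omega), add_zero, hD, add_smul]
      have e : s + 3 - 1 = s + 2 := by omega
      rw [e] at hy
      have : D • α (s + 3) = 0 := by rw [hy, smul_smul, hM' _ y hd]
      rw [this, add_zero]
  rw [Finset.sum_congr rfl fun s _ => key s, Finset.sum_add_distrib, Finset.sum_ite_eq',
    if_pos (Finset.mem_range.mpr (by rw [hq]; omega))]
  congr 1
  symm
  refine Finset.sum_subset (Finset.range_subset_range.mpr (by omega)) fun s _ hs => ?_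
  rw [Nat.choose_eq_zero_of_lt (by simpa using hs), zero_smul]

theorem ainv1_mono (a f : ℕ → ℝ) (hf : ∀ n, |f n| ≤ 1) (h0 : 0 ≤ a 0) (K : ℕ)
    (ha : ∀ n < K, a n ≤ a (n + 1)) :
    |∑ n ∈ Finset.range (K + 1), a n * (f (n + 1) - f n) - a K * f (K + 1)| ≤ a K := by
  induction K with
  | zero =>
    have e : ∑ n ∈ Finset.range (0 + 1), a n * (f (n + 1) - f n) - a 0 * f (0 + 1) =
        -(a 0 * f 0) := by simp; ring
    rw [e, abs_neg, abs_mul, abs_of_nonneg h0]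
    nlinarith [hf 0]
  | succ K ih =>
    have h1 := ih fun n hn => ha n (by omega)
    have h2 := ha K (by omega)
    have e : ∑ n ∈ Finset.range (K + 1 + 1), a n * (f (n + 1) - f n) - a (K + 1) * f (K + 1 + 1) =
        (∑ n ∈ Finset.range (K + 1), a n * (f (n + 1) - f n) - a K * f (K + 1)) -
          (a (K + 1) - a K) * f (K + 1) := by
      rw [Finset.sum_range_succ _ (K + 1)]; ring
    rw [e]
    have h3 : |(a (K + 1) - a K) * f (K + 1)| ≤ a (K + 1) - a K := by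
      rw [abs_mul, abs_of_nonneg (by linarith)]
      nlinarith [hf (K + 1)]
    have h4 := abs_sub (∑ n ∈ Finset.range (K + 1), a n * (f (n + 1) - f n) - a K * f (K + 1))
      ((a (K + 1) - a K) * f (K + 1))
    linarith

theorem ainv1_half (f : ℕ → ℝ) (hf : ∀ n, |f n| ≤ 1) (K : ℕ) :
    |∑ n ∈ Finset.range (K + 1), ((2 * K + 1).choose n : ℝ) * (f (n + 1) - f n)| ≤
      2 * ((2 * K + 1).choose K : ℝ) := by
  have h1 := ainv1_mono (fun n => ((2 * K + 1).choose n : ℝ)) f hf (by positivity) K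
    (fun n hn => by
      have : (2 * K + 1).choose n ≤ (2 * K + 1).choose (n + 1) :=
        Nat.choose_le_succ_of_lt_half_left (by omega)
      exact_mod_cast this)
  have h2 : |((2 * K + 1).choose K : ℝ) * f (K + 1)| ≤ ((2 * K + 1).choose K : ℝ) := by
    rw [abs_mul, abs_of_nonneg (by positivity)]
    have : (0 : ℝ) ≤ ((2 * K + 1).choose K : ℝ) := by positivity
    nlinarith [hf (K + 1)]
  have h3 := abs_add_le (∑ n ∈ Finset.range (K + 1), ((2 * K + 1).choose n : ℝ) * (f (n + 1) - f n) -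
    ((2 * K + 1).choose K : ℝ) * f (K + 1)) (((2 * K + 1).choose K : ℝ) * f (K + 1))
  rw [sub_add_cancel] at h3
  beta_reduce at h1
  linarith

theorem ainv1_one (f : ℕ → ℝ) (hf : ∀ n, |f n| ≤ 1) (K : ℕ) :
    |∑ n ∈ Finset.range (2 * K + 1 + 1), ((2 * K + 1).choose n : ℝ) * f (n + 1) -
      ∑ n ∈ Finset.range (2 * K + 1 + 1), ((2 * K + 1).choose n : ℝ) * f n| ≤
      4 * ((2 * K + 1).choose K : ℝ) := by
  rw [← Finset.sum_sub_distrib]
  simp only [← mul_sub]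
  have e : 2 * K + 1 + 1 = (K + 1) + (K + 1) := by ring
  rw [e, Finset.sum_range_add]
  have h1 := ainv1_half f hf K
  have h2 := ainv1_half (fun j => f (2 * K + 2 - j)) (fun j => hf _) K
  have h3 : ∑ x ∈ Finset.range (K + 1), ((2 * K + 1).choose (K + 1 + x) : ℝ) *
      (f (K + 1 + x + 1) - f (K + 1 + x)) =
      -∑ n ∈ Finset.range (K + 1), ((2 * K + 1).choose n : ℝ) *
        (f (2 * K + 2 - (n + 1)) - f (2 * K + 2 - n)) := by
    rw [← Finset.sum_range_reflect, ← Finset.sum_neg_distrib]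
    refine Finset.sum_congr rfl fun j hj => ?_
    have hj' : j < K + 1 := Finset.mem_range.mp hj
    have e1 : K + 1 + (K + 1 - 1 - j) = 2 * K + 1 - j := by omega
    have e2 : 2 * K + 1 - j + 1 = 2 * K + 2 - j := by omega
    have e3 : 2 * K + 2 - (j + 1) = 2 * K + 1 - j := by omega
    rw [e1, e2, e3, Nat.choose_symm (by omega)]
    ring
  rw [h3]
  beta_reduce at h2
  have h4 := abs_sub (∑ n ∈ Finset.range (K + 1), ((2 * K + 1).choose n : ℝ) * (f (n + 1) - f n))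
    (∑ n ∈ Finset.range (K + 1), ((2 * K + 1).choose n : ℝ) *
        (f (2 * K + 2 - (n + 1)) - f (2 * K + 2 - n)))
  rw [← sub_eq_add_neg]
  linarith

theorem ainv1_many (f : ℕ → ℝ) (hf : ∀ n, |f n| ≤ 1) (K h : ℕ) :
    |∑ n ∈ Finset.range (2 * K + 1 + 1), ((2 * K + 1).choose n : ℝ) * f (n + h) -
      ∑ n ∈ Finset.range (2 * K + 1 + 1), ((2 * K + 1).choose n : ℝ) * f n| ≤
      h * (4 * ((2 * K + 1).choose K : ℝ)) := by
  induction h with
  | zero => simp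
  | succ h ih =>
    have h1 := ainv1_one (fun n => f (n + h)) (fun n => hf _) K
    beta_reduce at h1
    have e : ∀ n, n + 1 + h = n + (h + 1) := fun n => by ring
    simp only [e] at h1
    have h2 := abs_sub_le
      (∑ n ∈ Finset.range (2 * K + 1 + 1), ((2 * K + 1).choose n : ℝ) * f (n + (h + 1)))
      (∑ n ∈ Finset.range (2 * K + 1 + 1), ((2 * K + 1).choose n : ℝ) * f (n + h))
      (∑ n ∈ Finset.range (2 * K + 1 + 1), ((2 * K + 1).choose n : ℝ) * f n)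
    push_cast
    linarith

theorem ainv1_central (n : ℕ) : n.centralBinom ^ 2 * (2 * n + 1) ≤ 16 ^ n := by
  induction n with
  | zero => simp
  | succ n ih =>
    have h1 := Nat.succ_mul_centralBinom_succ n
    refine Nat.le_of_mul_le_mul_left (c := (n + 1) ^ 2) ?_ (by positivity)
    calc (n + 1) ^ 2 * ((n + 1).centralBinom ^ 2 * (2 * (n + 1) + 1))
        = ((n + 1) * (n + 1).centralBinom) ^ 2 * (2 * n + 3) := by ring
      _ = (4 * ((2 * n + 1) * (2 * n + 3))) * (n.centralBinom ^ 2 * (2 * n + 1)) := by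
          rw [h1]; ring
      _ ≤ (16 * (n + 1) ^ 2) * 16 ^ n := Nat.mul_le_mul (by nlinarith) ih
      _ = (n + 1) ^ 2 * 16 ^ (n + 1) := by ring

theorem ainv1_mid (K : ℕ) :
    ((2 * K + 1).choose K : ℝ) ^ 2 * (2 * K + 3) ≤ 4 * (2 ^ (2 * K + 1)) ^ 2 := by
  have h1 := ainv1_central (K + 1)
  have h2 : (2 * K + 1).choose K ≤ (K + 1).centralBinom := by
    rw [Nat.centralBinom_eq_two_mul_choose]
    have e : 2 * (K + 1) = 2 * K + 1 + 1 := by ring
    rw [e, Nat.choose_succ_succ']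
    omega
  have h3 : (2 * K + 1).choose K ^ 2 * (2 * K + 3) ≤ 4 * (2 ^ (2 * K + 1)) ^ 2 := by
    calc (2 * K + 1).choose K ^ 2 * (2 * K + 3)
        ≤ (K + 1).centralBinom ^ 2 * (2 * (K + 1) + 1) :=
          Nat.mul_le_mul (Nat.pow_le_pow_left h2 2) (by omega)
      _ ≤ 16 ^ (K + 1) := h1
      _ = 4 * (2 ^ (2 * K + 1)) ^ 2 := by
          rw [show (16 : ℕ) = 2 ^ 4 by norm_num, ← pow_mul, ← pow_mul,
            show (4 : ℕ) = 2 ^ 2 by norm_num, ← pow_add]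
          congr 1
          ring
  exact_mod_cast h3

theorem ainv_tv (h : ℕ) (η : ℝ) (hη : 0 < η) : ∃ N : ℕ, ∀ f : ℕ → ℝ, (∀ n, |f n| ≤ 1) →
    |∑ n ∈ Finset.range (N + 1), (N.choose n : ℝ) * f (n + h) -
      ∑ n ∈ Finset.range (N + 1), (N.choose n : ℝ) * f n| ≤ η * 2 ^ N := by
  obtain ⟨K, hK⟩ := exists_nat_ge (64 * (h : ℝ) ^ 2 / η ^ 2)
  refine ⟨2 * K + 1, fun f hf => (ainv1_many f hf K h).trans ?_⟩
  have h1 := ainv1_mid K
  have h2 : 64 * (h : ℝ) ^ 2 ≤ η ^ 2 * (2 * K + 3) := by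
    rw [div_le_iff₀ (by positivity)] at hK
    have : (0 : ℝ) ≤ K := by positivity
    nlinarith [sq_nonneg η]
  generalize ((2 * K + 1).choose K : ℝ) = c at h1 ⊢
  have hP : (0 : ℝ) < 2 ^ (2 * K + 1) := by positivity
  generalize (2 : ℝ) ^ (2 * K + 1) = P at h1 hP ⊢
  refine le_trans (le_abs_self _) (abs_le_of_sq_le_sq ?_ (by positivity))
  have hT : (0 : ℝ) < 2 * K + 3 := by positivity
  refine le_of_mul_le_mul_right ?_ hT
  calc ((h : ℝ) * (4 * c)) ^ 2 * (2 * K + 3) = 16 * (h : ℝ) ^ 2 * (c ^ 2 * (2 * K + 3)) := by ring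
    _ ≤ 16 * (h : ℝ) ^ 2 * (4 * P ^ 2) := by gcongr
    _ = (64 * (h : ℝ) ^ 2) * P ^ 2 := by ring
    _ ≤ (η ^ 2 * (2 * K + 3)) * P ^ 2 := by gcongr
    _ = (η * P) ^ 2 * (2 * K + 3) := by ring

end Pool.Agent.Lib.MP_788af2_nt.AS
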