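import Pool.Agent.Lib.MP_a3f657_nt.BK.AInv1
import Pool.Agent.Lib.MP_788af2_nt.AS.AC

/-!
The invariance lemma on a cube.
-/

set_option linter.unusedSectionVars false

namespace Pool.Agent.Lib.MP_788af2_nt.AS

open Pool.Agent.Lib.MP_a3f657_nt.Two Matrix

private theorem rinv_pow {α A : Type} [DecidableEq α] [AddCommMonoid A] (P G : Finset α)
    (h : Disjoint P G) : ∀ f : Finset α → A, ∑ S ∈ (P ∪ G).powerset, f S =
      ∑ S ∈ P.powerset, ∑ T ∈ G.powerset, f (S ∪ T) := by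
  induction G using Finset.induction_on with
  | empty => intro f; simp
  | insert a G ha ih =>
    intro f
    rw [Finset.disjoint_insert_right] at h
    have h1 : a ∉ P ∪ G := by simp [ha, h.1]
    rw [Finset.union_insert, Finset.sum_powerset_insert h1, ih h.2, ih h.2,
      ← Finset.sum_add_distrib]
    refine Finset.sum_congr rfl fun S _ => ?_
    rw [Finset.sum_powerset_insert ha]
    simp only [Finset.union_insert]

private theorem rinv_mono {M : Type} [AddCommGroup M] {j k : ℕ} (h : j ≤ k) {x : M}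
    (hx : ∃ y, x = 2 ^ k • y) : ∃ y, x = 2 ^ j • y := by
  obtain ⟨y, rfl⟩ := hx
  obtain ⟨d, rfl⟩ := Nat.exists_eq_add_of_le h
  exact ⟨2 ^ d • y, by rw [pow_add, mul_smul]⟩

private theorem rinv_sum {M ι : Type} [AddCommGroup M] (n : ℕ) (s : Finset ι) (f : ι → M)
    (h : ∀ i ∈ s, ∃ y, f i = n • y) : ∃ y, ∑ i ∈ s, f i = n • y := by
  choose! y hy using h
  exact ⟨∑ i ∈ s, y i, by rw [Finset.smul_sum]; exact Finset.sum_congr rfl hy⟩

private theorem rinv_zero {M : Type} [AddCommGroup M] {m k : ℕ}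
    (hM : ∀ x : M, 2 ^ (m + 1) • x = 0) (h : m + 1 ≤ k) {x : M} (hx : ∃ y, x = 2 ^ k • y) :
    x = 0 := by
  obtain ⟨y, hy⟩ := rinv_mono h hx
  rw [hy, hM]

/-- The bound for all coefficient families that are symmetric at level `i` on `N` points. -/
private def RinvClaim (Q m : ℕ) (η : ℝ) (i N : ℕ) : Prop :=
  ∀ (M : Type) [AddCommGroup M] [Finite M], Nat.card M ≤ Q → (∀ x : M, 2 ^ (m + 1) • x = 0) →
    ∀ (α : Type) [DecidableEq α] (B : Finset α), B.card = N →
    ∀ (a : Finset α → M) (t : M), (∀ S ⊆ B, ∃ y, a S = 2 ^ (S.card - 1) • y) →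
    (∀ l ∈ B, ∃ y, a {l} = 2 • y) →
    (∀ l ∈ B, ∀ l' ∈ B, l ≠ l' → ∃ y, a {l, l'} = 2 • t + 4 • y) →
    (∀ S ⊆ B, ∀ S' ⊆ B, S.card = S'.card → ∃ y, a S - a S' = 2 ^ (S.card + i - 1) • y) →
    ∀ φ : M → ℝ, (∀ x, |φ x| ≤ 1) →
    |∑ S ∈ B.powerset, φ (∑ U ∈ S.powerset, a U + 2 ^ m • t) -
      ∑ S ∈ B.powerset, φ (∑ U ∈ S.powerset, a U)| ≤ η * 2 ^ N

private theorem rinv_base (Q m : ℕ) (hm : 1 ≤ m) (η : ℝ) (hη : 0 < η) :
    ∃ N, RinvClaim Q m η (m + 2) N := by
  obtain ⟨N, hN⟩ := ainv_tv (2 ^ m) η hη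
  refine ⟨N, fun M _ _ _ hM α _ B hB a t h0 h1 h2 h3 φ hφ => ?_⟩
  have hT : ∀ s, ∃ T : Finset α, s ≤ N → T ⊆ B ∧ T.card = s := by
    intro s
    by_cases hs : s ≤ N
    · obtain ⟨T, hT⟩ := Finset.exists_subset_card_eq (s := B) (hB ▸ hs)
      exact ⟨T, fun _ => hT⟩
    · exact ⟨∅, fun h => absurd h hs⟩
  choose T hT using hT
  let β : ℕ → M := fun s => if s ≤ N then a (T s) else if s = 2 then 2 • t else 0
  have e0 : ∀ s, ∃ y, β s = 2 ^ (s - 1) • y := by
    intro s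
    by_cases hs : s ≤ N
    · have h4 := h0 _ (hT s hs).1
      rw [(hT s hs).2] at h4
      simpa only [β, if_pos hs] using h4
    · by_cases h2 : s = 2
      · subst h2
        exact ⟨t, by simp only [β, if_neg hs, if_true]; norm_num⟩
      · exact ⟨0, by simp only [β, if_neg hs, if_neg h2, smul_zero]⟩
  have e1 : ∃ y, β 1 = 2 • y := by
    by_cases hs : 1 ≤ N
    · obtain ⟨l, hl⟩ := Finset.card_eq_one.1 (hT 1 hs).2
      have h4 := h1 l ((hT 1 hs).1 (by rw [hl]; exact Finset.mem_singleton_self l))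
      rw [← hl] at h4
      simpa only [β, if_pos hs] using h4
    · exact ⟨0, by simp only [β, if_neg hs, smul_zero]; norm_num⟩
  have e2 : ∃ y, β 2 = 2 • t + 4 • y := by
    by_cases hs : 2 ≤ N
    · obtain ⟨l, l', hne, hl⟩ := Finset.card_eq_two.1 (hT 2 hs).2
      have h4 := h2 l ((hT 2 hs).1 (by rw [hl]; simp)) l' ((hT 2 hs).1 (by rw [hl]; simp)) hne
      rw [← hl] at h4
      simpa only [β, if_pos hs] using h4
    · exact ⟨0, by simp only [β, if_neg hs, if_true, smul_zero, add_zero]⟩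
  have hs : ∀ S ∈ B.powerset, ∑ U ∈ S.powerset, a U =
      ∑ s ∈ Finset.range (S.card + 1), S.card.choose s • β s := by
    intro S hS
    have hS' := Finset.mem_powerset.1 hS
    rw [← Finset.sum_powerset_apply_card (f := β)]
    refine Finset.sum_congr rfl fun U hU => ?_
    have hU' := (Finset.mem_powerset.1 hU).trans hS'
    have hc : U.card ≤ N := hB ▸ Finset.card_le_card hU'
    have h4 := h3 U hU' _ (hT _ hc).1 (hT _ hc).2.symm
    have h5 := rinv_zero hM (by omega) h4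
    simp only [β, if_pos hc]
    exact sub_eq_zero.1 h5
  let f : ℕ → ℝ := fun n => φ (∑ s ∈ Finset.range (n + 1), n.choose s • β s)
  have hA : ∑ S ∈ B.powerset, φ (∑ U ∈ S.powerset, a U + 2 ^ m • t) =
      ∑ n ∈ Finset.range (N + 1), (N.choose n : ℝ) * f (n + 2 ^ m) := by
    have h4 := Finset.sum_powerset_apply_card (x := B) (f := fun n => f (n + 2 ^ m))
    rw [hB] at h4
    simp only [nsmul_eq_mul] at h4
    rw [← h4]
    refine Finset.sum_congr rfl fun S hS => ?_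
    simp only [f]
    rw [ainv_shift hm hM β t e0 e1 e2, hs S hS]
  have hC : ∑ S ∈ B.powerset, φ (∑ U ∈ S.powerset, a U) =
      ∑ n ∈ Finset.range (N + 1), (N.choose n : ℝ) * f n := by
    have h4 := Finset.sum_powerset_apply_card (x := B) (f := f)
    rw [hB] at h4
    simp only [nsmul_eq_mul] at h4
    rw [← h4]
    refine Finset.sum_congr rfl fun S hS => ?_
    simp only [f]
    rw [hs S hS]
  rw [hA, hC]
  exact hN f fun n => hφ _

private theorem rinv_step {Q m : ℕ} {η : ℝ} {i N' : ℕ} (h : RinvClaim Q m η (i + 1) N') :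
    ∃ N, RinvClaim Q m η i N := by
  obtain ⟨N, hN⟩ := ramsey (Fin Q) (m + 2) N'
  refine ⟨N, fun M _ _ hQ hM α _ B hB a t h0 h1 h2 h3 φ hφ => ?_⟩
  have := Fintype.ofFinite M
  obtain ⟨e⟩ : Nonempty (M ↪ Fin Q) := Function.Embedding.nonempty_of_card_le (by
    rwa [Fintype.card_fin, ← Nat.card_eq_fintype_card])
  obtain ⟨B', hB', hc, hcol⟩ := hN α B (fun S => e (a S)) hB.ge
  have hd : ∀ γ ⊆ B \ B', ∀ S ⊆ B', ∀ T ⊆ γ, (S ∪ T).card = S.card + T.card :=
    fun γ hγ S hS T hT => Finset.card_union_of_disjoint (Finset.disjoint_of_subset_left hS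
      (Finset.disjoint_of_subset_right (hT.trans hγ) Finset.disjoint_sdiff))
  have hs : ∀ γ ⊆ B \ B', ∀ S ⊆ B', ∀ T ⊆ γ, S ∪ T ⊆ B := fun γ hγ S hS T hT =>
    Finset.union_subset (hS.trans hB') ((hT.trans hγ).trans Finset.sdiff_subset)
  have hsp : ∀ γ ⊆ B \ B', ∀ S ⊆ B', S.Nonempty → ∃ y,
      ∑ T ∈ γ.powerset, a (S ∪ T) = a S + 2 ^ S.card • y := by
    intro γ hγ S hS hne
    obtain ⟨y, hy⟩ := rinv_sum (2 ^ S.card) (γ.powerset.erase ∅) (fun T => a (S ∪ T))
      fun T hT => by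
        have hT' := Finset.mem_powerset.1 (Finset.mem_of_mem_erase hT)
        have h4 := (Finset.nonempty_iff_ne_empty.2 (Finset.ne_of_mem_erase hT)).card_pos
        refine rinv_mono ?_ (h0 _ (hs γ hγ S hS T hT'))
        rw [hd γ hγ S hS T hT']
        omega
    refine ⟨y, ?_⟩
    rw [← Finset.add_sum_erase _ _ (Finset.empty_mem_powerset γ), Finset.union_empty, hy]
  have key : ∀ γ ∈ (B \ B').powerset,
      |∑ S ∈ B'.powerset, φ (∑ U ∈ S.powerset, ∑ T ∈ γ.powerset, a (U ∪ T) + 2 ^ m • t) -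
        ∑ S ∈ B'.powerset, φ (∑ U ∈ S.powerset, ∑ T ∈ γ.powerset, a (U ∪ T))| ≤ η * 2 ^ N' := by
    intro γ hγ
    have hγ' := Finset.mem_powerset.1 hγ
    refine h M hQ hM α B' hc (fun S => ∑ T ∈ γ.powerset, a (S ∪ T)) t ?_ ?_ ?_ ?_ φ hφ
    · intro S hS
      refine rinv_sum _ _ _ fun T hT => ?_
      have hT' := Finset.mem_powerset.1 hT
      refine rinv_mono ?_ (h0 _ (hs γ hγ' S hS T hT'))
      rw [hd γ hγ' S hS T hT']
      omega
    · intro l hl
      obtain ⟨y, hy⟩ := hsp γ hγ' {l} (Finset.singleton_subset_iff.2 hl)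
        (Finset.singleton_nonempty l)
      obtain ⟨z, hz⟩ := h1 l (hB' hl)
      refine ⟨z + y, ?_⟩
      rw [hy, hz, Finset.card_singleton, pow_one, smul_add]
    · intro l hl l' hl' hne
      obtain ⟨y, hy⟩ := hsp γ hγ' {l, l'}
        (Finset.insert_subset hl (Finset.singleton_subset_iff.2 hl'))
        (Finset.insert_nonempty _ _)
      obtain ⟨z, hz⟩ := h2 l (hB' hl) l' (hB' hl') hne
      refine ⟨z + y, ?_⟩
      rw [hy, hz, Finset.card_pair hne, smul_add, add_assoc]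
      norm_num
    · intro S hS S' hS' he
      rw [← Finset.sum_sub_distrib]
      refine rinv_sum _ _ _ fun T hT => ?_
      have hT' := Finset.mem_powerset.1 hT
      rcases T.eq_empty_or_nonempty with rfl | hne
      · rw [Finset.union_empty, Finset.union_empty]
        refine ⟨0, ?_⟩
        rw [smul_zero, sub_eq_zero]
        by_cases hJ : S.card ≤ m + 2
        · exact e.injective (hcol S hS S' hS' he hJ)
        · rw [rinv_zero hM (by omega) (h0 S (hS.trans hB')),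
            rinv_zero hM (by omega) (h0 S' (hS'.trans hB'))]
      · have h4 := h3 _ (hs γ hγ' S hS T hT') _ (hs γ hγ' S' hS' T hT')
          (by rw [hd γ hγ' S hS T hT', hd γ hγ' S' hS' T hT', he])
        rw [hd γ hγ' S hS T hT'] at h4
        have h5 := hne.card_pos
        exact rinv_mono (by omega) h4
  have hre : ∀ ψ : M → ℝ, ∑ S ∈ B.powerset, ψ (∑ U ∈ S.powerset, a U) =
      ∑ γ ∈ (B \ B').powerset, ∑ S ∈ B'.powerset,
        ψ (∑ U ∈ S.powerset, ∑ T ∈ γ.powerset, a (U ∪ T)) := by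
    intro ψ
    have h4 := rinv_pow B' (B \ B') Finset.disjoint_sdiff
      fun S => ψ (∑ U ∈ S.powerset, a U)
    rw [Finset.union_sdiff_of_subset hB'] at h4
    rw [h4, Finset.sum_comm]
    refine Finset.sum_congr rfl fun γ hγ => Finset.sum_congr rfl fun S hS => ?_
    rw [rinv_pow S γ (Finset.disjoint_of_subset_left (Finset.mem_powerset.1 hS)
      (Finset.disjoint_of_subset_right (Finset.mem_powerset.1 hγ) Finset.disjoint_sdiff))]
  rw [hre fun x => φ (x + 2 ^ m • t), hre φ, ← Finset.sum_sub_distrib]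
  refine (Finset.abs_sum_le_sum_abs _ _).trans
    ((Finset.sum_le_card_nsmul _ _ (η * 2 ^ N') key).trans (le_of_eq ?_))
  rw [Finset.card_powerset, nsmul_eq_mul, ← hB, ← Finset.card_sdiff_add_card_eq_card hB', hc,
    pow_add]
  push_cast
  ring

theorem rinv (Q m : ℕ) (hm : 1 ≤ m) (η : ℝ) (hη : 0 < η) : ∃ R : ℕ, ∀ (M : Type) [AddCommGroup M]
    [Finite M], Nat.card M ≤ Q → (∀ x : M, 2 ^ (m + 1) • x = 0) →
    ∀ (a : Finset (Fin R) → M) (t : M), (∀ S, ∃ y, a S = 2 ^ (S.card - 1) • y) →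
    (∀ l, ∃ y, a {l} = 2 • y) → (∀ l l', l ≠ l' → ∃ y, a {l, l'} = 2 • t + 4 • y) →
    ∀ φ : M → ℝ, (∀ x, |φ x| ≤ 1) →
    |∑ S : Finset (Fin R), φ (∑ U ∈ S.powerset, a U + 2 ^ m • t) -
      ∑ S : Finset (Fin R), φ (∑ U ∈ S.powerset, a U)| ≤ η * 2 ^ R := by
  have key : ∀ k i, i + k = m + 2 → ∃ N, RinvClaim Q m η i N := by
    intro k
    induction k with
    | zero =>
      intro i hi
      obtain rfl : i = m + 2 := by omega
      exact rinv_base Q m hm η hη
    | succ k ih =>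
      intro i hi
      obtain ⟨N', h⟩ := ih (i + 1) (by omega)
      exact rinv_step h
  obtain ⟨R, h⟩ := key (m + 2) 0 (by omega)
  refine ⟨R, fun M _ _ hQ hM a t h0 h1 h2 φ hφ => ?_⟩
  have h3 := h M hQ hM (Fin R) Finset.univ (by simp) a t (fun S _ => h0 S) (fun l _ => h1 l)
    (fun l _ l' _ => h2 l l') (fun S _ S' _ he => by
      obtain ⟨y, hy⟩ := h0 S
      obtain ⟨z, hz⟩ := h0 S'
      refine ⟨y - z, ?_⟩
      rw [hy, hz, ← he, add_zero, smul_sub]) φ hφ
  simpa only [Finset.powerset_univ] using h3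

end Pool.Agent.Lib.MP_788af2_nt.AS
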