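import Pool.Agent.Lib.MP_a3f657_nt.BK.ADefs

/-!
The kernels of an integer matrix modulo powers of two.
-/

set_option linter.unusedSectionVars false
set_option linter.unusedVariables false

namespace Pool.Agent.Lib.MP_788af2_nt.AS

open Pool.Agent.Lib.MP_a3f657_nt.Two Matrix

variable {W : Type} [Fintype W] [DecidableEq W] {c x y : Matrix W W ℤ} {m i : ℕ}
  {v : W → ℤ} {u τ : W → ZMod 2}

lemma mem_Km : v ∈ Km c m ↔ ∀ j, (2 : ℤ) ^ m ∣ (v ᵥ* c) j := Iff.rfl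

lemma mem_Kq : v ∈ Kq c τ m ↔ v ∈ Km c m ∧ (2 : ℤ) ^ (m + 1) ∣ (v ᵥ* c) ⬝ᵥ lft τ := Iff.rfl

lemma mem_Lm : u ∈ Lm c m ↔ ∃ v ∈ Km c m, red v = u := Iff.rfl

lemma mem_Lq : u ∈ Lq c τ m ↔ ∃ v ∈ Kq c τ m, red v = u := Iff.rfl

private lemma dvd_sub_right_iff' {n a b : ℤ} (h : n ∣ a - b) : n ∣ a ↔ n ∣ b :=
  ⟨fun e => by simpa using dvd_sub e h, fun e => by simpa using dvd_add h e⟩

private lemma alat_dvd_dot {n : ℤ} {a : W → ℤ} (h : ∀ j, n ∣ a j) (b : W → ℤ) : n ∣ a ⬝ᵥ b :=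
  Finset.dvd_sum fun j _ => Dvd.dvd.mul_right (h j) _

private lemma alat_swap (c : Matrix W W ℤ) (v w : W → ℤ) : (w ᵥ* cᵀ) ⬝ᵥ v = (v ᵥ* c) ⬝ᵥ w := by
  rw [vecMul_transpose, ← dotProduct_mulVec, dotProduct_comm]

private lemma alat_cast_dot (a b : W → ℤ) : ((a ⬝ᵥ b : ℤ) : ZMod 2) = red a ⬝ᵥ red b := by
  simp [dotProduct, red]

private lemma alat_red_vecMul (v : W → ℤ) (c : Matrix W W ℤ) :
    red (v ᵥ* c) = red v ᵥ* redM c := by
  funext j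
  simp [red, redM, vecMul, dotProduct]

private lemma alat_km_anti (hv : v ∈ Km c (m + 1)) : v ∈ Km c m :=
  fun j => (pow_dvd_pow 2 m.le_succ).trans (hv j)

/-- Duality modulo a power of two. -/
private lemma alat_gd (c : Matrix W W ℤ) (n : ℕ) (x : W → ℤ)
    (h : ∀ w ∈ Km cᵀ n, (2 : ℤ) ^ n ∣ x ⬝ᵥ w) :
    ∃ v : W → ℤ, ∀ j, (2 : ℤ) ^ n ∣ (v ᵥ* c) j - x j := by
  let H : AddSubgroup (W → ℤ) :=
    { carrier := {x | ∃ v : W → ℤ, ∀ j, (2 : ℤ) ^ n ∣ (v ᵥ* c) j - x j}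
      zero_mem' := ⟨0, fun j => by simp⟩
      add_mem' := by
        rintro a b ⟨v, hv⟩ ⟨v', hv'⟩
        refine ⟨v + v', fun j => ?_⟩
        have := dvd_add (hv j) (hv' j)
        rw [add_vecMul]
        simp only [Pi.add_apply]
        rwa [add_sub_add_comm]
      neg_mem' := by
        rintro a ⟨v, hv⟩
        refine ⟨-v, fun j => ?_⟩
        have := (dvd_neg).2 (hv j)
        rw [neg_vecMul]
        simp only [Pi.neg_apply]
        rwa [neg_sub_neg, ← neg_sub] }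
  by_contra hn
  have hx : (QuotientAddGroup.mk x : (W → ℤ) ⧸ H) ≠ 0 := fun e =>
    hn ((QuotientAddGroup.eq_zero_iff x).1 e)
  obtain ⟨χ, hχ⟩ := CharacterModule.exists_character_apply_ne_zero_of_ne_zero hx
  let f : (W → ℤ) →+ AddCircle (1 : ℚ) :=
    AddMonoidHom.comp (show ((W → ℤ) ⧸ H) →+ AddCircle (1 : ℚ) from χ) (QuotientAddGroup.mk' H)
  have hf : ∀ a ∈ H, f a = 0 := fun a ha => by
    change χ (QuotientAddGroup.mk a) = 0
    rw [(QuotientAddGroup.eq_zero_iff a).2 ha, map_zero]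
  have hN : (0 : ℕ) < 2 ^ n := by positivity
  have h1 : ∀ j, ∃ k : ℕ, (((k : ℚ) / (2 ^ n : ℕ) * 1 : ℚ) : AddCircle (1 : ℚ)) =
      f (Pi.single j 1) := fun j => by
    have : (2 ^ n : ℕ) • f (Pi.single j 1) = 0 := by
      rw [← map_nsmul]
      refine hf _ ⟨0, fun i => ?_⟩
      simp
    obtain ⟨k, -, hk⟩ := (AddCircle.nsmul_eq_zero_iff hN).1 this
    exact ⟨k, hk⟩
  choose k hk using h1
  let w : W → ℤ := fun j => k j
  have h2 : ∀ a : W → ℤ, f a = ((((a ⬝ᵥ w : ℤ) : ℚ) / 2 ^ n : ℚ) : AddCircle (1 : ℚ)) := fun a => by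
    have e : a = ∑ j, a j • (Pi.single j 1 : W → ℤ) := by
      funext i
      simp [Pi.single_apply]
    conv_lhs => rw [e, map_sum]
    simp only [map_zsmul, ← hk, ← AddCircle.coe_zsmul]
    rw [← QuotientAddGroup.mk_sum]
    congr 1
    simp [dotProduct, w, Finset.sum_div, mul_div_assoc]
  have h3 : ∀ a : W → ℤ, f a = 0 ↔ (2 : ℤ) ^ n ∣ a ⬝ᵥ w := fun a => by
    rw [h2, AddCircle.coe_eq_zero_iff]
    refine exists_congr fun z => ?_
    rw [zsmul_eq_mul, mul_one, eq_div_iff (by positivity), eq_comm, mul_comm]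
    exact_mod_cast Iff.rfl
  refine hχ ((h3 x).2 (h w fun j => ?_))
  have := (h3 _).1 (hf (Pi.single j 1 ᵥ* c) ⟨Pi.single j 1, fun i => by simp⟩)
  rw [← alat_swap] at this
  simpa using this

lemma red_lft (u : W → ZMod 2) : red (lft u) = u := by
  funext i
  simp [red, lft]

lemma redM_lftM (t : Matrix W W (ZMod 2)) : redM (lftM t) = t := by
  ext i j
  simp [redM, lftM]

lemma red_eq_iff {v v' : W → ℤ} : red v = red v' ↔ ∃ w : W → ℤ, v' = v + 2 • w := by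
  refine ⟨fun h => ?_, ?_⟩
  · have : ∀ i, ∃ k : ℤ, v' i - v i = 2 * k := fun i =>
      (ZMod.intCast_eq_intCast_iff_dvd_sub (v i) (v' i) 2).1 (congrFun h i)
    choose w hw using this
    refine ⟨w, funext fun i => ?_⟩
    have := hw i
    simp only [two_nsmul, Pi.add_apply]
    omega
  · rintro ⟨w, rfl⟩
    funext i
    refine (ZMod.intCast_eq_intCast_iff_dvd_sub _ _ 2).2 ⟨w i, ?_⟩
    simp

lemma Cg.mono (h : Cg m x y) (hi : i ≤ m) : Cg i x y := by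
  exact fun a b => (pow_dvd_pow 2 hi).trans (h a b)

lemma Cg.transpose (h : Cg m x y) : Cg m xᵀ yᵀ := by
  exact fun a b => h b a

lemma cg_one : Cg 1 x y ↔ redM x = redM y := by
  refine ⟨fun h => ?_, fun h a b => ?_⟩
  · ext a b
    exact ((ZMod.intCast_eq_intCast_iff_dvd_sub _ _ 2).2 (by simpa using h a b)).symm
  · have : ((y a b : ℤ) : ZMod 2) = (x a b : ℤ) := (congrFun (congrFun h a) b).symm
    simpa using (ZMod.intCast_eq_intCast_iff_dvd_sub _ _ 2).1 this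

lemma cg_shift (c : Matrix W W ℤ) (m : ℕ) (t : Matrix W W ℤ) : Cg m (c + (2 : ℤ) ^ m • t) c := by
  intro a b
  rw [Matrix.add_apply, add_sub_cancel_left, Matrix.smul_apply, smul_eq_mul]
  exact dvd_mul_right _ _

lemma Cg.km (h : Cg m x y) (hi : i ≤ m) : Km x i = Km y i := by
  ext v
  have key : ∀ j, (2 : ℤ) ^ i ∣ (v ᵥ* x) j - (v ᵥ* y) j := fun j => by
    rw [← Pi.sub_apply, ← vecMul_sub]
    exact Finset.dvd_sum fun a _ => Dvd.dvd.mul_left (h.mono hi a j) _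
  exact forall_congr' fun j => (dvd_sub_right_iff' (key j))

lemma Cg.lm (h : Cg m x y) (hi : i ≤ m) : Lm x i = Lm y i := by
  rw [Lm, Lm, h.km hi]

lemma Cg.good (h : Cg (m + 1) x y) (hg : Good x m) : Good y m := by
  refine ⟨by rw [← h.lm m.le_succ, ← h.transpose.lm m.le_succ, hg.1], fun v hv => ?_⟩
  have h1 := hg.2 v (by rwa [h.km m.le_succ])
  have h2 : (2 : ℤ) ^ (m + 1) ∣ (v ᵥ* x) ⬝ᵥ v - (v ᵥ* y) ⬝ᵥ v := by
    rw [← sub_dotProduct, ← vecMul_sub]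
    exact alat_dvd_dot (fun j => Finset.dvd_sum fun a _ => Dvd.dvd.mul_left (h a j) _) v
  exact (dvd_sub_right_iff' h2).1 h1

lemma Cg.mt (e : ℕ → ℕ) (h : Cg (m + 1) x y) : Mt e τ x m ↔ Mt e τ y m := by
  unfold Mt lgm
  rw [h.lm m.le_succ, h.lm le_rfl, cg_one.1 (h.mono (Nat.le_add_left 1 m))]

lemma Cg.vl (e : ℕ → ℕ) (j : ℕ) (h : Cg m x y) : Vl e τ j m x = Vl e τ j m y := by
  unfold Vl lgm
  rw [h.lm le_rfl]

lemma Lm_zero (c : Matrix W W ℤ) : Lm c 0 = ⊤ := by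
  exact eq_top_iff.2 fun u _ => ⟨lft u, fun j => by simp, red_lft u⟩

lemma mem_Lm_one : u ∈ Lm c 1 ↔ u ᵥ* redM c = 0 := by
  have key : ∀ v : W → ℤ, v ∈ Km c 1 ↔ red v ᵥ* redM c = 0 := fun v => by
    rw [← alat_red_vecMul, mem_Km, funext_iff]
    exact forall_congr' fun j => by
      simpa [red] using (ZMod.intCast_zmod_eq_zero_iff_dvd ((v ᵥ* c) j) 2).symm
  refine ⟨?_, fun h => ⟨lft u, (key _).2 (by rwa [red_lft]), red_lft u⟩⟩
  rintro ⟨v, hv, rfl⟩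
  exact (key v).1 hv

lemma Lm_anti (c : Matrix W W ℤ) (m : ℕ) : Lm c (m + 1) ≤ Lm c m := by
  exact AddSubgroup.map_mono fun v hv => alat_km_anti hv

lemma card_Lm (c : Matrix W W ℤ) (m : ℕ) : Nat.card (Lm c m) = 2 ^ lgm c m := by
  obtain ⟨n, hn⟩ := card_two_pow (V := Lm c m) fun x => Subtype.ext (funext fun i => z2_add_self _)
  rw [lgm, hn, Nat.log_pow one_lt_two]

lemma lgm_zero (c : Matrix W W ℤ) : lgm c 0 = Fintype.card W := by
  rw [lgm, Lm_zero, AddSubgroup.card_top, Nat.card_fun, Nat.card_zmod, Nat.log_pow one_lt_two,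
    Nat.card_eq_fintype_card]

/-- The obstructions at level `m` are the vectors orthogonal to the right kernel. -/
theorem lat_dual (h : ∀ w ∈ Lm cᵀ (m + 1), u ⬝ᵥ w = 0) :
    ∃ v ∈ Km c m, ∀ j, (2 : ℤ) ^ (m + 1) ∣ (v ᵥ* c) j - 2 ^ m * lft u j := by
  obtain ⟨v, hv⟩ := alat_gd c (m + 1) (fun j => 2 ^ m * lft u j) fun w hw => by
    have h1 := h (red w) ⟨w, hw, rfl⟩
    rw [← red_lft u, ← alat_cast_dot] at h1
    obtain ⟨k, hk⟩ := (ZMod.intCast_zmod_eq_zero_iff_dvd _ 2).1 h1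
    refine ⟨k, ?_⟩
    have : (fun j => 2 ^ m * lft u j) = (2 : ℤ) ^ m • lft u := rfl
    rw [this, smul_dotProduct, hk, pow_succ]
    simp [mul_assoc]
  refine ⟨v, fun j => ?_, hv⟩
  exact (dvd_sub_right_iff' ((pow_dvd_pow 2 m.le_succ).trans (hv j))).2 (dvd_mul_right _ _)

theorem lat_succ (hv : v ∈ Km c m) (h : ∀ w ∈ Km cᵀ m, (2 : ℤ) ^ (m + 1) ∣ (v ᵥ* c) ⬝ᵥ w) :
    red v ∈ Lm c (m + 1) := by
  have h2 : ∀ j, ∃ k, (v ᵥ* c) j = 2 * k := fun j => by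
    rcases m with _ | m
    · have := h (Pi.single j 1) fun j => by simp
      rw [dotProduct_single, mul_one, zero_add, pow_one] at this
      exact this
    · exact (dvd_pow_self 2 m.succ_ne_zero).trans (hv j)
  choose x hx using h2
  have hx' : v ᵥ* c = (2 : ℤ) • x := funext hx
  obtain ⟨v', hv'⟩ := alat_gd c m x fun w hw => by
    have := h w hw
    rw [hx', smul_dotProduct, pow_succ', smul_eq_mul] at this
    exact (mul_dvd_mul_iff_left two_ne_zero).1 this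
  refine ⟨v + 2 • (-v'), fun j => ?_, (red_eq_iff.2 ⟨_, rfl⟩).symm⟩
  obtain ⟨k, hk⟩ := hv' j
  refine ⟨-k, ?_⟩
  rw [add_vecMul, two_nsmul, add_vecMul, neg_vecMul]
  simp only [Pi.add_apply, Pi.neg_apply, hx j]
  rw [pow_succ]
  linear_combination (-2) * hk

/-- The value of the pairing does not depend on the lifts. -/
lemma lat_wd {v' w w' : W → ℤ} (hv : v ∈ Km c m) (hw : w ∈ Km cᵀ m) (hv' : v' ∈ Km c m)
    (h1 : red v = red v') (h2 : red w = red w') :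
    (2 : ℤ) ^ (m + 1) ∣ (v ᵥ* c) ⬝ᵥ w - (v' ᵥ* c) ⬝ᵥ w' := by
  obtain ⟨a, rfl⟩ := red_eq_iff.1 h1
  obtain ⟨b, rfl⟩ := red_eq_iff.1 h2
  obtain ⟨k, hk⟩ := alat_dvd_dot hw a
  obtain ⟨l, hl⟩ := alat_dvd_dot hv' b
  rw [alat_swap] at hk
  refine ⟨-k - l, ?_⟩
  rw [dotProduct_add, two_nsmul b, dotProduct_add, hl, add_vecMul, two_nsmul, add_vecMul,
    add_dotProduct, add_dotProduct, hk, pow_succ]
  ring

private lemma alat_good_tr (h : Good c m) : Good cᵀ m := by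
  refine ⟨h.1.symm, fun w hw => ?_⟩
  obtain ⟨v, hv, e⟩ : red w ∈ Lm c m := by
    rw [h.1]
    exact ⟨w, hw, rfl⟩
  have h1 := lat_wd hv hw hv rfl (show red w = red v from e.symm)
  have h2 := lat_wd (c := cᵀ) hw hv hw rfl (show red v = red w from e)
  rw [alat_swap] at h2
  exact (dvd_sub_right_iff' h2).1 ((dvd_sub_right_iff' h1).2 (h.2 v hv))

private lemma alat_succ_le (h : Good c m) : Lm c (m + 1) ≤ Lm cᵀ (m + 1) := by
  rintro _ ⟨v, hv, rfl⟩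
  have hv0 := alat_km_anti hv
  obtain ⟨w, hw, e⟩ : red v ∈ Lm cᵀ m := by
    rw [← h.1]
    exact ⟨v, hv0, rfl⟩
  change red v ∈ _
  rw [← show red w = red v from e]
  refine lat_succ hw fun v' hv' => ?_
  rw [alat_swap]
  refine (dvd_sub_right_iff' (lat_wd hv' hw hv' rfl (show red w = red v from e))).2 ?_
  have h1 := h.2 _ (add_mem hv0 hv')
  rw [add_vecMul, add_dotProduct, dotProduct_add (v' ᵥ* c)] at h1
  exact (dvd_add_left (h.2 v' hv')).1 ((dvd_add_right (alat_dvd_dot hv _)).1 h1)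

private lemma alat_exists_b (h : Good c m) : ∃ b : (W → ZMod 2) → (W → ZMod 2) → ZMod 2,
    ∀ v ∈ Km c m, ∀ w, red w ∈ Lm c m → ∀ k : ℤ, (v ᵥ* c) ⬝ᵥ w = 2 ^ m * k →
      b (red v) (red w) = k := by
  have ch : ∀ u : W → ZMod 2, ∃ s : W → ℤ, u ∈ Lm c m → s ∈ Km c m ∧ red s = u := fun u => by
    by_cases hu : u ∈ Lm c m
    · obtain ⟨s, hs⟩ := hu
      exact ⟨s, fun _ => hs⟩
    · exact ⟨0, fun e => absurd e hu⟩
  choose s hs using ch
  refine ⟨fun u w => (((s u ᵥ* c) ⬝ᵥ lft w / 2 ^ m : ℤ) : ZMod 2), fun v hv w hw k hk => ?_⟩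
  obtain ⟨h1, h2⟩ := hs (red v) ⟨v, hv, rfl⟩
  rw [h.1] at hw
  obtain ⟨w', hw', e⟩ := hw
  have e' : red w' = red w := e
  obtain ⟨a, ha⟩ := lat_wd hv hw' h1 h2.symm (e'.trans (red_lft _).symm)
  obtain ⟨b, hb⟩ := lat_wd hv hw' hv rfl e'
  have h3 : (s (red v) ᵥ* c) ⬝ᵥ lft (red w) = 2 ^ m * (k + 2 * (b - a)) := by
    rw [pow_succ] at ha hb
    linear_combination hk + hb - ha
  change (((s (red v) ᵥ* c) ⬝ᵥ lft (red w) / 2 ^ m : ℤ) : ZMod 2) = k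
  rw [h3, Int.mul_ediv_cancel_left _ (pow_ne_zero _ two_ne_zero)]
  exact ((ZMod.intCast_eq_intCast_iff_dvd_sub _ _ 2).2 ⟨b - a, by simp⟩).symm

theorem Good.succ (h : Good c m) : Lm c (m + 1) = Lm cᵀ (m + 1) := by
  refine le_antisymm (alat_succ_le h) ?_
  simpa using alat_succ_le (alat_good_tr h)

lemma St.lm_one (h : St τ (redM c)) : Lm c 1 = Lm cᵀ 1 := by
  ext u
  rw [mem_Lm_one, mem_Lm_one, show redM cᵀ = (redM c)ᵀ from rfl, h.1]

theorem Good.form (h : Good c m) : ∃ b, AltOn (Lm c m) b ∧ ∀ t : Matrix W W (ZMod 2),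
    (Lm (c + (2 : ℤ) ^ m • lftM t) (m + 1) : Set (W → ZMod 2)) = radT (Lm c m) b t := by
  obtain ⟨b, hb⟩ := alat_exists_b h
  have add : ∀ v w : W → ℤ, red (v + w) = red v + red w := fun v w => redH.map_add v w
  refine ⟨b, ⟨?_, ?_, ?_⟩, fun t => ?_⟩
  · rintro _ ⟨v, hv, rfl⟩ _ ⟨v', hv', rfl⟩ _ ⟨w, hw, rfl⟩
    obtain ⟨k, hk⟩ := alat_dvd_dot hv w
    obtain ⟨l, hl⟩ := alat_dvd_dot hv' w
    change b (red v + red v') (red w) = b (red v) (red w) + b (red v') (red w)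
    rw [← add, hb v hv w ⟨w, hw, rfl⟩ k hk, hb v' hv' w ⟨w, hw, rfl⟩ l hl,
      hb _ (add_mem hv hv') w ⟨w, hw, rfl⟩ (k + l)
        (by rw [add_vecMul, add_dotProduct, hk, hl, mul_add]), Int.cast_add]
  · rintro _ ⟨v, hv, rfl⟩ _ ⟨w, hw, rfl⟩ _ ⟨w', hw', rfl⟩
    obtain ⟨k, hk⟩ := alat_dvd_dot hv w
    obtain ⟨l, hl⟩ := alat_dvd_dot hv w'
    change b (red v) (red w + red w') = b (red v) (red w) + b (red v) (red w')
    rw [← add, hb v hv w ⟨w, hw, rfl⟩ k hk, hb v hv w' ⟨w', hw', rfl⟩ l hl,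
      hb v hv _ ⟨w + w', add_mem hw hw', rfl⟩ (k + l)
        (by rw [dotProduct_add, hk, hl, mul_add]), Int.cast_add]
  · rintro _ ⟨v, hv, rfl⟩
    obtain ⟨k, hk⟩ := h.2 v hv
    change b (red v) (red v) = 0
    rw [hb v hv v ⟨v, hv, rfl⟩ (2 * k) (by rw [hk, pow_succ, mul_assoc])]
    exact (ZMod.intCast_zmod_eq_zero_iff_dvd _ 2).2 ⟨k, rfl⟩
  have cg := cg_shift c m (lftM t)
  have key : ∀ v ∈ Km c m, ∀ w, red w ∈ Lm c m →
      ((2 : ℤ) ^ (m + 1) ∣ (v ᵥ* (c + (2 : ℤ) ^ m • lftM t)) ⬝ᵥ w ↔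
        b (red v) (red w) + red v ⬝ᵥ t *ᵥ red w = 0) := fun v hv w hw => by
    obtain ⟨k, hk⟩ := alat_dvd_dot hv w
    have e : red v ⬝ᵥ t *ᵥ red w = (((v ᵥ* lftM t) ⬝ᵥ w : ℤ) : ZMod 2) := by
      rw [alat_cast_dot, alat_red_vecMul, redM_lftM, dotProduct_mulVec]
    rw [hb v hv w hw k hk, e, ← Int.cast_add, ZMod.intCast_zmod_eq_zero_iff_dvd, vecMul_add,
      add_dotProduct, hk, vecMul_smul, smul_dotProduct, smul_eq_mul, ← mul_add, pow_succ]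
    exact mul_dvd_mul_iff_left (pow_ne_zero _ two_ne_zero)
  ext u
  refine ⟨?_, ?_⟩
  · rintro ⟨v, hv, rfl⟩
    have hv' : v ∈ Km c m := by
      rw [← cg.km le_rfl]
      exact alat_km_anti hv
    refine ⟨⟨v, hv', rfl⟩, fun w hw => ?_⟩
    have := (key v hv' (lft w) (by rwa [red_lft])).1 (alat_dvd_dot hv _)
    rwa [red_lft] at this
  · rintro ⟨⟨v, hv, rfl⟩, h1⟩
    refine lat_succ (by rwa [cg.km le_rfl]) fun w hw => ?_
    rw [cg.transpose.km le_rfl] at hw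
    have hw' : red w ∈ Lm c m := by
      rw [h.1]
      exact ⟨w, hw, rfl⟩
    exact (key v hv w hw').2 (h1 _ hw')

end Pool.Agent.Lib.MP_788af2_nt.AS
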