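import Pool.Agent.Lib.MP_a3f657_nt.BK.AAvg
import Pool.Agent.Lib.MP_a3f657_nt.BK.ALat

/-!
The first step of the chain.
-/

set_option linter.unusedSectionVars false

namespace Pool.Agent.Lib.MP_788af2_nt.AS

open Pool.Agent.Lib.MP_a3f657_nt.Two Matrix

variable {W : Type} [Fintype W] [DecidableEq W] {τ : W → ZMod 2}

/-- The left kernel of a matrix over the field with two elements. -/
def lev0K (C : Matrix W W (ZMod 2)) : Set (W → ZMod 2) := {u | u ᵥ* C = 0}

/-- The rank one correction of a matrix. -/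
def lev0P (τ : W → ZMod 2) (C : Matrix W W (ZMod 2)) : Matrix W W (ZMod 2) :=
  C + vecMulVec (τ ᵥ* C) (τ ᵥ* C)

lemma lev0_rad (t : Matrix W W (ZMod 2)) : radT ⊤ (fun _ _ => 0) t = lev0K t := by
  ext u
  simp only [radT, lev0K, Set.mem_ofPred_eq, AddSubgroup.mem_top, true_and, zero_add,
    forall_const]
  constructor
  · intro h
    funext i
    have := h (Pi.single i 1)
    rw [dotProduct_mulVec] at this
    simpa using this
  · intro h w
    rw [dotProduct_mulVec, h, zero_dotProduct]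

lemma lev0_mem {C : Matrix W W (ZMod 2)} {u : W → ZMod 2} :
    u ∈ Lm (lftM C) 1 ↔ u ∈ lev0K C := by
  rw [mem_Lm_one, redM_lftM]
  rfl

lemma lev0_lgm (C : Matrix W W (ZMod 2)) : lgm (lftM C) 1 = Nat.log 2 (lev0K C).ncard := by
  unfold lgm
  congr 1
  rw [← Nat.card_coe_set_eq]
  exact Nat.card_congr (Equiv.subtypeEquivRight fun u => lev0_mem)

lemma lev0_vv (a : W → ZMod 2) : vecMulVec a a + vecMulVec a a = 0 := by
  ext i j
  simp [z2_add_self]

lemma lev0_sq (a : ZMod 2) : a * a = a := by revert a; decide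

lemma lev0_sym {X : Matrix W W (ZMod 2)} (h : Xᵀ = X) (u w : W → ZMod 2) :
    (u ᵥ* X) ⬝ᵥ w = (w ᵥ* X) ⬝ᵥ u := by
  rw [← dotProduct_mulVec, ← h, mulVec_transpose, dotProduct_comm, h]

lemma lev0_altT {A : Matrix W W (ZMod 2)} (h : Alt A) : Aᵀ = A := by
  ext i j
  exact h.2 j i

lemma lev0_alt0 {A : Matrix W W (ZMod 2)} (h : Alt A) (u : W → ZMod 2) : (u ᵥ* A) ⬝ᵥ u = 0 := by
  rw [← dotProduct_mulVec]
  exact h.quad u

lemma lev0_vm (X : Matrix W W (ZMod 2)) (a u : W → ZMod 2) :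
    u ᵥ* (X + vecMulVec a a) = u ᵥ* X + (u ⬝ᵥ a) • a := by
  rw [vecMul_add, vecMul_vecMulVec]

/-- The correction of a matrix with characteristic vector `τ` is alternating. -/
lemma lev0_alt {C : Matrix W W (ZMod 2)} (h : St τ C) : Alt (lev0P τ C) := by
  constructor
  · intro i
    have h1 := h.2 (Pi.single i 1)
    rw [dotProduct_mulVec, dotProduct_mulVec] at h1
    simp only [dotProduct_single, mul_one, single_vecMul, one_smul, row_apply] at h1
    simp only [lev0P, Matrix.add_apply, vecMulVec_apply, lev0_sq]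
    rw [← h1]
    exact z2_add_self _
  · intro i j
    have h1 : C j i = C i j := congrFun (congrFun h.1 i) j
    simp only [lev0P, Matrix.add_apply, vecMulVec_apply]
    rw [h1, mul_comm]

/-- An alternating matrix plus the square of a suitable functional. -/
lemma lev0_st {A : Matrix W W (ZMod 2)} (h : Alt A) {a : W → ZMod 2}
    (ha : τ ᵥ* (A + vecMulVec a a) = a) : St τ (A + vecMulVec a a) := by
  constructor
  · rw [transpose_add, lev0_altT h, transpose_vecMulVec]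
  · intro v
    rw [dotProduct_mulVec, dotProduct_mulVec, ha, lev0_vm, add_dotProduct, lev0_alt0 h, zero_add,
      smul_dotProduct, smul_eq_mul, dotProduct_comm v a, lev0_sq]

lemma lev0_tP {X : Matrix W W (ZMod 2)} (h : (τ ᵥ* X) ⬝ᵥ τ = 0) : τ ᵥ* lev0P τ X = τ ᵥ* X := by
  rw [lev0P, lev0_vm, dotProduct_comm, h, zero_smul, add_zero]

lemma lev0_PP {X : Matrix W W (ZMod 2)} (h : (τ ᵥ* X) ⬝ᵥ τ = 0) : lev0P τ (lev0P τ X) = X := by
  rw [lev0P, lev0_tP h, lev0P, add_assoc, lev0_vv, add_zero]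

lemma lev0_KP_le {X : Matrix W W (ZMod 2)} (hs : Xᵀ = X) : lev0K X ⊆ lev0K (lev0P τ X) := by
  intro u hu
  have hu' : u ᵥ* X = 0 := hu
  show u ᵥ* lev0P τ X = 0
  rw [lev0P, lev0_vm, dotProduct_comm, lev0_sym hs, hu', zero_dotProduct, zero_smul, add_zero]

lemma lev0_KP {A : Matrix W W (ZMod 2)} (h : Alt A) : lev0K (lev0P τ A) = lev0K A := by
  refine Set.Subset.antisymm ?_ (lev0_KP_le (lev0_altT h))
  have h1 : (lev0P τ A)ᵀ = lev0P τ A := by
    rw [lev0P, transpose_add, lev0_altT h, transpose_vecMulVec]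
  have := lev0_KP_le (τ := τ) h1
  rwa [lev0_PP (lev0_alt0 h τ)] at this

open Classical in
/-- The matrices with `τ C τ = 0` correspond to the alternating matrices. -/
lemma lev0_sum0 (f : Set (W → ZMod 2) → ℝ) :
    ∑ C ∈ Finset.univ.filter (fun C : Matrix W W (ZMod 2) => St τ C ∧ τ ⬝ᵥ C *ᵥ τ = 0),
      f (lev0K C) = ∑ A ∈ AltS W, f (lev0K A) := by
  symm
  refine Finset.sum_nbij' (lev0P τ) (lev0P τ) ?_ ?_ ?_ ?_ ?_
  · intro A hA
    have hA' := mem_AltS.1 hA
    have h0 := lev0_alt0 hA' τ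
    refine Finset.mem_filter.2 ⟨Finset.mem_univ _, lev0_st hA' (lev0_tP h0), ?_⟩
    rw [dotProduct_mulVec, lev0_tP h0, h0]
  · intro C hC
    exact mem_AltS.2 (lev0_alt (Finset.mem_filter.1 hC).2.1)
  · intro A hA
    exact lev0_PP (lev0_alt0 (mem_AltS.1 hA) τ)
  · intro C hC
    have := (Finset.mem_filter.1 hC).2.2
    rw [dotProduct_mulVec] at this
    exact lev0_PP this
  · intro A hA
    rw [lev0_KP (mem_AltS.1 hA)]

/-- The kernel of the corrected matrix has index two in the radical. -/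
lemma lev0_half {A : Matrix W W (ZMod 2)} (h : Alt A) (hτ : τ ∈ lev0K A) {a : W → ZMod 2}
    (ha : τ ⬝ᵥ a = 1) :
    Nat.log 2 (lev0K A).ncard = Nat.log 2 (lev0K (A + vecMulVec a a)).ncard + 1 := by
  have hτ' : τ ᵥ* A = 0 := hτ
  have hK : ∀ u, u ∈ lev0K (A + vecMulVec a a) ↔ u ᵥ* A = 0 ∧ u ⬝ᵥ a = 0 := by
    intro u
    show u ᵥ* (A + vecMulVec a a) = 0 ↔ _
    rw [lev0_vm]
    constructor
    · intro hu
      have h1 := congrArg (· ⬝ᵥ τ) hu
      simp only [add_dotProduct, smul_dotProduct, zero_dotProduct, smul_eq_mul] at h1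
      rw [lev0_sym (lev0_altT h), hτ', zero_dotProduct, zero_add, dotProduct_comm a τ, ha,
        mul_one] at h1
      rw [h1, zero_smul, add_zero] at hu
      exact ⟨hu, h1⟩
    · rintro ⟨h1, h2⟩
      rw [h1, h2, zero_smul, add_zero]
  have hU : lev0K A = lev0K (A + vecMulVec a a) ∪ (· + τ) '' lev0K (A + vecMulVec a a) := by
    ext u
    constructor
    · intro hu
      have hu' : u ᵥ* A = 0 := hu
      rcases z2_cases (u ⬝ᵥ a) with h0 | h1
      · exact Or.inl ((hK u).2 ⟨hu', h0⟩)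
      · refine Or.inr ⟨u + τ, (hK _).2 ⟨?_, ?_⟩, ?_⟩
        · rw [add_vecMul, hu', hτ', add_zero]
        · rw [add_dotProduct, h1, ha]
          rfl
        · funext i
          simp [add_assoc, z2_add_self]
    · rintro (hu | ⟨w, hw, rfl⟩)
      · exact ((hK u).1 hu).1
      · show (w + τ) ᵥ* A = 0
        rw [add_vecMul, ((hK w).1 hw).1, hτ', add_zero]
  have hD : Disjoint (lev0K (A + vecMulVec a a)) ((· + τ) '' lev0K (A + vecMulVec a a)) := by
    rw [Set.disjoint_left]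
    rintro u hu ⟨w, hw, rfl⟩
    have h1 := ((hK _).1 hu).2
    rw [add_dotProduct, ((hK w).1 hw).2, ha, zero_add] at h1
    exact one_ne_zero h1
  have hN : (lev0K (A + vecMulVec a a)).ncard ≠ 0 := by
    refine Set.ncard_ne_zero_of_mem (a := 0) ?_
    show (0 : W → ZMod 2) ᵥ* _ = 0
    rw [zero_vecMul]
  have hc : (lev0K A).ncard = (lev0K (A + vecMulVec a a)).ncard * 2 := by
    conv_lhs => rw [hU]
    rw [Set.ncard_union_eq hD, Set.ncard_image_of_injective _ (add_left_injective τ)]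
    ring
  rw [hc, Nat.log_mul_base (by norm_num) hN]

open Classical in
/-- The matrices with `τ C τ = 1`. -/
lemma lev0_sum1 (F : ℕ → ℝ) :
    ∑ C ∈ Finset.univ.filter (fun C : Matrix W W (ZMod 2) => St τ C ∧ τ ⬝ᵥ C *ᵥ τ ≠ 0),
      F (Nat.log 2 (lev0K C).ncard) =
      ((Finset.univ.filter fun a : W → ZMod 2 => τ ⬝ᵥ a = 1).card : ℝ) *
        ∑ A ∈ AltS W, if τ ∈ lev0K A then F (Nat.log 2 (lev0K A).ncard - 1) else 0 := by
  rw [← Finset.sum_filter, ← nsmul_eq_mul, ← Finset.sum_const, ← Finset.sum_product']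
  have key : ∀ p ∈ (Finset.univ.filter fun a : W → ZMod 2 => τ ⬝ᵥ a = 1) ×ˢ
      (AltS W).filter (fun A => τ ∈ lev0K A), τ ᵥ* (p.2 + vecMulVec p.1 p.1) = p.1 := by
    intro p hp
    obtain ⟨h1, h2⟩ := Finset.mem_product.1 hp
    have h3 : τ ᵥ* p.2 = 0 := (Finset.mem_filter.1 h2).2
    rw [lev0_vm, h3, (Finset.mem_filter.1 h1).2, one_smul, zero_add]
  have one : ∀ C ∈ Finset.univ.filter
      (fun C : Matrix W W (ZMod 2) => St τ C ∧ τ ⬝ᵥ C *ᵥ τ ≠ 0), τ ⬝ᵥ (τ ᵥ* C) = 1 := by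
    intro C hC
    have h1 := (Finset.mem_filter.1 hC).2.2
    rw [dotProduct_mulVec, dotProduct_comm] at h1
    exact (z2_cases _).resolve_left h1
  symm
  refine Finset.sum_nbij' (fun p => p.2 + vecMulVec p.1 p.1) (fun C => (τ ᵥ* C, lev0P τ C))
    ?_ ?_ ?_ ?_ ?_
  · intro p hp
    obtain ⟨h1, h2⟩ := Finset.mem_product.1 hp
    refine Finset.mem_filter.2 ⟨Finset.mem_univ _,
      lev0_st (mem_AltS.1 (Finset.mem_filter.1 h2).1) (key p hp), ?_⟩
    rw [dotProduct_mulVec, key p hp, dotProduct_comm, (Finset.mem_filter.1 h1).2]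
    exact one_ne_zero
  · intro C hC
    refine Finset.mem_product.2 ⟨Finset.mem_filter.2 ⟨Finset.mem_univ _, one C hC⟩,
      Finset.mem_filter.2 ⟨mem_AltS.2 (lev0_alt (Finset.mem_filter.1 hC).2.1), ?_⟩⟩
    show τ ᵥ* lev0P τ C = 0
    rw [lev0P, lev0_vm, one C hC, one_smul]
    funext i
    exact z2_add_self _
  · intro p hp
    refine Prod.ext (key p hp) ?_
    show lev0P τ (p.2 + vecMulVec p.1 p.1) = p.2
    rw [lev0P, key p hp, add_assoc, lev0_vv, add_zero]
  · intro C _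
    show lev0P τ C + vecMulVec (τ ᵥ* C) (τ ᵥ* C) = C
    rw [lev0P, add_assoc, lev0_vv, add_zero]
  · intro p hp
    obtain ⟨h1, h2⟩ := Finset.mem_product.1 hp
    rw [lev0_half (mem_AltS.1 (Finset.mem_filter.1 h2).1) (Finset.mem_filter.1 h2).2
      (Finset.mem_filter.1 h1).2, Nat.add_sub_cancel]

lemma lev0_on : AltOn (⊤ : AddSubgroup (W → ZMod 2)) fun _ _ => 0 :=
  ⟨fun _ _ _ _ _ _ => (add_zero _).symm, fun _ _ _ _ _ _ => (add_zero _).symm, fun _ _ => rfl⟩

lemma lev0_top : Nat.card (⊤ : AddSubgroup (W → ZMod 2)) = 2 ^ Fintype.card W := by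
  rw [AddSubgroup.card_top, Nat.card_eq_fintype_card, Fintype.card_fun, ZMod.card]

lemma lev0_mt (e : ℕ → ℕ) (C : Matrix W W (ZMod 2)) : Mt e τ (lftM C) 0 ↔
    (τ ∈ lev0K C ∧ Fintype.card W = e 0) ∨
      (τ ∉ lev0K C ∧ τ ⬝ᵥ C *ᵥ τ ≠ 0 ∧ Fintype.card W = e 0 + 1) ∨
      (τ ∉ lev0K C ∧ τ ⬝ᵥ C *ᵥ τ = 0 ∧ Fintype.card W = e 0 + 2) := by
  have h0 : τ ∈ Lm (lftM C) 0 := by rw [Lm_zero]; trivial
  unfold Mt
  rw [lgm_zero, redM_lftM]
  by_cases h1 : τ ∈ lev0K C
  · rw [if_neg fun h => h.2 (lev0_mem.2 h1)]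
    simp [h1]
  · rw [if_pos ⟨h0, fun h => h1 (lev0_mem.1 h)⟩]
    by_cases h2 : τ ⬝ᵥ C *ᵥ τ = 0 <;> simp [h1, h2]

lemma lev0_q {C : Matrix W W (ZMod 2)} (h : τ ∈ lev0K C) : τ ⬝ᵥ C *ᵥ τ = 0 := by
  have h' : τ ᵥ* C = 0 := h
  rw [dotProduct_mulVec, h', zero_dotProduct]

open Classical in
lemma lev0_vl (e : ℕ → ℕ) (j : ℕ) (C : Matrix W W (ZMod 2)) : Vl e τ j 1 (lftM C) =
    if τ ∈ lev0K C then gv e j 1 (Nat.log 2 (lev0K C).ncard)
    else pv e j 1 (Nat.log 2 (lev0K C).ncard) := by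
  unfold Vl
  simp only [lev0_mem, lev0_lgm]

open Classical in
theorem a_lev0 (e : ℕ → ℕ) (j : ℕ) (hτ : τ ≠ 0) :
    ∑ C ∈ Finset.univ.filter (St τ), (if Mt e τ (lftM C) 0 then Vl e τ j 1 (lftM C) else 0) =
      (∑ x ∈ Finset.range (e 0 + 1), Pa (e 0) x * pv e j 1 x) *
        ((Finset.univ.filter fun C : Matrix W W (ZMod 2) =>
          St τ C ∧ Mt e τ (lftM C) 0).card : ℝ) := by
  obtain ⟨l, hl⟩ : ∃ l, Fintype.card W = l + 1 := by
    refine Nat.exists_eq_succ_of_ne_zero fun h0 => hτ ?_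
    have := Fintype.card_eq_zero_iff.1 h0
    exact Subsingleton.elim _ _
  have hU : Nat.card (⊤ : AddSubgroup (W → ZMod 2)) = 2 ^ (l + 1) := by rw [lev0_top, hl]
  have hin := fun F => alt_avg_in (lev0_on (W := W)) hU (AddSubgroup.mem_top τ) hτ F
  have hout := fun F => alt_avg_out (lev0_on (W := W)) hU (AddSubgroup.mem_top τ) hτ F
  simp only [lev0_rad] at hin hout
  rw [← Finset.sum_filter, Finset.filter_filter, Finset.card_eq_sum_ones, Nat.cast_sum,
    Nat.cast_one]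
  by_cases c0 : e 0 = l + 1
  · have hT : ∀ F : ℕ → ℝ, ∑ C ∈ Finset.univ.filter (fun C : Matrix W W (ZMod 2) =>
        St τ C ∧ Mt e τ (lftM C) 0), F (Nat.log 2 (lev0K C).ncard) =
        (AltS W).card * ((2 : ℝ)⁻¹ ^ l * ∑ x ∈ Finset.range (l + 1), Pa l x * F (x + 1)) := by
      intro F
      rw [← hin F, ← lev0_sum0 (τ := τ) fun S => if τ ∈ S then F (Nat.log 2 S.ncard) else 0,
        ← Finset.sum_filter, Finset.filter_filter]
      refine Finset.sum_congr (Finset.filter_congr fun C _ => ?_) fun _ _ => rfl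
      rw [lev0_mt, hl, c0]
      have := @lev0_q W _ _ τ C
      constructor
      · rintro ⟨h1, h2 | h2 | h2⟩
        · exact ⟨⟨h1, this h2.1⟩, h2.1⟩
        · omega
        · omega
      · rintro ⟨⟨h1, _⟩, h2⟩
        exact ⟨h1, Or.inl ⟨h2, rfl⟩⟩
    have h1 := hT fun _ => 1
    have h2 := hT (gv e j 1)
    simp only [mul_one, Pa_sum] at h1
    rw [gv_sum] at h2
    rw [h1, c0, Finset.sum_congr rfl (g := fun C => gv e j 1 (Nat.log 2 (lev0K C).ncard)), h2]
    · ring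
    · intro C hC
      have h3 := (Finset.mem_filter.1 hC).2.2
      rw [lev0_mt, hl, c0] at h3
      rw [lev0_vl, if_pos]
      rcases h3 with h3 | h3 | h3
      · exact h3.1
      · omega
      · omega
  have hV : ∀ C ∈ Finset.univ.filter (fun C : Matrix W W (ZMod 2) =>
      St τ C ∧ Mt e τ (lftM C) 0),
      Vl e τ j 1 (lftM C) = pv e j 1 (Nat.log 2 (lev0K C).ncard) := by
    intro C hC
    have h3 := (Finset.mem_filter.1 hC).2.2
    rw [lev0_mt, hl] at h3
    rw [lev0_vl, if_neg]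
    rcases h3 with h3 | h3 | h3
    · omega
    · exact h3.1
    · exact h3.1
  rw [Finset.sum_congr rfl hV]
  by_cases c1 : e 0 = l
  · have hT : ∀ F : ℕ → ℝ, ∑ C ∈ Finset.univ.filter (fun C : Matrix W W (ZMod 2) =>
        St τ C ∧ Mt e τ (lftM C) 0), F (Nat.log 2 (lev0K C).ncard) =
        ((Finset.univ.filter fun a : W → ZMod 2 => τ ⬝ᵥ a = 1).card : ℝ) *
        ((AltS W).card * ((2 : ℝ)⁻¹ ^ l * ∑ x ∈ Finset.range (l + 1), Pa l x * F x)) := by
      intro F
      have h1 := hin fun y => F (y - 1)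
      simp only [Nat.add_sub_cancel] at h1
      rw [← h1, ← lev0_sum1]
      refine Finset.sum_congr (Finset.filter_congr fun C _ => ?_) fun _ _ => rfl
      rw [lev0_mt, hl, c1]
      have := @lev0_q W _ _ τ C
      constructor
      · rintro ⟨h1, h2 | h2 | h2⟩
        · omega
        · exact ⟨h1, h2.2.1⟩
        · omega
      · rintro ⟨h1, h2⟩
        exact ⟨h1, Or.inr (Or.inl ⟨fun h => h2 (this h), h2, rfl⟩)⟩
    have h1 := hT fun _ => 1
    simp only [mul_one, Pa_sum] at h1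
    rw [h1, hT, c1]
    ring
  by_cases c2 : l = e 0 + 1
  · have hT : ∀ F : ℕ → ℝ, ∑ C ∈ Finset.univ.filter (fun C : Matrix W W (ZMod 2) =>
        St τ C ∧ Mt e τ (lftM C) 0), F (Nat.log 2 (lev0K C).ncard) =
        (AltS W).card * ((1 - (2 : ℝ)⁻¹ ^ l) *
          ∑ x ∈ Finset.range (e 0 + 1), Pa (e 0) x * F x) := by
      intro F
      have h1 := hout F
      rw [show l - 1 = e 0 by omega, show Finset.range l = Finset.range (e 0 + 1) by rw [c2]] at h1
      rw [← h1, ← lev0_sum0 (τ := τ) fun S => if τ ∈ S then 0 else F (Nat.log 2 S.ncard)]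
      simp only [← ite_not (τ ∈ _)]
      rw [← Finset.sum_filter, Finset.filter_filter]
      refine Finset.sum_congr (Finset.filter_congr fun C _ => ?_) fun _ _ => rfl
      rw [lev0_mt, hl, c2]
      constructor
      · rintro ⟨h1, h2 | h2 | h2⟩
        · omega
        · omega
        · exact ⟨⟨h1, h2.2.1⟩, h2.1⟩
      · rintro ⟨⟨h1, h2⟩, h3⟩
        exact ⟨h1, Or.inr (Or.inr ⟨h3, h2, rfl⟩)⟩
    have h1 := hT fun _ => 1
    simp only [mul_one, Pa_sum] at h1
    rw [h1, hT]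
    ring
  · have hE : (Finset.univ.filter fun C : Matrix W W (ZMod 2) =>
        St τ C ∧ Mt e τ (lftM C) 0) = ∅ := by
      refine Finset.filter_eq_empty_iff.2 fun C _ h => ?_
      have h3 := h.2
      rw [lev0_mt, hl] at h3
      omega
    rw [hE]
    simp

end Pool.Agent.Lib.MP_788af2_nt.AS
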