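import Pool.Agent.Lib.MP_a3f657_nt.BK.AAvg
import Pool.Agent.Lib.MP_a3f657_nt.BK.ALat

/-!
One step of the chain.
-/

set_option linter.unusedSectionVars false

namespace Pool.Agent.Lib.MP_788af2_nt.AS

open Pool.Agent.Lib.MP_a3f657_nt.Two Matrix

variable {W : Type} [Fintype W] [DecidableEq W] {τ : W → ZMod 2} {c : Matrix W W ℤ} {m : ℕ}

private lemma astep_pos (hτ : τ ≠ 0) (h : τ ∈ Lm c m) : 1 ≤ lgm c m := by
  by_contra h0
  have h1 : lgm c m = 0 := by omega
  have h2 := card_Lm c m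
  rw [h1, pow_zero] at h2
  have h3 := (Nat.card_eq_one_iff_unique.1 h2).1
  exact hτ (congrArg Subtype.val (h3.elim (⟨τ, h⟩ : Lm c m) ⟨0, zero_mem _⟩))

lemma Vl_abs (e : ℕ → ℕ) (hτ : τ ≠ 0) (j m : ℕ) (c : Matrix W W ℤ) : |Vl e τ j m c| ≤ 1 := by
  unfold Vl
  split_ifs with h
  · have := gv_mem e j m (astep_pos hτ h)
    rw [abs_of_nonneg this.1]
    exact this.2
  · have := pv_mem e j m (lgm c m)
    rw [abs_of_nonneg this.1]
    exact this.2

lemma Vl_zero (e : ℕ → ℕ) (τ : W → ZMod 2) (m : ℕ) (c : Matrix W W ℤ) : Vl e τ 0 m c = 1 := by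
  unfold Vl
  split_ifs with h
  · exact gv_zero e m _
  · rfl

private lemma astep_pv (e : ℕ → ℕ) (j m l : ℕ) : pv e (j + 1) m l =
    if l = e m then ∑ x ∈ Finset.range (l + 1), Pa l x * pv e j (m + 1) x else 0 := rfl

private lemma astep_gv (e : ℕ → ℕ) (j m l : ℕ) :
    (2 : ℝ)⁻¹ ^ l * ∑ x ∈ Finset.range (l + 1), Pa l x *
        (if l + 1 = e m then gv e j (m + 1) (x + 1) else 0) +
      (1 - (2 : ℝ)⁻¹ ^ l) * ∑ x ∈ Finset.range l, Pa (l - 1) x *
        (if l + 1 = e m + 2 then pv e j (m + 1) x else 0) = gv e (j + 1) m (l + 1) := by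
  have h2 : (2 : ℝ) / 2 ^ (l + 1) = (2 : ℝ)⁻¹ ^ l := by
    rw [inv_pow, pow_succ]
    field_simp
  have hA : ∑ x ∈ Finset.range (l + 1), Pa l x *
      (if l + 1 = e m then gv e j (m + 1) (x + 1) else 0) = pv e (j + 1) m (l + 1) := by
    rw [astep_pv]
    by_cases h : l + 1 = e m
    · simp only [if_pos h]
      exact gv_sum e j (m + 1) l
    · simp [if_neg h]
  rw [hA]
  conv_rhs => unfold gv
  rw [h2, add_comm]
  congr 1
  rcases l with _ | l
  · simp
  · congr 1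
    have h3 : l + 1 + 1 - 2 = l := by omega
    rw [h3, astep_pv, Nat.add_sub_cancel]
    by_cases h : l = e m
    · have h' : l + 1 + 1 = e m + 2 := by omega
      simp only [if_pos h, if_pos h']
    · simp [h]

open Classical in
theorem a_step (e : ℕ → ℕ) (j : ℕ) (hτ : τ ≠ 0) (hm : 1 ≤ m) (h : Good c m) :
    ∑ t ∈ AltS W, (if Mt e τ (c + (2 : ℤ) ^ m • lftM t) m then
      Vl e τ j (m + 1) (c + (2 : ℤ) ^ m • lftM t) else 0) =
      (AltS W).card * Vl e τ (j + 1) m c := by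
  obtain ⟨b, hb, hr⟩ := h.form
  have hL : ∀ t : Matrix W W (ZMod 2), Lm (c + (2 : ℤ) ^ m • lftM t) m = Lm c m := fun t =>
    (cg_shift c m (lftM t)).lm le_rfl
  have hl : ∀ t : Matrix W W (ZMod 2), lgm (c + (2 : ℤ) ^ m • lftM t) m = lgm c m := fun t => by
    unfold lgm
    rw [hL t]
  have hmem : ∀ t : Matrix W W (ZMod 2),
      τ ∈ Lm (c + (2 : ℤ) ^ m • lftM t) (m + 1) ↔ τ ∈ radT (Lm c m) b t := fun t => by
    rw [← hr t]
    rfl
  have hlg : ∀ t : Matrix W W (ZMod 2), lgm (c + (2 : ℤ) ^ m • lftM t) (m + 1) =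
      Nat.log 2 (radT (Lm c m) b t).ncard := fun t => by
    unfold lgm
    rw [← hr t, ← Nat.card_coe_set_eq]
    rfl
  have hm0 : m ≠ 0 := by omega
  have hMt : ∀ t : Matrix W W (ZMod 2), Mt e τ (c + (2 : ℤ) ^ m • lftM t) m ↔
      lgm c m = e m + if τ ∈ Lm c m ∧ τ ∉ radT (Lm c m) b t then 2 else 0 := fun t => by
    unfold Mt
    rw [hl t]
    simp only [hL t, hmem t, hm0, false_and, if_false]
  have hVl : ∀ t : Matrix W W (ZMod 2), Vl e τ j (m + 1) (c + (2 : ℤ) ^ m • lftM t) =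
      if τ ∈ radT (Lm c m) b t then gv e j (m + 1) (Nat.log 2 (radT (Lm c m) b t).ncard)
      else pv e j (m + 1) (Nat.log 2 (radT (Lm c m) b t).ncard) := fun t => by
    unfold Vl
    rw [hlg t]
    simp only [hmem t]
  have hc := card_Lm c m
  by_cases hτL : τ ∈ Lm c m
  · obtain ⟨l, hl'⟩ : ∃ l, lgm c m = l + 1 := ⟨lgm c m - 1, by have := astep_pos hτ hτL; omega⟩
    rw [hl'] at hc
    have h1 := alt_avg_in hb hc hτL hτ fun x => if l + 1 = e m then gv e j (m + 1) x else 0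
    have h2 := alt_avg_out hb hc hτL hτ fun x => if l + 1 = e m + 2 then pv e j (m + 1) x else 0
    have h3 : Vl e τ (j + 1) m c = gv e (j + 1) m (l + 1) := by
      unfold Vl
      rw [if_pos hτL, hl']
    rw [h3, ← astep_gv, mul_add, ← h1, ← h2, ← Finset.sum_add_distrib]
    refine Finset.sum_congr rfl fun t _ => ?_
    rw [hVl t]
    by_cases ht : τ ∈ radT (Lm c m) b t
    · have h4 : Mt e τ (c + (2 : ℤ) ^ m • lftM t) m ↔ l + 1 = e m := by
        rw [hMt t, hl', if_neg fun hh => hh.2 ht, add_zero]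
      simp only [if_pos ht, add_zero, h4]
    · have h4 : Mt e τ (c + (2 : ℤ) ^ m • lftM t) m ↔ l + 1 = e m + 2 := by
        rw [hMt t, hl', if_pos ⟨hτL, ht⟩]
      simp only [if_neg ht, zero_add, h4]
  · have h1 := alt_avg hb hc fun x => if lgm c m = e m then pv e j (m + 1) x else 0
    have h3 : Vl e τ (j + 1) m c = ∑ x ∈ Finset.range (lgm c m + 1), Pa (lgm c m) x *
        (if lgm c m = e m then pv e j (m + 1) x else 0) := by
      unfold Vl
      rw [if_neg hτL, astep_pv]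
      by_cases h : lgm c m = e m
      · simp only [if_pos h]
      · simp [if_neg h]
    rw [h3, ← h1]
    refine Finset.sum_congr rfl fun t _ => ?_
    have ht : τ ∉ radT (Lm c m) b t := fun hh => hτL hh.1
    have h4 : Mt e τ (c + (2 : ℤ) ^ m • lftM t) m ↔ lgm c m = e m := by
      rw [hMt t, if_neg fun hh => hτL hh.1, add_zero]
    rw [hVl t]
    simp only [if_neg ht, h4]

end Pool.Agent.Lib.MP_788af2_nt.AS
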