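import Pool.Agent.Lib.MP_a3f657_nt.BK.ADet
import Pool.Agent.Lib.MP_a3f657_nt.BK.AStep
import Pool.Agent.Lib.MP_a3f657_nt.BK.ALev0

/-!
The algebraic part.
-/

set_option linter.unusedSectionVars false

namespace Pool.Agent.Lib.MP_788af2_nt.AS

open Pool.Agent.Lib.MP_a3f657_nt.Two Matrix

namespace AMain

variable {W : Type} [Fintype W] [DecidableEq W] {τ : W → ZMod 2} {x y : Matrix W W ℤ} {m : ℕ}

/-- All levels below `m` are good and have the prescribed rank. -/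
private def Ok (e : ℕ → ℕ) (τ : W → ZMod 2) (x : Matrix W W ℤ) (m : ℕ) : Prop :=
  (∀ i < m, Mt e τ x i) ∧ ∀ i, 1 ≤ i → i < m → Good x i

open Classical in
/-- The potential at level `m`. -/
private noncomputable def psi (e : ℕ → ℕ) (τ : W → ZMod 2) (j m : ℕ) (x : Matrix W W ℤ) : ℝ :=
  if Ok e τ x m then Vl e τ j m x else 0

private lemma cg_symm (h : Cg m x y) : Cg m y x := fun i j => by
  have := (dvd_neg).2 (h i j)
  rwa [neg_sub] at this

private lemma ok_of_cg (e : ℕ → ℕ) (h : Cg m x y) (hx : Ok e τ x m) : Ok e τ y m :=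
  ⟨fun i hi => ((h.mono (Nat.succ_le_of_lt hi)).mt e).1 (hx.1 i hi),
    fun i h1 hi => (h.mono (Nat.succ_le_of_lt hi)).good (hx.2 i h1 hi)⟩

private lemma ok_cg (e : ℕ → ℕ) (h : Cg m x y) : Ok e τ x m ↔ Ok e τ y m :=
  ⟨ok_of_cg e h, ok_of_cg e (cg_symm h)⟩

private lemma psi_cg (e : ℕ → ℕ) (j : ℕ) (h : Cg m x y) : psi e τ j m x = psi e τ j m y := by
  unfold psi
  rw [h.vl e j]
  by_cases hx : Ok e τ x m
  · rw [if_pos hx, if_pos (ok_of_cg e h hx)]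
  · rw [if_neg hx, if_neg (fun hy => hx (ok_of_cg e (cg_symm h) hy))]

private lemma psi_abs (e : ℕ → ℕ) (hτ : τ ≠ 0) (j m : ℕ) (x : Matrix W W ℤ) :
    |psi e τ j m x| ≤ 1 := by
  unfold psi
  split_ifs
  · exact Vl_abs e hτ j m x
  · simp

private lemma ok_succ (e : ℕ → ℕ) (hm : 1 ≤ m) :
    Ok e τ x (m + 1) ↔ Ok e τ x m ∧ Good x m ∧ Mt e τ x m := by
  constructor
  · intro h
    exact ⟨⟨fun i hi => h.1 i (by omega), fun i h1 hi => h.2 i h1 (by omega)⟩,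
      h.2 m hm (by omega), h.1 m (by omega)⟩
  · rintro ⟨h, hg, hm'⟩
    refine ⟨fun i hi => ?_, fun i h1 hi => ?_⟩
    · rcases Nat.lt_succ_iff_lt_or_eq.1 hi with hi | rfl
      · exact h.1 i hi
      · exact hm'
    · rcases Nat.lt_succ_iff_lt_or_eq.1 hi with hi | rfl
      · exact h.2 i h1 hi
      · exact hg

private lemma quad_even {t : Matrix W W (ZMod 2)} (ht : Alt t) (v : W → ℤ) :
    (2 : ℤ) ∣ (v ᵥ* lftM t) ⬝ᵥ v := by
  have h := Alt.quad ht (red v)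
  have h2 : (((v ᵥ* lftM t) ⬝ᵥ v : ℤ) : ZMod 2) = red v ⬝ᵥ t *ᵥ red v := by
    rw [dotProduct_mulVec]
    simp [dotProduct, vecMul, red, lftM]
  rw [h] at h2
  exact_mod_cast (ZMod.intCast_zmod_eq_zero_iff_dvd _ 2).1 h2

private lemma good_shift {t : Matrix W W (ZMod 2)} (ht : Alt t) :
    Good (x + (2 : ℤ) ^ m • lftM t) m ↔ Good x m := by
  have hc : Cg m (x + (2 : ℤ) ^ m • lftM t) x := cg_shift x m (lftM t)
  unfold Good
  rw [hc.lm le_rfl, hc.transpose.lm le_rfl, hc.km le_rfl]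
  refine and_congr_right fun _ => forall₂_congr fun v _ => ?_
  obtain ⟨k, hk⟩ := quad_even ht v
  rw [vecMul_add, add_dotProduct, vecMul_smul, smul_dotProduct, hk, smul_eq_mul, ← mul_assoc,
    ← pow_succ]
  exact dvd_add_left (dvd_mul_right _ _)

open Classical in
private lemma psi_avg (e : ℕ → ℕ) (j : ℕ) (hτ : τ ≠ 0) (hm : 1 ≤ m) (x : Matrix W W ℤ) :
    ∑ t ∈ AltS W, psi e τ j (m + 1) (x + (2 : ℤ) ^ m • lftM t) =
      (AltS W).card * if Good x m then psi e τ (j + 1) m x else 0 := by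
  by_cases h : Ok e τ x m ∧ Good x m
  · rw [if_pos h.2, psi, if_pos h.1, ← a_step e j hτ hm h.2]
    refine Finset.sum_congr rfl fun t ht => ?_
    have h1 := (ok_cg (τ := τ) e (cg_shift x m (lftM t))).2 h.1
    have h2 := (good_shift (mem_AltS.1 ht)).2 h.2
    unfold psi
    by_cases h3 : Mt e τ (x + (2 : ℤ) ^ m • lftM t) m
    · rw [if_pos h3, if_pos ((ok_succ e hm).2 ⟨h1, h2, h3⟩)]
    · rw [if_neg h3, if_neg (fun h4 => h3 ((ok_succ e hm).1 h4).2.2)]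
  · have h0 : (if Good x m then psi e τ (j + 1) m x else 0) = 0 := by
      split_ifs with hg
      · rw [psi, if_neg (fun h1 => h ⟨h1, hg⟩)]
      · rfl
    rw [h0, mul_zero]
    refine Finset.sum_eq_zero fun t ht => ?_
    rw [psi, if_neg]
    intro h4
    obtain ⟨h1, h2, -⟩ := (ok_succ e hm).1 h4
    exact h ⟨(ok_cg e (cg_shift x m (lftM t))).1 h1, (good_shift (mem_AltS.1 ht)).1 h2⟩

private lemma lm_of_good (hS : St τ (redM x)) (hm : 1 ≤ m) (h : ∀ i, 1 ≤ i → i < m → Good x i) :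
    Lm x m = Lm xᵀ m := by
  obtain ⟨k, rfl⟩ : ∃ k, m = k + 1 := ⟨m - 1, by omega⟩
  rcases Nat.eq_zero_or_pos k with rfl | hk
  · exact hS.lm_one
  · exact (h k hk (by omega)).succ

private lemma all_good (hS : St τ (redM x)) (J : ℕ)
    (h : ∀ i < J, ¬ (Lm x (i + 1) = Lm xᵀ (i + 1) ∧ ¬ Good x (i + 1))) :
    ∀ i, 1 ≤ i → i < J + 1 → Good x i := by
  intro i
  induction i using Nat.strong_induction_on with
  | _ i ih =>
    intro h1 hi
    obtain ⟨k, rfl⟩ : ∃ k, i = k + 1 := ⟨i - 1, by omega⟩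
    by_contra hg
    exact h k (by omega) ⟨lm_of_good hS h1 fun l hl hl' => ih l hl' hl (by omega), hg⟩

open Classical in
private lemma ncard_eq_sum {X : Type} [Fintype X] (p : X → Prop) :
    ({ξ | p ξ}.ncard : ℝ) = ∑ ξ, if p ξ then (1 : ℝ) else 0 := by
  rw [Finset.sum_boole, ← Set.ncard_coe_finset]
  congr 2
  ext ξ
  simp

variable {I : Type} [Fintype I] [DecidableEq I]

private lemma step (e : ℕ → ℕ) {c : G I → Matrix W W ℤ} {d : G I → ℕ → ℕ} {J : ℕ} {η : ℝ}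
    (hτ : τ ≠ 0) (hS : ∀ ξ, St τ (redM (c ξ))) (hI : ∀ ξ, Itf (c ξ) τ (d ξ) (J + 1))
    (hV : Inv c J η) (j : ℕ) (h1 : 1 ≤ m) (h2 : m ≤ J) :
    |∑ ξ, psi e τ j (m + 1) (c ξ) - ∑ ξ, psi e τ (j + 1) m (c ξ)| ≤
      (1 + 2 ^ Fintype.card W) * η * Fintype.card (G I) := by
  classical
  have hN : (0 : ℝ) < (AltS W).card := by exact_mod_cast AltS_pos
  have ha : |∑ ξ, (if Good (c ξ) m then psi e τ (j + 1) m (c ξ) else 0) -
      ∑ ξ, psi e τ j (m + 1) (c ξ)| ≤ η * Fintype.card (G I) := by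
    refine le_of_mul_le_mul_left ?_ hN
    have h3 : ((AltS W).card : ℝ) * (∑ ξ, (if Good (c ξ) m then psi e τ (j + 1) m (c ξ) else 0) -
        ∑ ξ, psi e τ j (m + 1) (c ξ)) = ∑ t ∈ AltS W,
        (∑ ξ, psi e τ j (m + 1) (c ξ + (2 : ℤ) ^ m • lftM t) - ∑ ξ, psi e τ j (m + 1) (c ξ)) := by
      rw [Finset.sum_sub_distrib, Finset.sum_comm, Finset.sum_const, nsmul_eq_mul, mul_sub,
        Finset.mul_sum]
      congr 1
      refine Finset.sum_congr rfl fun ξ _ => ?_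
      convert (psi_avg e j hτ h1 (c ξ)).symm
    rw [← abs_of_pos hN, ← abs_mul, h3, abs_of_pos hN]
    refine (Finset.abs_sum_le_sum_abs _ _).trans ?_
    rw [← nsmul_eq_mul]
    refine Finset.sum_le_card_nsmul _ _ _ fun t ht => ?_
    exact hV m h1 h2 t (mem_AltS.1 ht) _ (psi_abs e hτ j (m + 1)) fun x y h => psi_cg e j h
  have hb : |∑ ξ, (if Good (c ξ) m then psi e τ (j + 1) m (c ξ) else 0) -
      ∑ ξ, psi e τ (j + 1) m (c ξ)| ≤ 2 ^ Fintype.card W * η * Fintype.card (G I) := by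
    refine le_trans ?_ (few_bad hτ hI hV h1 h2)
    rw [ncard_eq_sum, ← Finset.sum_sub_distrib]
    refine (Finset.abs_sum_le_sum_abs _ _).trans (Finset.sum_le_sum fun ξ _ => ?_)
    by_cases hg : Good (c ξ) m
    · simp [hg]
    · by_cases ho : Ok e τ (c ξ) m
      · rw [if_neg hg, if_pos ⟨lm_of_good (hS ξ) h1 ho.2, hg⟩, zero_sub, abs_neg]
        exact psi_abs e hτ _ _ _
      · rw [if_neg hg, psi, if_neg ho, sub_zero, abs_zero]
        split_ifs <;> norm_num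
  have := abs_sub_le (∑ ξ, psi e τ j (m + 1) (c ξ))
    (∑ ξ, (if Good (c ξ) m then psi e τ (j + 1) m (c ξ) else 0)) (∑ ξ, psi e τ (j + 1) m (c ξ))
  rw [abs_sub_comm] at ha
  linarith

private lemma tele (e : ℕ → ℕ) {c : G I → Matrix W W ℤ} {d : G I → ℕ → ℕ} {J : ℕ} {η : ℝ}
    (hτ : τ ≠ 0) (hS : ∀ ξ, St τ (redM (c ξ))) (hI : ∀ ξ, Itf (c ξ) τ (d ξ) (J + 1))
    (hV : Inv c J η) (k : ℕ) (hk : k ≤ J) :
    |∑ ξ, psi e τ (J - k) (k + 1) (c ξ) - ∑ ξ, psi e τ J 1 (c ξ)| ≤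
      k * ((1 + 2 ^ Fintype.card W) * η * Fintype.card (G I)) := by
  induction k with
  | zero => simp
  | succ k ih =>
    have h1 := ih (by omega)
    have h2 := step e hτ hS hI hV (J - (k + 1)) (m := k + 1) (by omega) hk
    rw [show J - (k + 1) + 1 = J - k by omega] at h2
    have := abs_sub_le (∑ ξ, psi e τ (J - (k + 1)) (k + 1 + 1) (c ξ))
      (∑ ξ, psi e τ (J - k) (k + 1) (c ξ)) (∑ ξ, psi e τ J 1 (c ξ))
    push_cast
    linarith

private lemma base (e : ℕ → ℕ) {A c : G I → Matrix W W ℤ} {d : G I → ℕ → ℕ} {J : ℕ}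
    (h : ∀ ξ, Ach A ξ = 2 • c ξ) (hτ : τ ≠ 0) (hO : Ont (fun g => redM (A g)) τ)
    (hS : ∀ ξ, St τ (redM (c ξ))) (hI : ∀ ξ, Itf (c ξ) τ (d ξ) (J + 1)) :
    ∑ ξ, psi e τ J 1 (c ξ) =
      (∏ m ∈ Finset.range J, Pa (e m) (e (m + 1))) * {ξ | d ξ 0 = 2 ^ e 0}.ncard := by
  classical
  have hc : ∀ ξ, Cg 1 (c ξ) (lftM (redM (c ξ))) := fun ξ => cg_one.2 (redM_lftM _).symm
  have hN : (0 : ℝ) < (Finset.univ.filter (St τ)).card := by
    exact_mod_cast Finset.card_pos.2 ⟨redM (c 0), by simpa using hS 0⟩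
  have h1 := sum_lev0 h hO (hS 0)
    (fun C => if Mt e τ (lftM C) 0 then Vl e τ J 1 (lftM C) else 0)
  have h2 := sum_lev0 h hO (hS 0) (fun C => if Mt e τ (lftM C) 0 then 1 else 0)
  have h3 := a_lev0 e J hτ
  have h4 := pv_sum e J 0
  simp only [zero_add] at h4
  have h5 : ∑ ξ, psi e τ J 1 (c ξ) = ∑ ξ, if Mt e τ (lftM (redM (c ξ))) 0 then
      Vl e τ J 1 (lftM (redM (c ξ))) else 0 := by
    refine Finset.sum_congr rfl fun ξ _ => ?_
    rw [psi_cg e J (hc ξ), psi]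
    refine if_congr ⟨fun h => h.1 0 one_pos, fun h => ⟨fun i hi => ?_, fun i hi hi' => ?_⟩⟩ rfl rfl
    · rwa [Nat.lt_one_iff.1 hi]
    · omega
  have h6 : ({ξ | d ξ 0 = 2 ^ e 0}.ncard : ℝ) =
      ∑ ξ, if Mt e τ (lftM (redM (c ξ))) 0 then (1 : ℝ) else 0 := by
    rw [ncard_eq_sum]
    refine Finset.sum_congr rfl fun ξ _ => ?_
    have : d ξ 0 = 2 ^ e 0 ↔ Mt e τ (lftM (redM (c ξ))) 0 :=
      ((hI ξ).mt_zero e hτ (hS ξ)).trans ((hc ξ).mt e)
    simp only [this]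
  have h7 : ∑ C ∈ Finset.univ.filter (St τ), (if Mt e τ (lftM C) 0 then (1 : ℝ) else 0) =
      ((Finset.univ.filter fun C : Matrix W W (ZMod 2) =>
          St τ C ∧ Mt e τ (lftM C) 0).card : ℝ) := by
    rw [Finset.sum_boole, Finset.filter_filter]
  refine mul_right_cancel₀ hN.ne' ?_
  rw [h5, h6, mul_assoc, ← h4]
  have h1' : (∑ ξ, if Mt e τ (lftM (redM (c ξ))) 0 then Vl e τ J 1 (lftM (redM (c ξ))) else 0) *
      ((Finset.univ.filter (St τ)).card : ℝ) = Fintype.card (G I) *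
      ∑ C ∈ Finset.univ.filter (St τ), if Mt e τ (lftM C) 0 then Vl e τ J 1 (lftM C) else 0 := by
    convert h1
  have h2' : (∑ ξ, if Mt e τ (lftM (redM (c ξ))) 0 then (1 : ℝ) else 0) *
      ((Finset.univ.filter (St τ)).card : ℝ) = Fintype.card (G I) *
      ∑ C ∈ Finset.univ.filter (St τ), if Mt e τ (lftM C) 0 then (1 : ℝ) else 0 := by
    convert h2
  have h3' : (∑ C ∈ Finset.univ.filter (St τ),
      if Mt e τ (lftM C) 0 then Vl e τ J 1 (lftM C) else 0) =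
      (∑ x ∈ Finset.range (e 0 + 1), Pa (e 0) x * pv e J 1 x) *
        ((Finset.univ.filter fun C : Matrix W W (ZMod 2) =>
          St τ C ∧ Mt e τ (lftM C) 0).card : ℝ) := by
    convert h3
  rw [h1', h2', h3', h7]
  ring

private lemma top (e : ℕ → ℕ) {c : G I → Matrix W W ℤ} {d : G I → ℕ → ℕ} {J : ℕ} {η : ℝ}
    (hτ : τ ≠ 0) (hS : ∀ ξ, St τ (redM (c ξ))) (hI : ∀ ξ, Itf (c ξ) τ (d ξ) (J + 1))
    (hV : Inv c J η) :
    |({ξ | ∀ m ≤ J, d ξ m = 2 ^ e m}.ncard : ℝ) - ∑ ξ, psi e τ 0 (J + 1) (c ξ)| ≤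
      J * (2 ^ Fintype.card W * η * Fintype.card (G I)) := by
  classical
  have hb : ∑ i ∈ Finset.range J,
      ({ξ | Lm (c ξ) (i + 1) = Lm (c ξ)ᵀ (i + 1) ∧ ¬ Good (c ξ) (i + 1)}.ncard : ℝ) ≤
      J * (2 ^ Fintype.card W * η * Fintype.card (G I)) := by
    have := Finset.sum_le_card_nsmul (Finset.range J) _ _ fun i hi =>
      few_bad (m := i + 1) hτ hI hV (by omega) (by have := Finset.mem_range.1 hi; omega)
    rwa [Finset.card_range, nsmul_eq_mul] at this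
  refine le_trans ?_ hb
  simp only [ncard_eq_sum]
  rw [Finset.sum_comm, ← Finset.sum_sub_distrib]
  refine (Finset.abs_sum_le_sum_abs _ _).trans (Finset.sum_le_sum fun ξ _ => ?_)
  have hn : ∀ (p : Prop) (_ : Decidable p), (0 : ℝ) ≤ if p then 1 else 0 := fun p _ => by
    split_ifs <;> norm_num
  by_cases h : ∀ i < J, ¬ (Lm (c ξ) (i + 1) = Lm (c ξ)ᵀ (i + 1) ∧ ¬ Good (c ξ) (i + 1))
  · have hg := all_good (hS ξ) J h
    have hiff : ∀ m ≤ J, (d ξ m = 2 ^ e m ↔ Mt e τ (c ξ) m) := fun m hm => by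
      rcases Nat.eq_zero_or_pos m with rfl | h1
      · exact (hI ξ).mt_zero e hτ (hS ξ)
      · exact (hI ξ).mt_pos e hτ h1 hm (hg m h1 (by omega))
    have h0 : (∀ m ≤ J, d ξ m = 2 ^ e m) ↔ Ok e τ (c ξ) (J + 1) :=
      ⟨fun h1 => ⟨fun i hi => (hiff i (by omega)).1 (h1 i (by omega)), hg⟩,
        fun h1 i hi => (hiff i hi).2 (h1.1 i (by omega))⟩
    rw [psi, Vl_zero]
    simp only [h0, sub_self, abs_zero]
    exact Finset.sum_nonneg fun i _ => hn _ _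
  · push Not at h
    obtain ⟨i, hi, h⟩ := h
    refine le_trans ?_ (Finset.single_le_sum (fun i _ => hn _ _) (Finset.mem_range.2 hi))
    rw [if_pos h, psi, Vl_zero]
    split_ifs <;> norm_num

end AMain

theorem algB (e : ℕ → ℕ) (J r : ℕ) (η : ℝ) (hη : 0 < η) : ∃ R : ℕ, AlgB e J η r R := by
  have hK : (0 : ℝ) < J * (1 + 2 * 2 ^ r) + 1 := by positivity
  obtain ⟨R, hR⟩ := exists_inv J r (η / (J * (1 + 2 * 2 ^ r) + 1)) (div_pos hη hK)
  refine ⟨R, fun I _ _ W _ _ A c τ d hW hA hτ hO hC hI => ?_⟩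
  have hV := hR I W A c hW hA hC
  have hS := st_of_itf hA hτ hO hI
  have h1 := AMain.top e hτ hS hI hV
  have h2 := AMain.tele e hτ hS hI hV J le_rfl
  rw [Nat.sub_self, AMain.base e hA hτ hO hS hI] at h2
  refine ((abs_sub_le _ _ _).trans (add_le_add h1 h2)).trans ?_
  obtain ⟨δ, hδ⟩ : ∃ δ, δ = η / (J * (1 + 2 * 2 ^ r) + 1) := ⟨_, rfl⟩
  rw [← hδ]
  have hδ0 : 0 < δ := hδ ▸ div_pos hη hK
  have hη' : η = δ * (J * (1 + 2 * 2 ^ r) + 1) := by rw [hδ, div_mul_cancel₀ _ hK.ne']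
  have hp : (2 : ℝ) ^ Fintype.card W ≤ 2 ^ r := pow_le_pow_right₀ one_le_two hW
  have hq : (0 : ℝ) ≤ J * δ * Fintype.card (G I) := by positivity
  have hs : (0 : ℝ) ≤ δ * Fintype.card (G I) := by positivity
  rw [hη']
  nlinarith [mul_le_mul_of_nonneg_left hp hq]

end Pool.Agent.Lib.MP_788af2_nt.AS
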