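import Pool.Agent.Lib.MP_a3f657_nt.BK.ADefs

/-!
The corank law of alternating matrices: identities.
-/

set_option linter.unusedSectionVars false

namespace Pool.Agent.Lib.MP_788af2_nt.AS

open Pool.Agent.Lib.MP_a3f657_nt.Two Matrix

lemma apf_et1_succ (n : ℕ) : et1 (n + 1) = et1 n * (1 - (2 : ℝ)⁻¹ ^ (n + 1)) := by
  unfold et1; rw [Finset.prod_range_succ]

lemma apf_et2_succ (n : ℕ) : et2 (n + 1) = et2 n * (1 - (4 : ℝ)⁻¹ ^ (n + 1)) := by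
  unfold et2; rw [Finset.prod_range_succ]

lemma apf_et1_zero : et1 0 = 1 := by simp [et1]

lemma apf_et2_zero : et2 0 = 1 := by simp [et2]

lemma apf_lt1 (n : ℕ) : 0 < 1 - (2 : ℝ)⁻¹ ^ (n + 1) := by
  have : (2 : ℝ)⁻¹ ^ (n + 1) < 1 := pow_lt_one₀ (by norm_num) (by norm_num) (by omega)
  linarith

lemma apf_lt2 (n : ℕ) : 0 < 1 - (4 : ℝ)⁻¹ ^ (n + 1) := by
  have : (4 : ℝ)⁻¹ ^ (n + 1) < 1 := pow_lt_one₀ (by norm_num) (by norm_num) (by omega)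
  linarith

lemma apf_et1_pos (n : ℕ) : 0 < et1 n := Finset.prod_pos fun i _ => apf_lt1 i

lemma apf_et2_pos (n : ℕ) : 0 < et2 n := Finset.prod_pos fun i _ => apf_lt2 i

lemma apf_eq {n m : ℕ} (i : ℕ) (h : n = m + 2 * i) :
    Pa n m = (2 : ℝ)⁻¹ ^ m.choose 2 * et1 n / (et1 m * et2 i) := by
  unfold Pa
  rw [if_pos (by omega), show (n - m) / 2 = i by omega]

lemma apf_odd {n m : ℕ} (h : (n + m) % 2 = 1) : Pa n m = 0 := by
  unfold Pa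
  rw [if_neg (by omega)]

lemma apf_ch (m : ℕ) : (m + 1).choose 2 = m.choose 2 + m := by
  rw [Nat.choose_succ_succ' m 1, Nat.choose_one_right, add_comm]

lemma apf_pow (m k : ℕ) : (2 : ℝ)⁻¹ ^ (m + 2 * k) = (2 : ℝ)⁻¹ ^ m * (4 : ℝ)⁻¹ ^ k := by
  rw [pow_add, pow_mul]; norm_num

lemma Pa_nonneg (n m : ℕ) : 0 ≤ Pa n m := by
  unfold Pa
  split_ifs
  · have := apf_et1_pos n
    have := apf_et1_pos m
    have := apf_et2_pos ((n - m) / 2)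
    positivity
  · exact le_rfl

lemma Pa_zero_zero : Pa 0 0 = 1 := by
  rw [apf_eq 0 rfl, apf_et1_zero, apf_et2_zero]; simp

lemma Pa_of_lt {n m : ℕ} (h : n < m) : Pa n m = 0 := by
  unfold Pa
  rw [if_neg (by omega)]

lemma Pa_self (n : ℕ) : Pa n n = (2 : ℝ)⁻¹ ^ n.choose 2 := by
  have := (apf_et1_pos n).ne'
  rw [apf_eq (n := n) (m := n) 0 rfl, apf_et2_zero]
  field_simp

/-- Adding one row and column. -/
lemma Pa_bd (n m : ℕ) : Pa (n + 1) (m + 1) =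
    Pa n m * (2 : ℝ)⁻¹ ^ m + Pa n (m + 2) * (1 - (2 : ℝ)⁻¹ ^ (m + 2)) := by
  rcases Nat.lt_or_ge n m with h | h
  · rw [Pa_of_lt h, Pa_of_lt (show n + 1 < m + 1 by omega), Pa_of_lt (show n < m + 2 by omega)]
    simp
  rcases Nat.mod_two_eq_zero_or_one (n + m) with hp | hp
  swap
  · rw [apf_odd hp, apf_odd (show (n + 1 + (m + 1)) % 2 = 1 by omega),
      apf_odd (show (n + (m + 2)) % 2 = 1 by omega)]
    simp
  rcases Nat.eq_or_lt_of_le h with h' | h'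
  · subst h'
    rw [Pa_self, Pa_self, Pa_of_lt (show m < m + 2 by omega), apf_ch, pow_add]
    simp
  obtain ⟨k, rfl⟩ : ∃ k, n = m + 2 * k + 2 := ⟨(n - m) / 2 - 1, by omega⟩
  rw [apf_eq (k + 1) (show m + 2 * k + 2 + 1 = m + 1 + 2 * (k + 1) by ring),
    apf_eq (k + 1) (show m + 2 * k + 2 = m + 2 * (k + 1) by ring),
    apf_eq k (show m + 2 * k + 2 = m + 2 + 2 * k by ring),
    apf_et1_succ (m + 2 * k + 2), apf_et1_succ (m + 1), apf_et1_succ m, apf_et2_succ k,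
    apf_ch (m + 1), apf_ch m]
  have h1 := (apf_lt1 m).ne'
  have h2 := (apf_lt1 (m + 1)).ne'
  have h3 := (apf_lt2 k).ne'
  have h4 := (apf_et1_pos m).ne'
  have h5 := (apf_et2_pos k).ne'
  have e1 : (2 : ℝ)⁻¹ ^ (m + 2 * k + 2 + 1) = (2 : ℝ)⁻¹ ^ m * (4 : ℝ)⁻¹ ^ k / 8 := by
    rw [pow_succ, pow_succ, pow_succ, apf_pow]; ring
  have e2 : (2 : ℝ)⁻¹ ^ (m + 1) = (2 : ℝ)⁻¹ ^ m / 2 := by rw [pow_succ]; ring
  have e3 : (2 : ℝ)⁻¹ ^ (m + 1 + 1) = (2 : ℝ)⁻¹ ^ m / 4 := by rw [pow_succ, pow_succ]; ring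
  have e4 : (4 : ℝ)⁻¹ ^ (k + 1) = (4 : ℝ)⁻¹ ^ k / 4 := by rw [pow_succ]; ring
  rw [show m + 2 = m + 1 + 1 from rfl]
  rw [e1, pow_add _ (m.choose 2 + m), pow_add _ (m.choose 2)]
  rw [e2] at h1 ⊢
  rw [e3] at h2 ⊢
  rw [e4] at h3 ⊢
  generalize (2 : ℝ)⁻¹ ^ m = x at *
  generalize (4 : ℝ)⁻¹ ^ k = y at *
  generalize (2 : ℝ)⁻¹ ^ m.choose 2 = c at *
  generalize et1 (m + 2 * k + 2) = E at *
  generalize et1 m = a at *
  generalize et2 k = b at *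
  have g1 : (2 - x) ≠ 0 := by intro h0; apply h1; linarith
  have g2 : (4 - x) ≠ 0 := by intro h0; apply h2; linarith
  have g3 : (4 - y) ≠ 0 := by intro h0; apply h3; linarith
  field_simp
  ring

lemma Pa_bd0 (n : ℕ) : Pa (n + 1) 0 = Pa n 1 * (1 - (2 : ℝ)⁻¹) := by
  rcases Nat.mod_two_eq_zero_or_one n with hp | hp
  · rw [apf_odd (show (n + 1 + 0) % 2 = 1 by omega), apf_odd (show (n + 1) % 2 = 1 by omega)]
    simp
  obtain ⟨k, rfl⟩ : ∃ k, n = 2 * k + 1 := ⟨n / 2, by omega⟩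
  rw [apf_eq (k + 1) (show 2 * k + 1 + 1 = 0 + 2 * (k + 1) by ring),
    apf_eq k (show 2 * k + 1 = 1 + 2 * k by ring),
    apf_et1_succ (2 * k + 1), apf_et1_succ 0, apf_et2_succ k, apf_et1_zero]
  have h3 := (apf_lt2 k).ne'
  have h5 := (apf_et2_pos k).ne'
  have e1 : (2 : ℝ)⁻¹ ^ (2 * k + 1 + 1) = (4 : ℝ)⁻¹ ^ (k + 1) := by
    rw [show 2 * k + 1 + 1 = 2 * (k + 1) by ring, pow_mul]; norm_num
  rw [e1]
  generalize 1 - (4 : ℝ)⁻¹ ^ (k + 1) = y at *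
  simp only [Nat.choose, pow_zero, zero_add, pow_one]
  field_simp

/-- Conditioning on a marked vector. -/
lemma Pa_mv (n m : ℕ) : Pa (n + 2) (m + 1) =
    (2 : ℝ)⁻¹ ^ (n + 1) * Pa (n + 1) m + (1 - (2 : ℝ)⁻¹ ^ (n + 1)) * Pa n (m + 1) := by
  rcases Nat.lt_or_ge (n + 1) m with h | h
  · rw [Pa_of_lt h, Pa_of_lt (show n + 2 < m + 1 by omega), Pa_of_lt (show n < m + 1 by omega)]
    simp
  rcases Nat.mod_two_eq_zero_or_one (n + 1 + m) with hp | hp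
  swap
  · rw [apf_odd hp, apf_odd (show (n + 2 + (m + 1)) % 2 = 1 by omega),
      apf_odd (show (n + (m + 1)) % 2 = 1 by omega)]
    simp
  rcases Nat.eq_or_lt_of_le h with h' | h'
  · subst h'
    rw [show n + 1 + 1 = n + 2 from rfl, Pa_self, Pa_self, Pa_of_lt (show n < n + 2 by omega),
      apf_ch (n + 1), pow_add]
    ring
  obtain ⟨k, rfl⟩ : ∃ k, n = m + 2 * k + 1 := ⟨(n - m) / 2, by omega⟩
  rw [apf_eq (k + 1) (show m + 2 * k + 1 + 2 = m + 1 + 2 * (k + 1) by ring),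
    apf_eq (k + 1) (show m + 2 * k + 1 + 1 = m + 2 * (k + 1) by ring),
    apf_eq k (show m + 2 * k + 1 = m + 1 + 2 * k by ring),
    apf_et1_succ (m + 2 * k + 1 + 1), apf_et1_succ (m + 2 * k + 1), apf_et1_succ m,
    apf_et2_succ k, apf_ch m]
  have h1 := (apf_lt1 m).ne'
  have h3 := (apf_lt2 k).ne'
  have h4 := (apf_et1_pos m).ne'
  have h5 := (apf_et2_pos k).ne'
  have e0 : (2 : ℝ)⁻¹ ^ (m + 2 * k + 1 + 1) = (2 : ℝ)⁻¹ ^ m * (4 : ℝ)⁻¹ ^ k / 4 := by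
    rw [pow_succ, pow_succ, apf_pow]; ring
  have e1 : (2 : ℝ)⁻¹ ^ (m + 2 * k + 1 + 1 + 1) = (2 : ℝ)⁻¹ ^ m * (4 : ℝ)⁻¹ ^ k / 8 := by
    rw [pow_succ, e0]; ring
  have e2 : (2 : ℝ)⁻¹ ^ (m + 1) = (2 : ℝ)⁻¹ ^ m / 2 := by rw [pow_succ]; ring
  have e4 : (4 : ℝ)⁻¹ ^ (k + 1) = (4 : ℝ)⁻¹ ^ k / 4 := by rw [pow_succ]; ring
  rw [e1, e0, pow_add _ (m.choose 2)]
  rw [e2] at h1 ⊢
  rw [e4] at h3 ⊢
  generalize (2 : ℝ)⁻¹ ^ m = x at *
  generalize (4 : ℝ)⁻¹ ^ k = y at *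
  generalize (2 : ℝ)⁻¹ ^ m.choose 2 = c at *
  generalize et1 (m + 2 * k + 1) = E at *
  generalize et1 m = a at *
  generalize et2 k = b at *
  have g1 : (2 - x) ≠ 0 := by intro h0; apply h1; linarith
  have g3 : (4 - y) ≠ 0 := by intro h0; apply h3; linarith
  field_simp
  ring

lemma Pa_mv0 (n : ℕ) : Pa (n + 2) 0 = (1 - (2 : ℝ)⁻¹ ^ (n + 1)) * Pa n 0 := by
  rcases Nat.mod_two_eq_zero_or_one n with hp | hp
  swap
  · rw [apf_odd (show (n + 2 + 0) % 2 = 1 by omega), apf_odd (show (n + 0) % 2 = 1 by omega)]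
    simp
  obtain ⟨k, rfl⟩ : ∃ k, n = 2 * k := ⟨n / 2, by omega⟩
  rw [apf_eq (k + 1) (show 2 * k + 2 = 0 + 2 * (k + 1) by ring),
    apf_eq k (show 2 * k = 0 + 2 * k by ring),
    apf_et1_succ (2 * k + 1), apf_et1_succ (2 * k), apf_et2_succ k, apf_et1_zero]
  have h3 := (apf_lt2 k).ne'
  have h5 := (apf_et2_pos k).ne'
  have e1 : (2 : ℝ)⁻¹ ^ (2 * k + 1 + 1) = (4 : ℝ)⁻¹ ^ (k + 1) := by
    rw [show 2 * k + 1 + 1 = 2 * (k + 1) by ring, pow_mul]; norm_num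
  rw [e1]
  generalize 1 - (4 : ℝ)⁻¹ ^ (k + 1) = y at *
  generalize 1 - (2 : ℝ)⁻¹ ^ (2 * k + 1) = z at *
  field_simp

lemma apf_step (l : ℕ) (f : ℕ → ℝ) :
    ∑ x ∈ Finset.range (l + 1),
        Pa l x * ((1 - (2 : ℝ)⁻¹ ^ x) * f (x - 1) + (2 : ℝ)⁻¹ ^ x * f (x + 1)) =
      ∑ x ∈ Finset.range (l + 2), Pa (l + 1) x * f x := by
  have h1 : ∑ x ∈ Finset.range (l + 1), Pa l x * (1 - (2 : ℝ)⁻¹ ^ x) * f (x - 1) =
      ∑ x ∈ Finset.range (l + 1 + 1 + 1), Pa l x * (1 - (2 : ℝ)⁻¹ ^ x) * f (x - 1) := by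
    rw [Finset.sum_range_succ _ (l + 1 + 1), Finset.sum_range_succ _ (l + 1),
      Pa_of_lt (show l < l + 1 by omega), Pa_of_lt (show l < l + 1 + 1 by omega)]
    simp
  rw [Finset.sum_range_succ' _ (l + 1 + 1), Finset.sum_range_succ' _ (l + 1)] at h1
  rw [Finset.sum_range_succ' _ (l + 1), Pa_bd0]
  simp only [Pa_bd, add_mul, Finset.sum_add_distrib, mul_add]
  simp only [← mul_assoc]
  rw [h1]
  simp only [Nat.add_sub_cancel, zero_add, pow_zero, sub_self, mul_zero, zero_mul, add_zero,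
    pow_one]
  ring

lemma Pa_sum (n : ℕ) : ∑ x ∈ Finset.range (n + 1), Pa n x = 1 := by
  induction n with
  | zero => simp [Pa_zero_zero]
  | succ n ih =>
    have h := apf_step n fun _ => 1
    simp only [mul_one, sub_add_cancel] at h
    rw [← ih, h]

lemma Pa_le_one (n m : ℕ) : Pa n m ≤ 1 := by
  rcases Nat.lt_or_ge n m with h | h
  · rw [Pa_of_lt h]; exact zero_le_one
  · rw [← Pa_sum n]
    exact Finset.single_le_sum (f := fun x => Pa n x) (fun x _ => Pa_nonneg n x)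
      (Finset.mem_range.2 (by omega))

lemma pv_mem (e : ℕ → ℕ) (j m l : ℕ) : 0 ≤ pv e j m l ∧ pv e j m l ≤ 1 := by
  induction j generalizing m l with
  | zero => simp [pv]
  | succ j ih =>
    rw [pv]
    split_ifs
    · refine ⟨Finset.sum_nonneg fun x _ => mul_nonneg (Pa_nonneg _ _) (ih _ _).1, ?_⟩
      rw [← Pa_sum l]
      exact Finset.sum_le_sum fun x _ => mul_le_of_le_one_right (Pa_nonneg _ _) (ih _ _).2
    · exact ⟨le_rfl, zero_le_one⟩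

lemma gv_mem (e : ℕ → ℕ) (j m : ℕ) {l : ℕ} (hl : 1 ≤ l) : 0 ≤ gv e j m l ∧ gv e j m l ≤ 1 := by
  have h0 : (0 : ℝ) ≤ 2 / 2 ^ l := by positivity
  have h1 : (2 : ℝ) / 2 ^ l ≤ 1 := by
    rw [div_le_one (by positivity)]
    exact le_self_pow₀ (by norm_num) (by omega)
  obtain ⟨a0, a1⟩ := pv_mem e j m (l - 2)
  obtain ⟨b0, b1⟩ := pv_mem e j m l
  unfold gv
  constructor
  · have : 0 ≤ 1 - (2 : ℝ) / 2 ^ l := by linarith
    positivity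
  · nlinarith

lemma gv_zero (e : ℕ → ℕ) (m l : ℕ) : gv e 0 m l = 1 := by
  simp [gv, pv]

lemma pv_sum (e : ℕ → ℕ) (j m : ℕ) :
    ∑ x ∈ Finset.range (e m + 1), Pa (e m) x * pv e j (m + 1) x =
      ∏ i ∈ Finset.range j, Pa (e (m + i)) (e (m + i + 1)) := by
  induction j generalizing m with
  | zero => simp [pv, Pa_sum]
  | succ j ih =>
    rw [Finset.prod_range_succ', Finset.sum_eq_single (e (m + 1))]
    · rw [pv, if_pos rfl, ih (m + 1), mul_comm]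
      congr 1
      refine Finset.prod_congr rfl fun i _ => ?_
      rw [show m + 1 + i = m + (i + 1) by ring]
    · intro x _ hx
      rw [pv, if_neg hx, mul_zero]
    · intro hx
      rw [Pa_of_lt (by simpa using hx), zero_mul]

lemma gv_sum (e : ℕ → ℕ) (j m l : ℕ) :
    ∑ x ∈ Finset.range (l + 1), Pa l x * gv e j m (x + 1) =
      ∑ x ∈ Finset.range (l + 2), Pa (l + 1) x * pv e j m x := by
  rw [← apf_step l (pv e j m)]
  refine Finset.sum_congr rfl fun x _ => ?_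
  have h : (2 : ℝ) / 2 ^ (x + 1) = (2 : ℝ)⁻¹ ^ x := by
    rw [inv_pow, pow_succ]; field_simp
  rw [gv, h, show x + 1 - 2 = x - 1 by omega]

end Pool.Agent.Lib.MP_788af2_nt.AS
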