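import Pool.Agent.Lib.MP_a3f657_nt.BK.BLam

/-!
Formal properties of the pairing.
-/

set_option linter.unusedSectionVars false

namespace Pool.Agent.Lib.MP_788af2_nt.AS

open FreeAbelianGroup

namespace Bx

variable {A M Γ : Type} [AddCommGroup A] [AddCommGroup M] [Group Γ] (X : Bx Γ A M)
  {n : ℕ} {P Q P' : A}

lemma lam_spec : Lam X.N X.lam := Classical.epsilon_spec X.cub.exists_lam

include X in
lemma pow_inj (n : ℕ) {S S' : A} (h : 2 ^ n • S = 2 ^ n • S') : S = S' := by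
  induction n generalizing S S' with
  | zero => simpa using h
  | succ n ih =>
    have e : 2 • S = 2 • S' := by
      apply ih
      rw [← mul_smul, ← mul_smul, ← pow_succ]
      exact h
    have := X.tfA (S - S') (by rw [smul_sub, e, sub_self])
    exact sub_eq_zero.mp this

lemma rt_eq {σ : Γ} {S : A} (h : X.sA σ P - P = 2 ^ n • S) : X.rt n σ P = S := by
  have e : X.sA σ P - P = 2 ^ n • X.rt n σ P :=
    Classical.epsilon_spec (p := fun S => X.sA σ P - P = 2 ^ n • S) ⟨S, h⟩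
  exact X.pow_inj n (e.symm.trans h)

private lemma babs_rt (h : X.Fm n P) (σ : Γ) : X.sA σ P - P = 2 ^ n • X.rt n σ P :=
  Classical.epsilon_spec (p := fun S => X.sA σ P - P = 2 ^ n • S) (h σ)

lemma pd_mem (h : X.Fm n P) (σ : Γ) : X.pd n σ P ∈ Prn A := by
  rw [mem_Prn, pd, map_sub, map_sub, map_nsmul, lift_apply_of, lift_apply_of, lift_apply_of]
  exact sub_eq_zero.mpr (X.babs_rt h σ)

lemma lam_σ (σ : Γ) {p : FreeAbelianGroup A} (hp : p ∈ Prn A) (d : FreeAbelianGroup A) :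
    X.sM σ (X.lam p d) = X.lam (map (X.sA σ) p) (map (X.sA σ) d) :=
  X.lam_spec.map X.lam_spec _ _ (X.eqv σ) hp d

variable {X} in
lemma Fm.add (h : X.Fm n P) (h' : X.Fm n Q) : X.Fm n (P + Q) := by
  intro σ
  obtain ⟨S, e⟩ := h σ
  obtain ⟨S', e'⟩ := h' σ
  exact ⟨S + S', by rw [smul_add, ← e, ← e', map_add]; abel⟩

variable {X} in
lemma Fm.sub (h : X.Fm n P) (h' : X.Fm n Q) : X.Fm n (P - Q) := by
  intro σ
  obtain ⟨S, e⟩ := h σ
  obtain ⟨S', e'⟩ := h' σ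
  exact ⟨S - S', by rw [smul_sub, ← e, ← e', map_sub]; abel⟩

variable {X} in
lemma Fm.mono {j : ℕ} (h : X.Fm n P) (hj : j ≤ n) : X.Fm j P := by
  intro σ
  obtain ⟨S, e⟩ := h σ
  obtain ⟨k, rfl⟩ := Nat.exists_eq_add_of_le hj
  exact ⟨2 ^ k • S, by rw [e, pow_add, mul_smul]⟩

lemma Fm_pow (i : ℕ) : X.Fm (i + n) (2 ^ i • P) ↔ X.Fm n P := by
  constructor
  · intro h σ
    obtain ⟨S, e⟩ := h σ
    refine ⟨S, X.pow_inj i ?_⟩
    rw [smul_sub, ← map_nsmul, e, pow_add, mul_smul]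
  · intro h σ
    obtain ⟨S, e⟩ := h σ
    exact ⟨S, by rw [map_nsmul, ← smul_sub, e, pow_add, mul_smul]⟩

lemma Fm_of_fix (n : ℕ) (h : ∀ σ, X.sA σ P = P) : X.Fm n P := by
  intro σ
  exact ⟨0, by rw [h, sub_self, smul_zero]⟩

lemma Fm_zero (P : A) : X.Fm 0 P := by
  intro σ
  exact ⟨X.sA σ P - P, by rw [pow_zero, one_smul]⟩

private lemma babs_of (σ : Γ) (P : A) :
    of (X.sA σ P) = X.pd n σ P + of P + 2 ^ n • of (X.rt n σ P) := by
  rw [pd]; abel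

private lemma babs_ev (p : FreeAbelianGroup A) (n : ℕ) (σ : Γ) (P : A) :
    X.lam p (X.pd n σ P) =
      X.lam p (of (X.sA σ P)) - X.lam p (of P) - 2 ^ n • X.lam p (of (X.rt n σ P)) := by
  rw [pd, map_sub, map_sub, map_nsmul]

private lemma babs_mul (k : ℕ) (P : A) : k • of P - of (k • P) ∈ Prn A := by
  rw [mem_Prn, map_sub, map_nsmul, lift_apply_of, lift_apply_of]
  exact sub_self _

private lemma babs_map_dvs (f : A →+ A) (P Q : A) : map f (dvs P Q) = dvs (f P) (f Q) := by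
  rw [dvs, dvs, map_sub, map_add, map_of_apply, map_of_apply, map_of_apply, map_add]

theorem Wc_add (h : X.Fm n P) (h' : X.Fm n Q) (h'' : X.Fm n P') :
    X.Wc n (P + Q) P' - (X.Wc n P P' + X.Wc n Q P') ∈ X.Tr n := by
  have L := X.lam_spec
  refine ⟨-X.lam (dvs P Q) (of P'), fun σ => ?_⟩
  have e0 : X.rt n σ (P + Q) = X.rt n σ P + X.rt n σ Q := by
    apply X.rt_eq
    rw [smul_add, ← X.babs_rt h, ← X.babs_rt h', map_add]; abel
  have e1 : X.pd n σ (P + Q) = X.pd n σ P + X.pd n σ Q - dvs (X.sA σ P) (X.sA σ Q) + dvs P Q +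
      2 ^ n • dvs (X.rt n σ P) (X.rt n σ Q) := by
    simp only [pd, dvs, e0, map_add, smul_sub, smul_add]; abel
  have m1 := X.pd_mem h σ
  have m2 := X.pd_mem h' σ
  have m3 := X.pd_mem h'' σ
  have d1 := dvs_mem (X.sA σ P) (X.sA σ Q)
  have d2 := dvs_mem P Q
  have d3 := dvs_mem (X.rt n σ P) (X.rt n σ Q)
  have e2 : X.lam (X.pd n σ (P + Q)) = X.lam (X.pd n σ P) + X.lam (X.pd n σ Q) -
      X.lam (dvs (X.sA σ P) (X.sA σ Q)) + X.lam (dvs P Q) +
      2 ^ n • X.lam (dvs (X.rt n σ P) (X.rt n σ Q)) := by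
    rw [e1, L.add _ (add_mem (sub_mem (add_mem m1 m2) d1) d2) _ (nsmul_mem d3 _),
      L.add _ (sub_mem (add_mem m1 m2) d1) _ d2, L.sub (add_mem m1 m2) d1, L.add _ m1 _ m2,
      L.nsmul d3]
  have e3 : X.lam (X.pd n σ P') (of (P + Q)) =
      X.lam (X.pd n σ P') (of P) + X.lam (X.pd n σ P') (of Q) -
        X.lam (dvs P Q) (X.pd n σ P') := by
    rw [← L.symm _ m3 _ d2, dvs, map_sub, map_add]; abel
  have e4 : X.sM σ (X.lam (dvs P Q) (of P')) =
      X.lam (dvs (X.sA σ P) (X.sA σ Q)) (of (X.sA σ P')) := by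
    rw [X.lam_σ σ d2, babs_map_dvs, map_of_apply]
  refine ⟨X.lam (dvs (X.rt n σ P) (X.rt n σ Q)) (of (X.sA σ P')) +
    X.lam (dvs P Q) (of (X.rt n σ P')), ?_⟩
  simp only [Pi.sub_apply, Pi.add_apply, Wc, e2, e3, map_neg, e4, X.babs_ev (dvs P Q),
    AddMonoidHom.add_apply, AddMonoidHom.sub_apply, AddMonoidHom.nsmul_apply, smul_add]
  abel

theorem Wc_symm (h : X.Fm n P) (h' : X.Fm n P') : X.Wc n P P' - X.Wc n P' P ∈ X.Tr n := by
  have L := X.lam_spec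
  refine ⟨0, fun σ => ?_⟩
  have m1 := X.pd_mem h σ
  have m2 := X.pd_mem h' σ
  have e := L.symm _ m1 _ m2
  rw [X.babs_ev (X.pd n σ P), X.babs_ev (X.pd n σ P')] at e
  refine ⟨X.lam (X.pd n σ P) (of (X.rt n σ P')) - X.lam (X.pd n σ P') (of (X.rt n σ P)), ?_⟩
  simp only [Pi.sub_apply, Wc, map_zero, smul_sub]
  rw [← sub_eq_zero] at e ⊢
  rw [← e]; abel

theorem Wc_fix (n : ℕ) (h : ∀ σ, X.sA σ P = P) (h' : ∀ σ, X.sA σ P' = P') :
    X.Wc n P P' ∈ X.Tr n := by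
  have L := X.lam_spec
  refine ⟨0, fun σ => ?_⟩
  have z : (-of (0 : A)) ∈ Prn A := by
    rw [mem_Prn, map_neg, lift_apply_of]; exact neg_zero
  have e : ∀ {R : A}, (∀ σ, X.sA σ R = R) → X.pd n σ R = 2 ^ n • (-of (0 : A)) := by
    intro R hR
    have : X.rt n σ R = 0 := X.rt_eq (by rw [hR, sub_self, smul_zero])
    rw [pd, this, hR, sub_self, zero_sub, smul_neg]
  refine ⟨X.lam (-of 0) (of (X.sA σ P')) + X.lam (-of 0) (of P), ?_⟩
  simp only [Wc, e h, e h', L.nsmul z, AddMonoidHom.nsmul_apply, map_zero, smul_add]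
  abel

theorem Wc_scale (i : ℕ) (h : X.Fm n P) (h' : X.Fm (i + n) P') :
    X.Wc (i + n) (2 ^ i • P) P' - 2 ^ i • X.Wc n P P' ∈ X.Tr (i + n) := by
  have L := X.lam_spec
  have d1 := babs_mul (2 ^ i) P
  set e := 2 ^ i • of P - of (2 ^ i • P) with he
  refine ⟨-X.lam e (of P'), fun σ => ?_⟩
  have d2 := babs_mul (2 ^ i) (X.rt (i + n) σ P')
  set e' := 2 ^ i • of (X.rt (i + n) σ P') - of (2 ^ i • X.rt (i + n) σ P') with he'
  have d3 := map_Prn (X.sA σ) d1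
  have m1 := X.pd_mem h σ
  have m2 := X.pd_mem h' σ
  have r1 : X.rt (i + n) σ (2 ^ i • P) = X.rt n σ P := by
    apply X.rt_eq
    rw [map_nsmul, ← smul_sub, X.babs_rt h, pow_add, mul_smul]
  have r2 : X.rt n σ P' = 2 ^ i • X.rt (i + n) σ P' := by
    apply X.rt_eq
    rw [X.babs_rt h', add_comm i n, pow_add, mul_smul]
  have p1 : X.pd (i + n) σ (2 ^ i • P) = 2 ^ i • X.pd n σ P - map (X.sA σ) e + e := by
    rw [he, map_sub, map_nsmul, map_of_apply, map_of_apply, pd, pd, r1, pow_add, mul_smul,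
      smul_sub, smul_sub]
    abel
  have p2 : X.pd n σ P' = X.pd (i + n) σ P' + 2 ^ n • e' := by
    rw [he', pd, pd, r2, smul_sub, ← mul_smul, ← pow_add, add_comm n i]
    abel
  have e1 : X.lam (X.pd (i + n) σ (2 ^ i • P)) =
      2 ^ i • X.lam (X.pd n σ P) - X.lam (map (X.sA σ) e) + X.lam e := by
    rw [p1, L.add _ (sub_mem (nsmul_mem m1 _) d3) _ d1, L.sub (nsmul_mem m1 _) d3, L.nsmul m1]
  have e2 : X.lam (X.pd n σ P') = X.lam (X.pd (i + n) σ P') + 2 ^ n • X.lam e' := by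
    rw [p2, L.add _ m2 _ (nsmul_mem d2 _), L.nsmul d2]
  have e3 : X.lam (X.pd (i + n) σ P') (of (2 ^ i • P)) =
      2 ^ i • X.lam (X.pd (i + n) σ P') (of P) - X.lam e (X.pd (i + n) σ P') := by
    rw [← L.symm _ m2 _ d1, he, map_sub, map_nsmul]; abel
  have e4 : X.sM σ (X.lam e (of P')) = X.lam (map (X.sA σ) e) (of (X.sA σ P')) := by
    rw [X.lam_σ σ d1, map_of_apply]
  refine ⟨X.lam e (of (X.rt (i + n) σ P')) - X.lam e' (of P), ?_⟩
  have e5 : ∀ m : M, 2 ^ i • 2 ^ n • m = 2 ^ (i + n) • m := fun m => by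
    rw [pow_add, mul_smul]
  simp only [Pi.sub_apply, Pi.smul_apply, Wc, e1, e2, e3, map_neg, e4, X.babs_ev e,
    AddMonoidHom.add_apply, AddMonoidHom.sub_apply, AddMonoidHom.nsmul_apply, smul_add, smul_sub,
    e5]
  abel

private lemma babs_coc (h : X.Fm n P) (σ τ : Γ) :
    X.lam (X.pd n (σ * τ) P) = X.lam (X.pd n σ P) + X.lam (map (X.sA σ) (X.pd n τ P)) +
      2 ^ n • X.lam (dvs (X.rt n σ P) (X.sA σ (X.rt n τ P))) := by
  have L := X.lam_spec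
  have r : X.rt n (σ * τ) P = X.rt n σ P + X.sA σ (X.rt n τ P) := by
    apply X.rt_eq
    rw [smul_add, ← map_nsmul, ← X.babs_rt h, ← X.babs_rt h, map_sub, X.sA_mul]; abel
  have p : X.pd n (σ * τ) P = X.pd n σ P + map (X.sA σ) (X.pd n τ P) +
      2 ^ n • dvs (X.rt n σ P) (X.sA σ (X.rt n τ P)) := by
    simp only [pd, dvs, r, map_sub, map_nsmul, map_of_apply, X.sA_mul, smul_sub, smul_add]
    abel
  have m1 := X.pd_mem h σ
  have m2 := map_Prn (X.sA σ) (X.pd_mem h τ)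
  have d := dvs_mem (X.rt n σ P) (X.sA σ (X.rt n τ P))
  rw [p, L.add _ (add_mem m1 m2) _ (nsmul_mem d _), L.add _ m1 _ m2, L.nsmul d]

theorem Wc_coc (h : X.Fm n P) (h' : X.Fm n P') (σ τ : Γ) :
    ∃ r, X.Wc n P P' (σ * τ) - (X.Wc n P P' σ + X.sM σ (X.Wc n P P' τ)) = 2 ^ n • r := by
  have L := X.lam_spec
  have m1 := X.pd_mem h σ
  have m2 := map_Prn (X.sA σ) (X.pd_mem h' τ)
  have e := L.symm _ m1 _ m2
  have e1 : X.lam (X.pd n σ P) (map (X.sA σ) (X.pd n τ P')) =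
      X.lam (X.pd n σ P) (of (X.sA σ (X.sA τ P'))) - X.lam (X.pd n σ P) (of (X.sA σ P')) -
        2 ^ n • X.lam (X.pd n σ P) (of (X.sA σ (X.rt n τ P'))) := by
    rw [pd.eq_1 X n τ]
    simp only [map_sub, map_nsmul, map_of_apply]
  rw [e1, X.babs_ev] at e
  refine ⟨X.lam (X.pd n σ P) (of (X.sA σ (X.rt n τ P'))) -
    X.lam (map (X.sA σ) (X.pd n τ P')) (of (X.rt n σ P)) +
    X.lam (dvs (X.rt n σ P) (X.sA σ (X.rt n τ P))) (of (X.sA σ (X.sA τ P'))) +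
    X.lam (dvs (X.rt n σ P') (X.sA σ (X.rt n τ P'))) (of P), ?_⟩
  simp only [Wc, X.babs_coc h, X.babs_coc h', map_add, X.lam_σ σ (X.pd_mem h τ),
    X.lam_σ σ (X.pd_mem h' τ), map_of_apply, X.sA_mul, AddMonoidHom.add_apply,
    AddMonoidHom.nsmul_apply, smul_add, smul_sub]
  rw [← sub_eq_zero] at e ⊢
  rw [← e]; abel

lemma Wc_congr (n : ℕ) {σ τ : Γ} (h : X.sA σ P = X.sA τ P) (h' : X.sA σ P' = X.sA τ P') :
    X.Wc n P P' σ = X.Wc n P P' τ := by
  simp only [Wc, pd, rt, h, h']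

end Bx

end Pool.Agent.Lib.MP_788af2_nt.AS
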