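import Pool.Agent.Lib.MP_a3f657_nt.BK.BAbs1

/-!
The pairing: local triviality, alternation, functoriality.
-/

set_option linter.unusedSectionVars false

namespace Pool.Agent.Lib.MP_788af2_nt.AS

open FreeAbelianGroup

namespace Bx

variable {A M Γ : Type} [AddCommGroup A] [AddCommGroup M] [Group Γ] (X : Bx Γ A M)
  {n : ℕ} {P P' U w z : A} {c : Γ → M}

lemma Tr_pow (i : ℕ) (h : c ∈ X.Tr n) : 2 ^ i • c ∈ X.Tr (i + n) := by
  obtain ⟨m, h⟩ := h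
  refine ⟨2 ^ i • m, fun σ => ?_⟩
  obtain ⟨r, e⟩ := h σ
  exact ⟨r, by rw [pow_add, mul_smul, ← e, Pi.smul_apply, map_nsmul, smul_sub, smul_sub]⟩

lemma Tr_zero (c : Γ → M) : c ∈ X.Tr 0 := by
  exact ⟨0, fun σ => ⟨c σ, by simp⟩⟩

lemma Tr_half (h : 2 • c ∈ X.Tr (n + 1)) : c ∈ X.Tr n := by
  obtain ⟨m, h⟩ := h
  obtain ⟨m₀, m', h0, rfl⟩ := X.inv₂ m fun σ => by
    obtain ⟨r, e⟩ := h σ
    refine ⟨c σ - 2 ^ n • r, ?_⟩
    rw [smul_sub, smul_smul, ← pow_succ', ← e, Pi.smul_apply]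
    abel
  refine ⟨m', fun σ => ?_⟩
  obtain ⟨r, e⟩ := h σ
  refine ⟨r, sub_eq_zero.1 (X.tfM _ ?_)⟩
  rw [smul_sub, smul_smul, ← pow_succ', ← e, Pi.smul_apply, map_add, h0, map_nsmul]
  abel

lemma babs2_half (i : ℕ) (h : 2 ^ i • c ∈ X.Tr (i + n)) : c ∈ X.Tr n := by
  induction i with
  | zero => simpa using h
  | succ i ih =>
    refine ih (X.Tr_half ?_)
    rwa [smul_smul, ← pow_succ', add_right_comm]

lemma babs2_congr {a b : Γ → M} (h : a - b ∈ X.Tr n) (hb : b ∈ X.Tr n) : a ∈ X.Tr n := by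
  simpa using add_mem h hb

lemma babs2_congr' {a b : Γ → M} (h : a - b ∈ X.Tr n) (ha : a ∈ X.Tr n) : b ∈ X.Tr n := by
  simpa using sub_mem ha h

lemma babs2_pow (U : A) (h : X.Fm n P') : X.Wc n (2 ^ n • U) P' ∈ X.Tr n :=
  X.babs2_congr (X.Wc_scale (n := 0) n (X.Fm_zero U) h) (X.Tr_pow n (X.Tr_zero _))

/-- expansion of the pairing at a sum of a fixed point and another point -/
lemma babs2_expand {V : A} (hz : ∀ σ, X.sA σ z = z) (hV : X.Fm n V) :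
    X.Wc n (z + V) (z + V) - (2 • X.Wc n V z + X.Wc n V V) ∈ X.Tr n := by
  have h0 := X.Fm_of_fix n hz
  have h1 := h0.add hV
  have := add_mem (add_mem (add_mem (X.Wc_add h0 hV h1) (X.Wc_symm h0 h1))
    (add_mem (X.Wc_symm hV h1) (X.Wc_add h0 hV h0)))
    (add_mem (add_mem (X.Wc_add h0 hV hV) (X.Wc_symm h0 hV)) (X.Wc_fix n hz hz))
  refine Eq.mp (congrArg (· ∈ X.Tr n) ?_) this
  rw [two_smul]
  abel

theorem Wc_loc (hz : ∀ σ, X.sA σ z = z) (h : w - z = 2 ^ n • U) : X.Wc n w w ∈ X.Tr n := by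
  obtain rfl : w = z + 2 ^ n • U := by rw [← h, add_sub_cancel]
  have hV : X.Fm n (2 ^ n • U) := (X.Fm_pow (n := 0) n).2 (X.Fm_zero U)
  exact X.babs2_congr (X.babs2_expand hz hV)
    (add_mem (nsmul_mem (X.babs2_pow U (X.Fm_of_fix n hz)) 2) (X.babs2_pow U hV))

theorem Wc_alt (hn : 1 ≤ n) (hz : ∀ σ, X.sA σ z = z) (h : w - z = 2 ^ n • U)
    (hw : X.Fm (n + 2) w) (h1 : X.Wc (n + 2) w w ∈ X.Tr (n + 2)) (h2 : X.Wc 1 U U ∈ X.Tr 1) :
    X.Wc 1 U z ∈ X.Tr 1 := by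
  have hV : X.Fm (n + 2) (2 ^ n • U) := h ▸ hw.sub (X.Fm_of_fix _ hz)
  obtain rfl : w = z + 2 ^ n • U := by rw [← h, add_sub_cancel]
  have hU : X.Fm 2 U := (X.Fm_pow n).1 hV
  have hU1 : X.Fm 1 U := hU.mono one_le_two
  have a1 : X.Wc 2 (2 ^ n • U) U ∈ X.Tr 2 := by
    rcases hn.eq_or_lt with rfl | hn
    · exact X.babs2_congr (n := 1 + 1) (X.Wc_scale (n := 1) 1 hU1 hU) (X.Tr_pow 1 h2)
    · obtain ⟨k, rfl⟩ := Nat.exists_eq_add_of_le (show 2 ≤ n from hn)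
      rw [pow_add, mul_smul]
      exact X.babs2_pow _ hU
  have a2 : X.Wc (n + 2) (2 ^ n • U) (2 ^ n • U) ∈ X.Tr (n + 2) :=
    X.babs2_congr (X.Wc_scale n hU hV) (X.Tr_pow n
      (X.babs2_congr (X.Wc_symm hU (hV.mono (Nat.le_add_left 2 n))) a1))
  have a3 : 2 • X.Wc (n + 2) (2 ^ n • U) z ∈ X.Tr (n + 2) := by
    simpa using sub_mem (X.babs2_congr' (X.babs2_expand hz hV) h1) a2
  have a4 : 2 • 2 ^ n • X.Wc 2 U z ∈ X.Tr (n + 1 + 1) :=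
    X.babs2_congr' (by
      rw [← smul_sub]
      exact nsmul_mem (X.Wc_scale n hU (X.Fm_of_fix _ hz)) 2) a3
  have a5 : X.Wc 2 U z ∈ X.Tr 1 := X.babs2_half n (X.Tr_half a4)
  have a6 : X.Wc 2 (U + U) z ∈ X.Tr 2 :=
    X.babs2_congr (X.Wc_add hU hU (X.Fm_of_fix _ hz)) (by simpa [two_smul] using X.Tr_pow 1 a5)
  refine X.babs2_half 1 (X.babs2_congr' (X.Wc_scale 1 hU1 (X.Fm_of_fix _ hz)) ?_)
  rwa [pow_one, two_smul]

theorem Wc_map {A' M' Γ' : Type} [AddCommGroup A'] [AddCommGroup M'] [Group Γ']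
    (X' : Bx Γ' A' M') (f : A →+ A') (g : M →+ M')
    (e : ∀ P Q R, g (X.N P Q R) = X'.N (f P) (f Q) (f R)) {σ : Γ} {τ : Γ'}
    (hs : ∀ P, X'.sA τ (f P) = f (X.sA σ P)) (h : X.Fm n P) (h' : X.Fm n P') :
    g (X.Wc n P P' σ) = X'.Wc n (f P) (f P') τ := by
  have key : ∀ {P : A}, X.Fm n P → map f (X.pd n σ P) = X'.pd n τ (f P) := fun {P} h => by
    obtain ⟨S, hS⟩ := h σ
    have h1 : X'.rt n τ (f P) = f S := X'.rt_eq (by rw [hs, ← map_sub, hS, map_nsmul])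
    rw [pd, pd, X.rt_eq hS, h1, map_sub, map_sub, map_nsmul, map_of_apply, map_of_apply,
      map_of_apply, hs]
  rw [Wc, Wc, map_add, X.lam_spec.map X'.lam_spec f g e (X.pd_mem h σ),
    X.lam_spec.map X'.lam_spec f g e (X.pd_mem h' σ), key h, key h', map_of_apply, map_of_apply, hs]

theorem Wc_one {V : Type} [AddCommGroup V] (h2 : ∀ x : V, x + x = 0) (δ : M →+ V) (Y : A → A → V)
    (e : ∀ P Q R, δ (X.N P Q R) = Y P R + Y Q R + Y (P + Q) R) (hY : ∀ P R, Y P R = Y R P)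
    (h : X.Fm 1 P) (h' : X.Fm 1 P') (σ : Γ) :
    δ (X.Wc 1 P P' σ) = Y (X.sA σ P) (X.sA σ P') + Y P P' := by
  have hn : ∀ x y : V, x - y = x + y := fun x y => by
    rw [sub_eq_add_neg, neg_eq_of_add_eq_zero_left (h2 y)]
  have e' : ∀ P Q R, δ (X.N P Q R) = Y P R + Y Q R - Y (P + Q) R := fun P Q R => by rw [e, hn]
  rw [Wc, map_add, X.lam_spec.prim δ Y e' (X.pd_mem h σ), X.lam_spec.prim δ Y e' (X.pd_mem h' σ)]
  simp only [pd, map_sub, lift_apply_of, pow_one, two_smul, map_add, h2, sub_zero]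
  rw [hY (X.sA σ P') P, hY P' P, ← hn (Y (X.sA σ P) (X.sA σ P')) (Y P P')]
  abel

end Bx

end Pool.Agent.Lib.MP_788af2_nt.AS
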