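import Pool.Agent.Lib.MP_a3f657_nt.BK.BRec

/-!
The Cassels-Tate pairing is alternating.
-/

set_option linter.unusedSectionVars false

namespace Pool.Agent.Lib.MP_788af2_nt.AS

open Polynomial WeierstrassCurve Pool.Agent.Lib.MP_a3f657_nt.Two IsDedekindDomain

attribute [local instance 10000] Classical.propDecidable

variable {k : Type} [Field k] [Finite k] [CharP k 2] {A : RatFunc k} {P : PB (RatFunc k)} {n : ℕ}

lemma wc_loc_tr {F K : Type} [Field F] [CharP F 2] [Field K] [CharP K 2] [Algebra F K] {A : F}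
    {P : PB F} {Q : PB K} (hP : P.b = algebraMap F F P.b) (hQ : Q.b = algebraMap F K P.b) {n : ℕ}
    {w : Pt (EW A P.b) (SeparableClosure F)} (hF : w ∈ FxM (EW A P.b) n)
    (hL : w ∈ LcM (EW A P.b) K n) : ∃ j : SeparableClosure F →ₐ[F] SeparableClosure K,
      TrU K n fun τ => uM (j : SeparableClosure F →+* SeparableClosure K)
        ((bx A hP).Wc n w w (resG j τ)) := by
  let j : SeparableClosure F →ₐ[F] SeparableClosure K := IsSepClosed.lift
  obtain ⟨m, U, e⟩ := hL j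
  refine ⟨j, ?_⟩
  rw [funext (bx_res A hP hQ j hF hF), ← bx_tr A hQ]
  exact (bx A hQ).Wc_loc (fun τ => pm_toSep τ m) e

theorem ct_alt (hn : 1 ≤ n) {w : Pt (EW A P.b) (Fs k)} (hw : w ∈ Wf (EW A P.b) (n + 2))
    (i : Fs k →ₐ[RatFunc k] Oi k) {z : Pt (EW A P.b) (Ki k)} {U : Pt (EW A P.b) (Oi k)}
    (e : pm _ i w - pm _ (toSep _ (Ki k)) z = 2 ^ n • U) {Q : PB (Ki k)}
    (hQ : Q.b = algebraMap _ _ P.b) {Qs : PB (Oi k)} (hs : Qs.b = algebraMap _ _ Q.b) {s : Ki k}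
    (h : kp Qs U = algebraMap _ _ s) : ∃ y : Ki k, y + Q.c0 y = Q.b * (s * kp Q z) := by
  have hP : P.b = algebraMap (RatFunc k) (RatFunc k) P.b := rfl
  obtain ⟨hF, hL⟩ := mem_Wf.1 hw
  have hF' : (bx A hP).Fm (n + 2) w := hF
  have h0 : TrU (RatFunc k) (n + 2) ((bx A hP).Wc (n + 2) w w) :=
    recip (n + 2) _ (bx_locConst A hP _ w w) ((bx A hP).Wc_coc hF' hF') fun v => by
      obtain ⟨Qv, hQv⟩ := exists_Qv P v
      exact wc_loc_tr hP hQv hF (hL v)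
  have h1 := h0.res i
  rw [funext (bx_res A hP hQ i hF hF), ← bx_tr A hQ] at h1
  have h2 : (bx A hQ).Wc 1 U U ∈ (bx A hQ).Tr 1 :=
    (bx_tr_one A hQ hs h h).2 ⟨Q.b * s ^ 2, by rw [Q.c0_b_sq, add_zero, sq]⟩
  have h3 := (bx A hQ).Wc_alt hn (fun τ => pm_toSep τ z) e (FxM_loc hF i) h1 h2
  have hs' : Qs.b = algebraMap (RatFunc k) (Oi k) P.b := by
    rw [hs, hQ, ← IsScalarTower.algebraMap_apply]
  exact (bx_tr_one A hQ hs h (kp_pm _ hQ hs' (toSep _ (Ki k)) z)).1 h3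

end Pool.Agent.Lib.MP_788af2_nt.AS
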