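import Pool.Agent.Lib.MP_a3f657_nt.BK.NFun

/-!
Leading coefficients, and the cocycle identity for the cubical function.
-/

set_option linter.unusedSectionVars false

namespace Pool.Agent.Lib.MP_788af2_nt.AS

open Polynomial WeierstrassCurve Pool.Agent.Lib.MP_a3f657_nt.Two

section nlead

variable {A K F : Type} [CommRing A] [IsDomain A] [Field K] [Algebra A K] [Field F]

/-- The leading coefficient with respect to an evaluation map and a parameter. -/
private def NLd (ev : A →+* F) (t : A) (f : K) (c : F) : Prop :=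
  ∃ (n m : ℕ) (w z : A), ev w ≠ 0 ∧ ev z ≠ 0 ∧
    f * algebraMap A K (t ^ m * z) = algebraMap A K (t ^ n * w) ∧ c = ev w / ev z

variable {ev : A →+* F} {t : A}

private lemma nld_mul {f f' : K} {c c' : F} (h : NLd ev t f c) (h' : NLd ev t f' c') :
    NLd ev t (f * f') (c * c') := by
  obtain ⟨n, m, w, z, hw, hz, e, rfl⟩ := h
  obtain ⟨n', m', w', z', hw', hz', e', rfl⟩ := h'
  refine ⟨n + n', m + m', w * w', z * z', by rw [map_mul]; exact mul_ne_zero hw hw',
    by rw [map_mul]; exact mul_ne_zero hz hz', ?_, by rw [map_mul, map_mul, div_mul_div_comm]⟩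
  simp only [map_mul, map_pow, pow_add] at e e' ⊢
  linear_combination f' * (algebraMap A K t ^ m' * algebraMap A K z') * e +
    algebraMap A K t ^ n * algebraMap A K w * e'

private lemma nld_div {f g : K} {c d : F} (h : NLd ev t (f * g) c) (h' : NLd ev t g d) :
    NLd ev t f (c / d) := by
  obtain ⟨n, m, w, z, hw, hz, e, rfl⟩ := h
  obtain ⟨n', m', w', z', hw', hz', e', rfl⟩ := h'
  refine ⟨n + m', m + n', w * z', z * w', by rw [map_mul]; exact mul_ne_zero hw hz',
    by rw [map_mul]; exact mul_ne_zero hz hw', ?_, by rw [map_mul, map_mul]; field_simp⟩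
  simp only [map_mul, map_pow, pow_add] at e e' ⊢
  linear_combination (algebraMap A K t ^ m' * algebraMap A K z') * e -
    f * (algebraMap A K t ^ m * algebraMap A K z) * e'

private lemma nld_cancel (h0 : ev t = 0) (ht : t ≠ 0) {n m : ℕ} {w z : A} (hw : ev w ≠ 0)
    (hz : ev z ≠ 0) (e : t ^ n * w = t ^ m * z) : ev w = ev z := by
  wlog hnm : n ≤ m generalizing n m w z
  · exact (this hz hw e.symm (le_of_not_ge hnm)).symm
  obtain ⟨k, rfl⟩ := Nat.exists_eq_add_of_le hnm
  rw [pow_add, mul_assoc] at e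
  have e' := mul_left_cancel₀ (pow_ne_zero n ht) e
  rcases k with _ | k
  · rw [e', pow_zero, one_mul]
  · exact absurd (by rw [e', map_mul, map_pow, h0, zero_pow (Nat.succ_ne_zero k), zero_mul]) hw

private lemma nld_uniq (hi : Function.Injective (algebraMap A K)) (h0 : ev t = 0) (ht : t ≠ 0)
    {f : K} {c c' : F} (h : NLd ev t f c) (h' : NLd ev t f c') : c = c' := by
  obtain ⟨n, m, w, z, hw, hz, e, rfl⟩ := h
  obtain ⟨n', m', w', z', hw', hz', e', rfl⟩ := h'
  have e1 : t ^ (n + m') * (w * z') = t ^ (n' + m) * (w' * z) := by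
    apply hi
    simp only [map_mul, map_pow, pow_add] at e e' ⊢
    linear_combination (algebraMap A K t ^ m * algebraMap A K z) * e' -
      (algebraMap A K t ^ m' * algebraMap A K z') * e
  have e2 := nld_cancel h0 ht (by rw [map_mul]; exact mul_ne_zero hw hz')
    (by rw [map_mul]; exact mul_ne_zero hw' hz) e1
  rw [map_mul, map_mul] at e2
  rw [div_eq_div_iff hz hz']
  exact e2

private lemma nld_of {w : A} (n : ℕ) (hw : ev w ≠ 0) :
    NLd ev t (algebraMap A K (t ^ n * w)) (ev w) :=
  ⟨n, 0, w, 1, hw, by simp, by simp, by simp⟩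

private lemma nld_unit {w : A} (hw : ev w ≠ 0) : NLd ev t (algebraMap A K w) (ev w) := by
  simpa using nld_of (K := K) (t := t) 0 hw

end nlead

variable {F : Type} [Field F] [CharP F 2] [DecidableEq F] {a : F} {B : PB F} {W : Affine F}

open scoped Polynomial.Bivariate

private lemma nlead_ev {x y : F} (h : W.Equation x y) :
    ∃ ev : W.CoordinateRing →+* F,
      ∀ p, ev (Affine.CoordinateRing.mk W p) = p.evalEval x y :=
  ⟨AdjoinRoot.lift (evalRingHom x) y (by rw [eval₂_evalRingHom]; exact h), fun p => by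
    rw [AdjoinRoot.lift_mk, eval₂_evalRingHom]⟩

private lemma nlead_eqn {P : W.Point} (h : P ≠ 0) : W.Equation (xc P) (yc P) := by
  rcases P with _ | ⟨x, y, h'⟩
  · exact absurd rfl h
  · exact h'.1

private lemma nlead_prod {P Q : W.Point} (hP : P ≠ 0) (hQ : Q ≠ 0) (h : P + Q ≠ 0) :
    Affine.CoordinateRing.YClass W
      (Affine.linePolynomial (xc P) (yc P) (W.slope (xc P) (xc Q) (yc P) (yc Q))) *
      Affine.CoordinateRing.mk W (C (Affine.linePolynomial (xc P) (yc P)
        (W.slope (xc P) (xc Q) (yc P) (yc Q))) - W.negPolynomial) =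
      Affine.CoordinateRing.XClass W (xc P) * Affine.CoordinateRing.XClass W (xc Q) *
        Affine.CoordinateRing.XClass W (xc (P + Q)) := by
  rcases P with _ | ⟨x, y, h1⟩
  · exact absurd rfl hP
  rcases Q with _ | ⟨x', y', h2⟩
  · exact absurd rfl hQ
  have hxy : ¬(x = x' ∧ y = W.negY x' y') := fun hxy =>
    h (Affine.Point.add_of_Y_eq hxy.1 hxy.2)
  have e := Affine.CoordinateRing.C_addPolynomial_slope h1.1 h2.1 hxy
  rw [Affine.CoordinateRing.C_addPolynomial, map_mul] at e
  rw [Affine.Point.add_some hxy]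
  simp only [xc, yc]
  rw [Affine.CoordinateRing.YClass, ← neg_sub W.negPolynomial, map_neg, mul_neg, e, neg_neg]

theorem exists_lead (hW : W = Eb a B.b) {R : W.Point} (hR : R ≠ 0) :
    ∃ Ld : W.FunctionField → F → Prop,
      (∀ f f' c c', Ld f c → Ld f' c' → Ld (f * f') (c * c')) ∧
      (∀ f c c', Ld f c → Ld f c' → c = c') ∧ ∀ P Q, Ld (gF P Q) (cN P Q R) := by
  have hR' : -R ≠ 0 := neg_ne_zero.2 hR
  have hx : xc R ≠ 0 := nx_ne hW hR
  obtain ⟨ev, hev⟩ := nlead_ev (nlead_eqn hR')
  rw [xc_neg] at hev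
  set t : W.CoordinateRing := Affine.CoordinateRing.mk W (C (C (xc R)⁻¹)) *
    Affine.CoordinateRing.XClass W (xc R) with ht
  have hX : ∀ x, ev (Affine.CoordinateRing.XClass W x) = xc R - x := fun x => by
    rw [Affine.CoordinateRing.XClass, hev, evalEval_C]
    simp
  have htx : Affine.CoordinateRing.XClass W (xc R) =
      t ^ 1 * Affine.CoordinateRing.mk W (C (C (xc R))) := by
    rw [pow_one, ht, mul_right_comm, ← map_mul, ← C_mul, ← C_mul, inv_mul_cancel₀ hx]
    simp
  have ht0 : t ≠ 0 := fun h => Affine.CoordinateRing.XClass_ne_zero (W' := W) (xc R) (by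
    rw [htx, h]; simp)
  have hevt : ev t = 0 := by rw [ht, map_mul, hX, sub_self, mul_zero]
  have hi : Function.Injective (algebraMap W.CoordinateRing W.FunctionField) :=
    IsFractionRing.injective _ _
  have hLX : ∀ P : W.Point, NLd ev t (algebraMap W.CoordinateRing W.FunctionField
      (Affine.CoordinateRing.XClass W (xc P))) (dlt P R) := fun P => by
    unfold dlt
    split_ifs with h
    · have e : ev (Affine.CoordinateRing.mk W (C (C (xc R)))) = xc R := by
        rw [hev, evalEval_C, eval_C]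
      have := nld_of (K := W.FunctionField) (ev := ev) (t := t) 1 (e.symm ▸ hx)
      rw [← htx, e] at this
      rw [h]
      exact this
    · have e : ev (Affine.CoordinateRing.XClass W (xc P)) = xc P + xc R := by
        rw [hX]; grind
      have := nld_unit (K := W.FunctionField) (ev := ev) (t := t)
        (w := Affine.CoordinateRing.XClass W (xc P)) (by rw [hX]; exact sub_ne_zero.2 (Ne.symm h))
      rwa [e] at this
  refine ⟨NLd ev t, fun _ _ _ _ => nld_mul, fun _ _ _ => nld_uniq hi hevt ht0, fun P Q => ?_⟩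
  by_cases h0 : P = 0 ∨ Q = 0
  · have h1 : P = 0 ∨ Q = 0 ∨ R = 0 := by tauto
    rw [gF, cN, if_pos h0, if_pos h1]
    simpa using nld_unit (K := W.FunctionField) (ev := ev) (t := t) (w := 1) (by simp)
  have h1 : ¬(P = 0 ∨ Q = 0 ∨ R = 0) := by tauto
  rw [gF, cN, if_neg h0, if_neg h1]
  by_cases h : P + Q = 0
  · rw [if_pos h, if_pos h]
    exact hLX P
  rw [if_neg h, if_neg h]
  have hP : P ≠ 0 := fun e => h0 (Or.inl e)
  have hQ : Q ≠ 0 := fun e => h0 (Or.inr e)
  refine nld_div ?_ (hLX (P + Q))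
  rw [div_mul_cancel₀ _ ((map_ne_zero_iff _ hi).2 (Affine.CoordinateRing.XClass_ne_zero _))]
  have eY : ev (Affine.CoordinateRing.YClass W
      (Affine.linePolynomial (xc P) (yc P) (W.slope (xc P) (xc Q) (yc P) (yc Q)))) =
      lin P Q (-R) := by
    rw [Affine.CoordinateRing.YClass, hev, lin, xc_neg]
    simp only [Affine.linePolynomial, evalEval_sub, evalEval_X, evalEval_C, eval_add, eval_mul,
      eval_C, eval_sub, eval_X]
    grind
  unfold lcl
  split_ifs with hl
  · have eC : ev (Affine.CoordinateRing.mk W (C (Affine.linePolynomial (xc P) (yc P)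
        (W.slope (xc P) (xc Q) (yc P) (yc Q))) - W.negPolynomial)) = xc R := by
      have a1 : W.a₁ = 1 := by rw [hW]; rfl
      have a3 : W.a₃ = 0 := by rw [hW]; rfl
      rw [lin, xc_neg] at hl
      rw [hev]
      simp only [Affine.linePolynomial, Affine.negPolynomial, evalEval_sub, evalEval_neg,
        evalEval_X, evalEval_C, eval_add, eval_mul, eval_C, eval_sub, eval_X, a1, a3]
      grind
    have hC := nld_unit (K := W.FunctionField) (ev := ev) (t := t) (eC.symm ▸ hx)
    rw [eC] at hC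
    rw [xc_neg, dlt_neg, dlt_neg, dlt_neg]
    refine nld_div ?_ hC
    rw [← map_mul, nlead_prod hP hQ h, map_mul, map_mul]
    exact nld_mul (nld_mul (hLX P) (hLX Q)) (hLX (P + Q))
  · have := nld_unit (K := W.FunctionField) (ev := ev) (t := t) (eY.symm ▸ hl)
    rwa [eY] at this

theorem cN_coc (hW : W = Eb a B.b) (P Q S R : W.Point) :
    cN P Q R * cN (P + Q) S R = cN Q S R * cN P (Q + S) R := by
  by_cases hR : R = 0
  · simp [cN, hR]
  obtain ⟨Ld, h1, h2, h3⟩ := exists_lead hW hR
  exact h2 _ _ _ (h1 _ _ _ _ (h3 P Q) (h3 (P + Q) S))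
    (gF_coc hW P Q S ▸ h1 _ _ _ _ (h3 Q S) (h3 P (Q + S)))

end Pool.Agent.Lib.MP_788af2_nt.AS
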