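import Pool.Agent.Lib.MP_a3f657_nt.BK.NSym

/-!
The logarithmic derivative of the cubical function.
-/

set_option linter.unusedSectionVars false

namespace Pool.Agent.Lib.MP_788af2_nt.AS

open Polynomial WeierstrassCurve Pool.Agent.Lib.MP_a3f657_nt.Two

variable {F : Type} [Field F] [CharP F 2] [DecidableEq F] {a : F} {B : PB F} {W : Affine F}

private lemma ny_of (B : PB F) {P R : W.Point} (hP : P ≠ 0) (hR : R ≠ 0) :
    cY B P R = B.dl (xc P) * B.dl (xc R) +
      (yc P / xc P + yc R / xc R) * B.dl (dlt P R) + B.b / (xc P * xc R) := by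
  rw [cY, if_neg (by simp [hP, hR])]

private lemma ny_left (B : PB F) (R : W.Point) : cY B 0 R = 0 := by simp [cY]

private lemma ny_right (B : PB F) (P : W.Point) : cY B P 0 = 0 := by simp [cY]

private lemma ny_div (B : PB F) {x y : F} (hx : x ≠ 0) (hy : y ≠ 0) :
    B.dl (x / y) = B.dl x + B.dl y := by
  rw [div_eq_mul_inv, B.dl_mul hx (inv_ne_zero hy), B.dl_inv]

private lemma ny_yc_neg (hW : W = Eb a B.b) (P : W.Point) : yc (-P) = yc P + xc P := by
  subst hW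
  exact eb_yc_neg P

private lemma ny_wp (hW : W = Eb a B.b) {P : W.Point} (hP : P ≠ 0) :
    wp (yc P / xc P) = xc P + a + B.b / xc P ^ 2 := by
  have hx := nx_ne hW hP
  subst hW
  exact eb_wp P hx

/-- The vertical term. -/
private lemma ny_vert (hW : W = Eb a B.b) {P R : W.Point} (hP : P ≠ 0) (hR : R ≠ 0) :
    ((xc P)⁻¹ + (xc R)⁻¹) * B.dl (dlt P R) =
      B.dl (xc R) * (xc P)⁻¹ + B.dl (xc P) * (xc R)⁻¹ := by
  have h1 := nx_ne hW hP
  have h2 := nx_ne hW hR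
  unfold dlt
  split_ifs with h
  · rw [h, CharTwo.add_self_eq_zero, CharTwo.add_self_eq_zero, zero_mul]
  · have h3 : xc P + xc R ≠ 0 := fun e => h (CharTwo.add_eq_zero.1 e)
    simp only [PB.dl_eq, PB.D_add]
    field_simp
    ring

private lemma ny_dlt {P R : W.Point} (h : xc R + xc P ≠ 0) : dlt P R = xc R + xc P := by
  rw [dlt, if_neg, add_comm]
  intro e
  exact h (by rw [e, CharTwo.add_self_eq_zero])

private lemma ny_succ (B : PB F) {w : F} (h0 : w ≠ 0) (h1 : w + 1 ≠ 0) :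
    w * (B.dl w + B.dl (w + 1)) = B.dl (w + 1) := by
  simp only [PB.dl_eq, PB.D_add, PB.D_one, add_zero]
  field_simp
  grind

/-- The logarithmic derivative of the leading coefficient of a line. -/
private lemma ny_lcl (hW : W = Eb a B.b) {P Q R : W.Point} (hP : P ≠ 0) (hQ : Q ≠ 0)
    (h : P + Q ≠ 0) (hR : R ≠ 0) : lcl P Q (-R) ≠ 0 ∧
      B.dl (lcl P Q (-R)) = B.dl (xc R) + lin P Q R / xc R *
        (B.dl (dlt P R) + B.dl (dlt Q R) + B.dl (dlt (P + Q) R)) := by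
  have hx := nx_ne hW hR
  have d1 := dlt_ne hW P hR
  have d2 := dlt_ne hW Q hR
  have d3 := dlt_ne hW (P + Q) hR
  have hn := lin_neg hW P Q R
  have hm := lin_norm hW hP hQ h hR
  unfold lcl
  split_ifs with h0
  · simp only [dlt_neg, xc_neg]
    have d4 := mul_ne_zero (mul_ne_zero d1 d2) d3
    refine ⟨div_ne_zero d4 hx, ?_⟩
    have e : lin P Q R = xc R := by rw [h0] at hn; exact CharTwo.add_eq_zero.1 hn.symm
    rw [ny_div B d4 hx, B.dl_mul (mul_ne_zero d1 d2) d3, B.dl_mul d1 d2, e, div_self hx]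
    ring
  refine ⟨h0, ?_⟩
  by_cases h1 : lin P Q R = 0
  · rw [hn, h1, zero_add, zero_div, zero_mul, add_zero]
  have h2 := hm ▸ mul_ne_zero h1 h0
  have h3 := left_ne_zero_of_mul h2
  have h4 := left_ne_zero_of_mul h3
  have h5 := right_ne_zero_of_mul h3
  have h6 := right_ne_zero_of_mul h2
  rw [ny_dlt h4, ny_dlt h5, ny_dlt h6, ← B.dl_mul h4 h5, ← B.dl_mul h3 h6, ← hm]
  obtain ⟨w, hw⟩ : ∃ w, lin P Q R = xc R * w := ⟨lin P Q R / xc R, by field_simp⟩
  have e1 : lin P Q (-R) = xc R * (w + 1) := by rw [hn, hw]; ring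
  have w0 : w ≠ 0 := right_ne_zero_of_mul (hw ▸ h1)
  have w1 : w + 1 ≠ 0 := right_ne_zero_of_mul (e1 ▸ h0)
  rw [B.dl_mul h1 h0, e1, hw, B.dl_mul hx w0, B.dl_mul hx w1, mul_div_cancel_left₀ _ hx]
  have := ny_succ B w0 w1
  grind

lemma cY_comm (B : PB F) (P R : W.Point) : cY B P R = cY B R P := by
  by_cases hP : P = 0
  · rw [hP, ny_left, ny_right]
  by_cases hR : R = 0
  · rw [hR, ny_left, ny_right]
  rw [ny_of B hP hR, ny_of B hR hP, dlt_comm P R]
  ring

theorem cY_add (hW : W = Eb a B.b) (P Q R : W.Point) :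
    B.dl (cN P Q R) = cY B P R + cY B Q R + cY B (P + Q) R := by
  by_cases hP : P = 0
  · rw [cN, if_pos (Or.inl hP), hP, zero_add, ny_left, zero_add, CharTwo.add_self_eq_zero,
      PB.dl_one]
  by_cases hQ : Q = 0
  · rw [cN, if_pos (Or.inr (Or.inl hQ)), hQ, add_zero, ny_left, add_zero,
      CharTwo.add_self_eq_zero, PB.dl_one]
  by_cases hR : R = 0
  · rw [cN, if_pos (Or.inr (Or.inr hR)), hR, ny_right, ny_right, ny_right, PB.dl_one]
    simp
  rw [cN, if_neg (by simp [hP, hQ, hR])]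
  have x1 := nx_ne hW hP
  have x2 := nx_ne hW hQ
  have x0 := nx_ne hW hR
  by_cases h : P + Q = 0
  · have e : Q = -P := (neg_eq_of_add_eq_zero_right h).symm
    have e1 : dlt Q R = dlt P R := by rw [e, dlt_comm, dlt_neg, dlt_comm]
    have e2 : xc Q = xc P := by rw [e, xc_neg]
    have e3 : yc Q / xc P = yc P / xc P + 1 := by
      rw [e, ny_yc_neg hW, add_div, div_self x1]
    rw [if_pos h, h, ny_left, ny_of B hP hR, ny_of B hQ hR, e1, e2, e3]
    grind
  have x3 := nx_ne hW h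
  obtain ⟨c1, c2⟩ := ny_lcl hW hP hQ h hR
  obtain ⟨l, μ, hl, l1, l2, l3, -, s2, s3⟩ := line_data hW hP hQ h
  have v1 := ny_vert hW hP hR
  have v2 := ny_vert hW hQ hR
  have v3 := ny_vert hW h hR
  rw [if_neg h, ny_div B c1 (dlt_ne hW _ hR), c2, ny_of B hP hR, ny_of B hQ hR, ny_of B h hR]
  rw [hl] at l1 l2 l3
  rw [ny_yc_neg hW, xc_neg] at l3
  have u0 : yc R / xc R = lin P Q R / xc R + l + μ * (xc R)⁻¹ := by
    rw [hl]; field_simp; grind
  have u1 : yc P / xc P = l + μ * (xc P)⁻¹ := by field_simp; grind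
  have u2 : yc Q / xc Q = l + μ * (xc Q)⁻¹ := by field_simp; grind
  have u3 : yc (P + Q) / xc (P + Q) = l + μ * (xc (P + Q))⁻¹ + 1 := by field_simp; grind
  have n0 := mul_ne_zero (mul_ne_zero x1 x2) x3
  have t1 : B.dl (xc P) + B.dl (xc Q) + B.dl (xc (P + Q)) =
      B.b * (xc P * xc Q * xc (P + Q))⁻¹ := by
    rw [← B.dl_mul x1 x2, ← B.dl_mul (mul_ne_zero x1 x2) x3, PB.dl_eq]
    conv_lhs => rw [s3, PB.D_add, PB.D_sq, PB.D_b, ← s3]
    rw [add_zero, mul_one, div_eq_mul_inv]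
  have t2 : (xc P)⁻¹ + (xc Q)⁻¹ + (xc (P + Q))⁻¹ = μ * (xc P * xc Q * xc (P + Q))⁻¹ := by
    rw [← s2]; field_simp; ring
  have t3 : (B.b + μ ^ 2) * (xc P * xc Q * xc (P + Q))⁻¹ = 1 := by
    rw [← s3, mul_inv_cancel₀ n0]
  rw [u0, u1, u2, u3]
  simp only [div_eq_mul_inv B.b, mul_inv]
  simp only [mul_inv] at t1 t2 t3
  generalize lin P Q R / xc R = w at *
  generalize (xc P)⁻¹ * (xc Q)⁻¹ * (xc (P + Q))⁻¹ = N at *
  generalize (xc P)⁻¹ = i1 at *
  generalize (xc Q)⁻¹ = i2 at *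
  generalize (xc (P + Q))⁻¹ = i3 at *
  generalize (xc R)⁻¹ = i0 at *
  generalize B.dl (dlt P R) = f1 at *
  generalize B.dl (dlt Q R) = f2 at *
  generalize B.dl (dlt (P + Q) R) = f3 at *
  generalize B.dl (xc P) = e1 at *
  generalize B.dl (xc Q) = e2 at *
  generalize B.dl (xc (P + Q)) = e3 at *
  generalize B.dl (xc R) = e0 at *
  have two : (2 : F) = 0 := CharTwo.two_eq_zero
  linear_combination (-μ) * v1 - μ * v2 - μ * v3 - (e0 + μ * i0) * t1 -
    (B.b * i0 + μ * e0) * t2 - e0 * t3 -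
    (l * (f1 + f2 + f3) + μ * i0 * B.b * N) * two

theorem cY_c0 (hW : W = Eb a B.b) (P R : W.Point) :
    cY B P R + B.c0 (cY B P R) = B.b * (B.kap (xc P) * B.kap (xc R)) := by
  by_cases hP : P = 0
  · simp [hP, ny_left, PB.kap]
  by_cases hR : R = 0
  · simp [hR, ny_right, PB.kap]
  have x1 := nx_ne hW hP
  have x0 := nx_ne hW hR
  have c1dl : ∀ x : F, B.c1 (B.dl x) = B.c0 x * B.c1 x / x := fun x => by
    by_cases hx : x = 0
    · simp [hx, PB.dl]
    have : B.dl x = (B.c1 x / x) ^ 2 * (B.b * x) := by unfold PB.dl; field_simp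
    rw [this, PB.c1_sq_mul, PB.c1_b_mul]
    ring
  have cu : ∀ {T : W.Point}, T ≠ 0 → B.c0 (yc T / xc T) = yc T / xc T + B.c0 (xc T) + B.c0 a ∧
      B.c1 (yc T / xc T) = B.c1 (xc T) + B.c1 a + (xc T)⁻¹ := fun {T} hT => by
    have e := ny_wp hW hT
    have e0 : B.b / xc T ^ 2 = B.b * (xc T)⁻¹ ^ 2 := by rw [div_eq_mul_inv, inv_pow]
    have e1 := B.c0_wp (yc T / xc T)
    have e2 := B.c1_wp (yc T / xc T)
    rw [e, e0, PB.c0_add, PB.c0_add, PB.c0_b_sq] at e1
    rw [e, e0, PB.c1_add, PB.c1_add, PB.c1_b_sq] at e2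
    exact ⟨by grind, e2.symm⟩
  have cb : B.c0 (B.b / (xc P * xc R)) =
      B.b * (B.c0 (xc P) * B.c1 (xc R) + B.c1 (xc P) * B.c0 (xc R)) / (xc P * xc R) := by
    have : B.b / (xc P * xc R) = (xc P * xc R)⁻¹ ^ 2 * (B.b * (xc P * xc R)) := by field_simp
    rw [this, PB.c0_sq_mul, PB.c0_b_mul, PB.c1_mul]
    field_simp
  rw [ny_of B hP hR]
  simp only [PB.c0_add, PB.c0_mul, PB.c1_add, PB.c0_dl, c1dl, cb, (cu hP).1, (cu hP).2,
    (cu hR).1, (cu hR).2, PB.kap]
  have two : (2 : F) = 0 := CharTwo.two_eq_zero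
  generalize yc P / xc P = u1
  generalize yc R / xc R = u0
  unfold dlt
  split_ifs with h
  · rw [h]
    generalize B.dl (xc R) = e
    field_simp
    grind
  · have h3 : xc P + xc R ≠ 0 := fun e => h (CharTwo.add_eq_zero.1 e)
    generalize B.dl (xc R) = e
    generalize B.dl (xc P) = e'
    simp only [PB.dl, PB.c0_add, PB.c1_add]
    field_simp
    grind

theorem cY_map {F' : Type} [Field F'] [CharP F' 2] [DecidableEq F'] {B' : PB F'} {W' : Affine F'}
    (φ : F →+* F') (hB : B'.b = φ B.b) (j : W.Point →+ W'.Point) (hj : Function.Injective j)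
    (hx : ∀ P, xc (j P) = φ (xc P)) (hy : ∀ P, yc (j P) = φ (yc P)) (P R : W.Point) :
    cY B' (j P) (j R) = φ (cY B P R) := by
  by_cases hP : P = 0
  · rw [hP, map_zero, ny_left, ny_left, map_zero]
  by_cases hR : R = 0
  · rw [hR, map_zero, ny_right, ny_right, map_zero]
  have e : dlt (j P) (j R) = φ (dlt P R) := by
    simp only [dlt, hx, φ.injective.eq_iff]
    split_ifs
    · rfl
    · rw [map_add]
  rw [ny_of B hP hR, ny_of B' ((map_ne_zero_iff j hj).2 hP) ((map_ne_zero_iff j hj).2 hR), e]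
  simp only [hx, hy, B.map_dl hB, hB, map_add, map_mul, map_div₀]

end Pool.Agent.Lib.MP_788af2_nt.AS
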