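import Pool.Agent.Lib.MP_a3f657_nt.BK.SDefs

/-!
Locally constant additive cocycles are coboundaries.
-/

set_option linter.unusedSectionVars false

namespace Pool.Agent.Lib.MP_788af2_nt.AS

open Polynomial WeierstrassCurve Pool.Agent.Lib.MP_a3f657_nt.Two IsDedekindDomain

attribute [local instance 10000] Classical.propDecidable

lemma gal_locConst {K : Type} [Field K] (x : SeparableClosure K) :
    IsLocallyConstant fun σ : Gal K => σ x :=
  (IsLocallyConstant.iff_eventually_eq _).2 fun σ => by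
    have h3 := (stabilizer_isOpen_of_isIntegral (K := K) x).preimage (continuous_const_mul σ⁻¹)
    filter_upwards [h3.mem_nhds (x := σ) (by simp)] with τ hτ
    have h4 : σ.symm (τ x) = x := hτ
    rw [← σ.apply_symm_apply (τ x), h4]

theorem h90 {K : Type} [Field K] (c : Gal K → SeparableClosure K) (h1 : IsLocallyConstant c)
    (h2 : ∀ σ τ, c (σ * τ) = c σ + σ (c τ)) : ∃ y, ∀ σ, c σ = σ y - y := by
  have c1 : c 1 = 0 := by
    have h := h2 1 1
    rw [mul_one, AlgEquiv.one_apply] at h
    exact left_eq_add.1 h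
  have hn : {σ : Gal K | c σ = 0} ∈ nhds (1 : Gal K) := by
    have h := h1.eventually_eq (1 : Gal K)
    rw [c1] at h
    exact h
  obtain ⟨E, hfin, hnor, hE⟩ :=
    (krullTopology_mem_nhds_one_iff_of_normal K (SeparableClosure K) _).1 hn
  haveI : IsGalois K E := {}
  let r : Gal K →* (E ≃ₐ[K] E) := AlgEquiv.restrictNormalHom E
  have hr : Function.Surjective r := AlgEquiv.restrictNormalHom_surjective (SeparableClosure K)
  have hra : ∀ (σ : Gal K) (x : E), ((r σ x : E) : SeparableClosure K) = σ x := fun σ x =>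
    AlgEquiv.restrictNormalHom_apply E σ x
  have hc : ∀ ρ ρ' : Gal K, r ρ = r ρ' → c ρ = c ρ' := by
    intro ρ ρ' h
    have hm : ρ⁻¹ * ρ' ∈ E.fixingSubgroup := by
      rw [← IntermediateField.restrictNormalHom_ker, MonoidHom.mem_ker]
      show r (ρ⁻¹ * ρ') = 1
      rw [map_mul, map_inv, h, inv_mul_cancel]
    have h0 : c (ρ⁻¹ * ρ') = 0 := hE hm
    have h3 := h2 ρ (ρ⁻¹ * ρ')
    rw [mul_inv_cancel_left, h0, map_zero, add_zero] at h3
    exact h3.symm
  choose s hs using hr
  obtain ⟨x, hx⟩ := Algebra.trace_surjective K E 1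
  have hsum : ∑ g : E ≃ₐ[K] E, ((g x : E) : SeparableClosure K) = 1 := by
    have h := trace_eq_sum_automorphisms (K := K) x
    rw [hx, map_one] at h
    have h' := congrArg (fun z : E => (z : SeparableClosure K)) h
    simpa using h'.symm
  refine ⟨- ∑ g : E ≃ₐ[K] E, c (s g) * ((g x : E) : SeparableClosure K), fun σ => ?_⟩
  have e1 : ∀ g : E ≃ₐ[K] E, σ (c (s g) * ((g x : E) : SeparableClosure K)) =
      c (s (r σ * g)) * (((r σ * g) x : E) : SeparableClosure K) -
        c σ * (((r σ * g) x : E) : SeparableClosure K) := by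
    intro g
    have h3 : c (s (r σ * g)) = c (σ * s g) := hc _ _ (by rw [hs, map_mul, hs])
    rw [map_mul, h3, h2, AlgEquiv.mul_apply, hra]
    ring
  have e2 : ∑ g : E ≃ₐ[K] E, c (s (r σ * g)) * (((r σ * g) x : E) : SeparableClosure K) =
      ∑ g : E ≃ₐ[K] E, c (s g) * ((g x : E) : SeparableClosure K) :=
    Equiv.sum_comp (Equiv.mulLeft (r σ))
      (fun g : E ≃ₐ[K] E => c (s g) * ((g x : E) : SeparableClosure K))
  have e3 : ∑ g : E ≃ₐ[K] E, (((r σ * g) x : E) : SeparableClosure K) = 1 :=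
    (Equiv.sum_comp (Equiv.mulLeft (r σ))
      (fun g : E ≃ₐ[K] E => ((g x : E) : SeparableClosure K))).trans hsum
  rw [map_neg, map_sum, Finset.sum_congr rfl fun g _ => e1 g, Finset.sum_sub_distrib, e2,
    ← Finset.mul_sum, e3]
  ring

end Pool.Agent.Lib.MP_788af2_nt.AS
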