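import Pool.Agent.Lib.MP_a3f657_nt.BK.SPt
import Pool.Agent.Lib.MP_a3f657_nt.BK.H90

/-!
Basic facts on points that are fixed modulo powers of two.
-/

set_option linter.unusedSectionVars false

namespace Pool.Agent.Lib.MP_788af2_nt.AS

open Polynomial WeierstrassCurve Pool.Agent.Lib.MP_a3f657_nt.Two IsDedekindDomain

attribute [local instance 10000] Classical.propDecidable

section gen

variable {F K : Type} [Field F] [CharP F 2] [Field K] [CharP K 2] [Algebra F K] {A : F} {P : PB F}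
  {n : ℕ}

private lemma sbas_sep {Q : PB K} (hQ : Q.b = algebraMap F K P.b) :
    ∃ Qs : PB (SeparableClosure K), Qs.b = algebraMap F _ P.b := by
  obtain ⟨Qs, hQs⟩ := Q.exists_sep (SeparableClosure K)
  exact ⟨Qs, by rw [hQs, hQ, ← IsScalarTower.algebraMap_apply]⟩

lemma FxM_mono {W : WeierstrassCurve F} {m : ℕ} (h : m ≤ n) : FxM W n ≤ FxM W m := by
  intro w hw σ
  obtain ⟨S, e⟩ := hw σ
  obtain ⟨d, rfl⟩ := Nat.exists_eq_add_of_le h
  exact ⟨2 ^ d • S, by rw [e, pow_add, mul_smul]⟩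

lemma LcM_mono {W : WeierstrassCurve F} {m : ℕ} (h : m ≤ n) : LcM W K n ≤ LcM W K m := by
  intro w hw i
  obtain ⟨R, S, e⟩ := hw i
  obtain ⟨d, rfl⟩ := Nat.exists_eq_add_of_le h
  exact ⟨R, 2 ^ d • S, by rw [e, pow_add, mul_smul]⟩

lemma pow_mem_FxM {W : WeierstrassCurve F} (i : ℕ) {w : Pt W (SeparableClosure F)}
    (h : w ∈ FxM W n) : 2 ^ i • w ∈ FxM W (i + n) := by
  intro σ
  obtain ⟨S, e⟩ := h σ
  exact ⟨S, by rw [pow_add, mul_smul, ← e, map_nsmul, smul_sub]⟩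

lemma pow_mem_LcM {W : WeierstrassCurve F} (i : ℕ) {w : Pt W (SeparableClosure F)}
    (h : w ∈ LcM W K n) : 2 ^ i • w ∈ LcM W K (i + n) := by
  intro j
  obtain ⟨R, S, e⟩ := h j
  exact ⟨2 ^ i • R, S, by rw [pow_add, mul_smul, ← e, map_nsmul, map_nsmul, smul_sub]⟩

lemma FxM_zero {W : WeierstrassCurve F} (w : Pt W (SeparableClosure F)) : w ∈ FxM W 0 := by
  intro σ
  exact ⟨_, by rw [pow_zero, one_smul]⟩

lemma LcM_zero {W : WeierstrassCurve F} (w : Pt W (SeparableClosure F)) : w ∈ LcM W K 0 := by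
  intro i
  exact ⟨0, _, by rw [pow_zero, one_smul]⟩

/-- One embedding suffices. -/
lemma LcM_of_one {W : WeierstrassCurve F} {w : Pt W (SeparableClosure F)} (h : w ∈ FxM W n)
    (i : SeparableClosure F →ₐ[F] SeparableClosure K) {m : Pt W K}
    {U : Pt W (SeparableClosure K)} (e : pm W i w - pm W (toSep F K) m = 2 ^ n • U) :
    w ∈ LcM W K n := by
  intro i'
  obtain ⟨σ, hσ⟩ := emb_conj i i'
  obtain ⟨S, hS⟩ := h σ
  have e1 : pm W i' w = pm W i (pm W σ.toAlgHom w) := by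
    rw [Affine.Point.map_map]
    congr 2
    exact AlgHom.ext hσ
  refine ⟨m, pm W i S + U, ?_⟩
  rw [smul_add, ← e, ← map_nsmul, ← hS, map_sub, e1]
  abel

lemma FxM_loc {W : WeierstrassCurve F} {w : Pt W (SeparableClosure F)} (h : w ∈ FxM W n)
    (i : SeparableClosure F →ₐ[F] SeparableClosure K) (τ : Gal K) :
    ∃ S, pm W (τ.toAlgHom.restrictScalars F) (pm W i w) - pm W i w = 2 ^ n • S := by
  obtain ⟨S, hS⟩ := h (resG i τ)
  exact ⟨pm W i S, by rw [pm_resG, ← map_sub, hS, map_nsmul]⟩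

lemma FxM_half {w : Pt (EW A P.b) (SeparableClosure F)} (h : 2 • w ∈ FxM (EW A P.b) (n + 1)) :
    w ∈ FxM (EW A P.b) n := by
  obtain ⟨Ps, hPs⟩ := P.exists_sep (SeparableClosure F)
  intro σ
  obtain ⟨S, hS⟩ := h σ
  refine ⟨S, eb_pow_inj (bc_EW' A hPs) 1 ?_⟩
  rw [pow_one, ← mul_smul, ← pow_succ', ← hS, map_nsmul, smul_sub]

lemma LcM_half {Q : PB K} (hQ : Q.b = algebraMap F K P.b)
    {w : Pt (EW A P.b) (SeparableClosure F)} (h : 2 • w ∈ LcM (EW A P.b) K (n + 1)) :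
    w ∈ LcM (EW A P.b) K n := by
  obtain ⟨Qs, hQs⟩ := sbas_sep hQ
  intro i
  obtain ⟨m, U, e⟩ := h i
  have e1 : kp Qs (pm (EW A P.b) (toSep F K) m) = 0 :=
    (kp_eq_zero (bc_EW' A hQs)).2 ⟨pm _ i w - 2 ^ n • U, by
      rw [smul_sub, ← mul_smul, ← pow_succ', ← e, map_nsmul]; abel⟩
  rw [kp_pm _ hQ hQs, map_eq_zero] at e1
  obtain ⟨m', rfl⟩ := (kp_eq_zero (bc_EW' A hQ)).1 e1
  refine ⟨m', U, eb_pow_inj (bc_EW' A hQs) 1 ?_⟩
  rw [pow_one, ← mul_smul, ← pow_succ', ← e, map_nsmul, map_nsmul, smul_sub]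

/-- Divisibility descends along embeddings. -/
lemma div_of_pm {Q : PB (SeparableClosure K)} (hQ : Q.b = algebraMap F _ P.b)
    (i : SeparableClosure F →ₐ[F] SeparableClosure K) {w : Pt (EW A P.b) (SeparableClosure F)}
    {U : Pt (EW A P.b) (SeparableClosure K)} (h : pm _ i w = 2 ^ n • U) :
    ∃ U₀, w = 2 ^ n • U₀ ∧ pm _ i U₀ = U := by
  obtain ⟨Ps, hPs⟩ := P.exists_sep (SeparableClosure F)
  induction n generalizing w with
  | zero => exact ⟨w, by rw [pow_zero, one_smul], by rw [h, pow_zero, one_smul]⟩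
  | succ n ih =>
    have e1 : kp Q (pm (EW A P.b) i w) = 0 :=
      (kp_eq_zero (bc_EW' A hQ)).2 ⟨2 ^ n • U, by rw [h, pow_succ', mul_smul]⟩
    rw [kp_pm _ hPs hQ, map_eq_zero] at e1
    obtain ⟨w', rfl⟩ := (kp_eq_zero (bc_EW' A hPs)).1 e1
    obtain ⟨U₀, e2, e3⟩ := ih (w := w') (eb_pow_inj (bc_EW' A hQ) 1 (by
      rw [pow_one, ← mul_smul, ← pow_succ', ← h, map_nsmul]))
    exact ⟨U₀, by rw [e2, pow_succ', mul_smul], e3⟩

lemma FxM_one {Ps : PB (SeparableClosure F)} (hPs : Ps.b = algebraMap F _ P.b)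
    {w : Pt (EW A P.b) (SeparableClosure F)} :
    w ∈ FxM (EW A P.b) 1 ↔ ∃ s, kp Ps w = algebraMap F _ s := by
  refine ⟨fun h => ?_, fun ⟨s, hs⟩ σ => ?_⟩
  · obtain ⟨s, hs⟩ := exists_fixed (K := F) (x := kp Ps w) fun σ => by
      obtain ⟨S, hS⟩ := h σ
      rw [pow_one] at hS
      have e := (kp_eq (bc_EW' A hPs)).2 ⟨S, hS⟩
      rwa [kp_pm _ hPs hPs] at e
    exact ⟨s, hs.symm⟩
  · rw [pow_one]
    refine (kp_eq (bc_EW' A hPs)).1 ?_
    rw [kp_pm _ hPs hPs, hs, AlgHom.commutes]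

lemma LcM_one {Ps : PB (SeparableClosure F)} (hPs : Ps.b = algebraMap F _ P.b) {Q : PB K}
    (hQ : Q.b = algebraMap F K P.b) {w : Pt (EW A P.b) (SeparableClosure F)} {s : F}
    (h : kp Ps w = algebraMap F _ s) :
    w ∈ LcM (EW A P.b) K 1 ↔ algebraMap F K s ∈ LL Q (algebraMap F K A) := by
  obtain ⟨Qs, hQs⟩ := sbas_sep hQ
  have e0 : ∀ i : SeparableClosure F →ₐ[F] SeparableClosure K,
      kp Qs (pm (EW A P.b) i w) = toSep F K (algebraMap F K s) := fun i => by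
    rw [kp_pm _ hPs hQs, h, i.commutes, AlgHom.commutes]
  rw [mem_LL' (bc_EW' A hQ)]
  refine ⟨fun H => ?_, fun ⟨R, hR⟩ i => ⟨R, ?_⟩⟩
  · obtain ⟨m, U, e⟩ := H IsSepClosed.lift
    rw [pow_one] at e
    have e1 := (kp_eq (bc_EW' A hQs)).2 ⟨U, e⟩
    rw [e0, kp_pm _ hQ hQs] at e1
    exact ⟨m, ((toSep F K).injective e1).symm⟩
  · rw [pow_one]
    refine (kp_eq (bc_EW' A hQs)).1 ?_
    rw [e0, kp_pm _ hQ hQs, hR]

/-- The local obstruction is rational. -/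
lemma kp_loc {Qs : PB (SeparableClosure K)} (hQ : Qs.b = algebraMap F _ P.b)
    {w : Pt (EW A P.b) (SeparableClosure F)} (h : w ∈ FxM (EW A P.b) (n + 1))
    (i : SeparableClosure F →ₐ[F] SeparableClosure K) {m : Pt (EW A P.b) K}
    {U : Pt (EW A P.b) (SeparableClosure K)} (e : pm _ i w - pm _ (toSep F K) m = 2 ^ n • U) :
    ∃ s : K, kp Qs U = algebraMap K _ s := by
  obtain ⟨s, hs⟩ := exists_fixed (K := K) (x := kp Qs U) fun τ => by
    obtain ⟨S, hS⟩ := FxM_loc h i τ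
    have e1 : pm (EW A P.b) (τ.toAlgHom.restrictScalars F) U - U = 2 • S := by
      refine eb_pow_inj (bc_EW' A hQ) n ?_
      rw [← mul_smul, ← pow_succ, ← hS, smul_sub, ← map_nsmul, ← e, map_sub, pm_toSep]
      abel
    have e2 := (kp_eq (bc_EW' A hQ)).2 ⟨S, e1⟩
    rwa [kp_pm _ hQ hQ] at e2
  exact ⟨s, hs.symm⟩

/-- Lifting without local conditions. -/
theorem FxM_lift {w : Pt (EW A P.b) (SeparableClosure F)} (h : w ∈ FxM (EW A P.b) n) :
    ∃ S, w - 2 ^ n • S ∈ FxM (EW A P.b) (n + 1) := by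
  obtain ⟨Ps, hPs⟩ := P.exists_sep (SeparableClosure F)
  have hW := bc_EW' A hPs
  choose S hS using h
  obtain ⟨y, hy⟩ := h90 (K := F) (fun σ => kp Ps (S σ))
    ((IsLocallyConstant.iff_eventually_eq _).2 fun σ => by
      filter_upwards [(pm_locConst w).eventually_eq σ] with τ hτ
      rw [eb_pow_inj hW n (show 2 ^ n • S τ = 2 ^ n • S σ by rw [← hS, ← hS, hτ])])
    fun σ τ => by
      have e : S (σ * τ) = S σ + pm _ σ.toAlgHom (S τ) := eb_pow_inj hW n (by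
        rw [smul_add, ← map_nsmul, ← hS, ← hS, ← hS, map_sub, Affine.Point.map_map, add_comm,
          sub_add_sub_cancel]
        rfl)
      rw [e, kp_add hW, kp_pm _ hPs hPs]
      rfl
  obtain ⟨R, hR⟩ := kp_surj hW y
  refine ⟨R, fun σ => ?_⟩
  obtain ⟨U, hU⟩ := (kp_eq hW (R := S σ) (S := pm _ σ.toAlgHom R - R)).1 (by
    rw [kp_sub hW, kp_pm _ hPs hPs, hR, hy, CharTwo.sub_eq_add]
    rfl)
  refine ⟨U, ?_⟩
  rw [pow_succ, mul_smul, ← hU, smul_sub, smul_sub, ← hS, map_sub, map_nsmul]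
  abel

end gen

variable {k : Type} [Field k] [Finite k] [CharP k 2] {A : RatFunc k} {P : PB (RatFunc k)} {n : ℕ}

lemma exists_Qv (P : PB (RatFunc k)) (v : HeightOneSpectrum k[X]) :
    ∃ Q : PB (Kv v), Q.b = algebraMap _ _ P.b :=
  (exists_cpl_some v).choose_spec.exists_PB P

lemma exists_Qi (P : PB (RatFunc k)) : ∃ Q : PB (Ki k), Q.b = algebraMap _ _ P.b :=
  (exists_cpl_none (k := k)).choose_spec.exists_PB P

lemma Wf_mono {W : WeierstrassCurve (RatFunc k)} {m : ℕ} (h : m ≤ n) : Wf W n ≤ Wf W m := by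
  intro w hw
  exact mem_Wf.2 ⟨FxM_mono h (mem_Wf.1 hw).1, fun v => LcM_mono h ((mem_Wf.1 hw).2 v)⟩

lemma pow_mem_Wf {W : WeierstrassCurve (RatFunc k)} (i : ℕ) {w : Pt W (Fs k)} (h : w ∈ Wf W n) :
    2 ^ i • w ∈ Wf W (i + n) := by
  exact mem_Wf.2 ⟨pow_mem_FxM i (mem_Wf.1 h).1, fun v => pow_mem_LcM i ((mem_Wf.1 h).2 v)⟩

lemma Wf_half {w : Pt (EW A P.b) (Fs k)} (h : 2 • w ∈ Wf (EW A P.b) (n + 1)) :
    w ∈ Wf (EW A P.b) n := by
  exact mem_Wf.2 ⟨FxM_half (mem_Wf.1 h).1, fun v =>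
    LcM_half (exists_Qv P v).choose_spec ((mem_Wf.1 h).2 v)⟩

end Pool.Agent.Lib.MP_788af2_nt.AS
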