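import Pool.Agent.Lib.MP_a3f657_nt.BK.BAbs2
import Pool.Agent.Lib.MP_a3f657_nt.BK.NLead
import Pool.Agent.Lib.MP_a3f657_nt.BK.NY
import Pool.Agent.Lib.MP_a3f657_nt.BK.SBas

/-!
The pairing on the points of the curve over a separable closure.
-/

set_option linter.unusedSectionVars false

namespace Pool.Agent.Lib.MP_788af2_nt.AS

open Polynomial WeierstrassCurve Pool.Agent.Lib.MP_a3f657_nt.Two IsDedekindDomain

attribute [local instance 10000] Classical.propDecidable

variable {F K K' : Type} [Field F] [CharP F 2] [Field K] [CharP K 2] [Algebra F K] [Field K']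
  [CharP K' 2] [Algebra F K'] {A B : F} {Q : PB K}

lemma bc_sep (A : F) (hQ : Q.b = algebraMap F K B) : ∃ Qs : PB (SeparableClosure K),
    Qs.b = algebraMap K _ Q.b ∧ ((EW A B).baseChange (SeparableClosure K)).toAffine =
      Eb (algebraMap F _ A) Qs.b := by
  obtain ⟨Qs, h⟩ := Q.exists_sep (SeparableClosure K)
  exact ⟨Qs, h, bc_EW' A (by rw [h, hQ, ← IsScalarTower.algebraMap_apply])⟩

/-- The cubical function with values in the units. -/
noncomputable def bN (A : F) (hQ : Q.b = algebraMap F K B) (R S U : Pt (EW A B) (SeparableClosure K)) :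
    Additive (SeparableClosure K)ˣ :=
  Additive.ofMul (Units.mk0 (cN R S U) (cN_ne (bc_sep A hQ).choose_spec.2 R S U))

lemma bconc_ext {L : Type} [Field L] {m m' : Additive Lˣ}
    (h : ((Additive.toMul m : Lˣ) : L) = (Additive.toMul m' : Lˣ)) : m = m' :=
  Additive.toMul.injective (Units.ext h)

lemma bN_cub (A : F) (hQ : Q.b = algebraMap F K B) : Cub (bN A hQ) := by
  have hW := (bc_sep A hQ).choose_spec.2
  refine ⟨fun S U => bconc_ext ?_, fun R S U => bconc_ext (cN_sw₁ hW R S U),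
    fun R S U => bconc_ext (cN_sw₂ hW R S U), fun R S T U => bconc_ext (cN_coc hW R S T U)⟩
  change cN 0 S U = 1
  simp [cN]

lemma sU_mul (σ τ : Gal K) (m : Additive (SeparableClosure K)ˣ) :
    sU K (σ * τ) m = sU K σ (sU K τ m) := bconc_ext rfl

lemma bN_eqv (A : F) (hQ : Q.b = algebraMap F K B) (σ : Gal K)
    (R S U : Pt (EW A B) (SeparableClosure K)) :
    sU K σ (bN A hQ R S U) = bN A hQ (pm _ (σ.toAlgHom.restrictScalars F) R)
      (pm _ (σ.toAlgHom.restrictScalars F) S) (pm _ (σ.toAlgHom.restrictScalars F) U) := by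
  have hW := (bc_sep A hQ).choose_spec.2
  exact bconc_ext (cN_map hW hW ((σ.toAlgHom.restrictScalars F :
    SeparableClosure K →ₐ[F] SeparableClosure K) : SeparableClosure K →+* SeparableClosure K)
    (pm _ (σ.toAlgHom.restrictScalars F)) (Affine.Point.map_injective _)
    (xc_pm _ _) (yc_pm _ _) R S U).symm

lemma unit_tf (m : Additive (SeparableClosure K)ˣ) (h : 2 • m = 0) : m = 0 := by
  refine bconc_ext (sq_inj ?_)
  have := congrArg (fun z : Additive (SeparableClosure K)ˣ =>
    ((Additive.toMul z : (SeparableClosure K)ˣ) : SeparableClosure K)) h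
  simpa using this

/-- The logarithmic derivative on units. -/
noncomputable def bconcD {L : Type} [Field L] [CharP L 2] (P : PB L) : Additive Lˣ →+ L :=
  AddMonoidHom.mk' (fun m => P.dl ((Additive.toMul m : Lˣ) : L)) fun m m' => by
    rw [toMul_add, Units.val_mul, P.dl_mul (Units.ne_zero _) (Units.ne_zero _)]

lemma bconcD_eq_zero {L : Type} [Field L] [CharP L 2] (P : PB L) (m : Additive Lˣ) :
    bconcD P m = 0 ↔ ∃ r, m = 2 • r := by
  constructor
  · intro h
    have h0 := Units.ne_zero (Additive.toMul m)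
    have h1 : P.b * P.c1 ((Additive.toMul m : Lˣ) : L) ^ 2 / ((Additive.toMul m : Lˣ) : L) = 0 := h
    rw [div_eq_zero_iff, or_iff_left h0, mul_eq_zero, or_iff_right P.b_ne,
      pow_eq_zero_iff two_ne_zero] at h1
    have h2 := P.eq_sq h1
    have h3 : P.c0 ((Additive.toMul m : Lˣ) : L) ≠ 0 := fun e => h0 (by rw [h2, e]; simp)
    exact ⟨Additive.ofMul (Units.mk0 _ h3), bconc_ext (by simpa using h2)⟩
  · rintro ⟨r, rfl⟩
    rw [map_nsmul, two_nsmul]
    exact CharTwo.add_self_eq_zero _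

lemma bconcD_sU {Qs : PB (SeparableClosure K)} (hs : Qs.b = algebraMap K _ Q.b) (σ : Gal K)
    (m : Additive (SeparableClosure K)ˣ) : bconcD Qs (sU K σ m) = σ (bconcD Qs m) :=
  Qs.map_dl (f := (σ : SeparableClosure K →+* SeparableClosure K)) (by simp [hs]) _

lemma unit_inv₂ (Q : PB K) (m : Additive (SeparableClosure K)ˣ)
    (h : ∀ σ, ∃ r, sU K σ m - m = 2 • r) :
    ∃ m₀ m', (∀ σ, sU K σ m₀ = m₀) ∧ m = m₀ + 2 • m' := by
  obtain ⟨Qs, hs⟩ := Q.exists_sep (SeparableClosure K)
  obtain ⟨e, he⟩ : ∃ e, algebraMap K _ e = bconcD Qs m := exists_fixed fun σ => by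
    have := (bconcD_eq_zero Qs _).2 (h σ)
    rwa [map_sub, bconcD_sU hs, sub_eq_zero] at this
  have h1 : Q.c0 e = e := (algebraMap K (SeparableClosure K)).injective (by
    rw [← Q.map_c0 hs, he]
    exact Qs.c0_dl _)
  obtain ⟨x, hx, hd⟩ := Q.exists_dl h1
  have hx' : algebraMap K (SeparableClosure K) x ≠ 0 := by simpa using hx
  have h2 : bconcD Qs (Additive.ofMul (Units.mk0 _ hx')) = bconcD Qs m := by
    rw [← he, ← hd]
    exact Q.map_dl hs x
  obtain ⟨r, hr⟩ := (bconcD_eq_zero Qs (m - Additive.ofMul (Units.mk0 _ hx'))).1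
    (by rw [map_sub, h2, sub_self])
  exact ⟨Additive.ofMul (Units.mk0 _ hx'), r, fun σ => bconc_ext (σ.commutes x),
    by rw [← hr]; abel⟩

/-- The pairing data of the curve over `K`. -/
noncomputable def bx (A : F) (hQ : Q.b = algebraMap F K B) :
    Bx (Gal K) (Pt (EW A B) (SeparableClosure K)) (Additive (SeparableClosure K)ˣ) where
  N := bN A hQ
  cub := bN_cub A hQ
  sA σ := pm _ (σ.toAlgHom.restrictScalars F)
  sM := sU K
  sA_mul σ τ R := by rw [Affine.Point.map_map]; rfl
  sM_mul := sU_mul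
  eqv := bN_eqv A hQ
  tfA R h := eb_pow_inj (bc_sep A hQ).choose_spec.2 1 (by simpa using h)
  tfM := unit_tf
  inv₂ := unit_inv₂ Q

lemma bx_tr (A : F) (hQ : Q.b = algebraMap F K B) {n : ℕ}
    {c : Gal K → Additive (SeparableClosure K)ˣ} : c ∈ (bx A hQ).Tr n ↔ TrU K n c := Iff.rfl

lemma bconc_a {L : Type} [Field L] [CharP L 2] (a b c d : L) :
    a + b - (c - d) = 0 ↔ a + c = b + d := by
  have h2 : (2 : L) = 0 := CharTwo.two_eq_zero
  constructor <;> intro e
  · linear_combination e + (c - b - d) * h2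
  · linear_combination e + (b + d - c) * h2

lemma bconc_b {L : Type} [Field L] [CharP L 2] (a c d : L) : a + d + (c + d) = a + c := by
  have h2 : (2 : L) = 0 := CharTwo.two_eq_zero
  linear_combination d * h2

lemma bconc_c {L : Type} [Field L] [CharP L 2] {a c y z : L} (h : a + c = y + z) :
    c + z = a + y := by
  have h2 : (2 : L) = 0 := CharTwo.two_eq_zero
  linear_combination h + (z - a) * h2

lemma bconc_d {L : Type} [Field L] [CharP L 2] (a y : L) : a + (a + y) = y := by
  have h2 : (2 : L) = 0 := CharTwo.two_eq_zero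
  linear_combination a * h2

theorem bx_tr_one (A : F) (hQ : Q.b = algebraMap F K B) {Qs : PB (SeparableClosure K)}
    (hs : Qs.b = algebraMap K _ Q.b) {R R' : Pt (EW A B) (SeparableClosure K)} {s s' : K}
    (h : kp Qs R = algebraMap K _ s) (h' : kp Qs R' = algebraMap K _ s') :
    (bx A hQ).Wc 1 R R' ∈ (bx A hQ).Tr 1 ↔ ∃ y : K, y + Q.c0 y = Q.b * (s * s') := by
  have hb : Qs.b = algebraMap F _ B := by rw [hs, hQ, ← IsScalarTower.algebraMap_apply]
  have hW := bc_EW' A hb
  have hF : ∀ {U : Pt (EW A B) (SeparableClosure K)} {t : K}, kp Qs U = algebraMap K _ t →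
      (bx A hQ).Fm 1 U := fun {U t} e σ => by
    rw [pow_one]
    refine (kp_eq hW).1 ?_
    refine (kp_pm _ hb hb (σ.toAlgHom.restrictScalars F) U).trans ?_
    rw [e]
    exact σ.commutes t
  have h1 : ∀ σ : Gal K, bconcD Qs ((bx A hQ).Wc 1 R R' σ) = σ (cY Qs R R') + cY Qs R R' :=
    fun σ => by
    rw [(bx A hQ).Wc_one CharTwo.add_self_eq_zero (bconcD Qs) (cY Qs) (cY_add hW) (cY_comm Qs)
      (hF h) (hF h') σ]
    congr 1
    exact cY_map ((σ.toAlgHom.restrictScalars F :
      SeparableClosure K →ₐ[F] SeparableClosure K) : SeparableClosure K →+* SeparableClosure K)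
      (by rw [hs]; exact (σ.commutes _).symm) (pm _ (σ.toAlgHom.restrictScalars F))
      (Affine.Point.map_injective _) (xc_pm _ _) (yc_pm _ _) R R'
  have h2 : cY Qs R R' + Qs.c0 (cY Qs R R') = algebraMap K _ (Q.b * (s * s')) := by
    rw [cY_c0 hW, map_mul, map_mul, ← hs, ← h, ← h']
    rfl
  have h3 : ∀ m, (∀ σ, ∃ r, (bx A hQ).Wc 1 R R' σ - (sU K σ m - m) = 2 ^ 1 • r) ↔
      ∀ σ : Gal K, σ (cY Qs R R' + bconcD Qs m) = cY Qs R R' + bconcD Qs m := fun m =>
    forall_congr' fun σ => by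
      rw [pow_one, ← bconcD_eq_zero Qs, map_sub, map_sub, h1, bconcD_sU hs, map_add]
      exact bconc_a _ _ _ _
  rw [bx_tr]
  constructor
  · rintro ⟨m, hm⟩
    obtain ⟨y, hy⟩ := exists_fixed ((h3 m).1 hm)
    refine ⟨y, (algebraMap K (SeparableClosure K)).injective ?_⟩
    have h4 : Qs.c0 (bconcD Qs m) = bconcD Qs m := Qs.c0_dl _
    rw [map_add, ← Q.map_c0 hs, hy, Qs.c0_add, h4, ← h2]
    exact bconc_b _ _ _
  · rintro ⟨y, hy⟩
    have h4 : Qs.c0 (cY Qs R R' + algebraMap K _ y) = cY Qs R R' + algebraMap K _ y := by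
      rw [← hy, map_add, ← Q.map_c0 hs] at h2
      rw [Qs.c0_add]
      exact bconc_c h2
    obtain ⟨x, hx, hd⟩ := Qs.exists_dl h4
    refine ⟨Additive.ofMul (Units.mk0 x hx), (h3 _).2 fun σ => ?_⟩
    have h5 : cY Qs R R' + bconcD Qs (Additive.ofMul (Units.mk0 x hx)) = algebraMap K _ y := by
      have : bconcD Qs (Additive.ofMul (Units.mk0 x hx)) = Qs.dl x := rfl
      rw [this, hd]
      exact bconc_d _ _
    rw [h5]
    exact σ.commutes y

theorem bx_locConst (A : F) (hQ : Q.b = algebraMap F K B) (n : ℕ)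
    (R R' : Pt (EW A B) (SeparableClosure K)) : IsLocallyConstant ((bx A hQ).Wc n R R') := by
  have hW := (bc_sep A hQ).choose_spec.2
  refine (IsLocallyConstant.iff_eventually_eq _).2 fun σ => ?_
  filter_upwards [(gal_locConst (xc R)).eventually_eq σ, (gal_locConst (yc R)).eventually_eq σ,
    (gal_locConst (xc R')).eventually_eq σ, (gal_locConst (yc R')).eventually_eq σ]
    with τ h1 h2 h3 h4
  exact (bx A hQ).Wc_congr n
    (eb_ext hW ((xc_pm _ _ R).trans (h1.trans (xc_pm _ (σ.toAlgHom.restrictScalars F) R).symm))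
      ((yc_pm _ _ R).trans (h2.trans (yc_pm _ (σ.toAlgHom.restrictScalars F) R).symm)))
    (eb_ext hW ((xc_pm _ _ R').trans (h3.trans (xc_pm _ (σ.toAlgHom.restrictScalars F) R').symm))
      ((yc_pm _ _ R').trans (h4.trans (yc_pm _ (σ.toAlgHom.restrictScalars F) R').symm)))

theorem bx_res (A : F) {P : PB F} (hP : P.b = algebraMap F F B) (hQ : Q.b = algebraMap F K B)
    (i : SeparableClosure F →ₐ[F] SeparableClosure K) {n : ℕ}
    {w w' : Pt (EW A B) (SeparableClosure F)} (h : w ∈ FxM (EW A B) n) (h' : w' ∈ FxM (EW A B) n)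
    (τ : Gal K) : uM (i : SeparableClosure F →+* SeparableClosure K)
      ((bx A hP).Wc n w w' (resG i τ)) = (bx A hQ).Wc n (pm _ i w) (pm _ i w') τ := by
  have hWP := (bc_sep A hP).choose_spec.2
  have hWQ := (bc_sep A hQ).choose_spec.2
  have e : ∀ R S U : Pt (EW A B) (SeparableClosure F),
      uM (i : SeparableClosure F →+* SeparableClosure K) (bN A hP R S U) =
        bN A hQ (pm _ i R) (pm _ i S) (pm _ i U) := fun R S U =>
    bconc_ext (cN_map hWP hWQ (i : SeparableClosure F →+* SeparableClosure K) (pm _ i)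
      (Affine.Point.map_injective _) (xc_pm _ _) (yc_pm _ _) R S U).symm
  exact (bx A hP).Wc_map (bx A hQ) (pm _ i) (uM (i : SeparableClosure F →+* SeparableClosure K))
    e (σ := resG i τ) (τ := τ) (fun R => pm_resG _ i τ R) h h'

lemma TrU.res (i : SeparableClosure F →ₐ[F] SeparableClosure K) {n : ℕ}
    {c : Gal F → Additive (SeparableClosure F)ˣ} (h : TrU F n c) :
    TrU K n fun τ => uM (i : SeparableClosure F →+* SeparableClosure K) (c (resG i τ)) := by
  obtain ⟨m, hm⟩ := h
  refine ⟨uM (i : SeparableClosure F →+* SeparableClosure K) m, fun τ => ?_⟩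
  obtain ⟨r, hr⟩ := hm (resG i τ)
  have h1 : sU K τ (uM (i : SeparableClosure F →+* SeparableClosure K) m) =
      uM (i : SeparableClosure F →+* SeparableClosure K) (sU F (resG i τ) m) :=
    bconc_ext (resG_spec i τ _)
  exact ⟨uM (i : SeparableClosure F →+* SeparableClosure K) r, by
    rw [h1, ← map_sub, ← map_sub, hr, map_nsmul]⟩

end Pool.Agent.Lib.MP_788af2_nt.AS
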