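import Pool.Agent.Lib.MP_788af2_nt.AS.Defs

/-!
Cubical functions and the pairing on classes modulo powers of two: definitions.
-/

set_option linter.unusedSectionVars false

namespace Pool.Agent.Lib.MP_788af2_nt.AS

open Polynomial WeierstrassCurve Pool.Agent.Lib.MP_a3f657_nt.Two

section abs

variable {A M : Type} [AddCommGroup A] [AddCommGroup M]

/-- A cubical function. -/
structure Cub (N : A → A → A → M) : Prop where
  zero : ∀ Q R, N 0 Q R = 0
  sw₁ : ∀ P Q R, N P Q R = N Q P R
  sw₂ : ∀ P Q R, N P Q R = N P R Q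
  coc : ∀ P Q S R, N P Q R + N (P + Q) S R = N Q S R + N P (Q + S) R

variable (A) in
/-- Formal sums with sum zero. -/
def Prn : AddSubgroup (FreeAbelianGroup A) := (FreeAbelianGroup.lift (id : A → A)).ker

/-- The formal sum `[P] + [Q] - [P + Q]`. -/
def dvs (P Q : A) : FreeAbelianGroup A :=
  FreeAbelianGroup.of P + FreeAbelianGroup.of Q - FreeAbelianGroup.of (P + Q)

/-- The symbol attached to a cubical function. -/
structure Lam (N : A → A → A → M) (lam : FreeAbelianGroup A → FreeAbelianGroup A →+ M) :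
    Prop where
  add : ∀ p ∈ Prn A, ∀ q ∈ Prn A, lam (p + q) = lam p + lam q
  dv : ∀ P Q R, lam (dvs P Q) (FreeAbelianGroup.of R) = N P Q R
  symm : ∀ p ∈ Prn A, ∀ q ∈ Prn A, lam p q = lam q p

/-- A cubical function with a group action. -/
structure Bx (Γ A M : Type) [Group Γ] [AddCommGroup A] [AddCommGroup M] where
  /-- The cubical function. -/
  N : A → A → A → M
  cub : Cub N
  /-- The action on the points. -/
  sA : Γ → A →+ A
  /-- The action on the values. -/
  sM : Γ → M →+ M
  sA_mul : ∀ σ τ P, sA (σ * τ) P = sA σ (sA τ P)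
  sM_mul : ∀ σ τ m, sM (σ * τ) m = sM σ (sM τ m)
  eqv : ∀ σ P Q R, sM σ (N P Q R) = N (sA σ P) (sA σ Q) (sA σ R)
  tfA : ∀ P : A, 2 • P = 0 → P = 0
  tfM : ∀ m : M, 2 • m = 0 → m = 0
  inv₂ : ∀ m, (∀ σ, ∃ r, sM σ m - m = 2 • r) → ∃ m₀ m', (∀ σ, sM σ m₀ = m₀) ∧ m = m₀ + 2 • m'

namespace Bx

variable {Γ : Type} [Group Γ] (X : Bx Γ A M)

/-- The symbol. -/
noncomputable def lam : FreeAbelianGroup A → FreeAbelianGroup A →+ M :=
  Classical.epsilon (Lam X.N)

/-- The point is fixed modulo `2 ^ n`. -/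
def Fm (n : ℕ) (P : A) : Prop := ∀ σ, ∃ S, X.sA σ P - P = 2 ^ n • S

/-- The point `(σ P - P) / 2 ^ n`. -/
noncomputable def rt (n : ℕ) (σ : Γ) (P : A) : A :=
  Classical.epsilon fun S => X.sA σ P - P = 2 ^ n • S

/-- The formal sum `[σ P] - [P] - 2 ^ n [S]`. -/
noncomputable def pd (n : ℕ) (σ : Γ) (P : A) : FreeAbelianGroup A :=
  FreeAbelianGroup.of (X.sA σ P) - FreeAbelianGroup.of P - 2 ^ n • FreeAbelianGroup.of (X.rt n σ P)

/-- The cocycle representing the pairing. -/
noncomputable def Wc (n : ℕ) (P P' : A) (σ : Γ) : M :=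
  X.lam (X.pd n σ P) (FreeAbelianGroup.of (X.sA σ P')) +
    X.lam (X.pd n σ P') (FreeAbelianGroup.of P)

/-- Coboundaries modulo `2 ^ n`. -/
def Tr (n : ℕ) : AddSubgroup (Γ → M) where
  carrier := {c | ∃ m, ∀ σ, ∃ r, c σ - (X.sM σ m - m) = 2 ^ n • r}
  zero_mem' := ⟨0, fun σ => ⟨0, by simp⟩⟩
  add_mem' := by
    rintro c c' ⟨m, h⟩ ⟨m', h'⟩
    refine ⟨m + m', fun σ => ?_⟩
    obtain ⟨r, e⟩ := h σ
    obtain ⟨r', e'⟩ := h' σ
    exact ⟨r + r', by rw [smul_add, ← e, ← e', Pi.add_apply, map_add]; abel⟩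
  neg_mem' := by
    rintro c ⟨m, h⟩
    refine ⟨-m, fun σ => ?_⟩
    obtain ⟨r, e⟩ := h σ
    exact ⟨-r, by rw [smul_neg, ← e, Pi.neg_apply, map_neg]; abel⟩

end Bx

end abs

section curve

variable {F : Type} [Field F] [DecidableEq F] {W : Affine F}

/-- The leading coefficient of a vertical line at `R`. -/
def dlt (P R : W.Point) : F := if xc P = xc R then xc R else xc P + xc R

/-- The value at `R` of the line through `P` and `Q`. -/
def lin (P Q R : W.Point) : F :=
  yc R + yc P + W.slope (xc P) (xc Q) (yc P) (yc Q) * (xc R + xc P)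

/-- The leading coefficient at `R` of the line through `P` and `Q`. -/
def lcl (P Q R : W.Point) : F :=
  if lin P Q R = 0 then dlt P R * dlt Q R * dlt (P + Q) R / xc R else lin P Q R

open Classical in
/-- The cubical function of the curve. -/
noncomputable def cN (P Q R : W.Point) : F :=
  if P = 0 ∨ Q = 0 ∨ R = 0 then 1 else if P + Q = 0 then dlt P R
  else lcl P Q (-R) / dlt (P + Q) R

open Classical in
/-- The primitive of the logarithmic derivative of the cubical function. -/
noncomputable def cY (B : PB F) (P R : W.Point) : F :=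
  if P = 0 ∨ R = 0 then 0 else B.dl (xc P) * B.dl (xc R) +
    (yc P / xc P + yc R / xc R) * B.dl (dlt P R) + B.b / (xc P * xc R)

open Classical in
/-- The normalized function with divisor `[P] + [Q] - [P + Q] - [0]`. -/
noncomputable def gF (P Q : W.Point) : W.FunctionField :=
  if P = 0 ∨ Q = 0 then 1
  else if P + Q = 0 then algebraMap W.CoordinateRing _ (Affine.CoordinateRing.XClass W (xc P))
  else algebraMap W.CoordinateRing _ (Affine.CoordinateRing.YClass W
      (Affine.linePolynomial (xc P) (yc P) (W.slope (xc P) (xc Q) (yc P) (yc Q)))) /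
    algebraMap W.CoordinateRing _ (Affine.CoordinateRing.XClass W (xc (P + Q)))

end curve

end Pool.Agent.Lib.MP_788af2_nt.AS
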