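import Pool.Agent.Lib.MP_a3f657_nt.BK.BDefs

/-!
The symbol attached to a cubical function.
-/

set_option linter.unusedSectionVars false

namespace Pool.Agent.Lib.MP_788af2_nt.AS

open FreeAbelianGroup

variable {A M A' M' : Type} [AddCommGroup A] [AddCommGroup M] [AddCommGroup A'] [AddCommGroup M']
  {N : A → A → A → M} {N' : A' → A' → A' → M'}
  {lam : FreeAbelianGroup A → FreeAbelianGroup A →+ M}
  {lam' : FreeAbelianGroup A' → FreeAbelianGroup A' →+ M'}

lemma mem_Prn {p : FreeAbelianGroup A} : p ∈ Prn A ↔ lift (id : A → A) p = 0 := Iff.rfl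

lemma dvs_mem (P Q : A) : dvs P Q ∈ Prn A := by
  rw [mem_Prn, dvs]
  simp

private lemma blam_dvs_zero : dvs (0 : A) 0 = of 0 := by
  simp [dvs]

lemma Prn_eq : Prn A = AddSubgroup.closure {p | ∃ P Q, p = dvs P Q} := by
  apply le_antisymm
  · have hd : ∀ P Q : A, dvs P Q ∈ AddSubgroup.closure {p | ∃ P Q : A, p = dvs P Q} :=
      fun P Q => AddSubgroup.subset_closure ⟨P, Q, rfl⟩
    have key : ∀ p : FreeAbelianGroup A,
        p - of (lift (id : A → A) p) ∈ AddSubgroup.closure {p | ∃ P Q : A, p = dvs P Q} := by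
      intro p
      induction p using FreeAbelianGroup.induction_on with
      | zero =>
        rw [map_zero, zero_sub, ← blam_dvs_zero]
        exact neg_mem (hd 0 0)
      | of x =>
        rw [lift_apply_of, id, sub_self]
        exact zero_mem _
      | neg x _ =>
        have e : -of x - of (lift (id : A → A) (-of x)) = -dvs x (-x) - dvs 0 0 := by
          simp only [map_neg, lift_apply_of, id, dvs, add_neg_cancel, add_zero]
          abel
        rw [e]
        exact sub_mem (neg_mem (hd _ _)) (hd _ _)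
      | add p q hp hq =>
        have e : p + q - of (lift (id : A → A) (p + q)) =
            (p - of (lift (id : A → A) p)) + (q - of (lift (id : A → A) q)) +
              dvs (lift (id : A → A) p) (lift (id : A → A) q) := by
          simp only [map_add, dvs]
          abel
        rw [e]
        exact add_mem (add_mem hp hq) (hd _ _)
    intro p hp
    have h := key p
    rw [mem_Prn.1 hp, ← blam_dvs_zero] at h
    have := add_mem h (hd 0 0)
    rwa [sub_add_cancel] at this
  · rw [AddSubgroup.closure_le]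
    rintro _ ⟨P, Q, rfl⟩
    exact dvs_mem P Q

private lemma blam_ind {C : FreeAbelianGroup A → Prop} (hd : ∀ P Q, C (dvs P Q)) (h0 : C 0)
    (ha : ∀ p ∈ Prn A, ∀ q ∈ Prn A, C p → C q → C (p + q))
    (hn : ∀ p ∈ Prn A, C p → C (-p)) {p : FreeAbelianGroup A} (hp : p ∈ Prn A) : C p := by
  rw [Prn_eq] at hp
  induction hp using AddSubgroup.closure_induction with
  | mem x hx =>
    obtain ⟨P, Q, rfl⟩ := hx
    exact hd P Q
  | zero => exact h0
  | add x y hx hy ix iy =>
    rw [← Prn_eq] at hx hy
    exact ha x hx y hy ix iy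
  | neg x hx ix =>
    rw [← Prn_eq] at hx
    exact hn x hx ix

private lemma blam_map_dvs (f : A →+ A') (P Q : A) :
    FreeAbelianGroup.map f (dvs P Q) = dvs (f P) (f Q) := by
  simp [dvs]

lemma map_Prn (f : A →+ A') {p : FreeAbelianGroup A} (h : p ∈ Prn A) : map f p ∈ Prn A' := by
  refine blam_ind (C := fun p => map f p ∈ Prn A') ?_ ?_ ?_ ?_ h
  · intro P Q
    rw [blam_map_dvs]
    exact dvs_mem _ _
  · rw [map_zero]
    exact zero_mem _
  · intro p _ q _ ip iq
    rw [map_add]
    exact add_mem ip iq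
  · intro p _ ip
    rw [map_neg]
    exact neg_mem ip

private lemma blam_zero (h : ∀ p ∈ Prn A, ∀ q ∈ Prn A, lam (p + q) = lam p + lam q) :
    lam 0 = 0 := by
  have := h 0 (zero_mem _) 0 (zero_mem _)
  rw [add_zero] at this
  exact left_eq_add.1 this

private lemma blam_neg (h : ∀ p ∈ Prn A, ∀ q ∈ Prn A, lam (p + q) = lam p + lam q)
    {p : FreeAbelianGroup A} (hp : p ∈ Prn A) : lam (-p) = -lam p := by
  have := h p hp (-p) (neg_mem hp)
  rw [add_neg_cancel, blam_zero h] at this
  exact (neg_eq_of_add_eq_zero_right this.symm).symm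

lemma Lam.zero (h : Lam N lam) : lam 0 = 0 := blam_zero h.add

lemma Lam.sub (h : Lam N lam) {p q : FreeAbelianGroup A} (hp : p ∈ Prn A) (hq : q ∈ Prn A) :
    lam (p - q) = lam p - lam q := by
  rw [sub_eq_add_neg, h.add p hp (-q) (neg_mem hq), blam_neg h.add hq, sub_eq_add_neg]

lemma Lam.nsmul (h : Lam N lam) {p : FreeAbelianGroup A} (hp : p ∈ Prn A) (n : ℕ) :
    lam (n • p) = n • lam p := by
  induction n with
  | zero => rw [zero_nsmul, zero_nsmul, h.zero]
  | succ n ih => rw [succ_nsmul, succ_nsmul, h.add _ (nsmul_mem hp n) _ hp, ih]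

/-- The extension defined by the cocycle with fixed third slot. -/
@[ext] private structure BlamExt (h : Cub N) (R : A) where
  /-- The point. -/
  pt : A
  /-- The value. -/
  vl : M

private instance blamAdd (h : Cub N) (R : A) : Add (BlamExt h R) :=
  ⟨fun x y => ⟨x.pt + y.pt, x.vl + y.vl + N x.pt y.pt R⟩⟩

private instance blamZero (h : Cub N) (R : A) : Zero (BlamExt h R) := ⟨⟨0, 0⟩⟩

private instance blamNeg (h : Cub N) (R : A) : Neg (BlamExt h R) :=
  ⟨fun x => ⟨-x.pt, -x.vl - N x.pt (-x.pt) R⟩⟩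

private lemma blam_add_pt {h : Cub N} {R : A} (x y : BlamExt h R) : (x + y).pt = x.pt + y.pt := rfl

private lemma blam_add_vl {h : Cub N} {R : A} (x y : BlamExt h R) :
    (x + y).vl = x.vl + y.vl + N x.pt y.pt R := rfl

private lemma blam_zero_pt {h : Cub N} {R : A} : (0 : BlamExt h R).pt = 0 := rfl

private lemma blam_zero_vl {h : Cub N} {R : A} : (0 : BlamExt h R).vl = 0 := rfl

private lemma blam_neg_pt {h : Cub N} {R : A} (x : BlamExt h R) : (-x).pt = -x.pt := rfl

private lemma blam_neg_vl {h : Cub N} {R : A} (x : BlamExt h R) :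
    (-x).vl = -x.vl - N x.pt (-x.pt) R := rfl

@[instance_reducible] private def blamGrp (h : Cub N) (R : A) : AddGroup (BlamExt h R) :=
  AddGroup.ofLeftAxioms
    (fun x y z => by
      ext
      · simp only [blam_add_pt, add_assoc]
      · simp only [blam_add_pt, blam_add_vl]
        have := h.coc x.pt y.pt z.pt R
        calc _ = x.vl + y.vl + z.vl + (N x.pt y.pt R + N (x.pt + y.pt) z.pt R) := by abel
          _ = _ := by rw [this]; abel)
    (fun x => by
      ext
      · simp only [blam_add_pt, blam_zero_pt, zero_add]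
      · simp only [blam_add_vl, blam_zero_pt, blam_zero_vl, h.zero, zero_add, add_zero])
    (fun x => by
      ext
      · simp only [blam_add_pt, blam_neg_pt, blam_zero_pt, neg_add_cancel]
      · simp only [blam_add_vl, blam_neg_vl, blam_neg_pt, blam_zero_vl, h.sw₁ (-x.pt)]
        abel)

private instance blamCommGrp (h : Cub N) (R : A) : AddCommGroup (BlamExt h R) :=
  { blamGrp h R with
    add_comm := fun x y => by
      ext
      · exact add_comm x.pt y.pt
      · show x.vl + y.vl + N x.pt y.pt R = y.vl + x.vl + N y.pt x.pt R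
        rw [h.sw₁ x.pt, add_comm x.vl] }

private def blamPt (h : Cub N) (R : A) : BlamExt h R →+ A :=
  AddMonoidHom.mk' (fun x => x.pt) blam_add_pt

private noncomputable def blamL (h : Cub N) (R : A) : FreeAbelianGroup A →+ BlamExt h R :=
  lift fun P => ⟨P, 0⟩

private lemma blamL_pt (h : Cub N) (R : A) (p : FreeAbelianGroup A) :
    (blamL h R p).pt = lift (id : A → A) p := by
  have : (blamPt h R).comp (blamL h R) = lift (id : A → A) := by
    ext P
    simp [blamPt, blamL]
  exact DFunLike.congr_fun this p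

private lemma blamL_add (h : Cub N) (R : A) {p q : FreeAbelianGroup A} (hp : p ∈ Prn A) :
    (blamL h R (p + q)).vl = (blamL h R p).vl + (blamL h R q).vl := by
  rw [map_add, blam_add_vl, blamL_pt, mem_Prn.1 hp, h.zero, add_zero]

private lemma blamL_dvs (h : Cub N) (R P Q : A) : (blamL h R (dvs P Q)).vl = N P Q R := by
  have e : dvs P Q + of (P + Q) = of P + of Q := by
    simp [dvs]
  have := blamL_add h R (q := of (P + Q)) (dvs_mem P Q)
  rw [e, map_add, blam_add_vl] at this
  simpa [blamL] using this.symm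

theorem Cub.exists_lam (h : Cub N) : ∃ lam, Lam N lam := by
  let lam : FreeAbelianGroup A → FreeAbelianGroup A →+ M :=
    fun p => lift fun R => (blamL h R p).vl
  have hadd : ∀ p ∈ Prn A, ∀ q ∈ Prn A, lam (p + q) = lam p + lam q := by
    intro p hp q _
    ext R
    simp only [lam, AddMonoidHom.add_apply, lift_apply_of, blamL_add h R hp]
  have hdv : ∀ P Q R, lam (dvs P Q) (of R) = N P Q R := by
    intro P Q R
    simp only [lam, lift_apply_of, blamL_dvs]
  have hdd : ∀ P Q R S, lam (dvs P Q) (dvs R S) = lam (dvs R S) (dvs P Q) := by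
    intro P Q R S
    have e1 : lam (dvs P Q) (dvs R S) = N P Q R + N P Q S - N P Q (R + S) := by
      rw [← hdv, ← hdv, ← hdv, ← map_add, ← map_sub]
      rfl
    have e2 : lam (dvs R S) (dvs P Q) = N R S P + N R S Q - N R S (P + Q) := by
      rw [← hdv, ← hdv, ← hdv, ← map_add, ← map_sub]
      rfl
    have c1 := h.coc P Q R S
    have c2 := h.coc Q R S P
    have s1 : N (P + Q) R S = N R S (P + Q) := by rw [h.sw₁, h.sw₂]
    have s2 : N Q R S = N R S Q := by rw [h.sw₁, h.sw₂]
    have s3 : N P (Q + R) S = N (Q + R) S P := by rw [h.sw₁, h.sw₂]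
    have s4 : N P Q R = N Q R P := by rw [h.sw₁, h.sw₂]
    have s5 : N P Q (R + S) = N Q (R + S) P := by rw [h.sw₁, h.sw₂]
    rw [e1, e2, s4, s5]
    rw [s1, s2, s3] at c1
    rw [sub_eq_sub_iff_add_eq_add]
    apply add_right_cancel (b := N (Q + R) S P)
    calc _ = (N P Q S + N R S (P + Q)) + (N Q R P + N (Q + R) S P) := by abel
      _ = _ := by rw [c1, c2]; abel
  have hd1 : ∀ P Q, ∀ q ∈ Prn A, lam (dvs P Q) q = lam q (dvs P Q) := by
    intro P Q q hq
    refine blam_ind (C := fun q => lam (dvs P Q) q = lam q (dvs P Q)) (hdd P Q) ?_ ?_ ?_ hq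
    · rw [map_zero, blam_zero hadd, AddMonoidHom.zero_apply]
    · intro p hp q hq ip iq
      rw [map_add, hadd p hp q hq, AddMonoidHom.add_apply, ip, iq]
    · intro p hp ip
      rw [map_neg, blam_neg hadd hp, AddMonoidHom.neg_apply, ip]
  refine ⟨lam, hadd, hdv, fun p hp q hq => ?_⟩
  refine blam_ind (C := fun p => lam p q = lam q p) (fun P Q => hd1 P Q q hq) ?_ ?_ ?_ hp
  · rw [map_zero, blam_zero hadd, AddMonoidHom.zero_apply]
  · intro p hp p' hp' ip iq
    rw [map_add, hadd p hp p' hp', AddMonoidHom.add_apply, ip, iq]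
  · intro p hp ip
    rw [map_neg, blam_neg hadd hp, AddMonoidHom.neg_apply, ip]

theorem Lam.map (h : Lam N lam) (h' : Lam N' lam') (f : A →+ A') (g : M →+ M')
    (e : ∀ P Q R, g (N P Q R) = N' (f P) (f Q) (f R)) {p : FreeAbelianGroup A} (hp : p ∈ Prn A)
    (d : FreeAbelianGroup A) :
    g (lam p d) = lam' (FreeAbelianGroup.map f p) (FreeAbelianGroup.map f d) := by
  refine blam_ind
    (C := fun p => g (lam p d) = lam' (FreeAbelianGroup.map f p) (FreeAbelianGroup.map f d))
    ?_ ?_ ?_ ?_ hp
  · intro P Q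
    have : g.comp (lam (dvs P Q)) = (lam' (dvs (f P) (f Q))).comp (FreeAbelianGroup.map f) := by
      ext R
      simp only [AddMonoidHom.comp_apply, map_of_apply, h.dv, h'.dv, e]
    rw [blam_map_dvs]
    exact DFunLike.congr_fun this d
  · rw [map_zero, h.zero, h'.zero, AddMonoidHom.zero_apply, AddMonoidHom.zero_apply, map_zero]
  · intro p hp q hq ip iq
    rw [map_add, h.add p hp q hq, h'.add _ (map_Prn f hp) _ (map_Prn f hq), AddMonoidHom.add_apply,
      AddMonoidHom.add_apply, map_add, ip, iq]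
  · intro p hp ip
    rw [map_neg, blam_neg h.add hp, blam_neg h'.add (map_Prn f hp), AddMonoidHom.neg_apply,
      AddMonoidHom.neg_apply, map_neg, ip]

theorem Lam.prim {V : Type} [AddCommGroup V] (h : Lam N lam) (δ : M →+ V) (Y : A → A → V)
    (e : ∀ P Q R, δ (N P Q R) = Y P R + Y Q R - Y (P + Q) R) {p : FreeAbelianGroup A}
    (hp : p ∈ Prn A) (R : A) : δ (lam p (of R)) = lift (fun P => Y P R) p := by
  refine blam_ind (C := fun p => δ (lam p (of R)) = lift (fun P => Y P R) p) ?_ ?_ ?_ ?_ hp
  · intro P Q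
    rw [h.dv, e, dvs, map_sub, map_add, lift_apply_of, lift_apply_of, lift_apply_of]
  · rw [h.zero, AddMonoidHom.zero_apply, map_zero, map_zero]
  · intro p hp q hq ip iq
    rw [h.add p hp q hq, AddMonoidHom.add_apply, map_add, map_add, ip, iq]
  · intro p hp ip
    rw [blam_neg h.add hp, AddMonoidHom.neg_apply, map_neg, map_neg, ip]

end Pool.Agent.Lib.MP_788af2_nt.AS
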