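import Pool.Agent.Lib.MP_a3f657_nt.BK.BConc

/-!
The reciprocity law for classes killed by a power of two.
-/

set_option linter.unusedSectionVars false

namespace Pool.Agent.Lib.MP_788af2_nt.AS

open Polynomial WeierstrassCurve Pool.Agent.Lib.MP_a3f657_nt.Two IsDedekindDomain

attribute [local instance 10000] Classical.propDecidable

section gen

variable {L L' : Type} [Field L] [CharP L 2] [Field L'] [CharP L' 2]

/-- The logarithmic derivative on units. -/
private noncomputable def brec_dl (Q : PB L) : Additive Lˣ →+ L :=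
  AddMonoidHom.mk' (fun m => Q.dl ((Additive.toMul m : Lˣ) : L)) fun a b => by
    simp only [toMul_add, Units.val_mul]
    exact Q.dl_mul (Units.ne_zero _) (Units.ne_zero _)

private lemma brec_dl_apply (Q : PB L) (m : Additive Lˣ) :
    brec_dl Q m = Q.dl ((Additive.toMul m : Lˣ) : L) := rfl

private lemma brec_c0 (Q : PB L) (m : Additive Lˣ) : Q.c0 (brec_dl Q m) = brec_dl Q m :=
  Q.c0_dl _

private lemma brec_pow (Q : PB L) (n : ℕ) (r : Additive Lˣ) : brec_dl Q (2 ^ (n + 1) • r) = 0 := by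
  rw [pow_succ', mul_smul, map_nsmul, two_nsmul, CharTwo.add_self_eq_zero]

private lemma brec_surj (Q : PB L) {e : L} (h : Q.c0 e = e) : ∃ m, brec_dl Q m = e := by
  obtain ⟨x, hx, e⟩ := Q.exists_dl h
  exact ⟨Additive.ofMul (Units.mk0 x hx), e⟩

private lemma brec_ker (Q : PB L) {m : Additive Lˣ} (h : brec_dl Q m = 0) : ∃ r, m = 2 • r := by
  have h0 : ((Additive.toMul m : Lˣ) : L) ≠ 0 := Units.ne_zero _
  rw [brec_dl_apply, PB.dl, div_eq_zero_iff, or_iff_left h0, mul_eq_zero, or_iff_right Q.b_ne,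
    pow_eq_zero_iff two_ne_zero] at h
  have e := Q.eq_sq h
  have h1 : Q.c0 ((Additive.toMul m : Lˣ) : L) ≠ 0 := fun h1 => h0 (by rw [e, h1]; simp)
  refine ⟨Additive.ofMul (Units.mk0 _ h1), Additive.toMul.injective (Units.ext ?_)⟩
  simpa using e

private lemma brec_uM {Q : PB L} {Q' : PB L'} (f : L →+* L') (h : Q'.b = f Q.b) (m : Additive Lˣ) :
    brec_dl Q' (uM f m) = f (brec_dl Q m) := Q.map_dl h _

end gen

section gal

variable {F K : Type} [Field F] [CharP F 2] [Field K] [CharP K 2] [Algebra F K]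

private lemma brec_fix {Q : PB K} {Qs : PB (SeparableClosure K)} (h : Qs.b = algebraMap K _ Q.b)
    (σ : Gal K) : Qs.b = (σ : SeparableClosure K →+* SeparableClosure K) Qs.b := by
  rw [h]; exact (σ.commutes _).symm

private lemma brec_sU {Q : PB K} {Qs : PB (SeparableClosure K)} (h : Qs.b = algebraMap K _ Q.b)
    (σ : Gal K) (m : Additive (SeparableClosure K)ˣ) :
    brec_dl Qs (sU K σ m) = σ (brec_dl Qs m) := Qs.map_dl (brec_fix h σ) _

private lemma brec_sc0 {Q : PB K} {Qs : PB (SeparableClosure K)} (h : Qs.b = algebraMap K _ Q.b)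
    (σ : Gal K) (x : SeparableClosure K) : Qs.c0 (σ x) = σ (Qs.c0 x) := Qs.map_c0 (brec_fix h σ) _

private lemma brec_res (i : SeparableClosure F →ₐ[F] SeparableClosure K) (τ : Gal K)
    (m : Additive (SeparableClosure F)ˣ) :
    uM (i : SeparableClosure F →+* SeparableClosure K) (sU F (resG i τ) m) =
      sU K τ (uM (i : SeparableClosure F →+* SeparableClosure K) m) :=
  Additive.toMul.injective (Units.ext (resG_spec i τ _).symm)

private lemma brec_lc (m : Additive (SeparableClosure K)ˣ) :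
    IsLocallyConstant fun σ : Gal K => sU K σ m := by
  refine IsLocallyConstant.desc _ (fun u : Additive (SeparableClosure K)ˣ =>
    ((Additive.toMul u : (SeparableClosure K)ˣ) : SeparableClosure K)) (gal_locConst _) ?_
  exact fun a b e => Additive.toMul.injective (Units.ext e)

private lemma brec_inj {a b : Additive (SeparableClosure K)ˣ} (h : 2 • a = 2 • b) : a = b :=
  sub_eq_zero.1 (unit_tf _ (by rw [nsmul_sub, h, sub_self]))

private lemma brec_half (Q : PB K) {n : ℕ} {c : Gal K → Additive (SeparableClosure K)ˣ}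
    {m : Additive (SeparableClosure K)ˣ}
    (h : ∀ σ, ∃ r, 2 • c σ - (sU K σ m - m) = 2 ^ (n + 1) • r) : TrU K n c := by
  obtain ⟨m₀, m', h0, rfl⟩ := unit_inv₂ Q m fun σ => by
    obtain ⟨r, e⟩ := h σ
    exact ⟨c σ - 2 ^ n • r, by rw [nsmul_sub, ← mul_smul, ← pow_succ', ← e]; abel⟩
  refine ⟨m', fun σ => ?_⟩
  obtain ⟨r, e⟩ := h σ
  refine ⟨r, brec_inj ?_⟩
  rw [← mul_smul, ← pow_succ', ← e, map_add, h0, map_nsmul]
  simp only [two_nsmul]
  abel

private lemma brec_loc {P : PB F} {Ps : PB (SeparableClosure F)} (hP : Ps.b = algebraMap F _ P.b)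
    {Q : PB K} (hQ : Q.b = algebraMap F K P.b) (i : SeparableClosure F →ₐ[F] SeparableClosure K)
    {n : ℕ} {c : Gal F → Additive (SeparableClosure F)ˣ} {Y : SeparableClosure F} {x : F}
    (hY : ∀ σ, brec_dl Ps (c σ) = σ Y - Y) (hx : algebraMap F _ x = Y + Ps.c0 Y)
    (h : TrU K (n + 1) fun τ => uM (i : SeparableClosure F →+* SeparableClosure K) (c (resG i τ))) :
    ∃ y, y + Q.c0 y = algebraMap F K x := by
  obtain ⟨Qs, hs⟩ := Q.exists_sep (SeparableClosure K)
  have hi : Qs.b = (i : SeparableClosure F →+* SeparableClosure K) Ps.b := by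
    rw [hs, hQ, hP, ← IsScalarTower.algebraMap_apply]; exact (i.commutes _).symm
  obtain ⟨m, hm⟩ := h
  obtain ⟨y, hy⟩ := (InfiniteGalois.mem_range_algebraMap_iff_fixed (k := K)
    (i Y + brec_dl Qs m)).2 fun τ => by
      obtain ⟨r, e⟩ := hm τ
      have e1 := congrArg (brec_dl Qs) e
      rw [brec_pow, map_sub, map_sub, brec_uM _ hi, brec_sU hs, hY, map_sub] at e1
      have e2 : (i : SeparableClosure F →+* SeparableClosure K) (resG i τ Y) = τ (i Y) :=
        (resG_spec i τ Y).symm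
      rw [e2] at e1
      change τ (i Y) - i Y - _ = 0 at e1
      rw [map_add]
      grind
  refine ⟨y, (algebraMap K (SeparableClosure K)).injective ?_⟩
  have e3 : Qs.c0 (i Y) = i (Ps.c0 Y) := Ps.map_c0 hi Y
  rw [map_add, ← Q.map_c0 hs, hy, PB.c0_add, brec_c0, e3, ← IsScalarTower.algebraMap_apply,
    ← i.commutes, hx, map_add]
  grind

end gal

variable {k : Type} [Field k] [Finite k] [CharP k 2]

private lemma brec_resv (v : HeightOneSpectrum k[X]) {Q : PB (Kv v)}
    (hQ : Q.b = algebraMap _ _ (PX k).b) {x : RatFunc k} {y : Kv v}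
    (h : y + Q.c0 y = algebraMap _ _ x) : res (some v) (x / (PX k).b) = 0 := by
  obtain ⟨L', hL⟩ := exists_cpl_some v
  have hb := Q.b_ne
  have e : algebraMap _ (Kv v) (x / (PX k).b) = y / Q.b + Q.c1 (y / Q.b) := by
    have e1 := Q.c0_b_mul (y / Q.b)
    rw [mul_div_cancel₀ _ hb] at e1
    rw [map_div₀, ← hQ, ← h, e1]
    field_simp
  rw [← mul_one (x / _), ← (PX k).D_b, res_mul_D, ← hL.r, map_mul, ← hL.D, e, ← hQ, add_mul,
    map_add, r_change L'.r_c1, z2_add_self]

private lemma brec_glob {x : RatFunc k} (h : ∀ v, res (some v) (x / (PX k).b) = 0) :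
    ∃ z, z + (PX k).c0 z = x := by
  let S : Finset (Pl k) := insert none (finite_poles (x / (PX k).b)).toFinset
  have hS : none ∈ S := Finset.mem_insert_self _ _
  have h0 : res none (x / (PX k).b) = 0 := by
    have := sum_res {none} (x := x / (PX k).b) fun v hv => by
      rcases v with _ | v
      · simp at hv
      · exact h v
    simpa using this
  obtain ⟨z, -, e⟩ := exists_cart hS (y := x / (PX k).b) (mem_OS.2 fun v hv => by
    by_contra hn
    exact hv (Finset.mem_insert_of_mem (by simpa using hn))) fun v _ => by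
      rcases v with _ | v
      exacts [h0, h v]
  refine ⟨(PX k).b * z, ?_⟩
  rw [PB.c0_b_mul, ← mul_add, e, mul_div_cancel₀ _ (PX k).b_ne]

theorem recip (n : ℕ) (c : Gal (RatFunc k) → Additive (Fs k)ˣ) (h1 : IsLocallyConstant c)
    (h2 : ∀ σ τ, ∃ r, c (σ * τ) - (c σ + sU _ σ (c τ)) = 2 ^ n • r)
    (h3 : ∀ v : HeightOneSpectrum k[X], ∃ j : Fs k →ₐ[RatFunc k] Os v,
      TrU (Kv v) n fun τ => uM (j : Fs k →+* Os v) (c (resG j τ))) : TrU (RatFunc k) n c := by
  induction n generalizing c with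
  | zero => exact ⟨0, fun σ => ⟨_, by rw [pow_zero, one_smul]⟩⟩
  | succ n ih =>
  obtain ⟨Ps, hP⟩ := (PX k).exists_sep (Fs k)
  obtain ⟨Y, hY⟩ := h90 (fun σ => brec_dl Ps (c σ)) (h1.comp _) fun σ τ => by
    obtain ⟨r, e⟩ := h2 σ τ
    have e1 := congrArg (brec_dl Ps) e
    rwa [brec_pow, map_sub, map_add, brec_sU hP, sub_eq_zero] at e1
  obtain ⟨x, hx⟩ := (InfiniteGalois.mem_range_algebraMap_iff_fixed (k := RatFunc k)
    (Y + Ps.c0 Y)).2 fun σ => by
      have e1 := brec_c0 Ps (c σ)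
      rw [hY, CharTwo.sub_eq_add, PB.c0_add, brec_sc0 hP] at e1
      rw [map_add]
      grind
  obtain ⟨z, hz⟩ := brec_glob (x := x) fun v => by
    obtain ⟨Q, hQ⟩ := exists_Qv (PX k) v
    obtain ⟨j, hj⟩ := h3 v
    obtain ⟨y, hy⟩ := brec_loc hP hQ j hY hx hj
    exact brec_resv v hQ hy
  obtain ⟨m, hm⟩ := brec_surj Ps (e := Y + algebraMap _ _ z) (by
    have e1 := congrArg (algebraMap _ (Fs k)) hz
    rw [map_add, hx] at e1
    rw [PB.c0_add, (PX k).map_c0 hP]
    grind)
  have key : ∀ σ, ∃ r, c σ - (sU _ σ m - m) = 2 • r := fun σ => brec_ker Ps (by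
    rw [map_sub, map_sub, brec_sU hP, hm, hY, map_add, σ.commutes]
    ring)
  choose c₁ hc using key
  obtain ⟨m₁, hm₁⟩ := ih c₁ (IsLocallyConstant.desc c₁ (fun r => 2 • r) (by
      have : (fun r => 2 • r) ∘ c₁ = fun σ => c σ - (sU _ σ m - m) := funext fun σ => (hc σ).symm
      rw [this]
      exact h1.comp₂ (brec_lc m) fun a b => a - (b - m)) fun a b e => brec_inj e)
    (fun σ τ => by
      obtain ⟨r, e⟩ := h2 σ τ
      refine ⟨r, brec_inj ?_⟩
      rw [← mul_smul, ← pow_succ', ← e, nsmul_sub, nsmul_add, ← map_nsmul, ← hc, ← hc, ← hc, sU_mul,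
        map_sub, map_sub]
      abel)
    fun v => by
      obtain ⟨Q, -⟩ := exists_Qv (PX k) v
      obtain ⟨j, m', hj⟩ := h3 v
      refine ⟨j, brec_half Q (m := m' - uM (j : Fs k →+* Os v) m) fun τ => ?_⟩
      obtain ⟨r, e⟩ := hj τ
      refine ⟨r, ?_⟩
      rw [← e, ← map_nsmul, ← hc, map_sub, map_sub, map_sub, brec_res]
      abel
  refine ⟨m + 2 • m₁, fun σ => ?_⟩
  obtain ⟨r, e⟩ := hm₁ σ
  refine ⟨r, ?_⟩
  rw [pow_succ', mul_smul, ← e, nsmul_sub, ← hc, map_add, map_nsmul]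
  simp only [two_nsmul]
  abel

end Pool.Agent.Lib.MP_788af2_nt.AS
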