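import Pool.Agent.Lib.MP_a3f657_nt.BK.SDefs
import Pool.Agent.Lib.MP_788af2_nt.AS.Tmap

/-!
Points, the descent map and twisting maps.
-/

set_option linter.unusedSectionVars false

namespace Pool.Agent.Lib.MP_788af2_nt.AS

open Polynomial WeierstrassCurve Pool.Agent.Lib.MP_a3f657_nt.Two IsDedekindDomain

private lemma spt_z2 : ∀ c : ZMod 2, ¬c = 0 → c = 1 := by decide

private lemma spt_c1_ne {K : Type} [Field K] [CharP K 2] (P Q : PB K) : P.c1 Q.b ≠ 0 :=
  fun e => Q.ns _ (P.eq_sq e).symm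

private lemma spt_hV {K : Type} [Field K] [CharP K 2] (P Q : PB K) (x : K) :
    P.c1 Q.b / x + P.c0 Q.b / P.c1 Q.b * (P.D x / x) + P.c0 (P.D x / x) =
      P.c1 Q.b * ((1 + Q.c0 x * Q.c1 x) / x) := by
  have hβ := spt_c1_ne P Q
  by_cases hx : x = 0
  · simp [hx]
  have e0 : P.c0 x = Q.c0 x + Q.c1 x * P.c0 Q.b := by
    conv_lhs => rw [Q.spec x, P.c0_add, P.c0_sq, mul_comm, P.c0_sq_mul]
  have e1 : P.D x / x = (P.c1 x / x) ^ 2 * x := by
    unfold PB.D
    field_simp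
  have e2 : P.c0 (P.D x / x) = P.c1 x / x * P.c0 x := by rw [e1, P.c0_sq_mul]
  rw [e2, e0, PB.D, P.c1_chain Q x]
  have t : (2 : K) = 0 := CharTwo.two_eq_zero
  field_simp
  linear_combination (P.c0 Q.b * Q.c1 x ^ 2) * t

attribute [local instance 10000] Classical.propDecidable

section one

variable {K : Type} [Field K] [CharP K 2] [DecidableEq K] {a : K} {Q : PB K} {W : Affine K}

private lemma spt_kap (Q : PB K) (a : K) (R : (Eb a Q.b).Point) :
    (nd_EW Q a).kap R = kp Q R := by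
  rcases R with _ | ⟨x, y, h⟩
  · rfl
  · change Q.kap (nx (EW a Q.b) x) = Q.kap x
    simp [nx, EW]

private lemma spt_two_inj (hW : W = Eb a Q.b) {R S : W.Point} (h : 2 • R = 2 • S) : R = S := by
  subst hW
  by_contra hne
  refine (eb_two (eb_x_ne Q (spt_c1_ne Q Q) (sub_ne_zero.2 hne))).1 ?_
  rw [← two_nsmul, nsmul_sub, h, sub_self]

lemma hV_eq (P : PB K) (R : W.Point) : hV P Q.b R = P.c1 Q.b * kp Q R := by
  exact spt_hV P Q (xc R)

lemma kp_zero (Q : PB K) : kp Q (0 : W.Point) = 0 := by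
  simp [kp, PB.kap]

lemma kp_neg (Q : PB K) (R : W.Point) : kp Q (-R) = kp Q R := by
  simp only [kp, xc_neg]

lemma kp_add (hW : W = Eb a Q.b) (R S : W.Point) : kp Q (R + S) = kp Q R + kp Q S := by
  subst hW
  simpa only [hV_eq, PB.c1_b, one_mul] using hV_add Q (spt_c1_ne Q Q) R S

lemma kp_sub (hW : W = Eb a Q.b) (R S : W.Point) : kp Q (R - S) = kp Q R + kp Q S := by
  rw [sub_eq_add_neg, kp_add hW, kp_neg]

lemma kp_sum (hW : W = Eb a Q.b) {ι : Type} (s : Finset ι) (R : ι → W.Point) :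
    kp Q (∑ i ∈ s, R i) = ∑ i ∈ s, kp Q (R i) := by
  induction s using Finset.cons_induction with
  | empty => simp [kp_zero]
  | cons i s hi ih => rw [Finset.sum_cons, Finset.sum_cons, kp_add hW, ih]

lemma kp_eq_zero (hW : W = Eb a Q.b) {R : W.Point} : kp Q R = 0 ↔ ∃ S, 2 • S = R := by
  refine ⟨fun h => ?_, ?_⟩
  · subst hW
    obtain ⟨S, hS, -⟩ := eb_half Q (spt_c1_ne Q Q) ⊤ (fun _ _ => ⟨trivial, trivial⟩) trivial
      (Q := R) trivial trivial (by rw [hV_eq, h, mul_zero])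
    exact ⟨S, by rw [two_nsmul, hS]⟩
  · rintro ⟨S, rfl⟩
    rw [two_nsmul, kp_add hW, CharTwo.add_self_eq_zero]

lemma kp_eq (hW : W = Eb a Q.b) {R S : W.Point} : kp Q R = kp Q S ↔ ∃ U, R - S = 2 • U := by
  rw [← CharTwo.add_eq_zero, ← kp_sub hW, kp_eq_zero hW]
  exact exists_congr fun _ => eq_comm

lemma kp_surj [IsSepClosed K] (hW : W = Eb a Q.b) (s : K) : ∃ R : W.Point, kp Q R = s := by
  subst hW
  obtain ⟨R, hR⟩ := (nd_EW Q a).kap_surj s
  exact ⟨R, (spt_kap Q a R).symm.trans hR⟩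

lemma mem_LL' (hW : W = Eb a Q.b) {s : K} : s ∈ LL Q a ↔ ∃ R : W.Point, kp Q R = s := by
  subst hW
  exact exists_congr fun R => by rw [spt_kap Q a R]

lemma eb_pow_inj (hW : W = Eb a Q.b) (n : ℕ) {R S : W.Point} (h : 2 ^ n • R = 2 ^ n • S) :
    R = S := by
  induction n with
  | zero => simpa using h
  | succ n ih =>
    refine ih (spt_two_inj hW ?_)
    rwa [← mul_nsmul', ← mul_nsmul', ← pow_succ']

lemma eb_ext (hW : W = Eb a Q.b) {R S : W.Point} (hx : xc R = xc S) (hy : yc R = yc S) :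
    R = S := by
  subst hW
  by_cases hR : R = 0
  · by_contra hS
    refine eb_x_ne Q (spt_c1_ne Q Q) (Q := S) (fun e => hS (hR.trans e.symm)) ?_
    rw [← hx, hR, xc_zero]
  by_cases hS : S = 0
  · exact absurd (by rw [hx, hS, xc_zero]) (eb_x_ne Q (spt_c1_ne Q Q) hR)
  exact pt_ext hR hS hx hy

lemma hV_add' (P : PB K) {b : K} (hb : P.c1 b ≠ 0) (hW : W = Eb a b) (R S : W.Point) :
    hV P b (R + S) = hV P b R + hV P b S := by
  subst hW
  exact hV_add P hb R S

/-- Saturation of the points with coordinates in a subfield closed under the 2-basis. -/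
lemma eb_sat (hW : W = Eb a Q.b) (P : PB K) (S : Subfield K)
    (hS : ∀ x ∈ S, P.c0 x ∈ S ∧ P.c1 x ∈ S) (hb : Q.b ∈ S) (n : ℕ) {U : W.Point}
    (h1 : xc (2 ^ n • U) ∈ S) (h2 : yc (2 ^ n • U) ∈ S) : xc U ∈ S ∧ yc U ∈ S := by
  induction n generalizing U with
  | zero => exact ⟨by simpa using h1, by simpa using h2⟩
  | succ n ih =>
    rw [pow_succ', mul_nsmul] at h1 h2
    obtain ⟨h3, h4⟩ := ih h1 h2
    have h5 : kp Q (2 • U) = 0 := (kp_eq_zero hW).2 ⟨U, rfl⟩
    have h6 := @spt_two_inj _ _ _ _ _ _ _ hW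
    subst hW
    obtain ⟨V, hV, h7⟩ := eb_half P (spt_c1_ne P Q) S hS hb h3 h4 (by rw [hV_eq, h5, mul_zero])
    rwa [← h6 (R := V) (S := U) (by rw [← hV, two_nsmul])]

lemma eb_sub_sub (hW : W = Eb a Q.b) (S : Subfield K) (ha : a ∈ S) {R R' : W.Point}
    (h1 : xc R ∈ S) (h2 : yc R ∈ S) (h3 : xc R' ∈ S) (h4 : yc R' ∈ S) :
    xc (R - R') ∈ S ∧ yc (R - R') ∈ S := by
  subst hW
  rw [sub_eq_add_neg]
  exact eb_sub_add S ha h1 h2 (by rwa [xc_neg]) (by rw [eb_yc_neg]; exact add_mem h4 h3)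

lemma eb_sub_sum (hW : W = Eb a Q.b) (S : Subfield K) (ha : a ∈ S) {ι : Type} (s : Finset ι)
    {R : ι → W.Point} (h : ∀ i ∈ s, xc (R i) ∈ S ∧ yc (R i) ∈ S) :
    xc (∑ i ∈ s, R i) ∈ S ∧ yc (∑ i ∈ s, R i) ∈ S := by
  subst hW
  induction s using Finset.cons_induction with
  | empty => exact ⟨S.zero_mem, S.zero_mem⟩
  | cons i s hi ih =>
    rw [Finset.sum_cons]
    obtain ⟨h1, h2⟩ := h i (Finset.mem_cons_self _ _)
    obtain ⟨h3, h4⟩ := ih fun j hj => h j (Finset.mem_cons_of_mem hj)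
    exact eb_sub_add S ha h1 h2 h3 h4

end one

section two

variable {K K' K'' : Type} [Field K] [CharP K 2] [DecidableEq K] [Field K'] [CharP K' 2]
  [DecidableEq K'] [Field K''] [CharP K'' 2] [DecidableEq K''] {a : K} {a' : K'} {Q : PB K}
  {Q' : PB K'} {W : Affine K} {W' : Affine K'} {W'' : Affine K''} {φ : K →+* K'} {u : K'}
  {j j' : W.Point → W'.Point}

lemma tm_spec {b : K} (hW : W = Eb a b) (hW' : W' = Eb (φ a + wp u) (φ b)) :
    IsT φ u (tm W W' φ u) := by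
  refine Classical.epsilon_spec (p := fun j : W.Point →+ W'.Point => IsT φ u j) ?_
  subst hW hW'
  obtain ⟨j, -, hj⟩ := exists_tmap φ (Eb a b) (Eb (φ a + wp u) (φ b)) u 0 rfl rfl rfl rfl rfl
    (by simp [Eb]) (by simp [Eb])
  refine ⟨j, fun R => ?_⟩
  by_cases hR : R = 0
  · simp [hR]
  · simpa using hj R hR

lemma IsT.kp (h : IsT φ u j) (hQ : Q'.b = φ Q.b) (R : W.Point) : kp Q' (j R) = φ (kp Q R) := by
  rw [AS.kp, AS.kp, (h R).1, Q.map_kap hQ]

lemma IsT.hV (h : IsT φ u j) (hQ : Q'.b = φ Q.b) (b : K) (R : W.Point) :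
    hV Q' (φ b) (j R) = φ (hV Q b R) := by
  rw [AS.hV, AS.hV, (h R).1, Q.map_D hQ, ← map_div₀ φ (Q.D _), Q.map_c0 hQ, Q.map_c0 hQ,
    Q.map_c1 hQ]
  simp only [map_add, map_mul, map_div₀]

lemma IsT.inj (h : IsT φ u j) (hW : W = Eb a Q.b) : Function.Injective j := by
  intro R S e
  have h1 : φ (xc R) = φ (xc S) := by rw [← (h R).1, ← (h S).1, e]
  refine eb_ext hW (φ.injective h1) (φ.injective ?_)
  have h2 := (h R).2
  rw [e, (h S).2, h1] at h2
  exact (add_right_cancel h2).symm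

lemma IsT.ext (h : IsT φ u j) (h' : IsT φ u j') (hW' : W' = Eb a' Q'.b) (R : W.Point) :
    j R = j' R := by
  exact eb_ext hW' ((h R).1.trans (h' R).1.symm) ((h R).2.trans (h' R).2.symm)

lemma IsT.neg (h : IsT φ u j) {b' : K'} (hW' : W' = Eb a' b') : IsT φ (u + 1) fun R => -j R := by
  subst hW'
  intro R
  refine ⟨by rw [xc_neg, (h R).1], ?_⟩
  rw [eb_yc_neg, (h R).1, (h R).2]
  ring

lemma IsT.sg (h : IsT φ u j) {b' : K'} (hW' : W' = Eb a' b') (c : ZMod 2) :
    IsT φ (u + zc K' c) fun R => sg c • j R := by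
  by_cases hc : c = 0
  · simpa [hc, AS.sg] using h
  · simpa [spt_z2 c hc, AS.sg] using h.neg hW'

lemma IsT.comp (h : IsT φ u j) {ψ : K' →+* K''} {u' : K''} {i : W'.Point → W''.Point}
    (h' : IsT ψ u' i) : IsT (ψ.comp φ) (ψ u + u') fun R => i (j R) := by
  intro R
  refine ⟨by rw [(h' _).1, (h R).1]; rfl, ?_⟩
  rw [(h' _).2, (h R).1, (h R).2]
  simp only [map_add, map_mul, RingHom.comp_apply]
  ring

lemma IsT.range (h : IsT φ u j) (hW : W = Eb a Q.b) (hW' : W' = Eb (φ a + wp u) Q'.b)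
    (hQ : Q'.b = φ Q.b) {R' : W'.Point} (hx : xc R' ∈ φ.range) (hy : yc R' + u * xc R' ∈ φ.range) :
    ∃ R, j R = R' := by
  by_cases hR : R' = 0
  · exact ⟨0, eb_ext hW' (by simp [hR, (h 0).1]) (by simp [hR, (h 0).2])⟩
  obtain ⟨x, hx⟩ := hx
  obtain ⟨y, hy⟩ := hy
  have t : (2 : K') = 0 := CharTwo.two_eq_zero
  have key : ∃ R : W.Point, xc R = x ∧ yc R = y := by
    subst hW hW'
    have e := eb_eq hR
    generalize xc R' = X at *
    generalize yc R' = Y at *
    obtain ⟨R, -, h1⟩ := eb_exists (a := a) Q.b_ne (x := x) (y := y) (φ.injective (by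
      simp only [map_add, map_mul, map_pow, hx, hy, ← hQ]
      unfold wp at e
      linear_combination e + (Y * u * X + u ^ 2 * X ^ 2 + u * X ^ 2) * t))
    exact ⟨R, h1⟩
  obtain ⟨R, h1, h2⟩ := key
  refine ⟨R, eb_ext hW' (by rw [(h R).1, h1, hx]) ?_⟩
  rw [(h R).2, h1, h2, hx, hy]
  linear_combination (u * xc R') * t

end two

section pm

variable {F K L : Type} [Field F] [CharP F 2] [Field K] [Algebra F K] [Field L] [Algebra F L]
  {A B : F}

lemma bc_EW (A B : F) (K : Type) [Field K] [Algebra F K] :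
    ((EW A B).baseChange K).toAffine = Eb (algebraMap F K A) (algebraMap F K B) := by
  ext <;> simp [EW, Eb, WeierstrassCurve.baseChange]

lemma bc_EW' [CharP K 2] (A : F) {Q : PB K} (hQ : Q.b = algebraMap F K B) :
    ((EW A B).baseChange K).toAffine = Eb (algebraMap F K A) Q.b := hQ ▸ bc_EW A B K

lemma pm_isT (W : WeierstrassCurve F) (g : K →ₐ[F] L) : IsT (g : K →+* L) 0 (pm W g) := by
  rintro (_ | ⟨x, y, h⟩)
  · exact ⟨(map_zero g).symm, by rw [zero_mul, add_zero]; exact (map_zero g).symm⟩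
  · exact ⟨rfl, by rw [zero_mul, add_zero]; rfl⟩

lemma xc_pm (W : WeierstrassCurve F) (g : K →ₐ[F] L) (R : Pt W K) : xc (pm W g R) = g (xc R) :=
  (pm_isT W g R).1

lemma yc_pm (W : WeierstrassCurve F) (g : K →ₐ[F] L) (R : Pt W K) : yc (pm W g R) = g (yc R) := by
  simpa using (pm_isT W g R).2

lemma kp_pm [CharP K 2] [CharP L 2] (W : WeierstrassCurve F) {Q : PB K} {Q' : PB L}
    (hQ : Q.b = algebraMap F K B) (hQ' : Q'.b = algebraMap F L B) (g : K →ₐ[F] L) (R : Pt W K) :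
    kp Q' (pm W g R) = g (kp Q R) := by
  exact (pm_isT W g).kp (by simp [hQ, hQ']) R

private lemma spt_conj (i i' : SeparableClosure F →ₐ[F] L) :
    ∃ σ : Gal F, ∀ x, i' x = i (σ x) := by
  let := i.toRingHom.toAlgebra
  have := IsScalarTower.of_algebraMap_eq (R := F) (S := SeparableClosure F) (A := L)
    fun x => (i.commutes x).symm
  exact ⟨i'.restrictNormal' (SeparableClosure F),
    fun x => (i'.restrictNormal_commutes (SeparableClosure F) x).symm⟩

lemma resG_spec (i : SeparableClosure F →ₐ[F] SeparableClosure K) (τ : Gal K)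
    (x : SeparableClosure F) : τ (i x) = i (resG i τ x) := by
  exact Classical.epsilon_spec (p := fun σ : Gal F => ∀ x, τ (i x) = i (σ x))
    (spt_conj i ((τ.toAlgHom.restrictScalars F).comp i)) x

lemma pm_resG (W : WeierstrassCurve F) (i : SeparableClosure F →ₐ[F] SeparableClosure K)
    (τ : Gal K) (R : Pt W (SeparableClosure F)) :
    pm W (τ.toAlgHom.restrictScalars F) (pm W i R) = pm W i (pm W (resG i τ).toAlgHom R) := by
  rw [Affine.Point.map_map, Affine.Point.map_map]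
  congr 2
  exact AlgHom.ext fun x => resG_spec i τ x

lemma emb_conj (i i' : SeparableClosure F →ₐ[F] L) : ∃ σ : Gal F, ∀ x, i' x = i (σ x) := by
  exact spt_conj i i'

lemma exists_fixed {x : SeparableClosure K} (h : ∀ τ : Gal K, τ x = x) :
    ∃ y, algebraMap K _ y = x :=
  (InfiniteGalois.mem_range_algebraMap_iff_fixed (k := K) x).2 h

end pm

end Pool.Agent.Lib.MP_788af2_nt.AS
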