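import Pool.Agent.Lib.MP_a3f657_nt.BK.VUr
import Pool.Agent.Lib.MP_a3f657_nt.BK.SPt

/-!
The descent map on unramified points.
-/

set_option linter.unusedSectionVars false

namespace Pool.Agent.Lib.MP_788af2_nt.AS

open Polynomial WeierstrassCurve Pool.Agent.Lib.MP_a3f657_nt.Two IsDedekindDomain

variable {Ω : Type} [Field Ω] [CharP Ω 2] {d : DF Ω} {P Q : PB Ω} {π a : Ω} {W : Affine Ω}

private lemma vf1_deg_zpow {x : Ω} (hx : x ≠ 0) (m : ℤ) : d.deg (x ^ m) = m * d.deg x := by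
  obtain ⟨n, rfl | rfl⟩ := m.eq_nat_or_neg
  · rw [zpow_natCast, DF.deg_pow hx]; simp
  · rw [zpow_neg, zpow_natCast, DF.deg_inv (pow_ne_zero n hx), DF.deg_pow hx]; simp

/-- The logarithmic derivative of an element of even degree is unramified. -/
private lemma vf1_dlog (h : UrD d P π) {x : Ω} (hx : x ∈ Kur d P π) (h0 : x ≠ 0) {n : ℤ}
    (hn : d.deg x = 2 * n) : P.D x / x ∈ Our d P := by
  obtain ⟨m, u, hu, hu0, hd, rfl⟩ := h.unit hx h0
  have hp : π ^ m ≠ 0 := zpow_ne_zero m h.ne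
  rw [d.deg_mul hp hu0, vf1_deg_zpow h.ne, h.deg, hd] at hn
  have hm : m = -n * 2 := by
    have : (m : ℝ) = -n * 2 := by linarith
    exact_mod_cast this
  have e : π ^ m = (π ^ (-n)) ^ 2 := by
    rw [hm, zpow_mul, zpow_ofNat]
  have e2 : P.D (π ^ m * u) / (π ^ m * u) = P.D u * u⁻¹ := by
    rw [e, P.D_sq_mul, ← e]
    field_simp
  rw [e2]
  exact Our.mul h.b_mem (Our.D h.b_mem hu) (Our.inv h.b_mem hu hd)

/-- The computation on coordinates. -/
private lemma vf1_main (h : UrD d P π) (ha : a ∈ Our d P) (hb : Q.b ∈ Our d P) {x z : Ω}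
    (hx : x ∈ Kur d P π) (hy : z ∈ Kur d P π) (h0 : x ≠ 0)
    (heq : z ^ 2 + x * z = x ^ 3 + a * x ^ 2 + Q.b) (hwp : wp (z / x) = x + a + Q.b / x ^ 2) :
    ∃ u y, u ∈ Our d P ∧ y * P.D Q.b ∈ Our d P ∧ Q.b * Q.kap x ^ 2 = wp y + u := by
  have hk := Q.b_kap_sq h0
  have hch := P.D_chain Q x
  obtain ⟨S, hS, -⟩ := h.field
  generalize Q.kap x = s at hk
  have hmul := fun {p q : Ω} => Our.mul (d := d) (P := P) (x := p) (y := q) h.b_mem
  have hD := fun {p : Ω} => Our.D (d := d) (P := P) (x := p) h.b_mem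
  have e1 : Q.dl x * P.D Q.b = Q.b * (P.D x / x) := by
    rw [PB.dl_eq, hch]; ring
  rcases le_or_gt 0 (d.deg x) with h1 | h1
  · have hi : x⁻¹ ∈ Our d P := h.our ((hS _).1 (S.inv_mem ((hS _).2 hx)))
      (DF.mem_Le_of (by rw [DF.deg_inv h0]; linarith))
    have hu : Q.b / x ^ 2 ∈ Our d P := by
      rw [show Q.b / x ^ 2 = Q.b * (x⁻¹ * x⁻¹) by field_simp]
      exact hmul hb (hmul hi hi)
    refine ⟨Q.b / x ^ 2, Q.dl x, hu, ?_, by rw [hk, add_comm]⟩
    rw [e1]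
    refine hmul hb ?_
    rcases h1.eq_or_lt with h2 | h2
    · exact vf1_dlog h hx h0 (n := 0) (by simp [← h2])
    · have h3 := DF.deg_add_lt (d := d) h0 (add_mem (Our.le ha) (Our.le hu)) h2
      rw [← add_assoc, ← hwp] at h3
      have h4 : z / x ≠ 0 := fun e => h3.1 (by rw [e, wp_zero])
      have h5 : 0 < d.deg (z / x) := by
        by_contra h6
        have h7 : wp (z / x) ∈ d.Le 0 :=
          DF.Le.wp_mem (DF.mem_Le_of (not_lt.1 h6)) (by simp) le_rfl
        rw [DF.mem_Le_iff h3.1, h3.2] at h7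
        linarith
      have h6 := DF.deg_add_lt (d := d) (pow_ne_zero 2 h4) (DF.mem_Le_deg (z / x))
        (by rw [DF.deg_sq h4]; linarith)
      obtain ⟨n, hn⟩ := h.int ((hS _).1 (S.div_mem ((hS _).2 hy) ((hS _).2 hx))) h4
      refine vf1_dlog h hx h0 (n := n) ?_
      rw [← h3.2, wp, h6.2, DF.deg_sq h4, hn]
  · have hxo : x ∈ Our d P := h.our hx (DF.mem_Le_of h1.le)
    have hzo : z ∈ Our d P := by
      refine h.our hy ?_
      by_contra h2
      obtain ⟨h3, h4⟩ := DF.not_mem_Le.1 h2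
      have h5 := DF.deg_add_lt (d := d) (pow_ne_zero 2 h3)
        (DF.Le.mul (Our.le hxo) (DF.mem_Le_deg z) le_rfl) (by rw [DF.deg_sq h3]; linarith)
      have h6 : z ^ 2 + x * z ∈ d.Le 0 := by
        rw [heq]
        refine Our.le (Our.add (Our.add ?_ (hmul ha ?_)) hb)
        · rw [show x ^ 3 = x * (x * x) by ring]
          exact hmul hxo (hmul hxo hxo)
        · rw [sq]
          exact hmul hxo hxo
      rw [DF.mem_Le_iff h5.1, h5.2, DF.deg_sq h3] at h6
      linarith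
    have e2 : P.D Q.b = x * P.D z + z * P.D x + x ^ 2 * P.D x + x ^ 2 * P.D a := by
      have e3 := congrArg P.D heq
      rw [show x ^ 3 = x ^ 2 * x by ring, mul_comm a] at e3
      simp only [PB.D_add, PB.D_sq, PB.D_sq_mul] at e3
      rw [P.D_mul] at e3
      grind
    refine ⟨x + a, Q.dl x + z / x, Our.add hxo ha, ?_, ?_⟩
    · have e3 : (Q.dl x + z / x) * P.D Q.b =
          (z + x * x + a * x) * P.D x + z * P.D z + z * x * (P.D x + P.D a) := by
        rw [add_mul, e1, e2]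
        field_simp
        grind
      rw [e3]
      exact Our.add (Our.add (hmul (Our.add (Our.add hzo (hmul hxo hxo)) (hmul ha hxo)) (hD hxo))
        (hmul hzo (hD hzo))) (hmul (hmul hzo hxo) (Our.add (hD hxo) (hD ha)))
    · rw [hk, wp_add, hwp]
      grind

attribute [local instance 10000] Classical.propDecidable

theorem UrD.f1 (h : UrD d P π) (hW : W = Eb a Q.b) (ha : a ∈ Our d P) (hb : Q.b ∈ Our d P)
    {R : W.Point} (hx : xc R ∈ Kur d P π) (hy : yc R ∈ Kur d P π) :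
    ∃ u y, u ∈ Our d P ∧ y * P.D Q.b ∈ Our d P ∧ Q.b * kp Q R ^ 2 = wp y + u := by
  subst hW
  by_cases h0 : xc R = 0
  · refine ⟨0, 0, Our.zero, by simpa using Our.zero, ?_⟩
    rw [kp, PB.kap, h0, div_zero, sq, mul_zero, mul_zero, wp_zero, add_zero]
  have hR : R ≠ 0 := by
    rintro rfl
    exact h0 rfl
  exact vf1_main h ha hb hx hy h0 (eb_eq hR) (eb_wp R h0)

theorem UrD.f1_int (h : UrD d P π) (hW : W = Eb a Q.b) (ha : a ∈ Our d P) (hb : Q.b ∈ Our d P)
    (h1 : d.deg Q.b = 0) (h2 : d.deg (P.D Q.b) = 0) {R : W.Point} (hx : xc R ∈ Kur d P π)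
    (hy : yc R ∈ Kur d P π) : kp Q R ∈ d.Le 0 := by
  obtain ⟨u, y, hu, hy', e⟩ := h.f1 hW ha hb hx hy
  have h3 : y ∈ d.Le 0 := DF.Le.of_mul (Our.le hy') (P.D_ne_zero Q.ns) (by rw [h2]; simp)
  have h4 : kp Q R ^ 2 * Q.b ∈ d.Le 0 := by
    rw [mul_comm, e]
    exact add_mem (DF.Le.wp_mem h3 (by simp) le_rfl) (Our.le hu)
  exact DF.Le.of_sq (r := 0) (DF.Le.of_mul h4 Q.b_ne (by rw [h1]; simp)) (by simp)

end Pool.Agent.Lib.MP_788af2_nt.AS
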