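import Pool.Agent.Lib.MP_a3f657_nt.BK.EInt
import Pool.Agent.Lib.MP_a3f657_nt.BK.VF1

/-!
Classes that vanish to first order at infinity come from the finite conditions.
-/

set_option linter.unusedSectionVars false
set_option linter.unusedVariables false

namespace Pool.Agent.Lib.MP_788af2_nt.AS

open Polynomial WeierstrassCurve Pool.Agent.Lib.MP_a3f657_nt.Two IsDedekindDomain

attribute [local instance 10000] Classical.propDecidable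

namespace Tw

variable {k : Type} [Field k] [Finite k] [CharP k 2] {I : Type} [Fintype I] [DecidableEq I]
  {β : I → k[X]} {L : Type} [Field L] [CharP L 2] {T : Tw β L}

namespace Env

variable (E : T.Env) {a b : k[X]} {ξ : G I} {n : ℕ}

/-- The untwisting map over a field containing the generators. -/
noncomputable def ut (a b : k[X]) (ξ : G I) (K : Type) [Field K] [CharP K 2]
    [Algebra (RatFunc k) K] (j : Fs k →ₐ[RatFunc k] K) :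
    Pt (Ew β a b ξ) K →+ Pt (EW (ι a) (ι b)) K :=
  tm _ _ (RingHom.id K) (j (comb E.θs ξ))

private lemma eGlob_i_comb (ξ : G I) : E.φ (comb T.θ ξ) = E.i (comb E.θs ξ) := by
  rw [twEx_map_comb E.φ T.θ ξ]
  refine Eq.trans ?_ (twEx_map_comb (E.i : Fs k →+* Oi k) E.θs ξ).symm
  congr 1
  funext j
  exact E.φ_θ j

private lemma eGlob_wp (ξ : G I) :
    wp (comb E.θs ξ) = algebraMap _ (Fs k) (ι (X * comb β ξ ^ 2)) := by
  apply (E.i : Fs k →+* Oi k).injective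
  have h1 := congrArg E.φ (T.wp_comb ξ)
  rw [E.φ_p, wp, map_add, map_pow, E.eGlob_i_comb] at h1
  rw [RingHom.coe_coe, AlgHom.commutes, ← h1, wp, map_add, map_pow]

lemma ut_isT (a b : k[X]) (ξ : G I) {K : Type} [Field K] [CharP K 2] [Algebra (RatFunc k) K]
    (j : Fs k →ₐ[RatFunc k] K) : IsT (RingHom.id K) (j (comb E.θs ξ)) (E.ut a b ξ K j) := by
  refine tm_spec (bc_EW _ _ K) ?_
  have h1 : wp (j (comb E.θs ξ)) = algebraMap _ K (ι (X * comb β ξ ^ 2)) := by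
    rw [← j.commutes, ← E.eGlob_wp, wp, wp, map_add, map_pow]
  rw [bc_EW, h1, RingHom.id_apply, RingHom.id_apply, ← map_add, ← map_add, add_assoc,
    CharTwo.add_self_eq_zero, add_zero]

private lemma eGlob_xc {K : Type} [Field K] [CharP K 2] [Algebra (RatFunc k) K]
    (j : Fs k →ₐ[RatFunc k] K) (w : Pt (Ew β a b ξ) K) : xc (E.ut a b ξ K j w) = xc w :=
  (E.ut_isT a b ξ j w).1

private lemma eGlob_yc {K : Type} [Field K] [CharP K 2] [Algebra (RatFunc k) K]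
    (j : Fs k →ₐ[RatFunc k] K) (w : Pt (Ew β a b ξ) K) :
    yc (E.ut a b ξ K j w) = yc w + j (comb E.θs ξ) * xc w :=
  (E.ut_isT a b ξ j w).2

lemma ut_pm (hb : od b ≠ 0) {K : Type} [Field K] [CharP K 2] [Algebra (RatFunc k) K] {Q : PB K}
    (hQ : Q.b = algebraMap _ _ (ι b)) (j : Fs k →ₐ[RatFunc k] K) (w : Pt (Ew β a b ξ) (Fs k)) :
    pm _ j (E.ut a b ξ _ (AlgHom.id _ _) w) = E.ut a b ξ K j (pm _ j w) := by
  refine eb_ext (bc_EW' (ι a) hQ) ?_ ?_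
  · rw [xc_pm, eGlob_xc, eGlob_xc, xc_pm]
  · rw [yc_pm, eGlob_yc, eGlob_yc, xc_pm, yc_pm, map_add, map_mul, AlgHom.id_apply]

/-- The points over the tower as points of the untwisted curve. -/
private noncomputable def eGlobJ (a b : k[X]) :
    (T.Cw a b).Point →+ Pt (EW (ι a) (ι b)) (Oi k) :=
  tm _ _ E.φ 0

private lemma eGlob_J_isT (a b : k[X]) : IsT E.φ 0 (E.eGlobJ a b) := by
  refine tm_spec (a := T.p a) (b := T.p b) rfl ?_
  rw [bc_EW, wp_zero, add_zero, E.φ_p, E.φ_p]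

private lemma eGlob_ut_jx (hb : od b ≠ 0) (m : (T.Cw a b).Point) :
    E.ut a b ξ _ E.i (E.jx a b ξ m) = E.eGlobJ a b m := by
  obtain ⟨Q, hQ⟩ := exists_Qs (k := k) hb
  refine eb_ext (bc_EW' (ι a) hQ) ?_ ?_
  · rw [eGlob_xc, (E.jx_isT a b ξ m).1, (E.eGlob_J_isT a b m).1]
  · rw [eGlob_yc, (E.jx_isT a b ξ m).1, (E.jx_isT a b ξ m).2, (E.eGlob_J_isT a b m).2,
      E.eGlob_i_comb, add_assoc, CharTwo.add_self_eq_zero, zero_mul]

private lemma eGlob_ind (hb : od b ≠ 0) {x : (T.Cw a b).Point × L}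
    (h1 : x ∈ ⨆ ξ, E.RW a hb ξ n) :
    ∃ (w : ∀ ξ, Pt (Ew β a b ξ) (Fs k)) (U : Pt (EW (ι a) (ι b)) (Oi k)),
      (∀ ξ, w ξ ∈ Wf (Ew β a b ξ) (n + 1)) ∧
      pm _ E.i (∑ ξ, E.ut a b ξ _ (AlgHom.id _ _) (w ξ)) - E.eGlobJ a b x.1 = 2 ^ n • U ∧
      hV E.P (E.φ (T.p b)) U = E.φ x.2 := by
  obtain ⟨Q, hQ⟩ := exists_Qs (k := k) hb
  induction h1 using AddSubgroup.iSup_induction' with
  | hp ξ x hx =>
    obtain ⟨w, hw, U, h2, h3⟩ := hx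
    refine ⟨Pi.single ξ w, E.ut a b ξ _ E.i U, fun ξ' => ?_, ?_, ?_⟩
    · by_cases h : ξ' = ξ
      · subst h
        rwa [Pi.single_eq_same]
      · rw [Pi.single_eq_of_ne h]
        exact zero_mem _
    · rw [Finset.sum_eq_single ξ (fun ξ' _ h => by rw [Pi.single_eq_of_ne h, map_zero])
        (fun h => absurd (Finset.mem_univ _) h), Pi.single_eq_same, E.ut_pm hb hQ,
        ← E.eGlob_ut_jx (ξ := ξ) hb, ← map_sub, h2, map_nsmul]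
    · rw [← h3]
      exact (E.ut_isT a b ξ E.i).hV (Q := E.P) (Q' := E.P) rfl (E.φ (T.p b)) U
  | h1 => exact ⟨0, 0, fun _ => zero_mem _, by simp, by simp [hV_zero]⟩
  | hadd x y _ _ hx hy =>
    obtain ⟨w, U, hw, h2, h3⟩ := hx
    obtain ⟨w', U', hw', h4, h5⟩ := hy
    refine ⟨w + w', U + U', fun ξ => add_mem (hw ξ) (hw' ξ), ?_, ?_⟩
    · simp only [Pi.add_apply, map_add, Finset.sum_add_distrib, Prod.fst_add]
      rw [smul_add, ← h2, ← h4]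
      abel
    · rw [hV_add' E.P (E.c1_ne hb) (by rw [φ_p]; exact bc_EW _ _ _), h3, h5, Prod.snd_add,
        map_add]

/-- The sum of the untwisted classes. -/
theorem glob_sum (hb : od b ≠ 0) {h : L} (h1 : (0, h) ∈ ⨆ ξ, E.RW a hb ξ n) :
    ∃ (w : ∀ ξ, Pt (Ew β a b ξ) (Fs k)) (U : Pt (EW (ι a) (ι b)) (Fs k)),
      (∀ ξ, w ξ ∈ Wf (Ew β a b ξ) (n + 1)) ∧
      ∑ ξ, E.ut a b ξ _ (AlgHom.id _ _) (w ξ) = 2 ^ n • U ∧
      hV E.P (E.φ (T.p b)) (pm _ E.i U) = E.φ h := by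
  obtain ⟨w, U, hw, h2, h3⟩ := E.eGlob_ind hb h1
  obtain ⟨Q, hQ⟩ := exists_Qs (k := k) hb
  rw [map_zero, sub_zero] at h2
  obtain ⟨U₀, h4, h5⟩ := div_of_pm (A := ι a) (P := PDb hb) hQ E.i h2
  exact ⟨w, U₀, hw, h4, (congrArg _ h5).trans h3⟩

private lemma eGlob_fix (hb : od b ≠ 0) {w : ∀ ξ, Pt (Ew β a b ξ) (Fs k)}
    {U : Pt (EW (ι a) (ι b)) (Fs k)} (hw : ∀ ξ, w ξ ∈ Wf (Ew β a b ξ) (n + 1))
    (h2 : ∑ ξ, E.ut a b ξ _ (AlgHom.id _ _) (w ξ) = 2 ^ n • U) {Q : PB (Fs k)}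
    (hQ : Q.b = algebraMap _ _ (ι b)) : kp Q U ∈ E.Fg := by
  refine E.Fg_of_fix fun σ hσ => ?_
  have hW := bc_EW' (ι a) hQ
  choose S hS using fun ξ => (mem_Wf.1 (hw ξ)).1 σ
  have h3 : ∀ ξ, E.ut a b ξ _ σ.toAlgHom = E.ut a b ξ _ (AlgHom.id _ _) := fun ξ => by
    unfold ut
    congr 1
    refine (twEx_map_comb (σ : Fs k →+* Fs k) E.θs ξ).trans ?_
    rw [AlgHom.id_apply]
    congr 1
    funext j
    exact hσ j
  have h4 : pm _ σ.toAlgHom U - U = 2 • ∑ ξ, E.ut a b ξ _ (AlgHom.id _ _) (S ξ) := by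
    refine eb_pow_inj hW n ?_
    rw [smul_sub, ← map_nsmul, ← h2, map_sum, ← Finset.sum_sub_distrib, ← mul_nsmul', ← pow_succ,
      Finset.smul_sum]
    refine Finset.sum_congr rfl fun ξ _ => ?_
    rw [E.ut_pm hb hQ, h3, ← map_sub, hS, map_nsmul]
  have h5 := (kp_eq hW).2 ⟨_, h4⟩
  rw [kp_pm _ hQ hQ] at h5
  exact h5

private lemma eGlob_loc (hb : od b ≠ 0) {w : ∀ ξ, Pt (Ew β a b ξ) (Fs k)}
    {U : Pt (EW (ι a) (ι b)) (Fs k)} (hw : ∀ ξ, w ξ ∈ Wf (Ew β a b ξ) (n + 1))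
    (h2 : ∑ ξ, E.ut a b ξ _ (AlgHom.id _ _) (w ξ) = 2 ^ n • U) {Q : PB (Fs k)}
    (hQ : Q.b = algebraMap _ _ (ι b)) {v : HeightOneSpectrum k[X]} (Λ : Lv v)
    (j : Fs k →ₐ[RatFunc k] Os v) : ∃ u c, u ∈ Our Λ.d Λ.P ∧
      c * algebraMap _ _ (ι (derivative b)) ∈ Our Λ.d Λ.P ∧
      algebraMap _ _ (ι b) * j (kp Q U) ^ 2 = wp c + u := by
  obtain ⟨Qv, hQv⟩ := exists_Qv (PDb hb) v
  obtain ⟨Qs, hQs⟩ := Qv.exists_sep (Os v)
  rw [hQv, PDb_b, ← IsScalarTower.algebraMap_apply] at hQs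
  have hW := bc_EW' (ι a) hQs
  choose m V hm using fun ξ => (mem_Wf.1 (hw ξ)).2 v j
  obtain ⟨S, hS1, hS2⟩ := Λ.urD.field
  have hp : ∀ c : k[X], algebraMap (RatFunc k) (Os v) (ι c) ∈ S := fun c =>
    (hS1 _).2 (Our.kur _ (Λ.our_poly c))
  have h3 : 2 ^ n • (pm _ j U - 2 • ∑ ξ, E.ut a b ξ _ j (V ξ)) =
      ∑ ξ, E.ut a b ξ _ j (pm _ (toSep _ (Kv v)) (m ξ)) := by
    rw [smul_sub, ← map_nsmul, ← h2, map_sum, ← mul_nsmul', ← pow_succ, Finset.smul_sum,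
      ← Finset.sum_sub_distrib]
    refine Finset.sum_congr rfl fun ξ _ => ?_
    rw [E.ut_pm hb hQs, ← map_nsmul, ← map_sub, ← hm, sub_sub_cancel]
  have h4 := eb_sub_sum hW S (hp a) Finset.univ
    (R := fun ξ => E.ut a b ξ _ j (pm _ (toSep _ (Kv v)) (m ξ))) fun ξ _ => by
      have hx : xc (pm _ (toSep _ (Kv v)) (m ξ)) ∈ S := by
        rw [xc_pm]
        exact (hS1 _).2 (Λ.kur_K _)
      have hy : yc (pm _ (toSep _ (Kv v)) (m ξ)) ∈ S := by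
        rw [yc_pm]
        exact (hS1 _).2 (Λ.kur_K _)
      have hθ : j (comb E.θs ξ) ∈ S := by
        refine (hS1 _).2 (Our.kur _ (Our.of_wp Λ.urD.b_mem ?_))
        have h5 : wp (j (comb E.θs ξ)) = algebraMap _ (Os v) (ι (X * comb β ξ ^ 2)) := by
          rw [← j.commutes, ← E.eGlob_wp, wp, wp, map_add, map_pow]
        rw [h5]
        exact Λ.our_poly _
      rw [eGlob_xc, eGlob_yc]
      exact ⟨hx, add_mem hy (mul_mem hθ hx)⟩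
  rw [← h3] at h4
  obtain ⟨h5, h6⟩ := eb_sat hW Λ.P S hS2 (hQs ▸ hp b) n h4.1 h4.2
  obtain ⟨u, c, hu, hc, e⟩ := Λ.urD.f1 hW (Λ.our_poly a) (hQs ▸ Λ.our_poly b) ((hS1 _).1 h5)
    ((hS1 _).1 h6)
  have h7 : kp Qs (pm _ j U - 2 • ∑ ξ, E.ut a b ξ _ j (V ξ)) = j (kp Q U) := by
    rw [kp_sub hW, (kp_eq_zero hW).2 ⟨_, rfl⟩, add_zero, kp_pm _ hQ hQs]
  rw [hQs, Λ.D_alg, D_ι] at hc
  rw [h7, hQs] at e
  exact ⟨u, c, hu, hc, e⟩

theorem ax_glob (hb : od b ≠ 0) {h : L} (h1 : (0, h) ∈ ⨆ ξ, E.RW a hb ξ n) :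
    h ∈ T.Hs b 1 a := by
  obtain ⟨w, U, hw, h2, h3⟩ := E.glob_sum hb h1
  obtain ⟨Q, hQ⟩ := (PDb hb).exists_sep (Fs k)
  obtain ⟨Qs, hQs⟩ := exists_Qs (k := k) hb
  rw [PDb_b] at hQ
  rw [E.hV_kp hQs, kp_pm _ hQ hQs] at h3
  exact E.hs_of_loc hb (fun v => (nonempty_Lv v).some) a (E.eGlob_fix hb hw h2 hQ) h3.symm
    fun v j => E.eGlob_loc hb hw h2 hQ _ j

end Env

end Tw

end Pool.Agent.Lib.MP_788af2_nt.AS
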