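import Pool.Agent.Lib.MP_a3f657_nt.C2Gal

/-!
The groups entering the law of the `2 ^ ∞`-Selmer group.
-/

namespace Pool.Agent.Lib.MP_a3f657_nt.Two

open scoped TensorProduct

attribute [local instance 10000] Classical.propDecidable

/-- The group `ℚ₂ / ℤ₂`: the 2-primary part of `ℚ / ℤ`. -/
abbrev Pru : Type := AddCommGroup.primaryComponent (AddCircle (1 : ℚ)) 2

/-- The group `E(F) ⊗ ℚ₂ / ℤ₂ ⊕ Sha[2 ^ ∞]`. -/
abbrev SelInf {k : Type} [Field k] (W : WeierstrassCurve (RatFunc k)) : Type :=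
  (W.toAffine.Point ⊗[ℤ] Pru) × AddCommGroup.primaryComponent (Sha W) 2

/-- The number of automorphisms of `G` preserving the pairing `ω`. -/
noncomputable def nSp {G : Type} [AddCommGroup G] (ω : G →+ G →+ AddCircle (1 : ℚ)) : ℕ :=
  Nat.card {f : G ≃+ G // ∀ x y, ω (f x) (f y) = ω x y}

end Pool.Agent.Lib.MP_a3f657_nt.Two
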