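import Pool.Agent.Lib.MP_a3f657_nt.BK.ADefs
import Pool.Agent.Lib.MP_a3f657_nt.BK.Stmt

/-!
The invariants of two-primary groups.
-/

set_option linter.unusedSectionVars false

namespace Pool.Agent.Lib.MP_788af2_nt.AS

open Pool.Agent.Lib.MP_a3f657_nt.Two Matrix

variable {S S' : Type} [AddCommGroup S] [AddCommGroup S']

lemma gbas_div (h : ∀ x : S, ∃ y, 2 • y = x) (j : ℕ) (x : S) : ∃ y, 2 ^ j • y = x := by
  induction j with
  | zero => exact ⟨x, by simp⟩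
  | succ j ih =>
    obtain ⟨y, rfl⟩ := ih
    obtain ⟨z, rfl⟩ := h y
    exact ⟨z, by rw [pow_succ, mul_smul]⟩

lemma gbas_circle (x : AddCircle (1 : ℚ)) : ∃ y, 2 • y = x := by
  induction x using QuotientAddGroup.induction_on with
  | H q => exact ⟨((q / 2 : ℚ) : AddCircle (1 : ℚ)), by
      rw [← AddCircle.coe_nsmul, show 2 • (q / 2) = q by rw [nsmul_eq_mul]; push_cast; ring]⟩

lemma gbas_step (S : Type) [AddCommGroup S] (j : ℕ) :
    Nat.card (nsmulAddMonoidHom (2 ^ j) : S →+ S).range =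
      tj S j * Nat.card (nsmulAddMonoidHom (2 ^ (j + 1)) : S →+ S).range := by
  set A := (nsmulAddMonoidHom (2 ^ j) : S →+ S).range
  let f : A →+ S := (nsmulAddMonoidHom 2).comp A.subtype
  have h1 : f.range = (nsmulAddMonoidHom (2 ^ (j + 1)) : S →+ S).range := by
    ext x
    constructor
    · rintro ⟨⟨_, y, rfl⟩, rfl⟩
      exact ⟨y, by simp [f, pow_succ', mul_smul]⟩
    · rintro ⟨y, rfl⟩
      exact ⟨⟨_, y, rfl⟩, by simp [f, pow_succ', mul_smul]⟩
  have h2 : Nat.card f.ker = tj S j := Nat.card_eq_of_bijective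
    (fun c => ⟨c.1.1, c.2, c.1.2⟩)
    ⟨fun a b h => Subtype.ext (Subtype.ext (Subtype.mk.inj h)), fun c => ⟨⟨⟨c.1, c.2.2⟩, c.2.1⟩, rfl⟩⟩
  rw [← h1, ← h2, ← AddSubgroup.index_ker f, AddSubgroup.card_mul_index]

lemma tj_congr (f : S ≃+ S') (j : ℕ) : tj S j = tj S' j := by
  refine Nat.card_congr (f.toEquiv.subtypeEquiv fun c => ?_)
  change _ ↔ 2 • f c = 0 ∧ ∃ c', 2 ^ j • c' = f c
  refine and_congr (by rw [← map_nsmul, f.map_eq_zero_iff]) ⟨?_, ?_⟩
  · rintro ⟨y, rfl⟩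
    exact ⟨f y, (map_nsmul f _ _).symm⟩
  · rintro ⟨y, hy⟩
    exact ⟨f.symm y, f.injective (by rw [map_nsmul, f.apply_symm_apply, hy])⟩

lemma tj_prod (S S' : Type) [AddCommGroup S] [AddCommGroup S'] (j : ℕ) :
    tj (S × S') j = tj S j * tj S' j := by
  unfold tj
  rw [← Nat.card_prod]
  refine Nat.card_congr ((Equiv.subtypeEquivRight fun c => ?_).trans Equiv.subtypeProdEquivProd)
  simp only [Prod.ext_iff, Prod.exists, Prod.smul_fst, Prod.smul_snd, Prod.fst_zero, Prod.snd_zero,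
    exists_and_left, exists_and_right]
  tauto

lemma tj_zero (S : Type) [AddCommGroup S] : tj S 0 = Nat.card {c : S // 2 • c = 0} := by
  exact Nat.card_congr (Equiv.subtypeEquivRight fun c => and_iff_left ⟨c, by simp⟩)

lemma tj_primary (S : Type) [AddCommGroup S] (j : ℕ) :
    tj (AddCommGroup.primaryComponent S 2) j = tj S j := by
  refine Nat.card_eq_of_bijective
    (fun c => ⟨c.1.1, congrArg Subtype.val c.2.1, c.2.2.elim fun y hy =>
      ⟨y.1, congrArg Subtype.val hy⟩⟩) ⟨fun a b h => ?_, fun c => ?_⟩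
  · exact Subtype.ext (Subtype.ext (Subtype.mk.inj h))
  · obtain ⟨c, h1, y, h2⟩ := c
    refine ⟨⟨⟨c, 1, by rwa [pow_one]⟩, Subtype.ext h1, ⟨y, j + 1, ?_⟩, Subtype.ext h2⟩, rfl⟩
    rw [pow_succ', mul_smul, h2, h1]

lemma tj_of_div (h : ∀ x : S, ∃ y, 2 • y = x) (j : ℕ) : tj S j = tj S 0 := by
  rw [tj_zero]
  exact Nat.card_congr (Equiv.subtypeEquivRight fun c => and_iff_left (gbas_div h j c))

lemma pru_half (x : Pru) : ∃ y : Pru, 2 • y = x := by
  obtain ⟨x, n, hn⟩ := x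
  obtain ⟨y, rfl⟩ := gbas_circle x
  exact ⟨⟨y, n + 1, by rwa [pow_succ, mul_smul]⟩, rfl⟩

lemma pru_tors (x : Pru) : ∃ n : ℕ, 2 ^ n • x = 0 := by
  obtain ⟨x, n, hn⟩ := x
  exact ⟨n, Subtype.ext hn⟩

lemma tj_pru (j : ℕ) : tj Pru j = 2 := by
  rw [tj_primary, tj_of_div gbas_circle, tj_zero, Nat.card_eq_two_iff' ⟨0, smul_zero _⟩]
  have h1 : 2 • (((1 / 2 : ℚ) : ℚ) : AddCircle (1 : ℚ)) = 0 := by
    rw [← AddCircle.coe_nsmul, show 2 • (1 / 2 : ℚ) = 1 by norm_num, AddCircle.coe_period]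
  refine ⟨⟨_, h1⟩, fun h => ?_, fun c hc => Subtype.ext ?_⟩
  · obtain ⟨n, hn⟩ := (AddCircle.coe_eq_zero_iff _).1 (congrArg Subtype.val h)
    rw [zsmul_eq_mul, mul_one] at hn
    have h2 : ((2 * n : ℤ) : ℚ) = (1 : ℤ) := by
      push_cast
      rw [hn]
      norm_num
    have h3 := Int.cast_injective h2
    omega
  · obtain ⟨m, h2, h3⟩ := (AddCircle.nsmul_eq_zero_iff two_pos).1 c.2
    interval_cases m
    · exact absurd (Subtype.ext (by simpa using h3.symm)) hc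
    · rw [← h3]
      norm_num

lemma tj_pi_pru (r j : ℕ) : tj (Fin r → Pru) j = 2 ^ r := by
  induction r with
  | zero =>
    exact Nat.card_eq_one_iff_unique.2 ⟨inferInstance, ⟨0, smul_zero _, 0, smul_zero _⟩⟩
  | succ r ih =>
    rw [← tj_congr (Fin.consLinearEquiv ℤ fun _ : Fin (r + 1) => Pru).toAddEquiv, tj_prod, tj_pru,
      ih, pow_succ']

lemma tj_of_kill {j : ℕ} (h : ∀ x : S, 2 ^ j • x = 0) : tj S j = 1 := by
  refine Nat.card_eq_one_iff_unique.2 ⟨⟨fun a b => Subtype.ext ?_⟩, ⟨0, smul_zero _, 0, h 0⟩⟩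
  obtain ⟨x, hx⟩ := a.2.2
  obtain ⟨y, hy⟩ := b.2.2
  rw [← hx, ← hy, h, h]

lemma tj_pos [Finite S] (j : ℕ) : 0 < tj S j := by
  have : Nonempty {c : S // 2 • c = 0 ∧ ∃ c', 2 ^ j • c' = c} := ⟨0, smul_zero _, 0, smul_zero _⟩
  exact Nat.card_pos

lemma tj_zmod (e j : ℕ) : tj (ZMod (2 ^ e)) j = if j < e then 2 else 1 := by
  split_ifs with h
  · obtain ⟨d, rfl⟩ := Nat.exists_eq_add_of_lt h
    unfold tj
    rw [Nat.card_eq_two_iff' ⟨0, smul_zero _, 0, smul_zero _⟩]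
    refine ⟨⟨((2 ^ (j + d) : ℕ) : ZMod (2 ^ (j + d + 1))), ?_, ((2 ^ d : ℕ) : ZMod _), ?_⟩,
      fun h0 => ?_, fun c hc => Subtype.ext ?_⟩
    · rw [nsmul_eq_mul, ← Nat.cast_mul, ← pow_succ', ZMod.natCast_self]
    · rw [nsmul_eq_mul, ← Nat.cast_mul, ← pow_add]
    · have h1 := (ZMod.natCast_eq_zero_iff _ _).1 (congrArg Subtype.val h0)
      have h2 := (Nat.pow_dvd_pow_iff_le_right one_lt_two).1 h1
      omega
    · have h1 : -c.1 = c.1 := by rw [neg_eq_iff_add_eq_zero, ← two_nsmul, c.2.1]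
      rcases (ZMod.neg_eq_self_iff _).1 h1 with h2 | h2
      · exact absurd (Subtype.ext h2) hc
      · have h3 : c.1.val = 2 ^ (j + d) :=
          Nat.eq_of_mul_eq_mul_left two_pos (h2.trans (pow_succ' 2 _))
        change c.1 = ((2 ^ (j + d) : ℕ) : ZMod (2 ^ (j + d + 1)))
        rw [← h3, ZMod.natCast_zmod_val]
  · refine tj_of_kill fun x => ?_
    rw [nsmul_eq_mul, (ZMod.natCast_eq_zero_iff _ _).2 (pow_dvd_pow 2 (not_lt.1 h)), zero_mul]

lemma card_eq_prod_tj [Finite S] {J : ℕ} (h : ∀ x : S, 2 ^ J • x = 0) :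
    Nat.card S = ∏ j ∈ Finset.range J, tj S j := by
  have k : ∀ J : ℕ, Nat.card S = (∏ j ∈ Finset.range J, tj S j) *
      Nat.card (nsmulAddMonoidHom (2 ^ J) : S →+ S).range := by
    intro J
    induction J with
    | zero =>
      rw [Finset.prod_range_zero, one_mul]
      exact (Nat.card_congr (Equiv.subtypeUnivEquiv fun x => ⟨x, by simp⟩)).symm
    | succ J ih => rw [ih, gbas_step, Finset.prod_range_succ, mul_assoc]
  have h1 : Nat.card (nsmulAddMonoidHom (2 ^ J) : S →+ S).range = 1 := by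
    rw [AddSubgroup.card_eq_one, AddMonoidHom.range_eq_bot_iff]
    exact AddMonoidHom.ext h
  rw [k J, h1, mul_one]

lemma exists_kill [Finite S] {n : ℕ} (h : Nat.card S = 2 ^ n) : ∀ x : S, 2 ^ n • x = 0 := by
  intro x
  rw [← h, card_nsmul_eq_zero']

/-- A group in which every element is killed by a power of two and can be halved is injective. -/
theorem baer_of_half (h1 : ∀ x : S, ∃ n : ℕ, 2 ^ n • x = 0) (h2 : ∀ x : S, ∃ y, 2 • y = x) :
    Module.Baer ℤ S := by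
  have k : ∀ n : ℕ, n ≠ 0 → ∀ x : S, ∃ y, n • y = x := by
    intro n hn x
    obtain ⟨a, m, hm, rfl⟩ := Nat.exists_eq_two_pow_mul_odd hn
    obtain ⟨y, rfl⟩ := gbas_div h2 a x
    obtain ⟨b, hb⟩ := h1 y
    obtain ⟨c, hc⟩ := exists_nsmul_eq_self_of_coprime (x := y) (n := m)
      ((Nat.Coprime.pow_right b (Nat.coprime_two_right.2 hm)).coprime_dvd_right
        (addOrderOf_dvd_of_nsmul_eq_zero hb))
    exact ⟨c • y, by rw [mul_smul, smul_comm m c, hc]⟩
  let _ : DivisibleBy S ℕ := divisibleByOfSMulRightSurj S ℕ fun {n} hn => k n hn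
  let _ : DivisibleBy S ℤ := AddGroup.divisibleByIntOfDivisibleByNat S
  exact Module.Baer.of_divisible S

end Pool.Agent.Lib.MP_788af2_nt.AS
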