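import Pool.Agent.Lib.MP_a3f657_nt.BK.SBas
import Pool.Agent.Lib.MP_a3f657_nt.BK.GBas

/-!
The divisible part of the 2-Selmer group in terms of points.
-/

set_option linter.unusedSectionVars false

namespace Pool.Agent.Lib.MP_788af2_nt.AS

open Polynomial WeierstrassCurve Pool.Agent.Lib.MP_a3f657_nt.Two IsDedekindDomain

attribute [local instance 10000] Classical.propDecidable

section gen

variable {F K : Type} [Field F] [CharP F 2] [Field K] [CharP K 2] [Algebra F K] {A : F} {P : PB F}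

private lemma ssha_loc {Q : PB K} (hQ : Q.b = algebraMap F K P.b) {N : ℕ}
    {R : Pt (EW A P.b) (SeparableClosure F)} {ξ : Gal F → Pt (EW A P.b) (SeparableClosure F)}
    (hξ : ∀ σ, 2 ^ N • ξ σ = pm _ σ.toAlgHom R - R) :
    LocTriv (EW A P.b) K ξ ↔ R ∈ LcM (EW A P.b) K N := by
  obtain ⟨Qs, hQs⟩ := Q.exists_sep (SeparableClosure K)
  rw [hQ, ← IsScalarTower.algebraMap_apply] at hQs
  have h1 : ∀ (i : SeparableClosure F →ₐ[F] SeparableClosure K) (τ : Gal K) (σ : Gal F),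
      (∀ x, τ (i x) = i (σ x)) → 2 ^ N • pm _ i (ξ σ) =
        pm _ (τ.toAlgHom.restrictScalars F) (pm _ i R) - pm _ i R := fun i τ σ e => by
    rw [← map_nsmul, hξ, map_sub, Affine.Point.map_map, Affine.Point.map_map]
    congr 3
    ext x
    exact congrArg Subtype.val (e x).symm
  refine ⟨fun H i => ?_, fun H i => ?_⟩
  · obtain ⟨S, hS⟩ := H i
    obtain ⟨m, hm⟩ := exists_of_fixed (K := K) (T := pm _ i R - 2 ^ N • S) fun τ => by
      have e1 := h1 i τ _ (resG_spec i τ)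
      rw [hS τ _ (resG_spec i τ)] at e1
      rw [map_sub, map_nsmul, eq_sub_iff_add_eq.1 e1 |>.symm, nsmul_sub]
      abel
    exact ⟨m, S, by rw [hm, sub_sub_cancel]⟩
  · obtain ⟨m, U, hU⟩ := H i
    refine ⟨U, fun τ σ e => eb_pow_inj (bc_EW' A hQs) N ?_⟩
    rw [h1 i τ σ e, nsmul_sub, ← map_nsmul, ← hU, map_sub, pm_toSep]
    abel

end gen

variable {k : Type} [Field k] [Finite k] [CharP k 2] {A : RatFunc k} {P : PB (RatFunc k)}

lemma dc_zero (W : WeierstrassCurve (RatFunc k)) : dc W 0 = selOrder W := by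
  rw [dc, tj_zero, selOrder_def]

private lemma ssha_mem {N : ℕ} {R : Pt (EW A P.b) (Fs k)} {ξ : Gal (RatFunc k) → Pt (EW A P.b) (Fs k)}
    (hξ : ∀ σ, 2 ^ N • ξ σ = pm _ σ.toAlgHom R - R) :
    (LocTriv (EW A P.b) (Ki k) ξ ∧ ∀ v : HeightOneSpectrum k[X], LocTriv (EW A P.b) (Kv v) ξ) ↔
      R ∈ Sl (EW A P.b) N := by
  obtain ⟨Q₁, hQ₁⟩ := exists_Qi P
  choose Q₂ hQ₂ using exists_Qv P
  rw [Sl, AddSubgroup.mem_inf, mem_Wf, ssha_loc hQ₁ hξ,
    forall_congr' fun v => ssha_loc (hQ₂ v) hξ]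
  exact ⟨fun h => ⟨⟨fun σ => ⟨_, (hξ σ).symm⟩, h.2⟩, h.1⟩, fun h => ⟨h.2, h.1.2⟩⟩

theorem dc_eq {Ps : PB (Fs k)} (hPs : Ps.b = algebraMap _ _ P.b) (n : ℕ) :
    dc (EW A P.b) n = Nat.card {s : Fs k // ∃ w ∈ Sl (EW A P.b) (n + 1), kp Ps w = s} := by
  have hW := bc_EW' A hPs
  have hP : P.b = algebraMap (RatFunc k) (RatFunc k) P.b := rfl
  have hW0 := bc_EW' A hP
  let κ : Pt (EW A P.b) (Fs k) →+ Fs k := AddMonoidHom.mk' (kp Ps) (kp_add hW)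
  let κ₀ : (EW A P.b).toAffine.Point →+ RatFunc k :=
    AddMonoidHom.mk' (kp P) (kp_add (a := A) (Q := P) rfl)
  let j := (algebraMap (RatFunc k) (Fs k)).toAddMonoidHom
  have hj : Function.Injective j := (algebraMap (RatFunc k) _).injective
  let Z := Sl (EW A P.b) (n + 1)
  have hex : ∀ (R : Z) (σ : Gal (RatFunc k)), ∃ S,
      2 ^ (n + 1) • S = pm _ σ.toAlgHom R.1 - R.1 := fun R σ =>
    ((mem_Wf.1 R.2.1).1 σ).imp fun _ e => e.symm
  choose ξ hξ using hex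
  have inj := @eb_pow_inj _ _ _ _ _ _ _ hW (n + 1)
  have inj1 : ∀ {R S : Pt (EW A P.b) (Fs k)}, 2 • R = 2 • S → R = S := fun e =>
    eb_pow_inj hW 1 (by simpa using e)
  have hmem : ∀ R, ξ R ∈ cocyc (EW A P.b) := fun R => by
    refine mem_cocyc.2 ⟨⟨(IsLocallyConstant.iff_eventually_eq _).2 fun σ => ?_, fun σ τ => inj ?_⟩,
      (ssha_mem (hξ R)).2 R.2⟩
    · filter_upwards [(pm_locConst R.1).eventually_eq σ] with τ hτ
      exact inj (by rw [hξ, hξ, hτ])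
    · rw [nsmul_add, ← map_nsmul, hξ, hξ, hξ, map_sub, Affine.Point.map_map, add_comm,
        sub_add_sub_cancel]
      rfl
  let Φ₀ : Z →+ cocyc (EW A P.b) := AddMonoidHom.mk' (fun R => ⟨ξ R, hmem R⟩) fun R S =>
    Subtype.ext (funext fun σ => inj (by
      change 2 ^ (n + 1) • ξ (R + S) σ = 2 ^ (n + 1) • (ξ R σ + ξ S σ)
      rw [nsmul_add, hξ, hξ, hξ, AddSubgroup.coe_add, map_add]
      abel))
  let Φ : Z →+ Sha (EW A P.b) :=
    (nsmulAddMonoidHom (2 ^ n)).comp ((QuotientAddGroup.mk' _).comp Φ₀)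
  have hΦ' : ∀ R, Φ R = 2 ^ n • (QuotientAddGroup.mk (Φ₀ R) : Sha (EW A P.b)) := fun _ => rfl
  have hq : ∀ (m : ℕ) (η : cocyc (EW A P.b)), m • (QuotientAddGroup.mk η : Sha (EW A P.b)) = 0 ↔
      ∃ S, ∀ σ : Gal (RatFunc k), m • η.1 σ = pm _ σ.toAlgHom S - S := fun m η => by
    rw [← QuotientAddGroup.mk_nsmul, QuotientAddGroup.eq_zero_iff]
    rfl
  have hΦ : ∀ R, Φ R = 0 ↔ ∃ S, ∀ σ : Gal (RatFunc k), 2 ^ n • ξ R σ = pm _ σ.toAlgHom S - S :=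
    fun R => hq (2 ^ n) (Φ₀ R)
  have hξ2 : ∀ R σ, 2 • 2 ^ n • ξ R σ = pm _ σ.toAlgHom R.1 - R.1 := fun R σ => by
    rw [← hξ, ← mul_nsmul, pow_succ]
  have e1 : ∀ c : Sha (EW A P.b), c ∈ Φ.range ↔ 2 • c = 0 ∧ ∃ c', 2 ^ n • c' = c := fun c => by
    refine ⟨?_, fun ⟨hc, c', hc'⟩ => ?_⟩
    · rintro ⟨R, rfl⟩
      refine ⟨?_, _, (hΦ' R).symm⟩
      rw [hΦ', ← mul_nsmul, ← pow_succ]
      exact (hq _ _).2 ⟨R.1, hξ R⟩
    · subst hc'
      induction c' using QuotientAddGroup.induction_on with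
      | H η =>
      rw [← mul_nsmul, ← pow_succ] at hc
      obtain ⟨R, hR⟩ := (hq _ _).1 hc
      have e : Φ₀ ⟨R, (ssha_mem hR).1 (mem_cocyc.1 η.2).2⟩ = η :=
        Subtype.ext (funext fun σ => inj ((hξ _ σ).trans (hR σ).symm))
      exact ⟨⟨R, (ssha_mem hR).1 (mem_cocyc.1 η.2).2⟩, by rw [hΦ', e]⟩
  have e2 : (Φ.ker.map Z.subtype).map κ = κ₀.range.map j := by
    refine le_antisymm ?_ ?_
    · rintro _ ⟨_, ⟨R, hR, rfl⟩, rfl⟩
      obtain ⟨S, hS⟩ := (hΦ R).1 hR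
      obtain ⟨R₀, hR₀⟩ := exists_of_fixed (K := RatFunc k) (T := R.1 - 2 • S) fun σ => by
        have e := hξ2 R σ
        rw [hS] at e
        change pm _ σ.toAlgHom _ = _
        rw [map_sub, map_nsmul, eq_sub_iff_add_eq.1 e |>.symm, nsmul_sub]
        abel
      obtain ⟨R₁, hR₁⟩ := (mem_LL' (a := A) (Q := P) (W := (EW A P.b).toAffine) rfl).1
        ((mem_LL' hW0).2 ⟨R₀, rfl⟩)
      refine ⟨kp P R₀, ⟨R₁, hR₁⟩, ?_⟩
      have e := kp_pm (EW A P.b) hP hPs (toSep _ _) R₀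
      rw [hR₀, kp_sub hW, (kp_eq_zero hW).2 ⟨S, rfl⟩, add_zero] at e
      exact e.symm
    · rintro _ ⟨_, ⟨R₁, rfl⟩, rfl⟩
      obtain ⟨R₀, hR₀⟩ := (mem_LL' hW0).1
        ((mem_LL' (a := A) (Q := P) (W := (EW A P.b).toAffine) rfl).2 ⟨R₁, rfl⟩)
      have e := kp_pm (EW A P.b) hP hPs (toSep _ _) R₀
      have e4 : ∀ σ : Gal (RatFunc k), pm _ σ.toAlgHom (pm (EW A P.b) (toSep _ _) R₀) -
        pm _ (toSep _ _) R₀ = 0 := fun σ => sub_eq_zero.2 (pm_toSep σ R₀)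
      have hZ : pm (EW A P.b) (toSep _ _) R₀ ∈ Z :=
        (ssha_mem (ξ := 0) fun σ => by simp [e4]).1 (mem_cocyc.1 (zero_mem (cocyc _))).2
      refine ⟨_, ⟨⟨_, hZ⟩, (hΦ _).2 ⟨0, fun σ => inj1 (by rw [hξ2, e4]; simp)⟩, rfl⟩, ?_⟩
      rw [hR₀] at e
      exact e
  have e3 : κ.ker ⊓ Z ≤ Φ.ker.map Z.subtype := fun R hR => by
    obtain ⟨S, hS⟩ := (kp_eq_zero hW).1 hR.1
    refine ⟨⟨R, hR.2⟩, (hΦ _).2 ⟨S, fun σ => inj1 ?_⟩, rfl⟩
    rw [hξ2, nsmul_sub, ← map_nsmul, hS]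
  have e4 := AddSubgroup.relIndex_mul_relIndex _ _ _ e3 (AddSubgroup.map_subtype_le Φ.ker)
  have e5 : (κ.ker ⊓ Z).relIndex (Φ.ker.map Z.subtype) = κ.ker.relIndex (Φ.ker.map Z.subtype) := by
    rw [← AddSubgroup.inf_relIndex_right, inf_assoc,
      inf_eq_right.2 (AddSubgroup.map_subtype_le Φ.ker), AddSubgroup.inf_relIndex_right]
  rw [e5, AddSubgroup.inf_relIndex_right, AddSubgroup.relIndex_ker, AddSubgroup.relIndex_ker, e2,
    AddSubgroup.card_map_of_injective hj, AddSubgroup.relIndex, AddSubgroup.addSubgroupOf,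
    AddSubgroup.comap_map_eq_self_of_injective Z.subtype_injective, AddSubgroup.index_ker] at e4
  refine Eq.trans ?_ (e4.trans (Nat.card_congr (Equiv.subtypeEquivRight fun s => Iff.rfl)))
  rw [dc, tj, ← AddSubgroup.index_ker, AddSubgroup.index_eq_card]
  congr 1
  · congr 2
    ext R
    exact (kp_eq_zero (a := A) (Q := P) rfl).symm
  · exact Nat.card_congr (Equiv.subtypeEquivRight fun c => (e1 c).symm)

end Pool.Agent.Lib.MP_788af2_nt.AS
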