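import Pool.Agent.Lib.MP_a3f657_nt.BK.EAx2
import Pool.Agent.Lib.MP_a3f657_nt.BK.EGlob
import Pool.Agent.Lib.MP_a3f657_nt.BK.SSha

/-!
The interface holds for the embedded tower.
-/

set_option linter.unusedSectionVars false

namespace Pool.Agent.Lib.MP_788af2_nt.AS

open Polynomial WeierstrassCurve Pool.Agent.Lib.MP_a3f657_nt.Two IsDedekindDomain

attribute [local instance 10000] Classical.propDecidable

namespace Tw

variable {k : Type} [Field k] [Finite k] [CharP k 2] {I : Type} [Fintype I] [DecidableEq I]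
  {β : I → k[X]} {L : Type} [Field L] [CharP L 2] {T : Tw β L}

namespace Env

variable (E : T.Env) {a b : k[X]} {ξ : G I} {n : ℕ} (hb : od b ≠ 0)

theorem ax (hc : IsCoprime b (derivative b)) (a : k[X]) : T.Ax a b (T.Hs b 1 a) (E.RW a hb) where
  pow := E.ax_pow hb
  zero ξ n _ h1 h2 := E.ax_zero hb hc ξ n h1 h2
  glob _ _ := E.ax_glob hb
  up _ _ _ := E.ax_up hb hc
  act _ _ _ _ := E.ax_act hb
  two _ _ _ _ := E.ax_two hb
  ct _ _ hn _ hz _ := E.ax_ct hb hc hn hz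
  mx _ _ := E.ax_mx hb
  qL _ _ := E.ax_qL hb
  qH _ := ax_qH hb hc
  pw _ := E.pw

theorem dd_eq (a : k[X]) (ξ : G I) (n : ℕ) :
    (T.DD (E.RW a hb) ξ n).ncard = dc (Ew β a b ξ) n := by
  obtain ⟨Ps, hPs⟩ := (PDb hb).exists_sep (Fs k)
  obtain ⟨Qs, hQs⟩ := exists_Qs hb
  have hPs' : Ps.b = algebraMap _ _ (ι b) := hPs
  have hW := bc_EW' (K := Oi k) (ι (a + X * comb β ξ ^ 2)) hQs
  have h0 : E.φ (T.p (od b)) ≠ 0 := (map_ne_zero E.φ).2 (T.p_ne hb)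
  have h2 : ∀ S : Pt (Ew β a b ξ) (Oi k), kp Qs (2 • S) = 0 := fun S =>
    (kp_eq_zero hW).2 ⟨S, rfl⟩
  have key : ∀ (w : Pt (Ew β a b ξ) (Fs k)) (z : (T.Cw a b).Point) (S : Pt (Ew β a b ξ) (Oi k)),
      pm _ E.i w - E.jx a b ξ z = 2 ^ (n + 1) • S →
      E.φ (T.hh b z) = E.φ (T.p (od b)) * E.i (kp Ps w) := by
    intro w z S e
    rw [← E.hV_jx (ξ := ξ), E.hV_kp hQs, ← kp_pm _ hPs' hQs]
    congr 1
    symm
    refine (kp_eq hW).2 ⟨2 ^ n • S, ?_⟩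
    rw [e, smul_smul, pow_succ' 2 n]
  have e1 : dc (Ew β a b ξ) n =
      {s : Fs k | ∃ w ∈ Sl (Ew β a b ξ) (n + 1), kp Ps w = s}.ncard :=
    dc_eq (A := ι (a + X * comb β ξ ^ 2)) (P := PDb hb) hPs n
  have hinj : Function.Injective fun s : Fs k => E.φ (T.p (od b)) * E.i s := fun s s' e =>
    E.i.injective (mul_left_cancel₀ h0 e)
  rw [e1, ← Set.ncard_image_of_injective _ E.φ.injective, ← Set.ncard_image_of_injective _ hinj]
  congr 1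
  ext y
  constructor
  · rintro ⟨h, ⟨z, hz, ⟨w, hw, U, e, hU⟩, rfl⟩, rfl⟩
    rw [E.hV_kp hQs, map_zero] at hU
    obtain ⟨S, rfl⟩ := (kp_eq_zero hW).1 ((mul_eq_zero.1 hU).resolve_left h0)
    have e' : pm _ E.i w - E.jx a b ξ z = 2 ^ (n + 1) • S := by
      rw [pow_succ 2 n, ← smul_smul]
      exact e
    obtain ⟨m, hm⟩ := E.loc_of_eig hb hz
    refine ⟨kp Ps w, ⟨w, ⟨hw, ?_⟩, rfl⟩, (key w z S e').symm⟩
    exact LcM_of_one (mem_Wf.1 hw).1 E.i (m := m) (U := S) (hm ▸ e')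
  · rintro ⟨s, ⟨w, ⟨hw, hl⟩, rfl⟩, rfl⟩
    obtain ⟨m, S, e⟩ := hl E.i
    obtain ⟨z, hz, hm⟩ := E.eig_of_loc hb m
    rw [← hm] at e
    refine ⟨T.hh b z, ⟨z, hz, ⟨w, hw, 2 • S, ?_, ?_⟩, rfl⟩, key w z S e⟩
    · rw [smul_smul, ← pow_succ 2 n]
      exact e
    · rw [E.hV_kp hQs, h2, mul_zero, map_zero]

end Env

end Tw

end Pool.Agent.Lib.MP_788af2_nt.AS
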