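import Pool.Agent.Lib.MP_a3f657_nt.BK.SDefs

/-!
Sufficient conditions for lying in the local image at a finite place.
-/

set_option linter.unusedSectionVars false

namespace Pool.Agent.Lib.MP_788af2_nt.AS

open Polynomial WeierstrassCurve Pool.Agent.Lib.MP_a3f657_nt.Two IsDedekindDomain

open scoped Classical

section

variable {K : Type} [Field K] [CharP K 2] {L : PreLoc K} {Q : PB K} {A s u y : K}

/-- A complete field is its own completion. -/
noncomputable def vf2Self (hc : Cpl L.w) : Cmp L where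
  K := K
  f := RingHom.id K
  L' := L
  h := ⟨hc, fun _ => rfl, rfl, fun _ => rfl, fun x _ => ⟨x, by simp⟩⟩

lemma vf2_Q (hc : Cpl L.w) (Q : PB K) : (vf2Self hc).Q Q = Q := PB.ext' ((vf2Self hc).Q_b Q)

lemma vf2_Lt (hc : Cpl L.w) {α u : K} : (α, u) ∈ (vf2Self hc).Lt Q A ↔ (α, u) ∈ Lt Q A := by
  rw [Cmp.mem_Lt', vf2_Q]; rfl

lemma vf2_AA (hc : Cpl L.w) {α : K} : α ∈ (vf2Self hc).AA Q A ↔ α ∈ AA Q A := by
  rw [Cmp.mem_AA', vf2_Q]; rfl

lemma vf2_BB (hc : Cpl L.w) {u : K} : u ∈ (vf2Self hc).BB Q A ↔ u ∈ BB Q A := by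
  rw [Cmp.mem_BB', vf2_Q]; rfl

lemma vf2_rho (L : PreLoc K) (Q : PB K) (s u : K) :
    L.rho Q (Q.b * s ^ 2 * u) = L.rho Q (Q.b * (s * Q.c1 u)) := by
  rw [← L.rho_c0 Q, show Q.b * s ^ 2 * u = s ^ 2 * (Q.b * u) by ring, PB.c0_sq_mul, PB.c0_b_mul]
  congr 1
  ring

theorem mem_LL_good (hc : Cpl L.w) (hA : A ∈ Fil L.w 0) (hB : ord L.w Q.b = 0)
    (hu : u ∈ Fil L.w 0) (hy : y * L.P.D Q.b ∈ Fil L.w 0) (e : Q.b * s ^ 2 = wp y + u) :
    s ∈ LL Q A := by
  have e' : u + wp y = Q.b * s ^ 2 := by rw [e, add_comm]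
  have h1 : (u, y) ∈ Ht Q := by rw [mem_Ht, e', PB.c0_b_sq]
  have h2 := (vf2_Lt hc).1 (Cmp.good_mem_Lt (C := vf2Self hc) hA hB hu h1 (by
    rw [PB.dlg, ← mul_div_assoc]; exact Fil.div hy (by omega)))
  have h3 := (mem_Lt'.1 h2).2
  rwa [e', PB.c1_b_sq] at h3

theorem mem_LL_mult (hc : Cpl L.w) (hA : A ∈ Fil L.w 0) (hB : ord L.w Q.b = 1)
    (hs : s ∈ Fil L.w 0) : s ∈ LL Q A := by
  obtain ⟨z, -, hz⟩ := hc.exists_wp (Fil.mul (mem_Fil_of_le hB.ge) (Fil.sq hs le_rfl) (c := 1)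
    (by omega)) le_rfl
  have h1 : z ∈ Log Q := mem_Log'.2 (by rw [mem_Ht, zero_add, hz, PB.c0_b_sq])
  have h2 : z ∈ BB Q A := (vf2_BB hc).1 (Cmp.BB_of_orth h1 fun α hα =>
    L.rho_PW Q (AA_mult hA hB ((vf2_AA hc).1 hα)) h1)
  have h3 := add_mem_Lt (wp_mem_Lt (P := Q) (A := A) z) h2
  rwa [two_K, hz, bsq_mem_Lt] at h3

theorem mem_LL_int (hc : Cpl L.w) (hA : A ∈ Fil L.w 0) (hB : ord L.w Q.b = 0 ∨ ord L.w Q.b = 1)
    (hs : s ∈ Fil L.w 0) : s ∈ LL Q A := by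
  rcases hB with hB | hB
  · exact mem_LL_good (y := 0) hc hA hB
      (Fil.mul (mem_Fil_of_le hB.ge) (Fil.sq hs le_rfl) (by omega)) (by simp) (by simp)
  · exact mem_LL_mult hc hA hB hs

theorem LL_alt (L : PreLoc K) (hs : s ∈ LL Q A) : L.r (Q.b * (s * L.P.D s)) = 0 := by
  by_cases h0 : s = 0
  · simp [h0]
  have h1 := rho_alt (L.rho_c0 Q) (bsq_mem_Lt.2 hs)
  rw [zero_add, PreLoc.rho_dl] at h1
  rw [← h1]
  congr 1
  field_simp

theorem LL_iso (L : PreLoc K) {s' : K} (hs : s ∈ LL Q A) (hs' : s' ∈ LL Q A) :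
    L.rho Q (Q.b * (s * s')) = 0 := by
  have hb := Q.b_ne
  have h1 := LL_alt L hs
  have h2 := LL_alt L hs'
  have h3 := LL_alt L (add_mem hs hs')
  have h4 := L.r_D (Q.b * (s * s'))
  have e : Q.b * (s * s') * (L.P.D Q.b / Q.b) = L.P.D (Q.b * (s * s')) +
      Q.b * ((s + s') * L.P.D (s + s')) + Q.b * (s * L.P.D s) + Q.b * (s' * L.P.D s') := by
    rw [PB.D_mul, PB.D_mul, PB.D_add, show Q.b * (s * s') * (L.P.D Q.b / Q.b) =
      s * s' * L.P.D Q.b by field_simp]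
    grind
  rw [PreLoc.rho_apply, e, map_add, map_add, map_add, h1, h2, h3, h4]
  rfl

theorem LL_max (hc : Cpl L.w) (h : ∀ s' ∈ LL Q A, L.rho Q (Q.b * (s * s')) = 0) :
    s ∈ LL Q A := by
  have h1 : Q.b * s ^ 2 ∈ AA Q A := (vf2_AA hc).1 (Cmp.AA_of_orth fun u hu => by
    have h2 := (mem_Lt'.1 (mem_BB.1 ((vf2_BB hc).1 hu))).2
    rw [zero_add, PB.c1_wp] at h2
    rw [vf2_rho]
    exact h _ h2)
  obtain ⟨u, hu⟩ := mem_AA.1 h1
  have hL : u ∈ Log Q := by simpa using sub_mem_Log hu.1 (bsq_mem_Ht s)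
  have h2 := (mem_Lt'.1 hu).2
  rw [PB.c1_add, PB.c1_b_sq, PB.c1_wp] at h2
  have h3 : u ∈ BB Q A := (vf2_BB hc).1 (Cmp.BB_of_orth hL fun α hα => by
    obtain ⟨v, hv⟩ := mem_AA.1 ((vf2_AA hc).1 hα)
    obtain ⟨t, ht, e⟩ := mem_Lt''.1 hv
    have e1 : α * u = Q.b * t ^ 2 * u + wp v * u := by rw [← e]; grind
    have e2 : Q.b * (t * Q.c1 u) = Q.b * (s * t) + Q.b * (t * (s + Q.c1 u)) := by grind
    rw [e1, map_add, rho_wp_Log (L.rho_c0 Q) v hL, vf2_rho, e2, map_add, h t ht, LL_iso L ht h2]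
    rfl)
  have h4 := add_mem_Lt hu h3
  rwa [two_K, bsq_mem_Lt] at h4

end

variable {k : Type} [Field k] [Finite k] [CharP k 2] {b : k[X]}

lemma vf2_not_dvd (hb : IsCoprime b (derivative b)) {v : HeightOneSpectrum k[X]} (h : gen v ∣ b) :
    ¬ gen v ∣ derivative b := fun h' => (gen_irr v).not_isUnit (hb.isUnit_of_dvd' h h')

lemma vf2_ord_one (hb : IsCoprime b (derivative b)) {v : HeightOneSpectrum k[X]} (h : gen v ∣ b) :
    ord (val (some v)) (ι b) = 1 := by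
  refine ord_ι_of_not_dvd (n := 1) (by simpa using h) fun h2 => vf2_not_dvd hb h ?_
  simpa using pow_sub_one_dvd_derivative_of_pow_dvd h2

lemma ord_sqfree (hb : IsCoprime b (derivative b)) (v : HeightOneSpectrum k[X]) :
    ord (val (some v)) (ι b) = 0 ∨ ord (val (some v)) (ι b) = 1 := by
  by_cases h : gen v ∣ b
  · exact Or.inr (vf2_ord_one hb h)
  · exact Or.inl (ord_ι_unit h)

/-- Global elements with an integral representative satisfy the finite local conditions. -/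
theorem mem_LL_glob (hb : IsCoprime b (derivative b)) (a n u : k[X]) {s : RatFunc k}
    (e : ι b * s ^ 2 = wp (ι n * ι b / ι (derivative b)) + ι (b * u)) (v : HeightOneSpectrum k[X])
    {Q : PB (Kv v)} (hQ : Q.b = algebraMap _ _ (ι b)) :
    algebraMap _ (Kv v) s ∈ LL Q (algebraMap _ _ (ι a)) := by
  obtain ⟨L', hL⟩ := exists_cpl_some v
  have hA : algebraMap _ (Kv v) (ι a) ∈ Fil L'.w 0 := hL.mem.2 (ι_int v a)
  by_cases h : gen v ∣ b
  · have h1 := vf2_ord_one hb h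
    have h0 : ι b ≠ 0 := fun e0 => by rw [e0] at h1; simp at h1
    have h2 : ι n * ι b / ι (derivative b) ∈ Fil (val (some v)) 1 :=
      Fil.div (Fil.mul (ι_int v n) (ι_mem_one.2 h) (c := 1) (by omega))
        (by rw [ord_ι_unit (vf2_not_dvd hb h)]; omega)
    have h3 : ι b * s ^ 2 ∈ Fil (val (some v)) 1 := by
      rw [e]
      exact add_mem (Fil.wp h2 le_rfl (by omega)) (ι_mem_one.2 (h.mul_right u))
    rw [mul_comm] at h3
    have h4 : s ∈ Fil (val (some v)) 0 :=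
      Fil.of_sq (Fil.of_mul h3 h0 (c := 0) (by omega)) (by omega)
    exact mem_LL_mult hL.cpl hA (by rw [hQ, hL.ord_eq]; exact h1) (hL.mem.2 h4)
  · refine mem_LL_good (y := algebraMap _ (Kv v) (ι n * ι b / ι (derivative b)))
      (u := algebraMap _ (Kv v) (ι (b * u))) hL.cpl hA
      (by rw [hQ, hL.ord_eq]; exact ord_ι_unit h) (hL.mem.2 (ι_int v _)) ?_ ?_
    · rw [hQ, hL.D, ← map_mul]
      refine hL.mem.2 ?_
      have h1 := D_eq (some v) (ι b)
      rw [D_ι] at h1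
      by_cases h0 : ι (derivative b) = 0
      · rw [h0, div_zero, zero_mul]; exact zero_mem _
      have h2 := D_unif_ne (some v)
      have h3 : ι n * ι b / ι (derivative b) * (pl (some v)).P.D (ι b) =
          ι n * ι b / (PX k).D (unif (some v)) := by
        rw [eq_div_iff h2, mul_assoc, ← h1, div_mul_cancel₀ _ h0]
      rw [h3]
      exact Fil.div (Fil.mul (ι_int v n) (ι_int v b) le_rfl) (by rw [pl_w, ord_D_unif]; rfl)
    · have := congrArg (algebraMap _ (Kv v)) e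
      rw [hQ, ← map_pow, ← map_mul, this, map_add]
      simp only [wp, map_add, map_pow]

theorem res_alt {P : PB (RatFunc k)} {A s : RatFunc k}
    (h : ∀ (v : HeightOneSpectrum k[X]) (Q : PB (Kv v)), Q.b = algebraMap _ _ P.b →
      algebraMap _ (Kv v) s ∈ LL Q (algebraMap _ _ A)) :
    res none (P.b * (s * (PX k).D s)) = 0 := by
  have h1 := sum_res (x := P.b * (s * (PX k).D s)) {none} fun v hv => by
    rcases v with _ | v
    · simp at hv
    obtain ⟨L', hL⟩ := exists_cpl_some v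
    obtain ⟨Q, hQ⟩ := hL.exists_PB P
    have h2 := LL_alt L' (h v Q hQ)
    rw [hQ, hL.D, ← map_mul, ← map_mul, hL.r] at h2
    rwa [← mul_assoc, res_mul_D, mul_assoc]
  simpa using h1

end Pool.Agent.Lib.MP_788af2_nt.AS
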