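import Pool.Agent.Lib.MP_a3f657_nt.BK.VDefs

/-!
The unramified ring.
-/

set_option linter.unusedSectionVars false

namespace Pool.Agent.Lib.MP_788af2_nt.AS

open Polynomial WeierstrassCurve Pool.Agent.Lib.MP_a3f657_nt.Two IsDedekindDomain

attribute [local instance 10000] Classical.propDecidable

variable {Ω : Type} [Field Ω] [CharP Ω 2] {d : DF Ω} {P : PB Ω} {π x y : Ω}

lemma Our.le (h : x ∈ Our d P) : x ∈ d.Le 0 := by
  obtain ⟨S, hx, hS⟩ := h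
  exact (hS x hx).1

lemma Our.c0 (h : x ∈ Our d P) : P.c0 x ∈ Our d P := by
  obtain ⟨S, hx, hS⟩ := h
  exact ⟨S, (hS x hx).2.1, hS⟩

lemma Our.c1 (h : x ∈ Our d P) : P.c1 x ∈ Our d P := by
  obtain ⟨S, hx, hS⟩ := h
  exact ⟨S, (hS x hx).2.2, hS⟩

/-- Coinduction up to sums. -/
private lemma vur_coind (T : Set Ω)
    (h : ∀ y ∈ T, y ∈ d.Le 0 ∧ P.c0 y ∈ AddSubgroup.closure (T ∪ Our d P) ∧
      P.c1 y ∈ AddSubgroup.closure (T ∪ Our d P))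
    (hx : x ∈ AddSubgroup.closure (T ∪ Our d P)) : x ∈ Our d P := by
  refine ⟨(AddSubgroup.closure (T ∪ Our d P) : Set Ω), hx, fun y hy => ?_⟩
  simp only [SetLike.mem_coe] at hy ⊢
  induction hy using AddSubgroup.closure_induction with
  | mem z hz =>
    rcases hz with hz | hz
    · exact h z hz
    · exact ⟨Our.le hz, AddSubgroup.subset_closure (Or.inr (Our.c0 hz)),
        AddSubgroup.subset_closure (Or.inr (Our.c1 hz))⟩
  | zero => simp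
  | add a b _ _ ha hb =>
    rw [P.c0_add, P.c1_add]
    exact ⟨add_mem ha.1 hb.1, add_mem ha.2.1 hb.2.1, add_mem ha.2.2 hb.2.2⟩
  | neg a _ ha => rwa [CharTwo.neg_eq]

private lemma vur_l {T : Set Ω} (h : x ∈ T) : x ∈ AddSubgroup.closure (T ∪ Our d P) :=
  AddSubgroup.subset_closure (Or.inl h)

private lemma vur_r {T : Set Ω} (h : x ∈ Our d P) : x ∈ AddSubgroup.closure (T ∪ Our d P) :=
  AddSubgroup.subset_closure (Or.inr h)

lemma Our.add (h : x ∈ Our d P) (h' : y ∈ Our d P) : x + y ∈ Our d P :=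
  vur_coind ∅ (by simp) (add_mem (vur_r h) (vur_r h'))

lemma Our.zero : (0 : Ω) ∈ Our d P := vur_coind ∅ (by simp) (zero_mem _)

lemma Our.one : (1 : Ω) ∈ Our d P := by
  refine vur_coind {1} ?_ (vur_l rfl)
  rintro _ rfl
  exact ⟨DF.Le.one le_rfl, by rw [P.c0_one]; exact vur_l rfl, by rw [P.c1_one]; exact zero_mem _⟩

lemma Our.b (hb : P.b ∈ d.Le 0) : P.b ∈ Our d P := by
  refine vur_coind {P.b} ?_ (vur_l rfl)
  rintro _ rfl
  exact ⟨hb, by rw [P.c0_b]; exact zero_mem _, by rw [P.c1_b]; exact vur_r Our.one⟩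

private lemma vur_bmul (hb : P.b ∈ d.Le 0) (h : x ∈ Our d P) : P.b * x ∈ Our d P := by
  refine vur_coind {z | ∃ o ∈ Our d P, z = P.b * o} ?_ (vur_l ⟨x, h, rfl⟩)
  rintro _ ⟨o, ho, rfl⟩
  refine ⟨DF.Le.mul hb (Our.le ho) (by simp), ?_, ?_⟩
  · rw [P.c0_b_mul]; exact vur_l ⟨_, Our.c1 ho, rfl⟩
  · rw [P.c1_b_mul]; exact vur_r (Our.c0 ho)

lemma Our.mul (hb : P.b ∈ d.Le 0) (h : x ∈ Our d P) (h' : y ∈ Our d P) : x * y ∈ Our d P := by
  refine vur_coind {z | ∃ o ∈ Our d P, ∃ o' ∈ Our d P, z = o * o'} ?_ (vur_l ⟨x, h, y, h', rfl⟩)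
  rintro _ ⟨o, ho, o', ho', rfl⟩
  refine ⟨DF.Le.mul (Our.le ho) (Our.le ho') (by simp), ?_, ?_⟩
  · rw [P.c0_mul, ← mul_assoc]
    exact add_mem (vur_l ⟨_, Our.c0 ho, _, Our.c0 ho', rfl⟩)
      (vur_l ⟨_, vur_bmul hb (Our.c1 ho), _, Our.c1 ho', rfl⟩)
  · rw [P.c1_mul]
    exact add_mem (vur_l ⟨_, Our.c0 ho, _, Our.c1 ho', rfl⟩)
      (vur_l ⟨_, Our.c1 ho, _, Our.c0 ho', rfl⟩)

/-- The unramified ring as a subring. -/
def OurR (hb : P.b ∈ d.Le 0) : Subring Ω where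
  carrier := Our d P
  mul_mem' := Our.mul hb
  one_mem' := Our.one
  add_mem' := Our.add
  zero_mem' := Our.zero
  neg_mem' h := by rwa [CharTwo.neg_eq]

private lemma vur_pow (hb : P.b ∈ d.Le 0) (h : x ∈ Our d P) (n : ℕ) : x ^ n ∈ Our d P :=
  (OurR hb).pow_mem h n

lemma Our.D (hb : P.b ∈ d.Le 0) (h : x ∈ Our d P) : P.D x ∈ Our d P :=
  vur_pow hb (Our.c1 h) 2

lemma Our.inv (hb : P.b ∈ d.Le 0) (h : x ∈ Our d P) (h0 : d.deg x = 0) : x⁻¹ ∈ Our d P := by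
  by_cases hx : x = 0
  · rw [hx, inv_zero]; exact Our.zero
  refine vur_coind {z | ∃ o ∈ Our d P, z = x⁻¹ * o} ?_ (vur_l ⟨1, Our.one, by simp⟩)
  rintro _ ⟨o, ho, rfl⟩
  have e : x⁻¹ * o = x⁻¹ ^ 2 * (x * o) := by
    rw [sq, mul_assoc, inv_mul_cancel_left₀ hx]
  refine ⟨DF.Le.mul (DF.mem_Le_deg _) (Our.le ho) (by rw [DF.deg_inv hx, h0]; simp), ?_, ?_⟩
  · rw [e, P.c0_sq_mul]; exact vur_l ⟨_, Our.c0 (Our.mul hb h ho), rfl⟩
  · rw [e, P.c1_sq_mul]; exact vur_l ⟨_, Our.c1 (Our.mul hb h ho), rfl⟩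

/-- Artin-Schreier generators are unramified. -/
lemma Our.of_wp (hb : P.b ∈ d.Le 0) (h : wp x ∈ Our d P) : x ∈ Our d P := by
  have hx : x ∈ d.Le 0 := DF.Le.of_wp (Our.le h) le_rfl (by simp)
  refine vur_coind {z | ∃ o ∈ Our d P, z = x * o} ?_ (vur_l ⟨1, Our.one, by simp⟩)
  rintro _ ⟨o, ho, rfl⟩
  have e : x * o = x ^ 2 * o + wp x * o := by unfold wp; grind
  refine ⟨DF.Le.mul hx (Our.le ho) (by simp), ?_, ?_⟩
  · rw [e, P.c0_add, P.c0_sq_mul]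
    exact add_mem (vur_l ⟨_, Our.c0 ho, rfl⟩) (vur_r (Our.c0 (Our.mul hb h ho)))
  · rw [e, P.c1_add, P.c1_sq_mul]
    exact add_mem (vur_l ⟨_, Our.c1 ho, rfl⟩) (vur_r (Our.c1 (Our.mul hb h ho)))

/-- Elements generated by their squares are unramified. -/
lemma Our.of_sq (hb : P.b ∈ d.Le 0) (hx : x ∈ d.Le 0) {n : ℕ} {a : ℕ → Ω}
    (ha : ∀ i, a i ∈ Our d P) (h : x = ∑ i ∈ Finset.range n, a i * (x ^ i) ^ 2) :
    x ∈ Our d P := by
  refine vur_coind {z | ∃ j : ℕ, ∃ o ∈ Our d P, z = x ^ j * o} ?_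
    (vur_l ⟨1, 1, Our.one, by simp⟩)
  rintro _ ⟨j, o, ho, rfl⟩
  refine ⟨DF.Le.mul (DF.Le.pow hx j (c := 0) (by simp)) (Our.le ho) (by simp), ?_⟩
  obtain ⟨m, rfl | rfl⟩ := Nat.even_or_odd' j
  · have e : x ^ (2 * m) * o = (x ^ m) ^ 2 * o := by ring
    rw [e, P.c0_sq_mul, P.c1_sq_mul]
    exact ⟨vur_l ⟨m, _, Our.c0 ho, rfl⟩, vur_l ⟨m, _, Our.c1 ho, rfl⟩⟩
  · have e : x ^ (2 * m + 1) * o = ∑ i ∈ Finset.range n, (x ^ (m + i)) ^ 2 * (a i * o) := by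
      rw [pow_succ]
      conv_lhs => rw [mul_assoc, mul_comm x o, ← mul_assoc]
      conv_lhs => arg 2; rw [h]
      rw [Finset.mul_sum]
      exact Finset.sum_congr rfl fun i _ => by ring
    rw [e]
    constructor
    · rw [show P.c0 _ = P.c0h _ from rfl, map_sum]
      refine sum_mem fun i _ => ?_
      rw [show P.c0h _ = P.c0 _ from rfl, P.c0_sq_mul]
      exact vur_l ⟨m + i, _, Our.c0 (Our.mul hb (ha i) ho), rfl⟩
    · rw [show P.c1 _ = P.c1h _ from rfl, map_sum]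
      refine sum_mem fun i _ => ?_
      rw [show P.c1h _ = P.c1 _ from rfl, P.c1_sq_mul]
      exact vur_l ⟨m + i, _, Our.c1 (Our.mul hb (ha i) ho), rfl⟩

/-- The change of the 2-basis to the uniformizer. -/
private lemma vur_dec (h : UrD d P π) (x : Ω) :
    x = (P.c0 x + P.c1 x * (P.c1 π)⁻¹ * P.c0 π) ^ 2 + π * (P.c1 x * (P.c1 π)⁻¹) ^ 2 := by
  have h1 := h.c1_ne
  have := P.spec x
  have := P.spec π
  grind

private lemma vur_h (h : UrD d P π) (hx : x ∈ Our d P) : P.c1 x * (P.c1 π)⁻¹ ∈ Our d P :=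
  Our.mul h.b_mem (Our.c1 hx) h.inv

private lemma vur_g (h : UrD d P π) (hx : x ∈ Our d P) :
    P.c0 x + P.c1 x * (P.c1 π)⁻¹ * P.c0 π ∈ Our d P :=
  Our.add (Our.c0 hx) (Our.mul h.b_mem (vur_h h hx) (Our.c0 h.mem))

private lemma vur_small (h : UrD d P π) (hx : x ∈ Our d P) : π * x ^ 2 ∈ d.Le (-1) :=
  DF.Le.mul (DF.mem_Le_deg π) (DF.Le.sq (c := 0) (Our.le hx) (by simp)) (by rw [h.deg]; simp)

theorem UrD.deg_le (h : UrD d P π) (hx : x ∈ Our d P) (h0 : x ≠ 0) (h1 : d.deg x < 0) :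
    d.deg x ≤ -1 := by
  by_contra h2
  rw [not_le] at h2
  obtain ⟨N, S, hxS, hS⟩ := h.dis x
  have key : ∀ n : ℕ, ∃ y ∈ S, y ∈ Our d P ∧ y ≠ 0 ∧ 2 ^ n * d.deg y = d.deg x := by
    intro n
    induction n with
    | zero => exact ⟨x, hxS, hx, h0, by simp⟩
    | succ n ih =>
      obtain ⟨y, hyS, hy, hy0, e⟩ := ih
      have p1 : (1 : ℝ) ≤ 2 ^ n := one_le_pow₀ (by norm_num)
      have hy1 : -1 < d.deg y := by nlinarith
      have a1 : P.c1 y * (P.c1 π)⁻¹ ∈ S := (hS _ (hS y hyS).2.1).2.2.2.1.1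
      have a2 : P.c0 y + P.c1 y * (P.c1 π)⁻¹ * P.c0 π ∈ S :=
        (hS _ (hS y hyS).1).2.2.1 _ (hS _ a1).2.2.2.1.2
      have e1 : (P.c0 y + P.c1 y * (P.c1 π)⁻¹ * P.c0 π) ^ 2 =
          y + π * (P.c1 y * (P.c1 π)⁻¹) ^ 2 := by
        have := vur_dec h y
        grind
      obtain ⟨b1, b2⟩ := DF.deg_add_lt (d := d) hy0 (vur_small h (vur_h h hy)) hy1
      rw [← e1] at b1 b2
      have b3 : P.c0 y + P.c1 y * (P.c1 π)⁻¹ * P.c0 π ≠ 0 := fun e => b1 (by rw [e]; simp)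
      refine ⟨_, a2, vur_g h hy, b3, ?_⟩
      rw [DF.deg_sq b3] at b2
      rw [pow_succ, mul_assoc, b2, e]
  obtain ⟨y, hyS, -, hy0, e⟩ := key N
  have p1 : (N : ℝ) + 1 ≤ 2 ^ N := by exact_mod_cast Nat.lt_two_pow_self
  have p0 : (0 : ℝ) < N + 1 := by positivity
  have hy1 : d.deg y < 0 := by
    by_contra h3
    rw [not_lt] at h3
    nlinarith
  have h4 := (hS y hyS).2.2.2.2 hy0 hy1
  rw [le_div_iff₀ p0] at h4
  nlinarith

private lemma vur_le (h : UrD d P π) (hx : x ∈ Our d P) {r : ℝ} (hr : r < 0) (h1 : x ∈ d.Le r) :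
    x ∈ d.Le (-1) := by
  by_cases h0 : x = 0
  · exact Or.inl h0
  exact Or.inr (h.deg_le hx h0 (((DF.mem_Le_iff h0).1 h1).trans_lt hr))

theorem UrD.div (h : UrD d P π) (hx : x ∈ Our d P) (h1 : x ∈ d.Le (-1)) : x / π ∈ Our d P := by
  refine vur_coind {z | ∃ o ∈ Our d P, o ∈ d.Le (-1) ∧ z = o / π} ?_ (vur_l ⟨x, hx, h1, rfl⟩)
  rintro _ ⟨o, ho, ho1, rfl⟩
  have hπ := h.ne
  obtain ⟨g, hg⟩ : ∃ g, g = P.c0 o + P.c1 o * (P.c1 π)⁻¹ * P.c0 π := ⟨_, rfl⟩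
  obtain ⟨u, hu⟩ : ∃ u, u = P.c1 o * (P.c1 π)⁻¹ := ⟨_, rfl⟩
  have e0 : o = g ^ 2 + π * u ^ 2 := by rw [hg, hu]; exact vur_dec h o
  have g0 : g ∈ Our d P := hg ▸ vur_g h ho
  have u0 : u ∈ Our d P := hu ▸ vur_h h ho
  have g1 : g ∈ d.Le (-1) := by
    have e1 : g ^ 2 = o + π * u ^ 2 := by grind
    refine vur_le h g0 (r := -1 / 2) (by norm_num) (DF.Le.of_sq (r := -1) ?_ le_rfl)
    rw [e1]
    exact add_mem ho1 (vur_small h u0)
  have e : o / π = (g / π) ^ 2 * π + u ^ 2 := by rw [e0]; grind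
  refine ⟨DF.Le.div ho1 (by rw [h.deg]; simp), ?_, ?_⟩
  · rw [e, P.c0_add, P.c0_sq_mul, P.c0_sq]
    refine add_mem (vur_l ⟨g * P.c0 π, Our.mul h.b_mem g0 (Our.c0 h.mem),
      DF.Le.mul g1 (Our.le (Our.c0 h.mem)) (by simp), by ring⟩) (vur_r u0)
  · rw [e, P.c1_add, P.c1_sq_mul, P.c1_sq, add_zero]
    exact vur_l ⟨g * P.c1 π, Our.mul h.b_mem g0 (Our.c1 h.mem),
      DF.Le.mul g1 (Our.le (Our.c1 h.mem)) (by simp), by ring⟩

lemma Our.kur (π : Ω) (hx : x ∈ Our d P) : x ∈ Kur d P π := ⟨0, by simpa using hx⟩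

private lemma vur_unit (h : UrD d P π) (k : ℕ) : ∀ o ∈ Our d P, o ≠ 0 → -(k : ℝ) ≤ d.deg o →
    ∃ (m : ℕ) (u : Ω), u ∈ Our d P ∧ u ≠ 0 ∧ d.deg u = 0 ∧ o = π ^ m * u := by
  induction k with
  | zero =>
    intro o ho h0 h1
    have := (DF.mem_Le_iff h0).1 (Our.le ho)
    exact ⟨0, o, ho, h0, le_antisymm this (by simpa using h1), by simp⟩
  | succ k ih =>
    intro o ho h0 h1
    rcases ((DF.mem_Le_iff h0).1 (Our.le ho)).eq_or_lt with h2 | h2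
    · exact ⟨0, o, ho, h0, h2, by simp⟩
    have hπ := h.ne
    obtain ⟨m, u, a1, a2, a3, a4⟩ := ih (o / π) (h.div ho (Or.inr (h.deg_le ho h0 h2)))
      (div_ne_zero h0 hπ) (by rw [DF.deg_div h0 hπ, h.deg]; push_cast at h1; linarith)
    refine ⟨m + 1, u, a1, a2, a3, ?_⟩
    rw [div_eq_iff hπ] at a4
    rw [a4]; ring

theorem UrD.unit (h : UrD d P π) (hx : x ∈ Kur d P π) (h0 : x ≠ 0) :
    ∃ (m : ℤ) (u : Ω), u ∈ Our d P ∧ u ≠ 0 ∧ d.deg u = 0 ∧ x = π ^ m * u := by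
  obtain ⟨n, hn⟩ := hx
  have hπ := h.ne
  obtain ⟨k, hk⟩ := exists_nat_ge (-d.deg (π ^ n * x))
  obtain ⟨m, u, a1, a2, a3, a4⟩ := vur_unit h k _ hn (mul_ne_zero (pow_ne_zero n hπ) h0)
    (by linarith)
  refine ⟨(m : ℤ) - n, u, a1, a2, a3, ?_⟩
  rw [zpow_sub₀ hπ, zpow_natCast, zpow_natCast, div_mul_eq_mul_div, ← a4,
    mul_div_cancel_left₀ _ (pow_ne_zero n hπ)]

private lemma vur_zpow (h : UrD d P π) (m : ℤ) : d.deg (π ^ m) = -m := by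
  obtain ⟨n, rfl | rfl⟩ := Int.eq_nat_or_neg m
  · rw [zpow_natCast, DF.deg_pow h.ne, h.deg]; simp
  · rw [zpow_neg, zpow_natCast, DF.deg_inv (pow_ne_zero n h.ne), DF.deg_pow h.ne, h.deg]; simp

lemma UrD.int (h : UrD d P π) (hx : x ∈ Kur d P π) (h0 : x ≠ 0) : ∃ m : ℤ, d.deg x = m := by
  obtain ⟨m, u, -, a2, a3, rfl⟩ := h.unit hx h0
  exact ⟨-m, by rw [d.deg_mul (zpow_ne_zero m h.ne) a2, vur_zpow h, a3]; simp⟩

lemma UrD.our (h : UrD d P π) (hx : x ∈ Kur d P π) (h0 : x ∈ d.Le 0) : x ∈ Our d P := by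
  by_cases h1 : x = 0
  · rw [h1]; exact Our.zero
  obtain ⟨m, u, a1, a2, a3, rfl⟩ := h.unit hx h1
  rw [DF.mem_Le_iff h1, d.deg_mul (zpow_ne_zero m h.ne) a2, vur_zpow h, a3] at h0
  have hm : 0 ≤ m := by
    have : (0 : ℝ) ≤ m := by linarith
    exact_mod_cast this
  obtain ⟨n, rfl⟩ := Int.eq_ofNat_of_zero_le hm
  rw [zpow_natCast]
  exact Our.mul h.b_mem (vur_pow h.b_mem h.mem n) a1

private lemma vur_up (h : UrD d P π) {n : ℕ} (m : ℕ) (hx : π ^ n * x ∈ Our d P) :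
    π ^ (m + n) * x ∈ Our d P := by
  rw [pow_add, mul_assoc]
  exact Our.mul h.b_mem (vur_pow h.b_mem h.mem m) hx

private lemma vur_zmem (h : UrD d P π) (m : ℤ) (hx : x ∈ Our d P) : π ^ m * x ∈ Kur d P π := by
  obtain ⟨n, rfl | rfl⟩ := Int.eq_nat_or_neg m
  · rw [zpow_natCast]
    exact Our.kur π (Our.mul h.b_mem (vur_pow h.b_mem h.mem n) hx)
  · refine ⟨n, ?_⟩
    rwa [zpow_neg, zpow_natCast, ← mul_assoc, mul_inv_cancel₀ (pow_ne_zero n h.ne), one_mul]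

theorem UrD.field (h : UrD d P π) : ∃ S : Subfield Ω, (∀ x, x ∈ S ↔ x ∈ Kur d P π) ∧
    ∀ x ∈ S, P.c0 x ∈ S ∧ P.c1 x ∈ S := by
  let S : Subfield Ω :=
    { carrier := Kur d P π
      mul_mem' := by
        rintro a b ⟨n, ha⟩ ⟨m, hb⟩
        refine ⟨n + m, ?_⟩
        rw [show π ^ (n + m) * (a * b) = (π ^ n * a) * (π ^ m * b) by ring]
        exact Our.mul h.b_mem ha hb
      one_mem' := Our.kur π Our.one
      add_mem' := by
        rintro a b ⟨n, ha⟩ ⟨m, hb⟩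
        refine ⟨n + m, ?_⟩
        rw [mul_add]
        refine Our.add ?_ (vur_up h n hb)
        rw [add_comm]
        exact vur_up h m ha
      zero_mem' := Our.kur π Our.zero
      neg_mem' := fun ha => by rwa [CharTwo.neg_eq]
      inv_mem' := by
        intro a ha
        by_cases h0 : a = 0
        · rw [h0, inv_zero]; exact Our.kur π Our.zero
        obtain ⟨m, u, a1, -, a3, rfl⟩ := h.unit ha h0
        rw [mul_inv, ← zpow_neg]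
        exact vur_zmem h _ (Our.inv h.b_mem a1 a3) }
  refine ⟨S, fun _ => Iff.rfl, ?_⟩
  rintro a ⟨n, ha⟩
  have h1 := vur_up h n ha
  rw [show π ^ (n + n) * a = (π ^ n) ^ 2 * a by ring] at h1
  exact ⟨⟨n, by rw [← P.c0_sq_mul]; exact Our.c0 h1⟩, ⟨n, by rw [← P.c1_sq_mul]; exact Our.c1 h1⟩⟩

end Pool.Agent.Lib.MP_788af2_nt.AS
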