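import Pool.Agent.Lib.MP_a3f657_nt.BK.VExt
import Pool.Agent.Lib.MP_a3f657_nt.BK.VUr
import Pool.Agent.Lib.MP_a3f657_nt.BK.SPt

/-!
The unramified ring at a finite place.
-/

set_option linter.unusedSectionVars false

namespace Pool.Agent.Lib.MP_788af2_nt.AS

open Polynomial WeierstrassCurve Pool.Agent.Lib.MP_a3f657_nt.Two IsDedekindDomain

variable {k : Type} [Field k] [Finite k] [CharP k 2] {v : HeightOneSpectrum k[X]}

section aux

variable {L : Type} [Field L]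

/-- The ring of elements of degree at most zero. -/
def vlvInt (d : DF L) : Subring L where
  carrier := d.Le 0
  mul_mem' hx hy := DF.Le.mul hx hy (by simp)
  one_mem' := DF.Le.one le_rfl
  add_mem' hx hy := add_mem hx hy
  zero_mem' := zero_mem _
  neg_mem' hx := neg_mem hx

lemma mem_vlvInt {d : DF L} {x : L} : x ∈ vlvInt d ↔ x ∈ d.Le 0 := Iff.rfl

/-- A root of a monic polynomial with integral coefficients is integral. -/
lemma vlv_root {d : DF L} {p : L[X]} (hm : p.Monic) (hc : ∀ i, p.coeff i ∈ d.Le 0) {x : L}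
    (hx : p.eval x = 0) : x ∈ d.Le 0 := by
  by_contra hn
  obtain ⟨h0, h1⟩ := DF.not_mem_Le.1 hn
  rw [eval_eq_sum_range, Finset.sum_range_succ, hm.coeff_natDegree, one_mul] at hx
  have h2 : ∑ i ∈ Finset.range p.natDegree, p.coeff i * x ^ i ∈
      d.Le ((p.natDegree - 1 : ℝ) * d.deg x) := by
    refine sum_mem fun i hi => DF.Le.mul (hc i) (DF.mem_Le_deg _) ?_
    have h3 : (i : ℝ) + 1 ≤ p.natDegree := by exact_mod_cast Finset.mem_range.1 hi
    rw [DF.deg_pow h0, zero_add]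
    exact mul_le_mul_of_nonneg_right (by linarith) h1.le
  rw [eq_neg_of_add_eq_zero_left hx, neg_mem_iff, DF.mem_Le_iff (pow_ne_zero _ h0),
    DF.deg_pow h0] at h2
  linarith

/-- A product of linear factors with integral roots has integral coefficients. -/
lemma vlv_coeff {d : DF L} (s : Multiset L) (hs : ∀ r ∈ s, r ∈ d.Le 0) (i : ℕ) :
    (s.map fun r => X - C r).prod.coeff i ∈ d.Le 0 := by
  have h : (s.map fun r => X - C r).prod ∈ liftsRing (vlvInt d).subtype := by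
    refine multiset_prod_mem _ fun q hq => ?_
    obtain ⟨r, hr, rfl⟩ := Multiset.mem_map.1 hq
    exact ⟨X - C ⟨r, hs r hr⟩, by simp⟩
  obtain ⟨q, hq⟩ := h
  rw [← hq, coe_mapRingHom, coeff_map]
  exact (q.coeff i).2

end aux

lemma vlv_fin (p : (RatFunc k)[X]) : ∃ S : Finset (HeightOneSpectrum k[X]), ∀ v ∉ S, ∀ i,
    p.coeff i ∈ Fil (val (some v)) 0 := by
  have h : (⋃ i ∈ p.support, some ⁻¹' {u : Pl k | p.coeff i ∉ Fil (val u) 0}).Finite :=
    p.support.finite_toSet.biUnion fun i _ =>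
      (finite_poles (p.coeff i)).preimage (Option.some_injective _).injOn
  refine ⟨h.toFinset, fun v hv i => ?_⟩
  by_contra hn
  refine hv (h.mem_toFinset.2 (Set.mem_biUnion (x := i) ?_ hn))
  exact mem_support_iff.2 fun e => hn (by rw [e]; exact zero_mem _)

lemma vlv_c1_ord (v : HeightOneSpectrum k[X]) :
    (PX k).c1 (ι (gen v)) ≠ 0 ∧ ord (val (some v)) ((PX k).c1 (ι (gen v))) = 0 := by
  have h1 : (PX k).c1 (ι (gen v)) ^ 2 ≠ 0 := D_unif_ne (some v)
  have h2 : ord (val (some v)) ((PX k).c1 (ι (gen v)) ^ 2) = 0 := ord_D_unif (some v)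
  rw [ord_sq] at h2
  exact ⟨fun e => h1 (by simp [e]), by omega⟩

namespace Lv

variable (Λ : Lv v)

lemma vlv_tower (x : RatFunc k) : algebraMap (RatFunc k) (Os v) x =
    algebraMap (Kv v) (Os v) (algebraMap (RatFunc k) (Kv v) x) :=
  IsScalarTower.algebraMap_apply _ _ _ x

lemma vlv_PB : ∃ Q : PB (Kv v), Q.b = algebraMap (RatFunc k) _ (PX k).b ∧
    Λ.P.b = algebraMap (Kv v) (Os v) Q.b := by
  obtain ⟨Q, hQ⟩ := Λ.cpl.exists_PB (PX k)
  exact ⟨Q, hQ, by rw [hQ, ← vlv_tower]; exact Λ.hP⟩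

/-- The uniformizer. -/
noncomputable def π (_ : Lv v) : Os v := algebraMap (RatFunc k) _ (ι (gen v))

lemma mem_alg {x : RatFunc k} {n : ℤ} :
    algebraMap (RatFunc k) (Os v) x ∈ Λ.d.Le n ↔ x ∈ Fil (val (some v)) (-n) := by
  rw [vlv_tower, Λ.ext.mem, Λ.cpl.mem, pl_w]

lemma deg_alg {x : RatFunc k} (h : x ≠ 0) :
    Λ.d.deg (algebraMap (RatFunc k) (Os v) x) = -(ord (val (some v)) x : ℤ) := by
  rw [vlv_tower, Λ.ext.alg _ ((_root_.map_ne_zero _).2 h), Λ.cpl.ord_eq, pl_w]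

lemma D_alg (x : RatFunc k) :
    Λ.P.D (algebraMap (RatFunc k) (Os v) x) = algebraMap _ _ ((PX k).D x) := by
  exact (PX k).map_D Λ.hP x

lemma our_K {x : Kv v} (h : x ∈ Fil Λ.L'.w 0) : algebraMap (Kv v) (Os v) x ∈ Our Λ.d Λ.P := by
  obtain ⟨Q, hQ, hP⟩ := Λ.vlv_PB
  refine ⟨algebraMap (Kv v) (Os v) '' Fil Λ.L'.w 0, ⟨x, h, rfl⟩, ?_⟩
  rintro _ ⟨y, hy, rfl⟩
  have h1 : Q.c1 y ∈ Fil Λ.L'.w 0 := by
    rw [Q.c1_chain Λ.L'.P y, Λ.cpl.b, (PX k).map_c1 hQ]
    refine Fil.mul (PreLoc.c1_mem hy (c := 0) le_rfl) ((Λ.cpl.mem (n := 0)).2 ?_) le_rfl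
    exact mem_Fil_of_le (vlv_c1_ord v).2.ge
  have h2 : Q.b ∈ Fil Λ.L'.w 0 := by
    rw [hQ]
    exact Λ.cpl.mem.2 (by simpa [PX, ι] using ι_int v X)
  have h0 : Q.c0 y ∈ Fil Λ.L'.w 0 := by
    have e : Q.c0 y ^ 2 = y - Q.b * Q.c1 y ^ 2 := by
      conv_rhs => enter [1]; rw [Q.spec y]
      ring
    refine Fil.of_sq (a := 0) ?_ (by omega)
    rw [e]
    exact sub_mem hy (Fil.mul h2 (Fil.sq h1 le_rfl) (by omega))
  refine ⟨?_, ⟨_, h0, (Q.map_c0 hP y).symm⟩, ⟨_, h1, (Q.map_c1 hP y).symm⟩⟩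
  simpa using (Λ.ext.mem (n := 0)).2 (by simpa using hy)

lemma our_alg {x : RatFunc k} (h : x ∈ Fil (val (some v)) 0) :
    algebraMap (RatFunc k) (Os v) x ∈ Our Λ.d Λ.P := by
  rw [vlv_tower]
  exact Λ.our_K (Λ.cpl.mem.2 h)

lemma our_poly (a : k[X]) : algebraMap (RatFunc k) (Os v) (ι a) ∈ Our Λ.d Λ.P :=
  Λ.our_alg (ι_int v a)

lemma kur_K (x : Kv v) : algebraMap (Kv v) (Os v) x ∈ Kur Λ.d Λ.P Λ.π := by
  refine ⟨(ord Λ.L'.w x).natAbs, ?_⟩
  have e : Λ.π = algebraMap (Kv v) (Os v) Λ.L'.P.b := by rw [Λ.cpl.b, ← vlv_tower]; rfl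
  rw [e, ← map_pow, ← map_mul]
  exact Λ.our_K (Fil.mul (Fil.pow Λ.L'.π_mem _ le_rfl) (mem_Fil_ord x) (by omega))

theorem urD : UrD Λ.d Λ.P Λ.π := by
  have e1 : Λ.P.c1 Λ.π = algebraMap (RatFunc k) _ ((PX k).c1 (ι (gen v))) :=
    (PX k).map_c1 Λ.hP _
  have e0 : Λ.P.c0 Λ.π = algebraMap (RatFunc k) _ ((PX k).c0 (ι (gen v))) :=
    (PX k).map_c0 Λ.hP _
  refine ⟨Λ.our_poly _, (_root_.map_ne_zero _).2 (ι_ne (gen_ne v)), ?_, ?_, ?_, ?_, fun x => ?_⟩
  · rw [π, Λ.deg_alg (ι_ne (gen_ne v)), ord_gen]; simp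
  · rw [e1]; exact (_root_.map_ne_zero _).2 (vlv_c1_ord v).1
  · rw [e1, ← map_inv₀]
    exact Λ.our_alg (mem_Fil_of_le (by rw [ord_inv, (vlv_c1_ord v).2]; simp))
  · rw [Λ.hP]
    simpa using (Λ.mem_alg (n := 0)).2 (by simpa [ι] using ι_int v X)
  obtain ⟨Q, hQ, hP⟩ := Λ.vlv_PB
  let S : IntermediateField (Kv v) (Os v) := IntermediateField.adjoin (Kv v) {x}
  have hfin : FiniteDimensional (Kv v) S :=
    IntermediateField.adjoin.finiteDimensional (Algebra.IsIntegral.isIntegral x)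
  have : CharP S 2 := charP_of_injective_algebraMap (algebraMap (Kv v) S).injective 2
  obtain ⟨Q', hQ'⟩ := Q.exists_sep S
  have hP' : Λ.P.b = (S.val : S →+* Os v) Q'.b := by rw [hP, hQ']; rfl
  refine ⟨Module.finrank (Kv v) S, S, IntermediateField.mem_adjoin_simple_self _ x,
    fun y hy => ⟨?_, ?_, fun z hz => add_mem hy hz, ⟨?_, ?_⟩, fun h0 h1 => ?_⟩⟩
  · have := Q'.map_c0 hP' ⟨y, hy⟩
    exact (show Λ.P.c0 y = _ from this) ▸ (Q'.c0 ⟨y, hy⟩).2
  · have := Q'.map_c1 hP' ⟨y, hy⟩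
    exact (show Λ.P.c1 y = _ from this) ▸ (Q'.c1 ⟨y, hy⟩).2
  · rw [e1, vlv_tower]
    exact mul_mem hy (inv_mem (S.algebraMap_mem _))
  · rw [e0, vlv_tower]
    exact mul_mem hy (S.algebraMap_mem _)
  obtain ⟨m, hm⟩ := Λ.ext.dis y h0
  have h2 : (minpoly (Kv v) y).natDegree ≤ Module.finrank (Kv v) S := by
    have := minpoly.natDegree_le (A := Kv v) (⟨y, hy⟩ : S)
    rwa [IntermediateField.minpoly_eq] at this
  have h3 : 0 < (minpoly (Kv v) y).natDegree :=
    minpoly.natDegree_pos (Algebra.IsIntegral.isIntegral y)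
  have h4 : (0 : ℝ) < (minpoly (Kv v) y).natDegree := by exact_mod_cast h3
  have h5 : ((minpoly (Kv v) y).natDegree : ℝ) ≤ Module.finrank (Kv v) S := by exact_mod_cast h2
  have h6 : m < 0 := by
    have : (m : ℝ) < 0 := by rw [← hm]; exact mul_neg_of_pos_of_neg h4 h1
    exact_mod_cast this
  have h7 : (m : ℝ) ≤ -1 := by exact_mod_cast (show m ≤ -1 by omega)
  rw [le_div_iff₀ (by linarith)]
  nlinarith

end Lv

/-- Almost all places are unramified. -/
theorem almost_our (x : Fs k) : ∃ S : Finset (HeightOneSpectrum k[X]), ∀ v ∉ S, ∀ (Λ : Lv v)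
    (j : Fs k →ₐ[RatFunc k] Os v), j x ∈ Our Λ.d Λ.P := by
  classical
  have : ExpChar (RatFunc k) 2 := ExpChar.prime Nat.prime_two
  have h1 : x ∈ (IntermediateField.adjoin (RatFunc k) {x ^ 2}).toSubalgebra := by
    rw [← IntermediateField.adjoin_simple_eq_adjoin_pow_expChar_of_isSeparable (RatFunc k) (Fs k)
      (Algebra.IsSeparable.isSeparable _ x) 2]
    exact IntermediateField.mem_adjoin_simple_self _ x
  rw [IntermediateField.adjoin_simple_toSubalgebra_of_isAlgebraic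
    (Algebra.IsAlgebraic.isAlgebraic _), Algebra.adjoin_singleton_eq_range_aeval] at h1
  obtain ⟨p, hp⟩ := h1
  obtain ⟨S1, hS1⟩ := vlv_fin p
  obtain ⟨S2, hS2⟩ := vlv_fin (minpoly (RatFunc k) x)
  refine ⟨S1 ∪ S2, fun v hv Λ j => ?_⟩
  rw [Finset.notMem_union] at hv
  refine Our.of_sq Λ.urD.b_mem ?_ (n := p.natDegree + 1)
    (a := fun i => algebraMap (RatFunc k) _ (p.coeff i)) (fun i => Λ.our_alg (hS1 v hv.1 i)) ?_
  · refine vlv_root (p := (minpoly (RatFunc k) x).map (algebraMap (RatFunc k) (Os v)))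
      ((minpoly.monic (Algebra.IsIntegral.isIntegral x)).map _) (fun i => ?_) ?_
    · rw [coeff_map]
      simpa using (Λ.mem_alg (n := 0)).2 (by simpa using hS2 v hv.2 i)
    · rw [eval_map_algebraMap, aeval_algHom_apply, minpoly.aeval, map_zero]
  · have e : aeval (x ^ 2) p = x := hp
    conv_lhs => rw [← e, ← aeval_algHom_apply, aeval_eq_sum_range]
    refine Finset.sum_congr rfl fun i _ => ?_
    rw [Algebra.smul_def, map_pow, ← pow_mul, ← pow_mul, mul_comm 2 i]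

/-- The integrality criterion. -/
theorem int_crit (Λ : ∀ v : HeightOneSpectrum k[X], Lv v) {x : Fs k}
    (h : ∀ v (j : Fs k →ₐ[RatFunc k] Os v), j x ∈ (Λ v).d.Le 0) :
    ((algebraMap (RatFunc k) (Fs k)).comp (algebraMap k[X] (RatFunc k))).IsIntegralElem x := by
  have hi : IsIntegral (RatFunc k) x := Algebra.IsIntegral.isIntegral x
  have hc : ∀ i v, (minpoly (RatFunc k) x).coeff i ∈ Fil (val (some v)) 0 := fun i v => by
    let j : Fs k →ₐ[RatFunc k] Os v := IsSepClosed.lift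
    have hs : ((minpoly (RatFunc k) x).map (algebraMap (RatFunc k) (Fs k))).Splits :=
      Normal.splits inferInstance x
    have e := hs.eq_prod_roots_of_monic ((minpoly.monic hi).map _)
    have e2 := congrArg (Polynomial.map (j : Fs k →+* Os v)) e
    rw [Polynomial.map_map, Polynomial.map_multiset_prod, Multiset.map_map,
      AlgHom.comp_algebraMap] at e2
    have h1 := vlv_coeff (d := (Λ v).d)
      (((minpoly (RatFunc k) x).map (algebraMap (RatFunc k) (Fs k))).roots.map j) (fun r hr => by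
        obtain ⟨y, hy, rfl⟩ := Multiset.mem_map.1 hr
        have hy' : aeval y (minpoly (RatFunc k) x) = 0 := by
          rw [← eval_map_algebraMap]; exact (mem_roots'.1 hy).2
        obtain ⟨σ, hσ⟩ := minpoly.exists_algEquiv_of_root' hi.isAlgebraic hy'
        rw [← hσ]
        exact h v (j.comp σ.toAlgHom)) i
    have e3 : (Multiset.map (fun r => X - C r)
        (((minpoly (RatFunc k) x).map (algebraMap (RatFunc k) (Fs k))).roots.map j)).prod =
        (minpoly (RatFunc k) x).map (algebraMap (RatFunc k) (Os v)) := by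
      rw [e2, Multiset.map_map]
      congr 2
      ext1 r
      simp
    rw [e3, coeff_map] at h1
    simpa using ((Λ v).mem_alg (n := 0)).1 (by simpa using h1)
  have hl : minpoly (RatFunc k) x ∈ lifts (algebraMap k[X] (RatFunc k)) :=
    (lifts_iff_coeff_lifts _).2 fun i => exists_poly (hc i)
  obtain ⟨q, hq, -, hm⟩ := lifts_and_degree_eq_and_monic hl (minpoly.monic hi)
  refine ⟨q, hm, ?_⟩
  rw [← eval₂_map, hq, ← aeval_def, minpoly.aeval]

end Pool.Agent.Lib.MP_788af2_nt.AS
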