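import Pool.Agent.Lib.MP_a3f657_nt.BK.SBas
import Pool.Agent.Lib.MP_a3f657_nt.BK.VLv
import Pool.Agent.Lib.MP_a3f657_nt.BK.VF1
import Pool.Agent.Lib.MP_a3f657_nt.BK.VF2

/-!
Classes with a free condition at infinity are unobstructed.
-/

set_option linter.unusedSectionVars false

namespace Pool.Agent.Lib.MP_788af2_nt.AS

open Polynomial WeierstrassCurve Pool.Agent.Lib.MP_a3f657_nt.Two IsDedekindDomain

attribute [local instance 10000] Classical.propDecidable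

variable {k : Type} [Field k] [Finite k] [CharP k 2] {a b : k[X]} {P : PB (RatFunc k)} {n : ℕ}

/-- At good unramified places the local obstruction is integral. -/
private lemma sw2_int (hP : P.b = ι b) {v : HeightOneSpectrum k[X]} (Λ : Lv v)
    (h1 : ¬ gen v ∣ b) (h2 : ¬ gen v ∣ derivative b) {Qs : PB (Os v)}
    (hQs : Qs.b = algebraMap (RatFunc k) _ P.b) {R U : Pt (EW (ι a) P.b) (Os v)}
    (hx : xc R ∈ Our Λ.d Λ.P) (hy : yc R ∈ Our Λ.d Λ.P) {m : Pt (EW (ι a) P.b) (Kv v)}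
    (e : R - pm _ (toSep _ (Kv v)) m = 2 ^ n • U) {s : Kv v}
    (hs : kp Qs U = algebraMap _ _ s) : s ∈ Fil Λ.L'.w 0 := by
  have hW := bc_EW' (ι a) hQs
  obtain ⟨S, hS, hS'⟩ := Λ.urD.field
  have ha := Λ.our_poly a
  have hb : Qs.b ∈ Our Λ.d Λ.P := by rw [hQs, hP]; exact Λ.our_poly b
  have hK : ∀ x : Kv v, toSep (RatFunc k) (Kv v) x ∈ S := fun x => (hS _).2 (Λ.kur_K x)
  obtain ⟨h3, h4⟩ := eb_sub_sub hW S ((hS _).2 (Our.kur _ ha)) ((hS _).2 (Our.kur _ hx))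
    ((hS _).2 (Our.kur _ hy)) (R' := pm _ (toSep _ (Kv v)) m) (by rw [xc_pm]; exact hK _)
    (by rw [yc_pm]; exact hK _)
  rw [e] at h3 h4
  obtain ⟨h5, h6⟩ := eb_sat hW Λ.P S hS' ((hS _).2 (Our.kur _ hb)) n h3 h4
  have h7 := Λ.urD.f1_int hW ha hb
    (by rw [hQs, hP, Λ.deg_alg (ι_ne fun e => h1 (by simp [e])), ord_ι_unit h1]; simp)
    (by rw [hQs, hP, Λ.D_alg, D_ι, Λ.deg_alg (ι_ne fun e => h2 (by simp [e])), ord_ι_unit h2]; simp)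
    ((hS _).1 h5) ((hS _).1 h6)
  rw [hs] at h7
  simpa using (Λ.ext.mem (n := 0)).1 (by simpa using h7)

/-- Points with an integral descent value are rational modulo two. -/
private lemma sw2_loc (hP : P.b = ι b) (hb : IsCoprime b (derivative b))
    {v : HeightOneSpectrum k[X]} (Λ : Lv v) {Qs : PB (Os v)}
    (hQs : Qs.b = algebraMap (RatFunc k) _ P.b) {U : Pt (EW (ι a) P.b) (Os v)} {s : Kv v}
    (hs : kp Qs U = algebraMap _ _ s) (h : s ∈ Fil Λ.L'.w 0) :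
    ∃ (R : Pt (EW (ι a) P.b) (Kv v)) (U' : Pt (EW (ι a) P.b) (Os v)),
      U - pm _ (toSep _ (Kv v)) R = 2 • U' := by
  obtain ⟨Q, hQ⟩ := exists_Qv P v
  have h1 : s ∈ LL Q (algebraMap _ _ (ι a)) := mem_LL_int Λ.cpl.cpl (Λ.cpl.mem.2 (ι_int v a))
    (by rw [hQ, Λ.cpl.ord_eq, hP]; exact ord_sqfree hb v) h
  obtain ⟨R, hR⟩ := (mem_LL' (bc_EW' (ι a) hQ)).1 h1
  exact ⟨R, (kp_eq (bc_EW' (ι a) hQs)).1 (by rw [kp_pm _ hQ hQs, hR, hs]; rfl)⟩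

theorem Wf_lift (hP : P.b = ι b) (hb : IsCoprime b (derivative b))
    {w : Pt (EW (ι a) P.b) (Fs k)} (h : w ∈ Wf (EW (ι a) P.b) n) :
    ∃ S, w - 2 ^ n • S ∈ Wf (EW (ι a) P.b) (n + 1) := by
  obtain ⟨h1, h2⟩ := mem_Wf.1 h
  obtain ⟨S₁, h3⟩ := FxM_lift h1
  have h4 : ∀ v : HeightOneSpectrum k[X], w - 2 ^ n • S₁ ∈ LcM _ (Kv v) n := fun v =>
    sub_mem (h2 v) (pow_mem_LcM n (LcM_zero S₁))
  suffices H : ∃ S, w - 2 ^ n • S₁ - 2 ^ n • S ∈ Wf (EW (ι a) P.b) (n + 1) by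
    obtain ⟨S, hS⟩ := H
    exact ⟨S₁ + S, by rwa [smul_add, ← sub_sub]⟩
  generalize w - 2 ^ n • S₁ = w₁ at h3 h4
  have hb0 : b ≠ 0 := fun e => P.b_ne (by simp [hP, e])
  have hb1 : derivative b ≠ 0 := fun e => (PX k).D_ne_zero P.ns (by simp [hP, D_ι, e])
  have Λ : ∀ v : HeightOneSpectrum k[X], Lv v := fun v => (nonempty_Lv v).some
  have j : ∀ v : HeightOneSpectrum k[X], Fs k →ₐ[RatFunc k] Os v := fun v => IsSepClosed.lift
  choose m U e using fun v => h4 v (j v)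
  have h0 : ∀ v : HeightOneSpectrum k[X], ∃ Qs : PB (Os v),
      Qs.b = algebraMap (RatFunc k) _ P.b := fun v => by
    obtain ⟨Q, hQ⟩ := exists_Qv P v
    obtain ⟨Qs, hQs⟩ := Q.exists_sep (Os v)
    exact ⟨Qs, by rw [hQs, hQ, ← IsScalarTower.algebraMap_apply]⟩
  choose Qs hQs using h0
  choose s hs using fun v => kp_loc (hQs v) h3 (j v) (e v)
  choose c hc using fun v => (Λ v).cpl.dense (s v) 0
  obtain ⟨T₁, hT₁⟩ := almost_our (xc w₁)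
  obtain ⟨T₂, hT₂⟩ := almost_our (yc w₁)
  obtain ⟨s₀, h5, h6⟩ := exists_principal
    ((T₁ ∪ T₂ ∪ (finite_dvd hb0).toFinset ∪ (finite_dvd hb1).toFinset).image some)
    fun v => v.elim 0 c
  have h7 : ∀ v, s v + algebraMap _ _ s₀ ∈ Fil (Λ v).L'.w 0 := fun v => by
    by_cases hv : v ∈ T₁ ∪ T₂ ∪ (finite_dvd hb0).toFinset ∪ (finite_dvd hb1).toFinset
    · have h8 := add_mem (hc v) ((Λ v).cpl.mem.2 (h5 _ (Finset.mem_image_of_mem some hv)))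
      rwa [map_sub, Option.elim_some, sub_add_sub_cancel, CharTwo.sub_eq_add] at h8
    · refine add_mem ?_ ((Λ v).cpl.mem.2 (h6 _ (by simpa using hv)))
      simp only [Finset.mem_union, Set.Finite.mem_toFinset, Set.mem_ofPred_eq, not_or] at hv
      exact sw2_int hP (Λ v) hv.1.2 hv.2 (hQs v) (by rw [xc_pm]; exact hT₁ v hv.1.1.1 _ _)
        (by rw [yc_pm]; exact hT₂ v hv.1.1.2 _ _) (e v) (hs v)
  obtain ⟨Ps, hPs⟩ := P.exists_sep (Fs k)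
  obtain ⟨S₀, hS₀⟩ := kp_surj (bc_EW' (ι a) hPs) (algebraMap _ _ s₀)
  have h8 : w₁ - 2 ^ n • S₀ ∈ FxM _ (n + 1) :=
    sub_mem h3 (pow_mem_FxM n ((FxM_one hPs).2 ⟨_, hS₀⟩))
  refine ⟨S₀, mem_Wf.2 ⟨h8, fun v => ?_⟩⟩
  obtain ⟨R, U', e'⟩ := sw2_loc hP hb (Λ v) (hQs v) (U := U v - pm _ (j v) S₀) (by
    rw [kp_sub (bc_EW' (ι a) (hQs v)), hs, kp_pm _ hPs (hQs v), hS₀, AlgHom.commutes, map_add,
      ← IsScalarTower.algebraMap_apply]) (h7 v)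
  refine LcM_of_one h8 (j v) (m := m v + 2 ^ n • R) (U := U') ?_
  rw [map_sub, map_add, map_nsmul, map_nsmul, pow_succ, mul_smul, ← e', smul_sub, smul_sub, ← e v]
  abel

end Pool.Agent.Lib.MP_788af2_nt.AS
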