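import Pool.Agent.Lib.MP_a3f657_nt.BK.EBas
import Pool.Agent.Lib.MP_a3f657_nt.BK.SW2

/-!
The formal properties of the localizations.
-/

set_option linter.unusedSectionVars false

namespace Pool.Agent.Lib.MP_788af2_nt.AS

open Polynomial WeierstrassCurve Pool.Agent.Lib.MP_a3f657_nt.Two IsDedekindDomain

attribute [local instance 10000] Classical.propDecidable

namespace Tw

variable {k : Type} [Field k] [Finite k] [CharP k 2] {I : Type} [Fintype I] [DecidableEq I]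
  {β : I → k[X]} {L : Type} [Field L] [CharP L 2] {T : Tw β L}

namespace Env

variable (E : T.Env) {a b : k[X]} {ξ : G I} {n : ℕ} {m : (T.Cw a b).Point} {h : L} (hb : od b ≠ 0)

include hb in
private lemma eax1_add (U V : Pt (Ew β a b ξ) (Oi k)) :
    hV E.P (E.φ (T.p b)) (U + V) = hV E.P (E.φ (T.p b)) U + hV E.P (E.φ (T.p b)) V :=
  hV_add' E.P (E.c1_ne hb) (by rw [φ_p]; exact bc_EW _ _ _) U V

include hb in
private lemma eax1_two (U : Pt (Ew β a b ξ) (Oi k)) : hV E.P (E.φ (T.p b)) (2 • U) = 0 := by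
  rw [two_nsmul, eax1_add E hb, CharTwo.add_self_eq_zero]

include hb in
private lemma eax1_half {U : Pt (Ew β a b ξ) (Oi k)} (h : hV E.P (E.φ (T.p b)) U = 0) :
    ∃ S, 2 • S = U := by
  obtain ⟨Q, hQ⟩ := exists_Qs (k := k) hb
  rw [E.hV_kp hQ] at h
  have h2 : kp Q U = 0 :=
    (mul_eq_zero.1 h).resolve_left ((map_ne_zero E.φ).2 (T.p_ne hb))
  exact (kp_eq_zero (bc_EW' _ hQ)).1 h2

include hb in
private lemma eax1_inj (n : ℕ) {U V : Pt (Ew β a b ξ) (Oi k)} (h : 2 ^ n • U = 2 ^ n • V) :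
    U = V := by
  obtain ⟨Q, hQ⟩ := exists_Qs (k := k) hb
  exact eb_pow_inj (bc_EW' _ hQ) n h

private lemma eax1_sg {M : Type} [AddCommGroup M] (c : ZMod 2) (x : M) : sg c • sg c • x = x := by
  unfold sg
  split_ifs <;> simp

lemma ax_pow (ξ : G I) (n : ℕ) (m : (T.Cw a b).Point) :
    (2 ^ n • m, T.hh b m) ∈ E.RW a hb ξ n := by
  refine ⟨0, zero_mem _, -E.jx a b ξ m, ?_, ?_⟩
  · simp only [map_zero, map_nsmul, smul_neg, zero_sub]
  · rw [hV_neg, hV_jx]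

lemma ax_up (hc : IsCoprime b (derivative b)) (h1 : (m, 0) ∈ E.RW a hb ξ n) :
    ∃ h, (m, h) ∈ E.RW a hb ξ (n + 1) := by
  obtain ⟨w, hw, U, e1, e2⟩ := h1
  obtain ⟨U', rfl⟩ := eax1_half E hb (e2.trans (map_zero _))
  obtain ⟨S, hS'⟩ : ∃ S : Pt (Ew β a b ξ) (Fs k),
      w - 2 ^ (n + 1) • S ∈ Wf (Ew β a b ξ) (n + 1 + 1) := by
    have h0 := Wf_lift (P := PDb hb) (PDb_b hb) hc hw
    exact h0
  have e3 : pm _ E.i (w - 2 ^ (n + 1) • S) - E.jx a b ξ m =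
      2 ^ (n + 1) • (U' - pm (Ew β a b ξ) E.i S) := by
    have e4 : pm _ E.i w - E.jx a b ξ m = 2 ^ n • 2 • U' := e1
    rw [map_sub, map_nsmul, smul_sub, pow_succ 2 n, mul_smul (2 ^ n) 2 U', ← e4]
    abel
  generalize w - 2 ^ (n + 1) • S = w' at hS' e3
  obtain ⟨x, hx⟩ := E.desc (hV E.P (E.φ (T.p b)) (U' - pm (Ew β a b ξ) E.i S)) (by
    intro τ hτ
    obtain ⟨S', hS2⟩ := FxM_loc (mem_Wf.1 hS').1 E.i τ
    have e5 := E.gal_jx (a := a) (ξ := ξ) hb (τ := τ) (g := 0) (by simpa [T.σ_zero] using hτ) m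
    rw [sQ_zero, dotProduct_zero, show sg 0 = 1 from if_pos rfl, one_smul] at e5
    have e6 := congrArg (pm (Ew β a b ξ) (τ.toAlgHom.restrictScalars _)) e3
    rw [map_sub, e5, map_nsmul] at e6
    have e7 : pm (Ew β a b ξ) (τ.toAlgHom.restrictScalars _) (U' - pm (Ew β a b ξ) E.i S) =
        (U' - pm (Ew β a b ξ) E.i S) + 2 • S' := by
      apply eax1_inj hb (n + 1)
      rw [← e6, smul_add, ← e3, ← mul_smul, ← pow_succ, ← hS2]
      abel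
    rw [← hV_gal, e7, eax1_add E hb, eax1_two E hb, add_zero])
  exact ⟨x, _, hS', _, e3, hx.symm⟩

lemma ax_act (h1 : (m, h) ∈ E.RW a hb ξ n) (g : G I) : ∃ m',
    T.sQ a b g m - sg (ξ ⬝ᵥ g) • m = 2 ^ n • m' ∧ T.σ g h + h = T.hh b m' := by
  obtain ⟨w, hw, U, e1, e2⟩ := h1
  have e1 : pm _ E.i w - E.jx a b ξ m = 2 ^ n • U := e1
  have e2 : hV E.P (E.φ (T.p b)) U = E.φ h := e2
  obtain ⟨τ, hτ⟩ := E.surj g
  obtain ⟨S, hS⟩ := FxM_loc (mem_Wf.1 hw).1 E.i τ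
  have e5 := E.gal_jx (a := a) (ξ := ξ) hb hτ m
  have e6 := congrArg (pm (Ew β a b ξ) (τ.toAlgHom.restrictScalars _)) e1
  rw [map_sub, e5, map_nsmul] at e6
  have e7 : E.jx a b ξ (sg (ξ ⬝ᵥ g) • T.sQ a b g m - m) =
      2 ^ n • (2 • S + (-pm (Ew β a b ξ) (τ.toAlgHom.restrictScalars _) U + U)) := by
    rw [smul_add, smul_add, smul_neg, ← e6, ← e1, ← mul_smul, ← pow_succ, ← hS, map_sub]
    abel
  obtain ⟨m', hm'⟩ := E.jx_sat hb e7
  have e8 : sg (ξ ⬝ᵥ g) • T.sQ a b g m - m = 2 ^ n • m' := by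
    apply E.jx_inj hb a ξ
    rw [e7, map_nsmul, hm']
  refine ⟨sg (ξ ⬝ᵥ g) • m', ?_, ?_⟩
  · rw [smul_comm, ← e8, smul_sub, eax1_sg]
  · rw [hh_sg]
    apply E.φ.injective
    rw [← E.hV_jx (ξ := ξ), hm', eax1_add E hb, eax1_add E hb, eax1_two E hb, hV_neg, hV_gal, e2,
      hτ, zero_add, map_add]

lemma ax_two : (2 • m, h) ∈ E.RW a hb ξ (n + 1) ↔ (m, h) ∈ E.RW a hb ξ n := by
  constructor
  · rintro ⟨w, hw, U, e1, e2⟩
    have e1 : pm _ E.i w - E.jx a b ξ (2 • m) = 2 ^ (n + 1) • U := e1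
    obtain ⟨Q, hQ⟩ := exists_Qs (k := k) hb
    have e3 : pm (Ew β a b ξ) E.i w = 2 ^ 1 • (E.jx a b ξ m + 2 ^ n • U) := by
      rw [pow_one, smul_add, ← mul_smul, ← pow_succ', ← e1, map_nsmul]
      abel
    obtain ⟨w₀, h1, h2⟩ := div_of_pm (P := PDb hb) hQ E.i e3
    have h2' : pm (Ew β a b ξ) E.i w₀ = E.jx a b ξ m + 2 ^ n • U := h2
    rw [pow_one] at h1
    subst h1
    refine ⟨w₀, Wf_half (P := PDb hb) hw, U, ?_, e2⟩
    rw [h2']
    exact add_sub_cancel_left _ _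
  · rintro ⟨w, hw, U, e1, e2⟩
    have e1 : pm _ E.i w - E.jx a b ξ m = 2 ^ n • U := e1
    have hw2 := pow_mem_Wf 1 hw
    rw [pow_one, add_comm 1] at hw2
    refine ⟨2 • w, hw2, U, ?_, e2⟩
    show pm _ E.i (2 • w) - E.jx a b ξ (2 • m) = _
    rw [map_nsmul, map_nsmul, ← smul_sub, e1, ← mul_smul, ← pow_succ']

end Env

end Tw

end Pool.Agent.Lib.MP_788af2_nt.AS
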