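import Pool.Agent.Lib.MP_a3f657_nt.BK.EAx1
import Pool.Agent.Lib.MP_a3f657_nt.BK.BCT
import Pool.Agent.Lib.MP_788af2_nt.TT.HRep

/-!
Duality properties of the localizations.
-/

set_option linter.unusedSectionVars false

namespace Pool.Agent.Lib.MP_788af2_nt.AS

open Polynomial WeierstrassCurve Pool.Agent.Lib.MP_a3f657_nt.Two IsDedekindDomain

private lemma eax2_alg {F : Type} [Field F] {m u b d : F} (hb : b ≠ 0) (hd : d ≠ 0) :
    b * ((m ^ 2 / (d / b) + m + u * d) / d) = (m * b / d) ^ 2 + m * b / d + b * u := by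
  field_simp

attribute [local instance 10000] Classical.propDecidable

namespace Tw

variable {k : Type} [Field k] [Finite k] [CharP k 2] {I : Type} [Fintype I] [DecidableEq I]
  {β : I → k[X]} {L : Type} [Field L] [CharP L 2] {T : Tw β L}

namespace Env

variable (E : T.Env) {a b : k[X]} {ξ : G I} {n : ℕ} {z : (T.Cw a b).Point} {h : L} (hb : od b ≠ 0)

include hb in
lemma hs_loc (hc : IsCoprime b (derivative b)) (h1 : h ∈ T.Hs b 1 a) (h2 : T.Fix h) :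
    ∃ s : RatFunc k, h = T.p (od b) * T.e s ∧ ∀ (a' : k[X]) (v : HeightOneSpectrum k[X])
      (Q : PB (Kv v)), Q.b = algebraMap _ _ (ι b) →
      algebraMap _ (Kv v) s ∈ LL Q (algebraMap _ _ (ι a')) := by
  obtain ⟨m, ρ, u, z, e, -, -⟩ := T.krep (adm_one hb hc a) (fun i => one_dvd _) h1 h2
  have hd : derivative b ≠ 0 := by
    rw [derivative_eq_od]
    exact pow_ne_zero 2 hb
  have hb0 : b ≠ 0 := fun h0 => hd (by rw [h0, derivative_zero])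
  have hfl : T.fl 1 = 0 := by rw [fl, derivative_one, map_zero, zero_div]
  rw [hfl, mul_zero, add_zero] at e
  have e1 : h ^ 2 = T.e (ι m ^ 2 / (ι (derivative b) / ι b) + ι m + ι (u * derivative b)) := by
    rw [e, fl, map_add T.e, map_add T.e, map_div₀ T.e, map_div₀ T.e, map_pow T.e]
    rfl
  generalize hy : ι m ^ 2 / (ι (derivative b) / ι b) + ι m + ι (u * derivative b) = y at e1
  have e2 : h = T.e ((PX k).c0 y) := by rw [← T.e_c0, ← e1, PB.c0_sq]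
  have e3 : (PX k).c0 y ^ 2 = y := T.e.injective (by rw [map_pow, ← e2, e1])
  refine ⟨(PX k).c0 y / ι (od b), ?_, fun a' v Q hQ => mem_LL_glob hc a' m u ?_ v hQ⟩
  · rw [map_div₀, ← e2, ← p_eq, mul_div_cancel₀ _ (T.p_ne hb)]
  · have e4 : ι (od b) ^ 2 = ι (derivative b) := by rw [derivative_eq_od, ι, ι, map_pow]
    have e5 : ι (u * derivative b) = ι u * ι (derivative b) := map_mul _ _ _
    have e6 : ι (b * u) = ι b * ι u := map_mul _ _ _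
    rw [div_pow, e3, ← hy, e4, wp, e5, e6]
    exact eax2_alg (ι_ne hb0) (ι_ne hd)

lemma ax_zero (hc : IsCoprime b (derivative b)) (ξ : G I) (n : ℕ) (h1 : h ∈ T.Hs b 1 a)
    (h2 : T.Fix h) : (0, h) ∈ E.RW a hb ξ n := by
  obtain ⟨s, e, hs⟩ := hs_loc hb hc h1 h2
  obtain ⟨Ps, hPs⟩ := (PDb hb).exists_sep (Fs k)
  obtain ⟨Qs, hQs⟩ := exists_Qs (k := k) hb
  obtain ⟨w, hw⟩ : ∃ w : Pt (Ew β a b ξ) (Fs k), kp Ps w = algebraMap _ _ s :=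
    kp_surj (bc_EW' _ hPs) _
  have h3 : w ∈ Wf (Ew β a b ξ) 1 := by
    refine mem_Wf.2 ⟨(FxM_one (P := PDb hb) hPs).2 ⟨s, hw⟩, fun v => ?_⟩
    obtain ⟨Q, hQ⟩ := exists_Qv (PDb hb) v
    exact (LcM_one (P := PDb hb) hPs hQ hw).2 (hs _ v Q hQ)
  refine ⟨2 ^ n • w, pow_mem_Wf n h3, pm _ E.i w, ?_, ?_⟩
  · show pm _ E.i (2 ^ n • w) - E.jx a b ξ 0 = _
    rw [map_zero, sub_zero, map_nsmul]
  · show _ = E.φ h
    rw [E.hV_kp hQs, kp_pm _ (B := ι b) hPs hQs, hw, E.i.commutes, e, map_mul, E.φ_e]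

include hb in
lemma ax_qH (hc : IsCoprime b (derivative b)) (h1 : h ∈ T.Hs b 1 a) (h2 : T.Fix h) :
    T.qf b h = 0 := by
  obtain ⟨s, e, hs⟩ := hs_loc hb hc h1 h2
  rw [qf, e, mul_div_cancel_left₀ _ (T.p_ne hb), (PX k).map_D T.hP, p_eq, ← map_mul, ← map_mul,
    RK_e]
  exact res_alt (P := PDb hb) (hs 0)

include E hb in
lemma ax_qL (hz : z ∈ T.Eig a b ξ) : T.qf b (T.hh b z) = 0 := by
  obtain ⟨z₀, e⟩ := E.loc_of_eig hb hz
  obtain ⟨Q, hQ⟩ := exists_Qi (PDb hb)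
  have hQ : Q.b = algebraMap _ _ (ι b) := hQ
  rw [E.hh_loc hQ e, E.qf_f hb, ← hQ]
  exact LL_alt E.L' ((mem_LL' (bc_EW' _ hQ)).2 ⟨z₀, rfl⟩)

include E hb in
lemma ax_mx (h1 : T.Fix h) (h2 : ∀ z ∈ T.Eig a b ξ, T.RK (h * T.hh b z) = 0) :
    ∃ z ∈ T.Eig a b ξ, T.hh b z = h := by
  obtain ⟨s, hs⟩ := (E.fix _).1 (h1.div (T.fix_p (od b)))
  have e : h = T.p (od b) * E.f s := by rw [hs, mul_div_cancel₀ _ (T.p_ne hb)]
  obtain ⟨Q, hQ⟩ := exists_Qi (PDb hb)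
  have hQ : Q.b = algebraMap _ _ (ι b) := hQ
  have hW := bc_EW' (ι (a + X * comb β ξ ^ 2)) hQ
  have h3 : s ∈ LL Q (algebraMap _ _ (ι (a + X * comb β ξ ^ 2))) :=
    LL_max E.cpl.cpl fun s' hs' => by
      obtain ⟨R, rfl⟩ := (mem_LL' hW).1 hs'
      obtain ⟨m, hm, e1⟩ := E.eig_of_loc hb R
      rw [← E.rho_hh hb hQ, ← e, ← E.hh_loc hQ e1]
      exact h2 m hm
  obtain ⟨R, hR⟩ := (mem_LL' hW).1 h3
  obtain ⟨m, hm, e1⟩ := E.eig_of_loc hb R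
  exact ⟨m, hm, by rw [E.hh_loc hQ e1, hR, e]⟩

lemma ax_ct (hc : IsCoprime b (derivative b)) (hn : 1 ≤ n) (hz : z ∈ T.Eig a b ξ)
    (h1 : (z, h) ∈ E.RW a hb ξ n) : T.RK (h * T.hh b z) = 0 := by
  obtain ⟨w, hw, U, e1, e2⟩ := h1
  have e1 : pm _ E.i w - E.jx a b ξ z = 2 ^ n • U := e1
  have e2 : hV E.P (E.φ (T.p b)) U = E.φ h := e2
  obtain ⟨S, hS⟩ : ∃ S : Pt (Ew β a b ξ) (Fs k),
      w - 2 ^ (n + 1) • S ∈ Wf (Ew β a b ξ) (n + 1 + 1) := by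
    have h0 := Wf_lift (P := PDb hb) (PDb_b hb) hc hw
    exact h0
  obtain ⟨z₀, ez⟩ := E.loc_of_eig hb hz
  obtain ⟨Q, hQ⟩ := exists_Qi (PDb hb)
  have hQ' : Q.b = algebraMap _ _ (ι b) := hQ
  obtain ⟨Qs, hQs⟩ := exists_Qs (k := k) hb
  have hW := bc_EW' (ι (a + X * comb β ξ ^ 2)) hQs
  rw [ez] at e1
  have e3 : pm _ E.i (w - 2 ^ (n + 1) • S) - pm _ (toSep _ (Ki k)) z₀ =
      2 ^ n • (U - 2 • pm (Ew β a b ξ) E.i S) := by
    rw [map_sub, map_nsmul, smul_sub, ← e1, ← mul_smul, ← pow_succ]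
    abel
  have e4 : kp Qs (U - 2 • pm (Ew β a b ξ) E.i S) = kp Qs U := by
    rw [kp_sub hW, (kp_eq_zero hW).2 ⟨_, rfl⟩, add_zero]
  obtain ⟨s, hs⟩ : ∃ s : Ki k, kp Qs U = algebraMap _ _ s := by
    have h0 := kp_loc (P := PDb hb) hQs (mem_Wf.1 hw).1 E.i e1
    exact h0
  have e5 : h = T.p (od b) * E.f s :=
    E.φ.injective (by rw [← e2, E.hV_kp hQs, hs, map_mul, E.φ_f])
  have h3 : Qs.b = algebraMap _ _ Q.b := by
    rw [hQs, hQ', IsScalarTower.algebraMap_apply (RatFunc k) (Ki k) (Oi k)]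
  obtain ⟨y, hy⟩ : ∃ y : Ki k, y + Q.c0 y = Q.b * (s * kp Q z₀) := by
    have h0 := ct_alt (P := PDb hb) hn hS E.i e3 hQ h3 (e4.trans hs)
    exact h0
  rw [e5, E.hh_loc hQ' ez, E.rho_hh hb hQ', ← hy, map_add, PreLoc.rho_c0, z2_add_self]

end Env

end Tw

end Pool.Agent.Lib.MP_788af2_nt.AS
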