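import Pool.Agent.Lib.MP_a3f657_nt.BK.XDefs
import Pool.Agent.Lib.MP_a3f657_nt.BK.SPt

/-!
Points of the first type and the attached solutions of the local condition.
-/

set_option linter.unusedSectionVars false

namespace Pool.Agent.Lib.MP_788af2_nt.AS

open Polynomial WeierstrassCurve Pool.Agent.Lib.MP_a3f657_nt.Two Matrix

namespace Tw

variable {k : Type} [Field k] [Finite k] [CharP k 2] {I : Type} [Fintype I] [DecidableEq I]
  {β : I → k[X]} {L : Type} [Field L] [CharP L 2] {T : Tw β L} [DecidableEq L]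
  {a b : k[X]} {H : AddSubgroup L} {RW : G I → ℕ → AddSubgroup ((T.Cw a b).Point × L)} {K ε : ℕ}
  {ξ ψ : G I} {n : ℕ} {Q Q' z : (T.Cw a b).Point}

private lemma xz_c1 (T : Tw β L) (hb : od b ≠ 0) : T.P.c1 (T.p b) ≠ 0 := by
  rw [c1_od]
  exact T.p_ne hb

private lemma xz_ff (g : G I) (Q : (T.Cw a b).Point) :
    T.ff (T.sQ a b g Q) = T.σ g (T.ff Q) := by
  rw [ff, ff, xc_sQ, T.σ_D, map_div₀]

private lemma xz_fix (T : Tw β L) (a b : k[X]) : T.Fix (T.bh (T.kap a b)) :=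
  T.bh_fix (((T.fix_p _).div ((T.fix_p _).pow 2)).add ((T.fix_p _).div (T.fix_p _)))

private lemma xz_uniq {ζ ζ' : L}
    (h : wp ζ = T.bh (T.kap a b) * T.hh b Q ^ 2 ∧ ζ + T.bh (T.kap a b) * T.ff Q ∈ T.d.Le (-1))
    (h' : wp ζ' = T.bh (T.kap a b) * T.hh b Q ^ 2 ∧
      ζ' + T.bh (T.kap a b) * T.ff Q ∈ T.d.Le (-1)) : ζ = ζ' := by
  have h1 := add_mem h.2 h'.2
  rw [add_add_add_comm, CharTwo.add_self_eq_zero, add_zero] at h1
  have h2 := T.eq_zero_of_wp h1 (by norm_num)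
    (by rw [wp_add, h.1, h'.1, CharTwo.add_self_eq_zero])
  rwa [CharTwo.add_eq_zero] at h2

private lemma Par2.xz_spec (hP : T.Par2 a b K ε) (h : T.Ml ε Q) :
    wp (T.Zf Q) = T.bh (T.kap a b) * T.hh b Q ^ 2 ∧
      T.Zf Q + T.bh (T.kap a b) * T.ff Q ∈ T.d.Le (-1) :=
  Classical.epsilon_spec (hP.exists_zeta h)

lemma sQ_zero (T : Tw β L) (a b : k[X]) (Q : (T.Cw a b).Point) : T.sQ a b 0 Q = Q := by
  by_cases h0 : Q = 0
  · rw [h0, map_zero]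
  exact pt_ext ((map_ne_zero_iff _ (T.sQ_inj a b 0)).2 h0) h0 (by rw [xc_sQ, T.σ_zero])
    (by rw [yc_sQ, T.σ_zero])

lemma sQ_add (T : Tw β L) (a b : k[X]) (g h : G I) (Q : (T.Cw a b).Point) :
    T.sQ a b (g + h) Q = T.sQ a b g (T.sQ a b h Q) := by
  by_cases h0 : Q = 0
  · rw [h0, map_zero, map_zero, map_zero]
  exact pt_ext ((map_ne_zero_iff _ (T.sQ_inj a b _)).2 h0)
    ((map_ne_zero_iff _ (T.sQ_inj a b _)).2 ((map_ne_zero_iff _ (T.sQ_inj a b _)).2 h0))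
    (by rw [xc_sQ, xc_sQ, xc_sQ, T.σ_add]) (by rw [yc_sQ, yc_sQ, yc_sQ, T.σ_add])

lemma sQ_isT (T : Tw β L) (a b : k[X]) (g : G I) : IsT (T.σ g) 0 (T.sQ a b g) := by
  intro R
  exact ⟨T.xc_sQ g R, by rw [yc_sQ, zero_mul, add_zero]⟩

lemma exists_Qb (T : Tw β L) (hb : od b ≠ 0) : ∃ Q : PB L, Q.b = T.p b := by
  have h1 := xz_c1 T hb
  refine ⟨⟨T.p b, fun r hr => h1 (by rw [← hr, PB.c1_sq]), fun x => ?_⟩, rfl⟩
  refine ⟨T.P.c0 x + T.P.c0 (T.p b) * (T.P.c1 x / T.P.c1 (T.p b)),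
    T.P.c1 x / T.P.c1 (T.p b), ?_⟩
  have e1 := T.P.spec x
  have e2 := T.P.spec (T.p b)
  have e3 : T.P.c1 x = T.P.c1 x / T.P.c1 (T.p b) * T.P.c1 (T.p b) := (div_mul_cancel₀ _ h1).symm
  generalize T.P.c1 x / T.P.c1 (T.p b) = w at *
  generalize T.P.c1 x = u at *
  generalize T.P.c0 x = v at *
  generalize T.P.c1 (T.p b) = o at *
  generalize T.P.c0 (T.p b) = e at *
  generalize T.p b = B at *
  generalize T.P.b = t at *
  subst e3
  rw [e1, e2]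
  grind

lemma cw_inj (hb : od b ≠ 0) (n : ℕ) (h : 2 ^ n • Q = 2 ^ n • Q') : Q = Q' := by
  have key : ∀ R : (T.Cw a b).Point, 2 • R = 0 → R = 0 := fun R hR => by
    by_contra h0
    exact (eb_two (eb_x_ne T.P (xz_c1 T hb) h0)).1 (by rw [← two_nsmul]; exact hR)
  induction n with
  | zero => simpa using h
  | succ n ih =>
    refine ih (sub_eq_zero.1 (key _ ?_))
    rw [nsmul_sub, ← mul_nsmul, ← mul_nsmul, ← pow_succ, h, sub_self]

lemma hh_add (hb : od b ≠ 0) (Q Q' : (T.Cw a b).Point) :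
    T.hh b (Q + Q') = T.hh b Q + T.hh b Q' := by
  exact hV_add T.P (xz_c1 T hb) Q Q'

lemma hh_two (hb : od b ≠ 0) (Q : (T.Cw a b).Point) : T.hh b (2 • Q) = 0 := by
  rw [two_nsmul, hh_add hb, CharTwo.add_self_eq_zero]

lemma hh_sg (c : ZMod 2) (Q : (T.Cw a b).Point) : T.hh b (sg c • Q) = T.hh b Q := by
  unfold sg
  split_ifs
  · rw [one_smul]
  · rw [neg_smul, one_smul]
    exact hV_neg _ _ _

lemma hh_half (hb : od b ≠ 0) (h : T.hh b Q = 0) : ∃ Q', Q = 2 • Q' := by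
  obtain ⟨Q', h1, -⟩ := eb_half T.P (xz_c1 T hb) ⊤ (fun _ _ => ⟨trivial, trivial⟩) trivial
    (Q := Q) trivial trivial h
  exact ⟨Q', by rw [two_nsmul, h1]⟩

lemma Eig_half (hb : od b ≠ 0) (h : 2 • Q ∈ T.Eig a b ξ) : Q ∈ T.Eig a b ξ := by
  intro g
  refine cw_inj hb 1 ?_
  have h1 := h g
  rw [pow_one, ← map_nsmul, h1, smul_comm]

lemma Eig_fix (h : z ∈ T.Eig a b ξ) : T.Fix (T.hh b z) := by
  intro g
  rw [← T.hV_sQ g z, h g]
  exact hh_sg _ _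

namespace Par2

variable (hP : T.Par2 a b K ε)

include hP

lemma ml_zero : T.Ml ε (0 : (T.Cw a b).Point) := by
  unfold Ml hh
  rw [hV_zero]
  exact zero_mem _

lemma ml_add (h : T.Ml ε Q) (h' : T.Ml ε Q') : T.Ml ε (Q + Q') := by
  unfold Ml at *
  rw [hh_add hP.b_ne]
  exact add_mem h h'

lemma ml_neg (h : T.Ml ε Q) : T.Ml ε (-Q) := by
  unfold Ml hh at *
  rwa [hV_neg]

lemma ml_sub (h : T.Ml ε Q) (h' : T.Ml ε Q') : T.Ml ε (Q - Q') := by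
  rw [sub_eq_add_neg]
  exact hP.ml_add h (hP.ml_neg h')

lemma ml_nsmul (h : T.Ml ε Q) (n : ℕ) : T.Ml ε (n • Q) := by
  induction n with
  | zero => rw [zero_nsmul]; exact hP.ml_zero
  | succ n ih => rw [succ_nsmul]; exact hP.ml_add ih h

lemma ml_zsmul (h : T.Ml ε Q) (n : ℤ) : T.Ml ε (n • Q) := by
  obtain ⟨m, rfl | rfl⟩ := Int.eq_nat_or_neg n
  · rw [natCast_zsmul]
    exact hP.ml_nsmul h m
  · rw [neg_zsmul, natCast_zsmul]
    exact hP.ml_neg (hP.ml_nsmul h m)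

lemma ml_two (Q : (T.Cw a b).Point) : T.Ml ε (2 • Q) := by
  unfold Ml
  rw [hh_two hP.b_ne]
  exact zero_mem _

lemma ml_σ (h : T.Ml ε Q) (g : G I) : T.Ml ε (T.sQ a b g Q) := by
  unfold Ml hh at *
  rw [hV_sQ]
  exact T.σ_mem g h

lemma ml_dich (h : ¬ T.Ml ε Q) (h' : ¬ T.Ml ε Q') : T.Ml ε (Q + Q') := by
  have h1 := add_mem (hP.dich h) (hP.dich h')
  rw [add_add_add_comm, CharTwo.add_self_eq_zero, add_zero] at h1
  unfold Ml
  rwa [hh_add hP.b_ne]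

lemma zf_kr (h : T.Ml ε Q) : T.Kr (T.kap a b) (T.Zf Q) := by
  exact (T.Kr_of_wp (hP.xz_spec h).1).2

lemma zf_c1 (h : T.Ml ε Q) : T.P.c1 (T.Zf Q) = T.hh b Q := by
  exact (T.Kr_of_wp (hP.xz_spec h).1).1

lemma zf_zero : T.Zf (0 : (T.Cw a b).Point) = 0 := by
  refine xz_uniq (hP.xz_spec hP.ml_zero) ⟨?_, by simp [ff]⟩
  unfold hh
  rw [hV_zero]
  simp

lemma zf_add (h : T.Ml ε Q) (h' : T.Ml ε Q') : T.Zf (Q + Q') = T.Zf Q + T.Zf Q' := by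
  have s1 := hP.xz_spec h
  have s2 := hP.xz_spec h'
  refine xz_uniq (hP.xz_spec (hP.ml_add h h')) ⟨?_, ?_⟩
  · rw [wp_add, s1.1, s2.1, hh_add hP.b_ne, CharTwo.add_sq, mul_add]
  · have h1 := add_mem (add_mem s1.2 s2.2) (hP.ff_add h h')
    have e : T.Zf Q + T.bh (T.kap a b) * T.ff Q + (T.Zf Q' + T.bh (T.kap a b) * T.ff Q') +
        T.bh (T.kap a b) * (T.ff (Q + Q') + T.ff Q + T.ff Q') =
        T.Zf Q + T.Zf Q' + T.bh (T.kap a b) * T.ff (Q + Q') := by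
      have h2 : (2 : L) = 0 := CharTwo.two_eq_zero
      linear_combination (T.bh (T.kap a b) * (T.ff Q + T.ff Q')) * h2
    rwa [e] at h1

lemma zf_neg (Q : (T.Cw a b).Point) : T.Zf (-Q) = T.Zf Q := by
  unfold Zf hh ff
  rw [hV_neg, xc_neg]

lemma zf_sg (c : ZMod 2) (Q : (T.Cw a b).Point) : T.Zf (sg c • Q) = T.Zf Q := by
  unfold sg
  split_ifs
  · rw [one_smul]
  · rw [neg_smul, one_smul]
    exact hP.zf_neg Q

lemma zf_σ (h : T.Ml ε Q) (g : G I) : T.Zf (T.sQ a b g Q) = T.σ g (T.Zf Q) := by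
  have s1 := hP.xz_spec h
  refine xz_uniq (hP.xz_spec (hP.ml_σ h g)) ⟨?_, ?_⟩
  · have h1 := congrArg (T.σ g) s1.1
    rw [map_mul, map_pow, xz_fix T a b g, wp, map_add, map_pow] at h1
    unfold hh at h1 ⊢
    rw [hV_sQ, wp, h1]
  · have h1 := T.σ_mem g s1.2
    rwa [map_add, map_mul, xz_fix T a b g, ← xz_ff] at h1

lemma zf_two (h : T.Ml ε Q) : T.Zf (2 • Q) = 0 := by
  rw [two_nsmul, hP.zf_add h h, CharTwo.add_self_eq_zero]

lemma zf_two' (h : ¬ T.Ml ε Q) : T.Zf (2 • Q) = 1 := by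
  refine xz_uniq (hP.xz_spec (hP.ml_two Q)) ⟨?_, ?_⟩
  · rw [hh_two hP.b_ne]
    simp
  · rw [add_comm, two_nsmul]
    exact hP.typeII h

lemma zf_eq_zero (h : T.Ml ε Q) (h0 : T.Zf Q = 0) : ∃ Q', T.Ml ε Q' ∧ Q = 2 • Q' := by
  have h1 := hP.zf_c1 h
  rw [h0, PB.c1_zero] at h1
  obtain ⟨Q', rfl⟩ := hh_half hP.b_ne h1.symm
  refine ⟨Q', ?_, rfl⟩
  by_contra h2
  rw [hP.zf_two' h2] at h0
  exact one_ne_zero h0

lemma zf_eq_one (h : T.Ml ε Q) (h0 : T.Zf Q = 1) : ∃ Q', ¬ T.Ml ε Q' ∧ Q = 2 • Q' := by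
  have h1 := hP.zf_c1 h
  rw [h0, PB.c1_one] at h1
  obtain ⟨Q', rfl⟩ := hh_half hP.b_ne h1.symm
  refine ⟨Q', fun h2 => ?_, rfl⟩
  rw [hP.zf_two h2] at h0
  exact zero_ne_one h0

lemma zf_kg (hz : z ∈ T.Eig a b ξ) (h : T.Ml ε z) : T.Zf z ∈ T.KG (T.kap a b) := by
  refine ⟨hP.zf_kr h, fun g => ?_⟩
  rw [← hP.zf_σ h g, hz g, hP.zf_sg]

end Par2

namespace Ax

variable (h : T.Ax a b H RW)

include h

lemma down {m : (T.Cw a b).Point} {y : L} (h1 : (m, y) ∈ RW ξ (n + 1)) : (m, 0) ∈ RW ξ n := by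
  have h2 := add_mem h1 h1
  rw [Prod.mk_add_mk, CharTwo.add_self_eq_zero, ← two_nsmul] at h2
  exact (h.two ξ n m 0).1 h2

lemma lift {m : (T.Cw a b).Point} {y : L} (i : ℕ) (h1 : (m, y) ∈ RW ξ n) :
    (2 ^ i • m, y) ∈ RW ξ (i + n) := by
  induction i with
  | zero => simpa using h1
  | succ i ih =>
    rw [pow_succ, mul_nsmul, Nat.add_right_comm]
    exact (h.two ξ _ _ y).2 ih

lemma diff {m : (T.Cw a b).Point} {y y' : L} (h1 : (m, y) ∈ RW ξ n) (h2 : (m, y') ∈ RW ξ n) :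
    y + y' ∈ H := by
  have h3 := sub_mem h1 h2
  rw [Prod.mk_sub_mk, sub_self, CharTwo.sub_eq_add] at h3
  exact h.glob n _ (AddSubgroup.mem_iSup_of_mem ξ h3)

lemma shift {m : (T.Cw a b).Point} {y y' : L} (h1 : (m, y) ∈ RW ξ n) (h2 : y' ∈ H)
    (h3 : T.Fix y') : (m, y + y') ∈ RW ξ n := by
  have h4 := add_mem h1 (h.zero ξ n y' h2 h3)
  rwa [Prod.mk_add_mk, add_zero] at h4

lemma fix (hb : od b ≠ 0) {y : L} (hz : z ∈ T.Eig a b ξ) (h1 : (z, y) ∈ RW ξ n) : T.Fix y := by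
  intro g
  obtain ⟨m', e1, e2⟩ := h.act ξ n z y h1 g
  rw [hz g, sub_self] at e1
  have e3 : m' = 0 := cw_inj hb n (by rw [← e1, nsmul_zero])
  unfold hh at e2
  rw [e3, hV_zero] at e2
  exact CharTwo.add_eq_zero.1 e2

lemma hh_mem (h1 : (Q, 0) ∈ RW ξ n) : T.hh b Q ∈ H := by
  have h2 := nsmul_mem h1 (2 ^ n)
  rw [Prod.smul_mk, smul_zero] at h2
  have h3 := h.diff h2 (h.pow ξ n Q)
  rwa [zero_add] at h3

lemma sup_σ {m : (T.Cw a b).Point} {y : L} (h1 : (m, y) ∈ ⨆ ξ, RW ξ n) (g : G I) :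
    (T.sQ a b g m, T.σ g y) ∈ ⨆ ξ, RW ξ n := by
  have key : ∀ p : (T.Cw a b).Point × L, p ∈ ⨆ ξ, RW ξ n →
      (T.sQ a b g p.1, T.σ g p.2) ∈ ⨆ ξ, RW ξ n := by
    intro p hp
    refine AddSubgroup.iSup_induction (fun ξ => RW ξ n)
      (C := fun p => (T.sQ a b g p.1, T.σ g p.2) ∈ ⨆ ξ, RW ξ n) hp ?_ ?_ ?_
    · rintro ξ ⟨m, y⟩ h2
      obtain ⟨m', e1, e2⟩ := h.act ξ n m y h2 g
      refine AddSubgroup.mem_iSup_of_mem ξ ?_
      have h3 := add_mem (zsmul_mem h2 (sg (ξ ⬝ᵥ g))) (h.pow ξ n m')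
      have e3 : sg (ξ ⬝ᵥ g) • y = y := by
        unfold sg
        split_ifs
        · rw [one_smul]
        · rw [neg_smul, one_smul, CharTwo.neg_eq]
      rw [Prod.smul_mk, Prod.mk_add_mk, e3, ← e1, ← e2, add_sub_cancel, add_comm (T.σ g y),
        ← add_assoc, CharTwo.add_self_eq_zero, zero_add] at h3
      exact h3
    · simp only [Prod.fst_zero, Prod.snd_zero, map_zero]
      exact zero_mem _
    · intro x y hx hy
      have h3 := add_mem hx hy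
      rw [Prod.mk_add_mk, ← map_add, ← map_add] at h3
      exact h3
  exact key (m, y) h1

end Ax

end Tw

end Pool.Agent.Lib.MP_788af2_nt.AS
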