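import Pool.Agent.Lib.MP_a3f657_nt.BK.EDefs
import Pool.Agent.Lib.MP_a3f657_nt.BK.XZ
import Pool.Agent.Lib.MP_a3f657_nt.BK.SBas
import Pool.Agent.Lib.MP_a3f657_nt.BK.VF2
import Pool.Agent.Lib.MP_788af2_nt.TT.Poly

/-!
The embedded tower: points and residues.
-/

set_option linter.unusedSectionVars false

namespace Pool.Agent.Lib.MP_788af2_nt.AS

open Polynomial WeierstrassCurve Pool.Agent.Lib.MP_a3f657_nt.Two IsDedekindDomain

attribute [local instance 10000] Classical.propDecidable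

namespace Tw

variable {k : Type} [Field k] [Finite k] [CharP k 2] {I : Type} [Fintype I] [DecidableEq I]
  {β : I → k[X]} {L : Type} [Field L] [CharP L 2] {T : Tw β L}

namespace Env

variable (E : T.Env) {a b : k[X]} {ξ : G I} {n : ℕ}

lemma f_inj : Function.Injective E.f := E.f.injective

lemma f_fix (y : Ki k) : T.Fix (E.f y) := (E.fix _).2 ⟨y, rfl⟩

lemma f_mem {y : Ki k} {m : ℤ} : E.f y ∈ T.d.Le m ↔ y ∈ Fil E.L'.w (-m) := by
  by_cases hy : y = 0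
  · simp [hy]
  rw [DF.mem_Le_iff ((map_ne_zero E.f).2 hy), mem_Fil_iff hy, E.deg _ hy, neg_le]
  exact_mod_cast Iff.rfl

lemma RK_e (T : Tw β L) (y : RatFunc k) : T.RK (T.e y) = res none y := by
  rw [RK]
  exact T.R_eq (by rw [T.lgE_tr_mul (T.fix_e y), sub_self]; exact zero_mem _)

lemma RK_f (y : Ki k) :
    T.RK (E.f (y * algebraMap _ _ ((PX k).D (unif none)))) = E.L'.r y := by
  obtain ⟨z, hz⟩ := E.cpl.dense y 0
  have h1 : algebraMap (RatFunc k) (Ki k) ((PX k).D (unif none)) ∈ Fil E.L'.w 2 :=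
    E.cpl.mem.2 (mem_Fil_of_le (ord_D_unif (k := k) none).ge)
  have h2 : E.f ((y - algebraMap _ _ z) * algebraMap _ _ ((PX k).D (unif none))) ∈
      T.d.Le ((-2 : ℤ) : ℝ) := E.f_mem.2 (Fil.mul hz h1 (by simp))
  have h3 := T.RK_small (E.f_fix _) (DF.Le.mono h2 (by simp))
  have h4 : y * algebraMap _ _ ((PX k).D (unif none)) =
      (y - algebraMap _ _ z) * algebraMap _ _ ((PX k).D (unif none)) +
        algebraMap (RatFunc k) (Ki k) (z * (PX k).D (unif none)) := by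
    rw [map_mul]; ring
  rw [h4, map_add, RK_add, h3, zero_add, E.f_e, RK_e, ← pl_r, ← E.cpl.r]
  exact E.L'.r_congr (by rwa [add_comm, ← CharTwo.sub_eq_add])

lemma D_f (y : Ki k) :
    T.P.D (E.f y) = E.f (E.L'.P.D y * algebraMap _ _ ((PX k).D (unif none))) := by
  obtain ⟨Q, hQ⟩ := E.cpl.exists_PB (PX k)
  have h1 : T.P.b = E.f Q.b := by rw [hQ, E.f_e, T.hP]; rfl
  rw [Q.map_D h1, Q.D_chain E.L'.P y, E.cpl.b, (PX k).map_D hQ, pl_b]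

lemma rho {Q : PB (Ki k)} (hQ : Q.b = algebraMap _ _ (ι b)) (y : Ki k) :
    T.RK (E.f y * T.fl b) = E.L'.rho Q y := by
  have h1 := E.D_f Q.b
  have h2 : E.f Q.b = T.p b := by rw [hQ, E.f_e, p_eq]
  rw [h2, D_p] at h1
  rw [PreLoc.rho_apply, ← E.RK_f, fl, h1, ← h2, ← map_div₀, ← map_mul]
  congr 2
  ring

lemma rho_hh (hb : od b ≠ 0) {Q : PB (Ki k)} (hQ : Q.b = algebraMap _ _ (ι b)) (s s' : Ki k) :
    T.RK (T.p (od b) * E.f s * (T.p (od b) * E.f s')) = E.L'.rho Q (Q.b * (s * s')) := by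
  have h0 : b ≠ 0 := by
    rintro rfl
    exact hb (od_eq (g := 0) (h := 0) (by simp)).2
  have h2 : E.f Q.b = T.p b := by rw [hQ, E.f_e, p_eq]
  have h3 := T.p_ne h0
  rw [← E.rho hQ, fl, derivative_eq_od, map_mul, map_mul, h2, map_pow]
  congr 1
  rw [mul_div_assoc', eq_div_iff h3]
  ring

lemma qf_f (hb : od b ≠ 0) (s : Ki k) : T.qf b (T.p (od b) * E.f s) =
    E.L'.r (algebraMap _ _ (ι b) * (s * E.L'.P.D s)) := by
  rw [qf, mul_div_cancel_left₀ _ (T.p_ne hb), E.D_f, ← E.RK_f, p_eq, ← E.f_e, ← map_mul, ← map_mul]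
  congr 2
  ring

include E in
theorem pw {α : L} (h : T.Fix α) (h1 : ∀ φ, T.Fix φ → T.P.c1 φ = φ → T.RK (α * φ) = 0) :
    ∃ u, T.Fix u ∧ wp u = α := by
  obtain ⟨y, rfl⟩ := (E.fix _).1 h
  have h2 : y ∈ E.L'.PW := E.L'.PW_of_r_dlog fun x _ => by
    have h3 := h1 (T.P.D (E.f x) / E.f x) (((E.f_fix x).c1.pow 2).div (E.f_fix x)) (T.c1_dlog _)
    rw [E.D_f, ← map_div₀, ← map_mul] at h3
    rw [← E.RK_f, ← h3]
    congr 2
    ring
  rw [E.L'.PW_eq E.cpl.cpl] at h2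
  obtain ⟨z, hz⟩ := h2
  exact ⟨E.f z, E.f_fix z, by rw [← hz, wpH_apply, wp, wp, map_add, map_pow]⟩

/-- The 2-basis `b`. -/
noncomputable def PDb (hb : od b ≠ 0) : PB (RatFunc k) :=
  (PX k).change (ι b) ((PX k).ns_of_D (by
    rw [D_ι, derivative_eq_od]; exact ι_ne (pow_ne_zero 2 hb)))

lemma PDb_b (hb : od b ≠ 0) : (PDb hb).b = ι b := rfl

lemma adm_one (hb : od b ≠ 0) (hc : IsCoprime b (derivative b)) (a : k[X]) : Adm2 b b 1 1 a := by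
  refine ⟨by simp, ?_, one_ne_zero, hc, isCoprime_one_left, isCoprime_one_right, dvd_rfl,
    fun q hq h _ => absurd (isUnit_of_dvd_one h) hq.not_isUnit⟩
  rw [derivative_eq_od]
  exact pow_ne_zero 2 hb

lemma exists_Qs (hb : od b ≠ 0) : ∃ Q : PB (Oi k), Q.b = algebraMap _ _ (ι b) := by
  obtain ⟨Q, hQ⟩ := exists_Qi (PDb hb)
  obtain ⟨Q', hQ'⟩ := Q.exists_sep (Oi k)
  exact ⟨Q', by rw [hQ', hQ, PDb_b, ← IsScalarTower.algebraMap_apply]⟩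

private lemma ebas_bc (a b : k[X]) (ξ : G I) :
    ((Ew β a b ξ).baseChange (Oi k)).toAffine =
      Eb (E.φ (T.p a) + wp (E.φ (comb T.θ ξ))) (E.φ (T.p b)) := by
  have h1 : wp (E.φ (comb T.θ ξ)) = E.φ (wp (comb T.θ ξ)) := by rw [wp, wp, map_add, map_pow]
  rw [bc_EW, h1, T.wp_comb, ← map_add, ← map_add, φ_p, φ_p]

private lemma ebas_zc (c : ZMod 2) : E.φ (zc L c) = zc (Oi k) c :=
  RingHom.congr_fun (RingHom.ext_zmod (E.φ.comp (zc L)) (zc (Oi k))) c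

private lemma ebas_sg {M : Type} [AddCommGroup M] (c : ZMod 2) (m : M) : sg c • sg c • m = m := by
  unfold sg
  split_ifs <;> simp

lemma jx_isT (a b : k[X]) (ξ : G I) : IsT E.φ (E.φ (comb T.θ ξ)) (E.jx a b ξ) := by
  exact tm_spec rfl (E.ebas_bc a b ξ)

lemma jx_inj (hb : od b ≠ 0) (a : k[X]) (ξ : G I) : Function.Injective (E.jx a b ξ) := by
  obtain ⟨Q, hQ⟩ := T.exists_Qb hb
  exact (E.jx_isT a b ξ).inj (Q := Q) (a := T.p a) (by rw [hQ])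

lemma hV_jx (m : (T.Cw a b).Point) : hV E.P (E.φ (T.p b)) (E.jx a b ξ m) = E.φ (T.hh b m) := by
  exact (E.jx_isT a b ξ).hV E.hP _ m

lemma hV_kp {Q : PB (Oi k)} (hQ : Q.b = algebraMap _ _ (ι b)) {W : Affine (Oi k)} (U : W.Point) :
    hV E.P (E.φ (T.p b)) U = E.φ (T.p (od b)) * kp Q U := by
  have h1 : E.P.c1 (E.φ (T.p b)) = E.φ (T.p (od b)) := by rw [T.P.map_c1 E.hP, c1_od]
  have h2 : E.φ (T.p b) = Q.b := by rw [hQ, φ_p]
  rw [← h1, h2, hV_eq]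

lemma hV_gal (τ : Gal (Ki k)) {W : WeierstrassCurve (RatFunc k)} (U : Pt W (Oi k)) :
    hV E.P (E.φ (T.p b)) (pm W (τ.toAlgHom.restrictScalars _) U) =
      τ (hV E.P (E.φ (T.p b)) U) := by
  have h1 : ∀ x : RatFunc k, τ (algebraMap _ (Oi k) x) = algebraMap _ (Oi k) x := fun x =>
    (τ.toAlgHom.restrictScalars (RatFunc k)).commutes x
  have h2 : E.P.b = τ E.P.b := by rw [E.hP, T.hP, φ_e, h1]
  have h3 : τ (E.φ (T.p b)) = E.φ (T.p b) := by rw [φ_p, h1]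
  have h4 := (pm_isT W (τ.toAlgHom.restrictScalars (RatFunc k))).hV (Q := E.P) (Q' := E.P) h2
    (E.φ (T.p b)) U
  exact (congrArg (fun x => hV E.P x _) h3.symm).trans h4

lemma gal_jx (hb : od b ≠ 0) {τ : Gal (Ki k)} {g : G I} (h : ∀ x, τ (E.φ x) = E.φ (T.σ g x))
    (m : (T.Cw a b).Point) : pm _ (τ.toAlgHom.restrictScalars _) (E.jx a b ξ m) =
      E.jx a b ξ (sg (ξ ⬝ᵥ g) • T.sQ a b g m) := by
  obtain ⟨Q, hQ⟩ := exists_Qs hb
  have h1 := ((T.sQ_isT a b g).comp (E.jx_isT a b ξ)).sg (E.ebas_bc a b ξ) (ξ ⬝ᵥ g) m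
  obtain ⟨h2, h3⟩ := E.jx_isT a b ξ m
  rw [map_zsmul]
  refine eb_ext (bc_EW' _ hQ) ?_ ?_
  · rw [xc_pm, h1.1, h2]
    exact h _
  · rw [yc_pm, h1.2, h3]
    change τ _ = _
    rw [map_add, map_mul, h, h, h, T.σ_comb, map_add, E.ebas_zc, map_zero, zero_add]
    rfl

lemma jx_range (hb : od b ≠ 0) {U : Pt (Ew β a b ξ) (Oi k)}
    (h : ∀ τ : Gal (Ki k), (∀ x, τ (E.φ x) = E.φ x) → pm _ (τ.toAlgHom.restrictScalars _) U = U) :
    ∃ m, E.jx a b ξ m = U := by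
  obtain ⟨Q, hQ⟩ := T.exists_Qb hb
  obtain ⟨Q', hQ'⟩ := exists_Qs hb
  have h1 : Q'.b = E.φ (T.p b) := by rw [hQ', φ_p]
  have h2 : ∀ τ : Gal (Ki k), (∀ x, τ (E.φ x) = E.φ x) → τ (xc U) = xc U ∧ τ (yc U) = yc U :=
    fun τ hτ => ⟨(xc_pm _ (τ.toAlgHom.restrictScalars (RatFunc k)) U).symm.trans
      (congrArg xc (h τ hτ)), (yc_pm _ (τ.toAlgHom.restrictScalars (RatFunc k)) U).symm.trans
      (congrArg yc (h τ hτ))⟩
  refine (E.jx_isT a b ξ).range (Q := Q) (Q' := Q') (a := T.p a) (by rw [hQ])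
    (by rw [h1]; exact E.ebas_bc a b ξ) (by rw [h1, hQ])
    (E.desc _ fun τ hτ => (h2 τ hτ).1) (E.desc _ fun τ hτ => ?_)
  rw [map_add, map_mul, hτ, (h2 τ hτ).1, (h2 τ hτ).2]

lemma jx_sat (hb : od b ≠ 0) {m : (T.Cw a b).Point} {U : Pt (Ew β a b ξ) (Oi k)}
    (h : E.jx a b ξ m = 2 ^ n • U) : ∃ m', E.jx a b ξ m' = U := by
  obtain ⟨Q, hQ⟩ := exists_Qs hb
  refine E.jx_range hb fun τ hτ => eb_pow_inj (bc_EW' _ hQ) n ?_
  have h1 := E.gal_jx (a := a) (ξ := ξ) hb (τ := τ) (g := 0) (fun x => by rw [hτ, T.σ_zero]) m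
  rw [dotProduct_zero, sQ_zero, show sg 0 = 1 from rfl, one_smul, h, map_nsmul] at h1
  exact h1

lemma eig_of_loc (hb : od b ≠ 0) (z : Pt (Ew β a b ξ) (Ki k)) :
    ∃ m ∈ T.Eig a b ξ, E.jx a b ξ m = pm _ (toSep _ (Ki k)) z := by
  obtain ⟨m, hm⟩ := E.jx_range hb (U := pm _ (toSep _ (Ki k)) z) fun τ _ => pm_toSep τ z
  refine ⟨m, fun g => ?_, hm⟩
  obtain ⟨τ, hτ⟩ := E.surj g
  have h1 := E.gal_jx (a := a) (ξ := ξ) hb hτ m
  rw [hm, pm_toSep, ← hm] at h1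
  have h2 := congrArg (fun x => sg (ξ ⬝ᵥ g) • x) (E.jx_inj hb a ξ h1)
  simp only [ebas_sg] at h2
  exact h2.symm

lemma loc_of_eig (hb : od b ≠ 0) {m : (T.Cw a b).Point} (h : m ∈ T.Eig a b ξ) :
    ∃ z : Pt (Ew β a b ξ) (Ki k), E.jx a b ξ m = pm _ (toSep _ (Ki k)) z := by
  obtain ⟨z, hz⟩ := exists_of_fixed (T := E.jx a b ξ m) fun τ => by
    obtain ⟨g, hg⟩ := E.act τ
    rw [E.gal_jx hb hg, h g, ebas_sg]
  exact ⟨z, hz.symm⟩

lemma hh_loc {Q : PB (Ki k)} (hQ : Q.b = algebraMap _ _ (ι b)) {m : (T.Cw a b).Point}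
    {z : Pt (Ew β a b ξ) (Ki k)} (h : E.jx a b ξ m = pm _ (toSep _ (Ki k)) z) :
    T.hh b m = T.p (od b) * E.f (kp Q z) := by
  obtain ⟨Q', hQ'⟩ := Q.exists_sep (Oi k)
  rw [hQ, ← IsScalarTower.algebraMap_apply] at hQ'
  refine E.φ.injective ?_
  rw [← E.hV_jx (ξ := ξ), h, E.hV_kp hQ', kp_pm _ hQ hQ', map_mul, E.φ_f]
  rfl

end Env

end Tw

end Pool.Agent.Lib.MP_788af2_nt.AS
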