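import Pool.Agent.Lib.MP_a3f657_nt.BK.SDefs

/-!
Degrees on separable closures of local fields and the unramified ring: definitions.
-/

set_option linter.unusedSectionVars false

namespace Pool.Agent.Lib.MP_788af2_nt.AS

open Polynomial WeierstrassCurve Pool.Agent.Lib.MP_a3f657_nt.Two IsDedekindDomain

attribute [local instance 10000] Classical.propDecidable

/-- `d` extends the valuation of the local field `K` to its separable closure. -/
structure DFext {K : Type} [Field K] [CharP K 2] (L : PreLoc K) (d : DF (SeparableClosure K)) :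
    Prop where
  alg : ∀ x : K, x ≠ 0 → d.deg (algebraMap K _ x) = -(ord L.w x : ℤ)
  gal : ∀ (τ : Gal K) x, d.deg (τ x) = d.deg x
  dis : ∀ x, x ≠ 0 → ∃ m : ℤ, ((minpoly K x).natDegree : ℝ) * d.deg x = m

section

variable {Ω : Type} [Field Ω] [CharP Ω 2] (d : DF Ω) (P : PB Ω)

/-- The largest set of integral elements that is closed under the 2-basis. -/
def Our : Set Ω :=
  {x | ∃ S : Set Ω, x ∈ S ∧ ∀ y ∈ S, y ∈ d.Le 0 ∧ P.c0 y ∈ S ∧ P.c1 y ∈ S}

/-- The fractions of the unramified ring. -/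
def Kur (π : Ω) : Set Ω := {x | ∃ n : ℕ, π ^ n * x ∈ Our d P}

/-- The hypotheses on a uniformizer. -/
structure UrD (π : Ω) : Prop where
  mem : π ∈ Our d P
  ne : π ≠ 0
  deg : d.deg π = -1
  c1_ne : P.c1 π ≠ 0
  inv : (P.c1 π)⁻¹ ∈ Our d P
  b_mem : P.b ∈ d.Le 0
  dis : ∀ x, ∃ N : ℕ, ∃ S : Set Ω, x ∈ S ∧ ∀ y ∈ S, P.c0 y ∈ S ∧ P.c1 y ∈ S ∧
    (∀ z ∈ S, y + z ∈ S) ∧ (y * (P.c1 π)⁻¹ ∈ S ∧ y * P.c0 π ∈ S) ∧
    (y ≠ 0 → d.deg y < 0 → d.deg y ≤ -1 / (N + 1))

end

/-- The local data at a finite place. -/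
structure Lv {k : Type} [Field k] [Finite k] [CharP k 2] (v : HeightOneSpectrum k[X]) where
  /-- The local field. -/
  L' : PreLoc (Kv v)
  cpl : IsCpl (pl (some v)) L' (algebraMap _ _)
  /-- The degree. -/
  d : DF (Os v)
  ext : DFext L' d
  /-- The 2-basis `t`. -/
  P : PB (Os v)
  hP : P.b = algebraMap (RatFunc k) _ RatFunc.X

end Pool.Agent.Lib.MP_788af2_nt.AS
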