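import Pool.Agent.Lib.MP_a3f657_nt.BK.XDefs
import Pool.Agent.Lib.MP_a3f657_nt.BK.SPt
import Pool.Agent.Lib.MP_a3f657_nt.BK.VDefs

/-!
The tower inside the separable closure of the completion at infinity: definitions.
-/

set_option linter.unusedSectionVars false

namespace Pool.Agent.Lib.MP_788af2_nt.AS

open Polynomial WeierstrassCurve Pool.Agent.Lib.MP_a3f657_nt.Two IsDedekindDomain

attribute [local instance 10000] Classical.propDecidable

namespace Tw

variable {k : Type} [Field k] [Finite k] [CharP k 2] {I : Type} [Fintype I] [DecidableEq I]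
  {β : I → k[X]} {L : Type} [Field L] [CharP L 2]

/-- The embedding of the tower. -/
structure Env (T : Tw β L) where
  /-- The completion inside the tower. -/
  f : Ki k →+* L
  /-- The tower inside the separable closure. -/
  φ : L →+* Oi k
  /-- The global separable closure inside the local one. -/
  i : Fs k →ₐ[RatFunc k] Oi k
  /-- The global generators. -/
  θs : I → Fs k
  /-- The 2-basis `t`. -/
  P : PB (Oi k)
  /-- The local field. -/
  L' : PreLoc (Ki k)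
  cpl : IsCpl (pl (k := k) none) L' (algebraMap (RatFunc k) (Ki k))
  φ_f : ∀ x, φ (f x) = algebraMap _ _ x
  f_e : ∀ x, f (algebraMap _ _ x) = T.e x
  fix : ∀ x, T.Fix x ↔ ∃ y, f y = x
  φ_θ : ∀ j, φ (T.θ j) = i (θs j)
  hP : P.b = φ T.P.b
  act : ∀ τ : Gal (Ki k), ∃ g, ∀ x, τ (φ x) = φ (T.σ g x)
  surj : ∀ g, ∃ τ : Gal (Ki k), ∀ x, τ (φ x) = φ (T.σ g x)
  desc : ∀ y, (∀ τ : Gal (Ki k), (∀ x, τ (φ x) = φ x) → τ y = y) → ∃ x, φ x = y
  deg : ∀ x, x ≠ 0 → T.d.deg (f x) = -(ord L'.w x : ℤ)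

/-- The twist over the global field. -/
noncomputable abbrev Ew (β : I → k[X]) (a b : k[X]) (ξ : G I) : WeierstrassCurve (RatFunc k) :=
  EW (ι (a + X * comb β ξ ^ 2)) (ι b)

namespace Env

variable {T : Tw β L} (E : T.Env)

lemma φ_e (x : RatFunc k) : E.φ (T.e x) = algebraMap _ (Oi k) x := by
  rw [← E.f_e, E.φ_f, ← IsScalarTower.algebraMap_apply]

lemma φ_p (a : k[X]) : E.φ (T.p a) = algebraMap _ (Oi k) (ι a) := E.φ_e _

lemma c1_ne {b : k[X]} (hb : od b ≠ 0) : E.P.c1 (E.φ (T.p b)) ≠ 0 := by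
  rw [T.P.map_c1 E.hP, c1_od]
  exact (map_ne_zero E.φ).2 (T.p_ne hb)

/-- The points over the tower as points of the twist. -/
noncomputable def jx (a b : k[X]) (ξ : G I) : (T.Cw a b).Point →+ Pt (Ew β a b ξ) (Oi k) :=
  tm _ _ E.φ (E.φ (comb T.θ ξ))

/-- The localizations of the global classes. -/
def RW (a : k[X]) {b : k[X]} (hb : od b ≠ 0) (ξ : G I) (n : ℕ) :
    AddSubgroup ((T.Cw a b).Point × L) where
  carrier := {x | ∃ w ∈ Wf (Ew β a b ξ) (n + 1), ∃ U, pm _ E.i w - E.jx a b ξ x.1 = 2 ^ n • U ∧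
    hV E.P (E.φ (T.p b)) U = E.φ x.2}
  zero_mem' := ⟨0, zero_mem _, 0, by simp, by simp [hV_zero]⟩
  add_mem' := by
    rintro x y ⟨w, hw, U, h1, h2⟩ ⟨w', hw', U', h3, h4⟩
    refine ⟨w + w', add_mem hw hw', U + U', ?_, ?_⟩
    · rw [smul_add, ← h1, ← h3, map_add, Prod.fst_add, map_add]
      abel
    · rw [hV_add' E.P (E.c1_ne hb) (by rw [φ_p]; exact bc_EW _ _ _), h2, h4, Prod.snd_add, map_add]
  neg_mem' := by
    rintro x ⟨w, hw, U, h1, h2⟩
    refine ⟨-w, neg_mem hw, -U, ?_, ?_⟩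
    · rw [smul_neg, ← h1, map_neg, Prod.fst_neg, map_neg]
      abel
    · rw [hV_neg, h2, Prod.snd_neg, CharTwo.neg_eq]

end Env

end Tw

end Pool.Agent.Lib.MP_788af2_nt.AS
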