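import Pool.Agent.Lib.MP_a3f657_nt.BK.VDefs
import Pool.Agent.Lib.MP_788af2_nt.AS.TwEx

/-!
Extension of the valuation to the separable closure.
-/

set_option linter.unusedSectionVars false

namespace Pool.Agent.Lib.MP_788af2_nt.AS

open Polynomial WeierstrassCurve Pool.Agent.Lib.MP_a3f657_nt.Two IsDedekindDomain

section nrm

variable {K : Type} [Field K] (w : Valuation K (WithZero (Multiplicative ℤ)))

open Classical in
/-- The real absolute value attached to a discrete valuation. -/
noncomputable def vextF (x : K) : ℝ := if x = 0 then 0 else 2 ^ (-ord w x)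

lemma vextF_nonneg (x : K) : 0 ≤ vextF w x := by
  unfold vextF; split_ifs <;> positivity

lemma vextF_ne {x : K} (hx : x ≠ 0) : vextF w x = 2 ^ (-ord w x) := if_neg hx

lemma vextF_le {x : K} {n : ℤ} : vextF w x ≤ 2 ^ (-n) ↔ x ∈ Fil w n := by
  by_cases hx : x = 0
  · subst hx
    simp only [vextF, if_true, zero_mem, iff_true]
    positivity
  · rw [vextF_ne w hx, mem_Fil_iff hx, zpow_le_zpow_iff_right₀ one_lt_two]
    omega

lemma vextF_add (x y : K) : vextF w (x + y) ≤ max (vextF w x) (vextF w y) := by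
  by_cases hx : x = 0
  · subst hx; rw [zero_add]; exact le_max_right _ _
  by_cases hy : y = 0
  · subst hy; rw [add_zero]; exact le_max_left _ _
  have h1 := (vextF_le w).2 (add_mem (Fil.mono (mem_Fil_ord (w := w) x)
    (min_le_left _ (ord w y))) (Fil.mono (mem_Fil_ord y) (min_le_right _ _)))
  rw [vextF_ne w hx, vextF_ne w hy]
  rcases le_total (ord w x) (ord w y) with h | h
  · rw [min_eq_left h] at h1
    exact le_max_of_le_left h1
  · rw [min_eq_right h] at h1
    exact le_max_of_le_right h1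

/-- The absolute value as a bundled map. -/
noncomputable def vextA : AbsoluteValue K ℝ where
  toFun := vextF w
  map_mul' := fun x y => by
    by_cases hx : x = 0
    · simp [vextF, hx]
    by_cases hy : y = 0
    · simp [vextF, hy]
    simp only [vextF_ne w hx, vextF_ne w hy, vextF_ne w (mul_ne_zero hx hy), ord_mul hx hy,
      neg_add, zpow_add₀ (two_ne_zero (α := ℝ))]
  nonneg' := vextF_nonneg w
  eq_zero' := fun x => by
    by_cases hx : x = 0
    · simp [vextF, hx]
    · simp [vextF, hx, zpow_ne_zero]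
  add_le' := fun x y => (vextF_add w x y).trans
    (max_le (by linarith [vextF_nonneg w y]) (by linarith [vextF_nonneg w x]))

end nrm

lemma vext_complete {K : Type} [NormedField K] (w : Valuation K (WithZero (Multiplicative ℤ)))
    (h : Cpl w) (hn : ∀ (x : K) (n : ℤ), ‖x‖ ≤ 2 ^ (-n) ↔ x ∈ Fil w n) : CompleteSpace K := by
  refine Metric.complete_of_convergent_controlled_sequences (fun n => 2 ^ (-(n : ℤ)))
    (fun n => by positivity) fun u hu => ?_
  obtain ⟨l, hl⟩ := h u fun n => (hn _ _).1 (by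
    rw [← dist_eq_norm]
    exact (hu n (n + 1) n (Nat.le_succ n) le_rfl).le)
  refine ⟨l, tendsto_iff_dist_tendsto_zero.2 (squeeze_zero (fun n => dist_nonneg)
    (fun n => ?_) (tendsto_pow_atTop_nhds_zero_of_lt_one (r := (1 / 2 : ℝ)) (by norm_num)
      (by norm_num)))⟩
  rw [dist_comm, dist_eq_norm]
  refine ((hn _ _).2 (hl n)).trans (le_of_eq ?_)
  rw [zpow_neg, zpow_natCast, one_div, inv_pow]

lemma vext_spec (F L : Type) [NontriviallyNormedField F] [IsUltrametricDist F] [CompleteSpace F]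
    [Field L] [Algebra F L] [Algebra.IsAlgebraic F L] :
    ∃ d : DF L, (∀ a, d.deg (algebraMap F L a) = Real.logb 2 ‖a‖) ∧
      (∀ (σ : L ≃ₐ[F] L) x, d.deg (σ x) = d.deg x) ∧
      ∀ x : L, x ≠ 0 → ((minpoly F x).natDegree : ℝ) * d.deg x =
        Real.logb 2 ‖(minpoly F x).coeff 0‖ := by
  let := spectralNorm.normedField F L
  have : IsUltrametricDist L :=
    IsUltrametricDist.isUltrametricDist_of_isNonarchimedean_norm isNonarchimedean_spectralNorm
  refine ⟨⟨fun x => Real.logb 2 ‖x‖, fun hx hy => ?_, fun {x y} hx hy h => ?_⟩,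
    fun a => congrArg (Real.logb 2) (spectralNorm_extends a),
    fun σ x => congrArg (Real.logb 2) (spectralNorm_eq_of_equiv σ x).symm, fun x hx => ?_⟩
  · rw [norm_mul, Real.logb_mul (norm_ne_zero_iff.2 hx) (norm_ne_zero_iff.2 hy)]
  · rcases le_max_iff.1 (IsUltrametricDist.norm_add_le_max x y) with h1 | h1
    · exact le_max_of_le_left (Real.logb_le_logb_of_le one_lt_two (norm_pos_iff.2 h) h1)
    · exact le_max_of_le_right (Real.logb_le_logb_of_le one_lt_two (norm_pos_iff.2 h) h1)
  · have hi : IsIntegral F x := (Algebra.IsAlgebraic.isAlgebraic x).isIntegral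
    have h0 : 0 < ‖(minpoly F x).coeff 0‖ := norm_pos_iff.2 (minpoly.coeff_zero_ne_zero hi hx)
    have h1 : ((minpoly F x).natDegree : ℝ) ≠ 0 := by exact_mod_cast (minpoly.natDegree_pos hi).ne'
    change _ * Real.logb 2 (spectralNorm F L x) = _
    rw [spectralNorm.spectralNorm_eq_norm_coeff_zero_rpow, Real.logb_rpow_eq_mul_logb_of_pos h0]
    field_simp

theorem exists_dfext {K : Type} [Field K] [CharP K 2] (L : PreLoc K) (h : Cpl L.w) :
    ∃ d, DFext L d := by
  let N : NormedField K := (vextA L.w).toNormedField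
  have hN : ∀ x : K, ‖x‖ = vextF L.w x := fun _ => rfl
  let N' : NontriviallyNormedField K :=
    { N with
      non_trivial := ⟨L.P.b⁻¹, by
        change 1 < vextF L.w _
        rw [vextF_ne _ (inv_ne_zero L.P.b_ne), ord_inv, L.hπ]
        norm_num⟩ }
  have : IsUltrametricDist K :=
    IsUltrametricDist.isUltrametricDist_of_forall_norm_add_le_max_norm (vextF_add L.w)
  have : CompleteSpace K := vext_complete L.w h fun x n => vextF_le L.w
  obtain ⟨d, h1, h2, h3⟩ := vext_spec K (SeparableClosure K)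
  have h4 : ∀ x : K, x ≠ 0 → Real.logb 2 ‖x‖ = -(ord L.w x : ℤ) := fun x hx => by
    change Real.logb 2 (vextF L.w x) = _
    rw [vextF_ne _ hx, ← Real.rpow_intCast, Real.logb_rpow two_pos (by norm_num)]
    push_cast; rfl
  refine ⟨d, fun x hx => (h1 x).trans (h4 x hx), h2, fun x hx => ⟨-ord L.w ((minpoly K x).coeff 0), ?_⟩⟩
  rw [h3 x hx, h4 _ (minpoly.coeff_zero_ne_zero (Algebra.IsAlgebraic.isAlgebraic x).isIntegral hx)]
  push_cast; rfl

variable {K : Type} [Field K] [CharP K 2] {L : PreLoc K} {d : DF (SeparableClosure K)}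

lemma DFext.mem (h : DFext L d) {x : K} {n : ℤ} :
    algebraMap K (SeparableClosure K) x ∈ d.Le n ↔ x ∈ Fil L.w (-n) := by
  by_cases hx : x = 0
  · simp [hx]
  rw [DF.mem_Le_iff ((_root_.map_ne_zero _).2 hx), h.alg x hx, mem_Fil_iff hx, ← Int.cast_neg,
    Int.cast_le]
  omega

lemma DFext.gal_mem (h : DFext L d) (τ : Gal K) {x : SeparableClosure K} {r : ℝ}
    (hx : x ∈ d.Le r) : τ x ∈ d.Le r := by
  rcases hx with rfl | hx
  · simp
  · exact DF.mem_Le_of (by rwa [h.gal])

/-- Small solutions of Artin-Schreier equations. -/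
lemma df_small {Ω : Type} [Field Ω] [CharP Ω 2] [IsSepClosed Ω] (d : DF Ω) {x : Ω} {r : ℝ}
    (hr : r < 0) (hx : x ∈ d.Le r) : ∃ u ∈ d.Le r, wp u = x := by
  by_cases h0 : x = 0
  · exact ⟨0, zero_mem _, by simp [h0]⟩
  have hd : d.deg x ≤ r := hx.resolve_left h0
  obtain ⟨u, hu⟩ : ∃ u : Ω, wp u = x := by
    have hq : (X ^ 2 + X + C x : Polynomial Ω).degree = 2 := by compute_degree!
    obtain ⟨u, hu⟩ := IsSepClosed.exists_root (X ^ 2 + X + C x : Polynomial Ω) (by rw [hq]; decide) (by
      rw [separable_def, show derivative (X ^ 2 + X + C x : Polynomial Ω) = 1 by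
        simp [CharTwo.add_self_eq_zero]]
      exact isCoprime_one_right)
    refine ⟨u, ?_⟩
    simp only [IsRoot.def, eval_add, eval_pow, eval_X, eval_C] at hu
    unfold wp
    grind
  have key : ∀ u : Ω, wp u = x → d.deg u < 0 → u ∈ d.Le r := fun u hu h1 => by
    have e : u * (u + 1) = x := by unfold wp at hu; rw [← hu]; ring
    have h2 : u ≠ 0 := fun e0 => h0 (by rw [← e, e0, zero_mul])
    have h3 : u + 1 ≠ 0 := fun e0 => h0 (by rw [← e, e0, mul_zero])
    have h4 := d.deg_mul h2 h3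
    have e1 : u + 1 + u = 1 := by grind
    have h5 := d.deg_add h3 h2 (by rw [e1]; exact one_ne_zero)
    rw [e1, d.deg_one] at h5
    rw [e] at h4
    rcases le_max_iff.1 h5 with h6 | h6
    · exact DF.mem_Le_of (by linarith)
    · linarith
  have e : u * (u + 1) = x := by unfold wp at hu; rw [← hu]; ring
  have h2 : u ≠ 0 := fun e0 => h0 (by rw [← e, e0, zero_mul])
  have h3 : u + 1 ≠ 0 := fun e0 => h0 (by rw [← e, e0, mul_zero])
  have h4 := d.deg_mul h2 h3
  rw [e] at h4
  by_cases h5 : d.deg u < 0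
  · exact ⟨u, key u hu h5, hu⟩
  · have hu' : wp (u + 1) = x := by rw [wp_add, hu, wp_one, add_zero]
    exact ⟨u + 1, key _ hu' (by linarith), hu'⟩

lemma nonempty_Lv {k : Type} [Field k] [Finite k] [CharP k 2] (v : HeightOneSpectrum k[X]) :
    Nonempty (Lv v) := by
  obtain ⟨L', hL⟩ := exists_cpl_some v
  obtain ⟨d, hd⟩ := exists_dfext L' hL.cpl
  obtain ⟨Q, hQ⟩ := hL.exists_PB (PX k)
  obtain ⟨P, hP⟩ := Q.exists_sep (Os v)
  refine ⟨⟨L', hL, d, hd, P, ?_⟩⟩
  rw [hP, hQ, ← IsScalarTower.algebraMap_apply]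
  rfl

end Pool.Agent.Lib.MP_788af2_nt.AS
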