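import Pool.Agent.Lib.MP_a3f657_nt.BK.EDefs
import Pool.Agent.Lib.MP_a3f657_nt.BK.VExt

/-!
Existence of the embedded tower.
-/

set_option linter.unusedSectionVars false

namespace Pool.Agent.Lib.MP_788af2_nt.AS

open Polynomial WeierstrassCurve Pool.Agent.Lib.MP_a3f657_nt.Two IsDedekindDomain

lemma eEx_nas {K : Type} [Field K] [CharP K 2] {w : Valuation K (WithZero (Multiplicative ℤ))}
    {t h : K} (ht : ord w t = -1) (h0 : h ≠ 0) (hh : ord w h ≤ 0) (z : K) : wp z ≠ t * h ^ 2 := by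
  intro e
  have t0 : t ≠ 0 := by rintro rfl; simp at ht
  have h1 : ord w (wp z) = -1 + 2 * ord w h := by
    rw [e, ord_mul t0 (pow_ne_zero 2 h0), ht, ord_sq]
  by_cases hz : ord w z < 0
  · have := (ord_wp hz).2
    omega
  · have h2 : wp z ∈ Fil w 0 := Fil.wp (mem_Fil_ord z) (by omega) (by omega)
    rw [mem_Fil_iff (by rw [e]; exact mul_ne_zero t0 (pow_ne_zero 2 h0))] at h2
    omega

attribute [local instance 10000] Classical.propDecidable

lemma eEx_root {F : Type} [Field F] [CharP F 2] [IsSepClosed F] (a : F) : ∃ x, wp x = a := by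
  obtain ⟨x, hx⟩ := IsSepClosed.exists_root (X ^ 2 + X + C a : F[X])
    (by rw [show (X ^ 2 + X + C a : F[X]).degree = 2 by compute_degree!]; simp) (by
      rw [separable_def, show derivative (X ^ 2 + X + C a : F[X]) = 1 by
        simp [CharTwo.add_self_eq_zero]]
      exact isCoprime_one_right)
  simp only [IsRoot.def, eval_add, eval_pow, eval_X, eval_C] at hx
  exact ⟨x, by unfold wp; grind⟩

section gal

variable {K I : Type} [Field K] [CharP K 2] [Fintype I] [DecidableEq I] {y : I → K}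
  {θ : I → SeparableClosure K}

lemma eEx_gal (hy : ∀ ξ : G I, ξ ≠ 0 → ∀ z, wp z ≠ comb y ξ)
    (hθ : ∀ i, wp (θ i) = algebraMap K _ (y i)) :
    ∃ χ : Gal K → G I, Function.Surjective χ ∧ χ 1 = 0 ∧ (∀ σ τ, χ (σ * τ) = χ σ + χ τ) ∧
      ∀ σ i, σ (θ i) = θ i + zc _ (χ σ i) := by
  have h01 : ∀ i (x : SeparableClosure K), wp x = algebraMap K _ (y i) → x = θ i ∨ x = θ i + 1 :=
    fun i x hx => by
      have : wp (x + θ i) = 0 := by rw [wp_add, hx, hθ, two_K]
      exact (wp_eq_zero.1 this).imp (fun h => by grind) fun h => by grind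
  let φ : Gal K → G I := fun σ i => if σ (θ i) = θ i then 0 else 1
  have hφ : ∀ (σ : Gal K) i, σ (θ i) = θ i + zc _ (φ σ i) := fun σ i => by
    by_cases h : σ (θ i) = θ i
    · simp [φ, h]
    · simpa [φ, h] using (h01 i (σ (θ i))
        (by rw [← σ.commutes, ← hθ]; simp [wp])).resolve_left h
  have hz : ∀ (σ : Gal K) a, σ (zc _ a) = zc _ a := fun σ =>
    twEx_map_zc (σ : SeparableClosure K →+* SeparableClosure K)
  have φ1 : φ 1 = 0 := funext fun i => by simp [φ]
  have φm : ∀ σ τ, φ (σ * τ) = φ σ + φ τ := fun σ τ => funext fun i =>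
    (zc (SeparableClosure K)).injective (by
      have h1 := hφ (σ * τ) i
      rw [AlgEquiv.mul_apply, hφ τ, map_add, hφ σ, hz, add_assoc] at h1
      rw [Pi.add_apply, map_add, add_left_cancel h1])
  have h2 : ∀ g : G I, g + g = 0 := fun g => funext fun i => z2_add_self (g i)
  refine ⟨φ, fun v => ?_, φ1, φm, hφ⟩
  by_contra hv
  let U : AddSubgroup (G I) :=
    { carrier := Set.range φ
      zero_mem' := ⟨1, φ1⟩
      add_mem' := by rintro _ _ ⟨σ, rfl⟩ ⟨τ, rfl⟩; exact ⟨_, φm σ τ⟩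
      neg_mem' := fun {g} hg => by rwa [neg_eq_of_add_eq_zero_left (h2 g)] }
  obtain ⟨χ, hχ, hU⟩ := exists_sep_hom h2 U hv
  let ξ : G I := fun i => χ (Pi.single i 1)
  have h3 : ∀ g : G I, χ g = ∑ i, ξ i * g i := fun g => by
    conv_lhs => rw [← Finset.univ_sum_single g, map_sum]
    exact Finset.sum_congr rfl fun i _ => by rcases z2_cases (g i) with h | h <;> simp [h, ξ]
  obtain ⟨z, hz'⟩ := (InfiniteGalois.mem_range_algebraMap_iff_fixed (k := K) (comb θ ξ)).2
    fun σ => by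
      have h4 := congrArg (zc (SeparableClosure K)) ((h3 _).symm.trans (hU _ ⟨σ, rfl⟩))
      simp only [map_sum, map_mul, map_zero] at h4
      simp only [comb, map_sum, map_mul, hz, hφ, mul_add, Finset.sum_add_distrib, h4, add_zero]
  refine hy ξ (fun h => hχ (by simp [h3, h])) z ((algebraMap K (SeparableClosure K)).injective ?_)
  rw [twEx_map_comb, show algebraMap K (SeparableClosure K) (wp z) = wpH (comb θ ξ) by
    simp [wp, hz'], comb, comb, map_sum]
  exact Finset.sum_congr rfl fun i _ => by rcases z2_cases (ξ i) with h | h <;> simp [h, hθ]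

lemma eEx_tower (hy : ∀ ξ : G I, ξ ≠ 0 → ∀ z, wp z ≠ comb y ξ)
    (hθ : ∀ i, wp (θ i) = algebraMap K _ (y i)) :
    ∃ (L : Type) (_ : Field L) (_ : CharP L 2) (f : K →+* L) (φ : L →+* SeparableClosure K)
      (θ' : I → L) (σ : G I → L →+* L), (∀ x, φ (f x) = algebraMap _ _ x) ∧
      (∀ j, φ (θ' j) = θ j) ∧ (∀ x, σ 0 x = x) ∧ (∀ g h x, σ (g + h) x = σ g (σ h x)) ∧
      (∀ g i, σ g (θ' i) = θ' i + zc L (g i)) ∧
      (∀ τ : Gal K, ∃ g, ∀ x, τ (φ x) = φ (σ g x)) ∧
      (∀ g, ∃ τ : Gal K, ∀ x, τ (φ x) = φ (σ g x)) ∧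
      (∀ z, (∀ τ : Gal K, (∀ x, τ (φ x) = φ x) → τ z = z) → ∃ x, φ x = z) ∧
      ∀ Q : PB K, ∃ Q' : PB L, Q'.b = f Q.b := by
  obtain ⟨χ, hs, h1, hm, hχ⟩ := eEx_gal hy hθ
  let M : IntermediateField K (SeparableClosure K) := IntermediateField.adjoin K (Set.range θ)
  have hc : CharP M 2 := charP_of_injective_algebraMap (algebraMap K M).injective 2
  have hθM : ∀ i, θ i ∈ M := fun i => IntermediateField.subset_adjoin _ _ ⟨i, rfl⟩
  have hzM : ∀ a, zc (SeparableClosure K) a ∈ M := fun a => by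
    rcases z2_cases a with rfl | rfl
    · simp
    · simp
  have hmem : ∀ (τ : Gal K) x, x ∈ M → τ x ∈ M := fun τ x hx => by
    induction hx using IntermediateField.adjoin_induction with
    | mem x hx =>
      obtain ⟨i, rfl⟩ := hx
      rw [hχ]
      exact add_mem (hθM i) (hzM _)
    | algebraMap x => rw [τ.commutes]; exact M.algebraMap_mem x
    | add x y _ _ hx hy => rw [map_add]; exact add_mem hx hy
    | inv x _ hx => rw [map_inv₀]; exact inv_mem hx
    | mul x y _ _ hx hy => rw [map_mul]; exact mul_mem hx hy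
  have hag : ∀ τ τ' : Gal K, χ τ = χ τ' → ∀ x, x ∈ M → τ x = τ' x := fun τ τ' e x hx => by
    induction hx using IntermediateField.adjoin_induction with
    | mem x hx =>
      obtain ⟨i, rfl⟩ := hx
      rw [hχ, hχ, e]
    | algebraMap x => rw [τ.commutes, τ'.commutes]
    | add x y _ _ hx hy => rw [map_add, map_add, hx, hy]
    | inv x _ hx => rw [map_inv₀, map_inv₀, hx]
    | mul x y _ _ hx hy => rw [map_mul, map_mul, hx, hy]
  let s : G I → Gal K := Function.surjInv hs
  have hs' : ∀ g, χ (s g) = g := Function.surjInv_eq hs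
  let φ : M →+* SeparableClosure K := M.val.toRingHom
  let σ : G I → M →+* M := fun g =>
    ((s g : SeparableClosure K →+* SeparableClosure K).comp φ).codRestrict M
      fun x => hmem _ _ x.2
  have hσ : ∀ g x, φ (σ g x) = s g (φ x) := fun g x => rfl
  refine ⟨M, inferInstance, hc, algebraMap K M, φ, fun i => ⟨θ i, hθM i⟩, σ, fun x => rfl,
    fun j => rfl, fun x => φ.injective ?_, fun g h x => φ.injective ?_,
    fun g i => φ.injective ?_, fun τ => ⟨χ τ, fun x => ?_⟩, fun g => ⟨s g, fun x => rfl⟩,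
    fun z hz => ?_, fun Q => Q.exists_sep M⟩
  · rw [hσ]
    exact hag _ 1 (by rw [hs', h1]) _ x.2
  · rw [hσ, hσ, hσ]
    exact hag _ (s g * s h) (by rw [hm, hs', hs', hs']) _ x.2
  · rw [hσ, map_add, twEx_map_zc]
    exact (hχ (s g) i).trans (by rw [hs']; rfl)
  · rw [hσ]
    exact hag _ _ (by rw [hs']) _ x.2
  · have h2 : z ∈ IntermediateField.fixedField M.fixingSubgroup := by
      rw [IntermediateField.mem_fixedField_iff]
      intro τ hτ
      exact hz τ fun x => (IntermediateField.mem_fixingSubgroup_iff M τ).1 hτ _ x.2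
    rw [InfiniteGalois.fixedField_fixingSubgroup] at h2
    exact ⟨⟨z, h2⟩, rfl⟩

end gal

/-- The degree on a subfield. -/
def eExDF {L Ω : Type} [Field L] [Field Ω] (d : DF Ω) (φ : L →+* Ω) : DF L where
  deg x := d.deg (φ x)
  deg_mul hx hy := by
    rw [map_mul]
    exact d.deg_mul ((map_ne_zero φ).2 hx) ((map_ne_zero φ).2 hy)
  deg_add hx hy h := by
    rw [map_add]
    exact d.deg_add ((map_ne_zero φ).2 hx) ((map_ne_zero φ).2 hy)
      (by rw [← map_add]; exact (map_ne_zero φ).2 h)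

lemma eExDF_mem {L Ω : Type} [Field L] [Field Ω] {d : DF Ω} {φ : L →+* Ω} {x : L} {r : ℝ} :
    x ∈ (eExDF d φ).Le r ↔ φ x ∈ d.Le r := by
  rw [DF.mem_Le, DF.mem_Le, map_eq_zero]
  rfl

theorem exists_env {k : Type} [Field k] [Finite k] [CharP k 2] {I : Type} [Fintype I]
    [DecidableEq I] (β : I → k[X]) (h : ∀ ξ : G I, ξ ≠ 0 → comb β ξ ≠ 0) :
    ∃ (L : Type) (_ : Field L) (_ : CharP L 2) (T : Tw β L), Nonempty T.Env := by
  obtain ⟨L', hL⟩ := exists_cpl_none (k := k)
  obtain ⟨d, hd⟩ := exists_dfext L' hL.cpl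
  let e : RatFunc k →+* Ki k := algebraMap _ _
  have he : ∀ x, ord L'.w (e x) = ord (val none) x := hL.ord_eq
  let i : Fs k →ₐ[RatFunc k] Oi k := IsSepClosed.lift
  choose θs hθs using fun j => eEx_root (algebraMap (RatFunc k) (Fs k) (ι (X * β j ^ 2)))
  have hθ : ∀ j, wp (i (θs j)) = algebraMap (Ki k) (Oi k) (e (ι (X * β j ^ 2))) := fun j => by
    rw [← IsScalarTower.algebraMap_apply, ← i.commutes, ← hθs]
    simp [wp]
  obtain ⟨L, _, _, f, φ, θ, σ, φf, φθ, h0, hm, hσ, act, surj, desc, hPB⟩ :=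
    eEx_tower (y := fun j => e (ι (X * β j ^ 2))) (fun ξ hξ z hz => by
      refine eEx_nas (w := L'.w) (t := e RatFunc.X) (h := e (ι (comb β ξ)))
        (by rw [he, ord_X]) ((map_ne_zero e).2 (ι_ne (h ξ hξ))) ?_ z (hz.trans ?_)
      · rw [he, ord_none (h ξ hξ)]
        exact neg_nonpos.2 (Nat.cast_nonneg _)
      · have h1 := twEx_map_comb (e.comp (algebraMap k[X] (RatFunc k))) β ξ
        simp only [RingHom.comp_apply] at h1
        rw [ι, h1, comb, comb, CharTwo.sum_sq, Finset.mul_sum]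
        exact Finset.sum_congr rfl fun i _ => by
          rcases z2_cases (ξ i) with h | h <;> simp [h]) hθ
  obtain ⟨Q₀, hQ₀⟩ := hL.exists_PB (PX k)
  obtain ⟨Q, hQ⟩ := hPB Q₀
  obtain ⟨P, hP⟩ := Q₀.exists_sep (Oi k)
  have σf : ∀ g x, σ g (f x) = f x := fun g x => φ.injective (by
    obtain ⟨τ, hτ⟩ := surj g
    rw [← hτ, φf, τ.commutes])
  have fix : ∀ x, (∀ g, σ g x = x) → ∃ y, f y = x := fun x hx => by
    obtain ⟨y, hy⟩ := (InfiniteGalois.mem_range_algebraMap_iff_fixed (k := Ki k) (φ x)).2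
      fun τ => by
        obtain ⟨g, hg⟩ := act τ
        rw [hg, hx]
    exact ⟨y, φ.injective (by rw [φf, hy])⟩
  have hdeg : ∀ x, x ≠ 0 → (eExDF d φ).deg (f x) = -(ord L'.w x : ℤ) := fun x hx => by
    rw [← hd.alg x hx, ← φf]
    rfl
  refine ⟨L, inferInstance, inferInstance,
    { e := f.comp e
      P := Q
      hP := by rw [hQ, hQ₀]; rfl
      d := eExDF d φ
      d_e := fun x hx => by
        rw [RingHom.comp_apply, hdeg _ ((map_ne_zero e).2 hx), he]
      σ := σ
      σ_zero := h0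
      σ_add := hm
      σ_e := fun g x => σf g _
      σ_deg := fun g x => by
        obtain ⟨τ, hτ⟩ := surj g
        change d.deg (φ (σ g x)) = d.deg (φ x)
        rw [← hτ, hd.gal]
      θ := θ
      θ_wp := fun j => φ.injective (by
        rw [RingHom.comp_apply, φf, ← hθ, ← φθ]
        simp [wp])
      σ_θ := hσ
      dense := fun x hx r => ?_
      hensel := fun r x hr hx => ?_ }, ⟨
    { f := f
      φ := φ
      i := i
      θs := θs
      P := P
      L' := L'
      cpl := hL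
      φ_f := φf
      f_e := fun x => rfl
      fix := fun x => ⟨fix x, ?_⟩
      φ_θ := φθ
      hP := hP.trans ((φf _).symm.trans (congrArg φ hQ.symm))
      act := act
      surj := surj
      desc := desc
      deg := hdeg }⟩⟩
  · obtain ⟨a, rfl⟩ := fix x hx
    obtain ⟨y, hy⟩ := hL.dense a (-⌊r⌋)
    refine ⟨y, ?_⟩
    rw [RingHom.comp_apply, ← map_sub, eExDF_mem, φf]
    exact DF.Le.mono (hd.mem.2 hy) (Int.floor_le r)
  · rw [eExDF_mem] at hx
    obtain ⟨u, hu, e1⟩ := df_small d hr hx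
    obtain ⟨v, rfl⟩ := desc u fun τ hτ => by
      have h1 : wp (τ u + u) = 0 := by
        rw [wp_add, show wp (τ u) = τ (wp u) by simp [wp], e1, hτ, two_K]
      rcases wp_eq_zero.1 h1 with h2 | h2
      · grind
      · have h3 := add_mem (hd.gal_mem τ hu) hu
        rw [h2, DF.mem_Le_iff one_ne_zero, DF.deg_one] at h3
        linarith
    exact ⟨v, eExDF_mem.2 hu, φ.injective (by rw [← e1]; simp [wp])⟩
  · rintro ⟨y, rfl⟩ g
    exact σf g y

end Pool.Agent.Lib.MP_788af2_nt.AS
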