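import Pool.Agent.Lib.MP_a3f657_nt.BK.EBas
import Pool.Agent.Lib.MP_a3f657_nt.BK.VLv
import Pool.Agent.Lib.MP_788af2_nt.TT.HBase

/-!
The global field of the tower and its integers.
-/

set_option linter.unusedSectionVars false

namespace Pool.Agent.Lib.MP_788af2_nt.AS

open Polynomial WeierstrassCurve Pool.Agent.Lib.MP_a3f657_nt.Two IsDedekindDomain

section aux

variable {k : Type} [Field k] [Finite k] [CharP k 2]

private lemma eint_sqf {a : k[X]} (ha : a ≠ 0) :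
    ∃ (d : k[X]) (M : ℕ), IsCoprime d (derivative d) ∧ a ∣ d ^ (2 * M) := by
  classical
  obtain ⟨M, hM⟩ := UniqueFactorizationMonoid.exists_dvd_radical_self_pow ha
  refine ⟨UniqueFactorizationMonoid.radical a, M,
    PerfectField.separable_iff_squarefree.2 UniqueFactorizationMonoid.squarefree_radical,
    hM.trans (pow_dvd_pow _ (by omega))⟩

private lemma eint_root {d : k[X]} (hd : IsCoprime d (derivative d)) :
    ∃ r w : k[X], r ^ 2 + X = d * w := by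
  obtain ⟨u, w, e⟩ := hd
  rw [derivative_eq_od] at e
  have e1 := ev_od d
  generalize ev d = g at e1
  generalize od d = h at e e1
  refine ⟨g * (w * h), (w * h) ^ 2 + X * u ^ 2 * d, ?_⟩
  have e2 : w * h ^ 2 = 1 + u * d := by grind
  have e3 : g ^ 2 = d + X * h ^ 2 := by grind
  calc (g * (w * h)) ^ 2 + X = g ^ 2 * (w * h) ^ 2 + X := by ring
    _ = d * (w * h) ^ 2 + X * (w * h ^ 2) ^ 2 + X := by rw [e3]; ring
    _ = d * ((w * h) ^ 2 + X * u ^ 2 * d) := by rw [e2]; grind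

private lemma eint_ne {d : k[X]} (hd : IsCoprime d (derivative d)) : d ≠ 0 := by
  rintro rfl
  rw [derivative_zero] at hd
  exact not_isCoprime_zero_zero hd

/-- Poles of odd order cannot be removed. -/
private lemma eint_loc {v : HeightOneSpectrum k[X]} (Λ : Lv v) {d : k[X]}
    (hd : IsCoprime d (derivative d)) {M : ℕ} {z c : Os v}
    (hz : algebraMap (RatFunc k) (Os v) (ι d) ^ (2 * M + 1) * z ∈ Λ.d.Le 0)
    (h : z + wp c ∈ Λ.d.Le 0) (hc : c ∈ Kur Λ.d Λ.P Λ.π) :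
    algebraMap (RatFunc k) (Os v) (ι d) ^ (2 * M) * z ∈ Λ.d.Le 0 := by
  have h0 : ι d ≠ 0 := ι_ne (eint_ne hd)
  have h1 : algebraMap (RatFunc k) (Os v) (ι d) ≠ 0 := (_root_.map_ne_zero _).2 h0
  have h2 := Λ.deg_alg h0
  generalize algebraMap (RatFunc k) (Os v) (ι d) = D at hz h1 h2 ⊢
  have hM : (0 : ℝ) ≤ M := Nat.cast_nonneg M
  rcases ord_sqfree hd v with e | e
  · rw [e] at h2
    rw [pow_succ, mul_right_comm] at hz
    exact DF.Le.of_mul hz h1 (by rw [h2]; simp)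
  · rw [e] at h2
    have h3 : z ∈ Λ.d.Le (2 * M + 1) := by
      rw [mul_comm] at hz
      refine DF.Le.of_mul hz (pow_ne_zero _ h1) ?_
      rw [DF.deg_pow h1, h2]
      push_cast
      linarith
    have h4 : wp c ∈ Λ.d.Le (2 * M + 1) := by
      have := sub_mem (DF.Le.mono h (c := 2 * M + 1) (by linarith)) h3
      rwa [add_sub_cancel_left] at this
    have h5 : c ∈ Λ.d.Le M := by
      by_cases hc0 : c = 0
      · rw [hc0]
        exact zero_mem _
      obtain ⟨m, hm⟩ := Λ.urD.int hc hc0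
      have h6 := DF.Le.of_wp h4 (by linarith) le_rfl
      rw [DF.mem_Le_iff hc0, hm] at h6 ⊢
      have h7 : (2 * m : ℝ) ≤ 2 * M + 1 := by linarith
      have h8 : 2 * m ≤ 2 * (M : ℤ) + 1 := by exact_mod_cast h7
      have h9 : m ≤ (M : ℤ) := by omega
      exact_mod_cast h9
    have h6 : z ∈ Λ.d.Le (2 * M) := by
      have := sub_mem (DF.Le.mono h (c := 2 * M) (by linarith))
        (DF.Le.wp_mem h5 (c := 2 * M) le_rfl (by linarith))
      rwa [add_sub_cancel_right] at this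
    refine DF.Le.mul (DF.mem_Le_deg _) h6 ?_
    rw [DF.deg_pow h1, h2]
    push_cast
    linarith

private lemma eint_id1 {L : Type} [Field L] {D : L} (h0 : D ≠ 0) (x g : L) (M : ℕ) :
    D * (D ^ (2 * M + 1) * (x + wp (g / D ^ (M + 1)))) =
      D ^ (2 * (M + 1)) * x + g ^ 2 + D * (D ^ M * g) := by
  rw [wp]
  field_simp
  ring

private lemma eint_id2 {L : Type} [Field L] {D : L} (h0 : D ≠ 0) (x : L) :
    (x * D) ^ 2 / D = x ^ 2 * D := by
  field_simp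

end aux

attribute [local instance 10000] Classical.propDecidable

namespace Tw

variable {k : Type} [Field k] [Finite k] [CharP k 2] {I : Type} [Fintype I] [DecidableEq I]
  {β : I → k[X]} {L : Type} [Field L] [CharP L 2] {T : Tw β L}

namespace Env

variable (E : T.Env) {a b : k[X]} {ξ : G I} {n : ℕ} {x : L} {y : Fs k}

/-- The global field inside the separable closure. -/
noncomputable def Fg : Subfield (Fs k) := (T.Lg.map E.φ).comap (E.i : Fs k →+* Oi k)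

lemma mem_Fg : y ∈ E.Fg ↔ ∃ x ∈ T.Lg, E.φ x = E.i y := by
  rfl

lemma exists_Fg (hx : x ∈ T.Lg) : ∃ y, E.φ x = E.i y := by
  have h : T.Lg ≤ (E.i : Fs k →+* Oi k).fieldRange.comap E.φ := by
    refine Subfield.closure_le.2 ?_
    rintro _ (⟨r, rfl⟩ | ⟨j, rfl⟩)
    · exact ⟨algebraMap _ _ r, by rw [E.φ_e]; exact E.i.commutes r⟩
    · exact ⟨E.θs j, (E.φ_θ j).symm⟩
  obtain ⟨y, hy⟩ := h hx
  exact ⟨y, hy.symm⟩

lemma wp_θs (j : I) : wp (E.θs j) = algebraMap _ _ (ι (X * β j ^ 2)) := by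
  apply (E.i : Fs k →+* Oi k).injective
  have h := congrArg E.φ (T.θ_wp j)
  rw [E.φ_e, wp, map_add, map_pow, E.φ_θ] at h
  rw [wp, map_add, map_pow]
  exact h.trans (E.i.commutes _).symm

lemma Fg_of_fix (h : ∀ σ : Gal (RatFunc k), (∀ j, σ (E.θs j) = E.θs j) → σ y = y) :
    y ∈ E.Fg := by
  let M : IntermediateField (RatFunc k) (Fs k) := E.Fg.toIntermediateField fun r =>
    E.mem_Fg.2 ⟨T.e r, T.e_mem_Lg r, by rw [E.φ_e]; exact (E.i.commutes r).symm⟩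
  have h1 : y ∈ IntermediateField.fixedField M.fixingSubgroup := by
    rintro ⟨σ, hσ⟩
    exact h σ fun j => hσ ⟨E.θs j, E.mem_Fg.2 ⟨T.θ j, T.O_le_Lg (T.θ_mem_O j), E.φ_θ j⟩⟩
  rw [InfiniteGalois.fixedField_fixingSubgroup] at h1
  exact h1

lemma O_our (hx : x ∈ T.O) (e : E.φ x = E.i y) {v : HeightOneSpectrum k[X]} (Λ : Lv v)
    (j : Fs k →ₐ[RatFunc k] Os v) : j y ∈ Our Λ.d Λ.P := by
  have h : T.O ≤ (((OurR Λ.urD.b_mem).comap (j : Fs k →+* Os v)).map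
      (E.i : Fs k →+* Oi k)).comap E.φ := by
    refine Subring.closure_le.2 ?_
    rintro _ (⟨r, rfl⟩ | ⟨l, rfl⟩)
    · refine ⟨algebraMap _ _ (ι r), ?_, by rw [E.φ_p]; exact E.i.commutes _⟩
      change j _ ∈ Our Λ.d Λ.P
      rw [j.commutes]
      exact Λ.our_poly r
    · refine ⟨E.θs l, ?_, (E.φ_θ l).symm⟩
      change j _ ∈ Our Λ.d Λ.P
      refine Our.of_wp Λ.urD.b_mem ?_
      have h1 := congrArg j (E.wp_θs l)
      rw [j.commutes, wp, map_add, map_pow] at h1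
      rw [wp, h1]
      exact Λ.our_poly _
  obtain ⟨y', h1, h2⟩ := h hx
  have h3 : y' = y := (E.i : Fs k →+* Oi k).injective (h2.trans e)
  exact h3 ▸ h1

lemma Fg_kur (h : y ∈ E.Fg) {v : HeightOneSpectrum k[X]} (Λ : Lv v)
    (j : Fs k →ₐ[RatFunc k] Os v) : j y ∈ Kur Λ.d Λ.P Λ.π := by
  obtain ⟨x, hx, e⟩ := E.mem_Fg.1 h
  obtain ⟨a, ha, h1⟩ := T.mem_Lg.1 hx
  have h2 := E.O_our (y := algebraMap _ _ (ι a) * y) h1
    (by rw [map_mul, map_mul, E.φ_p, e, E.i.commutes]) Λ j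
  rw [map_mul, j.commutes] at h2
  obtain ⟨S, hS, -⟩ := Λ.urD.field
  have h3 := div_mem ((hS _).2 (Our.kur _ h2)) ((hS _).2 (Our.kur _ (Λ.our_poly a)))
  rw [mul_div_cancel_left₀ _ ((_root_.map_ne_zero _).2 (ι_ne ha))] at h3
  exact (hS _).1 h3

lemma O_of_int (Λ : ∀ v : HeightOneSpectrum k[X], Lv v) (hx : x ∈ T.Lg) (e : E.φ x = E.i y)
    (h : ∀ v (j : Fs k →ₐ[RatFunc k] Os v), j y ∈ (Λ v).d.Le 0) : x ∈ T.O := by
  refine T.int_O hx (RingHom.IsIntegralElem.of_map E.φ.injective ?_)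
  have h1 := (int_crit Λ h).map (E.i : Fs k →+* Oi k)
  have h2 : (E.i : Fs k →+* Oi k).comp ((algebraMap (RatFunc k) (Fs k)).comp
      (algebraMap k[X] (RatFunc k))) = E.φ.comp T.p :=
    RingHom.ext fun a => (E.i.commutes _).trans (E.φ_p a).symm
  rw [h2] at h1
  rw [e]
  exact h1

private lemma eint_step {d : k[X]} (hd : IsCoprime d (derivative d)) {M : ℕ}
    (h : T.p d ^ (2 * (M + 1)) * x ∈ T.O) :
    ∃ c ∈ T.Lg, T.p d ^ (2 * M + 1) * (x + wp c) ∈ T.O := by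
  obtain ⟨r, w, e⟩ := eint_root hd
  have h0 := T.p_ne (eint_ne hd)
  have e1 := T.P.spec (T.p d ^ (2 * (M + 1)) * x)
  have o0 := T.c0_O h
  have o1 := T.c1_O h
  generalize T.P.c0 (T.p d ^ (2 * (M + 1)) * x) = g0 at e1 o0
  generalize T.P.c1 (T.p d ^ (2 * (M + 1)) * x) = g1 at e1 o1
  have e2 : T.p r ^ 2 + T.P.b = T.p d * T.p w := by
    rw [← T.p_X, ← map_pow, ← map_add, e, map_mul]
  have og : g0 + T.p r * g1 ∈ T.O := add_mem o0 (mul_mem (T.p_mem_O r) o1)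
  refine ⟨(g0 + T.p r * g1) / T.p d ^ (M + 1),
    div_mem (T.O_le_Lg og) (T.O_le_Lg (pow_mem (T.p_mem_O d) _)), ?_⟩
  have e3 : T.p d ^ (2 * M + 1) * (x + wp ((g0 + T.p r * g1) / T.p d ^ (M + 1))) =
      T.p w * g1 ^ 2 + T.p d ^ M * (g0 + T.p r * g1) := by
    apply mul_left_cancel₀ h0
    rw [eint_id1 h0, e1, mul_add (T.p d), ← mul_assoc (T.p d) (T.p w), ← e2]
    grind
  rw [e3]
  exact add_mem (mul_mem (T.p_mem_O w) (pow_mem o1 2)) (mul_mem (pow_mem (T.p_mem_O d) _) og)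

private lemma eint_red (Λ : ∀ v : HeightOneSpectrum k[X], Lv v) {d : k[X]}
    (hd : IsCoprime d (derivative d)) (M : ℕ) : ∀ {x : L} {y : Fs k}, x ∈ T.Lg →
    E.φ x = E.i y → T.p d ^ (2 * M) * x ∈ T.O →
    (∀ v (j : Fs k →ₐ[RatFunc k] Os v), ∃ c, j y + wp c ∈ (Λ v).d.Le 0 ∧
      c ∈ Kur (Λ v).d (Λ v).P (Λ v).π) → ∃ c ∈ T.Lg, x + wp c ∈ T.O := by
  induction M with
  | zero => exact fun _ _ h _ => ⟨0, zero_mem _, by simpa using h⟩
  | succ M ih =>
    intro x y hx e h1 h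
    obtain ⟨c, hc, h2⟩ := eint_step hd h1
    obtain ⟨γ, hγ⟩ := E.exists_Fg hc
    have hx' : x + wp c ∈ T.Lg := add_mem hx (add_mem (pow_mem hc 2) hc)
    have e' : E.φ (x + wp c) = E.i (y + wp γ) := by
      simp only [wp, map_add, map_pow, e, hγ]
    have h' : ∀ v (j : Fs k →ₐ[RatFunc k] Os v), ∃ c, j (y + wp γ) + wp c ∈ (Λ v).d.Le 0 ∧
        c ∈ Kur (Λ v).d (Λ v).P (Λ v).π := fun v j => by
      obtain ⟨c', h3, h4⟩ := h v j
      obtain ⟨S, hS, -⟩ := (Λ v).urD.field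
      refine ⟨j γ + c', ?_, (hS _).1 (add_mem
        ((hS _).2 (E.Fg_kur (E.mem_Fg.2 ⟨c, hc, hγ⟩) (Λ v) j)) ((hS _).2 h4))⟩
      have e1 : j (y + wp γ) + wp (j γ + c') = j y + wp c' := by
        simp only [wp, map_add, map_pow]
        grind
      rwa [e1]
    have e2 : ∀ n : ℕ, E.φ (T.p d ^ n * (x + wp c)) =
        E.i (algebraMap _ _ (ι d) ^ n * (y + wp γ)) := fun n => by
      rw [map_mul, map_mul, map_pow, map_pow, E.φ_p, e', E.i.commutes]
    have h3 : T.p d ^ (2 * M) * (x + wp c) ∈ T.O := by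
      refine E.O_of_int Λ (mul_mem (T.O_le_Lg (pow_mem (T.p_mem_O d) _)) hx') (e2 _) fun v j => ?_
      obtain ⟨c', h4, h5⟩ := h' v j
      have h6 := Our.le (E.O_our h2 (e2 _) (Λ v) j)
      rw [map_mul, map_pow, j.commutes] at h6 ⊢
      exact eint_loc (Λ v) hd h6 h4 h5
    obtain ⟨c', hc', h4⟩ := ih hx' e' h3 h'
    exact ⟨c + c', add_mem hc hc', by rwa [wp_add, ← add_assoc]⟩

/-- Global reduction of poles. -/
theorem pole_red (Λ : ∀ v : HeightOneSpectrum k[X], Lv v) (hx : x ∈ T.Lg) (e : E.φ x = E.i y)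
    (h : ∀ v (j : Fs k →ₐ[RatFunc k] Os v), ∃ c, j y + wp c ∈ (Λ v).d.Le 0 ∧
      c ∈ Kur (Λ v).d (Λ v).P (Λ v).π) : ∃ c ∈ T.Lg, x + wp c ∈ T.O := by
  obtain ⟨a, ha, h1⟩ := T.mem_Lg.1 hx
  obtain ⟨d, M, hd, w, hw⟩ := eint_sqf ha
  refine E.eint_red Λ hd M hx e ?_ h
  rw [← map_pow, hw, map_mul, mul_right_comm]
  exact mul_mem h1 (T.p_mem_O w)

theorem hs_of_loc (hb : od b ≠ 0) (Λ : ∀ v : HeightOneSpectrum k[X], Lv v) (a : k[X])
    (hy : y ∈ E.Fg) (e : E.φ x = E.φ (T.p (od b)) * E.i y)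
    (h : ∀ v (j : Fs k →ₐ[RatFunc k] Os v), ∃ u c, u ∈ Our (Λ v).d (Λ v).P ∧
      c * algebraMap _ _ (ι (derivative b)) ∈ Our (Λ v).d (Λ v).P ∧
      algebraMap _ _ (ι b) * j y ^ 2 = wp c + u) : x ∈ T.Hs b 1 a := by
  obtain ⟨s, hs, es⟩ := E.mem_Fg.1 hy
  have ex : x = T.p (od b) * s := E.φ.injective (by rw [map_mul, es, e])
  have hd : derivative b ≠ 0 := by
    rw [derivative_eq_od]
    exact pow_ne_zero 2 hb
  have hb0 : b ≠ 0 := fun e => hd (by rw [e, derivative_zero])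
  have e1 : E.φ (T.p b * s ^ 2) = E.i (algebraMap _ _ (ι b) * y ^ 2) := by
    rw [map_mul, map_mul, map_pow, map_pow, E.φ_p, es, E.i.commutes]
  obtain ⟨C, hC, hU⟩ := E.pole_red Λ (mul_mem (T.O_le_Lg (T.p_mem_O b)) (pow_mem hs 2)) e1
    fun v j => by
      obtain ⟨u, c, h1, h2, h3⟩ := h v j
      obtain ⟨S, hS, -⟩ := (Λ v).urD.field
      refine ⟨c, ?_, ?_⟩
      · rw [map_mul, map_pow, j.commutes, h3, add_right_comm, CharTwo.add_self_eq_zero, zero_add]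
        exact Our.le h1
      · have h4 := div_mem ((hS _).2 (Our.kur _ h2))
          ((hS _).2 (Our.kur _ ((Λ v).our_poly (derivative b))))
        rw [mul_div_cancel_right₀ _ ((_root_.map_ne_zero _).2 (ι_ne hd))] at h4
        exact (hS _).1 h4
  obtain ⟨γ, hγ⟩ := E.exists_Fg hC
  have hO : C * T.p (derivative b) ∈ T.O := by
    refine E.O_of_int Λ (y := γ * algebraMap _ _ (ι (derivative b)))
      (mul_mem hC (T.O_le_Lg (T.p_mem_O _)))
      (by rw [map_mul, map_mul, E.φ_p, hγ, E.i.commutes]) fun v j => ?_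
    obtain ⟨u, c, h1, h2, h3⟩ := h v j
    have h4 := Our.le (E.O_our (y := algebraMap _ _ (ι b) * y ^ 2 + wp γ) hU
      (by rw [map_add, e1]; simp only [wp, map_add, map_pow, hγ]) (Λ v) j)
    have e2 : j (algebraMap _ _ (ι b) * y ^ 2 + wp γ) = wp (j γ + c) + u := by
      rw [map_add, map_mul, map_pow, j.commutes, h3, wp_add]
      simp only [wp, map_add, map_pow]
      ring
    rw [e2] at h4
    have h5 := sub_mem h4 (Our.le h1)
    rw [add_sub_cancel_right] at h5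
    have h6 := DF.Le.mul (DF.Le.of_wp h5 le_rfl (c := 0) (by simp))
      (Our.le ((Λ v).our_poly (derivative b))) (c := 0) (by simp)
    have h7 := sub_mem h6 (Our.le h2)
    rwa [add_mul, add_sub_cancel_right, ← j.commutes, ← map_mul] at h7
  have h0 := T.fl_ne hd
  refine ⟨C * T.fl b, T.p b * s ^ 2 + wp C, 0, 0, ?_, hU, zero_mem _, zero_mem _, ?_,
    ⟨0, zero_mem _, by simp⟩, ⟨_, hU, by simp⟩⟩
  · have e4 : T.p (od b) ^ 2 = T.p b * T.fl b := by
      rw [T.p_mul_fl hb0, derivative_eq_od, map_pow]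
    rw [ex, mul_pow, eint_id2 h0, e4, wp]
    grind
  · rw [zero_mul, add_zero, mul_left_comm, T.p_mul_fl hb0]
    exact hO

end Env

end Tw

end Pool.Agent.Lib.MP_788af2_nt.AS
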