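import Pool.Agent.Lib.MP_a3f657_nt.BK.GFin

/-!
Classification of cofinitely generated two-primary groups.
-/

set_option linter.unusedSectionVars false

namespace Pool.Agent.Lib.MP_788af2_nt.AS

open Pool.Agent.Lib.MP_a3f657_nt.Two Matrix

/-- The elements killed by two. -/
abbrev gdivT (A : Type) [AddCommGroup A] : AddSubgroup A := (nsmulAddMonoidHom 2 : A →+ A).ker

lemma gdiv_kill (A : Type) [AddCommGroup A] (x : gdivT A) : 2 ^ 1 • x = 0 :=
  Subtype.ext (by rw [pow_one]; exact x.2)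

lemma gdiv_tj (A : Type) [AddCommGroup A] : tj (gdivT A) 0 = tj A 0 := by
  rw [tj_zero, tj_zero]
  exact Nat.card_eq_of_bijective (fun c => ⟨c.1.1, c.1.2⟩)
    ⟨fun a b h => Subtype.ext (Subtype.ext (Subtype.mk.inj h)),
      fun c => ⟨⟨⟨c.1, c.2⟩, Subtype.ext c.2⟩, rfl⟩⟩

lemma gdiv_fin (A : Type) [AddCommGroup A] (h : tj A 0 ≠ 0) : Finite (gdivT A) := by
  rw [tj_zero] at h
  exact Nat.finite_of_card_ne_zero h

lemma gdiv_iso (A B : Type) [AddCommGroup A] [AddCommGroup B] (h : tj A 0 ≠ 0)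
    (e : tj A 0 = tj B 0) : Nonempty (gdivT A ≃+ gdivT B) := by
  have := gdiv_fin A h
  have := gdiv_fin B (e ▸ h)
  refine fin_cls 1 _ _ (gdiv_kill A) (gdiv_kill B) fun j => ?_
  rcases j with _ | j
  · rw [gdiv_tj, gdiv_tj, e]
  · rw [tj_of_kill fun x => by rw [pow_succ, mul_smul, ← pow_one 2, gdiv_kill, smul_zero],
      tj_of_kill fun x => by rw [pow_succ, mul_smul, ← pow_one 2, gdiv_kill, smul_zero]]

lemma gdiv_pi_tors {r : ℕ} (x : Fin r → Pru) : ∃ n : ℕ, 2 ^ n • x = 0 := by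
  choose n hn using fun i => pru_tors (x i)
  refine ⟨∑ i, n i, funext fun i => ?_⟩
  obtain ⟨m, hm⟩ := Nat.exists_eq_add_of_le'
    (Finset.single_le_sum (f := n) (fun _ _ => Nat.zero_le _) (Finset.mem_univ i))
  rw [Pi.smul_apply, hm, pow_add, mul_smul, hn, smul_zero, Pi.zero_apply]

lemma gdiv_pi_half {r : ℕ} (x : Fin r → Pru) : ∃ y, 2 • y = x := by
  choose y hy using fun i => pru_half (x i)
  exact ⟨y, funext hy⟩

theorem div_cls (D : Type) [AddCommGroup D] (h1 : ∀ x : D, ∃ n : ℕ, 2 ^ n • x = 0)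
    (h2 : ∀ x : D, ∃ y, 2 • y = x) {r : ℕ} (e : tj D 0 = 2 ^ r) :
    Nonempty (D ≃+ (Fin r → Pru)) := by
  obtain ⟨φ⟩ := gdiv_iso (Fin r → Pru) D (by rw [tj_pi_pru]; positivity) (by rw [tj_pi_pru, e])
  obtain ⟨f, hf⟩ := (baer_of_half h1 h2).extension_property_addMonoidHom
    (gdivT (Fin r → Pru)).subtype Subtype.val_injective ((gdivT D).subtype.comp φ.toAddMonoidHom)
  have hf' : ∀ x : gdivT (Fin r → Pru), f x = φ x := fun x => DFunLike.congr_fun hf x
  have hi : ∀ n : ℕ, ∀ x, 2 ^ n • x = 0 → f x = 0 → x = 0 := by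
    intro n
    induction n with
    | zero => intro x hx _; simpa using hx
    | succ n ih =>
      intro x hx h0
      refine ih x ?_ h0
      have hm : 2 ^ n • x ∈ gdivT (Fin r → Pru) := by
        change 2 • 2 ^ n • x = 0
        rw [← mul_smul, ← pow_succ', hx]
      have h3 : φ ⟨_, hm⟩ = 0 := Subtype.ext (by
        rw [← hf' ⟨_, hm⟩]
        change f (2 ^ n • x) = 0
        rw [map_nsmul, h0, smul_zero])
      exact congrArg Subtype.val (φ.map_eq_zero_iff.1 h3)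
  have hs : ∀ n : ℕ, ∀ y : D, 2 ^ n • y = 0 → ∃ x, f x = y := by
    intro n
    induction n with
    | zero => intro y hy; exact ⟨0, by rw [map_zero]; simpa using hy.symm⟩
    | succ n ih =>
      intro y hy
      obtain ⟨x, hx⟩ := ih (2 • y) (by rw [← mul_smul, ← pow_succ, hy])
      obtain ⟨x', rfl⟩ := gdiv_pi_half x
      have hm : y - f x' ∈ gdivT D := by
        change 2 • (y - f x') = 0
        rw [smul_sub, ← map_nsmul, hx, sub_self]
      refine ⟨φ.symm ⟨_, hm⟩ + x', ?_⟩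
      rw [map_add, hf', φ.apply_symm_apply, sub_add_cancel]
  refine ⟨(AddEquiv.ofBijective f ⟨(injective_iff_map_eq_zero f).2 fun x hx => ?_,
    fun y => ?_⟩).symm⟩
  · obtain ⟨n, hn⟩ := gdiv_pi_tors x
    exact hi n x hn hx
  · obtain ⟨n, hn⟩ := h1 y
    exact hs n y hn

lemma gdiv_finite (A : Type) [AddCommGroup A] (h : tj A 0 ≠ 0) {J : ℕ}
    (hJ : ∀ x : A, 2 ^ J • x = 0) : Finite A := by
  have h0 : {x : A | 2 • x = 0}.Finite := by
    rw [tj_zero] at h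
    exact Set.finite_coe_iff.1 (Nat.finite_of_card_ne_zero h)
  have k : ∀ n : ℕ, {x : A | 2 ^ n • x = 0}.Finite := by
    intro n
    induction n with
    | zero => exact (Set.finite_singleton 0).subset fun x hx => by simpa using hx
    | succ n ih =>
      refine Set.Finite.of_finite_fibers (fun x => 2 • x) (ih.subset ?_) ?_
      · rintro _ ⟨x, hx, rfl⟩
        change 2 ^ n • 2 • x = 0
        rw [← mul_smul, ← pow_succ]
        exact hx
      · rintro _ ⟨x, -, rfl⟩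
        refine (h0.image fun z => z + x).subset fun y hy => ⟨y - x, ?_, sub_add_cancel y x⟩
        change 2 • (y - x) = 0
        rw [smul_sub]
        exact sub_eq_zero.2 hy.2
  exact Set.finite_univ_iff.1 ((k J).subset fun x _ => hJ x)

lemma gdiv_stab (S : Type) [AddCommGroup S] {j : ℕ} (h0 : tj S j ≠ 0)
    (e : tj S (j + 1) = tj S j) (c : S) (hc : 2 • c = 0) (hd : ∃ c', 2 ^ j • c' = c) :
    ∃ c', 2 ^ (j + 1) • c' = c := by
  have hfin : {c : S | 2 • c = 0 ∧ ∃ c', 2 ^ j • c' = c}.Finite :=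
    Set.finite_coe_iff.1 (Nat.finite_of_card_ne_zero h0)
  have hsub : {c : S | 2 • c = 0 ∧ ∃ c', 2 ^ (j + 1) • c' = c} ⊆
      {c : S | 2 • c = 0 ∧ ∃ c', 2 ^ j • c' = c} := by
    rintro c ⟨h1, y, rfl⟩
    exact ⟨h1, 2 • y, by rw [← mul_smul, ← pow_succ]⟩
  have h3 := Set.eq_of_subset_of_ncard_le hsub (le_of_eq e.symm) hfin
  have h4 : c ∈ {c : S | 2 • c = 0 ∧ ∃ c', 2 ^ (j + 1) • c' = c} := h3 ▸ ⟨hc, hd⟩
  exact h4.2

lemma gdiv_up (S : Type) [AddCommGroup S] {J N : ℕ} (hN : N ≠ 0) (e : ∀ j, J ≤ j → tj S j = N)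
    (n : ℕ) : ∀ j, J ≤ j → ∀ y : S, 2 ^ n • 2 ^ j • y = 0 → ∃ z, 2 ^ (j + 1) • z = 2 ^ j • y := by
  induction n with
  | zero => intro j _ y hy; exact ⟨0, by rw [smul_zero]; simpa using hy.symm⟩
  | succ n ih =>
    intro j hj y hy
    obtain ⟨z, hz⟩ := ih (j + 1) (by omega) y (by
      rw [← hy, ← mul_smul, ← mul_smul, ← pow_add, ← pow_add, show n + (j + 1) = n + 1 + j by ring])
    obtain ⟨w, hw⟩ := gdiv_stab S (j := j) (by rw [e j hj]; exact hN)
      (by rw [e j hj, e (j + 1) (by omega)]) (2 ^ j • y - 2 ^ (j + 1) • z)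
      (by rw [smul_sub, ← mul_smul, ← mul_smul, ← pow_succ', ← pow_succ', hz, sub_self])
      ⟨y - 2 • z, by rw [smul_sub, ← mul_smul, ← pow_succ]⟩
    exact ⟨w + z, by rw [smul_add, hw, sub_add_cancel]⟩

theorem cof_cls (S Γ : Type) [AddCommGroup S] [AddCommGroup Γ] [Finite Γ] {J r : ℕ}
    (hΓ : ∀ x : Γ, 2 ^ J • x = 0) (h1 : ∀ x : S, ∃ n : ℕ, 2 ^ n • x = 0)
    (e : ∀ j, tj S j = 2 ^ r * tj Γ j) : Nonempty (S ≃+ (Fin r → Pru) × Γ) := by
  have e' : ∀ j, J ≤ j → tj S j = 2 ^ r := by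
    intro j hj
    obtain ⟨m, rfl⟩ := Nat.exists_eq_add_of_le' hj
    rw [e, tj_of_kill fun x => by rw [pow_add, mul_smul, hΓ, smul_zero], mul_one]
  set D := (nsmulAddMonoidHom (2 ^ J) : S →+ S).range
  have d1 : ∀ x : D, ∃ n : ℕ, 2 ^ n • x = 0 := fun x =>
    (h1 x.1).imp fun n hn => Subtype.ext hn
  have d2 : ∀ x : D, ∃ y, 2 • y = x := by
    rintro ⟨_, y, rfl⟩
    obtain ⟨n, hn⟩ := h1 (2 ^ J • y)
    obtain ⟨z, hz⟩ := gdiv_up S (by positivity) e' n J le_rfl y hn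
    refine ⟨⟨_, z, rfl⟩, Subtype.ext ?_⟩
    change 2 • 2 ^ J • z = 2 ^ J • y
    rw [← mul_smul, ← pow_succ', hz]
  have d3 : tj D 0 = 2 ^ r := by
    rw [← e' J le_rfl, tj_zero]
    exact Nat.card_eq_of_bijective (fun c => ⟨c.1.1, congrArg Subtype.val c.2, c.1.2⟩)
      ⟨fun a b h => Subtype.ext (Subtype.ext (Subtype.mk.inj h)),
        fun c => ⟨⟨⟨c.1, c.2.2⟩, Subtype.ext c.2.1⟩, rfl⟩⟩
  obtain ⟨ρ, hρ⟩ := (baer_of_half d1 d2).extension_property_addMonoidHom D.subtype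
    Subtype.val_injective (AddMonoidHom.id D)
  have hρ' : ∀ x : D, ρ x = x := fun x => DFunLike.congr_fun hρ x
  let g : D × ρ.ker →+ S := D.subtype.coprod ρ.ker.subtype
  have hg : ∀ x : D × ρ.ker, g x = x.1 + x.2 := fun x => rfl
  have hb : Function.Bijective g := by
    refine ⟨(injective_iff_map_eq_zero g).2 fun x hx => ?_, fun y => ?_⟩
    · have h2 : x.1 = 0 := by
        have h3 := congrArg ρ hx
        rwa [hg, map_add, hρ', (AddMonoidHom.mem_ker).1 x.2.2, add_zero, map_zero] at h3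
      rw [hg, h2, ZeroMemClass.coe_zero, zero_add] at hx
      exact Prod.ext h2 (Subtype.ext hx)
    · refine ⟨(ρ y, ⟨y - ρ y, ?_⟩), by rw [hg]; exact add_sub_cancel _ _⟩
      rw [AddMonoidHom.mem_ker, map_sub, hρ', sub_self]
  have k1 : ∀ x : ρ.ker, 2 ^ J • x = 0 := by
    intro x
    have h2 := hρ' ⟨2 ^ J • x.1, x.1, rfl⟩
    change ρ (2 ^ J • x.1) = _ at h2
    rw [map_nsmul, (AddMonoidHom.mem_ker).1 x.2, smul_zero] at h2
    exact Subtype.ext (congrArg Subtype.val h2).symm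
  have k2 : ∀ j, tj ρ.ker j = tj Γ j := by
    intro j
    have h2 := tj_congr (AddEquiv.ofBijective g hb) j
    rw [tj_prod, tj_of_div d2, d3, e] at h2
    exact Nat.eq_of_mul_eq_mul_left (by positivity) h2
  have := gdiv_finite ρ.ker (by rw [k2]; exact (tj_pos 0).ne') k1
  obtain ⟨a⟩ := div_cls D d1 d2 d3
  obtain ⟨b⟩ := fin_cls J _ _ k1 hΓ k2
  exact ⟨(AddEquiv.ofBijective g hb).symm.trans (a.prodCongr b)⟩

end Pool.Agent.Lib.MP_788af2_nt.AS
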