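import Pool.Agent.Lib.MP_a3f657_nt.WLawA

/-!
An identity of Euler.
-/

set_option linter.unusedSectionVars false

namespace Pool.Agent.Lib.MP_788af2_nt.AS

open Pool.Agent.Lib.MP_a3f657_nt.Two

private theorem geul_sum (a b : ℕ) (ha : 0 < a) :
    Summable fun i : ℕ => (2 : ℝ)⁻¹ ^ (a * i + b) := by
  have h : Summable fun i : ℕ => ((2 : ℝ)⁻¹ ^ a) ^ i * (2 : ℝ)⁻¹ ^ b :=
    (summable_geometric_of_lt_one (by positivity)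
      (pow_lt_one₀ (by norm_num) (by norm_num) ha.ne')).mul_right _
  refine h.congr fun i => ?_
  rw [pow_add, pow_mul]

private theorem geul_add (a b : ℕ) (ha : 0 < a) :
    Multipliable fun i : ℕ => 1 + (2 : ℝ)⁻¹ ^ (a * i + b) :=
  Real.multipliable_one_add_of_summable (geul_sum a b ha)

private theorem geul_sub (a b : ℕ) (ha : 0 < a) :
    Multipliable fun i : ℕ => 1 - (2 : ℝ)⁻¹ ^ (a * i + b) := by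
  have h := Real.multipliable_one_add_of_summable (geul_sum a b ha).neg
  refine h.congr fun i => ?_
  ring

private theorem geul_ne : ∏' i : ℕ, (1 - (2 : ℝ)⁻¹ ^ (2 * i + 2)) ≠ 0 := by
  have h := tprod_one_add_ne_zero_of_summable (f := fun i : ℕ => -(2 : ℝ)⁻¹ ^ (2 * i + 2))
    (fun i => by
      have : (2 : ℝ)⁻¹ ^ (2 * i + 2) < 1 := pow_lt_one₀ (by norm_num) (by norm_num) (by omega)
      linarith)
    ((geul_sum 2 2 two_pos).neg.norm)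
  have e : (fun i : ℕ => 1 - (2 : ℝ)⁻¹ ^ (2 * i + 2)) =
      fun i : ℕ => 1 + -(2 : ℝ)⁻¹ ^ (2 * i + 2) := funext fun i => by ring
  rw [e]
  exact h

private theorem geul_key : (∏' j : ℕ, (1 + (2 : ℝ)⁻¹ ^ (j + 1))) *
    ∏' i : ℕ, (1 - (2 : ℝ)⁻¹ ^ (2 * i + 1)) = 1 := by
  have hA : Multipliable fun j : ℕ => 1 + (2 : ℝ)⁻¹ ^ (j + 1) := by
    simpa using geul_add 1 1 one_pos
  have hB : Multipliable fun j : ℕ => 1 - (2 : ℝ)⁻¹ ^ (j + 1) := by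
    simpa using geul_sub 1 1 one_pos
  have h1 : (∏' j : ℕ, (1 + (2 : ℝ)⁻¹ ^ (j + 1))) * ∏' j : ℕ, (1 - (2 : ℝ)⁻¹ ^ (j + 1)) =
      ∏' i : ℕ, (1 - (2 : ℝ)⁻¹ ^ (2 * i + 2)) := by
    rw [← hA.tprod_mul hB]
    refine tprod_congr fun j => ?_
    have : (2 : ℝ)⁻¹ ^ (2 * j + 2) = ((2 : ℝ)⁻¹ ^ (j + 1)) ^ 2 := by
      rw [← pow_mul]
      congr 1
      ring
    rw [this]
    ring
  have h2 : (∏' i : ℕ, (1 - (2 : ℝ)⁻¹ ^ (2 * i + 1))) *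
      ∏' i : ℕ, (1 - (2 : ℝ)⁻¹ ^ (2 * i + 2)) = ∏' j : ℕ, (1 - (2 : ℝ)⁻¹ ^ (j + 1)) :=
    tprod_even_mul_odd (f := fun j : ℕ => 1 - (2 : ℝ)⁻¹ ^ (j + 1)) (geul_sub 2 1 two_pos)
      (geul_sub 2 2 two_pos)
  refine mul_right_cancel₀ geul_ne ?_
  rw [mul_assoc, h2, h1, one_mul]

theorem euler_odd : (∏' j : ℕ, (1 + (2 : ℝ)⁻¹ ^ j))⁻¹ =
    1 / 2 * ∏' i : ℕ, (1 - (2 : ℝ)⁻¹ ^ (2 * i + 1)) := by
  have hA : Multipliable fun j : ℕ => 1 + (2 : ℝ)⁻¹ ^ (j + 1) := by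
    simpa using geul_add 1 1 one_pos
  have h0 : ∏' j : ℕ, (1 + (2 : ℝ)⁻¹ ^ j) =
      (1 + (2 : ℝ)⁻¹ ^ 0) * ∏' j : ℕ, (1 + (2 : ℝ)⁻¹ ^ (j + 1)) :=
    tprod_eq_zero_mul' (f := fun j : ℕ => 1 + (2 : ℝ)⁻¹ ^ j) hA
  refine inv_eq_of_mul_eq_one_right ?_
  rw [h0, pow_zero]
  linear_combination geul_key

theorem euler_odd' : ∏' i : ℕ, (1 - (2 : ℝ)⁻¹ ^ (2 * i + 1)) =
    1 / 2 * ∏' i : ℕ, (1 - (2 : ℝ)⁻¹ ^ (2 * (i + 1) + 1)) := by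
  have hA : Multipliable fun i : ℕ => 1 - (2 : ℝ)⁻¹ ^ (2 * (i + 1) + 1) :=
    geul_sub 2 3 two_pos
  have h0 : ∏' i : ℕ, (1 - (2 : ℝ)⁻¹ ^ (2 * i + 1)) =
      (1 - (2 : ℝ)⁻¹ ^ (2 * 0 + 1)) * ∏' i : ℕ, (1 - (2 : ℝ)⁻¹ ^ (2 * (i + 1) + 1)) :=
    tprod_eq_zero_mul' (f := fun i : ℕ => 1 - (2 : ℝ)⁻¹ ^ (2 * i + 1)) hA
  rw [h0]
  norm_num

end Pool.Agent.Lib.MP_788af2_nt.AS
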