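import Pool.Agent.Lib.MP_a3f657_nt.BK.GBas

/-!
Classification of finite two-groups by the invariants.
-/

set_option linter.unusedSectionVars false

namespace Pool.Agent.Lib.MP_788af2_nt.AS

open Pool.Agent.Lib.MP_a3f657_nt.Two Matrix

private lemma gfin_pi {ι : Type} [Fintype ι] (A : ι → Type) [∀ i, AddCommGroup (A i)] (j : ℕ) :
    tj (∀ i, A i) j = ∏ i, tj (A i) j := by
  unfold tj
  rw [← Nat.card_pi]
  refine Nat.card_congr ((Equiv.subtypeEquivRight fun c => ?_).trans Equiv.subtypePiEquivPi)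
  constructor
  · rintro ⟨h1, c', h2⟩ i
    exact ⟨congrFun h1 i, c' i, congrFun h2 i⟩
  · intro h
    choose c' hc using fun i => (h i).2
    exact ⟨funext fun i => (h i).1, c', funext hc⟩

private lemma gfin_dec (J : ℕ) (S : Type) [AddCommGroup S] [Finite S]
    (h : ∀ x : S, 2 ^ J • x = 0) : ∃ (ι : Type) (_ : Fintype ι) (e : ι → ℕ), (∀ i, 0 < e i) ∧
      Nonempty (S ≃+ ∀ i, ZMod (2 ^ e i)) := by
  classical
  obtain ⟨ι, _, n, hn, ⟨f⟩⟩ := AddCommGroup.equiv_directSum_zmod_of_finite' S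
  have g := f.trans (DirectSum.addEquivProd _)
  have h1 : ∀ i, ∃ e, 0 < e ∧ n i = 2 ^ e := fun i => by
    have h2 := congrFun (congrArg g (h (g.symm (Pi.single i 1)))) i
    rw [map_nsmul, AddEquiv.apply_symm_apply, map_zero, Pi.smul_apply, Pi.single_eq_same,
      Pi.zero_apply, nsmul_eq_mul, mul_one, ZMod.natCast_eq_zero_iff] at h2
    obtain ⟨e, -, he⟩ := (Nat.dvd_prime_pow Nat.prime_two).1 h2
    refine ⟨e, Nat.pos_of_ne_zero ?_, he⟩
    rintro rfl
    exact (hn i).ne' he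
  choose e he1 he2 using h1
  exact ⟨ι, inferInstance, e, he1,
    ⟨g.trans (AddEquiv.piCongrRight fun i => (ZMod.ringEquivCongr (he2 i)).toAddEquiv)⟩⟩

private lemma gfin_tj {ι : Type} [Fintype ι] (e : ι → ℕ) (j : ℕ) :
    tj (∀ i, ZMod (2 ^ e i)) j = 2 ^ (Finset.univ.filter fun i => j < e i).card := by
  rw [gfin_pi]
  simp only [tj_zmod]
  rw [Finset.prod_ite, Finset.prod_const, Finset.prod_const_one, mul_one]

private lemma gfin_step {ι : Type} [Fintype ι] (e : ι → ℕ) (j : ℕ) :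
    (Finset.univ.filter fun i => j < e i).card = (Finset.univ.filter fun i => j + 1 < e i).card +
      Fintype.card {i // e i = j + 1} := by
  classical
  rw [Fintype.card_subtype, ← Finset.card_union_of_disjoint, ← Finset.filter_or]
  · exact congrArg _ (Finset.filter_congr fun i _ => by omega)
  · exact Finset.disjoint_filter.2 fun i _ h => by omega

theorem fin_cls (J : ℕ) (S S' : Type) [AddCommGroup S] [AddCommGroup S'] [Finite S] [Finite S']
    (h : ∀ x : S, 2 ^ J • x = 0) (h' : ∀ x : S', 2 ^ J • x = 0) (e : ∀ j, tj S j = tj S' j) :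
    Nonempty (S ≃+ S') := by
  obtain ⟨ι, _, a, ha, ⟨f⟩⟩ := gfin_dec J S h
  obtain ⟨ι', _, a', ha', ⟨f'⟩⟩ := gfin_dec J S' h'
  have h1 : ∀ j, (Finset.univ.filter fun i => j < a i).card =
      (Finset.univ.filter fun i => j < a' i).card := fun j => by
    have := e j
    rw [tj_congr f, tj_congr f', gfin_tj, gfin_tj] at this
    exact Nat.pow_right_injective le_rfl this
  have h2 : ∀ j, Nonempty ({i // a i = j} ≃ {i // a' i = j}) := fun j => by
    rw [← Fintype.card_eq]
    rcases j with _ | j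
    · rw [Fintype.card_eq_zero_iff.2 ⟨fun x => (ha x.1).ne' x.2⟩,
        Fintype.card_eq_zero_iff.2 ⟨fun x => (ha' x.1).ne' x.2⟩]
    · have h3 := gfin_step a j
      have h4 := gfin_step a' j
      have h5 := h1 j
      have h6 := h1 (j + 1)
      omega
  let σ : ι ≃ ι' := Equiv.ofFiberEquiv fun j => (h2 j).some
  have hσ : ∀ i, a' (σ i) = a i := fun i => Equiv.ofFiberEquiv_map _ i
  let g : (∀ i, ZMod (2 ^ a' (σ i))) ≃+ ∀ i, ZMod (2 ^ a' i) :=
    (LinearEquiv.piCongrLeft ℤ (fun i => ZMod (2 ^ a' i)) σ).toAddEquiv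
  exact ⟨(f.trans ((AddEquiv.piCongrRight fun i =>
    (ZMod.ringEquivCongr (by rw [hσ])).toAddEquiv).trans g)).trans f'.symm⟩

end Pool.Agent.Lib.MP_788af2_nt.AS
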