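import Pool.Agent.Lib.MP_a3f657_nt.BK.GSp2

/-!
The order of the symplectic group.
-/

set_option linter.unusedSectionVars false

namespace Pool.Agent.Lib.MP_788af2_nt.AS

open Pool.Agent.Lib.MP_a3f657_nt.Two Matrix

private lemma gsp3_two (e J : ℕ) (h : e ≤ J) :
    ∏ j ∈ Finset.range J, (if j < e then (2 : ℝ) else 1) = 2 ^ e := by
  rw [Finset.prod_ite, Finset.prod_const_one, mul_one, Finset.prod_const]
  congr 1
  have : (Finset.range J).filter (fun j => j < e) = Finset.range e := by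
    ext j
    simp only [Finset.mem_filter, Finset.mem_range]
    omega
  rw [this, Finset.card_range]

private lemma gsp3_term (g' : ℕ → ℕ) (e : ℕ) (hz : ∀ j, e + 1 ≤ j → g' j = 0) (j : ℕ) :
    (2 : ℝ) ^ ((g' j + if j < e + 1 then 1 else 0) * (2 * (g' j + if j < e + 1 then 1 else 0) + 1)) *
        et2 ((g' j + if j < e + 1 then 1 else 0) - (g' (j + 1) + if j + 1 < e + 1 then 1 else 0)) *
        (if j < e + 1 then (2 : ℝ) else 1) =
      (2 : ℝ) ^ (g' j * (2 * g' j + 1)) * et2 (g' j - g' (j + 1)) *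
        ((4 : ℝ) ^ (g' j + if j < e + 1 then 1 else 0)) ^ 2 *
        (if j = e then 1 - (4 : ℝ)⁻¹ ^ (g' e + 1) else 1) := by
  have key : ∀ a : ℕ, (2 : ℝ) ^ ((a + 1) * (2 * (a + 1) + 1)) * 2 =
      (2 : ℝ) ^ (a * (2 * a + 1)) * ((4 : ℝ) ^ (a + 1)) ^ 2 := by
    intro a
    have h4 : (4 : ℝ) = 2 ^ 2 := by norm_num
    rw [h4, ← pow_mul, ← pow_mul, ← pow_add, ← pow_succ]
    congr 1
    ring
  rcases lt_trichotomy j e with hj | hj | hj
  · have h1 : j < e + 1 := by omega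
    have h2 : j + 1 < e + 1 := by omega
    have h3 : j ≠ e := by omega
    simp only [h1, h2, h3, if_true, if_false, Nat.add_sub_add_right, mul_one]
    have := key (g' j)
    calc (2 : ℝ) ^ ((g' j + 1) * (2 * (g' j + 1) + 1)) * et2 (g' j - g' (j + 1)) * 2
        = ((2 : ℝ) ^ ((g' j + 1) * (2 * (g' j + 1) + 1)) * 2) * et2 (g' j - g' (j + 1)) := by ring
      _ = _ := by rw [this]; ring
  · subst hj
    have h1 : j < j + 1 := by omega
    have h2 : ¬ (j + 1 < j + 1) := by omega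
    have h0 : g' (j + 1) = 0 := hz _ le_rfl
    simp only [h1, h2, h0, if_true, if_false, add_zero, Nat.sub_zero]
    have h5 : et2 (g' j + 1) = et2 (g' j) * (1 - (4 : ℝ)⁻¹ ^ (g' j + 1)) := by
      unfold et2
      rw [Finset.prod_range_succ]
    have := key (g' j)
    rw [h5]
    calc (2 : ℝ) ^ ((g' j + 1) * (2 * (g' j + 1) + 1)) *
          (et2 (g' j) * (1 - (4 : ℝ)⁻¹ ^ (g' j + 1))) * 2
        = ((2 : ℝ) ^ ((g' j + 1) * (2 * (g' j + 1) + 1)) * 2) *
          (et2 (g' j) * (1 - (4 : ℝ)⁻¹ ^ (g' j + 1))) := by ring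
      _ = _ := by rw [this]; ring
  · have h1 : ¬ (j < e + 1) := by omega
    have h2 : ¬ (j + 1 < e + 1) := by omega
    have h3 : j ≠ e := by omega
    have h0 : g' j = 0 := hz _ (by omega)
    simp [h1, h2, h3, h0]

private theorem gsp3_aux (J : ℕ) : ∀ (n : ℕ) (Γ : Type) [AddCommGroup Γ] [Finite Γ]
    (ω : Γ →+ Γ →+ AddCircle (1 : ℚ)), Nat.card Γ = n → Symp ω → (∀ z : Γ, 2 ^ J • z = 0) →
    ∃ g : ℕ → ℕ, (∀ j, tj Γ j = 4 ^ g j) ∧
      (∀ j, g (j + 1) ≤ g j) ∧ (nSp ω : ℝ) =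
        ∏ j ∈ Finset.range J, (2 : ℝ) ^ (g j * (2 * g j + 1)) * et2 (g j - g (j + 1)) := by
  intro n
  induction n using Nat.strong_induction_on with
  | _ n ih =>
  intro Γ _ _ ω hn h hJ
  classical
  have hex : ∃ E : ℕ, ∀ z : Γ, 2 ^ E • z = 0 := ⟨J, hJ⟩
  have hE := Nat.find_spec hex
  have hEJ : Nat.find hex ≤ J := Nat.find_min' hex hJ
  cases hfe : Nat.find hex with
  | zero =>
    rw [hfe] at hE
    have hz : ∀ z : Γ, z = 0 := fun z => by simpa using hE z
    refine ⟨fun _ => 0, fun j => ?_, fun _ => le_rfl, ?_⟩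
    · rw [tj_of_kill (fun x => by rw [hz x, smul_zero])]
      simp
    · have h1 : nSp ω = 1 := by
        unfold nSp
        rw [Nat.card_eq_one_iff_unique]
        refine ⟨⟨fun f f' => ?_⟩, ⟨⟨AddEquiv.refl Γ, fun _ _ => rfl⟩⟩⟩
        apply Subtype.ext
        ext z
        rw [hz (f.1 z), hz (f'.1 z)]
      rw [h1]
      simp [et2]
  | succ e =>
    rw [hfe] at hE hEJ
    have hmin : ¬ ∀ z : Γ, 2 ^ e • z = 0 := Nat.find_min hex (by omega)
    obtain ⟨x, hx⟩ := not_forall.mp hmin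
    obtain ⟨y, hxy⟩ := h.exists_pair hE hx
    have hP := h.perp hE hxy
    have hcard := h.card_perp hE hxy
    have hpos : 0 < Nat.card (AS.perp ω x y) := Nat.card_pos
    have hlt : Nat.card (AS.perp ω x y) < n := by
      rw [← hn, hcard]
      have : 1 < 4 ^ (e + 1) := Nat.one_lt_pow (by omega) (by norm_num)
      nlinarith
    have hkill : ∀ j, e + 1 ≤ j → ∀ z : AS.perp ω x y, 2 ^ j • z = 0 := by
      intro j hj z
      apply Subtype.ext
      obtain ⟨i, rfl⟩ := Nat.exists_eq_add_of_le hj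
      have : (2 ^ (e + 1 + i) • (z : Γ)) = 0 := by
        rw [pow_add, mul_comm, mul_smul, hE, smul_zero]
      simpa using this
    obtain ⟨g', hg1, hg2, hg3⟩ := ih _ hlt (AS.perp ω x y) (resP ω (AS.perp ω x y)) rfl hP
      (hkill J hEJ)
    have hz : ∀ j, e + 1 ≤ j → g' j = 0 := by
      intro j hj
      have h1 := hg1 j
      rw [tj_of_kill (hkill j hj)] at h1
      rcases Nat.eq_zero_or_pos (g' j) with h0 | h0
      · exact h0
      · have : 1 < 4 ^ g' j := Nat.one_lt_pow (by omega) (by norm_num)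
        omega
    have htj : ∀ j, tj Γ j = 4 ^ (g' j + if j < e + 1 then 1 else 0) := by
      intro j
      rw [h.tj_perp hE hxy j, hg1 j]
      split_ifs
      · rw [pow_succ, mul_comm]
      · simp
    refine ⟨fun j => g' j + if j < e + 1 then 1 else 0, htj, fun j => ?_, ?_⟩
    · have := hg2 j
      show (g' (j + 1) + if j + 1 < e + 1 then 1 else 0) ≤ g' j + if j < e + 1 then 1 else 0
      split_ifs <;> omega
    · have hprod := Finset.prod_congr (s₁ := Finset.range J) rfl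
        (fun j _ => gsp3_term g' e hz j)
      rw [Finset.prod_mul_distrib, gsp3_two _ _ hEJ,
        Finset.prod_mul_distrib (g := fun j =>
          if j = e then 1 - (4 : ℝ)⁻¹ ^ (g' e + 1) else 1),
        Finset.prod_mul_distrib (g := fun j =>
          ((4 : ℝ) ^ (g' j + if j < e + 1 then 1 else 0)) ^ 2), ← hg3, Finset.prod_pow,
        Finset.prod_ite_eq', if_pos (Finset.mem_range.mpr (by omega))] at hprod
      have hc : (Nat.card Γ : ℝ) =
          ∏ j ∈ Finset.range J, (4 : ℝ) ^ (g' j + if j < e + 1 then 1 else 0) := by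
        rw [card_eq_prod_tj hJ]
        push_cast
        refine Finset.prod_congr rfl fun j _ => ?_
        rw [htj j]
        push_cast
        rfl
      rw [← hc] at hprod
      have hpairs := h.card_pairs hE
      have hte : tj Γ e = 4 ^ (g' e + 1) := by
        rw [htj e, if_pos (by omega)]
      rw [hte] at hpairs
      have h1le : 1 ≤ 4 ^ (g' e + 1) := Nat.one_le_pow _ _ (by norm_num)
      have hpr : (Nat.card {q : Γ × Γ // ω q.1 q.2 = ue (e + 1)} : ℝ) * 2 ^ (e + 1) *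
          4 ^ (g' e + 1) = (Nat.card Γ : ℝ) ^ 2 * (4 ^ (g' e + 1) - 1) := by
        have := congrArg (Nat.cast : ℕ → ℝ) hpairs
        rw [Nat.cast_mul, Nat.cast_mul, Nat.cast_mul, Nat.cast_sub h1le] at this
        push_cast at this
        exact this
      have hrec := h.nSp_rec hE hxy
      have h2 : (2 : ℝ) ^ (e + 1) ≠ 0 := by positivity
      have h4 : (4 : ℝ) ^ (g' e + 1) ≠ 0 := by positivity
      have hpr' : (Nat.card {q : Γ × Γ // ω q.1 q.2 = ue (e + 1)} : ℝ) * 2 ^ (e + 1) =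
          (Nat.card Γ : ℝ) ^ 2 * (1 - (4 : ℝ)⁻¹ ^ (g' e + 1)) := by
        apply mul_right_cancel₀ h4
        rw [hpr, inv_pow, mul_assoc, sub_mul, one_mul, inv_mul_cancel₀ h4]
      apply mul_right_cancel₀ h2
      rw [hprod, hrec]
      push_cast
      calc (Nat.card {q : Γ × Γ // ω q.1 q.2 = ue (e + 1)} : ℝ) *
            (nSp (resP ω (AS.perp ω x y)) : ℝ) * 2 ^ (e + 1)
          = (nSp (resP ω (AS.perp ω x y)) : ℝ) *
            ((Nat.card {q : Γ × Γ // ω q.1 q.2 = ue (e + 1)} : ℝ) * 2 ^ (e + 1)) := by ring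
        _ = _ := by rw [hpr']; ring

theorem Symp.count {Γ : Type} [AddCommGroup Γ] [Finite Γ] {ω : Γ →+ Γ →+ AddCircle (1 : ℚ)}
    (h : Symp ω) {J : ℕ} (hJ : ∀ z : Γ, 2 ^ J • z = 0) : ∃ g : ℕ → ℕ, (∀ j, tj Γ j = 4 ^ g j) ∧
      (∀ j, g (j + 1) ≤ g j) ∧ (nSp ω : ℝ) =
        ∏ j ∈ Finset.range J, (2 : ℝ) ^ (g j * (2 * g j + 1)) * et2 (g j - g (j + 1)) :=
  gsp3_aux J _ Γ ω rfl h hJ

end Pool.Agent.Lib.MP_788af2_nt.AS
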