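import Pool.Agent.Lib.MP_a3f657_nt.BK.GEul
import Pool.Agent.Lib.MP_a3f657_nt.BK.GSp3
import Pool.Agent.Lib.MP_a3f657_nt.BK.APf

/-!
The value of the limit law.
-/

set_option linter.unusedSectionVars false

namespace Pool.Agent.Lib.MP_788af2_nt.AS

open Pool.Agent.Lib.MP_a3f657_nt.Two Matrix

private lemma gform_et1_pos (n : ℕ) : 0 < et1 n :=
  Finset.prod_pos fun i _ =>
    sub_pos.2 (pow_lt_one₀ (by norm_num) (by norm_num) (Nat.succ_ne_zero i))

private lemma gform_et2_pos (n : ℕ) : 0 < et2 n :=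
  Finset.prod_pos fun i _ =>
    sub_pos.2 (pow_lt_one₀ (by norm_num) (by norm_num) (Nat.succ_ne_zero i))

private lemma gform_prod (s : ℕ) : ∏ i ∈ Finset.range s, 2 / ((2 : ℝ) ^ (i + 1) - 1) =
    (2 : ℝ)⁻¹ ^ s.choose 2 / et1 s := by
  induction s with
  | zero => simp [et1]
  | succ s ih =>
    have h1 : (s + 1).choose 2 = s.choose 2 + s := by
      rw [Nat.choose_succ_succ' s 1, Nat.choose_one_right, add_comm]
    have h2 : et1 (s + 1) = et1 s * (1 - (2 : ℝ)⁻¹ ^ (s + 1)) := Finset.prod_range_succ _ _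
    have h3 := (gform_et1_pos s).ne'
    have h4 := (Win.LawA.den_pos s).ne'
    have h5 : (1 - (2 : ℝ)⁻¹ ^ (s + 1)) = (2 ^ (s + 1) - 1) / 2 ^ (s + 1) := by
      rw [inv_pow]
      field_simp
    rw [Finset.prod_range_succ, ih, h1, h2, h5, pow_add (2 : ℝ)⁻¹, inv_pow (2 : ℝ) s]
    field_simp
    ring

private lemma gform_Pa {r a b : ℕ} (h : b ≤ a) : Pa (r + 2 * a) (r + 2 * b) =
    (2 : ℝ)⁻¹ ^ (r + 2 * b).choose 2 * et1 (r + 2 * a) / (et1 (r + 2 * b) * et2 (a - b)) := by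
  have h1 : (r + 2 * a - (r + 2 * b)) / 2 = a - b := by omega
  rw [Pa, if_pos ⟨by omega, by omega⟩, h1]

private lemma gform_tel (r : ℕ) (g : ℕ → ℕ) (hg : ∀ j, g (j + 1) ≤ g j) (J : ℕ) :
    (2 : ℝ)⁻¹ ^ (r + 2 * g 0).choose 2 / et1 (r + 2 * g 0) *
        ∏ j ∈ Finset.range J, Pa (r + 2 * g j) (r + 2 * g (j + 1)) =
      (∏ j ∈ Finset.range J, (2 : ℝ)⁻¹ ^ (r + 2 * g j).choose 2 / et2 (g j - g (j + 1))) *
        ((2 : ℝ)⁻¹ ^ (r + 2 * g J).choose 2 / et1 (r + 2 * g J)) := by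
  induction J with
  | zero => simp
  | succ J ih =>
    have h1 := (gform_et1_pos (r + 2 * g J)).ne'
    have h2 := (gform_et1_pos (r + 2 * g (J + 1))).ne'
    have h3 := (gform_et2_pos (g J - g (J + 1))).ne'
    rw [Finset.prod_range_succ, Finset.prod_range_succ, ← mul_assoc, ih, gform_Pa (hg J)]
    field_simp

private lemma gform_choose1 (g : ℕ) : (1 + 2 * g).choose 2 = g * (2 * g + 1) := by
  induction g with
  | zero => rfl
  | succ g ih =>
    have h1 : 1 + 2 * (g + 1) = 1 + 2 * g + 1 + 1 := by ring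
    rw [h1, Nat.choose_succ_succ' _ 1, Nat.choose_succ_succ' (1 + 2 * g) 1, ih,
      Nat.choose_one_right, Nat.choose_one_right]
    ring

private lemma gform_choose0 (g : ℕ) : (0 + 2 * g).choose 2 + 2 * g = g * (2 * g + 1) := by
  rw [← gform_choose1, add_comm 1 (2 * g), Nat.choose_succ_succ' _ 1, Nat.choose_one_right,
    zero_add, add_comm]

theorem law_value {Γ : Type} [AddCommGroup Γ] [Finite Γ] {ω : Γ →+ Γ →+ AddCircle (1 : ℚ)}
    (h : Symp ω) {J : ℕ} (hJ : ∀ z : Γ, 2 ^ J • z = 0) {r : ℕ} (hr : r ≤ 1) (e : ℕ → ℕ)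
    (he : ∀ j, 2 ^ e j = 2 ^ r * tj Γ j) :
    Win.PR (e 0) * ∏ j ∈ Finset.range J, Pa (e j) (e (j + 1)) =
      (Nat.card Γ : ℝ) ^ (1 - (r : ℤ)) / nSp ω *
        (1 / 2 * ∏' i : ℕ, (1 - (2 : ℝ)⁻¹ ^ (2 * (i + r) + 1))) := by
  obtain ⟨g, hg1, hg2, hg3⟩ := h.count hJ
  have hfour : ∀ a : ℕ, (4 : ℕ) ^ a = 2 ^ (2 * a) := fun a => by rw [pow_mul]; norm_num
  have he' : e = fun j => r + 2 * g j := by
    funext j
    have h1 := he j
    rw [hg1, hfour, ← pow_add] at h1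
    exact Nat.pow_right_injective le_rfl h1
  have hgJ : g J = 0 := by
    have h1 := hg1 J
    rw [tj_of_kill hJ] at h1
    exact (Nat.pow_eq_one.1 h1.symm).resolve_left (by norm_num)
  have hc : (Nat.card Γ : ℝ) = ∏ j ∈ Finset.range J, (2 : ℝ) ^ (2 * g j) := by
    rw [card_eq_prod_tj hJ, Nat.cast_prod]
    refine Finset.prod_congr rfl fun j _ => ?_
    rw [hg1, hfour]
    norm_cast
  subst he'
  rw [Win.PR, gform_prod, mul_assoc, gform_tel r g hg2 J, hgJ, euler_odd, hg3]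
  interval_cases r
  · have h1 : ∏ j ∈ Finset.range J, (2 : ℝ)⁻¹ ^ (0 + 2 * g j).choose 2 / et2 (g j - g (j + 1)) =
        (Nat.card Γ : ℝ) / ∏ j ∈ Finset.range J,
          (2 : ℝ) ^ (g j * (2 * g j + 1)) * et2 (g j - g (j + 1)) := by
      rw [hc, ← Finset.prod_div_distrib]
      refine Finset.prod_congr rfl fun j _ => ?_
      have h3 := (gform_et2_pos (g j - g (j + 1))).ne'
      rw [← gform_choose0, pow_add, inv_pow]
      field_simp
    rw [h1]
    simp only [et1, add_zero, mul_zero, Nat.cast_zero, sub_zero, zpow_one, Finset.prod_range_zero,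
      Nat.choose_zero_succ, pow_zero, div_one, mul_one]
    ring
  · have h1 : ∏ j ∈ Finset.range J, (2 : ℝ)⁻¹ ^ (1 + 2 * g j).choose 2 / et2 (g j - g (j + 1)) =
        1 / ∏ j ∈ Finset.range J, (2 : ℝ) ^ (g j * (2 * g j + 1)) * et2 (g j - g (j + 1)) := by
      rw [one_div, ← Finset.prod_inv_distrib]
      refine Finset.prod_congr rfl fun j _ => ?_
      rw [gform_choose1, inv_pow, mul_inv, div_eq_mul_inv]
    have h2 : (2 : ℝ)⁻¹ ^ (1 + 2 * 0).choose 2 / et1 (1 + 2 * 0) = 2 := by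
      norm_num [et1, Nat.choose]
    rw [h1, h2, euler_odd']
    simp only [Nat.cast_one, sub_self, zpow_zero]
    ring

theorem law_small {r J : ℕ} (hr : 2 ≤ r) (e : ℕ → ℕ) (he : ∀ j, J ≤ j → e j = r) (n : ℕ) :
    Win.PR (e 0) * ∏ j ∈ Finset.range (J + n), Pa (e j) (e (j + 1)) ≤ (2 : ℝ)⁻¹ ^ n := by
  have h0 : ∀ s, 0 ≤ Win.PR s := fun s => by
    rw [Win.LawA.PR_eq]
    exact mul_nonneg (inv_nonneg.2 Win.LawA.gf_two_pos.le)
      (mul_nonneg (Win.LawA.cf_pos s).le (by positivity))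
  induction n with
  | zero =>
    rw [pow_zero]
    refine mul_le_one₀ (le_hasSum Win.lawA.1 (e 0) fun s _ => h0 s)
      (Finset.prod_nonneg fun j _ => Pa_nonneg _ _) ?_
    exact Finset.prod_le_one (fun j _ => Pa_nonneg _ _) fun j _ => Pa_le_one _ _
  | succ n ih =>
    have h1 : Pa (e (J + n)) (e (J + n + 1)) ≤ 2⁻¹ := by
      rw [he _ (by omega), he _ (by omega), Pa_self]
      exact pow_le_of_le_one (by norm_num) (by norm_num) (Nat.choose_pos hr).ne'
    rw [← add_assoc, Finset.prod_range_succ, ← mul_assoc, pow_succ]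
    exact mul_le_mul ih h1 (Pa_nonneg _ _) (by positivity)

end Pool.Agent.Lib.MP_788af2_nt.AS
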