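import Pool.Agent.Lib.MP_a3f657_nt.BK.GBas

/-!
Hyperbolic pairs in symplectic groups.
-/

set_option linter.unusedSectionVars false

namespace Pool.Agent.Lib.MP_788af2_nt.AS

open Pool.Agent.Lib.MP_a3f657_nt.Two Matrix

variable {Γ : Type} [AddCommGroup Γ]

/-- A nondegenerate alternating pairing. -/
structure Symp (ω : Γ →+ Γ →+ AddCircle (1 : ℚ)) : Prop where
  alt : ∀ x, ω x x = 0
  nd : ∀ x, (∀ y, ω x y = 0) → x = 0

/-- The class of `2 ^ (-e)`. -/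
def ue (e : ℕ) : AddCircle (1 : ℚ) := ((1 / 2 ^ e : ℚ) : AddCircle (1 : ℚ))

/-- The orthogonal complement of a pair. -/
def perp (ω : Γ →+ Γ →+ AddCircle (1 : ℚ)) (x y : Γ) : AddSubgroup Γ := (ω x).ker ⊓ (ω y).ker

/-- The restriction of the pairing. -/
def resP (ω : Γ →+ Γ →+ AddCircle (1 : ℚ)) (U : AddSubgroup Γ) : U →+ U →+ AddCircle (1 : ℚ) :=
  (ω.comp U.subtype).compl₂ U.subtype

variable {ω : Γ →+ Γ →+ AddCircle (1 : ℚ)} {x y : Γ} {e : ℕ}

lemma resP_apply (U : AddSubgroup Γ) (a b : U) : resP ω U a b = ω a b := rfl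

lemma gsp1_smul (a : ℤ) (e : ℕ) :
    a • ue e = ((a / 2 ^ e : ℚ) : AddCircle (1 : ℚ)) := by
  rw [ue, ← AddCircle.coe_zsmul, zsmul_eq_mul, mul_one_div]

lemma gsp1_mul {c : AddCircle (1 : ℚ)} (h : 2 ^ e • c = 0) : ∃ a : ℤ, c = a • ue e := by
  obtain ⟨m, -, h3⟩ := (AddCircle.nsmul_eq_zero_iff (pow_pos two_pos e)).1 h
  refine ⟨m, ?_⟩
  rw [gsp1_smul, ← h3]
  congr 1
  push_cast
  ring

lemma gsp1_zero (a : ℤ) : a • ue e = 0 ↔ (2 ^ e : ℤ) ∣ a := by
  rw [gsp1_smul, AddCircle.coe_eq_zero_iff]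
  have h2 : (2 ^ e : ℚ) ≠ 0 := by positivity
  constructor
  · rintro ⟨n, hn⟩
    rw [zsmul_eq_mul, mul_one, eq_div_iff h2] at hn
    refine ⟨n, ?_⟩
    have h3 : ((a : ℤ) : ℚ) = ((2 ^ e * n : ℤ) : ℚ) := by
      push_cast
      rw [← hn, mul_comm]
    exact Int.cast_injective h3
  · rintro ⟨n, rfl⟩
    refine ⟨n, ?_⟩
    rw [zsmul_eq_mul, mul_one, eq_div_iff h2]
    push_cast
    ring

lemma gsp1_val (he : ∀ z : Γ, 2 ^ e • z = 0) (u v : Γ) : ∃ a : ℤ, ω u v = a • ue e :=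
  gsp1_mul (by rw [← map_nsmul, he, map_zero])

lemma gsp1_half : 2 ^ e • ue (e + 1) ≠ 0 := by
  intro h
  have h1 : ((2 ^ e : ℕ) : ℤ) • ue (e + 1) = 0 := by rw [natCast_zsmul, h]
  have h2 := (gsp1_zero _).1 h1
  have h3 : 2 ^ (e + 1) ∣ 2 ^ e := by exact_mod_cast h2
  have h4 := (Nat.pow_dvd_pow_iff_le_right one_lt_two).1 h3
  omega

lemma Symp.skew (h : Symp ω) (x y : Γ) : ω x y = -ω y x := by
  have h1 := h.alt (x + y)
  rw [map_add, map_add, AddMonoidHom.add_apply, AddMonoidHom.add_apply, h.alt, h.alt, zero_add,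
    add_zero] at h1
  rw [eq_neg_iff_add_eq_zero, add_comm]
  exact h1

lemma Symp.exists_pair (h : Symp ω) (he : ∀ z : Γ, 2 ^ (e + 1) • z = 0) (hx : 2 ^ e • x ≠ 0) :
    ∃ y, ω x y = ue (e + 1) := by
  obtain ⟨z, hz⟩ : ∃ z, ω (2 ^ e • x) z ≠ 0 := by
    by_contra hc
    push Not at hc
    exact hx (h.nd _ hc)
  obtain ⟨a, ha⟩ := gsp1_val (ω := ω) he x z
  have hodd : Odd a := by
    rw [← Int.not_even_iff_odd]
    rintro ⟨b, rfl⟩
    apply hz
    rw [map_nsmul, AddMonoidHom.nsmul_apply, ha, ← natCast_zsmul, smul_smul, gsp1_zero]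
    exact ⟨b, by push_cast; ring⟩
  have hc : IsCoprime a (2 ^ (e + 1)) := by
    refine IsCoprime.pow_right ?_
    obtain ⟨b, rfl⟩ := hodd
    exact ⟨1, -b, by ring⟩
  obtain ⟨u, v, huv⟩ := hc
  refine ⟨u • z, ?_⟩
  have h0 : (v * 2 ^ (e + 1)) • ue (e + 1) = 0 := (gsp1_zero _).2 ⟨v, by ring⟩
  rw [map_zsmul, ha, smul_smul, ← add_zero ((u * a) • ue (e + 1)), ← h0, ← add_smul, huv, one_smul]

lemma gsp1_dec (h : Symp ω) (he : ∀ z : Γ, 2 ^ e • z = 0) (hxy : ω x y = ue e) (g : Γ) :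
    ∃ (a b : ℤ) (z : perp ω x y), g = a • x + b • y + z := by
  obtain ⟨a, ha⟩ := gsp1_val (ω := ω) he g y
  obtain ⟨b, hb⟩ := gsp1_val (ω := ω) he x g
  refine ⟨a, b, ⟨g - a • x - b • y, ?_, ?_⟩, by simp⟩
  · change ω x (g - a • x - b • y) = 0
    rw [map_sub, map_sub, map_zsmul, map_zsmul, h.alt, hb, hxy]
    simp
  · change ω y (g - a • x - b • y) = 0
    rw [map_sub, map_sub, map_zsmul, map_zsmul, h.alt, h.skew y g, h.skew y x, ha, hxy]
    simp

lemma Symp.perp (h : Symp ω) (he : ∀ z : Γ, 2 ^ e • z = 0) (hxy : ω x y = ue e) :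
    Symp (resP ω (perp ω x y)) := by
  refine ⟨fun w => h.alt w, fun w hw => Subtype.ext (h.nd _ fun g => ?_)⟩
  obtain ⟨a, b, z, rfl⟩ := gsp1_dec h he hxy g
  have h1 : ω x w = 0 := w.2.1
  have h2 : ω y w = 0 := w.2.2
  have h3 : ω w z = 0 := hw z
  rw [map_add, map_add, map_zsmul, map_zsmul, h.skew w x, h.skew w y, h1, h2, h3]
  simp

/-- The decomposition attached to a hyperbolic pair. -/
theorem Symp.split (h : Symp ω) (he : ∀ z : Γ, 2 ^ e • z = 0) (hxy : ω x y = ue e) :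
    ∃ f : (ZMod (2 ^ e) × ZMod (2 ^ e)) × AS.perp ω x y ≃+ Γ,
      ∀ (a b : ℤ) (z : AS.perp ω x y), f (((a : ZMod (2 ^ e)), (b : ZMod (2 ^ e))), z) =
        a • x + b • y + z := by
  have k : ∀ u : Γ, zmultiplesHom Γ u ((2 ^ e : ℕ) : ℤ) = 0 := fun u => by
    rw [zmultiplesHom_apply, natCast_zsmul, he]
  let φ : (ZMod (2 ^ e) × ZMod (2 ^ e)) × AS.perp ω x y →+ Γ :=
    ((ZMod.lift (2 ^ e) ⟨zmultiplesHom Γ x, k x⟩).coprod
      (ZMod.lift (2 ^ e) ⟨zmultiplesHom Γ y, k y⟩)).coprod (AS.perp ω x y).subtype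
  have hφ : ∀ (a b : ℤ) (z : AS.perp ω x y), φ (((a : ZMod (2 ^ e)), (b : ZMod (2 ^ e))), z) =
      a • x + b • y + z := fun a b z => by
    simp only [φ, AddMonoidHom.coprod_apply, ZMod.lift_coe, zmultiplesHom_apply,
      AddSubgroup.coe_subtype]
  refine ⟨AddEquiv.ofBijective φ ⟨?_, fun g => ?_⟩, hφ⟩
  · rw [injective_iff_map_eq_zero]
    rintro ⟨⟨a, b⟩, z⟩ h0
    obtain ⟨a, rfl⟩ := ZMod.intCast_surjective a
    obtain ⟨b, rfl⟩ := ZMod.intCast_surjective b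
    rw [hφ] at h0
    have h1 : ω x z = 0 := z.2.1
    have h2 : ω y z = 0 := z.2.2
    have h3 := congrArg (ω x) h0
    have h4 := congrArg (ω y) h0
    rw [map_add, map_add, map_zsmul, map_zsmul, h.alt, h1, hxy, map_zero, smul_zero, zero_add,
      add_zero, gsp1_zero] at h3
    rw [map_add, map_add, map_zsmul, map_zsmul, h.alt, h2, h.skew y x, hxy, map_zero, smul_zero,
      add_zero, add_zero, smul_neg, neg_eq_zero, gsp1_zero] at h4
    have h5 : ∀ (c : ℤ) (u : Γ), (2 ^ e : ℤ) ∣ c → c • u = 0 := by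
      rintro _ u ⟨c, rfl⟩
      have h6 : (2 ^ e : ℤ) • u = 0 := by
        rw [← he u, ← natCast_zsmul]
        push_cast
        rfl
      rw [mul_comm, mul_smul, h6, smul_zero]
    rw [h5 a x h4, h5 b y h3, zero_add, zero_add] at h0
    refine Prod.ext (Prod.ext ?_ ?_) (Subtype.ext h0)
    · exact (ZMod.intCast_zmod_eq_zero_iff_dvd _ _).2 (by exact_mod_cast h4)
    · exact (ZMod.intCast_zmod_eq_zero_iff_dvd _ _).2 (by exact_mod_cast h3)
  · obtain ⟨a, b, z, rfl⟩ := gsp1_dec h he hxy g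
    exact ⟨_, hφ a b z⟩

theorem Symp.tj_perp (h : Symp ω) (he : ∀ z : Γ, 2 ^ e • z = 0) (hxy : ω x y = ue e) (j : ℕ) :
    tj Γ j = (if j < e then 4 else 1) * tj (AS.perp ω x y) j := by
  obtain ⟨f, -⟩ := h.split he hxy
  rw [← tj_congr f, tj_prod, tj_prod, tj_zmod]
  split_ifs <;> rfl

theorem Symp.card_perp [Finite Γ] (h : Symp ω) (he : ∀ z : Γ, 2 ^ e • z = 0)
    (hxy : ω x y = ue e) : Nat.card Γ = 4 ^ e * Nat.card (AS.perp ω x y) := by
  obtain ⟨f, -⟩ := h.split he hxy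
  rw [← Nat.card_congr f.toEquiv, Nat.card_prod, Nat.card_prod, Nat.card_zmod, ← mul_pow,
    show 2 * 2 = 4 from rfl]

lemma gsp1_ord (e : ℕ) : addOrderOf (ue (e + 1)) = 2 ^ (e + 1) := by
  refine addOrderOf_eq_prime_pow gsp1_half ?_
  rw [← natCast_zsmul, gsp1_zero]
  push_cast
  rfl

lemma gsp1_fib [Finite Γ] (he : ∀ z : Γ, 2 ^ (e + 1) • z = 0) (hxy : ω x y = ue (e + 1)) :
    Nat.card {v : Γ // ω x v = ue (e + 1)} * 2 ^ (e + 1) = Nat.card Γ := by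
  have h1 : Nat.card {v : Γ // ω x v = ue (e + 1)} = Nat.card (ω x).ker := by
    refine Nat.card_congr ((Equiv.subRight y).subtypeEquiv fun v => ?_)
    rw [AddMonoidHom.mem_ker, Equiv.subRight_apply, map_sub, hxy, sub_eq_zero]
  have h2 : (ω x).range = AddSubgroup.zmultiples (ue (e + 1)) := by
    ext c
    constructor
    · rintro ⟨v, rfl⟩
      obtain ⟨a, ha⟩ := gsp1_val (ω := ω) he x v
      exact ⟨a, ha.symm⟩
    · rintro ⟨a, rfl⟩
      exact ⟨a • y, by rw [map_zsmul, hxy]⟩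
  rw [h1, ← gsp1_ord e, ← Nat.card_zmultiples, ← h2, ← AddSubgroup.index_ker,
    AddSubgroup.card_mul_index]

theorem Symp.card_pairs [Finite Γ] (h : Symp ω) (he : ∀ z : Γ, 2 ^ (e + 1) • z = 0) :
    Nat.card {q : Γ × Γ // ω q.1 q.2 = ue (e + 1)} * 2 ^ (e + 1) * tj Γ e =
      Nat.card Γ ^ 2 * (tj Γ e - 1) := by
  classical
  let _ : Fintype Γ := Fintype.ofFinite Γ
  set F : Γ →+ Γ := nsmulAddMonoidHom (2 ^ e) with hF
  have ht : tj Γ e = Nat.card F.range := by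
    refine Nat.card_congr (Equiv.subtypeEquivRight fun c => and_iff_right_of_imp ?_)
    rintro ⟨c, rfl⟩
    rw [← mul_smul, ← pow_succ', he]
  have hK : Nat.card F.ker * tj Γ e = Nat.card Γ := by
    rw [ht, ← AddSubgroup.index_ker, AddSubgroup.card_mul_index]
  have h1 : Nat.card {q : Γ × Γ // ω q.1 q.2 = ue (e + 1)} * 2 ^ (e + 1) =
      ∑ u : Γ, if u ∈ F.ker then 0 else Nat.card Γ := by
    rw [Nat.card_congr (Equiv.subtypeProdEquivSigmaSubtype fun u v => ω u v = ue (e + 1)),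
      Nat.card_sigma, Finset.sum_mul]
    refine Finset.sum_congr rfl fun u _ => ?_
    split_ifs with hu
    · have hu' : 2 ^ e • u = 0 := hu
      have : IsEmpty {v : Γ // ω u v = ue (e + 1)} := ⟨fun v => gsp1_half (e := e) (by
        rw [← v.2, ← AddMonoidHom.nsmul_apply, ← map_nsmul, hu', map_zero,
          AddMonoidHom.zero_apply])⟩
      rw [Nat.card_of_isEmpty, zero_mul]
    · obtain ⟨v, hv⟩ := h.exists_pair he (x := u) hu
      exact gsp1_fib he hv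
  have h2 : (∑ u : Γ, if u ∈ F.ker then 0 else Nat.card Γ) + Nat.card F.ker * Nat.card Γ =
      Nat.card Γ * Nat.card Γ := by
    have h3 : Nat.card F.ker * Nat.card Γ = ∑ u : Γ, if u ∈ F.ker then Nat.card Γ else 0 := by
      rw [← Finset.sum_filter, Finset.sum_const, smul_eq_mul, Nat.card_eq_fintype_card,
        Fintype.card_subtype]
    rw [h3, ← Finset.sum_add_distrib]
    rw [Finset.sum_congr rfl (g := fun _ => Nat.card Γ) fun u _ => by split_ifs <;> simp]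
    rw [Finset.sum_const, smul_eq_mul, Finset.card_univ, Nat.card_eq_fintype_card]
  rw [h1]
  obtain ⟨t, hs⟩ : ∃ t, tj Γ e = t + 1 := Nat.exists_eq_succ_of_ne_zero (tj_pos e).ne'
  rw [hs] at hK ⊢
  rw [Nat.add_sub_cancel]
  generalize (∑ u : Γ, if u ∈ F.ker then 0 else Nat.card Γ) = N at h2 ⊢
  generalize Nat.card F.ker = K at hK h2
  generalize Nat.card Γ = G at hK h2 ⊢
  have h4 : N * (t + 1) + G * G = G ^ 2 * t + G * G := by
    calc N * (t + 1) + G * G = N * (t + 1) + K * (t + 1) * G := by rw [hK]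
      _ = (N + K * G) * (t + 1) := by ring
      _ = G ^ 2 * t + G * G := by rw [h2]; ring
  exact Nat.add_right_cancel h4

end Pool.Agent.Lib.MP_788af2_nt.AS
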