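import Pool.Agent.Lib.MP_a3f657_nt.BK.GSp1

/-!
Isometries of symplectic groups.
-/

set_option linter.unusedSectionVars false

namespace Pool.Agent.Lib.MP_788af2_nt.AS

open Pool.Agent.Lib.MP_a3f657_nt.Two Matrix

variable {Γ Γ' : Type} [AddCommGroup Γ] [AddCommGroup Γ']
  {ω : Γ →+ Γ →+ AddCircle (1 : ℚ)} {ω' : Γ' →+ Γ' →+ AddCircle (1 : ℚ)}

private lemma gs2_form {e : ℕ} {x y : Γ} (h : Symp ω) (hxy : ω x y = ue e) (a b a' b' : ℤ)
    (z z' : AS.perp ω x y) :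
    ω (a • x + b • y + z) (a' • x + b' • y + z') = (a * b' - b * a') • ue e + ω z z' := by
  have h1 : ∀ w : AS.perp ω x y, ω x w = 0 := fun w => w.2.1
  have h2 : ∀ w : AS.perp ω x y, ω y w = 0 := fun w => w.2.2
  have h3 : ω z x = 0 := by rw [h.skew, h1, neg_zero]
  have h4 : ω z y = 0 := by rw [h.skew, h2, neg_zero]
  have h5 : ω y x = -ue e := by rw [h.skew, hxy]
  simp only [map_add, map_zsmul, AddMonoidHom.add_apply, AddMonoidHom.smul_apply, h.alt, h1, h2,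
    h3, h4, h5, hxy, smul_zero, add_zero, zero_add]
  module

private lemma gs2_dec {e : ℕ} {x y : Γ} (h : Symp ω) (he : ∀ z : Γ, 2 ^ e • z = 0)
    (hxy : ω x y = ue e) (w : Γ) : ∃ (a b : ℤ) (z : AS.perp ω x y), w = a • x + b • y + z := by
  obtain ⟨φ, hφ⟩ := h.split he hxy
  obtain ⟨⟨⟨a, b⟩, z⟩, rfl⟩ := φ.surjective w
  obtain ⟨a, rfl⟩ := ZMod.intCast_surjective a
  obtain ⟨b, rfl⟩ := ZMod.intCast_surjective b
  exact ⟨a, b, z, hφ a b z⟩

private lemma gs2_kill {J : ℕ} (hJ : ∀ z : Γ, 2 ^ (J + 1) • z = 0) (h : tj Γ J = 1) (z : Γ) :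
    2 ^ J • z = 0 := by
  have h1 := (Nat.card_eq_one_iff_unique.1 h).1
  exact congrArg Subtype.val (h1.elim ⟨2 ^ J • z, by rw [← mul_nsmul, ← pow_succ, hJ], z, rfl⟩
    ⟨0, smul_zero _, 0, smul_zero _⟩)

theorem Symp.glue {e : ℕ} {x y : Γ} {x' y' : Γ'} (h : Symp ω) (h' : Symp ω')
    (he : ∀ z : Γ, 2 ^ e • z = 0) (he' : ∀ z : Γ', 2 ^ e • z = 0) (hxy : ω x y = ue e)
    (hxy' : ω' x' y' = ue e) (g : AS.perp ω x y ≃+ AS.perp ω' x' y')
    (hg : ∀ a b, ω' (g a) (g b) = ω a b) : ∃ f : Γ ≃+ Γ', (∀ a b, ω' (f a) (f b) = ω a b) ∧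
      f x = x' ∧ f y = y' ∧ ∀ z : AS.perp ω x y, f z = g z := by
  obtain ⟨φ, hφ⟩ := h.split he hxy
  obtain ⟨φ', hφ'⟩ := h'.split he' hxy'
  have key : ∀ (a b : ℤ) (z : AS.perp ω x y),
      (φ.symm.trans (((AddEquiv.refl _).prodCongr g).trans φ')) (a • x + b • y + z) =
        a • x' + b • y' + g z := fun a b z => by
    rw [← hφ, AddEquiv.trans_apply, AddEquiv.symm_apply_apply, ← hφ']
    rfl
  generalize φ.symm.trans (((AddEquiv.refl _).prodCongr g).trans φ') = f at key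
  refine ⟨f, fun u v => ?_, by simpa using key 1 0 0, by simpa using key 0 1 0,
    fun z => by simpa using key 0 0 z⟩
  obtain ⟨a, b, z, rfl⟩ := gs2_dec h he hxy u
  obtain ⟨a', b', z', rfl⟩ := gs2_dec h he hxy v
  rw [key, key, gs2_form h hxy, gs2_form h' hxy', hg]

private lemma gs2_witt (J : ℕ) : ∀ (n : ℕ) (Γ Γ' : Type) [AddCommGroup Γ] [AddCommGroup Γ']
    [Finite Γ] [Finite Γ'] (ω : Γ →+ Γ →+ AddCircle (1 : ℚ)) (ω' : Γ' →+ Γ' →+ AddCircle (1 : ℚ)),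
    Nat.card Γ = n → Symp ω → Symp ω' → (∀ z : Γ, 2 ^ J • z = 0) → (∀ z : Γ', 2 ^ J • z = 0) →
    (∀ j, tj Γ j = tj Γ' j) → ∃ f : Γ ≃+ Γ', ∀ a b, ω' (f a) (f b) = ω a b := by
  induction J with
  | zero =>
    intro n Γ Γ' _ _ _ _ ω ω' _ _ _ hJ hJ' _
    simp only [pow_zero, one_smul] at hJ hJ'
    refine ⟨AddEquiv.ofBijective (0 : Γ →+ Γ') ⟨fun a b _ => (hJ a).trans (hJ b).symm,
      fun b => ⟨0, (hJ' _).trans (hJ' b).symm⟩⟩, fun a b => ?_⟩
    generalize AddEquiv.ofBijective (0 : Γ →+ Γ') _ = f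
    rw [hJ a, map_zero, map_zero, map_zero]
    rfl
  | succ J ih =>
    intro n
    induction n using Nat.strong_induction_on with
    | _ n ih' =>
    intro Γ Γ' _ _ _ _ ω ω' hn h h' hJ hJ' e
    by_cases hk : ∀ z : Γ, 2 ^ J • z = 0
    · exact ih n Γ Γ' ω ω' hn h h' hk (gs2_kill hJ' ((e J).symm.trans (tj_of_kill hk))) e
    have hk' : ¬∀ z : Γ', 2 ^ J • z = 0 := fun hk' =>
      hk (gs2_kill hJ ((e J).trans (tj_of_kill hk')))
    obtain ⟨x, hx⟩ := not_forall.1 hk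
    obtain ⟨x', hx'⟩ := not_forall.1 hk'
    obtain ⟨y, hy⟩ := h.exists_pair hJ hx
    obtain ⟨y', hy'⟩ := h'.exists_pair hJ' hx'
    obtain ⟨g, hg⟩ := ih' (Nat.card (AS.perp ω x y)) (by
        rw [← hn, h.card_perp hJ hy]
        exact lt_mul_of_one_lt_left Nat.card_pos (Nat.one_lt_pow (Nat.succ_ne_zero J) (by norm_num)))
      _ _ _ _ rfl (h.perp hJ hy) (h'.perp hJ' hy') (fun z => Subtype.ext (hJ z))
      (fun z => Subtype.ext (hJ' z)) fun j => by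
        have := e j
        rw [h.tj_perp hJ hy, h'.tj_perp hJ' hy'] at this
        exact Nat.eq_of_mul_eq_mul_left (by split_ifs <;> norm_num) this
    obtain ⟨f, hf, -⟩ := h.glue h' hJ hJ' hy hy' g hg
    exact ⟨f, hf⟩

theorem Symp.witt [Finite Γ] [Finite Γ'] {J : ℕ} (h : Symp ω) (h' : Symp ω')
    (hJ : ∀ z : Γ, 2 ^ J • z = 0) (hJ' : ∀ z : Γ', 2 ^ J • z = 0) (e : ∀ j, tj Γ j = tj Γ' j) :
    ∃ f : Γ ≃+ Γ', ∀ a b, ω' (f a) (f b) = ω a b := by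
  exact gs2_witt J _ Γ Γ' ω ω' rfl h h' hJ hJ' e

theorem Symp.nSp_rec [Finite Γ] {e : ℕ} {x y : Γ} (h : Symp ω) (he : ∀ z : Γ, 2 ^ e • z = 0)
    (hxy : ω x y = ue e) :
    nSp ω = Nat.card {q : Γ × Γ // ω q.1 q.2 = ue e} * nSp (resP ω (AS.perp ω x y)) := by
  have h1 : ∀ q : {q : Γ × Γ // ω q.1 q.2 = ue e}, ∃ f : Γ ≃+ Γ, (∀ a b, ω (f a) (f b) = ω a b) ∧
      f x = q.1.1 ∧ f y = q.1.2 := fun q => by
    obtain ⟨g, hg⟩ := (h.perp he hxy).witt (h.perp he q.2) (fun z => Subtype.ext (he z))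
      (fun z => Subtype.ext (he z)) fun j => by
        have := (h.tj_perp he hxy j).symm.trans (h.tj_perp he q.2 j)
        exact Nat.eq_of_mul_eq_mul_left (by split_ifs <;> norm_num) this
    obtain ⟨f, p1, p2, p3, -⟩ := h.glue h he he hxy q.2 g hg
    exact ⟨f, p1, p2, p3⟩
  choose F F1 F2 F3 using h1
  have h2 : ∀ g : {g : AS.perp ω x y ≃+ AS.perp ω x y // ∀ a b, resP ω (AS.perp ω x y) (g a) (g b) =
      resP ω (AS.perp ω x y) a b}, ∃ f : Γ ≃+ Γ, (∀ a b, ω (f a) (f b) = ω a b) ∧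
      f x = x ∧ f y = y ∧ ∀ z : AS.perp ω x y, f z = g.1 z := fun g =>
    h.glue h he he hxy hxy g.1 g.2
  choose G G1 G2 G3 G4 using h2
  rw [nSp, nSp, ← Nat.card_prod]
  refine (Nat.card_eq_of_bijective (fun p => ⟨(G p.2).trans (F p.1), fun a b => by
    rw [AddEquiv.trans_apply, AddEquiv.trans_apply, F1, G1]⟩) ⟨?_, ?_⟩).symm
  · rintro ⟨q, g⟩ ⟨q', g'⟩ hq
    have h3 : ∀ w, F q (G g w) = F q' (G g' w) := fun w => DFunLike.congr_fun (Subtype.ext_iff.1 hq) w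
    have h4 : q = q' := by
      refine Subtype.ext (Prod.ext ?_ ?_)
      · simpa only [G2, F2] using h3 x
      · simpa only [G3, F3] using h3 y
    subst h4
    refine Prod.ext rfl (Subtype.ext (AddEquiv.ext fun z => Subtype.ext ?_))
    simpa only [G4] using (F q).injective (h3 z)
  · rintro ⟨f, hf⟩
    let q : {q : Γ × Γ // ω q.1 q.2 = ue e} := ⟨(f x, f y), (hf x y).trans hxy⟩
    let k : Γ ≃+ Γ := f.trans (F q).symm
    have k0 : ∀ w, F q (k w) = f w := fun w => (F q).apply_symm_apply _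
    have k1 : ∀ a b, ω (k a) (k b) = ω a b := fun a b => by rw [← F1 q, k0, k0, hf]
    have k2 : k x = x := (F q).injective ((k0 x).trans (F2 q).symm)
    have k3 : k y = y := (F q).injective ((k0 y).trans (F3 q).symm)
    have k4 : ∀ w, k w ∈ AS.perp ω x y ↔ w ∈ AS.perp ω x y := fun w => by
      change ω x (k w) = 0 ∧ ω y (k w) = 0 ↔ ω x w = 0 ∧ ω y w = 0
      rw [← k1 x w, ← k1 y w, k2, k3]
    let g : AS.perp ω x y ≃+ AS.perp ω x y :=
      { toFun := fun z => ⟨k z, (k4 _).2 z.2⟩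
        invFun := fun z => ⟨k.symm z, (k4 _).1 (by simp)⟩
        left_inv := fun z => Subtype.ext (k.symm_apply_apply _)
        right_inv := fun z => Subtype.ext (k.apply_symm_apply _)
        map_add' := fun a b => Subtype.ext (map_add k _ _) }
    refine ⟨(q, ⟨g, fun a b => k1 a b⟩), Subtype.ext (AddEquiv.ext fun w => ?_)⟩
    obtain ⟨a, b, z, rfl⟩ := gs2_dec h he hxy w
    change F q (G _ _) = f _
    rw [← k0]
    simp only [map_add, map_zsmul, G2, G3, G4, k2, k3]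
    rfl

end Pool.Agent.Lib.MP_788af2_nt.AS
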