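import Pool.Agent.Lib.MP_a3f657_nt.BK.GBas

/-!
The tensor product with the Pruefer group.
-/

set_option linter.unusedSectionVars false

namespace Pool.Agent.Lib.MP_788af2_nt.AS

open Pool.Agent.Lib.MP_a3f657_nt.Two Matrix

open scoped TensorProduct

variable {E : Type} [AddCommGroup E]

lemma ten_tors (x : E ⊗[ℤ] Pru) : ∃ n : ℕ, 2 ^ n • x = 0 := by
  induction x using TensorProduct.induction_on with
  | zero => exact ⟨0, by simp⟩
  | tmul a p =>
    obtain ⟨n, hn⟩ := pru_tors p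
    refine ⟨n, ?_⟩
    rw [← TensorProduct.tmul_smul, hn, TensorProduct.tmul_zero]
  | add x y hx hy =>
    obtain ⟨m, hm⟩ := hx
    obtain ⟨n, hn⟩ := hy
    refine ⟨m + n, ?_⟩
    rw [smul_add, pow_add, mul_comm (2 ^ m) (2 ^ n), mul_smul, hm, smul_zero, mul_comm, mul_smul,
      hn, smul_zero, add_zero]

lemma ten_half (x : E ⊗[ℤ] Pru) : ∃ y, 2 • y = x := by
  induction x using TensorProduct.induction_on with
  | zero => exact ⟨0, by simp⟩
  | tmul a p =>
    obtain ⟨q, hq⟩ := pru_half p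
    refine ⟨a ⊗ₜ q, ?_⟩
    rw [← TensorProduct.tmul_smul, hq]
  | add x y hx hy =>
    obtain ⟨u, hu⟩ := hx
    obtain ⟨v, hv⟩ := hy
    exact ⟨u + v, by rw [smul_add, hu, hv]⟩

lemma gten_pow (h2 : ∀ x : E, 2 • x = 0 → x = 0) (k : ℕ) (x : E) (hx : 2 ^ k • x = 0) : x = 0 := by
  induction k generalizing x with
  | zero => simpa using hx
  | succ k ih =>
    apply h2
    apply ih
    rw [← mul_smul, ← pow_succ, hx]

lemma gten_odd (h2 : ∀ x : E, 2 • x = 0 → x = 0) (t : E) (ht : t ∈ Submodule.torsion ℤ E) :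
    ∃ m : ℕ, Odd m ∧ m • t = 0 := by
  obtain ⟨⟨a, ha⟩, hat⟩ := (Submodule.mem_torsion_iff t).1 ht
  have ha0 : a ≠ 0 := nonZeroDivisors.ne_zero ha
  have hn : a.natAbs ≠ 0 := Int.natAbs_ne_zero.2 ha0
  have hat' : a • t = 0 := hat
  have h1 : a.natAbs • t = 0 := by
    rw [← natCast_zsmul]
    rcases Int.natAbs_eq a with h | h
    · rw [← h, hat']
    · have : (a.natAbs : ℤ) = -a := by omega
      rw [this, neg_smul, hat', neg_zero]
  obtain ⟨k, m, hm, hkm⟩ := Nat.exists_eq_two_pow_mul_odd hn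
  refine ⟨m, hm, gten_pow h2 k _ ?_⟩
  rw [← mul_smul, ← hkm, h1]

lemma gten_thalf (h2 : ∀ x : E, 2 • x = 0 → x = 0) (k : ℕ) (t : E)
    (ht : t ∈ Submodule.torsion ℤ E) : ∃ u ∈ Submodule.torsion ℤ E, 2 ^ k • u = t := by
  induction k with
  | zero => exact ⟨t, ht, by simp⟩
  | succ k ih =>
    obtain ⟨u, hu, hut⟩ := ih
    obtain ⟨m, ⟨c, hc⟩, hm⟩ := gten_odd h2 u hu
    refine ⟨(c + 1) • u, Submodule.smul_of_tower_mem _ _ hu, ?_⟩
    have h3 : 2 • (c + 1) • u = u := by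
      rw [← mul_smul, show 2 * (c + 1) = m + 1 by omega, add_smul, hm, one_smul, zero_add]
    rw [pow_succ, mul_smul, h3, hut]

lemma gten_tmul (h2 : ∀ x : E, 2 • x = 0 → x = 0) (t : E) (ht : t ∈ Submodule.torsion ℤ E)
    (p : Pru) : t ⊗ₜ[ℤ] p = 0 := by
  obtain ⟨k, hk⟩ := pru_tors p
  obtain ⟨u, -, hu⟩ := gten_thalf h2 k t ht
  rw [← hu, TensorProduct.smul_tmul, hk, TensorProduct.tmul_zero]

lemma gten_bij (h2 : ∀ x : E, 2 • x = 0 → x = 0) :
    Function.Bijective (LinearMap.rTensor Pru (Submodule.torsion ℤ E).mkQ) := by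
  refine ⟨?_, LinearMap.rTensor_surjective _ (Submodule.mkQ_surjective _)⟩
  rw [injective_iff_map_eq_zero]
  intro x hx
  have hex := rTensor_exact Pru (LinearMap.exact_subtype_mkQ (Submodule.torsion ℤ E))
    (Submodule.mkQ_surjective _)
  obtain ⟨y, rfl⟩ := (hex x).1 hx
  clear hx
  induction y using TensorProduct.induction_on with
  | zero => simp
  | tmul a p => exact gten_tmul h2 a.1 a.2 p
  | add x y hx hy => rw [map_add, hx, hy, add_zero]

theorem tj_ten (hE : AddGroup.FG E) (h2 : ∀ x : E, 2 • x = 0 → x = 0) (j : ℕ) :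
    tj (E ⊗[ℤ] Pru) j = Nat.card (E ⧸ (nsmulAddMonoidHom 2 : E →+ E).range) := by
  classical
  have : Module.Finite ℤ E := Module.Finite.iff_addGroup_fg.2 hE
  set T := Submodule.torsion ℤ E with hT
  have : Module.Free ℤ (E ⧸ T) := inferInstance
  set r := Module.finrank ℤ (E ⧸ T) with hr
  let b := Module.finBasis ℤ (E ⧸ T)
  let e1 : (E ⊗[ℤ] Pru) ≃ₗ[ℤ] ((E ⧸ T) ⊗[ℤ] Pru) := LinearEquiv.ofBijective _ (gten_bij h2)
  let e2 : ((E ⧸ T) ⊗[ℤ] Pru) ≃ₗ[ℤ] (Pru ⊗[ℤ] (Fin r → ℤ)) :=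
    (TensorProduct.comm ℤ _ _).trans (TensorProduct.congr (LinearEquiv.refl ℤ Pru) b.equivFun)
  let e3 : (Pru ⊗[ℤ] (Fin r → ℤ)) ≃ₗ[ℤ] (Fin r → Pru) := TensorProduct.piScalarRight ℤ ℤ Pru (Fin r)
  rw [tj_congr ((e1.trans e2).trans e3).toAddEquiv, tj_pi_pru]
  let g : E →+ (Fin r → ℤ) := (b.equivFun.toLinearMap ∘ₗ T.mkQ).toAddMonoidHom
  have hg : Function.Surjective g := b.equivFun.surjective.comp T.mkQ_surjective
  have hg0 : ∀ x, g x = 0 → x ∈ T := by
    intro x hx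
    have h1 : b.equivFun (T.mkQ x) = 0 := hx
    rw [LinearEquiv.map_eq_zero_iff] at h1
    exact (Submodule.Quotient.mk_eq_zero T).1 h1
  let f : E →+ (Fin r → ZMod 2) := ((Int.castAddHom (ZMod 2)).compLeft (Fin r)).comp g
  have hf : ∀ x i, f x i = (g x i : ZMod 2) := fun _ _ => rfl
  have hfs : Function.Surjective f := by
    intro v
    obtain ⟨x, hx⟩ := hg fun i => ((v i).val : ℤ)
    refine ⟨x, funext fun i => ?_⟩
    rw [hf, hx]
    simp
  have hker : (nsmulAddMonoidHom 2 : E →+ E).range = f.ker := by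
    ext x
    rw [AddMonoidHom.mem_ker, AddMonoidHom.mem_range]
    constructor
    · rintro ⟨y, rfl⟩
      rw [nsmulAddMonoidHom_apply, map_nsmul]
      funext i
      have h4 : ∀ z : ZMod 2, 2 • z = 0 := by decide
      exact h4 _
    · intro hx
      have h5 : ∀ i, (2 : ℤ) ∣ g x i := by
        intro i
        have h6 : ((g x i : ℤ) : ZMod 2) = 0 := by rw [← hf, hx]; rfl
        exact_mod_cast (ZMod.intCast_zmod_eq_zero_iff_dvd _ 2).1 h6
      choose c hc using h5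
      obtain ⟨y, hy⟩ := hg c
      have h7 : x - 2 • y ∈ T := by
        apply hg0
        rw [map_sub, map_nsmul, hy]
        funext i
        simp [hc i]
      obtain ⟨u, -, hu⟩ := gten_thalf h2 1 _ h7
      refine ⟨u + y, ?_⟩
      rw [nsmulAddMonoidHom_apply, smul_add, ← pow_one 2, hu, pow_one, sub_add_cancel]
  rw [hker, Nat.card_congr (QuotientAddGroup.quotientKerEquivOfSurjective f hfs).toEquiv]
  simp

end Pool.Agent.Lib.MP_788af2_nt.AS
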