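import Pool.Agent.Lib.MP_a3f657_nt.BK.NSym

/-!
The cocycle identity in the function field.
-/

set_option linter.unusedSectionVars false

namespace Pool.Agent.Lib.MP_788af2_nt.AS

open Polynomial WeierstrassCurve Pool.Agent.Lib.MP_a3f657_nt.Two

open scoped Polynomial.Bivariate

variable {F : Type} [Field F] [CharP F 2] [DecidableEq F] {a : F} {B : PB F} {W : Affine F}

open Affine.CoordinateRing

/-- The ideal of a point. -/
private noncomputable def nfI : W.Point → Ideal W.CoordinateRing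
  | 0 => ⊤
  | .some x y _ => XYIdeal W x (C y)

/-- The leading coefficient of the norm is one. -/
private def NfM (x : W.CoordinateRing) : Prop := (Algebra.norm F[X] x).Monic

private lemma nfM_one : NfM (1 : W.CoordinateRing) := by
  unfold NfM
  rw [map_one]
  exact monic_one

private lemma nfM_mul {x y : W.CoordinateRing} (h : NfM x) (h' : NfM y) : NfM (x * y) := by
  unfold NfM
  rw [map_mul]
  exact Monic.mul h h'

private lemma nfM_ne {x : W.CoordinateRing} (h : NfM x) : x ≠ 0 := by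
  rintro rfl
  have e : (0 : W.CoordinateRing) = (0 : F[X]) • 1 + (0 : F[X]) • mk W Y := by simp
  unfold NfM at h
  rw [e, norm_smul_basis] at h
  exact h.ne_zero (by simp)

private lemma nfM_X (x : F) : NfM (XClass W x) := by
  have e : XClass W x = (X - C x : F[X]) • 1 + (0 : F[X]) • mk W Y := by
    rw [zero_smul, add_zero, Affine.CoordinateRing.smul, mul_one, XClass]
  unfold NfM
  rw [e, norm_smul_basis]
  simpa using (monic_X_sub_C x).pow 2

private lemma nfM_Y (x y l : F) : NfM (YClass W (Affine.linePolynomial x y l)) := by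
  have e : YClass W (Affine.linePolynomial x y l) =
      (-Affine.linePolynomial x y l) • 1 + (1 : F[X]) • mk W Y := by
    rw [one_smul, Affine.CoordinateRing.smul, mul_one, YClass, ← map_add, map_neg, neg_add_eq_sub]
  unfold NfM
  rw [e, norm_smul_basis, CharTwo.sub_eq_add, CharTwo.sub_eq_add, Affine.linePolynomial]
  monicity!

private lemma nf_unit {x : W.CoordinateRing} (u : W.CoordinateRingˣ) (h : NfM x)
    (h' : NfM (x * (u : W.CoordinateRing))) : (u : W.CoordinateRing) = 1 := by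
  have h1 : NfM (u : W.CoordinateRing) := by
    unfold NfM at h h' ⊢
    rw [map_mul] at h'
    exact h.of_mul_monic_left h'
  have h2 : Algebra.norm F[X] (u : W.CoordinateRing) = 1 :=
    h1.eq_one_of_isUnit (u.isUnit.map _)
  obtain ⟨p, q, e⟩ := exists_smul_basis_eq (u : W.CoordinateRing)
  have h3 := degree_norm_smul_basis (W' := W) p q
  rw [e, h2, degree_one] at h3
  have hq : q = 0 := by
    by_contra hq
    have h4 := le_max_right (2 • p.degree) (2 • q.degree + 3)
    rw [← h3, degree_eq_natDegree hq] at h4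
    norm_cast at h4
  subst hq
  rw [← e, norm_smul_basis] at h2
  have h5 : p = 1 := by
    have : (p + 1) ^ 2 = 0 := by
      rw [CharTwo.add_sq, one_pow, ← h2]
      simp [CharTwo.add_self_eq_zero]
    exact CharTwo.add_eq_zero.1 (pow_eq_zero_iff two_ne_zero |>.1 this)
  rw [← e, h5]
  simp

private lemma nf_neg (T : W.Point) : ∃ x : W.CoordinateRing, NfM x ∧
    nfI (-T) * nfI T = Ideal.span {x} := by
  rcases T with _ | ⟨x, y, h⟩
  · exact ⟨1, nfM_one, by simp [nfI, ← Affine.Point.zero_def]⟩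
  · exact ⟨_, nfM_X x, XYIdeal_neg_mul h⟩

private lemma nf_rep (P Q : W.Point) : ∃ n d : W.CoordinateRing, NfM n ∧ NfM d ∧
    gF P Q = algebraMap _ _ n / algebraMap _ _ d ∧
    Ideal.span {d} * (nfI P * nfI Q) = Ideal.span {n} * nfI (P + Q) := by
  rcases P with _ | ⟨x, y, h⟩
  · exact ⟨1, 1, nfM_one, nfM_one, by simp [gF, ← Affine.Point.zero_def],
      by simp [nfI, ← Affine.Point.zero_def]⟩
  rcases Q with _ | ⟨x', y', h'⟩
  · exact ⟨1, 1, nfM_one, nfM_one, by simp [gF, ← Affine.Point.zero_def],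
      by simp [nfI, ← Affine.Point.zero_def]⟩
  have h0 : ¬ (Affine.Point.some x y h = 0 ∨ Affine.Point.some x' y' h' = 0) :=
    not_or.2 ⟨Affine.Point.some_ne_zero h, Affine.Point.some_ne_zero h'⟩
  by_cases hxy : x = x' ∧ y = W.negY x' y'
  · have e := Affine.Point.add_of_Y_eq (h₁ := h) (h₂ := h') hxy.1 hxy.2
    refine ⟨_, 1, nfM_X x, nfM_one, by rw [gF, if_neg h0, if_pos e, map_one, div_one]; rfl, ?_⟩
    obtain ⟨rfl, rfl⟩ := hxy
    rw [e]
    simpa [nfI, XIdeal] using XYIdeal_neg_mul h'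
  · have e := Affine.Point.add_some hxy (h₁ := h) (h₂ := h')
    refine ⟨_, _, nfM_Y x y (W.slope x x' y y'), nfM_X (W.addX x x' (W.slope x x' y y')), ?_, ?_⟩
    · rw [gF, if_neg h0, if_neg (by rw [e]; exact Affine.Point.some_ne_zero _), e]
      rfl
    · rw [e]
      exact XYIdeal_mul_XYIdeal h.1 h'.1 hxy

theorem gF_coc (_ : W = Eb a B.b) (P Q S : W.Point) :
    gF P Q * gF (P + Q) S = gF Q S * gF P (Q + S) := by
  obtain ⟨n1, d1, a1, b1, c1, e1⟩ := nf_rep P Q
  obtain ⟨n2, d2, a2, b2, c2, e2⟩ := nf_rep (P + Q) S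
  obtain ⟨n3, d3, a3, b3, c3, e3⟩ := nf_rep Q S
  obtain ⟨n4, d4, a4, b4, c4, e4⟩ := nf_rep P (Q + S)
  obtain ⟨x, hx, e5⟩ := nf_neg (P + Q + S)
  rw [← add_assoc] at e4
  have e6 : Ideal.span {n1 * n2 * d3 * d4 * x} = Ideal.span {n3 * n4 * d1 * d2 * x} := by
    simp only [← Ideal.span_singleton_mul_span_singleton, ← e5]
    have f1 : Ideal.span {n1} * (Ideal.span {n2} * nfI (P + Q + S)) =
        Ideal.span {d1} * Ideal.span {d2} * (nfI P * nfI Q * nfI S) := by
      rw [← e2, mul_left_comm, ← mul_assoc (Ideal.span {n1}), ← e1]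
      ring
    have f2 : Ideal.span {n3} * (Ideal.span {n4} * nfI (P + Q + S)) =
        Ideal.span {d3} * Ideal.span {d4} * (nfI P * nfI Q * nfI S) := by
      rw [← e4, mul_left_comm, mul_left_comm (Ideal.span {n3}), ← e3]
      ring
    calc _ = Ideal.span {n1} * (Ideal.span {n2} * nfI (P + Q + S)) *
          (Ideal.span {d3} * Ideal.span {d4} * nfI (-(P + Q + S))) := by ring
      _ = Ideal.span {n3} * (Ideal.span {n4} * nfI (P + Q + S)) *
          (Ideal.span {d1} * Ideal.span {d2} * nfI (-(P + Q + S))) := by rw [f1, f2]; ring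
      _ = _ := by ring
  obtain ⟨u, hu⟩ := Ideal.span_singleton_eq_span_singleton.1 e6
  have h1 := nf_unit u (nfM_mul (nfM_mul (nfM_mul (nfM_mul a1 a2) b3) b4) hx)
    (hu ▸ nfM_mul (nfM_mul (nfM_mul (nfM_mul a3 a4) b1) b2) hx)
  rw [h1, mul_one] at hu
  have h2 := congrArg (algebraMap W.CoordinateRing W.FunctionField)
    (mul_right_cancel₀ (nfM_ne hx) hu)
  have hi : ∀ {d : W.CoordinateRing}, NfM d → algebraMap _ W.FunctionField d ≠ 0 := fun h =>
    (map_ne_zero_iff _ (IsFractionRing.injective _ _)).2 (nfM_ne h)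
  simp only [map_mul] at h2
  rw [c1, c2, c3, c4, div_mul_div_comm, div_mul_div_comm,
    div_eq_div_iff (mul_ne_zero (hi b1) (hi b2)) (mul_ne_zero (hi b3) (hi b4))]
  linear_combination h2

end Pool.Agent.Lib.MP_788af2_nt.AS
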