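import Pool.Agent.Lib.MP_a3f657_nt.BK.BDefs
import Pool.Agent.Lib.MP_788af2_nt.TT.CurveB

/-!
Symmetry of the cubical function of the curve.
-/

set_option linter.unusedSectionVars false

namespace Pool.Agent.Lib.MP_788af2_nt.AS

open Polynomial WeierstrassCurve Pool.Agent.Lib.MP_a3f657_nt.Two

variable {F : Type} [Field F] [CharP F 2] [DecidableEq F] {a : F} {B : PB F} {W : Affine F}

lemma dlt_comm (P R : W.Point) : dlt P R = dlt R P := by
  unfold dlt
  by_cases h : xc P = xc R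
  · rw [if_pos h, if_pos h.symm, h]
  · rw [if_neg h, if_neg (Ne.symm h), add_comm]

lemma dlt_neg (P R : W.Point) : dlt P (-R) = dlt P R := by
  simp only [dlt, xc_neg]

lemma nx_ne (hW : W = Eb a B.b) {P : W.Point} (h : P ≠ 0) : xc P ≠ 0 := by
  subst hW
  exact eb_x_ne B (by simp) h

lemma dlt_ne (hW : W = Eb a B.b) (P : W.Point) {R : W.Point} (h : R ≠ 0) : dlt P R ≠ 0 := by
  unfold dlt
  split_ifs with h1
  · exact nx_ne hW h
  · exact fun e => h1 (CharTwo.add_eq_zero.1 e)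

lemma nsym_yc_neg (hW : W = Eb a B.b) (R : W.Point) : yc (-R) = yc R + xc R := by
  subst hW
  exact eb_yc_neg R

lemma lin_neg (hW : W = Eb a B.b) (P Q R : W.Point) : lin P Q (-R) = lin P Q R + xc R := by
  unfold lin
  rw [nsym_yc_neg hW, xc_neg]
  ring

lemma nsym_slope (hW : W = Eb a B.b) (x₁ x₂ y₁ y₂ : F) :
    W.slope x₁ x₂ y₁ y₂ = if x₁ = x₂ then (if y₁ = y₂ + x₂ then 0 else (x₁ ^ 2 + y₁) / x₁)
      else (y₁ + y₂) / (x₁ + x₂) := by
  subst hW
  have e1 : ∀ x y : F, (Eb a B.b).negY x y = y + x := fun x y => by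
    change -y - 1 * x - 0 = y + x
    grind
  rw [Affine.slope, e1, e1]
  split_ifs
  · rfl
  · congr 1
    · simp only [Eb]
      grind
    · grind
  · rw [CharTwo.sub_eq_add, CharTwo.sub_eq_add]

private lemma nsym_add {b : F} {Q Q' : (Eb a b).Point} (h1 : Q ≠ 0) (h2 : Q' ≠ 0)
    (h3 : Q + Q' ≠ 0) : ∃ l,
      l = (Eb a b).slope (xc Q) (xc Q') (yc Q) (yc Q') ∧
      xc (Q + Q') = l ^ 2 + l + a + xc Q + xc Q' ∧
      yc (Q + Q') = l * (xc (Q + Q') + xc Q) + yc Q + xc (Q + Q') ∧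
      xc Q * xc Q' * xc (Q + Q') = b + (l * xc Q + yc Q) ^ 2 ∧
      xc Q * xc Q' + xc Q * xc (Q + Q') + xc Q' * xc (Q + Q') = l * xc Q + yc Q := by
  rcases Q with _ | ⟨x, y, h⟩
  · exact absurd rfl h1
  rcases Q' with _ | ⟨x', y', h'⟩
  · exact absurd rfl h2
  by_cases hxy : x = x' ∧ y = (Eb a b).negY x' y'
  · exact absurd (Affine.Point.add_of_Y_eq hxy.1 hxy.2) h3
  have e := Affine.addPolynomial_slope h.1 h'.1 hxy
  rw [Affine.addPolynomial_eq, neg_inj, Cubic.prod_X_sub_C_eq, Cubic.toPoly_injective,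
    Cubic.mk.injEq] at e
  obtain ⟨-, -, e1, e2⟩ := e
  rw [Affine.Point.add_some hxy]
  refine ⟨_, rfl, ?_⟩
  simp only [xc, yc, Affine.addY, Affine.negAddY, Affine.negY]
  generalize (Eb a b).slope x x' y y' = l at *
  have e0 : (Eb a b).addX x x' l = l ^ 2 + 1 * l - a - x - x' := rfl
  generalize (Eb a b).addX x x' l = z at *
  simp only [Eb] at e1 e2 ⊢
  refine ⟨by grind, by grind, by grind, by grind⟩

lemma nsym_lin_left (P Q : W.Point) : lin P Q P = 0 := by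
  unfold lin
  rw [CharTwo.add_self_eq_zero, CharTwo.add_self_eq_zero, mul_zero, add_zero]

lemma nsym_lin_right (hW : W = Eb a B.b) {P Q : W.Point} (hP : P ≠ 0) (hQ : Q ≠ 0)
    (h : P + Q ≠ 0) : lin P Q Q = 0 := by
  by_cases hx : xc P = xc Q
  · rcases eq_or_neg hP hQ hx with e | e
    · subst e
      exact nsym_lin_left P P
    · exact absurd (by rw [e, neg_add_cancel]) h
  · have h1 : xc P + xc Q ≠ 0 := fun e => hx (CharTwo.add_eq_zero.1 e)
    unfold lin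
    rw [nsym_slope hW, if_neg hx, add_comm (xc Q), div_mul_cancel₀ _ h1]
    grind

/-- The line data with the slope made explicit. -/
lemma nsym_data (hW : W = Eb a B.b) {P Q : W.Point} (hP : P ≠ 0) (hQ : Q ≠ 0) (h : P + Q ≠ 0) :
    ∃ l μ : F, l = W.slope (xc P) (xc Q) (yc P) (yc Q) ∧
      (∀ R, lin P Q R = yc R + l * xc R + μ) ∧ lin P Q P = 0 ∧ lin P Q Q = 0 ∧
      lin P Q (-(P + Q)) = 0 ∧ xc P + xc Q + xc (P + Q) = a + wp l ∧
      xc P * xc Q + xc P * xc (P + Q) + xc Q * xc (P + Q) = μ ∧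
      xc P * xc Q * xc (P + Q) = B.b + μ ^ 2 := by
  have g1 := nsym_lin_right hW hP hQ h
  have g2 := lin_neg hW P Q (P + Q)
  subst hW
  obtain ⟨l, hl, e1, e2, e3, e4⟩ := nsym_add hP hQ h
  refine ⟨l, l * xc P + yc P, hl, fun R => ?_, nsym_lin_left P Q, g1, ?_, ?_, e4, e3⟩
  · unfold lin
    rw [← hl]
    ring
  · rw [g2]
    unfold lin
    rw [← hl, e2]
    grind
  · rw [e1]
    unfold wp
    grind

/-- The coefficients of the cubic cut out by a line. -/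
lemma line_data (hW : W = Eb a B.b) {P Q : W.Point} (hP : P ≠ 0) (hQ : Q ≠ 0) (h : P + Q ≠ 0) :
    ∃ l μ : F, (∀ R, lin P Q R = yc R + l * xc R + μ) ∧ lin P Q P = 0 ∧ lin P Q Q = 0 ∧
      lin P Q (-(P + Q)) = 0 ∧ xc P + xc Q + xc (P + Q) = a + wp l ∧
      xc P * xc Q + xc P * xc (P + Q) + xc Q * xc (P + Q) = μ ∧
      xc P * xc Q * xc (P + Q) = B.b + μ ^ 2 := by
  obtain ⟨l, μ, -, h1⟩ := nsym_data hW hP hQ h
  exact ⟨l, μ, h1⟩

lemma lin_norm (hW : W = Eb a B.b) {P Q R : W.Point} (hP : P ≠ 0) (hQ : Q ≠ 0) (h : P + Q ≠ 0)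
    (hR : R ≠ 0) :
    lin P Q R * lin P Q (-R) = (xc R + xc P) * (xc R + xc Q) * (xc R + xc (P + Q)) := by
  obtain ⟨l, μ, e, -, -, -, e1, e2, e3⟩ := line_data hW hP hQ h
  rw [lin_neg hW, e]
  subst hW
  have e4 := eb_eq hR
  unfold wp at e1
  generalize xc (P + Q) = z at *
  generalize xc P = x₁ at *
  generalize xc Q = x₂ at *
  generalize xc R = x at *
  generalize yc R = y at *
  have e5 : (x + x₁) * (x + x₂) * (x + z) = x ^ 3 + (x₁ + x₂ + z) * x ^ 2 +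
    (x₁ * x₂ + x₁ * z + x₂ * z) * x + x₁ * x₂ * z := by ring
  rw [e5, e1, e2, e3]
  clear e e1 e2 e3 e5
  grind

lemma nsym_lcl_ne (hW : W = Eb a B.b) (P Q : W.Point) {R : W.Point} (hR : R ≠ 0) :
    lcl P Q R ≠ 0 := by
  unfold lcl
  split_ifs with h1
  · exact div_ne_zero (mul_ne_zero (mul_ne_zero (dlt_ne hW _ hR) (dlt_ne hW _ hR))
      (dlt_ne hW _ hR)) (nx_ne hW hR)
  · exact h1

theorem cN_ne (hW : W = Eb a B.b) (P Q R : W.Point) : cN P Q R ≠ 0 := by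
  unfold cN
  split_ifs with h1 h2
  · exact one_ne_zero
  · exact dlt_ne hW _ fun e => h1 (Or.inr (Or.inr e))
  · have hR : R ≠ 0 := fun e => h1 (Or.inr (Or.inr e))
    exact div_ne_zero (nsym_lcl_ne hW _ _ (neg_ne_zero.2 hR)) (dlt_ne hW _ hR)

lemma nsym_lin_comm (hW : W = Eb a B.b) {P Q : W.Point} (hP : P ≠ 0) (hQ : Q ≠ 0)
    (h : P + Q ≠ 0) (R : W.Point) : lin P Q R = lin Q P R := by
  obtain ⟨l, μ, e, g1, -, -, -, e2, -⟩ := line_data hW hP hQ h
  obtain ⟨l', μ', e', -, g2, -, -, e2', -⟩ := line_data hW hQ hP (by rwa [add_comm])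
  rw [add_comm Q P] at e2'
  have h1 : μ = μ' := by
    rw [← e2, ← e2']
    ring
  have h2 : l = l' := by
    refine mul_right_cancel₀ (nx_ne hW hP) ?_
    rw [e] at g1
    rw [e'] at g2
    linear_combination g1 - g2 - h1
  rw [e, e', h1, h2]

lemma nsym_cN_zero {P Q R : W.Point} (h : P = 0 ∨ Q = 0 ∨ R = 0) : cN P Q R = 1 := by
  unfold cN
  rw [if_pos h]

lemma nsym_cN_opp {P Q R : W.Point} (hP : P ≠ 0) (hQ : Q ≠ 0) (hR : R ≠ 0) (h : P + Q = 0) :
    cN P Q R = dlt P R := by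
  unfold cN
  rw [if_neg (by simp [hP, hQ, hR]), if_pos h]

lemma nsym_cN_gen {P Q R : W.Point} (hP : P ≠ 0) (hQ : Q ≠ 0) (hR : R ≠ 0) (h : P + Q ≠ 0) :
    cN P Q R = lcl P Q (-R) / dlt (P + Q) R := by
  unfold cN
  rw [if_neg (by simp [hP, hQ, hR]), if_neg h]

lemma nsym_dlt_congr {P P' R R' : W.Point} (h : xc P = xc P') (h' : xc R = xc R') :
    dlt P R = dlt P' R' := by
  unfold dlt
  rw [h, h']

lemma nsym_xc_opp {P Q : W.Point} (h : P + Q = 0) : xc P = xc Q := by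
  rw [eq_neg_of_add_eq_zero_left h, xc_neg]

theorem cN_sw₁ (hW : W = Eb a B.b) (P Q R : W.Point) : cN P Q R = cN Q P R := by
  by_cases h0 : P = 0 ∨ Q = 0 ∨ R = 0
  · rw [nsym_cN_zero h0, nsym_cN_zero (by tauto)]
  obtain ⟨hP, hQ, hR⟩ : P ≠ 0 ∧ Q ≠ 0 ∧ R ≠ 0 := by tauto
  by_cases h : P + Q = 0
  · rw [nsym_cN_opp hP hQ hR h, nsym_cN_opp hQ hP hR (by rwa [add_comm])]
    exact nsym_dlt_congr (nsym_xc_opp h) rfl
  · rw [nsym_cN_gen hP hQ hR h, nsym_cN_gen hQ hP hR (by rwa [add_comm]), add_comm Q P]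
    unfold lcl
    rw [nsym_lin_comm hW hP hQ h, add_comm Q P, mul_comm (dlt P (-R))]

/-- The value when the first and the third point are opposite. -/
lemma nsym_cN_opp₁₃ (hW : W = Eb a B.b) {P Q R : W.Point} (hP : P ≠ 0) (hQ : Q ≠ 0) (hR : R ≠ 0)
    (h : P + R = 0) : cN P Q R = dlt P Q := by
  have e : -R = P := (eq_neg_of_add_eq_zero_left h).symm
  have ex : xc P = xc R := nsym_xc_opp h
  by_cases h1 : P + Q = 0
  · rw [nsym_cN_opp hP hQ hR h1]
    exact nsym_dlt_congr rfl (ex.symm.trans (nsym_xc_opp h1))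
  · rw [nsym_cN_gen hP hQ hR h1, e, nsym_dlt_congr (P' := P + Q) (R' := P) rfl ex.symm]
    unfold lcl
    have g1 := dlt_ne hW (P + Q) hP
    have g2 := nx_ne hW hP
    have g3 : dlt P P = xc P := if_pos rfl
    rw [if_pos (nsym_lin_left P Q), g3, dlt_comm Q P]
    field_simp

/-- The value when the second and the third point are opposite. -/
lemma nsym_cN_opp₂₃ (hW : W = Eb a B.b) {P Q R : W.Point} (hP : P ≠ 0) (hQ : Q ≠ 0) (hR : R ≠ 0)
    (h : Q + R = 0) : cN P Q R = dlt P Q := by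
  rw [cN_sw₁ hW, nsym_cN_opp₁₃ hW hQ hP hR h, dlt_comm]

/-- The value when the three points add up to zero. -/
lemma nsym_cN_sum (hW : W = Eb a B.b) {P Q R : W.Point} (hP : P ≠ 0) (hQ : Q ≠ 0) (hR : R ≠ 0)
    (h : P + Q + R = 0) : cN P Q R = 1 := by
  have e : P + Q = -R := eq_neg_of_add_eq_zero_left h
  have h1 : P + Q ≠ 0 := e ▸ neg_ne_zero.2 hR
  obtain ⟨l, μ, -, -, -, g, -⟩ := line_data hW hP hQ h1
  rw [e, neg_neg] at g
  have g1 : lin P Q (-R) = xc R := by rw [lin_neg hW, g, zero_add]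
  have g2 := nx_ne hW hR
  have g3 : dlt (-R) R = xc R := if_pos (xc_neg R)
  rw [nsym_cN_gen hP hQ hR h1, e, g3]
  unfold lcl
  rw [g1, if_neg g2, div_self g2]

/-- The generic value as a sum of two slopes. -/
lemma nsym_cN_slope (hW : W = Eb a B.b) {P Q R : W.Point} (hP : P ≠ 0) (hQ : Q ≠ 0) (hR : R ≠ 0)
    (h1 : P + Q ≠ 0) (h2 : P + R ≠ 0) (h3 : Q + R ≠ 0) (h4 : P + Q + R ≠ 0) :
    cN P Q R = W.slope (xc P) (xc Q) (yc P) (yc Q) +
      W.slope (xc (-R)) (xc (-(P + Q))) (yc (-R)) (yc (-(P + Q))) := by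
  obtain ⟨l, μ, hl, e, g1, g2, g3, -, e2, -⟩ := nsym_data hW hP hQ h1
  have n0 := nx_ne hW hR
  rw [← hl, nsym_cN_gen hP hQ hR h1, nsym_slope hW, xc_neg, xc_neg]
  unfold lcl
  by_cases hx : xc R = xc (P + Q)
  · have e0 : R = P + Q := (eq_or_neg hR h1 hx).resolve_right fun e' =>
      h4 (by rw [e', add_neg_cancel])
    have k1 : xc P ≠ xc R := fun e' => by
      rcases eq_or_neg hP hR e' with e'' | e''
      · exact hQ (by rwa [← e'', left_eq_add] at e0)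
      · exact h2 (by rw [e'', neg_add_cancel])
    have k2 : xc Q ≠ xc R := fun e' => by
      rcases eq_or_neg hQ hR e' with e'' | e''
      · exact hP (by rwa [← e'', right_eq_add] at e0)
      · exact h3 (by rw [e'', neg_add_cancel])
    have k3 : dlt (P + Q) R = xc R := if_pos hx.symm
    have k4 : dlt P R = xc P + xc R := if_neg k1
    have k5 : dlt Q R = xc Q + xc R := if_neg k2
    rw [← e0] at g3 e2 ⊢
    rw [← e0] at k3
    rw [if_pos g3, if_pos rfl, if_neg (fun e' => n0 (left_eq_add.1 e')), dlt_neg, dlt_neg, dlt_neg,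
      k3, k4, k5, xc_neg]
    rw [e, xc_neg] at g3
    field_simp
    clear e hl
    grind
  · have k0 : xc R + xc (P + Q) ≠ 0 := fun e' => hx (CharTwo.add_eq_zero.1 e')
    have k1 : lin P Q (-R) ≠ 0 := fun e' => by
      have m := lin_norm hW hP hQ h1 hR
      rw [e', mul_zero] at m
      rcases mul_eq_zero.1 ((mul_eq_zero.1 m.symm).resolve_right k0) with m' | m'
      · rcases eq_or_neg hR hP (CharTwo.add_eq_zero.1 m') with e'' | e''
        · rw [lin_neg hW, e'', g1, zero_add] at e'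
          exact nx_ne hW hP e'
        · exact h2 (by rw [e'', add_neg_cancel])
      · rcases eq_or_neg hR hQ (CharTwo.add_eq_zero.1 m') with e'' | e''
        · rw [lin_neg hW, e'', g2, zero_add] at e'
          exact nx_ne hW hQ e'
        · exact h3 (by rw [e'', add_neg_cancel])
    have k3 : dlt (P + Q) R = xc (P + Q) + xc R := if_neg (Ne.symm hx)
    rw [if_neg k1, if_neg hx, k3, e, xc_neg, add_comm (xc (P + Q)) (xc R)]
    rw [e, xc_neg] at g3
    field_simp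
    clear e hl e2 k1
    grind

/-- The function whose additive coboundary is the slope. -/
noncomputable def nzeta (B : PB F) (P : W.Point) : F := yc P / xc P + B.dl (xc P)

lemma nzeta_neg (hW : W = Eb a B.b) {P : W.Point} (hP : P ≠ 0) :
    nzeta B (-P) = nzeta B P + 1 := by
  have := nx_ne hW hP
  unfold nzeta
  rw [nsym_yc_neg hW, xc_neg, add_div, div_self this]
  ring

lemma nzeta_add (hW : W = Eb a B.b) {P Q : W.Point} (hP : P ≠ 0) (hQ : Q ≠ 0) (h : P + Q ≠ 0) :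
    W.slope (xc P) (xc Q) (yc P) (yc Q) = nzeta B P + nzeta B Q + nzeta B (P + Q) := by
  obtain ⟨l, μ, hl, e, g1, g2, g3, -, e2, e3⟩ := nsym_data hW hP hQ h
  have n1 := nx_ne hW hP
  have n2 := nx_ne hW hQ
  have n3 := nx_ne hW h
  have k1 : B.dl (xc P) + B.dl (xc Q) + B.dl (xc (P + Q)) =
      B.b / (xc P * xc Q * xc (P + Q)) := by
    rw [← B.dl_mul n1 n2, ← B.dl_mul (mul_ne_zero n1 n2) n3, B.dl_eq]
    conv_lhs => rw [e3, B.D_add, B.D_sq, B.D_b, add_zero, mul_one, ← e3]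
  rw [lin_neg hW] at g3
  rw [e] at g1 g2 g3
  have k2 : yc P / xc P = l + μ / xc P := by
    field_simp
    grind
  have k3 : yc Q / xc Q = l + μ / xc Q := by
    field_simp
    grind
  have k4 : yc (P + Q) / xc (P + Q) = l + μ / xc (P + Q) + 1 := by
    field_simp
    grind
  have k5 : μ / xc P + μ / xc Q + μ / xc (P + Q) = μ ^ 2 / (xc P * xc Q * xc (P + Q)) := by
    field_simp
    rw [← e2]
    ring
  have k6 : B.b / (xc P * xc Q * xc (P + Q)) + μ ^ 2 / (xc P * xc Q * xc (P + Q)) = 1 := by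
    rw [← add_div, ← e3, div_self (mul_ne_zero (mul_ne_zero n1 n2) n3)]
  unfold nzeta
  rw [← hl, k2, k3, k4]
  rw [← k1, ← k5] at k6
  generalize μ / xc P = u₁ at *
  generalize μ / xc Q = u₂ at *
  generalize μ / xc (P + Q) = u₃ at *
  generalize B.dl (xc P) = v₁ at *
  generalize B.dl (xc Q) = v₂ at *
  generalize B.dl (xc (P + Q)) = v₃ at *
  clear k1 k2 k3 k4 k5 e hl g1 g2 g3 e2 e3
  grind

/-- The symmetric closed formula in the generic case. -/
lemma cN_zeta (hW : W = Eb a B.b) {P Q R : W.Point} (hP : P ≠ 0) (hQ : Q ≠ 0) (hR : R ≠ 0)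
    (h1 : P + Q ≠ 0) (h2 : P + R ≠ 0) (h3 : Q + R ≠ 0) (h4 : P + Q + R ≠ 0) :
    cN P Q R = 1 + nzeta B P + nzeta B Q + nzeta B R + nzeta B (P + Q + R) := by
  have e : -R + -(P + Q) = -(P + Q + R) := by abel
  rw [nsym_cN_slope hW hP hQ hR h1 h2 h3 h4, nzeta_add hW hP hQ h1,
    nzeta_add hW (neg_ne_zero.2 hR) (neg_ne_zero.2 h1) (e ▸ neg_ne_zero.2 h4), e,
    nzeta_neg hW hR, nzeta_neg hW h1, nzeta_neg hW h4]
  generalize nzeta B P = u₁
  generalize nzeta B Q = u₂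
  generalize nzeta B R = u₃
  generalize nzeta B (P + Q) = u₄
  generalize nzeta B (P + Q + R) = u₅
  grind

theorem cN_sw₂ (hW : W = Eb a B.b) (P Q R : W.Point) : cN P Q R = cN P R Q := by
  by_cases h0 : P = 0 ∨ Q = 0 ∨ R = 0
  · rw [nsym_cN_zero h0, nsym_cN_zero (by tauto)]
  obtain ⟨hP, hQ, hR⟩ : P ≠ 0 ∧ Q ≠ 0 ∧ R ≠ 0 := by tauto
  by_cases h1 : P + Q = 0
  · rw [nsym_cN_opp hP hQ hR h1, nsym_cN_opp₁₃ hW hP hR hQ h1]
  by_cases h2 : P + R = 0
  · rw [nsym_cN_opp hP hR hQ h2, nsym_cN_opp₁₃ hW hP hQ hR h2]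
  by_cases h3 : Q + R = 0
  · rw [nsym_cN_opp₂₃ hW hP hQ hR h3, nsym_cN_opp₂₃ hW hP hR hQ (by rwa [add_comm])]
    exact nsym_dlt_congr rfl (nsym_xc_opp h3)
  by_cases h4 : P + Q + R = 0
  · rw [nsym_cN_sum hW hP hQ hR h4, nsym_cN_sum hW hP hR hQ (by rwa [add_right_comm])]
  rw [cN_zeta hW hP hQ hR h1 h2 h3 h4,
    cN_zeta hW hP hR hQ h2 h1 (by rwa [add_comm]) (by rwa [add_right_comm]), add_right_comm P R Q]
  ring

theorem cN_map {F' : Type} [Field F'] [CharP F' 2] [DecidableEq F'] {a' : F'} {B' : PB F'}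
    {W' : Affine F'} (hW : W = Eb a B.b) (hW' : W' = Eb a' B'.b) (φ : F →+* F')
    (j : W.Point →+ W'.Point) (hj : Function.Injective j) (hx : ∀ P, xc (j P) = φ (xc P))
    (hy : ∀ P, yc (j P) = φ (yc P)) (P Q R : W.Point) :
    cN (j P) (j Q) (j R) = φ (cN P Q R) := by
  have hφ := φ.injective
  have z : ∀ S, j S = 0 ↔ S = 0 := fun S => map_eq_zero_iff j hj
  have d : ∀ S T, dlt (j S) (j T) = φ (dlt S T) := fun S T => by
    unfold dlt
    rw [hx, hx]
    by_cases h : xc S = xc T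
    · rw [if_pos h, if_pos (by rw [h])]
    · rw [if_neg h, if_neg (fun e => h (hφ e)), map_add]
  have s : ∀ x₁ x₂ y₁ y₂ : F, W'.slope (φ x₁) (φ x₂) (φ y₁) (φ y₂) =
      φ (W.slope x₁ x₂ y₁ y₂) := fun x₁ x₂ y₁ y₂ => by
    rw [nsym_slope hW, nsym_slope hW']
    by_cases h : x₁ = x₂
    · rw [if_pos h, if_pos (by rw [h])]
      by_cases h' : y₁ = y₂ + x₂
      · rw [if_pos h', if_pos (by rw [h', map_add]), map_zero]
      · rw [if_neg h', if_neg (fun e => h' (hφ (by rw [e, map_add]))), map_div₀, map_add, map_pow]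
    · rw [if_neg h, if_neg (fun e => h (hφ e)), map_div₀, map_add, map_add]
  have l : ∀ T, lin (j P) (j Q) (j T) = φ (lin P Q T) := fun T => by
    unfold lin
    simp only [hx, hy, s, map_add, map_mul]
  by_cases h0 : P = 0 ∨ Q = 0 ∨ R = 0
  · rw [nsym_cN_zero h0, nsym_cN_zero (by simpa only [z] using h0), map_one]
  obtain ⟨hP, hQ, hR⟩ : P ≠ 0 ∧ Q ≠ 0 ∧ R ≠ 0 := by tauto
  have jP : j P ≠ 0 := fun e => hP ((z _).1 e)
  have jQ : j Q ≠ 0 := fun e => hQ ((z _).1 e)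
  have jR : j R ≠ 0 := fun e => hR ((z _).1 e)
  by_cases h : P + Q = 0
  · rw [nsym_cN_opp hP hQ hR h, nsym_cN_opp jP jQ jR (by rw [← map_add, h, map_zero]), d]
  · rw [nsym_cN_gen hP hQ hR h,
      nsym_cN_gen jP jQ jR (by rw [← map_add]; exact fun e => h ((z _).1 e)),
      ← map_add, ← map_neg, d, map_div₀]
    congr 1
    unfold lcl
    rw [l, ← map_add, d, d, d, hx]
    by_cases h' : lin P Q (-R) = 0
    · rw [if_pos h', if_pos (by rw [h', map_zero]), map_div₀, map_mul, map_mul]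
    · rw [if_neg h', if_neg (fun e => h' (hφ (by rw [e, map_zero])))]

end Pool.Agent.Lib.MP_788af2_nt.AS
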