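import Pool.Agent.Lib.MP_a3f657_nt.BK.ADefs
import Pool.Agent.Lib.MP_a3f657_nt.BK.Stmt
import Pool.Agent.Lib.MP_a3f657_nt.C2Ga
import Pool.Agent.Lib.MP_a3f657_nt.WDefs
import Pool.Agent.Lib.MP_788af2_nt.TT.CurveB

/-!
Selmer groups as groups of points modulo powers of two: definitions.
-/

set_option linter.unusedSectionVars false

namespace Pool.Agent.Lib.MP_788af2_nt.AS

open Polynomial WeierstrassCurve Pool.Agent.Lib.MP_a3f657_nt.Two IsDedekindDomain

attribute [local instance 10000] Classical.propDecidable

section gen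

variable {F : Type} [Field F]

/-- Points that are fixed modulo `2 ^ n`. -/
def FxM (W : WeierstrassCurve F) (n : ℕ) : AddSubgroup (Pt W (SeparableClosure F)) where
  carrier := {w | ∀ σ : Gal F, ∃ S, pm W σ.toAlgHom w - w = 2 ^ n • S}
  zero_mem' σ := ⟨0, by simp⟩
  add_mem' {x y} hx hy σ := by
    obtain ⟨S, h⟩ := hx σ
    obtain ⟨S', h'⟩ := hy σ
    exact ⟨S + S', by rw [smul_add, ← h, ← h', map_add]; abel⟩
  neg_mem' {x} hx σ := by
    obtain ⟨S, h⟩ := hx σ
    exact ⟨-S, by rw [smul_neg, ← h, map_neg]; abel⟩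

/-- Points that are rational over `K` modulo `2 ^ n`. -/
def LcM (W : WeierstrassCurve F) (K : Type) [Field K] [Algebra F K] (n : ℕ) :
    AddSubgroup (Pt W (SeparableClosure F)) where
  carrier := {w | ∀ i : SeparableClosure F →ₐ[F] SeparableClosure K, ∃ (m : Pt W K)
    (U : Pt W (SeparableClosure K)), pm W i w - pm W (toSep F K) m = 2 ^ n • U}
  zero_mem' i := ⟨0, 0, by simp⟩
  add_mem' {x y} hx hy i := by
    obtain ⟨m, S, h⟩ := hx i
    obtain ⟨m', S', h'⟩ := hy i
    exact ⟨m + m', S + S', by rw [smul_add, ← h, ← h', map_add, map_add]; abel⟩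
  neg_mem' {x} hx i := by
    obtain ⟨m, S, h⟩ := hx i
    exact ⟨-m, -S, by rw [smul_neg, ← h, map_neg, map_neg]; abel⟩

/-- The restriction of an automorphism along an embedding of separable closures. -/
noncomputable def resG {K : Type} [Field K] [Algebra F K]
    (i : SeparableClosure F →ₐ[F] SeparableClosure K) (τ : Gal K) : Gal F :=
  Classical.epsilon fun σ : Gal F => ∀ x, τ (i x) = i (σ x)

/-- The descent map. -/
noncomputable def kp {K : Type} [Field K] [CharP K 2] (Q : PB K) {W : Affine K} (R : W.Point) : K :=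
  Q.kap (xc R)

/-- `j` is the map `(x, y) ↦ (φ x, φ y + u φ x)`. -/
def IsT {K K' : Type} [Field K] [Field K'] {W : Affine K} {W' : Affine K'} (φ : K →+* K') (u : K')
    (j : W.Point → W'.Point) : Prop :=
  ∀ R, xc (j R) = φ (xc R) ∧ yc (j R) = φ (yc R) + u * φ (xc R)

/-- The chosen additive map `(x, y) ↦ (φ x, φ y + u φ x)`. -/
noncomputable def tm {K K' : Type} [Field K] [Field K'] [DecidableEq K] [DecidableEq K']
    (W : Affine K) (W' : Affine K') (φ : K →+* K') (u : K') : W.Point →+ W'.Point :=
  Classical.epsilon fun j : W.Point →+ W'.Point => IsT φ u j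

/-- The action on the units of the separable closure. -/
noncomputable def sU (K : Type) [Field K] (τ : Gal K) :
    Additive (SeparableClosure K)ˣ →+ Additive (SeparableClosure K)ˣ :=
  MonoidHom.toAdditive (Units.map (τ : SeparableClosure K →* SeparableClosure K))

/-- The map on units induced by a ring homomorphism. -/
noncomputable def uM {A B : Type} [Field A] [Field B] (j : A →+* B) : Additive Aˣ →+ Additive Bˣ :=
  MonoidHom.toAdditive (Units.map (j : A →* B))

/-- Coboundaries modulo `2 ^ n`-th powers. -/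
def TrU (K : Type) [Field K] (n : ℕ) (c : Gal K → Additive (SeparableClosure K)ˣ) : Prop :=
  ∃ m, ∀ σ, ∃ r, c σ - (sU K σ m - m) = 2 ^ n • r

end gen

/-- The separable closure of the global field. -/
abbrev Fs (k : Type) [Field k] : Type := SeparableClosure (RatFunc k)

/-- The completion at infinity. -/
abbrev Ki (k : Type) [Field k] : Type := RatFunc.CompletionAtInfty k

/-- The separable closure of the completion at infinity. -/
abbrev Oi (k : Type) [Field k] : Type := SeparableClosure (Ki k)

variable {k : Type} [Field k]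

/-- The completion at a finite place. -/
abbrev Kv (v : HeightOneSpectrum k[X]) : Type := v.adicCompletion (RatFunc k)

/-- The separable closure of the completion at a finite place. -/
abbrev Os (v : HeightOneSpectrum k[X]) : Type := SeparableClosure (Kv v)

/-- The classes satisfying the local conditions at the finite places. -/
noncomputable def Wf (W : WeierstrassCurve (RatFunc k)) (n : ℕ) : AddSubgroup (Pt W (Fs k)) :=
  FxM W n ⊓ ⨅ v : HeightOneSpectrum k[X], LcM W (Kv v) n

/-- The classes satisfying all local conditions. -/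
noncomputable def Sl (W : WeierstrassCurve (RatFunc k)) (n : ℕ) : AddSubgroup (Pt W (Fs k)) :=
  Wf W n ⊓ LcM W (Ki k) n

/-- The number of 2-Selmer elements that are divisible by `2 ^ n`. -/
noncomputable def dc (W : WeierstrassCurve (RatFunc k)) (n : ℕ) : ℕ :=
  Nat.card (W.toAffine.Point ⧸ (nsmulAddMonoidHom 2 : W.toAffine.Point →+ W.toAffine.Point).range) *
    tj (Sha W) n

lemma mem_Wf {W : WeierstrassCurve (RatFunc k)} {n : ℕ} {w : Pt W (Fs k)} :
    w ∈ Wf W n ↔ w ∈ FxM W n ∧ ∀ v : HeightOneSpectrum k[X], w ∈ LcM W (Kv v) n :=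
  and_congr Iff.rfl AddSubgroup.mem_iInf

end Pool.Agent.Lib.MP_788af2_nt.AS
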