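import Pool.Agent.Lib.MP_a3f657_nt.C2Defs

/-!
The isomorphism type of the `2 ^ ∞`-Selmer group, and the order of a symplectic group.
-/

namespace Pool.Agent.Lib.MP_a3f657_nt.Two

open scoped TensorProduct Polynomial

attribute [local instance 10000] Classical.propDecidable

/-- The group `E ⊗ T ⊕ S[2 ^ ∞]` is isomorphic to `T ^ r ⊕ G`. -/
def isoT (T E S : Type) [AddCommGroup T] [AddCommGroup E] [AddCommGroup S] (r : ℕ) (G : Type)
    [AddCommGroup G] : Prop :=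
  Nonempty ((E ⊗[ℤ] T) × AddCommGroup.primaryComponent S 2 ≃+ (Fin r → T) × G)

/-- The group `E ⊗ ℚ₂ / ℤ₂ ⊕ (Z / B)[2 ^ ∞]` is isomorphic to `(ℚ₂ / ℤ₂) ^ r ⊕ G`; here `ℚ₂ / ℤ₂`
is the 2-primary part of `ℚ / ℤ`. -/
def isoQ (E : Type) [AddCommGroup E] {A : Type} [AddCommGroup A] (B Z : AddSubgroup A) (r : ℕ)
    (G : Type) [AddCommGroup G] : Prop :=
  isoT (AddCommGroup.primaryComponent (AddCircle (1 : ℚ)) 2) E (Z ⧸ B.addSubgroupOf Z) r G

section

variable {F : Type} [Field F] (W : WeierstrassCurve F) (Ω : Type) [Field Ω] [Algebra F Ω]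
  (K₀ : Type) [Field K₀] [Algebra F K₀] {ι : Type} (K : ι → Type) [∀ i, Field (K i)]
  [∀ i, Algebra F (K i)]

/-- `isoQ` for `E(F)` and the cocycles trivial over `K₀` and all `K i`, modulo coboundaries. -/
def isoSha (r : ℕ) (G : Type) [AddCommGroup G] : Prop :=
  isoQ W.toAffine.Point (cobound W Ω)
    (cocycles W Ω ⊓ (trivSep W Ω K₀ ⊓ ⨅ i, trivSep W Ω (K i))) r G

/-- `isoSha` for the separable closure of `F`. -/
def isoSep (r : ℕ) (G : Type) [AddCommGroup G] : Prop :=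
  isoSha W (SeparableClosure F) K₀ K r G

end

/-- `E(F) ⊗ ℚ₂ / ℤ₂ ⊕ Sha[2 ^ ∞]` is isomorphic to `(ℚ₂ / ℤ₂) ^ r ⊕ G`, for `F = k(t)`. -/
def SelIso {k : Type} [Field k] (W : WeierstrassCurve (RatFunc k)) (r : ℕ) (G : Type)
    [AddCommGroup G] : Prop :=
  isoSep W (RatFunc.CompletionAtInfty k)
    (fun v : IsDedekindDomain.HeightOneSpectrum k[X] => v.adicCompletion (RatFunc k)) r G

/-- The number of automorphisms of `G` preserving the pairing `ω`. -/
noncomputable def autCard {G T : Type} [AddCommGroup G] [AddCommGroup T] (ω : G →+ G →+ T) : ℕ :=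
  Nat.card {f : G ≃+ G // ∀ x y, ω (f x) (f y) = ω x y}

end Pool.Agent.Lib.MP_a3f657_nt.Two
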