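import Pool.Agent.Lib.MP_a3f657_nt.BK.ADefs

/-!
Abstract lemmas on groups of exponent two and on lifting relations.
-/

set_option linter.unusedSectionVars false
set_option linter.unusedVariables false

namespace Pool.Agent.Lib.MP_788af2_nt.AS

open Pool.Agent.Lib.MP_a3f657_nt.Two Matrix

set_option synthInstance.maxSize 2000 in
private lemma xabs_span {U : Type} [AddCommGroup U] (a b c : U → ZMod 2)
    (ha : ∀ x y, a (x + y) = a x + a y) (hb : ∀ x y, b (x + y) = b x + b y)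
    (hc : ∀ x y, c (x + y) = c x + c y) (h : ∀ x, a x = 0 → b x = 0 → c x = 0) :
    c = 0 ∨ c = a ∨ c = b ∨ c = a + b := by
  have h' : ∀ x, (a x + 1) * (b x + 1) * c x = 0 := fun x => by
    have := h x
    revert this
    generalize a x = p
    generalize b x = q
    generalize c x = r
    revert p q r
    decide
  by_contra hn
  simp only [not_or, funext_iff, not_forall, Pi.zero_apply, Pi.add_apply] at hn
  obtain ⟨⟨x1, e1⟩, ⟨x2, e2⟩, ⟨x3, e3⟩, ⟨x4, e4⟩⟩ := hn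
  have k1 := h' x1
  have k2 := h' x2
  have k3 := h' x3
  have k4 := h' x4
  have k12 := h' (x1 + x2)
  have k13 := h' (x1 + x3)
  have k14 := h' (x1 + x4)
  have k23 := h' (x2 + x3)
  have k24 := h' (x2 + x4)
  have k34 := h' (x3 + x4)
  have k123 := h' (x1 + x2 + x3)
  have k124 := h' (x1 + x2 + x4)
  have k134 := h' (x1 + x3 + x4)
  have k234 := h' (x2 + x3 + x4)
  simp only [ha, hb, hc] at k12 k13 k14 k23 k24 k34 k123 k124 k134 k234
  clear h' h ha hb hc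
  revert e1 e2 e3 e4 k1 k2 k3 k4 k12 k13 k14 k23 k24 k34 k123 k124 k134 k234
  generalize a x1 = a1
  generalize a x2 = a2
  generalize a x3 = a3
  generalize a x4 = a4
  generalize b x1 = b1
  generalize b x2 = b2
  generalize b x3 = b3
  generalize b x4 = b4
  generalize c x1 = c1
  generalize c x2 = c2
  generalize c x3 = c3
  generalize c x4 = c4
  intro e1 e2 e3 e4
  have f1 : c1 = 1 := by revert e1; revert c1; decide
  have f2 : c2 = a2 + 1 := by revert e2; revert c2 a2; decide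
  have f3 : c3 = b3 + 1 := by revert e3; revert c3 b3; decide
  have f4 : c4 = a4 + b4 + 1 := by revert e4; revert c4 a4 b4; decide
  subst f1 f2 f3 f4
  clear e1 e2 e3 e4
  revert a1 a2 a3 a4 b1 b2 b3 b4
  decide

private lemma xabs_fine {Γ U : Type} [AddCommGroup Γ] [AddCommGroup U] (h2 : ∀ x : Γ, x + x = 0)
    (E N : Γ → U → ZMod 2) (t : U)
    (hE : ∀ ξ x y, E ξ (x + y) = E ξ x + E ξ y) (n1 : ∀ ψ ψ', N (ψ + ψ') = N ψ + N ψ')
    (n2 : ∀ ψ x y, N ψ (x + y) = N ψ x + N ψ y) (inj : ∀ ψ, N ψ = 0 → ψ = 0)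
    (int : ∀ ξ ψ x, E ξ x = 0 → E (ξ + ψ) x = 0 → N ψ x = 0)
    (ne : ∀ ξ ψ, E ξ t = 0 → E ξ ≠ N ψ)
    {ψ₀ ψ₁ : Γ} (h0 : N ψ₀ t = 1) (h1 : ψ₁ ≠ 0) (h1' : N ψ₁ t = 0) (ξ ψ : Γ) :
    E (ξ + ψ) = E ξ + N ψ := by
  have ss : ∀ f : U → ZMod 2, f + f = 0 := fun f => funext fun x => z2_add_self _
  have cc : ∀ f g : U → ZMod 2, f + (f + g) = g := fun f g => by rw [← add_assoc, ss, zero_add]
  have N0 : N 0 = 0 := by
    have := n1 0 0
    rwa [add_zero, ss] at this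
  have sp : ∀ ξ ψ, N ψ = 0 ∨ N ψ = E ξ ∨ N ψ = E (ξ + ψ) ∨ N ψ = E ξ + E (ξ + ψ) :=
    fun ξ ψ => xabs_span _ _ _ (hE ξ) (hE _) (n2 ψ) (int ξ ψ)
  have N1 : N ψ₁ ≠ 0 := fun e => h1 (inj _ e)
  have ex : ∃ ξ₀, E ξ₀ t = 0 := by
    by_contra hn
    have one : ∀ ξ, E ξ t = 1 := fun ξ => (z2_cases _).resolve_left fun e => hn ⟨ξ, e⟩
    have a1 : ∀ ψ, N ψ t = 1 → ∀ ξ, N ψ = E ξ ∨ N ψ = E (ξ + ψ) := fun ψ hψ ξ => by
      rcases sp ξ ψ with e | e | e | e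
      · rw [e] at hψ
        exact absurd hψ (by simp)
      · exact Or.inl e
      · exact Or.inr e
      · rw [e, Pi.add_apply, one, one] at hψ
        exact absurd hψ (by decide)
    have a2 : ∀ ξ, E (ξ + ψ₁) = E ξ + N ψ₁ := fun ξ => by
      rcases sp ξ ψ₁ with e | e | e | e
      · exact absurd e N1
      · rw [e, one] at h1'
        exact absurd h1' (by decide)
      · rw [e, one] at h1'
        exact absurd h1' (by decide)
      · rw [e, cc]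
    have a3 : ∀ ξ, N ψ₀ = E ξ → N (ψ₀ + ψ₁) ≠ E ξ := fun ξ e e' => by
      rw [n1, ← e] at e'
      exact N1 (by simpa using e')
    have a4 : N (ψ₀ + ψ₁) t = 1 := by rw [n1, Pi.add_apply, h0, h1', add_zero]
    obtain ⟨ξ, hξ⟩ : ∃ ξ, N ψ₀ = E ξ := (a1 ψ₀ h0 0).elim (fun e => ⟨_, e⟩) fun e => ⟨_, e⟩
    have b1 : N (ψ₀ + ψ₁) = E (ξ + ψ₁) := by rw [a2, n1, hξ]
    have b2 : N ψ₀ = E (ξ + ψ₁ + ψ₀) := (a1 ψ₀ h0 _).resolve_left fun e => a3 _ e b1
    have b3 : N (ψ₀ + ψ₁) = E (ξ + (ψ₀ + ψ₁)) := (a1 _ a4 ξ).resolve_left (a3 ξ hξ)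
    rw [show ξ + (ψ₀ + ψ₁) = ξ + ψ₁ + ψ₀ by abel] at b3
    exact a3 _ b2 b3
  have two : ∀ ξ ψ, E ξ t = 0 → N ψ ≠ 0 → E (ξ + ψ) = N ψ ∨ E (ξ + ψ) = E ξ + N ψ :=
    fun ξ ψ hξ hψ => by
    rcases sp ξ ψ with e | e | e | e
    · exact absurd e hψ
    · exact absurd e.symm (ne ξ ψ hξ)
    · exact Or.inl e.symm
    · exact Or.inr (by rw [e, cc])
  have even : ∀ ξ ψ, E ξ t = 0 → N ψ ≠ 0 → N ψ t = 0 → E (ξ + ψ) = E ξ + N ψ :=
    fun ξ ψ hξ hψ ht => (two ξ ψ hξ hψ).resolve_left fun e => ne _ ψ (by rw [e, ht]) e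
  obtain ⟨ξ₀, hξ₀⟩ := ex
  have base : ∀ ψ, E (ξ₀ + ψ) = E ξ₀ + N ψ := fun ψ => by
    by_cases hψ : N ψ = 0
    · rw [inj ψ hψ, N0, add_zero, add_zero]
    rcases z2_cases (N ψ t) with ht | ht
    · exact even _ _ hξ₀ hψ ht
    refine (two _ _ hξ₀ hψ).resolve_left fun e => ?_
    have c1 := even _ _ hξ₀ N1 h1'
    have c2 : E (ξ₀ + ψ₁) t = 0 := by rw [c1, Pi.add_apply, hξ₀, h1', add_zero]
    have c3 : N (ψ₁ + ψ) ≠ 0 := fun e' => by
      have := congrFun e' t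
      rw [n1, Pi.add_apply, h1', ht] at this
      exact absurd this (by simp)
    have c4 : ξ₀ + ψ₁ + (ψ₁ + ψ) = ξ₀ + ψ := by
      rw [add_assoc, ← add_assoc ψ₁, h2, zero_add]
    have c5 := two _ _ c2 c3
    rw [c4, e, c1, n1] at c5
    rcases c5 with e' | e'
    · exact N1 (by simpa using e')
    · rw [add_assoc, cc] at e'
      exact ne ξ₀ 0 hξ₀ (by rw [N0]; simpa using e')
  have r1 : ∀ η, E η = E ξ₀ + N (ξ₀ + η) := fun η => by
    rw [← base, ← add_assoc, h2, zero_add]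
  rw [r1 (ξ + ψ), r1 ξ, ← add_assoc, n1, add_assoc]

/-- The index two subgroups differ by the norm residue characters. -/
theorem fine_abs {Γ V : Type} [AddCommGroup Γ] [AddCommGroup V] (h2 : ∀ x : Γ, x + x = 0)
    (U : AddSubgroup V) (Y : Γ → Set V) (n : Γ → V → ZMod 2) {t : V} (ht : t ∈ U)
    (hadd : ∀ ξ, ∀ x ∈ Y ξ, ∀ y ∈ U, (x + y ∈ Y ξ ↔ y ∈ Y ξ)) (hle : ∀ ξ, ∀ x ∈ Y ξ, x ∈ U)
    (hind : ∀ ξ, ∀ x ∈ U, ∀ y ∈ U, x ∉ Y ξ → y ∉ Y ξ → x + y ∈ Y ξ)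
    (n1 : ∀ ψ ψ' x, n (ψ + ψ') x = n ψ x + n ψ' x) (n2 : ∀ ψ x y, n ψ (x + y) = n ψ x + n ψ y)
    (inj : ∀ ψ, (∀ x ∈ U, n ψ x = 0) → ψ = 0)
    (int : ∀ ξ ψ, ∀ x ∈ Y ξ, x ∈ Y (ξ + ψ) → n ψ x = 0)
    (ne : ∀ ξ ψ, t ∈ Y ξ → ¬ ∀ x ∈ U, (x ∈ Y ξ ↔ n ψ x = 0))
    {ψ₀ ψ₁ : Γ} (h0 : n ψ₀ t = 1) (h1 : ψ₁ ≠ 0) (h1' : n ψ₁ t = 0) (ξ ψ : Γ) {x : V}
    (hx : x ∈ U) : x ∈ Y (ξ + ψ) ↔ (x ∈ Y ξ ↔ n ψ x = 0) := by
  classical
  let E : Γ → U → ZMod 2 := fun ξ x => if (x : V) ∈ Y ξ then 0 else 1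
  have hE0 : ∀ ξ (x : U), E ξ x = 0 ↔ (x : V) ∈ Y ξ := fun ξ x => by
    by_cases hx : (x : V) ∈ Y ξ <;> simp [E, hx]
  have hE : ∀ ξ (x y : U), E ξ (x + y) = E ξ x + E ξ y := fun ξ x y => by
    by_cases hx : (x : V) ∈ Y ξ
    · have := hadd ξ x hx y y.2
      by_cases hy : (y : V) ∈ Y ξ <;> simp [E, hx, hy, this]
    · by_cases hy : (y : V) ∈ Y ξ
      · have := hadd ξ y hy x x.2
        rw [add_comm] at this
        simp [E, hx, hy, this]
      · have := hind ξ x x.2 y y.2 hx hy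
        simp only [E, hx, hy, AddSubgroup.coe_add, this, if_true, if_false]
        decide
  have key := xabs_fine h2 E (fun ψ (x : U) => n ψ x) ⟨t, ht⟩ hE
    (fun ψ ψ' => funext fun x => n1 ψ ψ' x) (fun ψ x y => n2 ψ x y)
    (fun ψ e => inj ψ fun x hx => congrFun e ⟨x, hx⟩)
    (fun ξ ψ x e e' => int ξ ψ x ((hE0 _ _).1 e) ((hE0 _ _).1 e'))
    (fun ξ ψ e e' => ne ξ ψ ((hE0 _ _).1 e) fun x hx => by
      rw [← hE0 ξ ⟨x, hx⟩, e'])
    h0 h1 h1' ξ ψ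
  have := congrFun key ⟨x, hx⟩
  rw [← hE0 _ ⟨x, hx⟩, ← hE0 ξ ⟨x, hx⟩, this, Pi.add_apply]
  generalize E ξ ⟨x, hx⟩ = p
  generalize n ψ x = q
  revert p q
  decide

private lemma xabs_dd {W : Type} [AddCommGroup W] [Finite W] (h2 : ∀ x : W, x + x = 0)
    (I : AddSubgroup (W →+ ZMod 2)) (φ : W →+ ZMod 2)
    (hφ : ∀ w, (∀ χ ∈ I, χ w = 0) → φ w = 0) : φ ∈ I := by
  by_contra hn
  have h3 : ∀ χ : W →+ ZMod 2, χ + χ = 0 := fun χ => by
    ext w
    exact z2_add_self _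
  have : Finite (W →+ ZMod 2) := DFunLike.finite _
  have : Finite ((W →+ ZMod 2) →+ ZMod 2) := DFunLike.finite _
  obtain ⟨Ξ, h1, h4⟩ := exists_sep_hom h3 I hn
  have inj : Function.Injective (AddMonoidHom.eval : W →+ (W →+ ZMod 2) →+ ZMod 2) := by
    rw [injective_iff_map_eq_zero]
    intro w hw
    by_contra h0
    obtain ⟨χ, e1, -⟩ := exists_sep_hom h2 ⊥ (v := w) (by simpa using h0)
    exact e1 (DFunLike.congr_fun hw χ)
  obtain ⟨w, rfl⟩ := (inj.bijective_of_nat_card_le (by rw [card_hom h3, card_hom h2])).2 Ξ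
  exact h1 (hφ w h4)

/-- Successive quotients of the filtration carry nondegenerate alternating forms. -/
theorem par_abs {A V : Type} [AddCommGroup A] [AddCommGroup V] (h2 : ∀ x : V, x + x = 0)
    (h : A →+ V) (Z : ℕ → AddSubgroup A) (fin : ((Z 0).map h : Set V).Finite)
    (anti : ∀ n, Z (n + 1) ≤ Z n) (two : ∀ n, ∀ z ∈ Z n, 2 • z ∈ Z (n + 1))
    (β : ℕ → A → V → ZMod 2)
    (add₁ : ∀ n, ∀ z ∈ Z n, ∀ z' ∈ Z n, ∀ y ∈ (Z 0).map h, β n (z + z') y = β n z y + β n z' y)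
    (add₂ : ∀ n z y y', β n z (y + y') = β n z y + β n z y')
    (dbl : ∀ n, ∀ z ∈ Z n, ∀ y ∈ (Z 0).map h, β (n + 1) (2 • z) y = β n z y)
    (alt : ∀ n, ∀ z ∈ Z n, β n z (h z) = 0)
    (up : ∀ n, ∀ z ∈ Z (n + 1), ∀ y ∈ (Z 0).map h, β n z y = 0)
    (ker : ∀ n, ∀ z ∈ Z n, (∀ y ∈ (Z 0).map h, β n z y = 0) → ∃ z', z + 2 • z' ∈ Z (n + 1))
    (n : ℕ) :
    ∃ i, ((Z n).map h : Set V).ncard = ((Z (n + 1)).map h : Set V).ncard * 4 ^ i := by
  have le0 : ∀ n, Z n ≤ Z 0 := fun n => by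
    induction n with
    | zero => exact le_rfl
    | succ n ih => exact (anti n).trans ih
  have mem0 : ∀ n, ∀ z ∈ Z n, h z ∈ (Z 0).map h := fun n z hz => ⟨z, le0 n hz, rfl⟩
  have h2' : ∀ z, h (2 • z) = 0 := fun z => by rw [two_nsmul, map_add, h2]
  have sym : ∀ n, ∀ z ∈ Z n, ∀ z' ∈ Z n, β n z (h z') = β n z' (h z) := fun n z hz z' hz' => by
    have := alt n _ (add_mem hz hz')
    rw [add₁ n z hz z' hz' _ (mem0 n _ (add_mem hz hz')), map_add, add₂, add₂, alt n z hz,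
      alt n z' hz'] at this
    revert this
    generalize β n z (h z') = p
    generalize β n z' (h z) = q
    revert p q
    decide
  have : Finite ((Z 0).map h) := fin
  have fromker : ∀ n, ∀ z ∈ Z n, ∀ z', z + 2 • z' ∈ Z n →
      (∀ y ∈ (Z 0).map h, β n (z + 2 • z') y = 0) → h z ∈ (Z (n + 1)).map h :=
    fun n z _ z' hz' e => by
    obtain ⟨z'', hz''⟩ := ker n _ hz' e
    exact ⟨_, hz'', by rw [map_add, map_add, h2', h2', add_zero, add_zero]⟩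
  have easy : ∀ n, ∀ y ∈ (Z (n + 1)).map h, ∀ z ∈ Z n, β n z y = 0 := by
    rintro n _ ⟨z', hz', rfl⟩ z hz
    rw [sym n z hz z' (anti n hz')]
    exact up n z' hz' _ (mem0 n z hz)
  have hard : ∀ n, ∀ y ∈ (Z 0).map h, (∀ z ∈ Z n, β n z y = 0) → y ∈ (Z (n + 1)).map h := by
    intro n
    induction n with
    | zero =>
      rintro _ ⟨z, hz, rfl⟩ e
      refine fromker 0 z hz 0 (by simpa using hz) ?_
      rintro _ ⟨z', hz', rfl⟩
      rw [smul_zero, add_zero, sym 0 z hz z' hz']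
      exact e z' hz'
    | succ n ih =>
      intro y hy e
      obtain ⟨z, hz, rfl⟩ := ih y hy fun z hz => by rw [← dbl n z hz y hy]; exact e _ (two n z hz)
      let b : ℕ → A → (Z 0).map h →+ ZMod 2 := fun m z =>
        AddMonoidHom.mk' (fun y => β m z y) fun y y' => add₂ m z y y'
      let I : AddSubgroup ((Z 0).map h →+ ZMod 2) :=
        { carrier := {χ | ∃ z ∈ Z n, χ = b n z}
          zero_mem' := ⟨0, zero_mem _, by
            ext y
            have := add₁ n 0 (zero_mem _) 0 (zero_mem _) y y.2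
            rw [add_zero, z2_add_self] at this
            exact this.symm⟩
          add_mem' := by
            rintro _ _ ⟨z, hz, rfl⟩ ⟨z', hz', rfl⟩
            refine ⟨z + z', add_mem hz hz', ?_⟩
            ext y
            exact (add₁ n z hz z' hz' y y.2).symm
          neg_mem' := by
            rintro _ ⟨z, hz, rfl⟩
            refine ⟨z, hz, ?_⟩
            ext y
            exact neg_eq_of_add_eq_zero_left (z2_add_self _) }
      obtain ⟨z', hz', e'⟩ : b (n + 1) z ∈ I :=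
        xabs_dd (fun x => Subtype.ext (h2 x)) I _ fun w hw => by
          obtain ⟨z', hz', e'⟩ := ih w w.2 fun z hz => hw _ ⟨z, hz, rfl⟩
          change β (n + 1) z w = 0
          rw [← e', sym _ z hz z' hz']
          exact e z' hz'
      refine fromker (n + 1) z hz z' (add_mem hz (two n z' hz')) fun y hy => ?_
      rw [add₁ _ z hz _ (two n z' hz') y hy, dbl n z' hz' y hy]
      have : β (n + 1) z y = β n z' y := DFunLike.congr_fun e' ⟨y, hy⟩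
      rw [this, z2_add_self]
  have sub0 : (Z n).map h ≤ (Z 0).map h := AddSubgroup.map_mono (le0 n)
  have : Finite ((Z n).map h) := fin.subset sub0
  have ch : ∀ y : (Z n).map h, ∃ z ∈ Z n, h z = y := fun y => y.2
  choose s hs hs' using ch
  let ψ : (Z n).map h →+ (Z n).map h →+ ZMod 2 :=
    AddMonoidHom.mk' (fun y => AddMonoidHom.mk' (fun y' => β n (s y) y') fun y' y'' =>
      add₂ n _ y' y'') fun y y' => by
      ext w
      change β n (s (y + y')) w = β n (s y) w + β n (s y') w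
      rw [← hs' w, sym n _ (hs _) _ (hs w), sym n _ (hs y) _ (hs w), sym n _ (hs y') _ (hs w),
        hs', hs', hs', ← add₂]
      rfl
  obtain ⟨i, hi⟩ := card_alt ψ (fun v => by
    change β n (s v) v = 0
    conv_lhs => rw [← hs' v]
    exact alt n _ (hs v)) ⊤
  refine ⟨i, ?_⟩
  have e1 : rad ψ ⊤ = ((Z (n + 1)).map h).addSubgroupOf ((Z n).map h) := by
    ext v
    rw [AddSubgroup.mem_addSubgroupOf]
    refine ⟨fun hv => hard n v (sub0 v.2) fun z hz => ?_, fun hv => ⟨trivial, fun w _ => ?_⟩⟩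
    · have : β n (s v) (h z) = 0 := hv.2 ⟨h z, z, hz, rfl⟩ trivial
      rwa [sym n _ (hs v) z hz, hs'] at this
    · change β n (s v) w = 0
      rw [← hs' w, sym n _ (hs v) _ (hs w), hs']
      exact easy n v hv _ (hs w)
  rw [e1, AddSubgroup.card_top, Nat.card_congr
    (AddSubgroup.addSubgroupOfEquivOfLe (AddSubgroup.map_mono (anti n))).toEquiv] at hi
  exact hi

end Pool.Agent.Lib.MP_788af2_nt.AS
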