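import Pool.Agent.Lib.MP_a3f657_nt.BK.ADefs
import Pool.Agent.Lib.MP_788af2_nt.TT.TwA2
import Pool.Agent.Lib.MP_788af2_nt.TT.Frame

/-!
The interface between the Selmer groups and the tower: definitions.
-/

set_option linter.unusedSectionVars false

namespace Pool.Agent.Lib.MP_788af2_nt.AS

open Polynomial WeierstrassCurve Pool.Agent.Lib.MP_a3f657_nt.Two Matrix

namespace Tw

variable {k : Type} [Field k] [Finite k] [CharP k 2] {I : Type} [Fintype I] [DecidableEq I]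
  {β : I → k[X]} {L : Type} [Field L] [CharP L 2] (T : Tw β L) [DecidableEq L]

/-- The quadratic form attached to the pairing of the local images. -/
noncomputable def qf (b : k[X]) (h : L) : ZMod 2 :=
  T.RK (T.p b * (h / T.p (od b) * T.P.D (h / T.p (od b))))

/-- The descent map over the tower. -/
noncomputable abbrev hh (b : k[X]) {W : Affine L} (Q : W.Point) : L := hV T.P (T.p b) Q

/-- The points of the twist. -/
noncomputable abbrev Eig (a b : k[X]) (ξ : G I) : AddSubgroup (T.Cw a b).Point :=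
  eig (T.sQ a b) ξ

/-- The properties of the localizations of the global classes. -/
structure Ax (a b : k[X]) (H : AddSubgroup L)
    (RW : G I → ℕ → AddSubgroup ((T.Cw a b).Point × L)) : Prop where
  pow : ∀ ξ n m, (2 ^ n • m, T.hh b m) ∈ RW ξ n
  zero : ∀ ξ n, ∀ h ∈ H, T.Fix h → (0, h) ∈ RW ξ n
  glob : ∀ n h, (0, h) ∈ ⨆ ξ, RW ξ n → h ∈ H
  up : ∀ ξ n m, (m, 0) ∈ RW ξ n → ∃ h, (m, h) ∈ RW ξ (n + 1)
  act : ∀ ξ n m h, (m, h) ∈ RW ξ n → ∀ g, ∃ m',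
    T.sQ a b g m - sg (ξ ⬝ᵥ g) • m = 2 ^ n • m' ∧ T.σ g h + h = T.hh b m'
  two : ∀ ξ n m h, (2 • m, h) ∈ RW ξ (n + 1) ↔ (m, h) ∈ RW ξ n
  ct : ∀ ξ n, 1 ≤ n → ∀ z ∈ T.Eig a b ξ, ∀ h, (z, h) ∈ RW ξ n → T.RK (h * T.hh b z) = 0
  mx : ∀ ξ h, T.Fix h → (∀ z ∈ T.Eig a b ξ, T.RK (h * T.hh b z) = 0) →
    ∃ z ∈ T.Eig a b ξ, T.hh b z = h
  qL : ∀ ξ, ∀ z ∈ T.Eig a b ξ, T.qf b (T.hh b z) = 0
  qH : ∀ h ∈ H, T.Fix h → T.qf b h = 0
  pw : ∀ α, T.Fix α → (∀ φ, T.Fix φ → T.P.c1 φ = φ → T.RK (α * φ) = 0) →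
    ∃ u, T.Fix u ∧ wp u = α

variable {a b : k[X]}

/-- The image of the Selmer group of level `n + 1` in the 2-Selmer group. -/
def DD (RW : G I → ℕ → AddSubgroup ((T.Cw a b).Point × L)) (ξ : G I) (n : ℕ) : Set L :=
  {h | ∃ z ∈ T.Eig a b ξ, (z, 0) ∈ RW ξ n ∧ T.hh b z = h}

/-- Points of the first type. -/
def Ml (ε : ℕ) (Q : (T.Cw a b).Point) : Prop := T.hh b Q ∈ T.d.Le (ε - 1)

/-- The solution of the local condition attached to a point of the first type. -/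
noncomputable def Zf (Q : (T.Cw a b).Point) : L :=
  Classical.epsilon fun ζ => wp ζ = T.bh (T.kap a b) * T.hh b Q ^ 2 ∧
    ζ + T.bh (T.kap a b) * T.ff Q ∈ T.d.Le (-1)

/-- The fixed solutions of the local condition. -/
def KG (κ : L) : AddSubgroup L where
  carrier := {ζ | T.Kr κ ζ ∧ T.Fix ζ}
  zero_mem' := ⟨by simp [Kr, wp], T.fix_zero⟩
  add_mem' hx hy := ⟨hx.1.add hy.1, hx.2.add hy.2⟩
  neg_mem' hx := by rwa [CharTwo.neg_eq]

variable (a b) in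
/-- The solutions that come from points of the twist. -/
def Yx (ε : ℕ) (ξ : G I) : Set L := {ζ | ∃ z ∈ T.Eig a b ξ, T.Ml ε z ∧ T.Zf z = ζ}

/-- The norm residue symbol of the twisting character. -/
noncomputable def nx (κ : L) (ψ : G I) (ζ : L) : ZMod 2 := T.RK (T.yy ψ * (ζ / T.bh κ))

/-- The hypotheses that hold for every curve of the family. -/
structure Bas (a b : k[X]) (H : AddSubgroup L)
    (RW : G I → ℕ → AddSubgroup ((T.Cw a b).Point × L)) (K ε : ℕ) : Prop where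
  kp : T.Kp H (T.kap a b) K
  par : T.Par2 a b K ε
  ax : T.Ax a b H RW

/-- The elements over the tower. -/
def Xt (RW : G I → ℕ → AddSubgroup ((T.Cw a b).Point × L)) (ε N : ℕ)
    (m : (T.Cw a b).Point) (ζ : L) : Prop :=
  T.Ml ε m ∧ T.Kr (T.kap a b) ζ ∧ (m, T.P.c1 ζ) ∈ ⨆ ξ, RW ξ N

/-- The elements of the twist. -/
def Sx (RW : G I → ℕ → AddSubgroup ((T.Cw a b).Point × L)) (ε : ℕ) (ξ : G I) (n : ℕ)
    (z : (T.Cw a b).Point) (ζ : L) : Prop :=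
  z ∈ T.Eig a b ξ ∧ T.Ml ε z ∧ ζ ∈ T.KG (T.kap a b) ∧ (z, T.P.c1 ζ) ∈ RW ξ n

variable {W : Type} [Fintype W] [DecidableEq W]

/-- The coordinates and the integral relation matrix. -/
structure Mx (RW : G I → ℕ → AddSubgroup ((T.Cw a b).Point × L)) (ε N : ℕ)
    (ν : L →+ (W → ZMod 2)) (B : G I → Matrix W W (ZMod 2))
    (μ : (T.Cw a b).Point × L →+ (W → AddCircle (1 : ℚ))) (A : G I → Matrix W W ℤ) : Prop where
  red : ∀ g, redM (A g) = B g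
  low : ∀ m ζ, T.Ml ε m → T.Xt RW ε N (2 ^ N • m) ζ → ∀ i,
    μ (2 ^ N • m, ζ) i = ((((ν (ζ + T.Zf m) i).val : ℚ) / 2 : ℚ) : AddCircle (1 : ℚ))
  rel : ∀ m ζ, T.Xt RW ε N m ζ → ∀ j, ∑ g, ∑ i, A g i j • μ (T.sQ a b g m, T.σ g ζ) i = 0

/-- The integer vector `v` represents an element of level `n`. -/
def Rp (μ : (T.Cw a b).Point × L →+ (W → AddCircle (1 : ℚ))) (N n : ℕ) (m : (T.Cw a b).Point)
    (ζ : L) (v : W → ℤ) : Prop :=
  ∀ i, μ (2 ^ (N - n) • m, ζ) i = (((v i : ℚ) / 2 ^ (n + 1) : ℚ) : AddCircle (1 : ℚ))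

/-- The hypotheses that hold for generic curves of the family. -/
structure Ctx (a b : k[X]) (H : AddSubgroup L)
    (RW : G I → ℕ → AddSubgroup ((T.Cw a b).Point × L)) (K ε : ℕ) (vv : (W → ZMod 2) →+ L)
    (Ψ ζ₀ : W → L) (ν : L →+ (W → ZMod 2)) (B : G I → Matrix W W (ZMod 2)) (τ : W → ZMod 2) :
    Prop extends T.Bas a b H RW K ε where
  fr0 : T.Fr0 H (T.kap a b) vv Ψ ζ₀ B
  frm : T.Frm H (T.kap a b) vv ν B
  ν_vv : ∀ u, ν (vv u) = u
  τ_eq : vv τ = 1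
  ont : ∀ o, ∃ ψ, D1 B ψ *ᵥ τ = o
  sym : ∀ ψ, (D1 B ψ)ᵀ = D1 B ψ
  two : 2 ≤ Fintype.card I

end Tw

end Pool.Agent.Lib.MP_788af2_nt.AS
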