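import Pool.Agent.Lib.MP_a3f657_nt.BK.XY

/-!
The parity of the higher Selmer ranks.
-/

set_option linter.unusedSectionVars false

namespace Pool.Agent.Lib.MP_788af2_nt.AS

open Polynomial WeierstrassCurve Pool.Agent.Lib.MP_a3f657_nt.Two Matrix

namespace Tw

variable {k : Type} [Field k] [Finite k] [CharP k 2] {I : Type} [Fintype I] [DecidableEq I]
  {β : I → k[X]} {L : Type} [Field L] [CharP L 2] {T : Tw β L} [DecidableEq L]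
  {a b : k[X]} {H : AddSubgroup L} {RW : G I → ℕ → AddSubgroup ((T.Cw a b).Point × L)} {K ε : ℕ}
  {ξ ψ : G I} {n : ℕ} {u : L}

namespace Bas

variable (h : T.Bas a b H RW K ε)

include h

lemma dd_mem {y : L} (h1 : y ∈ T.DD RW ξ n) : y ∈ H ∧ T.Fix y := by
  obtain ⟨z, hz, h2, rfl⟩ := h1
  exact ⟨h.ax.hh_mem h2, Eig_fix hz⟩

lemma mem_dd_zero {z : (T.Cw a b).Point} (hz : z ∈ T.Eig a b ξ) (h1 : T.hh b z ∈ H) :
    T.hh b z ∈ T.DD RW ξ 0 := by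
  refine ⟨z, hz, ?_, rfl⟩
  have h2 := h.ax.pow ξ 0 z
  rw [pow_zero, one_smul] at h2
  have h3 := h.ax.shift h2 h1 (Eig_fix hz)
  rwa [CharTwo.add_self_eq_zero] at h3

/-- The fixed elements of `H` are orthogonal to each other. -/
lemma xpar_iso {y y' : L} (h1 : y ∈ H) (h2 : T.Fix y) (h3 : y' ∈ H) (h4 : T.Fix y') :
    T.RK (y * y') = 0 := by
  have e := qf_add h.b_ne h2 h4
  rw [h.ax.qH _ (add_mem h1 h3) (h2.add h4), h.ax.qH _ h1 h2, h.ax.qH _ h3 h4] at e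
  simpa using e.symm

lemma xpar_vs_fin : (T.Vs H (T.kap a b) : Set L).Finite := by
  obtain ⟨S, -, hS⟩ := h.kp.exists_V
  exact S.finite_toSet.subset fun z hz => (hS z).2 hz

lemma xpar_y {ζ : L} (h1 : ζ ∈ T.Yx a b ε ξ) : ∃ z ∈ T.Eig a b ξ, T.hh b z = T.P.c1 ζ := by
  obtain ⟨z, hz, h2, rfl⟩ := h1
  exact ⟨z, hz, (h.par.zf_c1 h2).symm⟩

lemma xpar_y' {ζ : L} (h1 : ζ ∈ T.Yx a b ε ξ ∨ ζ + 1 ∈ T.Yx a b ε ξ) :
    ∃ z ∈ T.Eig a b ξ, T.hh b z = T.P.c1 ζ := by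
  rcases h1 with h1 | h1
  · exact h.xpar_y h1
  · obtain ⟨z, hz, e⟩ := h.xpar_y h1
    refine ⟨z, hz, ?_⟩
    rw [e, PB.c1_add, PB.c1_one, add_zero]

lemma xpar_dd {v : L} (hv : v ∈ T.Vs H (T.kap a b))
    (h1 : ∃ z ∈ T.Eig a b ξ, T.hh b z = T.P.c1 v) : T.P.c1 v ∈ T.DD RW ξ 0 := by
  obtain ⟨z, hz, e⟩ := h1
  rw [← e]
  exact h.mem_dd_zero hz (by rw [e]; exact hv.1.2)

lemma xpar_ml {z : (T.Cw a b).Point} (hz : z ∈ T.Eig a b ξ) (h1 : T.hh b z ∈ H)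
    (h2 : T.Ml ε z) : T.hh b z ∈ T.P.c1 '' (T.Vs H (T.kap a b) : Set L) := by
  have h3 := h.par.zf_kg hz h2
  have h4 := h.par.zf_c1 h2
  exact ⟨T.Zf z, ⟨⟨h3.1, by rw [h4]; exact h1⟩, h3.2⟩, h4⟩

lemma dd_fin (ξ : G I) : (T.DD RW ξ 0).Finite := by
  have hf := h.xpar_vs_fin.image T.P.c1
  by_cases h0 : ∃ z ∈ T.Eig a b ξ, T.hh b z ∈ H ∧ ¬ T.Ml ε z
  · obtain ⟨z0, hz0, h1, h2⟩ := h0
    refine (hf.union (hf.image fun y => y + T.hh b z0)).subset ?_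
    rintro y ⟨z, hz, h3, rfl⟩
    have h4 := h.ax.hh_mem h3
    by_cases h5 : T.Ml ε z
    · exact Or.inl (h.xpar_ml hz h4 h5)
    · refine Or.inr ⟨T.hh b (z + z0), h.xpar_ml (add_mem hz hz0) ?_ (h.par.ml_dich h5 h2), ?_⟩
      · rw [hh_add h.b_ne]
        exact add_mem h4 h1
      · show T.hh b (z + z0) + T.hh b z0 = T.hh b z
        rw [hh_add h.b_ne, add_assoc, CharTwo.add_self_eq_zero, add_zero]
  · refine hf.subset ?_
    rintro y ⟨z, hz, h3, rfl⟩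
    have h4 := h.ax.hh_mem h3
    refine h.xpar_ml hz h4 ?_
    by_contra h5
    exact h0 ⟨z, hz, h4, h5⟩

lemma xpar_IIa {z2 : (T.Cw a b).Point} (hz2 : z2 ∈ T.Eig a b ξ) (h2 : ¬ T.Ml ε z2)
    (hV : ∀ v ∈ T.Vs H (T.kap a b), v ∈ T.Yx a b ε ξ) (hu : T.Fix u)
    (h1 : ∀ y ∈ T.DD RW ξ 0, T.RK (u * y) = 0) :
    ∃ z ∈ T.Eig a b ξ, u + T.hh b z ∈ H := by
  obtain ⟨ζ, hζ, h3⟩ := h.kp.split hu fun v hv => h1 _ (h.xpar_dd hv (h.xpar_y (hV v hv)))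
  obtain ⟨ζ2, hζ2, h4⟩ := h.kp.split (Eig_fix hz2) fun v hv =>
    (h.y_caseII hz2 h2 (Vs_le_KG hv)).1 (hV v hv)
  have f2 : T.Fix (T.hh b z2 + T.P.c1 ζ2) := (Eig_fix hz2).add hζ2.2.c1
  have h5 : T.RK (T.hh b z2 * T.P.c1 ζ2) = 0 := by
    have e := qf_add h.b_ne (Eig_fix hz2) hζ2.2.c1
    rw [h.ax.qH _ h4 f2, h.ax.qL ξ z2 hz2, qf_kg h.b_ne hζ2] at e
    simpa using e.symm
  obtain ⟨z', hz', e'⟩ := h.xpar_y ((h.y_caseII hz2 h2 hζ2).2 h5)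
  have h6 : T.hh b (z2 + z') = T.hh b z2 + T.P.c1 ζ2 := by rw [hh_add h.b_ne, e']
  have h7 : T.RK (u * (T.hh b z2 + T.P.c1 ζ2)) = 0 := by
    rw [← h6]
    exact h1 _ (h.mem_dd_zero (add_mem hz2 hz') (by rw [h6]; exact h4))
  have h8 := h.xpar_iso h3 (hu.add hζ.2.c1) h4 f2
  rw [add_mul, RK_add, h7, zero_add, mul_add, RK_add, kg_iso h.kp.fix hζ hζ2, add_zero,
    mul_comm] at h8
  obtain ⟨z, hz, e⟩ := h.xpar_y ((h.y_caseII hz2 h2 hζ).2 h8)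
  exact ⟨z, hz, by rw [e]; exact h3⟩

lemma xpar_IIb {v0 : L} (hv0 : v0 ∈ T.Vs H (T.kap a b)) (hn : v0 ∉ T.Yx a b ε ξ)
    (hu : T.Fix u) (h0 : T.RK (u * T.P.c1 v0) = 0)
    (h1 : ∀ v ∈ T.Vs H (T.kap a b), v ∈ T.Yx a b ε ξ → T.RK (u * T.P.c1 v) = 0) :
    ∃ z ∈ T.Eig a b ξ, u + T.hh b z ∈ H := by
  obtain ⟨ζ, hζ, h3⟩ := h.kp.split hu fun v hv => by
    by_cases h4 : v ∈ T.Yx a b ε ξ
    · exact h1 v hv h4
    · have h5 := h1 _ (add_mem hv hv0) (h.y_ind (Vs_le_KG hv) (Vs_le_KG hv0) h4 hn)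
      rwa [PB.c1_add, mul_add, RK_add, h0, add_zero] at h5
  by_cases h4 : ζ ∈ T.Yx a b ε ξ
  · obtain ⟨z, hz, e⟩ := h.xpar_y h4
    exact ⟨z, hz, by rw [e]; exact h3⟩
  · obtain ⟨z, hz, e⟩ := h.xpar_y (h.y_ind hζ (Vs_le_KG hv0) h4 hn)
    refine ⟨z, hz, ?_⟩
    rw [e, PB.c1_add, ← add_assoc]
    exact add_mem h3 hv0.1.2

theorem dual_one (hu : T.Fix u) (h1 : ∀ y ∈ T.DD RW ξ 0, T.RK (u * y) = 0) :
    ∃ z ∈ T.Eig a b ξ, u + T.hh b z ∈ H := by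
  by_cases h0 : ∀ z ∈ T.Eig a b ξ, T.Ml ε z
  · obtain ⟨ζ, hζ, h3⟩ := h.kp.split hu fun v hv =>
      h1 _ (h.xpar_dd hv (h.xpar_y' (h.y_caseI h0 (Vs_le_KG hv))))
    obtain ⟨z, hz, e⟩ := h.xpar_y' (h.y_caseI h0 hζ)
    exact ⟨z, hz, by rw [e]; exact h3⟩
  push Not at h0
  obtain ⟨z2, hz2, h2⟩ := h0
  by_cases hV : ∀ v ∈ T.Vs H (T.kap a b), v ∈ T.Yx a b ε ξ
  · exact h.xpar_IIa hz2 h2 hV hu h1
  push Not at hV
  obtain ⟨v0, hv0, hn⟩ := hV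
  have h3 : ∀ v ∈ T.Vs H (T.kap a b), v ∈ T.Yx a b ε ξ → T.RK (u * T.P.c1 v) = 0 :=
    fun v hv h4 => h1 _ (h.xpar_dd hv (h.xpar_y h4))
  by_cases h4 : T.RK (u * T.P.c1 v0) = 0
  · exact h.xpar_IIb hv0 hn hu h4 h3
  · have h5 : T.RK (T.hh b z2 * T.P.c1 v0) ≠ 0 := fun e =>
      hn ((h.y_caseII hz2 h2 (Vs_le_KG hv0)).2 e)
    have h6 : ∀ x y : ZMod 2, x ≠ 0 → y ≠ 0 → x + y = 0 := by decide
    obtain ⟨z, hz, e⟩ := h.xpar_IIb hv0 hn (hu.add (Eig_fix hz2))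
      (by rw [add_mul, RK_add]; exact h6 _ _ h4 h5)
      (fun v hv h7 => by
        rw [add_mul, RK_add, h3 v hv h7, (h.y_caseII hz2 h2 (Vs_le_KG hv)).1 h7, add_zero])
    refine ⟨z2 + z, add_mem hz2 hz, ?_⟩
    rwa [hh_add h.b_ne, ← add_assoc]

omit h in
/-- The descent map as a homomorphism. -/
noncomputable def xparH (T : Tw β L) (a : k[X]) {b : k[X]} (hb : od b ≠ 0) :
    (T.Cw a b).Point →+ L :=
  AddMonoidHom.mk' (T.hh b) (hh_add hb)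

omit h in
/-- The points of level `n`. -/
noncomputable def xparZ (T : Tw β L) (a b : k[X]) (RW : G I → ℕ → AddSubgroup ((T.Cw a b).Point × L))
    (ξ : G I) (n : ℕ) : AddSubgroup (T.Cw a b).Point :=
  T.Eig a b ξ ⊓ (RW ξ n).comap (AddMonoidHom.inl _ _)

omit h in
lemma xpar_memZ {z : (T.Cw a b).Point} :
    z ∈ xparZ T a b RW ξ n ↔ z ∈ T.Eig a b ξ ∧ (z, 0) ∈ RW ξ n := Iff.rfl

lemma xpar_map (ξ : G I) (n : ℕ) :
    ((xparZ T a b RW ξ n).map (xparH T a h.b_ne) : Set L) = T.DD RW ξ n := by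
  ext y
  constructor
  · rintro ⟨z, hz, rfl⟩
    exact ⟨z, hz.1, hz.2, rfl⟩
  · rintro ⟨z, h1, h2, rfl⟩
    exact ⟨z, ⟨h1, h2⟩, rfl⟩

omit h in
/-- A chosen second coordinate one level higher. -/
noncomputable def xparU (T : Tw β L) (a b : k[X])
    (RW : G I → ℕ → AddSubgroup ((T.Cw a b).Point × L)) (ξ : G I) (n : ℕ)
    (z : (T.Cw a b).Point) : L :=
  Classical.epsilon fun y => (z, y) ∈ RW ξ (n + 1)

lemma xpar_U {z : (T.Cw a b).Point} (hz : z ∈ xparZ T a b RW ξ n) :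
    (z, xparU T a b RW ξ n z) ∈ RW ξ (n + 1) :=
  Classical.epsilon_spec (h.ax.up ξ n z hz.2)

/-- The pairing does not depend on the chosen second coordinate. -/
lemma xpar_wd {z : (T.Cw a b).Point} (hz : z ∈ T.Eig a b ξ) {y y' w : L}
    (h1 : (z, y) ∈ RW ξ n) (h2 : (z, y') ∈ RW ξ n) (hw : w ∈ T.DD RW ξ 0) :
    T.RK (y * w) = T.RK (y' * w) := by
  have h3 := h.xpar_iso (h.ax.diff h1 h2)
    ((h.ax.fix h.b_ne hz h1).add (h.ax.fix h.b_ne hz h2)) (h.dd_mem hw).1 (h.dd_mem hw).2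
  rw [add_mul, RK_add] at h3
  have h4 : ∀ x y : ZMod 2, x + y = 0 → x = y := by decide
  exact h4 _ _ h3

theorem parity (ξ : G I) (n : ℕ) :
    ∃ i, (T.DD RW ξ n).ncard = (T.DD RW ξ (n + 1)).ncard * 4 ^ i := by
  have hD : ∀ y, y ∈ (xparZ T a b RW ξ 0).map (xparH T a h.b_ne) → y ∈ T.DD RW ξ 0 := by
    intro y hy
    rw [← h.xpar_map]
    exact hy
  have key := par_abs (A := (T.Cw a b).Point) (V := L) (fun x => CharTwo.add_self_eq_zero x)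
    (xparH T a h.b_ne) (xparZ T a b RW ξ) (by rw [h.xpar_map]; exact h.dd_fin ξ)
    (fun n z hz => ⟨hz.1, h.ax.down hz.2⟩)
    (fun n z hz => ⟨nsmul_mem hz.1 2, (h.ax.two ξ n z 0).2 hz.2⟩)
    (fun n z y => T.RK (xparU T a b RW ξ n z * y))
    (fun n z hz z' hz' y hy => by
      have e := h.xpar_wd (add_mem hz.1 hz'.1) (h.xpar_U (add_mem hz hz'))
        (add_mem (h.xpar_U hz) (h.xpar_U hz')) (hD y hy)
      rw [e, add_mul, RK_add])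
    (fun n z y y' => by rw [mul_add, RK_add])
    (fun n z hz y hy =>
      h.xpar_wd (nsmul_mem hz.1 2)
        (h.xpar_U (z := 2 • z) ⟨nsmul_mem hz.1 2, (h.ax.two ξ n z 0).2 hz.2⟩)
        ((h.ax.two ξ (n + 1) z _).2 (h.xpar_U hz)) (hD y hy))
    (fun n z hz => h.ax.ct ξ (n + 1) (Nat.le_add_left 1 n) z hz.1 _ (h.xpar_U hz))
    (fun n z hz y hy => by
      have e := h.xpar_wd hz.1 (h.xpar_U (z := z) ⟨hz.1, h.ax.down hz.2⟩) hz.2 (hD y hy)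
      rw [e, zero_mul, RK_zero])
    (fun n z hz h1 => by
      have h2 := h.xpar_U hz
      have h3 := h.ax.fix h.b_ne hz.1 h2
      obtain ⟨z1, hz1, h4⟩ := h.dual_one (ξ := ξ) h3 fun y hy =>
        h1 y (by rw [← SetLike.mem_coe, h.xpar_map]; exact hy)
      refine ⟨2 ^ n • z1, add_mem hz.1 (nsmul_mem (nsmul_mem hz1 _) 2), ?_⟩
      have h5 := add_mem h2 (h.ax.pow ξ (n + 1) z1)
      have h6 := h.ax.shift h5 h4 (h3.add (Eig_fix hz1))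
      rw [CharTwo.add_self_eq_zero] at h6
      show (z + 2 • 2 ^ n • z1, (0 : L)) ∈ RW ξ (n + 1)
      rwa [smul_smul, ← pow_succ'])
    n
  rwa [h.xpar_map, h.xpar_map] at key

theorem big (ξ : G I) : Nat.card (T.Vs H (T.kap a b)) ≤ 4 * (T.DD RW ξ 0).ncard := by
  have hf := h.dd_fin ξ
  let s : L → L := fun y => Classical.epsilon fun ζ => T.Kr (T.kap a b) ζ ∧ T.P.c1 ζ = y
  have hs : ∀ ζ, T.Kr (T.kap a b) ζ → ζ = s (T.P.c1 ζ) ∨ ζ = s (T.P.c1 ζ) + 1 := by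
    intro ζ h1
    have h2 : T.Kr (T.kap a b) (s (T.P.c1 ζ)) ∧ T.P.c1 (s (T.P.c1 ζ)) = T.P.c1 ζ :=
      Classical.epsilon_spec (p := fun ζ' => T.Kr (T.kap a b) ζ' ∧ T.P.c1 ζ' = T.P.c1 ζ)
        ⟨ζ, h1, rfl⟩
    have h3 := h1.add h2.1
    rw [Kr, PB.c1_add, h2.2, CharTwo.add_self_eq_zero, zero_pow two_ne_zero, mul_zero,
      wp_eq_zero] at h3
    generalize s (T.P.c1 ζ) = w at h3
    rcases h3 with h3 | h3
    · left
      grind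
    · right
      grind
  let S : Set L := s '' T.DD RW ξ 0 ∪ (fun y => s y + 1) '' T.DD RW ξ 0
  have hS : S.ncard ≤ 2 * (T.DD RW ξ 0).ncard := by
    have h1 := Set.ncard_union_le (s '' T.DD RW ξ 0) ((fun y => s y + 1) '' T.DD RW ξ 0)
    have h2 := Set.ncard_image_le (f := s) hf
    have h3 := Set.ncard_image_le (f := fun y => s y + 1) hf
    simp only [S]
    omega
  have hSf : S.Finite := (hf.image _).union (hf.image _)
  have hY : ∀ v ∈ T.Vs H (T.kap a b), v ∈ T.Yx a b ε ξ → v ∈ S := by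
    intro v hv h1
    have h2 := h.xpar_dd hv (h.xpar_y h1)
    rcases hs v hv.1.1 with e | e
    · exact Or.inl ⟨_, h2, e.symm⟩
    · exact Or.inr ⟨_, h2, e.symm⟩
  have e0 : Nat.card (T.Vs H (T.kap a b)) = (T.Vs H (T.kap a b) : Set L).ncard := rfl
  rw [e0]
  by_cases hV : ∀ v ∈ T.Vs H (T.kap a b), v ∈ T.Yx a b ε ξ
  · have h1 := Set.ncard_le_ncard (s := (T.Vs H (T.kap a b) : Set L))
      (fun v hv => hY v hv (hV v hv)) hSf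
    omega
  push Not at hV
  obtain ⟨v0, hv0, hn⟩ := hV
  have h1 : (T.Vs H (T.kap a b) : Set L) ⊆ S ∪ (fun y => y + v0) '' S := by
    intro v hv
    by_cases h2 : v ∈ T.Yx a b ε ξ
    · exact Or.inl (hY v hv h2)
    · refine Or.inr ⟨v + v0, hY _ (add_mem hv hv0)
        (h.y_ind (Vs_le_KG hv) (Vs_le_KG hv0) h2 hn), ?_⟩
      show v + v0 + v0 = v
      rw [add_assoc, CharTwo.add_self_eq_zero, add_zero]
  have h2 := Set.ncard_le_ncard h1 (hSf.union (hSf.image _))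
  have h3 := Set.ncard_union_le S ((fun y => y + v0) '' S)
  have h4 := Set.ncard_image_le (f := fun y => y + v0) hSf
  omega

end Bas

end Tw

end Pool.Agent.Lib.MP_788af2_nt.AS
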