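import Pool.Agent.Lib.MP_a3f657_nt.BK.XSur
import Pool.Agent.Lib.MP_a3f657_nt.BK.XPar

/-!
The matrix model of the Selmer groups of the twists.
-/

set_option linter.unusedSectionVars false

namespace Pool.Agent.Lib.MP_788af2_nt.AS

open Polynomial WeierstrassCurve Pool.Agent.Lib.MP_a3f657_nt.Two Matrix

private lemma xitf_card {V L : Type} [AddCommGroup V] [Finite V] [AddCommGroup L] (f : V →+ L)
    (S : AddSubgroup V) {τ : V} (h0 : τ ≠ 0) (h1 : f τ = 0)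
    (h2 : ∀ x ∈ S, f x = 0 → x = 0 ∨ x = τ) [Decidable (τ ∈ S)] :
    Nat.card S = (f '' (S : Set V)).ncard * if τ ∈ S then 2 else 1 := by
  set g : S →+ L := f.comp S.subtype with hg
  have e1 : Nat.card S = Nat.card g.range * Nat.card g.ker := by
    rw [AddSubgroup.card_eq_card_quotient_mul_card_addSubgroup g.ker,
      Nat.card_congr (QuotientAddGroup.quotientKerEquivRange g).toEquiv]
  have e2 : Nat.card g.range = (f '' (S : Set V)).ncard := by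
    rw [← Nat.card_coe_set_eq]
    refine Nat.card_congr (Equiv.setCongr ?_)
    ext y
    simp [hg]
  rw [e1, e2]
  congr 1
  split_ifs with ht
  · have e3 : (g.ker : Set S) = {0, ⟨τ, ht⟩} := by
      ext x
      simp only [SetLike.mem_coe, AddMonoidHom.mem_ker, Set.mem_insert_iff, Set.mem_singleton_iff]
      refine ⟨fun hx => ?_, ?_⟩
      · rcases h2 x x.2 hx with e | e
        · exact Or.inl (Subtype.ext e)
        · exact Or.inr (Subtype.ext e)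
      · rintro (rfl | rfl)
        · exact map_zero g
        · exact h1
    have e4 : Nat.card g.ker = (g.ker : Set S).ncard := (Nat.card_coe_set_eq _)
    rw [e4, e3, Set.ncard_pair]
    exact fun e => h0 (congrArg Subtype.val e).symm
  · have e3 : g.ker = ⊥ := by
      rw [eq_bot_iff]
      intro x hx
      rcases h2 x x.2 hx with e | e
      · exact AddSubgroup.mem_bot.2 (Subtype.ext e)
      · exact absurd (e ▸ x.2) ht
    rw [e3, AddSubgroup.card_bot]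

private lemma xitf_dbl {L : Type} [AddCommGroup L] {D E : Set L} (hE : E.Finite) (y : L)
    (h1 : D = E ∪ (fun x => y + x) '' E) (h2 : ∀ x ∈ E, y + x ∉ E) : D.ncard = E.ncard * 2 := by
  rw [h1, Set.ncard_union_eq ?_ hE (hE.image _),
    Set.ncard_image_of_injective _ (add_right_injective y)]
  · ring
  · rw [Set.disjoint_right]
    rintro _ ⟨x, hx, rfl⟩
    exact h2 x hx

namespace Tw

variable {k : Type} [Field k] [Finite k] [CharP k 2] {I : Type} [Fintype I] [DecidableEq I]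
  {β : I → k[X]} {L : Type} [Field L] [CharP L 2] {T : Tw β L} [DecidableEq L]
  {a b : k[X]} {H : AddSubgroup L} {RW : G I → ℕ → AddSubgroup ((T.Cw a b).Point × L)} {K ε : ℕ}
  {ξ ψ : G I} {n : ℕ}

variable {W : Type} [Fintype W] [DecidableEq W] {vv : (W → ZMod 2) →+ L} {Ψ ζ₀ : W → L}
  {ν : L →+ (W → ZMod 2)} {B : G I → Matrix W W (ZMod 2)} {τ : W → ZMod 2} {N : ℕ}
  {μ : (T.Cw a b).Point × L →+ (W → AddCircle (1 : ℚ))} {A c : G I → Matrix W W ℤ}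
  {m z z' : (T.Cw a b).Point} {ζ ζ' u : L} {v v' : W → ℤ}

theorem Ctx.cnt (h : T.Ctx a b H RW K ε vv Ψ ζ₀ ν B τ) (hM : T.Mx RW ε N ν B μ A)
    (hc : ∀ ξ, Ach A ξ = 2 • c ξ) (hn : n + 1 < N) [Decidable (τ ∈ Lq (c ξ) τ n)]
    [Decidable (τ ∈ Lq (c ξ) τ (n + 1))] :
    (T.DD RW ξ n).ncard * (if τ ∈ Lq (c ξ) τ n then 2 else 1) =
      Nat.card (Lq (c ξ) τ n) * if τ ∈ Lq (c ξ) τ (n + 1) then 2 else 1 := by
  have hb := h.toBas.b_ne
  have hP := h.par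
  have hA := h.ax
  have hkr : ∀ w, T.Kr (T.kap a b) (vv w) := fun w => ((h.fr0.range _).2 ⟨w, rfl⟩).1.1
  set f : (W → ZMod 2) →+ L := T.P.c1h.comp vv with hf
  have hf' : ∀ w, f w = T.P.c1 (vv w) := fun w => rfl
  set E : Set L := f '' (Lq (c ξ) τ n : Set (W → ZMod 2)) with hE
  have hEf : E.Finite := (Set.toFinite _).image _
  have mE : ∀ y, y ∈ E ↔ ∃ z ∈ T.Eig a b ξ, T.Ml ε z ∧ (z, 0) ∈ RW ξ n ∧ T.hh b z = y := by
    intro y
    constructor
    · rintro ⟨w, hw, rfl⟩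
      obtain ⟨z, ⟨h1, h2, -, h4⟩, h5⟩ := (h.lq_iff hM hc (by omega)).1 hw
      rw [PB.c1_zero] at h4
      exact ⟨z, h1, h2, h4, by rw [hf', ← h5, hP.zf_c1 h2]⟩
    · rintro ⟨z, h1, h2, h4, rfl⟩
      have h6 : T.Zf z ∈ T.Vs H (T.kap a b) :=
        ⟨⟨hP.zf_kr h2, by rw [hP.zf_c1 h2]; exact hA.hh_mem h4⟩, (hP.zf_kg h1 h2).2⟩
      obtain ⟨w, hw⟩ := (h.fr0.range _).1 h6
      refine ⟨w, (h.lq_iff hM hc (by omega)).2 ⟨z, ⟨h1, h2, zero_mem _, ?_⟩, hw.symm⟩, ?_⟩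
      · rwa [PB.c1_zero]
      · rw [hf', hw, hP.zf_c1 h2]
  have c1 : Nat.card (Lq (c ξ) τ n) = E.ncard * if τ ∈ Lq (c ξ) τ n then 2 else 1 := by
    refine xitf_card f _ h.τ_ne (by rw [hf', h.τ_eq, PB.c1_one]) fun x _ hx => ?_
    rcases (hkr x).cases hx with e | e
    · exact Or.inl (h.fr0.inj (by rw [e, map_zero]))
    · exact Or.inr (h.fr0.inj (by rw [e, h.τ_eq]))
  have key : τ ∈ Lq (c ξ) τ (n + 1) ↔ ∃ z ∈ T.Eig a b ξ, ¬ T.Ml ε z ∧ (z, 0) ∈ RW ξ n := by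
    rw [h.lq_iff hM hc hn, h.τ_eq]
    constructor
    · rintro ⟨z, ⟨h1, h2, -, h4⟩, h5⟩
      obtain ⟨z₂, h6, rfl⟩ := hP.zf_eq_one h2 h5
      rw [PB.c1_zero] at h4
      exact ⟨z₂, Eig_half hb h1, h6, (hA.two ξ n z₂ 0).1 h4⟩
    · rintro ⟨z, h1, h2, h4⟩
      refine ⟨2 • z, ⟨nsmul_mem h1 2, hP.ml_two z, zero_mem _, ?_⟩, hP.zf_two' h2⟩
      rw [PB.c1_zero]
      exact (hA.two ξ n z 0).2 h4
  have c2 : (T.DD RW ξ n).ncard = E.ncard * if τ ∈ Lq (c ξ) τ (n + 1) then 2 else 1 := by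
    split_ifs with ht
    · obtain ⟨z₂, g1, g2, g4⟩ := key.1 ht
      have add0 : ∀ z, (z, (0 : L)) ∈ RW ξ n → (z₂ + z, (0 : L)) ∈ RW ξ n := fun z hz => by
        simpa using add_mem g4 hz
      refine xitf_dbl hEf (T.hh b z₂) ?_ ?_
      · ext y
        constructor
        · rintro ⟨z, h1, h4, rfl⟩
          by_cases h2 : T.Ml ε z
          · exact Or.inl ((mE _).2 ⟨z, h1, h2, h4, rfl⟩)
          · refine Or.inr ⟨_, (mE _).2 ⟨z₂ + z, add_mem g1 h1, hP.ml_dich g2 h2, add0 z h4, rfl⟩, ?_⟩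
            simp only
            rw [hh_add hb, ← add_assoc, CharTwo.add_self_eq_zero, zero_add]
        · rintro (hy | ⟨x, hx, rfl⟩)
          · obtain ⟨z, h1, -, h4, rfl⟩ := (mE _).1 hy
            exact ⟨z, h1, h4, rfl⟩
          · obtain ⟨z, h1, -, h4, rfl⟩ := (mE _).1 hx
            exact ⟨z₂ + z, add_mem g1 h1, add0 z h4, hh_add hb _ _⟩
      · intro x hx hy
        obtain ⟨z, -, h2, -, rfl⟩ := (mE _).1 hx
        obtain ⟨z', -, h2', -, e⟩ := (mE _).1 hy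
        have h7 : T.Ml ε (z₂ + z) := by
          unfold Ml at h2' ⊢
          rwa [hh_add hb, ← e]
        exact g2 (by simpa using hP.ml_sub h7 h2)
    · rw [mul_one]
      congr 1
      ext y
      rw [mE]
      constructor
      · rintro ⟨z, h1, h4, rfl⟩
        refine ⟨z, h1, ?_, h4, rfl⟩
        by_contra h2
        exact ht (key.2 ⟨z, h1, h2, h4⟩)
      · rintro ⟨z, h1, -, h4, rfl⟩
        exact ⟨z, h1, h4, rfl⟩
  rw [c1, c2]
  ring

theorem Ctx.itf (h : T.Ctx a b H RW K ε vv Ψ ζ₀ ν B τ) (J : ℕ) :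
    ∃ A c : G I → Matrix W W ℤ, (∀ g, redM (A g) = B g) ∧ (∀ ξ, Ach A ξ = 2 • c ξ) ∧
      ∀ ξ, Itf (c ξ) τ (fun n => (T.DD RW ξ n).ncard) J := by
  obtain ⟨μ, A, hM⟩ := h.toBas.exists_mx h.frm (J + 1)
  obtain ⟨c, hc⟩ := exists_half (A := A) (by simp only [hM.red]; exact h.frm.d0)
  refine ⟨A, c, hM.red, hc, fun ξ => ⟨fun m hm v hv => h.alt hM hc (by omega) hv, ?_,
    fun m hm => by convert h.cnt hM hc (n := m) (ξ := ξ) (by omega)⟩⟩
  intro m hm h1 v hv e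
  obtain ⟨m, rfl⟩ : ∃ m', m = m' + 1 := ⟨m - 1, by omega⟩
  exact h.tau hM hc (by omega) hv e

end Tw

end Pool.Agent.Lib.MP_788af2_nt.AS
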