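import Pool.Agent.Lib.MP_a3f657_nt.BK.XZ
import Pool.Agent.Lib.MP_788af2_nt.TT.Fred

/-!
The fixed solutions of the local condition.
-/

set_option linter.unusedSectionVars false

namespace Pool.Agent.Lib.MP_788af2_nt.AS

open Polynomial WeierstrassCurve Pool.Agent.Lib.MP_a3f657_nt.Two Matrix

namespace Tw

variable {k : Type} [Field k] [Finite k] [CharP k 2] {I : Type} [Fintype I] [DecidableEq I]
  {β : I → k[X]} {L : Type} [Field L] [CharP L 2] {T : Tw β L} [DecidableEq L]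
  {a b : k[X]} {H : AddSubgroup L} {RW : G I → ℕ → AddSubgroup ((T.Cw a b).Point × L)} {K ε : ℕ}
  {ξ ψ : G I} {n : ℕ} {κ ζ ζ' y h h' : L}

private lemma xk_c0_bh (T : Tw β L) (κ : L) : T.P.c0 (T.bh κ) = κ := by simp [bh, PB.c0_add]

private lemma xk_c1_bh (T : Tw β L) (κ : L) : T.P.c1 (T.bh κ) = 1 := by simp [bh, PB.c1_add]

private lemma xk_comb_add {A : Type} [Ring A] [CharP A 2] (γ : I → A) (x y : G I) :
    comb γ (x + y) = comb γ x + comb γ y := by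
  simp only [comb, Pi.add_apply, map_add, add_mul, Finset.sum_add_distrib]

private lemma xk_fix_D (hy : T.Fix y) : T.Fix (T.P.D y) := hy.c1.pow 2

private lemma xk_Θ_fix (hκ : T.Fix κ) (hy : T.Fix y) : T.Fix (T.Θ κ y) :=
  (hy.add hy.c0).add (hκ.mul hy.c1)

lemma RK_D (hy : T.Fix y) : T.RK (T.P.D y) = 0 := by
  rw [← T.RK_c1 (xk_fix_D hy), PB.D, PB.c1_sq, RK_zero]

lemma RK_ident (hκ : T.Fix κ) (h1 : ζ ∈ T.KG κ) (hy : T.Fix y) :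
    T.RK (T.Θ κ y * (ζ / T.bh κ)) = T.RK (T.P.c1 y * T.P.c1 ζ) := by
  have hl := Kr.log h1.1
  have hf : T.Fix (ζ / T.bh κ) := Fix.div h1.2 (T.bh_fix hκ)
  rw [Kr.c1_eq h1.1]
  generalize ζ / T.bh κ = φ at hl hf ⊢
  have e : T.Θ κ y * φ = y * φ + (T.P.c0 y * φ + κ * T.P.c1 y * φ) := by rw [Θ]; ring
  rw [e, RK_add, ← T.RK_c1 (hy.mul hf), PB.c1_mul, hl, ← RK_add]
  congr 1
  grind

lemma kg_iso (hκ : T.Fix κ) (h1 : ζ ∈ T.KG κ) (h2 : ζ' ∈ T.KG κ) :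
    T.RK (T.P.c1 ζ * T.P.c1 ζ') = 0 := by
  have e := RK_ident hκ h2 (y := ζ) h1.2
  rw [T.Kr_iff.1 h1.1, zero_mul, RK_zero] at e
  exact e.symm

lemma one_mem_KG (T : Tw β L) (κ : L) : (1 : L) ∈ T.KG κ := by
  exact ⟨by simp [Kr], T.fix_one⟩

lemma Vs_le_KG (h1 : ζ ∈ T.Vs H κ) : ζ ∈ T.KG κ := ⟨h1.1.1, h1.2⟩

lemma Kp.kg_c1_le (hK : T.Kp H κ K) (h1 : ζ ∈ T.KG κ) : T.P.c1 ζ ∈ T.d.Le K := by
  have h0 := T.bh_ne κ
  have hf : T.Fix ζ := h1.2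
  have h2 := T.log_le (hf.div (T.bh_fix hK.fix)).fx (Kr.log h1.1)
  have e : ζ = ζ / T.bh κ * T.bh κ := by field_simp
  have h3 : ζ ∈ T.d.Le (2 * K) := by
    rw [e]
    exact DF.Le.mul h2 hK.bh_le (by simp [gam])
  exact Fix.c1_le hf h3 (by linarith)

lemma log_mem_KG (hκ : T.Fix κ) {φ : L} (h1 : T.Fix φ) (h2 : T.P.c1 φ = φ) :
    T.bh κ * φ ∈ T.KG κ := by
  refine ⟨?_, (T.bh_fix hκ).mul h1⟩
  have e := T.P.spec φ
  rw [h2] at e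
  rw [Kr, PB.c1_mul, xk_c0_bh, xk_c1_bh, h2, wp, bh]
  generalize T.P.c0 φ = g at e ⊢
  grind

lemma c1_bh_sq (T : Tw β L) (κ h : L) : T.P.c1 (T.bh κ * h ^ 2) = h := by
  rw [mul_comm, PB.c1_sq_mul, xk_c1_bh, mul_one]

lemma RK_bh_sq (hκ : T.Fix κ) (h1 : ζ ∈ T.KG κ) (h2 : T.Fix h) :
    T.RK (T.bh κ * h ^ 2 * (ζ / T.bh κ)) = T.RK (h * T.P.c1 ζ) := by
  have h0 := T.bh_ne κ
  have e : T.bh κ * h ^ 2 * (ζ / T.bh κ) = h ^ 2 * ζ := by field_simp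
  have _ := hκ
  rw [e, T.RK_sq_mul h2 h1.2]

lemma qf_add (hb : od b ≠ 0) (h1 : T.Fix h) (h2 : T.Fix h') :
    T.qf b (h + h') = T.qf b h + T.qf b h' + T.RK (h * h') := by
  have h0 := T.p_ne hb
  have f1 : T.Fix (h / T.p (od b)) := h1.div (T.fix_p _)
  have f2 : T.Fix (h' / T.p (od b)) := h2.div (T.fix_p _)
  have e1 : h * h' = h / T.p (od b) * (h' / T.p (od b)) * T.p (od b) ^ 2 := by field_simp
  rw [qf, qf, qf, add_div, e1]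
  generalize h / T.p (od b) = s at f1 ⊢
  generalize h' / T.p (od b) = s' at f2 ⊢
  have e2 := RK_D ((T.fix_p b).mul (f1.mul f2))
  have e3 : T.P.D (T.p b) = T.p (od b) ^ 2 := by rw [PB.D, c1_od]
  rw [PB.D_mul, PB.D_mul, e3] at e2
  rw [← add_zero (T.RK (s * s' * T.p (od b) ^ 2)), ← e2, ← RK_add, ← RK_add, ← RK_add, PB.D_add]
  congr 1
  grind

lemma qf_kg (hb : od b ≠ 0) (h1 : ζ ∈ T.KG (T.kap a b)) : T.qf b (T.P.c1 ζ) = 0 := by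
  have h0 := T.p_ne hb
  have f1 : T.Fix (T.P.c1 ζ / T.p (od b)) := (Fix.c1 h1.2).div (T.fix_p _)
  have e0 : T.P.c1 ζ = T.p (od b) * (T.P.c1 ζ / T.p (od b)) := by field_simp
  have e1 : wp ζ = T.bh (T.kap a b) * T.P.c1 ζ ^ 2 := h1.1
  rw [qf]
  generalize T.P.c1 ζ / T.p (od b) = s at f1 e0 ⊢
  by_cases hs : s = 0
  · rw [hs, zero_mul, mul_zero, RK_zero]
  have e2 : T.p b = T.p (ev b) ^ 2 + T.P.b * T.p (od b) ^ 2 := by
    have := T.P.spec (T.p b)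
    rwa [c0_ev, c1_od] at this
  have f2 : T.Fix (T.p (od b) / T.p (od a)) := (T.fix_p _).div (T.fix_p _)
  have e3 : T.kap a b = (T.p (od b) / T.p (od a)) ^ 2 / T.p (od b) + T.p (ev b) / T.p (od b) := by
    rw [kap]
    by_cases ha : T.p (od a) = 0
    · simp [ha]
    · field_simp
  generalize T.p (od b) / T.p (od a) = w at f2 e3
  have e4 : T.p b * s ^ 2 = wp ζ + (w ^ 2 * s) ^ 2 := by
    have e5 : T.kap a b * T.p (od b) = w ^ 2 + T.p (ev b) := by rw [e3]; field_simp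
    rw [e1, e0, bh, e2]
    generalize T.kap a b = κ at e5
    grind
  have f3 : T.Fix (T.P.D s / s) := (xk_fix_D f1).div f1
  have e6 : T.p b * (s * T.P.D s) = wp ζ * (T.P.D s / s) + (w ^ 2 * s) ^ 2 * (T.P.D s / s) := by
    rw [← add_mul, ← e4]
    field_simp
  have e7 : w ^ 2 * s * (T.P.D s / s) = T.P.D (w ^ 2 * s) := by
    rw [PB.D_sq_mul]
    field_simp
  rw [e6, RK_add, T.RK_wp_mul h1.2 f3 (T.c1_dlog s), zero_add,
    T.RK_sq_mul ((f2.pow 2).mul f1) f3, T.c1_dlog, e7]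
  exact RK_D ((f2.pow 2).mul f1)

lemma nx_add (T : Tw β L) (κ : L) (ψ ψ' : G I) (ζ : L) :
    T.nx κ (ψ + ψ') ζ = T.nx κ ψ ζ + T.nx κ ψ' ζ := by
  have e : T.yy (ψ + ψ') = T.yy ψ + T.yy ψ' := by
    rw [yy_eq, yy_eq, yy_eq, xk_comb_add, map_add]
    grind
  rw [nx, nx, nx, e, add_mul, RK_add]

lemma nx_add' (T : Tw β L) (κ : L) (ψ : G I) (ζ ζ' : L) :
    T.nx κ ψ (ζ + ζ') = T.nx κ ψ ζ + T.nx κ ψ ζ' := by
  rw [nx, nx, nx, add_div, mul_add, RK_add]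

lemma nx_one (T : Tw β L) (H : AddSubgroup L) (κ : L) (ψ : G I) :
    T.nx κ ψ 1 = T.d1 H κ ψ 1 1 := by
  rw [nx, d1, PB.c1_one, mul_zero, mul_zero, R_zero, add_zero, mul_one]

/-- The twisted element. -/
lemma Θ_θ (h1 : T.Kr κ ζ) (ψ : G I) :
    T.Θ κ (comb T.θ ψ * ζ) / T.bh κ = T.P.c1 (T.yy ψ * (ζ / T.bh κ)) := by
  have h0 := T.bh_ne κ
  have hl := Kr.log h1
  have hΘ := T.Kr_iff.1 h1
  have e : ζ = ζ / T.bh κ * T.bh κ := by field_simp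
  have e0 : T.P.c0 ζ = T.P.c0 (ζ / T.bh κ) * κ + T.P.b * (ζ / T.bh κ) := by
    conv_lhs => rw [e, PB.c0_mul, xk_c0_bh, xk_c1_bh, hl, mul_one]
  have e1 := Kr.c1_eq h1
  obtain ⟨t0, t1⟩ := T.P.uniq (T.comb_spec ψ)
  have e2 : T.yy ψ * (ζ / T.bh κ) = T.p (comb β ψ) ^ 2 * (T.P.b * (ζ / T.bh κ)) := by
    rw [yy_eq]; ring
  rw [e2, PB.c1_sq_mul, PB.c1_b_mul, div_eq_iff h0]
  rw [Θ] at hΘ
  rw [Θ, PB.c0_mul, PB.c1_mul, t0, t1]
  generalize ζ / T.bh κ = φ at e0 e1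
  rw [bh]
  generalize T.P.c0 φ = g at e0 e1
  grind

lemma nx_of_lift (hκ : T.Fix κ) (h1 : ζ ∈ T.KG κ) (h2 : T.Kr κ y)
    (h3 : ∀ g, T.σ g y = y + zc L (ψ ⬝ᵥ g) * ζ) : T.nx κ ψ ζ = 0 := by
  have hx : T.Fix (y + comb T.θ ψ * ζ) := fun g => by
    rw [map_add, map_mul, h3 g, σ_comb, h1.2 g]
    grind
  have e := RK_ident hκ (T.one_mem_KG κ) hx
  rw [PB.c1_one, mul_zero, RK_zero, Θ_add, T.Kr_iff.1 h2, zero_add, mul_one_div, Θ_θ h1.1] at e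
  have hy : T.Fix (T.yy ψ) := T.fix_p _
  rw [nx, ← T.RK_c1 (hy.mul (Fix.div h1.2 (T.bh_fix hκ))), e]

/-- Duality for the sum of the local and global conditions. -/
lemma Kp.split (hK : T.Kp H κ K) (h1 : T.Fix h)
    (h2 : ∀ v ∈ T.Vs H κ, T.RK (h * T.P.c1 v) = 0) :
    ∃ ζ ∈ T.KG κ, h + T.P.c1 ζ ∈ H := by
  have f0 : T.Fix (T.bh κ * h ^ 2) := (T.bh_fix hK.fix).mul (h1.pow 2)
  obtain ⟨y, y1, y2, y3⟩ := T.fred hK (xk_Θ_fix hK.fix f0) fun v hv => by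
    rw [RK_ident hK.fix (Vs_le_KG hv) f0, c1_bh_sq]
    exact h2 v hv
  refine ⟨T.bh κ * h ^ 2 + y, ⟨?_, f0.add y1⟩, ?_⟩
  · rw [Kr_iff, Θ_add, y3]
    exact CharTwo.add_self_eq_zero _
  · rwa [PB.c1_add, c1_bh_sq, ← add_assoc, CharTwo.add_self_eq_zero, zero_add]

lemma comb_le (T : Tw β L) (ψ : G I) : T.p (comb β ψ) ∈ T.d.Le (gam β Finset.univ - 1 / 2) := by
  rw [comb, map_sum]
  refine sum_mem fun i _ => ?_
  have h1 : ((β i).natDegree : ℝ) + 1 / 2 ≤ gam β Finset.univ :=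
    Finset.single_le_sum (f := fun i => (((β i).natDegree : ℝ) + 1 / 2))
      (fun j _ => by positivity) (Finset.mem_univ i)
  rcases z2_cases (ψ i) with e | e
  · rw [e, map_zero, zero_mul, map_zero]
    exact zero_mem _
  · rw [e, map_one, one_mul]
    exact DF.Le.mono (T.p_mem _) (by linarith)

end Tw

end Pool.Agent.Lib.MP_788af2_nt.AS
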