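import Pool.Agent.Lib.MP_a3f657_nt.BK.ADefs

/-!
Lifting the relation matrix to the integers.
-/

set_option linter.unusedSectionVars false

namespace Pool.Agent.Lib.MP_788af2_nt.AS

open Pool.Agent.Lib.MP_a3f657_nt.Two Matrix

lemma circ_eq {n : ℕ} {x y : ℤ} : (((x : ℚ) / 2 ^ n : ℚ) : AddCircle (1 : ℚ)) =
    (((y : ℚ) / 2 ^ n : ℚ) : AddCircle (1 : ℚ)) ↔ (2 : ℤ) ^ n ∣ x - y := by
  have h2 : (2 : ℚ) ^ n ≠ 0 := by positivity
  rw [← sub_eq_zero, ← AddCircle.coe_sub, AddCircle.coe_eq_zero_iff]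
  constructor
  · rintro ⟨k, hk⟩
    refine ⟨k, ?_⟩
    have : ((x - y : ℤ) : ℚ) = ((2 ^ n * k : ℤ) : ℚ) := by
      rw [zsmul_eq_mul, mul_one] at hk
      push_cast
      rw [hk]
      field_simp
    exact_mod_cast this
  · rintro ⟨k, hk⟩
    refine ⟨k, ?_⟩
    have : ((x : ℚ) - y) = 2 ^ n * k := by exact_mod_cast hk
    rw [zsmul_eq_mul, mul_one, ← sub_div, this]
    field_simp

lemma circ_tors {n : ℕ} {x : AddCircle (1 : ℚ)} (h : 2 ^ n • x = 0) :
    ∃ v : ℤ, x = (((v : ℚ) / 2 ^ n : ℚ) : AddCircle (1 : ℚ)) := by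
  have h2 : (2 : ℚ) ^ n ≠ 0 := by positivity
  induction x using QuotientAddGroup.induction_on with
  | H q =>
    rw [← AddCircle.coe_nsmul, AddCircle.coe_eq_zero_iff] at h
    obtain ⟨k, hk⟩ := h
    refine ⟨k, ?_⟩
    rw [zsmul_eq_mul, mul_one, nsmul_eq_mul] at hk
    rw [hk]
    congr 1
    push_cast
    field_simp

private lemma xl_ext {A B : Type} [AddCommGroup A] [AddCommGroup B] (f : A →+ B)
    (φ : A →+ AddCircle (1 : ℚ)) (h : ∀ a, f a = 0 → φ a = 0) :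
    ∃ ψ : B →+ AddCircle (1 : ℚ), ∀ a, ψ (f a) = φ a := by
  let φ' : A ⧸ f.ker →+ AddCircle (1 : ℚ) := QuotientAddGroup.lift f.ker φ h
  obtain ⟨ψ, hψ⟩ := CharacterModule.dual_surjective_of_injective
    (QuotientAddGroup.kerLift f).toIntLinearMap (QuotientAddGroup.kerLift_injective f) φ'
  refine ⟨ψ, fun a => ?_⟩
  have := DFunLike.congr_fun hψ (a : A ⧸ f.ker)
  exact this

private lemma xl_coef {K : Type} [Fintype K] [DecidableEq K] (M : ℕ)
    (ψ : (K → AddCircle (1 : ℚ)) →+ AddCircle (1 : ℚ)) :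
    ∃ c : K → ℤ, ∀ y : K → AddCircle (1 : ℚ), 2 ^ M • y = 0 → ψ y = ∑ k, c k • y k := by
  have h2 : (2 : ℚ) ^ M ≠ 0 := by positivity
  let e : AddCircle (1 : ℚ) := (((1 : ℚ) / 2 ^ M : ℚ) : AddCircle (1 : ℚ))
  have hv : ∀ v : ℤ, (((v : ℚ) / 2 ^ M : ℚ) : AddCircle (1 : ℚ)) = v • e := fun v => by
    rw [← AddCircle.coe_zsmul, zsmul_eq_mul, mul_one_div]
  have he : 2 ^ M • e = 0 := by
    rw [← AddCircle.coe_nsmul, AddCircle.coe_eq_zero_iff]
    refine ⟨1, ?_⟩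
    rw [nsmul_eq_mul]
    push_cast
    field_simp
    simp
  have hc : ∀ k, ∃ c : ℤ, ψ (Pi.single k e) = c • e := fun k => by
    have : 2 ^ M • ψ (Pi.single k e) = 0 := by
      rw [← map_nsmul, ← Pi.single_smul, he, Pi.single_zero, map_zero]
    obtain ⟨v, hv'⟩ := circ_tors this
    exact ⟨v, hv'.trans (hv v)⟩
  choose c hc using hc
  refine ⟨c, fun y hy => ?_⟩
  conv_lhs => rw [← Finset.univ_sum_single y, map_sum]
  refine Finset.sum_congr rfl fun k _ => ?_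
  obtain ⟨v, hv'⟩ := circ_tors (congrFun hy k)
  rw [hv', hv, Pi.single_smul, map_zsmul, hc, smul_comm]

private noncomputable def xlH : ZMod 2 →+ AddCircle (1 : ℚ) where
  toFun a := ((((a.val : ℕ) : ℚ) / 2 : ℚ) : AddCircle (1 : ℚ))
  map_zero' := by simp
  map_add' a b := by
    have h := @circ_eq 1 ((a + b).val : ℕ) ((a.val : ℕ) + (b.val : ℕ))
    rw [← AddCircle.coe_add, ← add_div]
    simp only [pow_one, Int.cast_natCast, Int.cast_add] at h
    refine h.2 ?_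
    clear h
    revert a b
    decide

private lemma xlH_inj {a : ZMod 2} (h : xlH a = 0) : a = 0 := by
  have h' := @circ_eq 1 (a.val : ℕ) 0
  simp only [pow_one, Int.cast_natCast, Int.cast_zero, zero_div, AddCircle.coe_zero,
    sub_zero] at h'
  have := h'.1 h
  clear h h'
  revert a
  decide

private lemma xlH_smul (a b : ZMod 2) : ((b.val : ℕ) : ℤ) • xlH a = xlH (a * b) := by
  rw [← map_zsmul]
  congr 1
  revert a b
  decide

theorem liftA {I W P : Type} [Fintype I] [DecidableEq I] [Fintype W] [DecidableEq W]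
    [AddCommGroup P] (s : G I → P →+ P) (X X₁ : AddSubgroup P)
    (hX₁ : ∀ g, ∀ x ∈ X₁, s g x ∈ X₁)
    (ν : P → W → ZMod 2) (ν_add : ∀ x ∈ X₁, ∀ y ∈ X₁, ν (x + y) = ν x + ν y)
    (tors : ∀ x ∈ X, 2 • x ∈ X₁ → (∀ g, ν (s g (2 • x)) = 0) → x ∈ X₁) (M : ℕ)
    (kill : ∀ x ∈ X, 2 ^ M • x ∈ X₁ ∧ ∀ g, ν (s g (2 ^ M • x)) = 0)
    (B : G I → Matrix W W (ZMod 2)) (rel : ∀ x ∈ X₁, ∀ j, ∑ g, ∑ i, ν (s g x) i * B g i j = 0) :
    ∃ (μ : P →+ (W → AddCircle (1 : ℚ))) (A : G I → Matrix W W ℤ), (∀ g, redM (A g) = B g) ∧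
      (∀ x ∈ X₁, ∀ i, μ x i = ((((ν x i).val : ℚ) / 2 : ℚ) : AddCircle (1 : ℚ))) ∧
      ∀ x ∈ X, ∀ j, ∑ g, ∑ i, A g i j • μ (s g x) i = 0 := by
  have h1 : ∀ i, ∃ m : P →+ AddCircle (1 : ℚ), ∀ x ∈ X₁, m x = xlH (ν x i) := fun i => by
    let φ : X₁ →+ AddCircle (1 : ℚ) := AddMonoidHom.mk' (fun x => xlH (ν x i)) fun x y => by
      rw [AddSubgroup.coe_add, ν_add _ x.2 _ y.2, Pi.add_apply, map_add]
    obtain ⟨ψ, hψ⟩ := xl_ext X₁.subtype φ fun a ha => by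
      have : a = 0 := Subtype.ext ha
      rw [this, map_zero]
    exact ⟨ψ, fun x hx => hψ ⟨x, hx⟩⟩
  choose m hm using h1
  let F : P →+ (G I × W → AddCircle (1 : ℚ)) :=
    AddMonoidHom.pi fun k => (m k.2).comp (s k.1)
  have hF : ∀ x k, F x k = m k.2 (s k.1 x) := fun _ _ => rfl
  have hker : ∀ x ∈ X, F (2 • x) = 0 → x ∈ X₁ := fun x hx h0 => by
    have : ∀ k : ℕ, 2 ^ k • x ∈ X₁ → x ∈ X₁ := fun k => by
      induction k with
      | zero => simp
      | succ k ih =>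
        intro hk
        have e : 2 ^ (k + 1) • x = 2 • 2 ^ k • x := by rw [pow_succ', mul_smul]
        rw [e] at hk
        refine ih (tors _ (X.nsmul_mem hx _) hk fun g => funext fun i => xlH_inj ?_)
        rw [← hm i _ (hX₁ g _ hk), ← hF _ (g, i), smul_comm, map_nsmul, h0, smul_zero]
        rfl
    exact this M (kill x hx).1
  have hM : ∀ x ∈ X, 2 ^ M • F x = 0 := fun x hx => by
    rw [← map_nsmul]
    funext k
    rw [hF, hm _ _ (hX₁ _ _ (kill x hx).1), (kill x hx).2]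
    exact map_zero _
  let φ : W → P →+ AddCircle (1 : ℚ) := fun j =>
    ∑ g, ∑ i, lftM (B g) i j • (m i).comp (s g)
  have hφ : ∀ j x, φ j x = ∑ g, ∑ i, lftM (B g) i j • m i (s g x) := fun j x => by
    simp only [φ, AddMonoidHom.finsetSum_apply, AddMonoidHom.smul_apply, AddMonoidHom.comp_apply]
  have hφ0 : ∀ j, ∀ x ∈ X₁, φ j x = 0 := fun j x hx => by
    have : ∀ g i, lftM (B g) i j • m i (s g x) = xlH (ν (s g x) i * B g i j) := fun g i => by
      rw [hm i _ (hX₁ g x hx)]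
      exact xlH_smul _ _
    rw [hφ]
    simp only [this, ← map_sum]
    rw [rel x hx j, map_zero]
  have h2 : ∀ j, ∃ c : G I × W → ℤ, ∀ x ∈ X, φ j x = 2 • ∑ k, c k • F x k := fun j => by
    obtain ⟨ψ, hψ⟩ := xl_ext ((2 • F).comp X.subtype) ((φ j).comp X.subtype) fun a ha =>
      hφ0 j _ (hker _ a.2 (by rw [map_nsmul]; exact ha))
    obtain ⟨c, hc⟩ := xl_coef M ψ
    refine ⟨c, fun x hx => ?_⟩
    rw [← hc _ (hM x hx), ← map_nsmul]
    exact (hψ ⟨x, hx⟩).symm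
  choose c hc using h2
  refine ⟨AddMonoidHom.pi m, fun g => Matrix.of fun i j => lftM (B g) i j - 2 * c j (g, i),
    fun g => ?_, fun x hx i => hm i x hx, fun x hx j => ?_⟩
  · ext i j
    have h2 : (2 : ZMod 2) = 0 := rfl
    simp [redM, lftM, h2]
  · have := hc j x hx
    rw [hφ, Fintype.sum_prod_type] at this
    simp only [Matrix.of_apply, sub_smul, Finset.sum_sub_distrib, mul_smul, ← Finset.smul_sum]
    rw [sub_eq_zero, two_smul]
    rw [two_smul] at this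
    exact this

lemma exists_half {I W : Type} [Fintype I] [DecidableEq I] [Fintype W] {A : G I → Matrix W W ℤ}
    (h : ∑ g, redM (A g) = 0) : ∃ c : G I → Matrix W W ℤ, ∀ ξ, Ach A ξ = 2 • c ξ := by
  have : ∀ ξ i j, (2 : ℤ) ∣ Ach A ξ i j := fun ξ i j => by
    have h' := congrFun (congrFun h i) j
    have hs : ∀ x, ((sg x : ℤ) : ZMod 2) = 1 := by decide
    refine (ZMod.intCast_zmod_eq_zero_iff_dvd _ 2).1 ?_
    simp only [Matrix.sum_apply, redM, Matrix.map_apply, Matrix.zero_apply] at h'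
    simp only [Ach, Matrix.sum_apply, Matrix.smul_apply, smul_eq_mul, Int.cast_sum, Int.cast_mul,
      hs, one_mul, h']
  choose c hc using this
  refine ⟨fun ξ => Matrix.of (c ξ), fun ξ => ?_⟩
  ext i j
  rw [hc, Matrix.smul_apply, nsmul_eq_mul]
  rfl

end Pool.Agent.Lib.MP_788af2_nt.AS
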