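import Pool.Agent.Lib.MP_a3f657_nt.BK.XZ
import Pool.Agent.Lib.MP_a3f657_nt.BK.XLift
import Pool.Agent.Lib.MP_a3f657_nt.BK.ALat

/-!
The integral relation matrix and the representing vectors.
-/

set_option linter.unusedSectionVars false

namespace Pool.Agent.Lib.MP_788af2_nt.AS

open Polynomial WeierstrassCurve Pool.Agent.Lib.MP_a3f657_nt.Two Matrix

namespace Tw

variable {k : Type} [Field k] [Finite k] [CharP k 2] {I : Type} [Fintype I] [DecidableEq I]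
  {β : I → k[X]} {L : Type} [Field L] [CharP L 2] {T : Tw β L} [DecidableEq L]
  {a b : k[X]} {H : AddSubgroup L} {RW : G I → ℕ → AddSubgroup ((T.Cw a b).Point × L)} {K ε : ℕ}
  {ξ ψ : G I} {n : ℕ}

variable {W : Type} [Fintype W] [DecidableEq W] {vv : (W → ZMod 2) →+ L} {Ψ ζ₀ : W → L}
  {ν : L →+ (W → ZMod 2)} {B : G I → Matrix W W (ZMod 2)} {τ : W → ZMod 2} {N : ℕ}
  {μ : (T.Cw a b).Point × L →+ (W → AddCircle (1 : ℚ))} {A c : G I → Matrix W W ℤ}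
  {m z z' : (T.Cw a b).Point} {ζ ζ' u : L} {v v' : W → ℤ}

private lemma xmx_cases (u : ZMod 2) : u = 0 ∨ u = 1 := by revert u; decide

private lemma xmx_nsmul (n : ℕ) (x : L) : 2 ^ (n + 1) • x = 0 := by
  rw [pow_succ, mul_smul, two_smul, CharTwo.add_self_eq_zero, smul_zero]

private lemma xmx_two (x : L) : 2 • x = 0 := by
  rw [two_smul, CharTwo.add_self_eq_zero]

private lemma xmx_sg (c : ZMod 2) (x : L) : sg c • x = x := by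
  unfold sg
  split_ifs
  · rw [one_smul]
  · rw [neg_smul, one_smul, CharTwo.neg_eq]

private lemma xmx_pair (N : ℕ) (m : (T.Cw a b).Point) (ζ : L) :
    N • ((m, ζ) : (T.Cw a b).Point × L) = (N • m, N • ζ) := rfl

private lemma xmx_coe_add (x y : ℚ) :
    ((x + y : ℚ) : AddCircle (1 : ℚ)) = (x : AddCircle (1 : ℚ)) + (y : AddCircle (1 : ℚ)) := rfl

private lemma xmx_coe_nsmul (N : ℕ) (x : ℚ) :
    N • (x : AddCircle (1 : ℚ)) = ((N * x : ℚ) : AddCircle (1 : ℚ)) := by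
  rw [← nsmul_eq_mul]; rfl

private lemma xmx_coe_zsmul (N : ℤ) (x : ℚ) :
    N • (x : AddCircle (1 : ℚ)) = ((N * x : ℚ) : AddCircle (1 : ℚ)) := by
  rw [← zsmul_eq_mul]; rfl

private lemma xmx_coe_sum {α : Type} (s : Finset α) (x : α → ℚ) :
    ∑ i ∈ s, (x i : AddCircle (1 : ℚ)) = ((∑ i ∈ s, x i : ℚ) : AddCircle (1 : ℚ)) :=
  (map_sum (QuotientAddGroup.mk' (AddSubgroup.zmultiples (1 : ℚ))) x s).symm

private lemma xmx_dvd_two {x y : ℤ} (h : (x : ZMod 2) = (y : ZMod 2)) : (2 : ℤ) ∣ x - y := by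
  have := (ZMod.intCast_eq_intCast_iff_dvd_sub y x 2).1 h.symm
  exact_mod_cast this

private lemma xmx_of_dvd {x y : ℤ} (h : (2 : ℤ) ∣ x - y) : (x : ZMod 2) = (y : ZMod 2) :=
  ((ZMod.intCast_eq_intCast_iff_dvd_sub y x 2).2 (by exact_mod_cast h)).symm

private lemma xmx_lft_cast (u : W → ZMod 2) (i : W) : ((lft u i : ℤ) : ZMod 2) = u i := by
  simp [lft]

/-- The group of the elements over the tower. -/
private def xmxX (h : T.Bas a b H RW K ε) (N : ℕ) : AddSubgroup ((T.Cw a b).Point × L) where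
  carrier := {x | T.Xt RW ε N x.1 x.2}
  zero_mem' := ⟨h.par.ml_zero, (zero_mem (T.KG (T.kap a b))).1, by
    rw [Prod.snd_zero, PB.c1_zero]; exact zero_mem _⟩
  add_mem' := by
    rintro x y ⟨h1, h2, h3⟩ ⟨h4, h5, h6⟩
    refine ⟨h.par.ml_add h1 h4, h2.add h5, ?_⟩
    rw [Prod.snd_add, PB.c1_add]
    exact add_mem h3 h6
  neg_mem' := by
    rintro x ⟨h1, h2, h3⟩
    refine ⟨h.par.ml_neg h1, by rwa [Prod.snd_neg, CharTwo.neg_eq], ?_⟩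
    have := neg_mem h3
    rwa [Prod.neg_mk, CharTwo.neg_eq, ← CharTwo.neg_eq x.2] at this

private lemma xmxX_mem (h : T.Bas a b H RW K ε) :
    (m, ζ) ∈ xmxX h N ↔ T.Xt RW ε N m ζ := Iff.rfl

private lemma xmx_xt_σ (h : T.Bas a b H RW K ε) (h1 : T.Xt RW ε N m ζ) (g : G I) :
    T.Xt RW ε N (T.sQ a b g m) (T.σ g ζ) :=
  ⟨h.par.ml_σ h1.1 g, h1.2.1.σ h.kp.fix g, by rw [σ_c1]; exact h.ax.sup_σ h1.2.2 g⟩

/-- The elements of order at most two modulo the relations. -/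
private def xmxY (h : T.Bas a b H RW K ε) (N : ℕ) : AddSubgroup ((T.Cw a b).Point × L) where
  carrier := {x | x ∈ xmxX h N ∧ ∃ m, T.Ml ε m ∧ x.1 = 2 ^ N • m}
  zero_mem' := ⟨zero_mem _, 0, h.par.ml_zero, by simp⟩
  add_mem' := by
    rintro x y ⟨h1, m, h2, h3⟩ ⟨h4, m', h5, h6⟩
    exact ⟨add_mem h1 h4, m + m', h.par.ml_add h2 h5, by rw [Prod.fst_add, h3, h6, smul_add]⟩
  neg_mem' := by
    rintro x ⟨h1, m, h2, h3⟩
    exact ⟨neg_mem h1, -m, h.par.ml_neg h2, by rw [Prod.fst_neg, h3, smul_neg]⟩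

/-- Division by `2 ^ N`. -/
private noncomputable def xmxDiv (N : ℕ) (m : (T.Cw a b).Point) : (T.Cw a b).Point :=
  @Classical.epsilon _ ⟨0⟩ fun m' => 2 ^ N • m' = m

private lemma xmxDiv_eq (hb : od b ≠ 0) (N : ℕ) (m : (T.Cw a b).Point) :
    xmxDiv N (2 ^ N • m) = m :=
  cw_inj hb N (@Classical.epsilon_spec _ (fun m' => 2 ^ N • m' = 2 ^ N • m) ⟨m, rfl⟩)

private lemma xmx_sh (h : T.Bas a b H RW K ε) (h1 : T.Ml ε m)
    (h2 : T.Xt RW ε N (2 ^ N • m) ζ) : ζ + T.Zf m ∈ T.Sh H (T.kap a b) := by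
  refine ⟨h2.2.1.add (h.par.zf_kr h1), h.ax.glob N _ ?_⟩
  have h3 := sub_mem h2.2.2 (AddSubgroup.mem_iSup_of_mem 0 (h.ax.pow 0 N m))
  rwa [Prod.mk_sub_mk, sub_self, CharTwo.sub_eq_add, ← h.par.zf_c1 h1, ← PB.c1_add] at h3

/-- The action on pairs. -/
private noncomputable def xmxS (T : Tw β L) (a b : k[X]) (g : G I) :
    (T.Cw a b).Point × L →+ (T.Cw a b).Point × L :=
  (T.sQ a b g).prodMap (T.σ g).toAddMonoidHom

private lemma xmxS_apply (g : G I) (m : (T.Cw a b).Point) (ζ : L) :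
    xmxS T a b g (m, ζ) = (T.sQ a b g m, T.σ g ζ) := rfl

theorem Bas.exists_mx (h : T.Bas a b H RW K ε) (hF : T.Frm H (T.kap a b) vv ν B) (N : ℕ) :
    ∃ μ A, T.Mx RW ε N ν B μ A := by
  have hb := h.par.b_ne
  have hν : ∀ g m ζ, T.Ml ε m →
      ν ((xmxS T a b g (2 ^ N • m, ζ)).2 + T.Zf (xmxDiv N (xmxS T a b g (2 ^ N • m, ζ)).1)) =
        ν (T.σ g (ζ + T.Zf m)) := by
    intro g m ζ h1
    rw [xmxS_apply, map_nsmul, xmxDiv_eq hb, h.par.zf_σ h1, map_add (T.σ g)]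
  refine (liftA (xmxS T a b) (xmxX h N) (xmxY h N) ?_
    (fun x => ν (x.2 + T.Zf (xmxDiv N x.1))) ?_ ?_ (N + 1) ?_ B ?_).elim fun μ hA => ?_
  rotate_right
  · obtain ⟨A, h1, h2, h3⟩ := hA
    refine ⟨μ, A, h1, fun m ζ h4 h5 i => ?_, fun m ζ h4 j => h3 (m, ζ) h4 j⟩
    rw [h2 (2 ^ N • m, ζ) ⟨h5, m, h4, rfl⟩ i]
    simp only [xmxDiv_eq hb]
  · rintro g ⟨m0, ζ⟩ ⟨h1, m, h2, h3⟩
    exact ⟨xmx_xt_σ h h1 g, T.sQ a b g m, h.par.ml_σ h2 g, by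
      rw [xmxS_apply, ← map_nsmul, ← h3]⟩
  · rintro ⟨m0, ζ⟩ ⟨h1, m, h2, h3⟩ ⟨m1, ζ'⟩ ⟨h4, m', h5, h6⟩
    simp only at h3 h6
    subst h3 h6
    simp only [Prod.mk_add_mk, ← smul_add, xmxDiv_eq hb]
    rw [h.par.zf_add h2 h5, ← map_add, add_add_add_comm]
  · rintro ⟨m0, ζ⟩ h1 ⟨h2, m, h3, h4⟩ h5
    rw [xmx_pair, xmx_two] at h2 h4 h5
    simp only at h4
    rw [h4] at h2 h5
    have h6 := hF.ν_inj _ (xmx_sh h h3 h2) fun g => by rw [← hν g m 0 h3]; exact h5 g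
    rw [zero_add] at h6
    obtain ⟨m', h7, rfl⟩ := h.par.zf_eq_zero h3 h6
    refine ⟨h1, m', h7, cw_inj hb 1 ?_⟩
    rw [pow_one, h4, smul_comm]
  · rintro ⟨m, ζ⟩ h1
    have e : 2 ^ (N + 1) • ((m, ζ) : (T.Cw a b).Point × L) = (2 ^ N • 2 • m, 0) := by
      rw [xmx_pair, xmx_nsmul, pow_succ, mul_smul]
    refine ⟨⟨nsmul_mem h1 _, 2 • m, h.par.ml_two m, by rw [e]⟩, fun g => ?_⟩
    rw [e]
    refine (hν g (2 • m) 0 (h.par.ml_two m)).trans ?_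
    rw [h.par.zf_two h1.1, add_zero, map_zero, map_zero]
  · rintro ⟨m0, ζ⟩ ⟨h1, m, h2, h3⟩ j
    simp only at h3
    subst h3
    rw [← hF.rel _ (xmx_sh h h2 h1) j]
    refine Finset.sum_congr rfl fun g _ => Finset.sum_congr rfl fun i _ => ?_
    rw [← hν g m ζ h2]

lemma Rp.add (h1 : T.Rp μ N n z ζ v) (h2 : T.Rp μ N n z' ζ' v') :
    T.Rp μ N n (z + z') (ζ + ζ') (v + v') := by
  intro i
  rw [smul_add, ← Prod.mk_add_mk, map_add, Pi.add_apply, h1 i, h2 i, ← xmx_coe_add, Pi.add_apply,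
    Int.cast_add, add_div]

lemma Rp.uniq (h1 : T.Rp μ N n z ζ v) (h2 : T.Rp μ N n z ζ v') (i : W) :
    (2 : ℤ) ^ (n + 1) ∣ v i - v' i := by
  exact circ_eq.1 ((h1 i).symm.trans (h2 i))

lemma Rp.congr (h1 : T.Rp μ N n z ζ v) (h2 : ∀ i, (2 : ℤ) ^ (n + 1) ∣ v i - v' i) :
    T.Rp μ N n z ζ v' := by
  intro i
  rw [h1 i]
  exact circ_eq.2 (h2 i)

lemma Rp.half (hn : n < N) (h1 : T.Rp μ N (n + 1) m ζ v) : T.Rp μ N n m 0 v := by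
  intro i
  have e : ((2 ^ (N - n) • m, 0) : (T.Cw a b).Point × L) = 2 • (2 ^ (N - (n + 1)) • m, ζ) := by
    rw [xmx_pair, xmx_two, ← mul_smul, ← pow_succ', show N - (n + 1) + 1 = N - n by omega]
  rw [e, map_nsmul, Pi.smul_apply, h1 i, xmx_coe_nsmul]
  congr 1
  rw [pow_succ _ (n + 1)]
  push_cast
  field_simp

lemma Rp.double (hn : n < N) (h1 : T.Rp μ N n m ζ v) : T.Rp μ N (n + 1) (2 • m) ζ (2 • v) := by
  intro i
  rw [← mul_smul, ← pow_succ, show N - (n + 1) + 1 = N - n by omega, h1 i]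
  congr 1
  rw [pow_succ _ (n + 1), Pi.smul_apply, nsmul_eq_mul]
  push_cast
  field_simp

variable (h : T.Bas a b H RW K ε) (hM : T.Mx RW ε N ν B μ A)

include h

lemma Bas.xt (hn : n ≤ N) (h1 : T.Ml ε m) (h2 : T.Kr (T.kap a b) ζ)
    (h3 : (m, T.P.c1 ζ) ∈ RW ξ n) : T.Xt RW ε N (2 ^ (N - n) • m) ζ := by
  refine ⟨h.par.ml_nsmul h1 _, h2, AddSubgroup.mem_iSup_of_mem ξ ?_⟩
  have h4 := h.ax.lift (N - n) h3
  rwa [Nat.sub_add_cancel hn] at h4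

lemma Bas.sx_add (h1 : T.Sx RW ε ξ n z ζ) (h2 : T.Sx RW ε ξ n z' ζ') :
    T.Sx RW ε ξ n (z + z') (ζ + ζ') := by
  refine ⟨add_mem h1.1 h2.1, h.par.ml_add h1.2.1 h2.2.1, add_mem h1.2.2.1 h2.2.2.1, ?_⟩
  rw [PB.c1_add]
  exact add_mem h1.2.2.2 h2.2.2.2

lemma Bas.sx_pow (hz : z ∈ T.Eig a b ξ) (h1 : T.Ml ε z) (n : ℕ) :
    T.Sx RW ε ξ n (2 ^ n • z) (T.Zf z) := by
  refine ⟨nsmul_mem hz _, h.par.ml_nsmul h1 _, h.par.zf_kg hz h1, ?_⟩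
  rw [h.par.zf_c1 h1]
  exact h.ax.pow ξ n z

lemma Bas.sx_V (h1 : ζ ∈ T.Vs H (T.kap a b)) (ξ : G I) (n : ℕ) : T.Sx RW ε ξ n 0 ζ := by
  exact ⟨zero_mem _, h.par.ml_zero, ⟨h1.1.1, h1.2⟩, h.ax.zero ξ n _ h1.1.2 (Fix.c1 h1.2)⟩

include hM

lemma Bas.mu_rel (h1 : T.Ml ε m) : μ (2 ^ N • m, T.Zf m) = 0 := by
  funext i
  have h2 : T.Xt RW ε N (2 ^ N • m) (T.Zf m) := ⟨h.par.ml_nsmul h1 _, h.par.zf_kr h1,
    AddSubgroup.mem_iSup_of_mem 0 (by rw [h.par.zf_c1 h1]; exact h.ax.pow 0 N m)⟩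
  rw [hM.low m _ h1 h2 i, CharTwo.add_self_eq_zero, map_zero]
  simp

lemma Bas.rp_pow (hn : n ≤ N) (h1 : T.Ml ε m) : T.Rp μ N n (2 ^ n • m) (T.Zf m) 0 := by
  intro i
  rw [← mul_smul, ← pow_add, Nat.sub_add_cancel hn, h.mu_rel hM h1]
  simp

lemma Bas.rp_V (h1 : ζ ∈ T.Vs H (T.kap a b)) (n : ℕ) :
    T.Rp μ N n 0 ζ ((2 : ℤ) ^ n • lft (ν ζ)) := by
  intro i
  have h2 := h.sx_V h1 0 N
  have h3 : T.Xt RW ε N (2 ^ N • 0) ζ := by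
    rw [smul_zero]
    exact ⟨h2.2.1, h1.1.1, AddSubgroup.mem_iSup_of_mem 0 h2.2.2.2⟩
  have h4 := hM.low 0 ζ h.par.ml_zero h3 i
  rw [smul_zero] at h4 ⊢
  rw [h4, h.par.zf_zero, add_zero]
  congr 1
  simp only [Pi.smul_apply, smul_eq_mul, lft, pow_succ]
  push_cast
  field_simp

lemma Bas.exists_rp (hn : n ≤ N) (h1 : T.Ml ε m) (h2 : T.Kr (T.kap a b) ζ)
    (h3 : (m, T.P.c1 ζ) ∈ RW ξ n) : ∃ v, T.Rp μ N n m ζ v := by
  have h4 : ∀ i, 2 ^ (n + 1) • μ (2 ^ (N - n) • m, ζ) i = 0 := by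
    intro i
    have h5 := h.mu_rel hM (h.par.ml_two m)
    rw [h.par.zf_two h1] at h5
    rw [← Pi.smul_apply, ← map_nsmul, xmx_pair, xmx_nsmul, ← mul_smul, ← pow_add,
      show n + 1 + (N - n) = N + 1 by omega, pow_succ, mul_smul, h5, Pi.zero_apply]
  choose v hv using fun i => circ_tors (h4 i)
  exact ⟨v, hv⟩

lemma Bas.rp_red (hn : n ≤ N) (h1 : T.Ml ε m) (h3 : (m, 0) ∈ RW ξ n) (h4 : T.Rp μ N n m 0 v) :
    red v = ν (T.Zf m) := by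
  funext i
  have h2 : T.Xt RW ε N (2 ^ (N - n) • m) 0 :=
    h.xt hn h1 (zero_mem (T.KG (T.kap a b))).1 (by rwa [PB.c1_zero])
  have e : 2 ^ n • ((2 ^ (N - n) • m, 0) : (T.Cw a b).Point × L) = (2 ^ N • m, 0) := by
    rw [xmx_pair, smul_zero, ← mul_smul, ← pow_add, Nat.add_sub_cancel' hn]
  have h5 : T.Xt RW ε N (2 ^ N • m) 0 := by
    rw [← xmxX_mem h, ← e]
    exact nsmul_mem ((xmxX_mem h).2 h2) _
  have h6 := hM.low m 0 h1 h5 i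
  rw [← e, map_nsmul, Pi.smul_apply, h4 i, xmx_coe_nsmul, zero_add] at h6
  have h7 : (2 : ℤ) ^ 1 ∣ v i - lft (ν (T.Zf m)) i := by
    refine circ_eq.1 ?_
    convert h6 using 2
    · rw [pow_succ _ n]
      push_cast
      field_simp
    · simp [lft]
  rw [pow_one] at h7
  exact (xmx_of_dvd h7).trans (xmx_lft_cast _ i)

lemma Bas.rp_red' (hn : n + 1 ≤ N) (h1 : T.Ml ε m) (h3 : (m, T.P.c1 ζ) ∈ RW ξ (n + 1))
    (h4 : T.Rp μ N (n + 1) m ζ v) : red v = ν (T.Zf m) := by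
  exact h.rp_red hM (by omega) h1 (h.ax.down h3) (h4.half (by omega))

/-- The relation for an element that is an eigenvector up to the marked vector. -/
theorem Bas.core (hc : ∀ ξ, Ach A ξ = 2 • c ξ) (hτ : ν 1 = τ) (hn : n ≤ N) (h1 : T.Ml ε m)
    (h2 : T.Kr (T.kap a b) ζ) (h3 : (m, T.P.c1 ζ) ∈ RW ξ n)
    (h4 : ∀ g, ∃ m', T.Ml ε m' ∧ T.sQ a b g m - sg (ξ ⬝ᵥ g) • m = 2 ^ n • m' ∧
      T.σ g ζ + ζ = T.Zf m' + zc L (ψ ⬝ᵥ g)) (h5 : T.Rp μ N n m ζ v) (j : W) :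
    (2 : ℤ) ^ (n + 1) ∣ 2 * (v ᵥ* c ξ) j - 2 ^ n * lft (τ ᵥ* D1 B ψ) j := by
  have h6 := hM.rel _ _ (h.xt hn h1 h2 h3) j
  have h7 : ∀ g i, μ (T.sQ a b g (2 ^ (N - n) • m), T.σ g ζ) i =
      ((((sg (ξ ⬝ᵥ g) * v i + 2 ^ n * lft ((ψ ⬝ᵥ g) • τ) i : ℤ) : ℚ) / 2 ^ (n + 1) : ℚ) :
        AddCircle (1 : ℚ)) := by
    intro g i
    obtain ⟨m', h8, h9, h10⟩ := h4 g
    have h11 : zc L (ψ ⬝ᵥ g) ∈ T.Vs H (T.kap a b) ∧ ν (zc L (ψ ⬝ᵥ g)) = (ψ ⬝ᵥ g) • τ := by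
      rcases xmx_cases (ψ ⬝ᵥ g) with e | e
      · rw [e, map_zero, map_zero, zero_smul]; exact ⟨zero_mem _, rfl⟩
      · rw [e, map_one, one_smul]; exact ⟨T.one_mem_Vs _ _, hτ⟩
    have h12 := h.rp_V hM h11.1 n i
    rw [smul_zero, h11.2] at h12
    have e : ((T.sQ a b g (2 ^ (N - n) • m), T.σ g ζ) : (T.Cw a b).Point × L) =
        sg (ξ ⬝ᵥ g) • (2 ^ (N - n) • m, ζ) + (2 ^ N • m', T.Zf m') + (0, zc L (ψ ⬝ᵥ g)) := by
      rw [Prod.smul_mk, Prod.mk_add_mk, Prod.mk_add_mk, xmx_sg, add_zero, map_nsmul,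
        eq_add_of_sub_eq' h9, smul_add, smul_comm, ← mul_smul (2 ^ (N - n)), ← pow_add,
        Nat.sub_add_cancel hn, add_assoc, ← h10, add_comm (T.σ g ζ), ← add_assoc,
        CharTwo.add_self_eq_zero, zero_add]
    rw [e, map_add, map_add, map_zsmul, h.mu_rel hM h8, add_zero, Pi.add_apply, Pi.smul_apply,
      h5 i, h12, xmx_coe_zsmul, ← xmx_coe_add]
    congr 1
    simp only [Pi.smul_apply, smul_eq_mul]
    push_cast
    ring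
  simp only [h7, xmx_coe_zsmul, xmx_coe_sum] at h6
  have h8 : (2 : ℤ) ^ (n + 1) ∣
      (∑ g, ∑ i, A g i j * (sg (ξ ⬝ᵥ g) * v i + 2 ^ n * lft ((ψ ⬝ᵥ g) • τ) i)) - 0 := by
    refine circ_eq.1 ?_
    rw [Int.cast_zero, zero_div]
    refine Eq.trans ?_ h6
    congr 1
    simp only [Int.cast_sum, Finset.sum_div, Int.cast_mul (A _ _ _), mul_div_assoc]
  have e1 : ∑ g, ∑ i, A g i j * (sg (ξ ⬝ᵥ g) * v i) = 2 * (v ᵥ* c ξ) j := by
    have e := congrArg (fun x => (v ᵥ* x) j) (hc ξ)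
    simp only [Ach, vecMul, dotProduct, Matrix.sum_apply, Matrix.smul_apply, smul_eq_mul,
      nsmul_eq_mul, Nat.cast_ofNat] at e
    rw [Finset.sum_comm]
    simp only [vecMul, dotProduct, Finset.mul_sum] at e ⊢
    refine Eq.trans ?_ (e.trans ?_)
    · exact Finset.sum_congr rfl fun i _ => Finset.sum_congr rfl fun g _ => by ring
    · exact Finset.sum_congr rfl fun i _ => by ring
  have e2 : (2 : ℤ) ∣ (∑ g, ∑ i, A g i j * lft ((ψ ⬝ᵥ g) • τ) i) - lft (τ ᵥ* D1 B ψ) j := by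
    refine xmx_dvd_two ?_
    rw [xmx_lft_cast]
    simp only [Int.cast_sum, Int.cast_mul, xmx_lft_cast]
    rw [Finset.sum_comm]
    simp only [D1, vecMul, Matrix.sum_apply, Matrix.smul_apply, Pi.smul_apply, smul_eq_mul]
    rw [dotProduct]
    refine Finset.sum_congr rfl fun i _ => ?_
    rw [Finset.mul_sum]
    refine Finset.sum_congr rfl fun g _ => ?_
    rw [← hM.red g, redM, Matrix.map_apply]
    ring
  obtain ⟨w, hw⟩ := e2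
  simp only [mul_add, Finset.sum_add_distrib, e1, mul_left_comm (A _ _ _) ((2 : ℤ) ^ n),
    ← Finset.mul_sum, sub_zero] at h8
  rw [eq_add_of_sub_eq hw] at h8
  have e3 : 2 * (v ᵥ* c ξ) j - 2 ^ n * lft (τ ᵥ* D1 B ψ) j =
      (2 * (v ᵥ* c ξ) j + 2 ^ n * (2 * w + lft (τ ᵥ* D1 B ψ) j)) -
        2 ^ (n + 1) * (w + lft (τ ᵥ* D1 B ψ) j) := by ring
  rw [e3]
  exact dvd_sub h8 (dvd_mul_right _ _)

lemma Bas.rp_km (hc : ∀ ξ, Ach A ξ = 2 • c ξ) (hn : n ≤ N) (h1 : T.Sx RW ε ξ n z ζ)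
    (h5 : T.Rp μ N n z ζ v) : v ∈ Km (c ξ) n := by
  intro j
  have h6 := h.core hM (ψ := 0) hc rfl hn h1.2.1 h1.2.2.1.1 h1.2.2.2 (fun g => ⟨0, h.par.ml_zero,
    by rw [h1.1 g, sub_self, smul_zero], by
      rw [h1.2.2.1.2 g, CharTwo.add_self_eq_zero, h.par.zf_zero, zero_dotProduct, map_zero,
        add_zero]⟩) h5 j
  have e : D1 B 0 = 0 := by simp [D1]
  rw [e, vecMul_zero, lft] at h6
  simp only [Pi.zero_apply, ZMod.val_zero, Nat.cast_zero, mul_zero, sub_zero] at h6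
  rw [pow_succ'] at h6
  exact Int.dvd_of_mul_dvd_mul_left two_ne_zero h6

end Tw

end Pool.Agent.Lib.MP_788af2_nt.AS
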