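import Pool.Agent.Lib.MP_a3f657_nt.BK.XK
import Pool.Agent.Lib.MP_a3f657_nt.BK.XAbs

/-!
The local images of the twists.
-/

set_option linter.unusedSectionVars false

namespace Pool.Agent.Lib.MP_788af2_nt.AS

open Polynomial WeierstrassCurve Pool.Agent.Lib.MP_a3f657_nt.Two Matrix

namespace Tw

variable {k : Type} [Field k] [Finite k] [CharP k 2] {I : Type} [Fintype I] [DecidableEq I]
  {β : I → k[X]} {L : Type} [Field L] [CharP L 2] {T : Tw β L} [DecidableEq L]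
  {a b : k[X]} {H : AddSubgroup L} {RW : G I → ℕ → AddSubgroup ((T.Cw a b).Point × L)} {K ε : ℕ}
  {ξ ψ : G I} {n : ℕ} {ζ ζ' : L}
  {z z' : (T.Cw a b).Point}

private lemma xy_cases (u : ZMod 2) : u = 0 ∨ u = 1 := by revert u; decide

private lemma xy_eq {u v : ZMod 2} (e : u = 0 ↔ v = 0) : u + v = 0 := by
  revert u v; decide

private lemma xy_sg (u : ZMod 2) : sg (u + 1) = -sg u := by revert u; decide

private lemma xy_single (i : I) : (Pi.single i 1 : G I) ≠ 0 := fun e => by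
  simpa using congrFun e i

namespace Bas

variable (h : T.Bas a b H RW K ε)

include h

lemma b_ne : od b ≠ 0 := h.par.b_ne

private lemma xy_num : (1 : ℝ) ≤ K ∧ 0 ≤ gam β Finset.univ ∧
    5 * (K : ℝ) + 5 * gam β Finset.univ + 5 ≤ ε :=
  ⟨by exact_mod_cast h.par.pos, gam_nonneg β _, h.par.big⟩

lemma hh_iso (hz : z ∈ T.Eig a b ξ) (hz' : z' ∈ T.Eig a b ξ) :
    T.RK (T.hh b z * T.hh b z') = 0 := by
  have e1 := h.ax.qL ξ _ (add_mem hz hz')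
  rw [hh_add h.b_ne, qf_add h.b_ne (Eig_fix hz) (Eig_fix hz'), h.ax.qL ξ _ hz,
    h.ax.qL ξ _ hz'] at e1
  simpa using e1

lemma y_kg (h1 : ζ ∈ T.Yx a b ε ξ) : ζ ∈ T.KG (T.kap a b) := by
  obtain ⟨z, h2, h3, rfl⟩ := h1
  exact h.par.zf_kg h2 h3

lemma y_zero (ξ : G I) : (0 : L) ∈ T.Yx a b ε ξ := by
  exact ⟨0, zero_mem _, h.par.ml_zero, h.par.zf_zero⟩

lemma y_add (h1 : ζ ∈ T.Yx a b ε ξ) (h2 : ζ' ∈ T.Yx a b ε ξ) : ζ + ζ' ∈ T.Yx a b ε ξ := by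
  obtain ⟨z, h3, h4, rfl⟩ := h1
  obtain ⟨z', h5, h6, rfl⟩ := h2
  exact ⟨z + z', add_mem h3 h5, h.par.ml_add h4 h6, h.par.zf_add h4 h6⟩

lemma y_one : (1 : L) ∈ T.Yx a b ε ξ ↔ ∃ z ∈ T.Eig a b ξ, ¬ T.Ml ε z := by
  constructor
  · rintro ⟨z, h1, h2, h3⟩
    obtain ⟨Q, h4, rfl⟩ := h.par.zf_eq_one h2 h3
    exact ⟨Q, Eig_half h.b_ne h1, h4⟩
  · rintro ⟨z, h1, h2⟩
    exact ⟨2 • z, nsmul_mem h1 2, h.par.ml_two z, h.par.zf_two' h2⟩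

lemma y_of_hh (h1 : ζ ∈ T.KG (T.kap a b)) (hz : z ∈ T.Eig a b ξ) (e : T.hh b z = T.P.c1 ζ) :
    ζ ∈ T.Yx a b ε ξ ∨ ζ + 1 ∈ T.Yx a b ε ξ := by
  obtain ⟨n1, n2, n3⟩ := h.xy_num
  have h2 : T.Ml ε z := by
    rw [Ml, e]
    exact DF.Le.mono (h.kp.kg_c1_le h1) (by linarith)
  have h3 : T.P.c1 (ζ + T.Zf z) = 0 := by
    rw [PB.c1_add, h.par.zf_c1 h2, e]
    exact CharTwo.add_self_eq_zero _
  rcases (h1.1.add (h.par.zf_kr h2)).cases h3 with h4 | h4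
  · exact Or.inl ⟨z, hz, h2, (CharTwo.add_eq_zero.1 h4).symm⟩
  · exact Or.inr ⟨z, hz, h2, by grind⟩

private lemma xy_orth (h1 : ζ ∈ T.KG (T.kap a b)) (hz : z ∈ T.Eig a b ξ) (h2 : T.Ml ε z) :
    T.RK (T.P.c1 ζ * T.hh b z) = 0 := by
  rw [← h.par.zf_c1 h2]
  exact kg_iso h.kp.fix h1 (h.par.zf_kg hz h2)

lemma y_caseI (h0 : ∀ z ∈ T.Eig a b ξ, T.Ml ε z) (h1 : ζ ∈ T.KG (T.kap a b)) :
    ζ ∈ T.Yx a b ε ξ ∨ ζ + 1 ∈ T.Yx a b ε ξ := by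
  obtain ⟨z, hz, e⟩ := h.ax.mx ξ _ (Fix.c1 h1.2) fun z hz => h.xy_orth h1 hz (h0 z hz)
  exact h.y_of_hh h1 hz e

lemma y_caseII (hz : z ∈ T.Eig a b ξ) (h0 : ¬ T.Ml ε z) (h1 : ζ ∈ T.KG (T.kap a b)) :
    ζ ∈ T.Yx a b ε ξ ↔ T.RK (T.hh b z * T.P.c1 ζ) = 0 := by
  constructor
  · rintro ⟨z', h2, h3, rfl⟩
    rw [h.par.zf_c1 h3]
    exact h.hh_iso hz h2
  · intro h2
    have h3 : ∀ z' ∈ T.Eig a b ξ, T.RK (T.P.c1 ζ * T.hh b z') = 0 := by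
      intro z' hz'
      by_cases h4 : T.Ml ε z'
      · exact h.xy_orth h1 hz' h4
      · have h5 := h.xy_orth h1 (add_mem hz hz') (h.par.ml_dich h0 h4)
        rwa [hh_add h.b_ne, mul_add, RK_add, mul_comm, h2, zero_add] at h5
    obtain ⟨z', hz', e⟩ := h.ax.mx ξ _ (Fix.c1 h1.2) h3
    rcases h.y_of_hh h1 hz' e with h4 | h4
    · exact h4
    · have h5 := h.y_add h4 (h.y_one.2 ⟨z, hz, h0⟩)
      rwa [add_assoc, CharTwo.add_self_eq_zero, add_zero] at h5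

lemma y_ind (h1 : ζ ∈ T.KG (T.kap a b)) (h2 : ζ' ∈ T.KG (T.kap a b)) (h3 : ζ ∉ T.Yx a b ε ξ)
    (h4 : ζ' ∉ T.Yx a b ε ξ) : ζ + ζ' ∈ T.Yx a b ε ξ := by
  by_cases h0 : ∀ z ∈ T.Eig a b ξ, T.Ml ε z
  · have h5 := h.y_add ((h.y_caseI h0 h1).resolve_left h3) ((h.y_caseI h0 h2).resolve_left h4)
    rwa [add_add_add_comm, CharTwo.add_self_eq_zero, add_zero] at h5
  · push Not at h0
    obtain ⟨z, hz, h0⟩ := h0
    rw [h.y_caseII hz h0 h1] at h3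
    rw [h.y_caseII hz h0 h2] at h4
    rw [h.y_caseII hz h0 (add_mem h1 h2), PB.c1_add, mul_add, RK_add]
    exact xy_eq (iff_of_false h3 h4)

lemma y_int (h1 : ζ ∈ T.Yx a b ε ξ) (h2 : ζ ∈ T.Yx a b ε (ξ + ψ)) :
    T.nx (T.kap a b) ψ ζ = 0 := by
  have hk := h.y_kg h1
  obtain ⟨z, h3, h4, e1⟩ := h1
  obtain ⟨z', h5, h6, e2⟩ := h2
  have h7 : T.Zf (z - z') = 0 := by
    rw [sub_eq_add_neg, h.par.zf_add h4 (h.par.ml_neg h6), h.par.zf_neg, e1, e2]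
    exact CharTwo.add_self_eq_zero _
  obtain ⟨u, h8, e3⟩ := h.par.zf_eq_zero (h.par.ml_sub h4 h6) h7
  refine nx_of_lift h.kp.fix hk (h.par.zf_kr h8) fun g => ?_
  have e4 : 2 • T.sQ a b g u = sg (ξ ⬝ᵥ g) • z - sg (ξ ⬝ᵥ g + ψ ⬝ᵥ g) • z' := by
    rw [← map_nsmul, ← e3, map_sub, h3 g, h5 g, add_dotProduct]
  have e5 : z = 2 • u + z' := by rw [← e3, sub_add_cancel]
  rw [← h.par.zf_σ h8]
  rcases xy_cases (ψ ⬝ᵥ g) with e | e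
  · have e6 : T.sQ a b g u = sg (ξ ⬝ᵥ g) • u := by
      refine cw_inj h.b_ne 1 ?_
      rw [pow_one, e4, e, add_zero, ← smul_sub, e3, smul_comm]
    rw [e6, h.par.zf_sg, e, map_zero, zero_mul, add_zero]
  · have e6 : T.sQ a b g u = sg (ξ ⬝ᵥ g) • (u + z') := by
      refine cw_inj h.b_ne 1 ?_
      rw [pow_one, e4, e, xy_sg, neg_smul, sub_neg_eq_add, ← smul_add, e5, smul_comm]
      congr 1
      rw [smul_add, two_nsmul z', add_assoc]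
    rw [e6, h.par.zf_sg, h.par.zf_add h8 h6, e, map_one, one_mul, e2]

private lemma xy_pw {α : L} (h1 : T.Fix α)
    (h2 : ∀ ζ ∈ T.KG (T.kap a b), T.RK (α * (ζ / T.bh (T.kap a b))) = 0) :
    ∃ u, T.Fix u ∧ wp u = α := by
  refine h.ax.pw α h1 fun φ h3 h4 => ?_
  have h5 := h2 _ (log_mem_KG h.kp.fix h3 h4)
  rwa [mul_div_cancel_left₀ _ (T.bh_ne _)] at h5

lemma nx_inj (h1 : ∀ ζ ∈ T.KG (T.kap a b), T.nx (T.kap a b) ψ ζ = 0) : ψ = 0 := by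
  obtain ⟨u, h2, e⟩ := h.xy_pw (T.fix_p (X * comb β ψ ^ 2)) h1
  rw [← T.wp_comb] at e
  have h3 : wp (u + comb T.θ ψ) = 0 := by
    rw [wp_add, e]
    exact CharTwo.add_self_eq_zero _
  have h4 : T.Fix (comb T.θ ψ) := by
    rcases wp_eq_zero.1 h3 with h5 | h5
    · rwa [← CharTwo.add_eq_zero.1 h5]
    · rw [show comb T.θ ψ = u + 1 by grind]
      exact h2.add T.fix_one
  funext i
  have h5 := h4 (Pi.single i 1)
  rw [σ_comb, add_eq_left, dotProduct_single, mul_one] at h5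
  rcases xy_cases (ψ i) with h6 | h6
  · exact h6
  · rw [h6, map_one] at h5
    exact absurd h5 one_ne_zero

lemma y_ne (h1 : (1 : L) ∈ T.Yx a b ε ξ) (ψ : G I) :
    ¬ ∀ ζ ∈ T.KG (T.kap a b), (ζ ∈ T.Yx a b ε ξ ↔ T.nx (T.kap a b) ψ ζ = 0) := by
  intro h2
  obtain ⟨n1, n2, n3⟩ := h.xy_num
  obtain ⟨z, hz, h0⟩ := h.y_one.1 h1
  have hf := Eig_fix hz
  obtain ⟨u, h3, e⟩ := h.xy_pw (α := T.bh (T.kap a b) * T.hh b z ^ 2 + T.yy ψ)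
    (((T.bh_fix h.kp.fix).mul (hf.pow 2)).add (T.fix_p _)) fun ζ hζ => by
      rw [add_mul, RK_add, RK_bh_sq h.kp.fix hζ hf]
      exact xy_eq ((h.y_caseII hz h0 hζ).symm.trans (h2 ζ hζ))
  have a1 := T.p_ne h.par.a_ne
  have a2 : T.d.deg (T.p (od a)) = ε := by rw [T.deg_p h.par.a_ne, h.par.a_od]
  have h4 : T.hh b z + T.p (od a) ∈ T.d.Le (ε - 1) := h.par.dich h0
  have h5 : T.hh b z ∈ T.d.Le ε := by
    have h6 := add_mem (DF.Le.mono h4 (by linarith : (ε : ℝ) - 1 ≤ ε)) (DF.mem_Le_of a2.le)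
    rwa [add_assoc, CharTwo.add_self_eq_zero, add_zero] at h6
  have h6 := T.comb_le ψ
  have h7 : wp u ∈ T.d.Le (2 * K + 2 * ε) := by
    rw [e, yy_eq]
    exact add_mem (DF.Le.mul h.kp.bh_le (DF.Le.sq h5 le_rfl) le_rfl)
      (DF.Le.mul T.b_mem (DF.Le.sq h6 le_rfl) (by linarith))
  have h8 : T.P.c1 u ∈ T.d.Le (ε - 1) :=
    h3.c1_le (DF.Le.of_wp h7 (by linarith) le_rfl) (by linarith)
  have e1 : T.P.c1 u = T.hh b z + T.p (comb β ψ) := by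
    rw [← PB.c1_wp, e, PB.c1_add, c1_bh_sq, yy_eq, PB.c1_b_sq]
  have h9 := add_mem (add_mem h4 h8) (DF.Le.mono h6 (by linarith : _ ≤ (ε : ℝ) - 1))
  rw [e1, show T.hh b z + T.p (od a) + (T.hh b z + T.p (comb β ψ)) + T.p (comb β ψ) =
    T.p (od a) by grind, DF.mem_Le_iff a1, a2] at h9
  linarith

end Bas

variable {W : Type} [Fintype W] [DecidableEq W] {vv : (W → ZMod 2) →+ L} {Ψ ζ₀ : W → L}
  {ν : L →+ (W → ZMod 2)} {B : G I → Matrix W W (ZMod 2)} {τ : W → ZMod 2}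

lemma Ctx.τ_ne (h : T.Ctx a b H RW K ε vv Ψ ζ₀ ν B τ) : τ ≠ 0 := by
  intro e
  have h1 := h.τ_eq
  rw [e, map_zero] at h1
  exact zero_ne_one h1

private lemma xy_psi0 (h : T.Ctx a b H RW K ε vv Ψ ζ₀ ν B τ) :
    ∃ ψ, T.nx (T.kap a b) ψ 1 = 1 := by
  obtain ⟨i, hi⟩ := Function.ne_iff.1 h.τ_ne
  obtain ⟨ψ, e⟩ := h.ont (Pi.single i 1)
  refine ⟨ψ, ?_⟩
  rw [T.nx_one H, ← h.τ_eq, ← h.frm.d1_eq, e, dotProduct_single, mul_one]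
  exact (xy_cases _).resolve_left hi

private lemma xy_psi1 (h : T.Ctx a b H RW K ε vv Ψ ζ₀ ν B τ) :
    ∃ ψ, ψ ≠ 0 ∧ T.nx (T.kap a b) ψ 1 = 0 := by
  obtain ⟨i, j, hij⟩ := Fintype.exists_pair_of_one_lt_card (lt_of_lt_of_le one_lt_two h.two)
  by_cases h1 : T.nx (T.kap a b) (Pi.single i 1) 1 = 0
  · exact ⟨_, xy_single i, h1⟩
  by_cases h2 : T.nx (T.kap a b) (Pi.single j 1) 1 = 0
  · exact ⟨_, xy_single j, h2⟩
  refine ⟨Pi.single i 1 + Pi.single j 1, fun e => ?_, ?_⟩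
  · simpa [hij] using congrFun e i
  · rw [nx_add]
    exact xy_eq (iff_of_false h1 h2)

private lemma xy_hadd (h : T.Bas a b H RW K ε) (h1 : ζ ∈ T.Yx a b ε ξ) :
    ζ + ζ' ∈ T.Yx a b ε ξ ↔ ζ' ∈ T.Yx a b ε ξ := by
  refine ⟨fun h2 => ?_, h.y_add h1⟩
  have h3 := h.y_add h1 h2
  rwa [← add_assoc, CharTwo.add_self_eq_zero, zero_add] at h3

theorem Ctx.fine (h : T.Ctx a b H RW K ε vv Ψ ζ₀ ν B τ) (ξ ψ : G I)
    (h1 : ζ ∈ T.KG (T.kap a b)) :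
    ζ ∈ T.Yx a b ε (ξ + ψ) ↔ (ζ ∈ T.Yx a b ε ξ ↔ T.nx (T.kap a b) ψ ζ = 0) := by
  obtain ⟨ψ₀, h2⟩ := xy_psi0 h
  obtain ⟨ψ₁, h3, h4⟩ := xy_psi1 h
  have hb := h.toBas
  exact fine_abs (fun x => funext fun i => CharTwo.add_self_eq_zero (x i)) (T.KG (T.kap a b))
    (T.Yx a b ε) (T.nx (T.kap a b)) (T.one_mem_KG _) (fun _ _ hx _ _ => xy_hadd hb hx)
    (fun _ _ hx => hb.y_kg hx) (fun _ _ hx _ hy => hb.y_ind hx hy) (T.nx_add _) (T.nx_add' _)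
    (fun _ => hb.nx_inj) (fun _ _ _ => hb.y_int) (fun _ ψ ht => hb.y_ne ht ψ) h2 h3 h4 ξ ψ h1

theorem Ctx.caseB (h : T.Ctx a b H RW K ε vv Ψ ζ₀ ν B τ) (h1 : ζ ∈ T.KG (T.kap a b))
    (h2 : ζ ∉ T.Yx a b ε ξ) : ∃ ψ ζ', ζ' ∈ T.Yx a b ε (ξ + ψ) ∧ T.nx (T.kap a b) ψ ζ' = 1 ∧
      ζ + ζ' ∈ T.Yx a b ε ξ := by
  have hb := h.toBas
  have key : ∃ ψ, ∃ ζ' ∈ T.KG (T.kap a b), ζ' ∉ T.Yx a b ε ξ ∧ T.nx (T.kap a b) ψ ζ' ≠ 0 := by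
    by_contra h3
    push Not at h3
    obtain ⟨i, -, -⟩ := Fintype.exists_pair_of_one_lt_card (lt_of_lt_of_le one_lt_two h.two)
    refine xy_single i (hb.nx_inj fun x hx => ?_)
    by_cases h4 : x ∈ T.Yx a b ε ξ
    · have h5 := h3 (Pi.single i 1) _ (add_mem hx h1) fun e => h2 ((xy_hadd hb h4).1 e)
      rwa [nx_add', h3 _ _ h1 h2, add_zero] at h5
    · exact h3 _ _ hx h4
  obtain ⟨ψ, ζ', h3, h4, h5⟩ := key
  exact ⟨ψ, ζ', (h.fine ξ ψ h3).2 (iff_of_false h4 h5), (xy_cases _).resolve_left h5,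
    hb.y_ind h1 h3 h2 h4⟩

end Tw

end Pool.Agent.Lib.MP_788af2_nt.AS
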