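import Pool.Agent.Lib.MP_a3f657_nt.BK.XMx
import Pool.Agent.Lib.MP_a3f657_nt.BK.XY

/-!
The obstruction to lifting.
-/

set_option linter.unusedSectionVars false

namespace Pool.Agent.Lib.MP_788af2_nt.AS

open Polynomial WeierstrassCurve Pool.Agent.Lib.MP_a3f657_nt.Two Matrix

namespace Tw

variable {k : Type} [Field k] [Finite k] [CharP k 2] {I : Type} [Fintype I] [DecidableEq I]
  {β : I → k[X]} {L : Type} [Field L] [CharP L 2] {T : Tw β L} [DecidableEq L]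
  {a b : k[X]} {H : AddSubgroup L} {RW : G I → ℕ → AddSubgroup ((T.Cw a b).Point × L)} {K ε : ℕ}
  {ξ ψ : G I} {n : ℕ}

variable {W : Type} [Fintype W] [DecidableEq W] {vv : (W → ZMod 2) →+ L} {Ψ ζ₀ : W → L}
  {ν : L →+ (W → ZMod 2)} {B : G I → Matrix W W (ZMod 2)} {τ : W → ZMod 2} {N : ℕ}
  {μ : (T.Cw a b).Point × L →+ (W → AddCircle (1 : ℚ))} {A c : G I → Matrix W W ℤ}
  {m z z' : (T.Cw a b).Point} {ζ ζ' u : L} {v v' : W → ℤ}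

private lemma xobs_cases (x : ZMod 2) : x = 0 ∨ x = 1 := by revert x; decide

private lemma xobs_sg (x y : ZMod 2) : sg (x + y) = sg x - 2 * ((y.val : ℤ) * sg x) := by
  revert x y
  unfold sg
  decide

private lemma xobs_val (o : W → ZMod 2) (w : W → ℤ) :
    (2 : ℤ) ∣ lft o ⬝ᵥ w - ((∑ i, AS.red w i * o i).val : ℤ) := by
  have e : ((lft o ⬝ᵥ w - ((∑ i, AS.red w i * o i).val : ℤ) : ℤ) : ZMod 2) = 0 := by
    rw [Int.cast_sub, Int.cast_natCast, ZMod.natCast_zmod_val, dotProduct, Int.cast_sum, sub_eq_zero]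
    refine Finset.sum_congr rfl fun i _ => ?_
    rw [lft, AS.red, Int.cast_mul, Int.cast_natCast, ZMod.natCast_zmod_val, mul_comm]
  exact_mod_cast (ZMod.intCast_zmod_eq_zero_iff_dvd _ 2).1 e

private lemma xobs_vv (vv : (W → ZMod 2) →+ L) (x : W → ZMod 2) :
    vv x = ∑ i, zc L (x i) * vv (Pi.single i 1) := by
  conv_lhs => rw [← Finset.univ_sum_single x, map_sum]
  refine Finset.sum_congr rfl fun j _ => ?_
  rcases xobs_cases (x j) with e | e <;> simp [e]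

private lemma xobs_RK (vv : (W → ZMod 2) →+ L) (y d : L) (x : W → ZMod 2) :
    T.RK (y * (vv x / d)) = ∑ i, x i * T.RK (y * (vv (Pi.single i 1) / d)) := by
  rw [xobs_vv vv x, Finset.sum_div, Finset.mul_sum, RK_sum]
  refine Finset.sum_congr rfl fun i _ => ?_
  rw [← RK_zc_mul]
  congr 1
  ring

private lemma xobs_m (hB : T.Bas a b H RW K ε) (hz : z ∈ T.Eig a b ξ)
    (hz' : z' ∈ T.Eig a b (ξ + ψ)) (h1' : T.Ml ε z') (g : G I) :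
    ∃ m', T.Ml ε m' ∧
      T.sQ a b g (z + 2 ^ n • z') - sg (ξ ⬝ᵥ g) • (z + 2 ^ n • z') = 2 ^ (n + 1) • m' ∧
      T.Zf m' = zc L (ψ ⬝ᵥ g) * T.Zf z' := by
  refine ⟨-((((ψ ⬝ᵥ g).val : ℤ) * sg (ξ ⬝ᵥ g)) • z'), hB.par.ml_neg (hB.par.ml_zsmul h1' _), ?_, ?_⟩
  · rw [map_add, map_nsmul, hz g, hz' g, add_dotProduct, xobs_sg]
    module
  · rw [hB.par.zf_neg]
    rcases xobs_cases (ψ ⬝ᵥ g) with e | e
    · rw [e]
      simp [hB.par.zf_zero]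
    · rw [e, map_one, one_mul, ZMod.val_one, Nat.cast_one, one_mul, hB.par.zf_sg]

private lemma xobs_u (hB : T.Bas a b H RW K ε) (hz : z ∈ T.Eig a b ξ)
    (hz' : z' ∈ T.Eig a b (ξ + ψ)) (h1' : T.Ml ε z') (h2 : (z + 2 ^ n • z', u) ∈ RW ξ (n + 1)) :
    T.Fix (u + T.P.c1 (comb T.θ ψ * T.Zf z')) := by
  intro g
  obtain ⟨m', hm, e1, e2⟩ := xobs_m (n := n) hB hz hz' h1' g
  obtain ⟨m'', e3, e4⟩ := hB.ax.act _ _ _ _ h2 g
  have e5 : m'' = m' := cw_inj hB.par.b_ne (n + 1) (by rw [← e1, ← e3])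
  rw [e5, ← hB.par.zf_c1 hm, e2, c1_zc_mul] at e4
  have hf : T.Fix (T.Zf z') := (hB.par.zf_kg hz' h1').2
  rw [map_add, ← σ_c1, map_mul, σ_comb, hf g, add_mul, PB.c1_add, c1_zc_mul, ← e4]
  have h2 : (2 : L) = 0 := CharTwo.two_eq_zero
  linear_combination (T.σ g u) * h2

variable (h : T.Ctx a b H RW K ε vv Ψ ζ₀ ν B τ) (hM : T.Mx RW ε N ν B μ A)
  (hc : ∀ ξ, Ach A ξ = 2 • c ξ)

include h hM hc

theorem Ctx.obs (hn : n < N) (hz : z ∈ T.Eig a b ξ) (h1 : T.Ml ε z)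
    (hz' : z' ∈ T.Eig a b (ξ + ψ)) (h1' : T.Ml ε z') (h2 : (z + 2 ^ n • z', u) ∈ RW ξ (n + 1))
    (h3 : T.Rp μ N n (z + 2 ^ n • z') 0 v) (w : W → ℤ) :
    (2 : ℤ) ^ (n + 1) ∣ (v ᵥ* c ξ) ⬝ᵥ w - 2 ^ n * (T.RK (T.Θ (T.kap a b) (comb T.θ ψ * T.Zf z' +
      T.bh (T.kap a b) * (u + T.P.c1 (comb T.θ ψ * T.Zf z')) ^ 2) *
      (vv (AS.red w) / T.bh (T.kap a b)))).val := by
  have hB := h.toBas
  have hK := hB.kp
  have two : (2 : L) = 0 := CharTwo.two_eq_zero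
  have hζ := hB.par.zf_kg hz' h1'
  have hs := xobs_u hB hz hz' h1' h2
  generalize hy0 : comb T.θ ψ * T.Zf z' +
    T.bh (T.kap a b) * (u + T.P.c1 (comb T.θ ψ * T.Zf z')) ^ 2 = y0
  have c0 : T.P.c1 y0 = u := by
    rw [← hy0, PB.c1_add, c1_bh_sq]
    linear_combination (T.P.c1 (comb T.θ ψ * T.Zf z')) * two
  have s0 : ∀ g, T.σ g y0 = y0 + zc L (ψ ⬝ᵥ g) * T.Zf z' := fun g => by
    rw [← hy0, map_add, ((T.bh_fix hK.fix).mul (hs.pow 2)) g, map_mul, σ_comb, hζ.2 g]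
    ring
  have f0 : T.Fix (T.Θ (T.kap a b) y0) := fun g => by
    rw [← T.Θ_σ hK.fix, s0, Θ_add, Θ_zc_mul, T.Kr_iff.1 hζ.1, mul_zero, add_zero]
  set o : W → ZMod 2 := fun i =>
    T.RK (T.Θ (T.kap a b) y0 * (vv (Pi.single i 1) / T.bh (T.kap a b))) with ho
  obtain ⟨ψ', hψ'⟩ := h.ont o
  obtain ⟨y, y1, y2, y3⟩ := h.fr0.exists_tw hK ψ' τ
  rw [hψ'] at y2
  rw [h.τ_eq] at y3
  have fy : T.Fix (T.Θ (T.kap a b) y) := by
    rw [y2]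
    exact Fix.sum _ fun i _ => (T.fix_zc _).mul (h.fr0.fix i)
  have fy' : T.Fix (T.P.c1 y) := fun g => by
    rw [← σ_c1, y3, PB.c1_add, c1_zc_mul, PB.c1_one, mul_zero, add_zero]
  obtain ⟨y', y4, y5, y6⟩ := T.fred hK (f0.add fy) fun x hx => by
    obtain ⟨x, rfl⟩ := (h.fr0.range x).1 hx
    rw [add_mul, RK_add, xobs_RK, y2, Finset.sum_mul, RK_sum, ← Finset.sum_add_distrib]
    refine Finset.sum_eq_zero fun i _ => ?_
    rw [mul_assoc, RK_zc_mul, h.fr0.dual, mul_comm (o i)]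
    exact CharTwo.add_self_eq_zero _
  have k1 : T.Kr (T.kap a b) (y0 + (y + y')) := by
    rw [Kr_iff, Θ_add, Θ_add, y6]
    linear_combination (T.Θ (T.kap a b) y0 + T.Θ (T.kap a b) y) * two
  have k2 : (z + 2 ^ n • z', T.P.c1 (y0 + (y + y'))) ∈ RW ξ (n + 1) := by
    rw [PB.c1_add, c0, PB.c1_add]
    exact hB.ax.shift h2 (add_mem y1 y5) (fy'.add y4.c1)
  have k0 : T.Ml ε (z + 2 ^ n • z') := hB.par.ml_add h1 (hB.par.ml_nsmul h1' _)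
  obtain ⟨v', hv'⟩ := hB.exists_rp hM (n := n + 1) hn k0 k1 k2
  have hτ : ν 1 = τ := by rw [← h.τ_eq, h.ν_vv]
  have k3 := hB.core hM (ψ := ψ') hc hτ (n := n + 1) hn k0 k1 k2 (fun g => by
    obtain ⟨m', hm, e1, e2⟩ := xobs_m (n := n) hB hz hz' h1' g
    refine ⟨m', hm, e1, ?_⟩
    rw [e2, map_add, map_add, s0, y3, y4 g]
    linear_combination (y0 + y + y') * two) hv'
  have k4 := h3.uniq (hv'.half hn)
  have k5 : τ ᵥ* D1 B ψ' = o := by rw [← hψ', ← Matrix.mulVec_transpose, h.sym]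
  rw [k5] at k3
  have k6 : ∀ j, (2 : ℤ) ^ (n + 1) ∣ (v ᵥ* c ξ) j - 2 ^ n * lft o j := fun j => by
    have e1 : (2 : ℤ) ^ (n + 1) ∣ (v' ᵥ* c ξ) j - 2 ^ n * lft o j := by
      refine Int.dvd_of_mul_dvd_mul_left (a := 2) two_ne_zero ?_
      convert k3 j using 1 <;> ring
    have e2 : (2 : ℤ) ^ (n + 1) ∣ (v ᵥ* c ξ) j - (v' ᵥ* c ξ) j := by
      simp only [vecMul, dotProduct, ← Finset.sum_sub_distrib, ← sub_mul]
      exact Finset.dvd_sum fun i _ => (k4 i).mul_right _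
    have e3 := dvd_add e2 e1
    rwa [sub_add_sub_cancel] at e3
  have k7 : (2 : ℤ) ^ (n + 1) ∣ (v ᵥ* c ξ) ⬝ᵥ w - 2 ^ n * (lft o ⬝ᵥ w) := by
    simp only [dotProduct, Finset.mul_sum, ← Finset.sum_sub_distrib, ← mul_assoc, ← sub_mul]
    exact Finset.dvd_sum fun i _ => (k6 i).mul_right _
  have k8 := mul_dvd_mul_left ((2 : ℤ) ^ n) (xobs_val o w)
  rw [← pow_succ, mul_sub] at k8
  have k9 := dvd_add k7 k8
  rw [sub_add_sub_cancel] at k9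
  rw [xobs_RK]
  exact k9

theorem Ctx.obsA (hn : n < N) (hz : z ∈ T.Eig a b ξ) (h1 : T.Ml ε z) (h2 : (z, u) ∈ RW ξ (n + 1))
    (h3 : T.Rp μ N n z 0 v) (w : W → ℤ) :
    (2 : ℤ) ^ (n + 1) ∣ (v ᵥ* c ξ) ⬝ᵥ w - 2 ^ n * (T.RK (u * T.P.c1 (vv (AS.red w)))).val := by
  have hB := h.toBas
  have e := h.obs hM hc (ψ := 0) (z' := 0) (u := u) hn hz h1 (zero_mem _) hB.par.ml_zero
    (by simpa using h2) (by simpa using h3) w
  have hu : T.Fix u := hB.ax.fix hB.par.b_ne hz h2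
  rwa [hB.par.zf_zero, mul_zero, PB.c1_zero, zero_add, add_zero,
    RK_ident hB.kp.fix (Vs_le_KG ((h.fr0.range _).2 ⟨_, rfl⟩))
      ((T.bh_fix hB.kp.fix).mul (hu.pow 2)), c1_bh_sq] at e

theorem Ctx.obsB (hn : n < N) (h1 : T.Sx RW ε ξ n z ζ) (h2 : ζ ∉ T.Yx a b ε ξ)
    (h3 : T.Rp μ N n z ζ v) : ¬ (2 : ℤ) ^ (n + 1) ∣ (v ᵥ* c ξ) ⬝ᵥ lft τ := by
  have hB := h.toBas
  have hK := hB.kp
  have two : (2 : L) = 0 := CharTwo.two_eq_zero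
  obtain ⟨hz, hm, hζ, hR⟩ := h1
  obtain ⟨ψ, ζ', ⟨z', hz', hm', rfl⟩, e1, z'', hz'', hm'', e2⟩ := h.caseB hζ h2
  have k1 : (z + 2 ^ n • z'' + 2 ^ n • z', (0 : L)) ∈ RW ξ n := by
    have e := add_mem (add_mem hR (hB.ax.pow ξ n z'')) (hB.ax.pow ξ n z')
    rw [Prod.mk_add_mk, Prod.mk_add_mk, ← hB.par.zf_c1 hm'', ← hB.par.zf_c1 hm', e2,
      PB.c1_add] at e
    convert e using 2
    linear_combination (-(T.P.c1 ζ + T.P.c1 (T.Zf z'))) * two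
  obtain ⟨u, k2⟩ := hB.ax.up _ _ _ k1
  have k3 : T.Rp μ N n (z + 2 ^ n • z'' + 2 ^ n • z') 0 v := by
    have e := (h3.add (hB.rp_pow hM hn.le hm'')).add (hB.rp_pow hM hn.le hm')
    rw [e2, add_zero, add_zero] at e
    convert e using 1
    linear_combination (-(ζ + T.Zf z')) * two
  have hz1 : z + 2 ^ n • z'' ∈ T.Eig a b ξ := add_mem hz (nsmul_mem hz'' _)
  have e := h.obs hM hc hn hz1 (hB.par.ml_add hm (hB.par.ml_nsmul hm'' _)) hz' hm' k2 k3 (lft τ)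
  have hs := xobs_u hB hz1 hz' hm' k2
  have hζ' := hB.par.zf_kg hz' hm'
  have hy : T.Fix (T.yy ψ) := T.fix_p _
  have e3 : AS.red (lft τ) = τ := funext fun i => by simp [AS.red, lft]
  rw [e3, h.τ_eq, Θ_add, add_mul, RK_add,
    RK_ident hK.fix (T.one_mem_KG _) ((T.bh_fix hK.fix).mul (hs.pow 2)), PB.c1_one, mul_zero,
    RK_zero, add_zero, mul_one_div, Θ_θ hζ'.1,
    T.RK_c1 (Fix.mul hy (hζ'.2.div (T.bh_fix hK.fix))), ← nx, e1] at e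
  intro e4
  have e5 := dvd_sub e4 e
  rw [sub_sub_cancel, ZMod.val_one, Nat.cast_one, pow_succ] at e5
  have e6 := (mul_dvd_mul_iff_left (pow_ne_zero n two_ne_zero)).1 e5
  omega

end Tw

end Pool.Agent.Lib.MP_788af2_nt.AS
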