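import Pool.Agent.Lib.MP_a3f657_nt.BK.XObs

/-!
The kernels of the matrix come from Selmer elements.
-/

set_option linter.unusedSectionVars false

namespace Pool.Agent.Lib.MP_788af2_nt.AS

open Polynomial WeierstrassCurve Pool.Agent.Lib.MP_a3f657_nt.Two Matrix

namespace Tw

variable {k : Type} [Field k] [Finite k] [CharP k 2] {I : Type} [Fintype I] [DecidableEq I]
  {β : I → k[X]} {L : Type} [Field L] [CharP L 2] {T : Tw β L} [DecidableEq L]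
  {a b : k[X]} {H : AddSubgroup L} {RW : G I → ℕ → AddSubgroup ((T.Cw a b).Point × L)} {K ε : ℕ}
  {ξ ψ : G I} {n : ℕ}

variable {W : Type} [Fintype W] [DecidableEq W] {vv : (W → ZMod 2) →+ L} {Ψ ζ₀ : W → L}
  {ν : L →+ (W → ZMod 2)} {B : G I → Matrix W W (ZMod 2)} {τ : W → ZMod 2} {N : ℕ}
  {μ : (T.Cw a b).Point × L →+ (W → AddCircle (1 : ℚ))} {A c : G I → Matrix W W ℤ}
  {m z z' : (T.Cw a b).Point} {ζ ζ' u : L} {v v' : W → ℤ}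

lemma Bas.caseA (h : T.Bas a b H RW K ε) (hM : T.Mx RW ε N ν B μ A) (hn : n ≤ N)
    (h1 : T.Sx RW ε ξ n z ζ) (h2 : ζ ∈ T.Yx a b ε ξ) (h3 : T.Rp μ N n z ζ v) :
    ∃ z', T.Sx RW ε ξ n z' 0 ∧ T.Rp μ N n z' 0 v := by
  obtain ⟨y, hy, hy1, rfl⟩ := h2
  have e1 := h.sx_add h1 (h.sx_pow hy hy1 n)
  have e2 := h3.add (h.rp_pow hM hn hy1)
  rw [CharTwo.add_self_eq_zero] at e1 e2
  rw [add_zero] at e2
  exact ⟨_, e1, e2⟩

private lemma xsur_val {x : ZMod 2} {n : ℕ} (h : (2 : ℤ) ^ (n + 1) ∣ 2 ^ n * (x.val : ℤ)) :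
    x = 0 := by
  rw [pow_succ, mul_dvd_mul_iff_left (by positivity)] at h
  revert x
  decide

private lemma xsur_lft (t : W → ℤ) (i : W) : (2 : ℤ) ∣ lft (AS.red t) i - t i := by
  have := (ZMod.intCast_eq_intCast_iff_dvd_sub (t i) (lft (AS.red t) i) 2).1
    (by simpa [AS.red] using (congrFun (red_lft (AS.red t)) i).symm)
  simpa using this

private lemma xsur_dot {x : W → ℤ} {d : ℤ} (h : ∀ j, d ∣ x j) (w : W → ℤ) : d ∣ x ⬝ᵥ w :=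
  Finset.dvd_sum fun j _ => (h j).mul_right _

private lemma xsur_zero (h1 : T.Sx RW ε ξ n z 0) : (z, 0) ∈ RW ξ n := by
  simpa using h1.2.2.2

private lemma xsur_vs (h : T.Bas a b H RW K ε) (hz : z ∈ T.Eig a b ξ) (h1 : T.Ml ε z)
    (h2 : (z, 0) ∈ RW ξ n) : T.Zf z ∈ T.Vs H (T.kap a b) :=
  ⟨⟨h.par.zf_kr h1, by rw [h.par.zf_c1 h1]; exact h.ax.hh_mem h2⟩, (h.par.zf_kg hz h1).2⟩

variable (h : T.Ctx a b H RW K ε vv Ψ ζ₀ ν B τ) (hM : T.Mx RW ε N ν B μ A)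
  (hc : ∀ ξ, Ach A ξ = 2 • c ξ)

include h hM hc

omit hM hc in
private lemma xsur_eq (hz : z ∈ T.Eig a b ξ) (h1 : T.Ml ε z) (h2 : (z, 0) ∈ RW ξ n) :
    vv (ν (T.Zf z)) = T.Zf z := by
  obtain ⟨w, e⟩ := (h.frm.range _).1 (xsur_vs h.toBas hz h1 h2)
  rw [← e, h.ν_vv]

private lemma xsur_A (hn : n < N) (h1 : T.Sx RW ε ξ n z ζ) (h3 : T.Rp μ N n z ζ v)
    (h4 : (2 : ℤ) ^ (n + 1) ∣ (v ᵥ* c ξ) ⬝ᵥ lft τ) :
    ∃ z', T.Sx RW ε ξ n z' 0 ∧ T.Rp μ N n z' 0 v :=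
  h.toBas.caseA hM hn.le h1 (by_contra fun h2 => h.obsB hM hc hn h1 h2 h3 h4) h3

theorem Ctx.surj (hn : n ≤ N) (hv : v ∈ Km (c ξ) n) :
    ∃ z ζ, T.Sx RW ε ξ n z ζ ∧ T.Rp μ N n z ζ v := by
  induction n generalizing v with
  | zero =>
    have h1 : vv (AS.red v) ∈ T.Vs H (T.kap a b) := (h.frm.range _).2 ⟨_, rfl⟩
    refine ⟨0, _, h.toBas.sx_V h1 ξ 0, (h.toBas.rp_V hM h1 0).congr fun i => ?_⟩
    rw [h.ν_vv]
    simpa using xsur_lft v i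
  | succ n ih =>
    obtain ⟨z₀, ζ₁, h1, h2⟩ := ih (by omega) (v := v) fun j =>
      (pow_dvd_pow 2 n.le_succ).trans (hv j)
    obtain ⟨z, h3, h4⟩ := xsur_A h hM hc hn h1 h2 (xsur_dot hv _)
    obtain ⟨u, h5⟩ := h.ax.up ξ n z (xsur_zero h3)
    have h6 : T.Fix u := h.ax.fix h.par.b_ne h3.1 h5
    obtain ⟨ζ', h7, h8⟩ := h.kp.split h6 fun x hx => by
      obtain ⟨w, rfl⟩ := (h.frm.range _).1 hx
      have e := h.obsA hM hc hn h3.1 h3.2.1 h5 h4 (lft w)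
      rw [red_lft] at e
      exact xsur_val ((dvd_sub_right (xsur_dot hv _)).1 e)
    have h9 := h.ax.shift h5 h8 (h6.add h7.2.c1)
    rw [← add_assoc, CharTwo.add_self_eq_zero, zero_add] at h9
    obtain ⟨v', h10⟩ := h.toBas.exists_rp hM hn h3.2.1 h7.1 h9
    choose t ht using fun i => h4.uniq (h10.half hn) i
    have h11 : vv (AS.red t) ∈ T.Vs H (T.kap a b) := (h.frm.range _).2 ⟨_, rfl⟩
    refine ⟨_, _, h.toBas.sx_add ⟨h3.1, h3.2.1, h7, h9⟩ (h.toBas.sx_V h11 ξ (n + 1)),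
      (h10.add (h.toBas.rp_V hM h11 (n + 1))).congr fun i => ?_⟩
    rw [h.ν_vv]
    obtain ⟨s, hs⟩ := xsur_lft t i
    refine ⟨s, ?_⟩
    have := ht i
    simp only [Pi.add_apply, Pi.smul_apply, smul_eq_mul]
    linear_combination 2 ^ (n + 1) * hs - this

theorem Ctx.kq_iff (hn : n < N) :
    v ∈ Kq (c ξ) τ n ↔ ∃ z, T.Sx RW ε ξ n z 0 ∧ T.Rp μ N n z 0 v := by
  constructor
  · rintro ⟨h1, h2⟩
    obtain ⟨z, ζ, h3, h4⟩ := h.surj hM hc hn.le h1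
    exact xsur_A h hM hc hn h3 h4 h2
  · rintro ⟨z, h1, h2⟩
    obtain ⟨u, h3⟩ := h.ax.up ξ n z (xsur_zero h1)
    have e := h.obsA hM hc hn h1.1 h1.2.1 h3 h2 (lft τ)
    rw [red_lft, h.τ_eq, PB.c1_one, mul_zero, RK_zero] at e
    exact ⟨h.toBas.rp_km hM hc hn.le h1 h2, by simpa using e⟩

theorem Ctx.lq_iff (hn : n < N) {w : W → ZMod 2} :
    w ∈ Lq (c ξ) τ n ↔ ∃ z, T.Sx RW ε ξ n z 0 ∧ T.Zf z = vv w := by
  rw [mem_Lq]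
  constructor
  · rintro ⟨v, h1, rfl⟩
    obtain ⟨z, h2, h3⟩ := (h.kq_iff hM hc hn).1 h1
    refine ⟨z, h2, ?_⟩
    rw [h.toBas.rp_red hM hn.le h2.2.1 (xsur_zero h2) h3, xsur_eq h h2.1 h2.2.1 (xsur_zero h2)]
  · rintro ⟨z, h1, h2⟩
    obtain ⟨v, h3⟩ := h.toBas.exists_rp hM hn.le h1.2.1 h1.2.2.1.1 h1.2.2.2
    refine ⟨v, (h.kq_iff hM hc hn).2 ⟨z, h1, h3⟩, ?_⟩
    rw [h.toBas.rp_red hM hn.le h1.2.1 (xsur_zero h1) h3, h2, h.ν_vv]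

theorem Ctx.alt (hn : n < N) (hv : v ∈ Kq (c ξ) τ n) : (2 : ℤ) ^ (n + 1) ∣ (v ᵥ* c ξ) ⬝ᵥ v := by
  obtain ⟨z, h1, h2⟩ := (h.kq_iff hM hc hn).1 hv
  obtain ⟨u, h3⟩ := h.ax.up ξ n z (xsur_zero h1)
  have e := h.obsA hM hc hn h1.1 h1.2.1 h3 h2 v
  rw [h.toBas.rp_red hM hn.le h1.2.1 (xsur_zero h1) h2, xsur_eq h h1.1 h1.2.1 (xsur_zero h1),
    h.par.zf_c1 h1.2.1, h.ax.ct ξ (n + 1) (by omega) z h1.1 u h3] at e
  simpa using e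

theorem Ctx.tau (hn : n + 1 < N) (hv : v ∈ Km (c ξ) (n + 1)) (h1 : AS.red v = τ) :
    v ∈ Kq (c ξ) τ (n + 1) := by
  obtain ⟨z, ζ, h2, h3⟩ := h.surj hM hc hn.le hv
  have h4 := xsur_eq h h2.1 h2.2.1 (h.ax.down h2.2.2.2)
  rw [← h.toBas.rp_red' hM hn.le h2.2.1 h2.2.2.2 h3, h1, h.τ_eq] at h4
  obtain ⟨y, h5, rfl⟩ := h.par.zf_eq_one h2.2.1 h4.symm
  have h6 := Eig_half h.par.b_ne h2.1
  have h7 := (h.ax.two ξ n y _).1 h2.2.2.2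
  refine (h.kq_iff hM hc hn).2 (h.toBas.caseA hM hn.le h2
    ((h.toBas.y_caseII h6 h5 h2.2.2.1).2 ?_) h3)
  rw [mul_comm]
  rcases Nat.eq_zero_or_pos n with rfl | h8
  · have h9 := h.ax.pow ξ 0 y
    rw [pow_zero, one_smul] at h9
    have h10 := h2.2.2.1.2.c1
    have h11 := h.ax.qH _ (h.ax.diff h7 h9) (h10.add (Eig_fix h6))
    rwa [qf_add h.par.b_ne h10 (Eig_fix h6), qf_kg h.par.b_ne h2.2.2.1, h.ax.qL ξ y h6, zero_add,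
      zero_add] at h11
  · exact h.ax.ct ξ n h8 y h6 _ h7

end Tw

end Pool.Agent.Lib.MP_788af2_nt.AS
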