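import Pool.Agent.Lib.MP_a3f657_nt.BK.YDefs
import Pool.Agent.Lib.MP_788af2_nt.TT.FlipA
import Pool.Agent.Lib.MP_788af2_nt.TT.Pert

/-!
First order degeneracy of tuples is rare.
-/

set_option linter.unusedSectionVars false

namespace Pool.Agent.Lib.MP_788af2_nt.AS

open Polynomial WeierstrassCurve Pool.Agent.Lib.MP_a3f657_nt.Two Matrix

section gen

variable {k : Type} [Field k] [Finite k] [CharP k 2] {I : Type} [Fintype I] [DecidableEq I]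
  {β : I → k[X]} {L : Type} [Field L] [CharP L 2] (T : Tw β L)
  {H : AddSubgroup L} {κ : L} {K r : ℕ} {p w : Fin r → L}

/-- The coefficient of the first variation. -/
private noncomputable def yb1O (κ : L) (p w : Fin r → L) : L := ∑ a, T.P.c1 (p a * w a / T.bh κ)

private lemma yb1O_fix (hK : T.Kp H κ K) (hz : ∀ a, p a ∈ T.Vs H κ) (hw : ∀ a, w a ∈ T.Vs H κ) :
    T.Fix (yb1O T κ p w) :=
  Tw.Fix.sum _ fun a _ => (((hz a).2.mul (hw a).2).div (T.bh_fix hK.fix)).c1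

private lemma yb1O_le (hK : T.Kp H κ K) (hz : ∀ a, p a ∈ T.Vs H κ) (hw : ∀ a, w a ∈ T.Vs H κ) :
    yb1O T κ p w ∈ T.d.Le (2 * K) := by
  refine sum_mem fun a _ => ?_
  have h1 : p a * w a / T.bh κ ∈ T.d.Le (4 * K) :=
    DF.Le.div' (DF.Le.mul (hK.V_le (hz a)) (hK.V_le (hw a)) le_rfl) (T.bh_not_le hK.fix)
      (by linarith)
  exact (((hz a).2.mul (hw a).2).div (T.bh_fix hK.fix)).c1_le h1 (by linarith)

private lemma yb1O_sq (hz : ∀ a, p a ∈ T.Vs H κ) (hw : ∀ a, w a ∈ T.Vs H κ) :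
    yb1O T κ p w ^ 2 * T.bh κ ^ 2 = ∑ a, Gq (p a) (w a) := by
  rw [yb1O, CharTwo.sum_sq, Finset.sum_mul]
  refine Finset.sum_congr rfl fun a _ => ?_
  have h4 := T.bh_ne κ
  rw [Tw.Kr.D_mul (hz a).1.1 (hw a).1.1]
  field_simp

private lemma yb1O_not_le (hK : T.Kp H κ K) (hz : ∀ a, p a ∈ T.Vs H κ)
    (hw : ∀ a, w a ∈ T.Vs H κ) {K₄ : ℕ} (h : ∑ a, Gq (p a) (w a) ∉ T.d.Le (-K₄)) :
    yb1O T κ p w ∉ T.d.Le (-(K₄ : ℝ) / 2 - 2 * K) := fun h1 => h <| by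
  rw [← yb1O_sq T hz hw]
  exact DF.Le.mul (DF.Le.sq h1 le_rfl) (DF.Le.sq hK.bh_le le_rfl) (by linarith)

private lemma yb1_pert {δ : L} {p' w' : Fin r → L} {m n : ℝ} {ξ : G I} (hK : T.Kp H κ K)
    (hδ : T.Fix δ) (h : δ ∈ T.d.Le (-m)) (hm : K + 1 ≤ m)
    (hz : ∀ a, p a ∈ T.Vs H κ) (hw : ∀ a, w a ∈ T.Vs H κ) (hz' : ∀ a, p' a ∈ T.Vs H (κ + δ))
    (hw' : ∀ a, w' a ∈ T.Vs H (κ + δ)) (h1 : ∀ a, T.Near (p a) (p' a))
    (h2 : ∀ a, T.Near (w a) (w' a))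
    (hn : T.p (comb β ξ) ∈ T.d.Le n) (hmn : 2 * n + 6 * K + 3 ≤ 4 * m) :
    ∑ a, T.d1 H (κ + δ) ξ (p' a) (w' a) =
      ∑ a, T.d1 H κ ξ (p a) (w a) + T.RK (T.p (comb β ξ) * δ * yb1O T κ p w) := by
  rw [yb1O, Finset.mul_sum, T.RK_sum, ← Finset.sum_add_distrib]
  exact Finset.sum_congr rfl fun a _ =>
    hK.d1_pert hδ h hm (hz a) (hw a) (hz' a) (hw' a) (h1 a) (h2 a) hn hmn

end gen

variable {k : Type} [Field k] [Finite k] [CharP k 2] {s : k[X]} {R D c : ℕ} {L : Type} [Field L]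
  [CharP L 2] (T : Tw (bet s R D c) L) {Hf : k[X] → AddSubgroup L} {b : k[X]}
  {e r K s₀ J₀ K₃ K₄ N ε : ℕ}

/-- The witnesses of degeneracy. -/
private def yb1P (Hf : k[X] → AddSubgroup L) (b : k[X]) (K₄ : ℕ) (a : k[X])
    (t : (Fin r → L) × (Fin r → L)) : Prop :=
  (∀ i, t.1 i ∈ T.Vs (Hf a) (T.kap a b)) ∧ (∀ i, t.2 i ∈ T.Vs (Hf a) (T.kap a b)) ∧
    ∑ i, Gq (t.1 i) (t.2 i) ∉ T.d.Le (-K₄) ∧
    ∀ ξ, ∑ i, T.d1 (Hf a) (T.kap a b) ξ (t.1 i) (t.2 i) = 0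

/-- The transport relation on witnesses. -/
private def yb1N (t t' : (Fin r → L) × (Fin r → L)) : Prop :=
  (∀ i, T.Near (t.1 i) (t'.1 i)) ∧ ∀ i, T.Near (t.2 i) (t'.2 i)

private lemma yb1_Z (hC : T.Cfg Hf K b s N ε) (he : Nat.card k ≤ 2 ^ e)
    (hs : 2 * K * e + 1 ≤ s₀) {i J m : ℕ} (hF : s.natDegree + i + J + m = ε + 1)
    (hm : K + 1 ≤ m) {a : k[X]} (ha : a ∈ Ae k N ε) :
    ∃ S : Finset ((Fin r → L) × (Fin r → L)), S.card ≤ 2 ^ (2 * (s₀ * r)) ∧ ∀ (γ : Fin J → k) t,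
      yb1P T Hf b K₄ (a + X * mu s i J γ ^ 2) t → ∃ t₀ ∈ S, yb1N T t₀ t := by
  classical
  have hK := hC.kp ha
  obtain ⟨S, hS, hV⟩ := hK.exists_V' he hs
  have h0 : (Fintype.piFinset fun _ : Fin r => S).card ≤ 2 ^ (s₀ * r) := by
    rw [Fintype.card_piFinset_const, pow_mul]
    exact Nat.pow_le_pow_left hS r
  refine ⟨(Fintype.piFinset fun _ : Fin r => S) ×ˢ Fintype.piFinset fun _ : Fin r => S, ?_, ?_⟩
  · rw [Finset.card_product, two_mul, pow_add]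
    exact Nat.mul_le_mul h0 h0
  · rintro γ ⟨z', w'⟩ ⟨h1, h2, -, -⟩
    have hm1 : 1 ≤ m := by omega
    have hmr : (K : ℝ) + 1 ≤ m := by exact_mod_cast hm
    rw [hC.flip_H, hC.flip_kap hF hm1 ha] at h1 h2
    have hd : T.del a b (mu s i J γ) ∈ T.d.Le (-K - 1) :=
      DF.Le.mono (hC.del_le hF hm1 ha γ) (by have : (0 : ℝ) ≤ K := Nat.cast_nonneg K; linarith)
    choose z hz hz1 using fun j => hK.exists_near' (T.del_fix _ _ _) hd (h1 j)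
    choose w hw hw1 using fun j => hK.exists_near' (T.del_fix _ _ _) hd (h2 j)
    exact ⟨(z, w), Finset.mem_product.2 ⟨Fintype.mem_piFinset.2 fun j => (hV _).2 (hz j),
      Fintype.mem_piFinset.2 fun j => (hV _).2 (hw j)⟩, hz1, hw1⟩

private lemma yb1_n (hC : T.Cfg Hf K b s N ε) (hR : 0 < R) {i J m : ℕ}
    (hF : s.natDegree + i + J + m = ε + 1) (hm : K + 1 ≤ m)
    (g1 : K + c + D + 5 * K + 4 ≤ 4 * m) (g2 : K + c + D + 3 * K + 4 ≤ 2 * J + 2 * m)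
    (g3 : 4 * m + 6 * K + K₄ ≤ 2 * c + 6) {a : k[X]} (ha : a ∈ Ae k N ε)
    {t : (Fin r → L) × (Fin r → L)} (ht : yb1P T Hf b K₄ a t) :
    {γ : Fin J → k | ∃ t', yb1N T t t' ∧ yb1P T Hf b K₄ (a + X * mu s i J γ ^ 2) t'}.ncard *
      2 ^ (D / 2) ≤ Nat.card k ^ J := by
  obtain ⟨z, w⟩ := t
  obtain ⟨hz, hw, hG, -⟩ := ht
  have hK := hC.kp ha
  have hm1 : 1 ≤ m := by omega
  have hmr : (K : ℝ) + 1 ≤ m := by exact_mod_cast hm
  have g1r : (K : ℝ) + c + D + 5 * K + 4 ≤ 4 * m := by exact_mod_cast g1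
  have g2r : (K : ℝ) + c + D + 3 * K + 4 ≤ 2 * J + 2 * m := by exact_mod_cast g2
  have g3r : 4 * (m : ℝ) + 6 * K + K₄ ≤ 2 * c + 6 := by exact_mod_cast g3
  have hK0 : (0 : ℝ) ≤ K := Nat.cast_nonneg K
  have h4 : (4 : ℝ) ^ ((⟨0, hR⟩ : Fin R) : ℕ) = 1 := pow_zero _
  have key := T.flipA hC hF hm1 ha ⟨0, hR⟩ (Blk (fun _ => D) ⟨0, hR⟩) subset_rfl
    (zero_mem_Blk _) (fun x hx y hy => add_mem_Blk hx hy) (yb1O_fix T hK hz hw)
    (yb1O_le T hK hz hw) (yb1O_not_le T hK hz hw hG)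
    (by rw [h4]; linarith) (by rw [h4]; linarith) (by rw [h4]; linarith)
    (fun ξ => ∑ j, T.d1 (Hf a) (T.kap a b) ξ (z j) (w j))
  rw [card_Blk, mul_right_comm, mul_comm (2 ^ D)] at key
  refine le_trans (Nat.mul_le_mul_right _ (Set.ncard_le_ncard ?_ (Set.toFinite _)))
    (Nat.le_of_mul_le_mul_right key (by positivity))
  rintro γ ⟨⟨z', w'⟩, ⟨n1, n2⟩, h1, h2, -, h3⟩ ξ hξ
  rw [hC.flip_H, hC.flip_kap hF hm1 ha] at h1 h2 h3
  have hn := T.blk_le hC.s_le hξ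
  rw [h4] at hn
  rw [← yb1_pert T hK (T.del_fix _ _ _) (hC.del_le hF hm1 ha γ) (by linarith) hz hw h1 h2 n1 n2
    hn (by linarith)]
  exact h3 ξ

theorem Tw.bad1b (hC : T.Cfg Hf K b s N ε) (hP : Prm e (r + 3) R K s₀ J₀ K₃ K₄ D c ε)
    (he : Nat.card k ≤ 2 ^ e) (hR : 0 < R) :
    {a | a ∈ Ae k N ε ∧ ¬ T.Gd1b (Hf a) (T.kap a b) r K₄}.ncard * 2 ^ K ≤ (Ae k N ε).card := by
  classical
  obtain ⟨m, hm⟩ : ∃ m, m = (K + c + D + 5 * K + 7) / 4 := ⟨_, rfl⟩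
  obtain ⟨J, hJ⟩ : ∃ J, J = K + c + D + K + 2 := ⟨_, rfl⟩
  have hc := hP.hc
  have hK := hP.K_pos
  have hs := hC.s_le
  have e3 := hP.e3
  have h4 : c ≤ 4 ^ R * c := Nat.le_mul_of_pos_left _ (by positivity)
  obtain ⟨i, hF⟩ : ∃ i, s.natDegree + i + J + m = ε + 1 :=
    ⟨ε + 1 - (s.natDegree + J + m), by omega⟩
  have hm1 : K + 1 ≤ m := by omega
  let _ : Fintype k := Fintype.ofFinite k
  have key := coset2 (Γ := Fin J → k) (Ae k N ε) (fun γ a => a + X * mu s i J γ ^ 2)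
    (fun a => by simp [mu_zero]) (fun γ γ' a => by simp only [mu_add, flip_add])
    (fun γ a ha => hC.flip_mem hF (by omega) ha γ) (yb1P (r := r) T Hf b K₄) (yb1N T)
    (fun t t' h => ⟨fun j => (h.1 j).symm, fun j => (h.2 j).symm⟩)
    (fun t t' t'' h h' => ⟨fun j => (h.1 j).trans (h'.1 j), fun j => (h.2 j).trans (h'.2 j)⟩)
    (2 ^ (2 * (s₀ * r))) (2 ^ (D / 2)) (Nat.card k ^ J)
    (fun a ha => yb1_Z T hC he hP.hs hF hm1 ha)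
    (fun a ha t ht => yb1_n T hC hR hF hm1 (by omega) (by omega) (by omega) ha ht)
  have hset : {a | a ∈ Ae k N ε ∧ ¬ T.Gd1b (Hf a) (T.kap a b) r K₄} =
      {a | a ∈ Ae k N ε ∧ ∃ t, yb1P (r := r) T Hf b K₄ a t} := by
    ext a
    simp only [Set.mem_ofPred_eq, Tw.Gd1b, yb1P]
    refine and_congr_right fun _ => ⟨fun h => ?_, ?_⟩
    · push Not at h
      obtain ⟨z, w, hz, hw, h1, h2⟩ := h
      exact ⟨(z, w), hz, hw, h1, h2⟩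
    · rintro ⟨t, hz, hw, h1, h2⟩ h
      obtain ⟨ξ, hξ⟩ := h _ _ hz hw h1
      exact hξ (h2 ξ)
  rw [hset]
  have hq : 0 < Nat.card k ^ J := pow_pos Nat.card_pos _
  rw [Fintype.card_fun, Fintype.card_fin, ← Nat.card_eq_fintype_card, mul_right_comm _ (_ ^ J)]
    at key
  have k2 := Nat.le_of_mul_le_mul_right key hq
  have hD : K + 2 * (s₀ * r) ≤ D / 2 := by
    have h1 := hP.hD
    have h2 : 2 * (s₀ * r) ≤ (r + 3) * s₀ * (R + 1) := by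
      rw [mul_comm 2, mul_comm s₀]
      exact Nat.mul_le_mul (Nat.mul_le_mul_right _ (Nat.le_add_right r 3)) (by omega)
    omega
  refine Nat.le_of_mul_le_mul_left (le_trans ?_ k2) (by positivity : 0 < 2 ^ (2 * (s₀ * r)))
  rw [mul_comm, mul_assoc, ← pow_add]
  exact Nat.mul_le_mul_left _ (Nat.pow_le_pow_right (by norm_num) hD)

end Pool.Agent.Lib.MP_788af2_nt.AS
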