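import Pool.Agent.Lib.MP_a3f657_nt.BK.YDeg
import Pool.Agent.Lib.MP_788af2_nt.TT.Flp
import Pool.Agent.Lib.MP_788af2_nt.TT.Pert
import Pool.Agent.Lib.MP_788af2_nt.TT.Moore

/-!
The cubic expression of a nontrivial bivector is rarely small.
-/

set_option linter.unusedSectionVars false

namespace Pool.Agent.Lib.MP_788af2_nt.AS

open Polynomial WeierstrassCurve Pool.Agent.Lib.MP_a3f657_nt.Two Matrix

private lemma yb3_exp {L : Type} [Field L] [CharP L 2] {e y : L} (h : wp e = y ^ 2) (n : ℕ) :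
    e = ∑ i ∈ Finset.Icc 1 n, y ^ 2 ^ i + e ^ 2 ^ n := by
  have h1 : e = y ^ 2 + e ^ 2 := by
    unfold wp at h
    grind
  induction n with
  | zero => simp
  | succ n ih =>
    have h2 : e ^ 2 ^ n = y ^ 2 ^ (n + 1) + e ^ 2 ^ (n + 1) := by
      conv_lhs => rw [h1, add_pow_char_pow, ← pow_mul, ← pow_mul, ← pow_succ']
    rw [Finset.sum_Icc_succ_top (by omega), add_assoc, ← h2]
    exact ih

private lemma yb3_gq {L : Type} [Field L] [CharP L 2] {d : DF L} {x y E E' : L} {A τ : ℝ}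
    (hA : 0 ≤ A) (hτ : τ ≤ 0) (hx : x ∈ d.Le A) (hy : y ∈ d.Le A) (hE : E ∈ d.Le τ)
    (hE' : E' ∈ d.Le τ) : Gq (x + E) (y + E') + Gq x y ∈ d.Le (τ + 2 * A) := by
  have e : Gq (x + E) (y + E') + Gq x y =
      E' * (x * (1 + x + E')) + E * (y * (1 + E + y)) + E * (E' * (1 + E + E')) := by
    unfold Gq
    grind
  have o1 : (1 : L) ∈ d.Le A := DF.Le.one hA
  have f1 : E ∈ d.Le A := DF.Le.mono hE (by linarith)
  have f2 : E' ∈ d.Le A := DF.Le.mono hE' (by linarith)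
  rw [e]
  exact add_mem (add_mem
    (DF.Le.mul hE' (DF.Le.mul hx (add_mem (add_mem o1 hx) f2) le_rfl) (by linarith))
    (DF.Le.mul hE (DF.Le.mul hy (add_mem (add_mem o1 f1) hy) le_rfl) (by linarith)))
    (DF.Le.mul hE (DF.Le.mul f2 (add_mem (add_mem o1 f1) f2) le_rfl) (by linarith))

namespace Tw

variable {k : Type} [Field k] [Finite k] [CharP k 2] {I : Type} [Fintype I] [DecidableEq I]
  {β : I → k[X]} {L : Type} [Field L] [CharP L 2] (T : Tw β L)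

variable {Hf : k[X] → AddSubgroup L} {b s : k[X]} {e r R K s₀ J₀ K₃ K₄ D c N ε : ℕ}

/-- The witnesses of failure. -/
private def yb3Bad (H : AddSubgroup L) (κ : L) (r K₄ : ℕ) (t : (Fin r → L) × (Fin r → L)) :
    Prop :=
  (∀ j, t.1 j ∈ T.Vs H κ) ∧ (∀ j, t.2 j ∈ T.Vs H κ) ∧
    ¬ Triv (fun a => T.P.c1 (t.1 a)) (fun a => T.P.c1 (t.2 a)) ∧
    ∑ a, Gq (t.1 a) (t.2 a) ∈ T.d.Le (-K₄)

private lemma yb3_one {H : AddSubgroup L} {κ δ z z' : L} (hK : T.Kp H κ K)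
    (hδ : δ ∈ T.d.Le (-(7 * K + 2 : ℝ))) (hz : z ∈ T.Vs H κ) (hz' : z' ∈ T.Vs H (κ + δ))
    (h : T.Near z z') {n : ℕ} (hn : K₄ ≤ n) : ∃ E ∈ T.d.Le (-K₄ - 4 * K : ℝ),
      z + ∑ i ∈ Finset.Icc 1 n, (δ * T.P.c1 z) ^ 2 ^ i = z' + E := by
  have hK0 : (0 : ℝ) ≤ K := Nat.cast_nonneg K
  have h40 : (0 : ℝ) ≤ K₄ := Nat.cast_nonneg K₄
  obtain ⟨e1, e2, -⟩ := h.err hz.1.1 hz'.1.1 (DF.Le.mul hδ (hK.V_c1_le hz) le_rfl) (by linarith)
  have h1 : (K₄ : ℝ) + 1 ≤ 2 ^ n := by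
    exact_mod_cast (Nat.succ_le_succ hn).trans Nat.lt_two_pow_self
  refine ⟨(z + z') ^ 2 ^ n, DF.Le.pow e2 _ ?_, ?_⟩
  · push_cast
    nlinarith
  · have f1 := yb3_exp e1 n
    generalize ∑ i ∈ Finset.Icc 1 n, (δ * T.P.c1 z) ^ 2 ^ i = S at f1 ⊢
    generalize (z + z') ^ 2 ^ n = E at f1 ⊢
    grind

private lemma yb3_few {a : k[X]} {i : ℕ} (hC : T.Cfg Hf K b s N ε)
    (hF : s.natDegree + i + J₀ + (4 * K + 1) = ε + 1)
    (h4 : 2 ^ (2 * (r + 3)) * (2 * (4 * K + 1 + J₀) + K) ≤ K₄) (ha : a ∈ Ae k N ε)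
    {t : (Fin r → L) × (Fin r → L)} (ht : T.yb3Bad (Hf a) (T.kap a b) r K₄ t) :
    {γ : Fin J₀ → k | ∃ t' : (Fin r → L) × (Fin r → L),
      ((∀ j, T.Near (t.1 j) (t'.1 j)) ∧ ∀ j, T.Near (t.2 j) (t'.2 j)) ∧
      T.yb3Bad (Hf (a + X * mu s i J₀ γ ^ 2)) (T.kap (a + X * mu s i J₀ γ ^ 2) b) r K₄ t'}.ncard
        ≤ 2 ^ (2 * r + 4) := by
  classical
  by_contra hcon
  obtain ⟨n, hn⟩ : ∃ n, n + 1 = 2 ^ (2 * r + 4) :=
    ⟨2 ^ (2 * r + 4) - 1, Nat.sub_add_cancel Nat.one_le_two_pow⟩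
  obtain ⟨S, hS, hc⟩ := Set.exists_subset_card_eq (hn ▸ (not_le.1 hcon).le : n + 1 ≤ _)
  have hfin : S.Finite := Set.toFinite S
  rw [Set.ncard_eq_toFinset_card S hfin] at hc
  let eq := (hfin.toFinset.equivFinOfCardEq hc).symm
  let γ : Fin (n + 1) → Fin J₀ → k := fun j => (eq j).1
  have hγ : ∀ j, γ j ∈ S := fun j => hfin.mem_toFinset.1 (eq j).2
  have hinj : ∀ j j', j ≠ j' → γ j ≠ γ j' := fun j j' h e => h (eq.injective (Subtype.ext e))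
  choose t' hN hB using fun j => hS (hγ j)
  obtain ⟨p, w⟩ := t
  obtain ⟨hp, hw, h3, -⟩ := ht
  simp only at hp hw h3 hN
  have hK := hC.kp ha
  have hm : 1 ≤ 4 * K + 1 := by omega
  have hK0 : (0 : ℝ) ≤ K := Nat.cast_nonneg K
  have hJ0 : (0 : ℝ) ≤ J₀ := Nat.cast_nonneg J₀
  have h40 : (0 : ℝ) ≤ K₄ := Nat.cast_nonneg K₄
  have hdel : ∀ γ : Fin J₀ → k, T.del a b (mu s i J₀ γ) ∈ T.d.Le (-(7 * K + 2 : ℝ)) := fun γ =>
    DF.Le.mono (hC.del_le hF hm ha γ) (by push_cast; linarith)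
  obtain ⟨j, j1, j2, hj⟩ := moore T.d ((T.Vs (Hf a) (T.kap a b)).map T.P.c1h) hK0
    (by rintro _ ⟨v, hv, rfl⟩; exact hK.V_c1_le hv)
    (by rintro _ ⟨v, hv, rfl⟩ h0; exact hK.V_c1_not_le hv h0)
    (fun j => ⟨_, hp j, rfl⟩) (fun j => ⟨_, hw j, rfl⟩) h3
  obtain ⟨f, f1, f2, f3⟩ := gq_poly T.d p w (fun a => T.P.c1 (p a)) (fun a => T.P.c1 (w a)) hK0
    (fun a => hK.V_le (hp a)) (fun a => hK.V_le (hw a)) (fun a => hK.V_c1_le (hp a))
    (fun a => hK.V_c1_le (hw a)) (2 * r + 2 + K₄)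
  obtain ⟨u, hu⟩ : ∃ u : ℝ, u = 2 ^ (2 * r) := ⟨_, rfl⟩
  have u1 : 1 ≤ u := hu ▸ one_le_pow₀ one_le_two
  have u2 : (n : ℝ) + 1 = 16 * u := by
    have : ((n + 1 : ℕ) : ℝ) = ((2 ^ (2 * r + 4) : ℕ) : ℝ) := by rw [hn]
    push_cast at this
    rw [this, hu]
    ring
  have u3 : (2 : ℝ) ^ (j + 2) ≤ 4 * u := by
    rw [hu, pow_add, mul_comm]
    have := pow_le_pow_right₀ (one_le_two : (1 : ℝ) ≤ 2) j2
    norm_num
    exact this
  have u4 : 64 * u * (2 * (4 * K + 1 + J₀) + K) ≤ K₄ := by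
    have : (((2 ^ (2 * (r + 3)) * (2 * (4 * K + 1 + J₀) + K) : ℕ)) : ℝ) ≤ K₄ := by
      exact_mod_cast h4
    push_cast at this
    refine le_trans (le_of_eq ?_) this
    rw [hu]
    ring
  have u5 : (2 : ℝ) ^ (2 * r + 1) = 2 * u := by rw [hu]; ring
  have uK : (K : ℝ) ≤ u * K := by nlinarith
  have uJ : (0 : ℝ) ≤ u * J₀ := by positivity
  have u6 : (2 : ℝ) ^ (j + 2) * (7 * K + 2) ≤ 4 * u * (7 * K + 2) := by gcongr
  refine wdeg_not T.d n (4 + 2 ^ (j + 2)) f (fun l => T.del a b (mu s i J₀ (γ l)))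
    (ρ := -(7 * K + 2)) (M := 2 * (4 * K + 1 + J₀) + K) (A := K) (B := 6 * K)
    (C := 4 * ((2 ^ (2 * r + 1) + 1) * K)) (r := -K₄) (by linarith) (by linarith) (by linarith)
    (fun l => hdel _) (fun l l' h => ?_) f1 ?_ ?_ ?_ fun l => ?_
  · obtain ⟨d1, -, d3⟩ := hC.del_diff hF hm ha (hinj l l' h)
    exact ⟨d1, by push_cast at d3; exact d3⟩
  · replace hj : ∑ a, (T.P.c1 (p a) ^ 2 ^ j * T.P.c1 (w a) + T.P.c1 (w a) ^ 2 ^ j * T.P.c1 (p a)) ∉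
        T.d.Le (-((2 ^ (2 * r + 1) + 1) * K)) := hj
    obtain ⟨g1, g2⟩ := DF.not_mem_Le.1 hj
    rw [f2 j j1 (by omega), DF.mem_Le_iff (pow_ne_zero 4 g1), DF.deg_pow g1]
    push_cast
    linarith
  · rw [u2, u5]
    push_cast
    nlinarith
  · rw [show (n : ℝ) = 16 * u - 1 by linarith, u5]
    push_cast
    nlinarith
  · obtain ⟨a1, a2, -, a3⟩ := hB l
    simp only [hC.flip_H, hC.flip_kap hF hm ha] at a1 a2
    have hK' := hK.pert (T.del_fix a b (mu s i J₀ (γ l))) (DF.Le.mono (hdel (γ l)) (by linarith))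
    choose E hE hE' using fun x => T.yb3_one hK (hdel (γ l)) (hp x) (a1 x) ((hN l).1 x)
      (show K₄ ≤ 2 * r + 2 + K₄ by omega)
    choose E₁ hE₁ hE₁' using fun x => T.yb3_one hK (hdel (γ l)) (hw x) (a2 x) ((hN l).2 x)
      (show K₄ ≤ 2 * r + 2 + K₄ by omega)
    rw [f3]
    simp only [hE', hE₁']
    have e1 : ∑ x, Gq ((t' l).1 x + E x) ((t' l).2 x + E₁ x) =
        ∑ x, (Gq ((t' l).1 x + E x) ((t' l).2 x + E₁ x) + Gq ((t' l).1 x) ((t' l).2 x)) +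
          ∑ x, Gq ((t' l).1 x) ((t' l).2 x) := by
      rw [Finset.sum_add_distrib, add_assoc, CharTwo.add_self_eq_zero, add_zero]
    rw [e1]
    exact add_mem (sum_mem fun x _ => DF.Le.mono (yb3_gq (by linarith) (by linarith)
      (hK'.V_le (a1 x)) (hK'.V_le (a2 x)) (hE x) (hE₁ x)) (by linarith)) a3

theorem bad3b (hC : T.Cfg Hf K b s N ε) (hP : Prm e (r + 3) R K s₀ J₀ K₃ K₄ D c ε)
    (he : Nat.card k ≤ 2 ^ e) :
    {a | a ∈ Ae k N ε ∧ ¬ T.Gd3b (Hf a) (T.kap a b) r K₄}.ncard * 2 ^ K ≤ (Ae k N ε).card := by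
  classical
  have := Fintype.ofFinite k
  obtain ⟨i, hF⟩ : ∃ i, s.natDegree + i + J₀ + (4 * K + 1) = ε + 1 :=
    ⟨ε + 1 - (s.natDegree + J₀ + (4 * K + 1)), by have := hC.s_le; have := hP.e2; omega⟩
  have hm : 1 ≤ 4 * K + 1 := by omega
  have hK0 : (0 : ℝ) ≤ K := Nat.cast_nonneg K
  have key := coset2 (Ae k N ε) (fun (γ : Fin J₀ → k) a => a + X * mu s i J₀ γ ^ 2)
    (fun a => by simp [mu_zero]) (fun γ γ' a => by rw [mu_add, CharTwo.add_sq]; ring)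
    (fun γ a ha => hC.flip_mem hF hm ha γ)
    (fun a (t : (Fin r → L) × (Fin r → L)) => T.yb3Bad (Hf a) (T.kap a b) r K₄ t)
    (fun t t' => (∀ j, T.Near (t.1 j) (t'.1 j)) ∧ ∀ j, T.Near (t.2 j) (t'.2 j))
    (fun t t' h => ⟨fun j => (h.1 j).symm, fun j => (h.2 j).symm⟩)
    (fun t t' t'' h h' => ⟨fun j => (h.1 j).trans (h'.1 j), fun j => (h.2 j).trans (h'.2 j)⟩)
    (2 ^ (2 * r * s₀)) 1 (2 ^ (2 * r + 4)) ?_ ?_
  · have e1 : {a | a ∈ Ae k N ε ∧ ¬ T.Gd3b (Hf a) (T.kap a b) r K₄} = {a | a ∈ Ae k N ε ∧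
        ∃ t : (Fin r → L) × (Fin r → L), T.yb3Bad (Hf a) (T.kap a b) r K₄ t} := by
      ext a
      simp only [Gd3b, yb3Bad, Set.mem_ofPred_eq, not_forall, not_not, Prod.exists, exists_prop]
    rw [e1]
    rw [mul_one, Fintype.card_fun, Fintype.card_fin, ← Nat.card_eq_fintype_card] at key
    have q2 : 2 ≤ Nat.card k := Finite.one_lt_card
    have e0 : 1 ≤ e := by
      rcases e with _ | e
      · omega
      · omega
    have a2 : 2 ^ (2 * r * s₀) * 2 ^ (2 * r + 4) * 2 ^ K ≤ Nat.card k ^ J₀ := by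
      rw [← pow_add, ← pow_add]
      refine (Nat.pow_le_pow_right two_pos ?_).trans (Nat.pow_le_pow_left q2 _)
      have h1 := hP.hJ
      have h2 : 4 * (r + 3) ^ 2 ≤ 4 * (r + 3) ^ 2 * e := Nat.le_mul_of_pos_right _ e0
      nlinarith [Nat.zero_le s₀, Nat.zero_le (r ^ 2)]
    refine Nat.le_of_mul_le_mul_right ?_ (show 0 < Nat.card k ^ J₀ by positivity)
    rw [mul_right_comm]
    refine (Nat.mul_le_mul_right _ key).trans ?_
    rw [mul_right_comm, mul_comm]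
    exact Nat.mul_le_mul_left _ a2
  · intro a ha
    have hK := hC.kp ha
    obtain ⟨S, hS, hS'⟩ := hK.exists_V' he hP.hs
    refine ⟨(Fintype.piFinset fun _ => S) ×ˢ Fintype.piFinset fun _ => S, ?_, ?_⟩
    · rw [Finset.card_product, Fintype.card_piFinset_const, ← pow_add]
      refine (Nat.pow_le_pow_left hS _).trans (le_of_eq ?_)
      rw [← pow_mul]
      congr 1
      ring
    · rintro γ t ⟨h1, h2, -⟩
      simp only [hC.flip_H, hC.flip_kap hF hm ha] at h1 h2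
      have hd : T.del a b (mu s i J₀ γ) ∈ T.d.Le (-(K : ℝ) - 1) :=
        DF.Le.mono (hC.del_le hF hm ha γ) (by push_cast; linarith)
      choose p hp hp' using fun j => hK.exists_near' (T.del_fix _ _ _) hd (h1 j)
      choose w hw hw' using fun j => hK.exists_near' (T.del_fix _ _ _) hd (h2 j)
      exact ⟨(p, w), Finset.mem_product.2 ⟨Fintype.mem_piFinset.2 fun j => (hS' _).2 (hp j),
        Fintype.mem_piFinset.2 fun j => (hS' _).2 (hw j)⟩, hp', hw'⟩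
  · intro a ha t ht
    rw [mul_one]
    exact T.yb3_few hC hF (by have := hP.h4; omega) ha ht

end Tw

end Pool.Agent.Lib.MP_788af2_nt.AS
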