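import Pool.Agent.Lib.MP_a3f657_nt.BK.ADefs
import Pool.Agent.Lib.MP_788af2_nt.TT.Defs

/-!
Genericity conditions for the first derivatives: definitions.
-/

set_option linter.unusedSectionVars false

namespace Pool.Agent.Lib.MP_788af2_nt.AS

open Polynomial WeierstrassCurve Pool.Agent.Lib.MP_a3f657_nt.Two Matrix

namespace Tw

variable {k : Type} [Field k] [Finite k] [CharP k 2] {I : Type} [Fintype I] [DecidableEq I]
  {β : I → k[X]} {L : Type} [Field L] [CharP L 2] (T : Tw β L)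

/-- The cubic expression of a nontrivial bivector is not small. -/
def Gd3b (H : AddSubgroup L) (κ : L) (r K₄ : ℕ) : Prop :=
  ∀ p w : Fin r → L, (∀ a, p a ∈ T.Vs H κ) → (∀ a, w a ∈ T.Vs H κ) →
    ¬ Triv (fun a => T.P.c1 (p a)) (fun a => T.P.c1 (w a)) → ∑ a, Gq (p a) (w a) ∉ T.d.Le (-K₄)

/-- First order nondegeneracy for tuples. -/
def Gd1b (H : AddSubgroup L) (κ : L) (r K₄ : ℕ) : Prop :=
  ∀ p w : Fin r → L, (∀ a, p a ∈ T.Vs H κ) → (∀ a, w a ∈ T.Vs H κ) →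
    ∑ a, Gq (p a) (w a) ∉ T.d.Le (-K₄) → ∃ ξ, ∑ a, T.d1 H κ ξ (p a) (w a) ≠ 0

end Tw

/-- The pairs of coefficients of the family. -/
def Prs (k : Type) [Field k] (e n : ℕ) : Set (k[X] × k[X]) :=
  {p | p.1.natDegree = e ∧ Squarefree p.2 ∧ p.2.natDegree = n}

end Pool.Agent.Lib.MP_788af2_nt.AS
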