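import Pool.Agent.Lib.MP_a3f657_nt.BK.YDefs

/-!
The Weierstrass degree of a polynomial.
-/

set_option linter.unusedSectionVars false

namespace Pool.Agent.Lib.MP_788af2_nt.AS

open Polynomial WeierstrassCurve Pool.Agent.Lib.MP_a3f657_nt.Two Matrix

variable {L : Type} [Field L] [CharP L 2] (d : DF L)

private lemma ydeg_quo (f : L[X]) {x : L} {ρ : ℝ} (hx : x ∈ d.Le ρ) : ∃ g : L[X],
    f = C (f.eval x) + (X + C x) * g ∧ ∀ (N : ℕ) (c : ℝ),
      (∀ j, N ≤ j → f.coeff (j + 1) ∈ d.Le (c - j * ρ)) →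
      ∀ j, N ≤ j → g.coeff j ∈ d.Le (c - j * ρ) := by
  obtain ⟨g, hg⟩ := X_sub_C_dvd_sub_C_eval (p := f) (a := x)
  rw [CharTwo.sub_eq_add X] at hg
  have e : f = C (f.eval x) + (X + C x) * g := by rw [← hg]; ring
  refine ⟨g, e, fun N c hf => ?_⟩
  have key : ∀ m j, g.natDegree < j + m → N ≤ j → g.coeff j ∈ d.Le (c - j * ρ) := by
    intro m
    induction m with
    | zero =>
      intro j hj _
      rw [coeff_eq_zero_of_natDegree_lt (by omega)]
      exact zero_mem _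
    | succ m ih =>
      intro j hj hN
      have h1 := hf j hN
      rw [e, coeff_add, coeff_C_succ, zero_add, add_mul, coeff_add, coeff_X_mul, coeff_C_mul] at h1
      have h2 := DF.Le.mul hx (ih (j + 1) (by omega) (by omega)) (c := c - j * ρ)
        (by push_cast; linarith)
      have h3 := sub_mem h1 h2
      rwa [add_sub_cancel_right] at h3
  exact fun j hj => key (g.natDegree + 1) j (by omega) hj

theorem wdeg (N : ℕ) (f : L[X]) (x : Fin (N + 1) → L) {ρ M c : ℝ} (hx : ∀ i, x i ∈ d.Le ρ)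
    (hd : ∀ i j, i ≠ j → x i + x j ≠ 0 ∧ -M ≤ d.deg (x i + x j))
    (hf : ∀ j, N < j → f.coeff j ∈ d.Le (c - (j - N) * ρ))
    (h : ∀ i, f.eval (x i) ∈ d.Le (c - N * M)) : f.coeff N ∈ d.Le c := by
  induction N generalizing f with
  | zero =>
    obtain ⟨g, e, hg⟩ := ydeg_quo d f (hx 0)
    have h1 := hg 0 (c - ρ) (fun j _ => DF.Le.mono (hf (j + 1) (by omega))
      (by push_cast; linarith)) 0 le_rfl
    rw [e, coeff_add, coeff_C_zero, add_mul, coeff_add, coeff_X_mul_zero, coeff_C_mul]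
    exact add_mem (DF.Le.mono (h 0) (by simp))
      (add_mem (zero_mem _) (DF.Le.mul (hx 0) h1 (by simp)))
  | succ N ih =>
    obtain ⟨g, e, hg⟩ := ydeg_quo d f (hx 0)
    have h1 := hg (N + 1) (c + N * ρ) fun j hj => DF.Le.mono (hf (j + 1) (by omega))
      (by push_cast; linarith)
    have h2 : g.coeff N ∈ d.Le c := by
      refine ih g (fun i => x i.succ) (fun i => hx _)
        (fun i j hij => hd _ _ fun e => hij (Fin.succ_injective _ e))
        (fun j hj => DF.Le.mono (h1 j hj) (by linarith)) fun i => ?_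
      obtain ⟨h3, h4⟩ := hd i.succ 0 (Fin.succ_ne_zero i)
      have h5 := sub_mem (h i.succ) (h 0)
      have e1 : f.eval (x i.succ) - f.eval (x 0) = g.eval (x i.succ) * (x i.succ + x 0) := by
        conv_lhs => enter [1]; rw [e]
        simp only [eval_add, eval_mul, eval_C, eval_X]
        ring
      rw [e1] at h5
      exact DF.Le.of_mul h5 h3 (by push_cast; linarith)
    rw [e, coeff_add, coeff_C_succ, zero_add, add_mul, coeff_add, coeff_X_mul, coeff_C_mul]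
    exact add_mem h2 (DF.Le.mul (hx 0) (h1 (N + 1) le_rfl) (by push_cast; linarith))

theorem wdeg_not (N j₀ : ℕ) (f : L[X]) (x : Fin (N + 1) → L) {ρ M A B C r : ℝ} (hρ : ρ ≤ 0)
    (hM : 0 ≤ M) (hA : A + ρ ≤ 0) (hx : ∀ i, x i ∈ d.Le ρ)
    (hd : ∀ i j, i ≠ j → x i + x j ≠ 0 ∧ -M ≤ d.deg (x i + x j))
    (hf : ∀ j : ℕ, f.coeff j ∈ d.Le (j * A + B)) (h0 : f.coeff j₀ ∉ d.Le (-C))
    (hN : (N + 1) * (A + ρ) + B ≤ -C + j₀ * ρ) (hr : r + N * M ≤ -C + j₀ * ρ) :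
    ¬ ∀ i, f.eval (x i) ∈ d.Le r := by
  intro h
  have key : ∀ m j : ℕ, N < j + m → f.coeff j ∈ d.Le (-C + j₀ * ρ - j * ρ) := by
    intro m
    induction m with
    | zero =>
      intro j hj
      have h1 : ((N : ℝ) + 1) ≤ j := by exact_mod_cast hj
      refine DF.Le.mono (hf j) ?_
      nlinarith [mul_nonneg (sub_nonneg.2 h1) (neg_nonneg.2 hA)]
    | succ m ih =>
      intro j hj
      by_cases hj' : N < j
      · exact ih j (by omega)
      have h1 : j + 1 ≤ N + 1 := by omega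
      have h2 : (j : ℝ) ≤ N := by exact_mod_cast not_lt.1 hj'
      have h3 : (0 : ℝ) ≤ j := Nat.cast_nonneg j
      refine wdeg d j f (fun i => x (Fin.castLE h1 i)) (M := M) (fun i => hx _)
        (fun i i' hi => hd _ _ fun e => hi (Fin.castLE_injective _ e))
        (fun l hl => DF.Le.mono (ih l (by omega)) (by linarith)) fun i => DF.Le.mono (h _) ?_
      nlinarith [mul_nonneg (sub_nonneg.2 h2) hM, mul_nonneg h3 (neg_nonneg.2 hρ)]
  exact h0 (DF.Le.mono (key (N + 1) j₀ (by omega)) (by linarith))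

/-- A truncated additive series with a constant term. -/
private noncomputable def ydegQ (s : Finset ℕ) (c h : L) : L[X] :=
  C c + ∑ i ∈ s, monomial (2 ^ i) (h ^ 2 ^ i)

private lemma ydegQ_eval (s : Finset ℕ) (c h δ : L) :
    (ydegQ s c h).eval δ = c + ∑ i ∈ s, (δ * h) ^ 2 ^ i := by
  rw [ydegQ, eval_add, eval_C, eval_finset_sum]
  refine congrArg _ (Finset.sum_congr rfl fun i _ => ?_)
  rw [eval_monomial, mul_pow, mul_comm]

private lemma ydegQ_sq (n : ℕ) (c h : L) :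
    ydegQ (Finset.Icc 1 n) c h ^ 2 = ydegQ (Finset.Icc 2 (n + 1)) (c ^ 2) h := by
  rw [ydegQ, ydegQ, CharTwo.add_sq, CharTwo.sum_sq, ← C_pow,
    ← Finset.map_add_right_Icc 1 n 1, Finset.sum_map]
  refine congrArg _ (Finset.sum_congr rfl fun i _ => ?_)
  rw [monomial_pow, addRightEmbedding_apply, ← pow_mul, ← pow_succ]

private lemma ydegQ_coeff {s : Finset ℕ} (c h : L) {l : ℕ} (hl : l ∈ s) :
    (ydegQ s c h).coeff (2 ^ l) = h ^ 2 ^ l := by
  rw [ydegQ, coeff_add, coeff_C_ne_zero (by positivity), zero_add, finset_sum_coeff,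
    Finset.sum_eq_single_of_mem l hl fun i _ hi =>
      coeff_monomial_of_ne _ fun e => hi (Nat.pow_right_injective le_rfl e).symm,
    coeff_monomial_same]

private lemma ydegQ_sp (s : Finset ℕ) (c h : L) {u : ℕ} (h1 : 2 < u) (h2 : u ≠ 4)
    (h3 : ¬ 8 ∣ u) : (ydegQ s c h).coeff u = 0 := by
  rw [ydegQ, coeff_add, coeff_C_ne_zero (by omega), zero_add, finset_sum_coeff]
  refine Finset.sum_eq_zero fun i _ => coeff_monomial_of_ne _ ?_
  rintro rfl
  rcases i with _ | _ | _ | i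
  · omega
  · omega
  · omega
  · exact h3 ⟨2 ^ i, by ring⟩

private lemma ydegQ_mul {s s' : Finset ℕ} (c h c' h' : L) {j : ℕ} (hj : 1 ≤ j) (h1 : 2 ∈ s)
    (h2 : j + 2 ∈ s) (h3 : 2 ∈ s') (h4 : j + 2 ∈ s') :
    (ydegQ s c h * ydegQ s' c' h').coeff (4 + 2 ^ (j + 2)) =
      (h ^ 2 ^ j * h' + h' ^ 2 ^ j * h) ^ 4 := by
  obtain ⟨t, ht, e⟩ : ∃ t, 1 ≤ t ∧ 2 ^ (j + 2) = 8 * t := by
    obtain ⟨i, rfl⟩ := Nat.exists_eq_add_of_le hj
    exact ⟨2 ^ i, Nat.one_le_two_pow, by ring⟩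
  rw [coeff_mul, Finset.sum_eq_add_of_mem (2 ^ 2, 2 ^ (j + 2)) (2 ^ (j + 2), 2 ^ 2)
    (by simp) (by simp [add_comm]) (fun e' => by have := (Prod.ext_iff.1 e').1; omega)]
  · rw [ydegQ_coeff c h h1, ydegQ_coeff c h h2, ydegQ_coeff c' h' h3, ydegQ_coeff c' h' h4,
      pow_add 2 j 2, pow_mul, pow_mul h]
    generalize h ^ 2 ^ j = y
    generalize h' ^ 2 ^ j = y'
    grind
  · rintro ⟨u, v⟩ huv ⟨n1, n2⟩
    rw [Finset.HasAntidiagonal.mem_antidiagonal] at huv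
    simp only [ne_eq, Prod.mk.injEq] at huv n1 n2 ⊢
    by_cases hu : 2 < u ∧ u ≠ 4 ∧ ¬ 8 ∣ u
    · rw [ydegQ_sp s c h hu.1 hu.2.1 hu.2.2, zero_mul]
    · rw [ydegQ_sp s' c' h' (u := v) (by omega) (by omega) (by omega), mul_zero]

private lemma ydeg_bd_mul {f g : L[X]} {K B B' : ℝ} (hf : ∀ j : ℕ, f.coeff j ∈ d.Le (j * K + B))
    (hg : ∀ j : ℕ, g.coeff j ∈ d.Le (j * K + B')) (j : ℕ) :
    (f * g).coeff j ∈ d.Le (j * K + (B + B')) := by
  rw [coeff_mul]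
  refine sum_mem fun q hq => DF.Le.mul (hf q.1) (hg q.2) ?_
  rw [← Finset.HasAntidiagonal.mem_antidiagonal.1 hq]
  push_cast
  linarith

private lemma ydeg_bd_C {c : L} {K B : ℝ} (hc : c ∈ d.Le B) (j : ℕ) :
    (C c).coeff j ∈ d.Le (j * K + B) := by
  rw [coeff_C]
  split_ifs with hj
  · rw [hj]
    exact DF.Le.mono hc (by simp)
  · exact zero_mem _

private lemma ydegQ_bd (s : Finset ℕ) {c h : L} {K : ℝ} (hK : 0 ≤ K) (hc : c ∈ d.Le (2 * K))
    (hh : h ∈ d.Le K) (j : ℕ) : (ydegQ s c h).coeff j ∈ d.Le (j * K + 2 * K) := by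
  rw [ydegQ, coeff_add, finset_sum_coeff]
  refine add_mem (ydeg_bd_C d hc j) (sum_mem fun i _ => ?_)
  rw [coeff_monomial]
  split_ifs with hj
  · rw [hj]
    exact DF.Le.pow hh j (by linarith)
  · exact zero_mem _

/-- The truncated expansion of the cubic expression under a perturbation. -/
theorem gq_poly {ι : Type} [Fintype ι] (p w h h' : ι → L) {K : ℝ} (hK : 0 ≤ K)
    (hp : ∀ a, p a ∈ d.Le (2 * K)) (hw : ∀ a, w a ∈ d.Le (2 * K)) (hh : ∀ a, h a ∈ d.Le K)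
    (hh' : ∀ a, h' a ∈ d.Le K) (n : ℕ) : ∃ f : L[X],
      (∀ j : ℕ, f.coeff j ∈ d.Le (j * K + 6 * K)) ∧
      (∀ j, 1 ≤ j → j + 2 ≤ n →
        f.coeff (4 + 2 ^ (j + 2)) = (∑ a, (h a ^ 2 ^ j * h' a + h' a ^ 2 ^ j * h a)) ^ 4) ∧
      ∀ δ, f.eval δ = ∑ a, Gq (p a + ∑ i ∈ Finset.Icc 1 n, (δ * h a) ^ 2 ^ i)
        (w a + ∑ i ∈ Finset.Icc 1 n, (δ * h' a) ^ 2 ^ i) := by
  refine ⟨∑ a, Gq (ydegQ (Finset.Icc 1 n) (p a) (h a)) (ydegQ (Finset.Icc 1 n) (w a) (h' a)),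
    fun j => ?_, fun j h1 h2 => ?_, fun δ => ?_⟩
  · rw [finset_sum_coeff]
    refine sum_mem fun a _ => ?_
    have b1 := ydegQ_bd d (Finset.Icc 1 n) hK (hp a) (hh a)
    have b2 := ydegQ_bd d (Finset.Icc 1 n) hK (hw a) (hh' a)
    refine DF.Le.mono (ydeg_bd_mul d (ydeg_bd_mul d b1 b2) (B' := 2 * K) (fun i => ?_) j)
      (by linarith)
    rw [coeff_add, coeff_add, ← C_1]
    exact add_mem (add_mem (ydeg_bd_C d (DF.Le.one (by linarith)) i) (b1 i)) (b2 i)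
  · have e : ∀ z y : L[X], Gq z y = z * y + z ^ 2 * y + z * y ^ 2 := fun z y => by
      rw [Gq]; ring
    have m1 : 2 ∈ Finset.Icc 1 n := Finset.mem_Icc.2 (by omega)
    have m2 : j + 2 ∈ Finset.Icc 1 n := Finset.mem_Icc.2 (by omega)
    have m3 : 2 ∈ Finset.Icc 2 (n + 1) := Finset.mem_Icc.2 (by omega)
    have m4 : j + 2 ∈ Finset.Icc 2 (n + 1) := Finset.mem_Icc.2 (by omega)
    rw [finset_sum_coeff, show 4 = 2 * 2 from rfl, pow_mul, CharTwo.sum_sq, CharTwo.sum_sq]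
    refine Finset.sum_congr rfl fun a _ => ?_
    rw [← pow_mul, show 2 * 2 = 4 from rfl, e, ydegQ_sq, ydegQ_sq, coeff_add, coeff_add,
      ydegQ_mul _ _ _ _ h1 m1 m2 m1 m2, ydegQ_mul _ _ _ _ h1 m3 m4 m1 m2,
      ydegQ_mul _ _ _ _ h1 m1 m2 m3 m4, CharTwo.add_self_eq_zero, zero_add]
  · rw [eval_finset_sum]
    refine Finset.sum_congr rfl fun a _ => ?_
    simp only [Gq, eval_mul, eval_add, eval_one, ydegQ_eval]

end Pool.Agent.Lib.MP_788af2_nt.AS
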