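import Pool.Agent.Lib.MP_a3f657_nt.BK.YMain
import Pool.Agent.Lib.MP_a3f657_nt.BK.GForm
import Pool.Agent.Lib.MP_a3f657_nt.BK.GDiv
import Pool.Agent.Lib.MP_a3f657_nt.BK.GTen
import Pool.Agent.Lib.MP_788af2_nt.TT.RankBd

/-!
The law of the full Selmer group.
-/

set_option linter.unusedSectionVars false

namespace Pool.Agent.Lib.MP_788af2_nt.AS

open Polynomial WeierstrassCurve Pool.Agent.Lib.MP_a3f657_nt.Two

attribute [local instance 10000] Classical.propDecidable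

variable {k : Type} [Field k] [Fintype k] [CharP k 2]

private lemma yfin_od {b : k[X]} (hn : Odd b.natDegree) : od b ≠ 0 := by
  intro h
  have e := ev_od b
  rw [h, zero_pow two_ne_zero, mul_zero, add_zero] at e
  rw [e, natDegree_pow] at hn
  exact (Nat.not_odd_iff_even.2 (even_two_mul _)) hn

private lemma yfin_tj (a : k[X]) {b : k[X]} (hb : Squarefree b) (hn : Odd b.natDegree) (m : ℕ) :
    tj (SelInf (EW (ι a) (ι b))) m = dc (EW (ι a) (ι b)) m := by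
  have h1 : AddGroup.FG (EW (ι a) (ι b)).toAffine.Point := fg_Eb' a hb.ne_zero
  have h2 : ∀ x : (EW (ι a) (ι b)).toAffine.Point, 2 • x = 0 → x = 0 := fun x hx =>
    eb_pow_inj (a := ι a) (Q := Tw.Env.PDb (yfin_od hn)) (W := (EW (ι a) (ι b)).toAffine) rfl 1
      (by rw [pow_one, hx, smul_zero])
  rw [tj_prod, tj_ten h1 h2, tj_primary]
  rfl

private lemma yfin_tors (W : WeierstrassCurve (RatFunc k)) (x : SelInf W) :
    ∃ n : ℕ, 2 ^ n • x = 0 := by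
  obtain ⟨y, z⟩ := x
  obtain ⟨n, hy⟩ := ten_tors y
  obtain ⟨m, hz⟩ : ∃ m : ℕ, 2 ^ m • z = 0 := by
    obtain ⟨m, hm⟩ := AddCommGroup.mem_primaryComponent.1 z.2
    exact ⟨m, Subtype.ext hm⟩
  refine ⟨n + m, Prod.ext ?_ ?_⟩
  · change 2 ^ (n + m) • y = 0
    rw [pow_add, mul_comm, mul_smul, hy, smul_zero]
  · change 2 ^ (n + m) • z = 0
    rw [pow_add, mul_smul, hz, smul_zero]

theorem sel_iff (a : k[X]) {b : k[X]} (hb : Squarefree b) (hn : Odd b.natDegree) (r : ℕ)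
    (Γ : Type) [AddCommGroup Γ] [Finite Γ] {J : ℕ} (hJ : ∀ z : Γ, 2 ^ J • z = 0) :
    Nonempty (SelInf (EW (ι a) (ι b)) ≃+ (Fin r → Pru) × Γ) ↔
      ∀ m, dc (EW (ι a) (ι b)) m = 2 ^ r * tj Γ m := by
  refine ⟨fun ⟨f⟩ m => ?_, fun h => cof_cls _ Γ hJ (yfin_tors _) fun m => ?_⟩
  · rw [← yfin_tj a hb hn, tj_congr f, tj_prod, tj_pi_pru]
  · rw [yfin_tj a hb hn, h]

private lemma yfin_par {r x i : ℕ} (hr : r ≤ 1) (h : 2 ^ r = x * 4 ^ i) : x = 2 ^ r := by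
  rcases i with _ | i
  · rw [h, pow_zero, mul_one]
  · have h1 : 4 ∣ 2 ^ r := ⟨x * 4 ^ i, by rw [h]; ring⟩
    interval_cases r <;> norm_num at h1

theorem bklpr (k : Type) [Field k] [Fintype k] [CharP k 2] (r : ℕ) (Γ : Type) [AddCommGroup Γ]
    [Finite Γ] (hΓ : ∃ n : ℕ, Nat.card Γ = 2 ^ n) (ω : Γ →+ Γ →+ AddCircle (1 : ℚ)) (hω : Symp ω)
    (ε : ℝ) (hε : 0 < ε) : ∃ M : ℕ, ∀ e n : ℕ, Odd e → Odd n → M ≤ e →
      2 * e + M * Nat.log 2 e ≤ n → (n - 2 * e) ^ 8 ≤ e →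
      |({p | p ∈ Prs k e n ∧
          Nonempty (SelInf (EW (ι p.1) (ι p.2)) ≃+ (Fin r → Pru) × Γ)}.ncard : ℝ) /
          (Prs k e n).ncard - (Nat.card Γ : ℝ) ^ (1 - (r : ℤ)) / nSp ω *
          if r ≤ 1 then 1 / 2 * ∏' i : ℕ, (1 - (2 : ℝ)⁻¹ ^ (2 * (i + r) + 1)) else 0| ≤ ε := by
  obtain ⟨J, hJ⟩ := hΓ
  have hk := exists_kill hJ
  obtain ⟨g, hg, -, -⟩ := hω.count hk
  have he : ∀ j, 2 ^ (r + 2 * g j) = 2 ^ r * tj Γ j := fun j => by
    rw [hg, pow_add, pow_mul]; norm_num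
  have h1 : ∀ j, J ≤ j → tj Γ j = 1 := fun j hj => tj_of_kill fun x => by
    obtain ⟨i, rfl⟩ := Nat.exists_eq_add_of_le hj
    rw [pow_add, mul_comm, mul_smul, hk, smul_zero]
  have hs : ∀ {e n : ℕ}, Odd n → ∀ p ∈ Prs k e n,
      (Nonempty (SelInf (EW (ι p.1) (ι p.2)) ≃+ (Fin r → Pru) × Γ) ↔
        ∀ m, dc (EW (ι p.1) (ι p.2)) m = 2 ^ r * tj Γ m) := fun hn p hp =>
    sel_iff p.1 hp.2.1 (hp.2.2 ▸ hn) r Γ hk
  by_cases hr : r ≤ 1
  · obtain ⟨M, hM⟩ := lawJ k (fun j => r + 2 * g j) J ε hε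
    refine ⟨M, fun e n h2 h3 h4 h5 h6 => ?_⟩
    rw [if_pos hr, ← law_value hω hk hr (fun j => r + 2 * g j) he]
    refine hM e n h2 h3 h4 h5 h6 _ fun p hp hi => ?_
    rw [hs h3 p hp]
    refine ⟨fun h m _ => by rw [h, he], fun h m => ?_⟩
    rcases le_total m J with hm | hm
    · rw [h m hm, he]
    · rw [h1 m hm, mul_one]
      induction m, hm using Nat.le_induction with
      | base => rw [h J le_rfl, he, h1 J le_rfl, mul_one]
      | succ m _ ih =>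
        obtain ⟨i, hi⟩ := hi m
        exact yfin_par hr (ih.symm.trans hi)
  · obtain ⟨N, hN⟩ := exists_pow_lt_of_lt_one (half_pos hε) (show (2 : ℝ)⁻¹ < 1 by norm_num)
    obtain ⟨M, hM⟩ := lawJ k (fun j => r + 2 * g j) (J + N) (ε / 2) (half_pos hε)
    refine ⟨M, fun e n h2 h3 h4 h5 h6 => ?_⟩
    rw [if_neg hr, mul_zero, sub_zero, abs_of_nonneg (by positivity)]
    by_cases hf : (Prs k e n).Finite
    · have a1 := (abs_le.1 (hM e n h2 h3 h4 h5 h6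
        (fun p => ∀ m ≤ J + N, dc (EW (ι p.1) (ι p.2)) m = 2 ^ (r + 2 * g m))
        fun _ _ _ => Iff.rfl)).2
      have a2 := law_small (r := r) (J := J) (Nat.lt_of_not_le hr) (fun j => r + 2 * g j) (fun j hj => by
        have := hg j
        rw [h1 j hj] at this
        rw [Nat.pow_eq_one.1 this.symm |>.resolve_left (by norm_num), mul_zero, add_zero]) N
      have a3 : {p | p ∈ Prs k e n ∧
          Nonempty (SelInf (EW (ι p.1) (ι p.2)) ≃+ (Fin r → Pru) × Γ)}.ncard ≤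
          {p | p ∈ Prs k e n ∧
            ∀ m ≤ J + N, dc (EW (ι p.1) (ι p.2)) m = 2 ^ (r + 2 * g m)}.ncard :=
        Set.ncard_le_ncard (fun p hp => ⟨hp.1, fun m _ => by
          rw [(hs h3 p hp.1).1 hp.2, he]⟩) (hf.subset fun p hp => hp.1)
      have a4 := div_le_div_of_nonneg_right (Nat.cast_le (α := ℝ) |>.2 a3)
        (Nat.cast_nonneg (α := ℝ) (Prs k e n).ncard)
      linarith
    · rw [Set.Infinite.ncard hf, Nat.cast_zero, div_zero]
      exact hε.le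

end Pool.Agent.Lib.MP_788af2_nt.AS
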