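import Pool.Agent.Lib.MP_a3f657_nt.BK.YOneB
import Pool.Agent.Lib.MP_a3f657_nt.BK.AMain
import Pool.Agent.Lib.MP_788af2_nt.TT.BadB
import Pool.Agent.Lib.MP_788af2_nt.TT.Params
import Pool.Agent.Lib.MP_a3f657_nt.WAll

/-!
The joint law of the higher Selmer ranks.
-/

set_option linter.unusedSectionVars false

namespace Pool.Agent.Lib.MP_788af2_nt.AS

open Polynomial WeierstrassCurve Pool.Agent.Lib.MP_a3f657_nt.Two

private lemma ym_card {α : Type} (A : Finset α) (v : α → Prop) [DecidablePred v] :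
    ({a | a ∈ A ∧ v a}.ncard : ℝ) = ∑ a ∈ A, if v a then (1 : ℝ) else 0 := by
  have e : {a | a ∈ A ∧ v a} = ↑(A.filter v) := by
    ext a
    simp
  rw [e, Set.ncard_coe_finset, Finset.card_filter]
  push_cast
  rfl

private lemma ym_le {α : Type} (A : Finset α) (v : α → Prop) :
    ({a | a ∈ A ∧ v a}.ncard : ℝ) ≤ A.card := by
  have h : {a | a ∈ A ∧ v a}.ncard ≤ (↑A : Set α).ncard :=
    Set.ncard_le_ncard (fun a h => h.1) A.finite_toSet
  rw [Set.ncard_coe_finset] at h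
  exact_mod_cast h

private lemma ym_abs {α β : Type} (A : Finset α) (B : Finset β) (v g : α → β → Prop)
    (good : β → Prop) {P ρ η : ℝ} (hP0 : 0 ≤ P) (hP1 : P ≤ 1) (hη : 0 ≤ η)
    (hA : 0 < A.card) (hB : 0 < B.card)
    (h1 : ∀ b ∈ B, good b → |({a | a ∈ A ∧ v a b}.ncard : ℝ) - P * {a | a ∈ A ∧ g a b}.ncard| ≤
      η / 2 * A.card)
    (h2 : ({b | b ∈ B ∧ ¬ good b}.ncard : ℝ) ≤ η / 4 * B.card)
    (h3 : ∀ a ∈ A, |({b | b ∈ B ∧ g a b}.ncard : ℝ) / B.card - ρ| ≤ η / 4) :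
    |({p | p ∈ A ×ˢ B ∧ v p.1 p.2}.ncard : ℝ) / (A ×ˢ B).card - ρ * P| ≤ η := by
  classical
  have a0 : (0 : ℝ) < A.card := by exact_mod_cast hA
  have b0 : (0 : ℝ) < B.card := by exact_mod_cast hB
  have e1 : ({p | p ∈ A ×ˢ B ∧ v p.1 p.2}.ncard : ℝ) =
      ∑ b ∈ B, ({a | a ∈ A ∧ v a b}.ncard : ℝ) := by
    rw [ym_card, Finset.sum_product_right]
    exact Finset.sum_congr rfl fun b _ => (ym_card A fun a => v a b).symm
  have e2 : ∑ b ∈ B, ({a | a ∈ A ∧ g a b}.ncard : ℝ) =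
      ∑ a ∈ A, ({b | b ∈ B ∧ g a b}.ncard : ℝ) := by
    rw [Finset.sum_congr rfl fun b _ => ym_card A fun a => g a b, Finset.sum_comm]
    exact Finset.sum_congr rfl fun a _ => (ym_card B fun b => g a b).symm
  have k1 : |∑ b ∈ B, ({a | a ∈ A ∧ v a b}.ncard : ℝ) -
      P * ∑ b ∈ B, ({a | a ∈ A ∧ g a b}.ncard : ℝ)| ≤ 3 * η / 4 * (A.card * B.card) := by
    rw [Finset.mul_sum, ← Finset.sum_sub_distrib]
    refine (Finset.abs_sum_le_sum_abs _ _).trans ?_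
    have k : ∀ b ∈ B, |({a | a ∈ A ∧ v a b}.ncard : ℝ) - P * {a | a ∈ A ∧ g a b}.ncard| ≤
        η / 2 * A.card + (if ¬ good b then (1 : ℝ) else 0) * A.card := by
      intro b hb
      by_cases hg : good b
      · rw [if_neg (not_not.2 hg), zero_mul, add_zero]
        exact h1 b hb hg
      · rw [if_pos hg, one_mul]
        have u1 := ym_le A fun a => v a b
        have u2 := ym_le A fun a => g a b
        have u3 : (0 : ℝ) ≤ {a | a ∈ A ∧ v a b}.ncard := Nat.cast_nonneg _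
        have u4 : (0 : ℝ) ≤ {a | a ∈ A ∧ g a b}.ncard := Nat.cast_nonneg _
        have u5 := mul_nonneg hP0 u4
        have u6 := mul_le_of_le_one_left u4 hP1
        have u7 : 0 ≤ η / 2 * A.card := by positivity
        exact abs_le.2 ⟨by linarith, by linarith⟩
    refine (Finset.sum_le_sum k).trans ?_
    rw [Finset.sum_add_distrib, ← Finset.sum_mul, ← Finset.sum_mul, ← ym_card, Finset.sum_const,
      nsmul_eq_mul]
    nlinarith [mul_le_mul_of_nonneg_right h2 a0.le]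
  have k2 : |∑ a ∈ A, ({b | b ∈ B ∧ g a b}.ncard : ℝ) - ρ * (A.card * B.card)| ≤
      η / 4 * (A.card * B.card) := by
    have e : ρ * ((A.card : ℝ) * B.card) = ∑ _a ∈ A, ρ * B.card := by
      rw [Finset.sum_const, nsmul_eq_mul]
      ring
    have e' : η / 4 * ((A.card : ℝ) * B.card) = ∑ _a ∈ A, η / 4 * B.card := by
      rw [Finset.sum_const, nsmul_eq_mul]
      ring
    rw [e, e', ← Finset.sum_sub_distrib]
    refine (Finset.abs_sum_le_sum_abs _ _).trans (Finset.sum_le_sum fun a ha => ?_)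
    have k := mul_le_mul_of_nonneg_right (h3 a ha) b0.le
    have e3 : ({b | b ∈ B ∧ g a b}.ncard : ℝ) - ρ * B.card =
        (({b | b ∈ B ∧ g a b}.ncard : ℝ) / B.card - ρ) * B.card := by
      field_simp
    rw [e3, abs_mul, abs_of_pos b0]
    exact k
  rw [e2] at k1
  rw [e1, Finset.card_product]
  push_cast
  have ab : (0 : ℝ) < A.card * B.card := mul_pos a0 b0
  generalize ∑ b ∈ B, ({a | a ∈ A ∧ v a b}.ncard : ℝ) = x at *
  generalize ∑ a ∈ A, ({b | b ∈ B ∧ g a b}.ncard : ℝ) = y at *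
  generalize (A.card : ℝ) * B.card = z at *
  have e4 : x / z - ρ * P = ((x - P * y) + P * (y - ρ * z)) / z := by
    field_simp
    ring
  rw [e4, abs_div, abs_of_pos ab, div_le_iff₀ ab]
  refine (abs_add_le _ _).trans ?_
  rw [abs_mul, abs_of_nonneg hP0]
  have k3 := mul_le_of_le_one_left (abs_nonneg (y - ρ * z)) hP1
  linarith

private lemma ym_sq {x M e : ℕ} (h1 : x ^ 8 ≤ e) (h2 : M ^ 2 ≤ e) : M * x ≤ e := by
  have h3 : x ^ 2 ≤ e := by
    rcases Nat.eq_zero_or_pos x with h | h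
    · simp [h]
    · exact (Nat.pow_le_pow_right h (by norm_num)).trans h1
  have h4 : (M * x) ^ 2 ≤ e ^ 2 := by
    rw [mul_pow, pow_two e]
    exact Nat.mul_le_mul h2 h3
  exact le_of_pow_le_pow_left₀ (by norm_num) (Nat.zero_le _) h4

private lemma ym_main (k : Type) [Field k] [Fintype k] [CharP k 2] (ee : ℕ → ℕ) (J : ℕ) (η : ℝ)
    (hη : 0 < η) : ∃ M : ℕ, ∀ e n : ℕ, Odd e → Odd n → M ≤ e → 2 * e + M * Nat.log 2 e ≤ n →
      (n - 2 * e) ^ 8 ≤ e → ∀ Ev : k[X] × k[X] → Prop,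
      (∀ p ∈ Prs k e n, (∀ m, ∃ i, dc (EW (ι p.1) (ι p.2)) m =
        dc (EW (ι p.1) (ι p.2)) (m + 1) * 4 ^ i) →
        (Ev p ↔ ∀ m ≤ J, dc (EW (ι p.1) (ι p.2)) m = 2 ^ ee m)) →
      |({p | p ∈ Prs k e n ∧ Ev p}.ncard : ℝ) / (Prs k e n).ncard -
        Win.PR (ee 0) * ∏ m ∈ Finset.range J, Pa (ee m) (ee (m + 1))| ≤ η := by
  classical
  have hq : Nat.card k ≤ 2 ^ Nat.card k := Nat.lt_two_pow_self.le
  have q1 : 1 ≤ Nat.card k := Nat.card_pos
  have q1' : (1 : ℝ) ≤ Nat.card k := by exact_mod_cast q1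
  have η4 : 0 < η / 4 := by positivity
  obtain ⟨R₀, hA⟩ := algB ee J (ee 0 + 2 + 3) (η / 4) η4
  obtain ⟨N₀, hN₀⟩ := params3 (Nat.card k) (ee 0 + 2 + 3) (R₀ + 1) 0
    (η / (16 * (Nat.card k : ℝ) ^ 2)) (by positivity)
  obtain ⟨M₁, hM₁⟩ := Win.lawAll k (ee 0) (η / 4) η4
  refine ⟨M₁ ^ 2 + M₁ + N₀, fun e n he hn hM hl hx Ev hEv => ?_⟩
  obtain ⟨K, s₀, J₀, K₃, K₄, D, c, p1, p2, p3, p4, p5⟩ := hN₀ e (by omega)
  obtain ⟨ε, hε⟩ := he
  obtain ⟨ν, hν⟩ := hn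
  have K1 : 1 ≤ K := by
    rcases Nat.eq_zero_or_pos K with h | h
    · rw [h] at p1
      omega
    · exact h
  have xK : n - 2 * e < K + 1 := lt_of_pow_lt_pow_left₀ 8 (Nat.zero_le _) (hx.trans_lt p1)
  have n2 : 2 * e ≤ n := le_trans (Nat.le_add_right _ _) hl
  have hP := p2 ε (by omega)
  rw [pow_zero] at p4 p5
  let A : Finset k[X] := (finite_natDegree_le e).toFinset.filter fun a => a.natDegree = e
  have mA : ∀ a, a ∈ A ↔ a.natDegree = e := fun a => by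
    simp only [A, Finset.mem_filter, Set.Finite.mem_toFinset, Set.mem_ofPred_eq]
    exact ⟨fun h => h.2, fun h => ⟨h.le, h⟩⟩
  have mB : ∀ b, b ∈ Win.Om k n ↔ Squarefree b ∧ b.natDegree = n := fun b => by
    simp only [Win.Om, Finset.mem_filter, Set.Finite.mem_toFinset, Set.mem_ofPred_eq]
    exact ⟨fun h => h.2, fun h => ⟨h.2.le, h⟩⟩
  have e1 : Prs k e n = ↑(A ×ˢ Win.Om k n) := by
    ext p
    simp only [Prs, Set.mem_ofPred_eq, Finset.mem_coe, Finset.mem_product, mA, mB]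
  have low := Win.CntP.low (k := k) n
  rw [← Nat.card_eq_fintype_card] at low
  have hB : 0 < (Win.Om k n).card := by
    have : 0 < Nat.card k ^ n := pow_pos q1 n
    omega
  have hA0 : 0 < A.card := Finset.card_pos.2 ⟨X ^ e, (mA _).2 (natDegree_X_pow e)⟩
  have sA : ∀ v : k[X] → Prop, {a | a ∈ A ∧ v a} = {a | a.natDegree = 2 * ε + 1 ∧ v a} :=
    fun v => by
      ext a
      simp only [Set.mem_ofPred_eq, mA, hε]
  have cA : {a : k[X] | a.natDegree = 2 * ε + 1}.ncard = A.card := by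
    rw [← Set.ncard_coe_finset]
    congr 1
    ext a
    simp only [Set.mem_ofPred_eq, Finset.mem_coe, mA, hε]
  have small : η / (16 * (Nat.card k : ℝ) ^ 2) ≤ η / 4 :=
    div_le_div_of_nonneg_left hη.le (by norm_num) (by nlinarith)
  have key := ym_abs A (Win.Om k n) (fun a b => Ev (a, b))
    (fun a b => dc (EW (ι a) (ι b)) 0 = 2 ^ ee 0) (fun b => NT b K)
    (P := ∏ m ∈ Finset.range J, Pa (ee m) (ee (m + 1))) (ρ := Win.PR (ee 0)) (η := η)
    (Finset.prod_nonneg fun _ _ => Pa_nonneg _ _)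
    (Finset.prod_le_one (fun _ _ => Pa_nonneg _ _) fun _ _ => Pa_le_one _ _) hη.le hA0 hB
    (fun b hb hg => ?_) ?_ (fun a ha => ?_)
  · rw [e1, Set.ncard_coe_finset]
    exact key
  · obtain ⟨b1, b2⟩ := (mB b).1 hb
    obtain ⟨o1, o2⟩ := oneY (b := b) (r := ee 0 + 2) (ν := ν) (ee := ee) η4.le b1 (b2.trans hν) hg
      (by omega) (by omega) hP hq le_rfl hA
    have e2 : {a | a ∈ A ∧ Ev (a, b)} = {a : k[X] | a.natDegree = 2 * ε + 1 ∧
        ∀ m ≤ J, dc (EW (ι a) (ι b)) m = 2 ^ ee m} := by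
      rw [sA]
      ext a
      exact and_congr_right fun h => hEv (a, b) ⟨h.trans hε.symm, b1, b2⟩ (o1 a h)
    rw [e2, sA]
    rw [cA] at o2
    refine o2.trans (mul_le_mul_of_nonneg_right ?_ (Nat.cast_nonneg _))
    have : 4 / (2 : ℝ) ^ K ≤ η / 4 := by
      rw [div_le_iff₀ (by positivity)]
      have := mul_le_mul_of_nonneg_right small (by positivity : (0 : ℝ) ≤ 2 ^ K)
      linarith
    linarith
  · have b1 := badB (k := k) (ν + 1) K (by omega)
    have b2 : {b | b ∈ Win.Om k n ∧ ¬ NT b K}.ncard ≤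
        {b : k[X] | b.natDegree ≤ 2 * (ν + 1) ∧ ¬ GoodB b (ν + 1) K}.ncard :=
      Set.ncard_le_ncard (fun b h => ⟨by have := ((mB b).1 h.1).2; omega, fun g => h.2 g.nt⟩)
        ((finite_natDegree_le (2 * (ν + 1))).subset fun _ h => h.1)
    have b3 : {b | b ∈ Win.Om k n ∧ ¬ NT b K}.ncard * 2 ^ ((K - 1) / 2) ≤
        (8 * e + 9) * (Nat.card k ^ 2 * (4 * (Win.Om k n).card)) := by
      refine (Nat.mul_le_mul_right _ b2).trans (b1.trans (Nat.mul_le_mul (by omega) ?_))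
      rw [show 2 * (ν + 1) + 1 = 2 + n by omega, pow_add]
      exact Nat.mul_le_mul_left _ low
    have b4 : ({b | b ∈ Win.Om k n ∧ ¬ NT b K}.ncard : ℝ) * 2 ^ ((K - 1) / 2) ≤
        (8 * e + 9) * ((Nat.card k : ℝ) ^ 2 * (4 * (Win.Om k n).card)) := by exact_mod_cast b3
    rw [one_mul] at p5
    have b5 := mul_le_mul_of_nonneg_right p5
      (by positivity : (0 : ℝ) ≤ (Nat.card k : ℝ) ^ 2 * (4 * (Win.Om k n).card))
    have b6 : η / (16 * (Nat.card k : ℝ) ^ 2) * 2 ^ ((K - 1) / 2) *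
        ((Nat.card k : ℝ) ^ 2 * (4 * (Win.Om k n).card)) =
        η / 4 * (Win.Om k n).card * 2 ^ ((K - 1) / 2) := by
      field_simp
      ring
    rw [b6] at b5
    exact le_of_mul_le_mul_right (b4.trans b5) (by positivity)
  · have ae := (mA a).1 ha
    have w : Win.Wn M₁ a n := by
      refine ⟨ae ▸ ⟨ε, hε⟩, ⟨ν, hν⟩, by omega, ?_, ?_⟩
      · rw [ae]
        exact le_trans (Nat.add_le_add_left (Nat.mul_le_mul_right _ (by omega)) _) hl
      · rw [ae]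
        have t := ym_sq (M := M₁) hx (by omega)
        have : n = 2 * e + (n - 2 * e) := by omega
        rw [this]
        nlinarith
    have l := hM₁ a n w
    rw [← Set.ncard_coe_finset (Finset.filter _ _), Finset.coe_filter] at l
    simp only [dc_zero]
    exact l

attribute [local instance 10000] Classical.propDecidable

theorem lawJ (k : Type) [Field k] [Fintype k] [CharP k 2] (ee : ℕ → ℕ) (J : ℕ) (η : ℝ)
    (hη : 0 < η) : ∃ M : ℕ, ∀ e n : ℕ, Odd e → Odd n → M ≤ e → 2 * e + M * Nat.log 2 e ≤ n →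
      (n - 2 * e) ^ 8 ≤ e → ∀ Ev : k[X] × k[X] → Prop,
      (∀ p ∈ Prs k e n, (∀ m, ∃ i, dc (EW (ι p.1) (ι p.2)) m =
        dc (EW (ι p.1) (ι p.2)) (m + 1) * 4 ^ i) →
        (Ev p ↔ ∀ m ≤ J, dc (EW (ι p.1) (ι p.2)) m = 2 ^ ee m)) →
      |({p | p ∈ Prs k e n ∧ Ev p}.ncard : ℝ) / (Prs k e n).ncard -
        Win.PR (ee 0) * ∏ m ∈ Finset.range J, Pa (ee m) (ee (m + 1))| ≤ η :=
  ym_main k ee J η hη

end Pool.Agent.Lib.MP_788af2_nt.AS
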