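import Pool.Agent.Lib.MP_a3f657_nt.BK.YOnt
import Pool.Agent.Lib.MP_a3f657_nt.BK.XItf
import Pool.Agent.Lib.MP_788af2_nt.TT.OneA

/-!
The average over the twists of one curve.
-/

set_option linter.unusedSectionVars false

namespace Pool.Agent.Lib.MP_788af2_nt.AS

open Polynomial WeierstrassCurve Pool.Agent.Lib.MP_a3f657_nt.Two Matrix

variable {k : Type} [Field k] [Finite k] [CharP k 2] {s : k[X]} {R D c : ℕ} {L : Type} [Field L]
  [CharP L 2] [DecidableEq L] {T : Tw (bet s R D c) L} {a b : k[X]} {H : AddSubgroup L}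
  {RW : G (Ix fun _ : Fin R => D) → ℕ → AddSubgroup ((T.Cw a b).Point × L)}
  {e r K s₀ J₀ K₃ K₄ ε : ℕ}

theorem Tw.Bas.oneX (h : T.Bas a b H RW K ε) (hP : Prm e (r + 3) R K s₀ J₀ K₃ K₄ D c ε)
    (he : Nat.card k ≤ 2 ^ e) (hR : 0 < R) {ee : ℕ → ℕ} {J R₀ : ℕ} {η : ℝ} (hr : ee 0 + 2 ≤ r)
    (hR₀ : R₀ ≤ R) (hη : 0 ≤ η) (hA : AlgB ee J η (r + 3) R₀)
    (g0 : T.Gd0 H (T.kap a b) (r + 3) K₄)
    (g2 : T.Gd2 H (T.kap a b) (r + 3) K₄ (((r + 3) * s₀ * R + 1) * (R + 1)))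
    (g3 : T.Gd3b H (T.kap a b) r K₄) (g1 : T.Gd1b H (T.kap a b) r K₄) :
    |({ξ | ∀ m ≤ J, (T.DD RW ξ m).ncard = 2 ^ ee m}.ncard : ℝ) -
      (∏ m ∈ Finset.range J, Pa (ee m) (ee (m + 1))) *
        {ξ | (T.DD RW ξ 0).ncard = 2 ^ ee 0}.ncard| ≤
      η * Fintype.card (G (Ix fun _ : Fin R => D)) := by
  classical
  obtain ⟨n, hn, vv, Ψ, ζ, B, h0⟩ := T.exists_fr0 h.kp he hP.hs
  obtain ⟨ν, hF, hν⟩ := h0.frm' h.kp
  obtain ⟨τ, hτ⟩ := (hF.range 1).1 (T.one_mem_Vs H _)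
  have τ0 : τ ≠ 0 := by
    rintro rfl
    exact zero_ne_one ((map_zero vv).symm.trans hτ)
  rcases le_or_gt n r with hnr | hnr
  · have h4 : 4 * K ≤ K₄ := by
      have a1 := hP.h4
      have a2 : 2 * (4 * K + 1 + J₀) + K ≤ 2 ^ (2 * (r + 3)) * (2 * (4 * K + 1 + J₀) + K) :=
        Nat.le_mul_of_pos_left _ (by positivity)
      omega
    have hO := hF.ont h.kp hτ (by simpa using hnr) h4 g3 g1
    have hC : T.Ctx a b H RW K ε vv Ψ ζ ν B τ :=
      { h with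
        fr0 := h0
        frm := hF
        ν_vv := hν
        τ_eq := hτ
        ont := fun o => by
          obtain ⟨C, h1, h2⟩ := exists_st τ0 o
          obtain ⟨ξ, h3⟩ := hO.2 C h1
          exact ⟨ξ, by rw [h3, h2]⟩
        sym := fun ψ => (hO.1 ψ).1
        two := by
          have a1 := hP.hD
          have a2 : D ≤ R * D := Nat.le_mul_of_pos_left _ hR
          simp only [Fintype.card_sigma, Fintype.card_fin, Finset.sum_const, Finset.card_univ,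
            smul_eq_mul]
          omega }
    obtain ⟨A, c', h1, h2, h3⟩ := hC.itf (J + 1)
    have hB : (fun g => redM (A g)) = B := funext h1
    refine hA _ (Fin n) A c' τ (fun ξ m => (T.DD RW ξ m).ncard) (by simp; omega) h2 τ0
      (hB ▸ hO) ?_ h3
    rw [hB]
    intro p Mt hMt
    obtain ⟨ξ, k1, k2⟩ := hF.clq h.kp (by simpa using hn) g0 g2 p Mt hMt
    exact ⟨fun l => ξ (Fin.castLE hR₀ l), fun l => k1 _, fun l l' u =>
      k2 _ _ fun e => u (Fin.castLE_injective hR₀ e)⟩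
  · have hV : Nat.card (T.Vs H (T.kap a b)) = 2 ^ n := by
      have e1 : T.Vs H (T.kap a b) = vv.range := AddSubgroup.ext fun z => hF.range z
      rw [e1, ← Nat.card_congr (AddMonoidHom.ofInjective hF.inj).toEquiv]
      simp
    have hne : ∀ ξ, (T.DD RW ξ 0).ncard ≠ 2 ^ ee 0 := fun ξ u => by
      have a1 := h.big ξ
      rw [hV, u, show 4 * 2 ^ ee 0 = 2 ^ (ee 0 + 2) by ring,
        Nat.pow_le_pow_iff_right (by norm_num)] at a1
      omega
    have e1 : {ξ | ∀ m ≤ J, (T.DD RW ξ m).ncard = 2 ^ ee m} = ∅ :=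
      Set.eq_empty_of_forall_notMem fun ξ u => hne ξ (u 0 (Nat.zero_le _))
    have e2 : {ξ | (T.DD RW ξ 0).ncard = 2 ^ ee 0} = ∅ :=
      Set.eq_empty_of_forall_notMem fun ξ u => hne ξ u
    rw [e1, e2]
    simp only [Set.ncard_empty, Nat.cast_zero, mul_zero, sub_zero, abs_zero]
    positivity

end Pool.Agent.Lib.MP_788af2_nt.AS
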