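import Pool.Agent.Lib.MP_a3f657_nt.BK.YOneA
import Pool.Agent.Lib.MP_a3f657_nt.BK.YBad3
import Pool.Agent.Lib.MP_a3f657_nt.BK.YBad1
import Pool.Agent.Lib.MP_a3f657_nt.BK.EAx
import Pool.Agent.Lib.MP_a3f657_nt.BK.EEx
import Pool.Agent.Lib.MP_a3f657_nt.BK.APf
import Pool.Agent.Lib.MP_788af2_nt.TT.Bad0
import Pool.Agent.Lib.MP_788af2_nt.TT.Bad2
import Pool.Agent.Lib.MP_788af2_nt.TT.HIso
import Pool.Agent.Lib.MP_788af2_nt.TT.HLift
import Pool.Agent.Lib.MP_788af2_nt.TT.HDisc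
import Pool.Agent.Lib.MP_788af2_nt.TT.HCount

/-!
The average over the first coefficient.
-/

set_option linter.unusedSectionVars false

namespace Pool.Agent.Lib.MP_788af2_nt.AS

open Polynomial WeierstrassCurve Pool.Agent.Lib.MP_a3f657_nt.Two

private lemma yb_avg {α Γ : Type} [Fintype Γ] [Nonempty Γ] (A : Finset α) (act : Γ → α → α)
    (hA : ∀ γ, ∀ a ∈ A, act γ a ∈ A) (hi : ∀ γ a, act γ (act γ a) = a) (φ : α → ℝ) {u v t : ℝ}
    (hu : 0 ≤ u) (hv : 0 ≤ v) (ht : 0 < t) (hφ : ∀ a ∈ A, φ a ≤ v) (P : Fin 4 → α → Prop)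
    (hP : ∀ i, ({a | a ∈ A ∧ ¬ P i a}.ncard : ℝ) * t ≤ A.card)
    (h : ∀ a ∈ A, (∀ i, P i a) → ∑ γ, φ (act γ a) ≤ u * Fintype.card Γ) :
    ∑ a ∈ A, φ a ≤ (u + 4 * v / t) * A.card := by
  classical
  have hΓ : (0 : ℝ) < Fintype.card Γ := by exact_mod_cast Fintype.card_pos
  have h1 : (Fintype.card Γ : ℝ) * ∑ a ∈ A, φ a = ∑ a ∈ A, ∑ γ, φ (act γ a) := by
    rw [Finset.sum_comm, ← nsmul_eq_mul, ← Finset.card_univ, ← Finset.sum_const]
    exact Finset.sum_congr rfl fun γ _ => Finset.sum_nbij' (act γ) (act γ) (hA γ) (hA γ)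
      (fun a _ => hi γ a) (fun a _ => hi γ a) fun a _ => by rw [hi]
  have h2 : ∀ a ∈ A, ∑ γ, φ (act γ a) ≤
      (u + ∑ i, if P i a then 0 else v) * Fintype.card Γ := by
    intro a ha
    by_cases hg : ∀ i, P i a
    · simpa [hg] using h a ha hg
    · obtain ⟨i, hi⟩ := not_forall.1 hg
      have h3 : v ≤ ∑ i, if P i a then 0 else v := by
        have := Finset.single_le_sum (f := fun i => if P i a then 0 else v)
          (fun j _ => by positivity) (Finset.mem_univ i)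
        rwa [if_neg hi] at this
      refine (Finset.sum_le_card_nsmul _ _ v fun γ _ => hφ _ (hA γ a ha)).trans ?_
      rw [nsmul_eq_mul, Finset.card_univ, mul_comm]
      exact mul_le_mul_of_nonneg_right (by linarith) hΓ.le
  have h4 : ∀ i, ∑ a ∈ A, (if P i a then 0 else v) ≤ v / t * A.card := by
    intro i
    have e : {a | a ∈ A ∧ ¬ P i a} = (A.filter fun a => ¬ P i a : Finset α) := by
      ext a
      simp
    have h5 := hP i
    rw [e, Set.ncard_coe_finset] at h5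
    rw [Finset.sum_ite, Finset.sum_const_zero, zero_add, Finset.sum_const, nsmul_eq_mul,
      div_mul_eq_mul_div, le_div_iff₀ ht, mul_right_comm, mul_comm]
    exact mul_le_mul_of_nonneg_left h5 hv
  have h5 := Finset.sum_le_sum h2
  rw [← h1, ← Finset.sum_mul, mul_comm, mul_le_mul_iff_left₀ hΓ, Finset.sum_add_distrib,
    Finset.sum_comm, Finset.sum_const, nsmul_eq_mul] at h5
  have h6 := Finset.sum_le_card_nsmul Finset.univ _ _ fun i _ => h4 i
  rw [Finset.card_univ, Fintype.card_fin, nsmul_eq_mul] at h6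
  have e : (u + 4 * v / t) * A.card = A.card * u + (4 : ℕ) * (v / t * A.card) := by
    push_cast
    ring
  linarith

private lemma yb_abs {α Γ : Type} [Fintype Γ] [Nonempty Γ] (A : Finset α) (act : Γ → α → α)
    (hA : ∀ γ, ∀ a ∈ A, act γ a ∈ A) (hi : ∀ γ a, act γ (act γ a) = a) (φ : α → ℝ) {u t : ℝ}
    (hu : 0 ≤ u) (ht : 0 < t) (hφ : ∀ a, |φ a| ≤ 1) (P : Fin 4 → α → Prop)
    (hP : ∀ i, ({a | a ∈ A ∧ ¬ P i a}.ncard : ℝ) * t ≤ A.card)
    (h : ∀ a ∈ A, (∀ i, P i a) → |∑ γ, φ (act γ a)| ≤ u * Fintype.card Γ) :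
    |∑ a ∈ A, φ a| ≤ (u + 4 / t) * A.card := by
  have h1 := yb_avg A act hA hi φ hu zero_le_one ht (fun a _ => (abs_le.1 (hφ a)).2) P hP
    fun a ha hg => (abs_le.1 (h a ha hg)).2
  have h2 := yb_avg A act hA hi (fun a => - φ a) hu zero_le_one ht
    (fun a _ => by have := (abs_le.1 (hφ a)).1; linarith) P hP fun a ha hg => by
      have := (abs_le.1 (h a ha hg)).1
      rw [Finset.sum_neg_distrib]
      linarith
  rw [Finset.sum_neg_distrib] at h2
  rw [mul_one] at h1 h2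
  exact abs_le.2 ⟨by linarith, h1⟩

open Classical in
private lemma yb_card {α : Type} (A : Finset α) (p q : α → Prop) (h : ∀ a, q a ↔ a ∈ A) :
    ({a | q a ∧ p a}.ncard : ℝ) = ∑ a ∈ A, if p a then (1 : ℝ) else 0 := by
  rw [Finset.sum_boole, ← Set.ncard_coe_finset]
  congr 2
  ext a
  simp [h]

open Classical in
private lemma yb_card' {α : Type} [Fintype α] (p : α → Prop) :
    ({a | p a}.ncard : ℝ) = ∑ a, if p a then (1 : ℝ) else 0 := by
  rw [← yb_card Finset.univ p (fun _ => True) (by simp)]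
  simp

variable {k : Type} [Field k] [Finite k] [CharP k 2]

private lemma yb_od {a : k[X]} {n : ℕ} (h : a.natDegree = 2 * n + 1) :
    od a ≠ 0 ∧ (od a).natDegree = n := by
  have h1 := ev_deg a
  have h2 := ev_od a
  have h3 : (ev a ^ 2).natDegree ≤ 2 * n := by rw [natDegree_pow]; omega
  have h0 : od a ≠ 0 := by
    intro h0
    rw [h0, zero_pow two_ne_zero, mul_zero, add_zero] at h2
    rw [← h2] at h3
    omega
  refine ⟨h0, ?_⟩
  have h4 := od_deg h0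
  by_contra h5
  have h6 : (X * od a ^ 2).natDegree ≤ 2 * n := by
    rw [natDegree_X_mul (pow_ne_zero 2 h0), natDegree_pow]
    omega
  have h7 := natDegree_add_le_of_degree_le h3 h6
  rw [← h2] at h7
  omega

private lemma yb_mem {a : k[X]} {n : ℕ} : a.natDegree = 2 * n + 1 ↔ a ∈ Ae k (2 * n + 1) n := by
  rw [mem_Ae]
  refine ⟨fun h => ⟨h.le, yb_od h⟩, fun h => ?_⟩
  have := od_deg h.2.1
  omega

private theorem yb_main {b : k[X]} {e r R₀ K s₀ J₀ K₃ K₄ D c ε ν J : ℕ} {ee : ℕ → ℕ} {η : ℝ} (hη : 0 ≤ η)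
    (hb : Squarefree b) (hn : b.natDegree = 2 * ν + 1) (hNT : NT b K) (h1 : ν ≤ 2 * ε + K)
    (h2 : 2 * ε ≤ ν) (hP : Prm e (r + 3) (R₀ + 1) K s₀ J₀ K₃ K₄ D c ε)
    (he : Nat.card k ≤ 2 ^ e) (hr : ee 0 + 2 ≤ r) (hA : AlgB ee J η (r + 3) R₀) :
    (∀ a : k[X], a.natDegree = 2 * ε + 1 → ∀ m, ∃ i,
      dc (EW (ι a) (ι b)) m = dc (EW (ι a) (ι b)) (m + 1) * 4 ^ i) ∧
    |({a : k[X] | a.natDegree = 2 * ε + 1 ∧
        ∀ m ≤ J, dc (EW (ι a) (ι b)) m = 2 ^ ee m}.ncard : ℝ) -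
      (∏ m ∈ Finset.range J, Pa (ee m) (ee (m + 1))) *
        {a : k[X] | a.natDegree = 2 * ε + 1 ∧ dc (EW (ι a) (ι b)) 0 = 2 ^ ee 0}.ncard| ≤
      (η + 4 / 2 ^ K) * {a : k[X] | a.natDegree = 2 * ε + 1}.ncard := by
  obtain ⟨o1, o2⟩ := yb_od hn
  have hc : IsCoprime b (derivative b) := PerfectField.separable_iff_squarefree.2 hb
  have hs : ∀ a, Adm2 b b 1 1 a := Tw.Env.adm_one o1 hc
  have hsK : (1 : k[X]).natDegree ≤ K := by simp
  have hK := hP.K_pos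
  obtain ⟨L, _, _, T, ⟨E⟩⟩ := exists_env (bet (1 : k[X]) (R₀ + 1) D c)
    (comb_bet_ne one_ne_zero (by have := hP.hc; omega))
  let _ : DecidableEq L := fun a b => Classical.propDecidable (a = b)
  have hC : T.Cfg (fun a => T.Hs b 1 a) K b 1 (2 * ε + 1) ε :=
    { pos := hP.K_pos
      hg := fun a =>
        { σ_mem := fun g h hh => T.Hs_σ g hh
          iso := fun h hh h' hh' => T.Hs_iso (hs a) hh hh'
          iso' := fun h hh ξ g hg => T.Hs_iso' (hs a) hh ξ g hg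
          lift := fun h hh hf => T.Hs_lift (hs a) dvd_bet hh hf
          disc := fun h hh hf hl => T.Hs_disc (hs a) dvd_bet hNT hh hf hl
          count := T.Hs_count (hs a) }
      inv := fun a μ hμ => T.Hs_flip b a hμ
      od_ne := o1
      ev_le := by have := ev_deg b; omega
      le1 := by omega
      le2 := by omega
      s_ne := one_ne_zero
      s_le := hsK
      N_ge := le_rfl }
  have key : ∀ a ∈ Ae k (2 * ε + 1) ε, T.Bas a b (T.Hs b 1 a) (E.RW a o1) K ε := fun a ha =>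
    { kp := hC.kp ha
      par :=
        { pos := hP.K_pos
          a_ne := (mem_Ae.1 ha).2.1
          a_od := (mem_Ae.1 ha).2.2
          a_le := (mem_Ae.1 ha).1.trans (by omega)
          b_ne := o1
          b_le := by omega
          le1 := hC.le1
          le2 := hC.le2
          big := by
            have h3 := gam_bet (R := R₀ + 1) (D := D) (c := c) hsK
            have h4 : ((5 * K + 5 * ((R₀ + 1) * D * (K + 4 ^ (R₀ + 1) * c + D + 1)) + 5 : ℕ) : ℝ) ≤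
                ε := by exact_mod_cast hP.e1
            push_cast at h3 h4
            linarith }
      ax := E.ax o1 hc a }
  refine ⟨fun a ha m => ?_, ?_⟩
  · have h3 := (key a (yb_mem.1 ha)).parity 0 m
    have h4 : a + X * comb (bet (1 : k[X]) (R₀ + 1) D c) 0 ^ 2 = a := by simp [comb]
    rw [E.dd_eq, E.dd_eq, Tw.Ew, h4] at h3
    exact h3
  obtain ⟨p, hp⟩ : ∃ p, p = ∏ m ∈ Finset.range J, Pa (ee m) (ee (m + 1)) := ⟨_, rfl⟩
  have p0 : 0 ≤ p := hp ▸ Finset.prod_nonneg fun _ _ => Pa_nonneg _ _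
  have p1 : p ≤ 1 := hp ▸ Finset.prod_le_one (fun _ _ => Pa_nonneg _ _) fun _ _ => Pa_le_one _ _
  have h5 : {a : k[X] | a.natDegree = 2 * ε + 1}.ncard = (Ae k (2 * ε + 1) ε).card := by
    rw [← Set.ncard_coe_finset]
    congr 1
    ext a
    exact yb_mem
  rw [← hp, yb_card _ _ _ fun _ => yb_mem, yb_card _ _ _ fun _ => yb_mem, h5, Finset.mul_sum,
    ← Finset.sum_sub_distrib]
  refine yb_abs _ (fun ξ a => a + X * comb (bet (1 : k[X]) (R₀ + 1) D c) ξ ^ 2)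
    (fun ξ a ha => Ae_flip ha le_rfl (degree_le_natDegree.trans_lt ?_))
    (fun ξ a => by rw [add_assoc, CharTwo.add_self_eq_zero, add_zero]) _ hη (by positivity)
    (fun a => ?_)
    ![fun a => T.Gd0 (T.Hs b 1 a) (T.kap a b) (r + 3) K₄,
      fun a => T.Gd2 (T.Hs b 1 a) (T.kap a b) (r + 3) K₄
        (((r + 3) * s₀ * (R₀ + 1) + 1) * (R₀ + 1 + 1)),
      fun a => T.Gd3b (T.Hs b 1 a) (T.kap a b) r K₄,
      fun a => T.Gd1b (T.Hs b 1 a) (T.kap a b) r K₄] (fun i => ?_) fun a ha hg => ?_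
  · have h3 := comb_bet_deg (R := R₀ + 1) (D := D) (c := c) hsK ξ
    have h4 := hP.e3
    exact_mod_cast (by omega : (comb (bet (1 : k[X]) (R₀ + 1) D c) ξ).natDegree < ε)
  · rw [abs_le]
    split_ifs <;> constructor <;> linarith
  · fin_cases i
    · exact_mod_cast T.bad0 hC hP he
    · exact_mod_cast T.bad2 hC hP he
    · exact_mod_cast T.bad3b hC hP he
    · exact_mod_cast T.bad1b hC hP he R₀.succ_pos
  · have h3 := (key a ha).oneX hP he R₀.succ_pos hr R₀.le_succ hη hA (hg 0) (hg 1) (hg 2) (hg 3)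
    simp only [E.dd_eq] at h3
    rw [← hp, yb_card', yb_card', Finset.mul_sum, ← Finset.sum_sub_distrib] at h3
    exact h3

attribute [local instance 10000] Classical.propDecidable

theorem oneY {b : k[X]} {e r R₀ K s₀ J₀ K₃ K₄ D c ε ν J : ℕ} {ee : ℕ → ℕ} {η : ℝ} (hη : 0 ≤ η)
    (hb : Squarefree b) (hn : b.natDegree = 2 * ν + 1) (hNT : NT b K) (h1 : ν ≤ 2 * ε + K)
    (h2 : 2 * ε ≤ ν) (hP : Prm e (r + 3) (R₀ + 1) K s₀ J₀ K₃ K₄ D c ε)
    (he : Nat.card k ≤ 2 ^ e) (hr : ee 0 + 2 ≤ r) (hA : AlgB ee J η (r + 3) R₀) :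
    (∀ a : k[X], a.natDegree = 2 * ε + 1 → ∀ m, ∃ i,
      dc (EW (ι a) (ι b)) m = dc (EW (ι a) (ι b)) (m + 1) * 4 ^ i) ∧
    |({a : k[X] | a.natDegree = 2 * ε + 1 ∧
        ∀ m ≤ J, dc (EW (ι a) (ι b)) m = 2 ^ ee m}.ncard : ℝ) -
      (∏ m ∈ Finset.range J, Pa (ee m) (ee (m + 1))) *
        {a : k[X] | a.natDegree = 2 * ε + 1 ∧ dc (EW (ι a) (ι b)) 0 = 2 ^ ee 0}.ncard| ≤
      (η + 4 / 2 ^ K) * {a : k[X] | a.natDegree = 2 * ε + 1}.ncard :=
  yb_main hη hb hn hNT h1 h2 hP he hr hA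

end Pool.Agent.Lib.MP_788af2_nt.AS
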