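import Pool.Agent.Lib.MP_a3f657_nt.BK.YDefs
import Pool.Agent.Lib.MP_788af2_nt.TT.Frame
import Pool.Agent.Lib.MP_788af2_nt.TT.Triv

/-!
The first derivatives fill the space of admissible matrices.
-/

set_option linter.unusedSectionVars false

namespace Pool.Agent.Lib.MP_788af2_nt.AS

open Polynomial WeierstrassCurve Pool.Agent.Lib.MP_a3f657_nt.Two Matrix

section

variable {W : Type} [Fintype W] [DecidableEq W] {τ : W → ZMod 2}

private lemma yont_two (u : W → ZMod 2) : u + u = 0 := funext fun i => z2_add_self (u i)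

private lemma yont_coord (hτ : τ ≠ 0) : ∃ i, τ i = 1 := by
  by_contra h
  exact hτ (funext fun i => (z2_cases (τ i)).resolve_right fun e => h ⟨i, e⟩)

private lemma yont_mul_self (u : W → ZMod 2) : u * u = u := by
  funext i
  rcases z2_cases (u i) with e | e <;> simp [e]

/-- A bivector that is trivial modulo the marked vector acts through a single vector. -/
theorem zbar {L ι : Type} [AddCommGroup L] [Fintype ι] (h2 : ∀ x : L, x + x = 0)
    (φ : (W → ZMod 2) →+ L) (hτ : τ ≠ 0) (hφ : ∀ u, φ u = 0 ↔ u = 0 ∨ u = τ)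
    {p w : ι → W → ZMod 2} (h : Triv (fun a => φ (p a)) fun a => φ (w a)) :
    ∃ z : W → ZMod 2, ∀ (A : Type) [AddCommGroup A] (Φ : (W → ZMod 2) → (W → ZMod 2) → A),
      (∀ u v v', Φ u (v + v') = Φ u v + Φ u v') → (∀ u v, Φ u v = Φ v u) →
      (∀ u, Φ u u = Φ τ u) → ∑ a, Φ (p a) (w a) = Φ τ z := by
  classical
  obtain ⟨i₀, hi₀⟩ := yont_coord hτ
  let π : (W → ZMod 2) →+ (W → ZMod 2) := AddMonoidHom.mk' (fun u => u + u i₀ • τ) fun x y => by
    rw [Pi.add_apply, add_smul]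
    abel
  have hπ : ∀ u, π u = u + u i₀ • τ := fun _ => rfl
  have hπτ : π τ = 0 := by rw [hπ, hi₀, one_smul, yont_two]
  have hwd : ∀ u v, φ u = φ v → π u = π v := fun u v e => by
    have e1 : φ (u + v) = 0 := by rw [map_add, e, h2]
    have e2 : π (u + v) = 0 := by
      rcases (hφ _).1 e1 with e3 | e3
      · rw [e3, map_zero]
      · rw [e3, hπτ]
    rw [map_add] at e2
    calc π u = π u + (π v + π v) := by rw [yont_two, add_zero]
      _ = π v := by rw [← add_assoc, e2, zero_add]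
  let sec : L → W → ZMod 2 := fun x => π (Function.invFun φ x)
  have hsec : ∀ u, sec (φ u) = π u := fun u => hwd _ _ (Function.invFun_eq ⟨u, rfl⟩)
  have h1 : Triv (fun a => π (p a)) fun a => π (w a) := by
    have := Triv.map h2 φ.range (p := fun a => φ (p a)) (w := fun a => φ (w a))
      (fun a => ⟨p a, rfl⟩) (fun a => ⟨w a, rfl⟩) sec (by
        rintro _ ⟨u, rfl⟩ _ ⟨v, rfl⟩
        rw [← map_add, hsec, hsec, hsec, map_add]) h
    simpa only [hsec] using this
  refine ⟨∑ a, (π (p a) * π (w a) +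
    (p a i₀ • π (w a) + w a i₀ • π (p a) + (p a i₀ * w a i₀) • τ)), ?_⟩
  intro A _ Φ hr hs hd
  let Ψ : (W → ZMod 2) → (W → ZMod 2) →+ A := fun u => AddMonoidHom.mk' (Φ u) (hr u)
  have hΨ : ∀ u v, Φ u v = Ψ u v := fun _ _ => rfl
  have hl : ∀ u u' v, Φ (u + u') v = Φ u v + Φ u' v := fun u u' v => by
    rw [hs, hr, hs v u, hs v u']
  have h0 : ∀ u, Φ u 0 = 0 := fun u => map_zero (Ψ u)
  have hx : ∀ u v, Φ u v + Φ u v = 0 := fun u v => by rw [← hr, yont_two, h0]
  have h3 := Triv.alt yont_two ⊤ (p := fun a => π (p a)) (w := fun a => π (w a))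
    (fun _ => trivial) (fun _ => trivial) (fun u v => Φ u v + Φ τ (u * v))
    (fun x _ y _ z _ => by rw [hl, add_mul, hr]; abel)
    (fun x _ y _ z _ => by rw [hr, mul_add, hr]; abel)
    (fun x _ => by rw [yont_mul_self, hd, hx]) h1
  have h4 : ∀ u v, Φ u v = Φ (π u) (π v) +
      Φ τ (u i₀ • π v + v i₀ • π u + (u i₀ * v i₀) • τ) := fun u v => by
    have eu : u = π u + u i₀ • τ := by rw [hπ, add_assoc, yont_two, add_zero]
    have ev : v = π v + v i₀ • τ := by rw [hπ, add_assoc, yont_two, add_zero]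
    conv_lhs => rw [eu, ev]
    generalize π u = u'
    generalize π v = v'
    rcases z2_cases (u i₀) with a | a <;> rcases z2_cases (v i₀) with b | b <;> rw [a, b]
    · simp [h0]
    · simp only [zero_smul, one_smul, add_zero, zero_add, zero_mul]
      rw [hr, hs u' τ]
    · simp only [zero_smul, one_smul, add_zero, mul_zero]
      rw [hl]
    · simp only [one_smul, mul_one]
      rw [hl, hr, hr, hr, hr, hs u' τ]
      abel
  rw [hΨ τ, map_sum]
  have h5 : ∀ a, Φ (p a) (w a) = (Φ (π (p a)) (π (w a)) + Φ τ (π (p a) * π (w a))) +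
      Ψ τ (π (p a) * π (w a) +
        (p a i₀ • π (w a) + w a i₀ • π (p a) + (p a i₀ * w a i₀) • τ)) := fun a => by
    rw [← hΨ, hr τ (π (p a) * π (w a)), add_assoc, ← add_assoc (Φ τ (π (p a) * π (w a))), hx,
      zero_add]
    exact h4 _ _
  rw [Finset.sum_congr rfl fun a _ => h5 a, Finset.sum_add_distrib, h3, zero_add]

private lemma yont_one {o : W → ZMod 2} (ho : o ⬝ᵥ τ = 1) :
    St τ (vecMulVec o o) ∧ vecMulVec o o *ᵥ τ = o := by
  have e : ∀ v, vecMulVec o o *ᵥ v = (o ⬝ᵥ v) • o := fun v => by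
    funext i
    simp only [mulVec, dotProduct, vecMulVec_apply, Pi.smul_apply, smul_eq_mul, mul_assoc,
      ← Finset.mul_sum]
    exact mul_comm _ _
  refine ⟨⟨by rw [transpose_vecMulVec], fun v => ?_⟩, by rw [e, ho, one_smul]⟩
  rw [e, dotProduct_smul, dotProduct_smul, dotProduct_comm v o, dotProduct_comm τ o, ho]
  rcases z2_cases (o ⬝ᵥ v) with a | a <;> simp [a]

private lemma yont_add {C C' : Matrix W W (ZMod 2)} (h : St τ C) (h' : St τ C') :
    St τ (C + C') :=
  ⟨by rw [transpose_add, h.1, h'.1], fun v => by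
    rw [add_mulVec, dotProduct_add, dotProduct_add, h.2, h'.2]⟩

private lemma yont_rep {r : ℕ} (hW : Fintype.card W ≤ r) (Λ : Matrix W W (ZMod 2) →+ ZMod 2) :
    ∃ p w : Fin r → W → ZMod 2, ∀ C, Λ C = ∑ a, p a ⬝ᵥ C *ᵥ w a := by
  classical
  obtain ⟨f⟩ : Nonempty (W ↪ Fin r) :=
    Function.Embedding.nonempty_of_card_le (by rwa [Fintype.card_fin])
  refine ⟨Function.extend f (fun i => Pi.single i 1) 0,
    Function.extend f (fun i j => Λ (single i j 1)) 0, fun C => ?_⟩
  have e1 : Λ C = ∑ i, ∑ j, C i j * Λ (single i j 1) := by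
    conv_lhs => rw [matrix_eq_sum_single C]
    simp only [map_sum]
    refine Finset.sum_congr rfl fun i _ => Finset.sum_congr rfl fun j _ => ?_
    rcases z2_cases (C i j) with a | a <;> simp [a]
  rw [e1]
  symm
  refine (Finset.sum_subset (Finset.subset_univ (Finset.univ.map f)) fun a _ ha => ?_).symm.trans
    ?_
  · rw [Function.extend_apply' _ _ _ (by simpa using ha), Pi.zero_apply, zero_dotProduct]
  · rw [Finset.sum_map]
    refine Finset.sum_congr rfl fun i _ => ?_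
    rw [f.injective.extend_apply, f.injective.extend_apply, single_dotProduct, one_mul]
    rfl

lemma exists_st (hτ : τ ≠ 0) (o : W → ZMod 2) :
    ∃ C : Matrix W W (ZMod 2), St τ C ∧ C *ᵥ τ = o := by
  rcases z2_cases (o ⬝ᵥ τ) with a | a
  · obtain ⟨i₀, hi₀⟩ := yont_coord hτ
    have h1 : (Pi.single i₀ 1 : W → ZMod 2) ⬝ᵥ τ = 1 := by rw [single_dotProduct, one_mul, hi₀]
    have h2 : (o + Pi.single i₀ 1) ⬝ᵥ τ = 1 := by rw [add_dotProduct, a, h1, zero_add]
    refine ⟨_, yont_add (yont_one h2).1 (yont_one h1).1, ?_⟩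
    rw [add_mulVec, (yont_one h2).2, (yont_one h1).2, add_assoc, yont_two, add_zero]
  · exact ⟨_, yont_one a⟩

end

namespace Tw

variable {k : Type} [Field k] [Finite k] [CharP k 2] {I : Type} [Fintype I] [DecidableEq I]
  {β : I → k[X]} {L : Type} [Field L] [CharP L 2] {T : Tw β L} {H : AddSubgroup L} {κ : L}
  {K K₄ r : ℕ} {W : Type} [Fintype W] [DecidableEq W] {vv : (W → ZMod 2) →+ L}
  {ν : L →+ (W → ZMod 2)} {B : G I → Matrix W W (ZMod 2)} {τ : W → ZMod 2}

theorem Frm.ont (hK : T.Kp H κ K) (hF : T.Frm H κ vv ν B) (hτ : vv τ = 1)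
    (hW : Fintype.card W ≤ r) (h4 : 4 * K ≤ K₄) (g3 : T.Gd3b H κ r K₄) (g1 : T.Gd1b H κ r K₄) :
    Ont B τ := by
  have hV : ∀ u, vv u ∈ T.Vs H κ := fun u => (hF.range _).2 ⟨u, rfl⟩
  have hτ0 : τ ≠ 0 := by
    rintro rfl
    exact zero_ne_one ((map_zero vv).symm.trans hτ)
  have ent : ∀ (M : Matrix W W (ZMod 2)) (i j : W),
      M i j = Pi.single i 1 ⬝ᵥ M *ᵥ Pi.single j 1 := fun M i j => by simp
  refine ⟨fun ξ => ⟨?_, fun v => ?_⟩, fun C hC => ?_⟩
  · ext i j
    rw [transpose_apply, ent (D1 B ξ) j i, ent (D1 B ξ) i j, hF.d1_eq, hF.d1_eq,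
      hK.d1_symm (hV _) (hV _)]
  · rw [hF.d1_eq, hF.d1_eq, hτ, hK.d1_wu (hV _)]
  by_contra hne
  obtain ⟨Λ, h1, h2⟩ := exists_sep_hom (V := Matrix W W (ZMod 2))
    (fun x => by ext i j; exact z2_add_self _) (AddMonoidHom.mk' (D1 B) (D1_add B)).range
    (v := C) hne
  obtain ⟨p, w, hpw⟩ := yont_rep hW Λ
  have h3 : ∑ a, Gq (vv (p a)) (vv (w a)) ∈ T.d.Le (-K₄) := by
    by_contra h
    obtain ⟨ξ, hξ⟩ := g1 _ _ (fun a => hV (p a)) (fun a => hV (w a)) h
    refine hξ ?_
    simp only [← hF.d1_eq]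
    rw [← hpw]
    exact h2 _ ⟨ξ, rfl⟩
  have h5 : Triv (fun a => T.P.c1 (vv (p a))) fun a => T.P.c1 (vv (w a)) := by
    by_contra h
    exact g3 _ _ (fun a => hV (p a)) (fun a => hV (w a)) h h3
  obtain ⟨z, hz⟩ := zbar (L := L) CharTwo.add_self_eq_zero (T.P.c1h.comp vv) hτ0 (fun u => by
    change T.P.c1 (vv u) = 0 ↔ _
    constructor
    · intro e
      rcases Kr.cases (hV u).1.1 e with e | e
      · exact Or.inl (hF.inj (by rw [e, map_zero]))
      · exact Or.inr (hF.inj (e.trans hτ.symm))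
    · rintro (rfl | rfl)
      · rw [map_zero, PB.c1_zero]
      · rw [hτ, PB.c1_one]) (p := p) (w := w) h5
  have h6 := hz L (fun u v => Gq (vv u) (vv v))
    (fun u v v' => by simp only [map_add, Gq]; grind) (fun u v => by simp only [Gq]; ring)
    (fun u => by simp only [hτ, Gq]; grind)
  have h7 : z = 0 := by
    by_contra hz0
    have h4' : 4 * (K : ℝ) ≤ K₄ := by exact_mod_cast h4
    refine hK.V_not_le (hV z) (fun e => hz0 (hF.inj (by rw [e, map_zero])))
      (DF.Le.of_sq (r := -K₄) ?_ (by linarith))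
    have e : vv z ^ 2 = Gq (vv τ) (vv z) := by simp only [hτ, Gq]; grind
    rw [e, ← h6]
    exact h3
  have h8 := hz (ZMod 2) (fun u v => u ⬝ᵥ C *ᵥ v)
    (fun u v v' => by rw [mulVec_add, dotProduct_add])
    (fun u v => by
      rw [dotProduct_mulVec, ← mulVec_transpose, hC.1, dotProduct_comm]) hC.2
  refine h1 ?_
  rw [hpw, h8, h7, mulVec_zero, dotProduct_zero]

end Tw

end Pool.Agent.Lib.MP_788af2_nt.AS
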